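import Pool.Agent.MC95.Loc

/-!
# The bits of a local board

PLAN. Everything about bits goes through `Nat.testBit` (`Nat.testBit_or`, `Nat.testBit_and`,
`Nat.testBit_xor`, `Nat.testBit_shiftLeft`, `Nat.testBit_shiftRight`, `Nat.testBit_one_shiftLeft` or
similar). For `full` and `zone`: induction on `n` in `rows`; the patterns `rowBits`, `zoneBits` are
concrete numbers below `2 ^ 33`, whose bits can be found by `decide`/`interval_cases`.
-/

namespace Pool.Agent.MC95

private theorem testBit_rowBits (p i : ℕ) :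
    (rowBits p).testBit i = true ↔ i ≤ 32 ∧ (i + p) % 2 = 0 := by
  have h0 : ∀ i < 33, ((4 ^ 17 - 1) / 3 : ℕ).testBit i = decide (i % 2 = 0) := by decide
  have h1 : ∀ i < 33, (2 * ((4 ^ 16 - 1) / 3) : ℕ).testBit i = decide (i % 2 = 1) := by decide
  by_cases hi : i < 33
  · unfold rowBits
    split_ifs with hp
    · rw [h0 i hi, decide_eq_true_iff]
      omega
    · rw [h1 i hi, decide_eq_true_iff]
      omega
  · have hlt : rowBits p < 2 ^ 33 := by
      unfold rowBits
      split_ifs <;> norm_num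
    have h2 : (rowBits p).testBit i = false :=
      Nat.testBit_lt_two_pow (hlt.trans_le (Nat.pow_le_pow_right (by norm_num) (by omega)))
    rw [h2]
    constructor
    · intro h
      exact absurd h (by decide)
    · intro h
      omega

private theorem testBit_zoneBits (p i : ℕ) :
    (zoneBits p).testBit i = true ↔ 2 ≤ i ∧ i ≤ 30 ∧ (i + p) % 2 = 0 := by
  have h0 : ∀ i < 33, (4 * ((4 ^ 15 - 1) / 3) : ℕ).testBit i = decide (2 ≤ i ∧ i ≤ 30 ∧ i % 2 = 0) := by
    decide
  have h1 : ∀ i < 33, (8 * ((4 ^ 14 - 1) / 3) : ℕ).testBit i = decide (2 ≤ i ∧ i ≤ 30 ∧ i % 2 = 1) := by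
    decide
  by_cases hi : i < 33
  · unfold zoneBits
    split_ifs with hp
    · rw [h0 i hi, decide_eq_true_iff]
      omega
    · rw [h1 i hi, decide_eq_true_iff]
      omega
  · have hlt : zoneBits p < 2 ^ 33 := by
      unfold zoneBits
      split_ifs <;> norm_num
    have h2 : (zoneBits p).testBit i = false :=
      Nat.testBit_lt_two_pow (hlt.trans_le (Nat.pow_le_pow_right (by norm_num) (by omega)))
    rw [h2]
    constructor
    · intro h
      exact absurd h (by decide)
    · intro h
      omega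

private theorem testBit_rows (f : ℕ → ℕ) (lo n i : ℕ) : (rows f lo n).testBit i = true ↔
    ∃ y, lo ≤ y ∧ y < lo + n ∧ 64 * y ≤ i ∧ (f y).testBit (i - 64 * y) = true := by
  induction n with
  | zero =>
    unfold rows
    rw [Nat.zero_testBit]
    constructor
    · intro h
      exact absurd h (by decide)
    · rintro ⟨y, h1, h2, -⟩
      omega
  | succ n ih =>
    unfold rows
    rw [Nat.testBit_or, Bool.or_eq_true, ih, Nat.testBit_shiftLeft, Bool.and_eq_true,
      decide_eq_true_iff]
    constructor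
    · rintro (⟨y, h1, h2, h3, h4⟩ | ⟨h3, h4⟩)
      · exact ⟨y, h1, by omega, h3, h4⟩
      · exact ⟨lo + n, by omega, by omega, h3, h4⟩
    · rintro ⟨y, h1, h2, h3, h4⟩
      by_cases hy : y = lo + n
      · subst hy
        exact Or.inr ⟨h3, h4⟩
      · exact Or.inl ⟨y, h1, by omega, h3, h4⟩

theorem testBit_full (lo n i : ℕ) : (full lo n).testBit i = true ↔
    ∃ x y : ℕ, x ≤ 32 ∧ lo ≤ y ∧ y < lo + n ∧ (x + y) % 2 = 0 ∧ i = x + 64 * y := by
  unfold full
  rw [testBit_rows]
  constructor
  · rintro ⟨y, h1, h2, h3, h4⟩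
    rw [testBit_rowBits] at h4
    exact ⟨i - 64 * y, y, h4.1, h1, h2, h4.2, by omega⟩
  · rintro ⟨x, y, h1, h2, h3, h4, h5⟩
    refine ⟨y, h2, h3, by omega, ?_⟩
    rw [testBit_rowBits]
    have : i - 64 * y = x := by omega
    rw [this]
    exact ⟨h1, h4⟩

theorem testBit_zone (lo n i : ℕ) : (zone lo n).testBit i = true ↔
    ∃ x y : ℕ, 2 ≤ x ∧ x ≤ 30 ∧ lo ≤ y ∧ y < lo + n ∧ (x + y) % 2 = 0 ∧ i = x + 64 * y := by
  unfold zone
  rw [testBit_rows]
  constructor
  · rintro ⟨y, h1, h2, h3, h4⟩
    rw [testBit_zoneBits] at h4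
    exact ⟨i - 64 * y, y, h4.1, h4.2.1, h1, h2, h4.2.2, by omega⟩
  · rintro ⟨x, y, h0, h1, h2, h3, h4, h5⟩
    refine ⟨y, h2, h3, by omega, ?_⟩
    rw [testBit_zoneBits]
    have : i - 64 * y = x := by omega
    rw [this]
    exact ⟨h0, h1, h4⟩

theorem ix_eq {x y : ℤ} (hx : -4 ≤ x) (hy : -6 ≤ y) :
    ((ix x y : ℕ) : ℤ) = (x + 4) + 64 * (y + 6) := by
  unfold ix
  omega

theorem ix_inj {x y x' y' : ℤ} (hx : -4 ≤ x) (hx1 : x ≤ 59) (hy : -6 ≤ y) (hx' : -4 ≤ x')
    (hx1' : x' ≤ 59) (hy' : -6 ≤ y') (h : ix x y = ix x' y') : x = x' ∧ y = y' := by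
  have h1 := ix_eq hx hy
  have h2 := ix_eq hx' hy'
  rw [h, h2] at h1
  constructor <;> omega

private theorem testBit_shr (n s i : ℕ) : (n >>> s).testBit i = n.testBit (i + s) := by
  rw [Nat.testBit_shiftRight, Nat.add_comm]

private theorem testBit_shl (n s i : ℕ) :
    (n <<< s).testBit i = true ↔ s ≤ i ∧ n.testBit (i - s) = true := by
  rw [Nat.testBit_shiftLeft, Bool.and_eq_true, decide_eq_true_iff]

private theorem testBit_first (L : LB) (c : Color) (d : Dg) (i : ℕ) :
    ((if d.fwd c then L.own c else L.own c &&& L.k).testBit i = true) ↔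
      (L.own c).testBit i = true ∧ (d.fwd c = true ∨ L.k.testBit i = true) := by
  split_ifs with h
  · simp [h]
  · rw [Nat.testBit_and, Bool.and_eq_true]
    simp [h]

/-- The bits of a set of jumps. -/
theorem testBit_caps (F : ℕ) (L : LB) (c : Color) (d : Dg) (i : ℕ) :
    (L.caps F c d).testBit i = true ↔
      (L.own c).testBit i = true ∧ (d.fwd c = true ∨ L.k.testBit i = true) ∧
      (match d with
        | .ur => (L.own c.other).testBit (i + 65) = true ∧
            (F ^^^ (L.w ||| L.b)).testBit (i + 130) = true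
        | .ul => (L.own c.other).testBit (i + 63) = true ∧
            (F ^^^ (L.w ||| L.b)).testBit (i + 126) = true
        | .dr => 126 ≤ i ∧ (L.own c.other).testBit (i - 63) = true ∧
            (F ^^^ (L.w ||| L.b)).testBit (i - 126) = true
        | .dl => 130 ≤ i ∧ (L.own c.other).testBit (i - 65) = true ∧
            (F ^^^ (L.w ||| L.b)).testBit (i - 130) = true) := by
  unfold LB.caps
  rw [Nat.testBit_and, Bool.and_eq_true, testBit_first, Nat.testBit_and, Bool.and_eq_true, and_assoc]
  refine and_congr_right fun _ => and_congr_right fun _ => ?_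
  generalize F ^^^ (L.w ||| L.b) = G
  generalize L.own c.other = O
  cases d with
  | ur =>
    have h1 : (Dg.sh .ur O).testBit i = O.testBit (i + 65) := testBit_shr _ _ _
    have h2 : (Dg.sh .ur (Dg.sh .ur G)).testBit i = G.testBit (i + 130) := by
      have h3 : (Dg.sh .ur (Dg.sh .ur G)).testBit i = (Dg.sh .ur G).testBit (i + 65) := testBit_shr _ _ _
      have h4 : (Dg.sh .ur G).testBit (i + 65) = G.testBit (i + 65 + 65) := testBit_shr _ _ _
      rw [h3, h4, show i + 65 + 65 = i + 130 by omega]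
    rw [h1, h2]
  | ul =>
    have h1 : (Dg.sh .ul O).testBit i = O.testBit (i + 63) := testBit_shr _ _ _
    have h2 : (Dg.sh .ul (Dg.sh .ul G)).testBit i = G.testBit (i + 126) := by
      have h3 : (Dg.sh .ul (Dg.sh .ul G)).testBit i = (Dg.sh .ul G).testBit (i + 63) := testBit_shr _ _ _
      have h4 : (Dg.sh .ul G).testBit (i + 63) = G.testBit (i + 63 + 63) := testBit_shr _ _ _
      rw [h3, h4, show i + 63 + 63 = i + 126 by omega]
    rw [h1, h2]
  | dr =>
    have h1 : (Dg.sh .dr O).testBit i = true ↔ 63 ≤ i ∧ O.testBit (i - 63) = true := testBit_shl _ _ _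
    have h2 : (Dg.sh .dr (Dg.sh .dr G)).testBit i = true ↔ 63 ≤ i ∧ (Dg.sh .dr G).testBit (i - 63) = true :=
      testBit_shl _ _ _
    have h3 : (Dg.sh .dr G).testBit (i - 63) = true ↔ 63 ≤ i - 63 ∧ G.testBit (i - 63 - 63) = true :=
      testBit_shl _ _ _
    rw [h1, h2, h3, show i - 63 - 63 = i - 126 by omega]
    constructor
    · rintro ⟨⟨h4, h5⟩, h6, h7, h8⟩
      exact ⟨by omega, h5, h8⟩
    · rintro ⟨h4, h5, h6⟩
      exact ⟨⟨by omega, h5⟩, by omega, by omega, h6⟩
  | dl =>
    have h1 : (Dg.sh .dl O).testBit i = true ↔ 65 ≤ i ∧ O.testBit (i - 65) = true := testBit_shl _ _ _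
    have h2 : (Dg.sh .dl (Dg.sh .dl G)).testBit i = true ↔ 65 ≤ i ∧ (Dg.sh .dl G).testBit (i - 65) = true :=
      testBit_shl _ _ _
    have h3 : (Dg.sh .dl G).testBit (i - 65) = true ↔ 65 ≤ i - 65 ∧ G.testBit (i - 65 - 65) = true :=
      testBit_shl _ _ _
    rw [h1, h2, h3, show i - 65 - 65 = i - 130 by omega]
    constructor
    · rintro ⟨⟨h4, h5⟩, h6, h7, h8⟩
      exact ⟨by omega, h5, h8⟩
    · rintro ⟨h4, h5, h6⟩
      exact ⟨⟨by omega, h5⟩, by omega, by omega, h6⟩

private theorem testBit_one (i j : ℕ) : ((1 : ℕ) <<< i).testBit j = decide (i = j) := by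
  rw [Nat.one_shiftLeft, Nat.testBit_two_pow]

private theorem testBit_clear (n i j : ℕ) :
    (if n.testBit i then n ^^^ (1 <<< i) else n).testBit j = if j = i then false else n.testBit j := by
  by_cases hij : j = i
  · subst hij
    rw [if_pos rfl]
    split_ifs with h
    · rw [Nat.testBit_xor, testBit_one, h]
      simp
    · simpa using h
  · rw [if_neg hij]
    split_ifs with h
    · rw [Nat.testBit_xor, testBit_one]
      have : ¬ i = j := fun h' => hij h'.symm
      simp [this]
    · rfl

private theorem testBit_set (n i j : ℕ) :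
    (n ||| (1 <<< i)).testBit j = if j = i then true else n.testBit j := by
  rw [Nat.testBit_or, testBit_one]
  by_cases hij : j = i
  · subst hij
    simp
  · have : ¬ i = j := fun h' => hij h'.symm
    simp [this, hij]

private def isW : Option Piece → Bool
  | some ⟨.white, _⟩ => true
  | _ => false

private def isB : Option Piece → Bool
  | some ⟨.black, _⟩ => true
  | _ => false

private def isK : Option Piece → Bool
  | some ⟨_, true⟩ => true
  | _ => false

private theorem put_w (L : LB) (x y : ℤ) (o : Option Piece) (j : ℕ) :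
    (L.put x y o).w.testBit j = if j = ix x y then isW o else L.w.testBit j := by
  rcases o with _ | ⟨⟨_ | _⟩, _ | _⟩ <;> simp only [LB.put, isW, testBit_clear, testBit_set] <;>
    split_ifs <;> rfl

private theorem put_b (L : LB) (x y : ℤ) (o : Option Piece) (j : ℕ) :
    (L.put x y o).b.testBit j = if j = ix x y then isB o else L.b.testBit j := by
  rcases o with _ | ⟨⟨_ | _⟩, _ | _⟩ <;> simp only [LB.put, isB, testBit_clear, testBit_set] <;>
    split_ifs <;> rfl

private theorem put_k (L : LB) (x y : ℤ) (o : Option Piece) (j : ℕ) :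
    (L.put x y o).k.testBit j = if j = ix x y then isK o else L.k.testBit j := by
  rcases o with _ | ⟨⟨_ | _⟩, _ | _⟩ <;> simp only [LB.put, isK, testBit_clear, testBit_set] <;>
    split_ifs <;> rfl

/-- Changing a square: bits. -/
theorem get_put (L : LB) (x y x' y' : ℤ) (o : Option Piece) (hx : -4 ≤ x) (hx1 : x ≤ 59)
    (hy : -6 ≤ y) (hx' : -4 ≤ x') (hx1' : x' ≤ 59) (hy' : -6 ≤ y')
    (hwf : L.w &&& L.b = 0) (hk : L.k ||| (L.w ||| L.b) = L.w ||| L.b) :
    (L.put x y o).get x' y' = if x' = x ∧ y' = y then o else L.get x' y' := by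
  by_cases h : x' = x ∧ y' = y
  · rw [if_pos h, h.1, h.2]
    unfold LB.get
    rw [put_w, put_b, put_k, if_pos rfl, if_pos rfl, if_pos rfl]
    rcases o with _ | ⟨⟨_ | _⟩, _ | _⟩ <;> rfl
  · rw [if_neg h]
    have hne : ix x' y' ≠ ix x y := fun he => h (ix_inj hx' hx1' hy' hx hx1 hy he)
    unfold LB.get
    rw [put_w, put_b, put_k, if_neg hne, if_neg hne, if_neg hne]

/-- Restriction to a set of squares. -/
theorem get_restr (L : LB) (M : ℕ) (x y : ℤ) :
    (L.restr M).get x y = if M.testBit (ix x y) then L.get x y else none := by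
  unfold LB.get LB.restr
  simp only [Nat.testBit_and]
  cases M.testBit (ix x y) <;> simp

private theorem or_eq_iff (a F : ℕ) : a ||| F = F ↔ ∀ j, a.testBit j = true → F.testBit j = true := by
  constructor
  · intro h j hj
    rw [← h, Nat.testBit_or, hj, Bool.true_or]
  · intro h
    apply Nat.eq_of_testBit_eq
    intro j
    rw [Nat.testBit_or]
    cases ha : a.testBit j
    · rw [Bool.false_or]
    · rw [h j ha, Bool.true_or]

private theorem and_eq_iff (a b : ℕ) : a &&& b = 0 ↔ ∀ j, ¬ (a.testBit j = true ∧ b.testBit j = true) := by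
  constructor
  · intro h j hj
    have h1 : (a &&& b).testBit j = true := by
      rw [Nat.testBit_and, hj.1, hj.2, Bool.true_and]
    rw [h, Nat.zero_testBit] at h1
    exact absurd h1 (by decide)
  · intro h
    apply Nat.eq_of_testBit_eq
    intro j
    rw [Nat.testBit_and, Nat.zero_testBit]
    have := h j
    cases ha : a.testBit j <;> cases hb : b.testBit j <;> simp_all

private theorem wf_iff (F : ℕ) (L : LB) : L.wf F = true ↔
    (∀ j, L.w.testBit j = true → F.testBit j = true) ∧ (∀ j, L.b.testBit j = true → F.testBit j = true) ∧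
    (∀ j, ¬ (L.w.testBit j = true ∧ L.b.testBit j = true)) ∧
    ∀ j, L.k.testBit j = true → L.w.testBit j = true ∨ L.b.testBit j = true := by
  unfold LB.wf
  rw [Bool.and_eq_true, Bool.and_eq_true, Bool.and_eq_true, decide_eq_true_iff, decide_eq_true_iff,
    decide_eq_true_iff, decide_eq_true_iff, or_eq_iff, or_eq_iff, and_eq_iff, or_eq_iff]
  simp only [Nat.testBit_or, Bool.or_eq_true]
  tauto

/-- Changing a dark square of the window preserves well-formedness. -/
theorem wf_put {F : ℕ} {L : LB} (h : L.wf F = true) (x y : ℤ) (o : Option Piece)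
    (hF : F.testBit (ix x y) = true) : (L.put x y o).wf F = true := by
  rw [wf_iff] at h ⊢
  obtain ⟨h1, h2, h3, h4⟩ := h
  simp only [put_w, put_b, put_k]
  refine ⟨fun j hj => ?_, fun j hj => ?_, fun j hj => ?_, fun j hj => ?_⟩
  · by_cases hij : j = ix x y
    · rw [hij]
      exact hF
    · rw [if_neg hij] at hj
      exact h1 j hj
  · by_cases hij : j = ix x y
    · rw [hij]
      exact hF
    · rw [if_neg hij] at hj
      exact h2 j hj
  · by_cases hij : j = ix x y
    · rw [if_pos hij, if_pos hij] at hj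
      rcases o with _ | ⟨⟨_ | _⟩, _ | _⟩ <;> simp [isW, isB] at hj
    · rw [if_neg hij, if_neg hij] at hj
      exact h3 j hj
  · by_cases hij : j = ix x y
    · rw [if_pos hij] at hj ⊢
      rw [if_pos hij]
      rcases o with _ | ⟨⟨_ | _⟩, _ | _⟩ <;> simp [isW, isB, isK] at hj ⊢
    · rw [if_neg hij] at hj ⊢
      rw [if_neg hij]
      exact h4 j hj

end Pool.Agent.MC95
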