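import Pool.Agent.MC95.Bits

/-!
# Jumps in a window

PLAN. Use `testBit_caps`, `testBit_full`, `ix_eq`, `ix_inj`. Every set bit of `L.w`, `L.b` is a set
bit of `f.F` (this is `LB.wf`; `L.w ||| F = F` means that every bit of `L.w` is a bit of `F`), so its
index is `x + 64 * y` with `x ≤ 32`; since `x + 2 < 64`, adding or subtracting `63`, `65` moves to
the diagonally adjacent square (a carry into the next row would lead to a column `≥ 62`, where `F`
has no bits). A jump that touches the zone has all three squares in the window, because the window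
extends the zone by two squares on each side. The frame is inside the rows `1, ..., N - 2`, so no
piece is promoted. `f.hp` says that local and global parities of squares agree.
-/

namespace Pool.Agent.MC95

variable {f : Frame}

/-! ### bits and squares -/

private theorem wf_bits {F : ℕ} {L : LB} (h : L.wf F = true) :
    (∀ j, L.w.testBit j = true → F.testBit j = true) ∧
    (∀ j, L.b.testBit j = true → F.testBit j = true) ∧
    (∀ j, L.w.testBit j = true → L.b.testBit j = true → False) ∧
    ∀ j, L.k.testBit j = true → L.w.testBit j = true ∨ L.b.testBit j = true := by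
  unfold LB.wf at h
  rw [Bool.and_eq_true, Bool.and_eq_true, Bool.and_eq_true, decide_eq_true_iff, decide_eq_true_iff,
    decide_eq_true_iff, decide_eq_true_iff] at h
  obtain ⟨⟨⟨h1, h2⟩, h3⟩, h4⟩ := h
  refine ⟨fun j hj => ?_, fun j hj => ?_, fun j hj hj' => ?_, fun j hj => ?_⟩
  · rw [← h1, Nat.testBit_or, hj, Bool.true_or]
  · rw [← h2, Nat.testBit_or, hj, Bool.true_or]
  · have h5 : (L.w &&& L.b).testBit j = true := by rw [Nat.testBit_and, hj, hj', Bool.true_and]
    rw [h3, Nat.zero_testBit] at h5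
    exact absurd h5 (by decide)
  · have h5 : (L.k ||| (L.w ||| L.b)).testBit j = true := by
      rw [Nat.testBit_or, hj, Bool.true_or]
    rw [h4, Nat.testBit_or, Bool.or_eq_true] at h5
    exact h5

private theorem wf_of_bits {F : ℕ} {L : LB}
    (h1 : ∀ j, L.w.testBit j = true → F.testBit j = true)
    (h2 : ∀ j, L.b.testBit j = true → F.testBit j = true)
    (h3 : ∀ j, L.w.testBit j = true → L.b.testBit j = true → False)
    (h4 : ∀ j, L.k.testBit j = true → L.w.testBit j = true ∨ L.b.testBit j = true) :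
    L.wf F = true := by
  unfold LB.wf
  rw [Bool.and_eq_true, Bool.and_eq_true, Bool.and_eq_true, decide_eq_true_iff, decide_eq_true_iff,
    decide_eq_true_iff, decide_eq_true_iff]
  refine ⟨⟨⟨Nat.eq_of_testBit_eq fun j => ?_, Nat.eq_of_testBit_eq fun j => ?_⟩,
    Nat.eq_of_testBit_eq fun j => ?_⟩, Nat.eq_of_testBit_eq fun j => ?_⟩
  · rw [Nat.testBit_or]
    have := h1 j
    cases hw : L.w.testBit j
    · rw [Bool.false_or]
    · rw [this hw, Bool.true_or]
  · rw [Nat.testBit_or]
    have := h2 j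
    cases hw : L.b.testBit j
    · rw [Bool.false_or]
    · rw [this hw, Bool.true_or]
  · rw [Nat.testBit_and, Nat.zero_testBit]
    have := h3 j
    cases hw : L.w.testBit j
    · rw [Bool.false_and]
    · cases hb : L.b.testBit j
      · rw [Bool.and_false]
      · exact (this hw hb).elim
  · rw [Nat.testBit_or, Nat.testBit_or]
    have := h4 j
    cases hk : L.k.testBit j
    · rw [Bool.false_or]
    · rcases this hk with h | h
      · rw [h, Bool.true_or, Bool.true_or]
      · rw [h, Bool.or_true, Bool.true_or]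

private theorem own_F {F : ℕ} {L : LB} (h : L.wf F = true) {c : Color} {j : ℕ}
    (hj : (L.own c).testBit j = true) : F.testBit j = true := by
  cases c
  · exact (wf_bits h).1 j hj
  · exact (wf_bits h).2.1 j hj

private theorem own_disj {F : ℕ} {L : LB} (h : L.wf F = true) {c : Color} {j : ℕ}
    (hj : (L.own c).testBit j = true) (hj' : (L.own c.other).testBit j = true) : False := by
  cases c
  · exact (wf_bits h).2.2.1 j hj hj'
  · exact (wf_bits h).2.2.1 j hj' hj

private theorem get_some {F : ℕ} {L : LB} (h : L.wf F = true) {x y : ℤ} {c : Color} {k : Bool} :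
    L.get x y = some ⟨c, k⟩ ↔ (L.own c).testBit (ix x y) = true ∧ L.k.testBit (ix x y) = k := by
  have hd := (wf_bits h).2.2.1 (ix x y)
  unfold LB.get
  generalize ix x y = j at *
  cases c
  · change _ ↔ L.w.testBit j = true ∧ _
    cases hw : L.w.testBit j
    · cases hb : L.b.testBit j <;> simp
    · simp
  · change _ ↔ L.b.testBit j = true ∧ _
    cases hw : L.w.testBit j
    · cases hb : L.b.testBit j <;> simp
    · cases hb : L.b.testBit j
      · simp
      · exact (hd hw hb).elim

private theorem get_none {L : LB} {x y : ℤ} :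
    L.get x y = none ↔ L.w.testBit (ix x y) = false ∧ L.b.testBit (ix x y) = false := by
  unfold LB.get
  cases L.w.testBit (ix x y) <;> cases L.b.testBit (ix x y) <;> simp

private theorem xor_bit {F : ℕ} {L : LB} (h : L.wf F = true) {j : ℕ} :
    (F ^^^ (L.w ||| L.b)).testBit j = true ↔
      F.testBit j = true ∧ L.w.testBit j = false ∧ L.b.testBit j = false := by
  have h1 := (wf_bits h).1 j
  have h2 := (wf_bits h).2.1 j
  rw [Nat.testBit_xor, Nat.testBit_or]
  cases hF : F.testBit j <;> cases hw : L.w.testBit j <;> cases hb : L.b.testBit j <;>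
    simp_all

private theorem F_bit {j : ℕ} (h : f.F.testBit j = true) : ∃ x y : ℤ, 0 ≤ x ∧ x ≤ 32 ∧
    (f.zl : ℤ) - 2 ≤ y ∧ y < f.zl + f.zn + 2 ∧ 2 ∣ x + y ∧ (j : ℤ) = x + 64 * y := by
  have hzl := f.hzl
  obtain ⟨x, y, h1, h2, h3, h4, h5⟩ := (testBit_full _ _ _).1 h
  exact ⟨x, y, by omega, by omega, by omega, by omega, by omega, by omega⟩

private theorem bit_F {s : Square} (hs : f.InWin s) (hp : 2 ∣ s.1 + s.2) :
    f.F.testBit (ix (s.1 - f.X) (s.2 - f.Y)) = true := by
  have hzl := f.hzl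
  have hX := f.hp
  obtain ⟨h1, h2, h3, h4⟩ := hs
  have h5 := ix_eq (x := s.1 - f.X) (y := s.2 - f.Y) (by omega) (by omega)
  refine (testBit_full _ _ _).2 ⟨(s.1 - f.X + 4).toNat, (s.2 - f.Y + 6).toNat, by omega, by omega,
    by omega, by omega, by omega⟩

private theorem win_ix {s : Square} (hs : f.InWin s) :
    ((ix (s.1 - f.X) (s.2 - f.Y) : ℕ) : ℤ) = (s.1 - f.X + 4) + 64 * (s.2 - f.Y + 6) := by
  have hzl := f.hzl
  obtain ⟨h1, h2, h3, h4⟩ := hs
  exact ix_eq (by omega) (by omega)

private theorem win_inj {s t : Square} (hs : f.InWin s) (ht : f.InWin t)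
    (h : ix (s.1 - f.X) (s.2 - f.Y) = ix (t.1 - f.X) (t.2 - f.Y)) : s = t := by
  have h1 := win_ix hs
  have h2 := win_ix ht
  rw [h, h2] at h1
  obtain ⟨a1, a2, -, -⟩ := hs
  obtain ⟨b1, b2, -, -⟩ := ht
  ext <;> omega

private theorem win_dark {s : Square} (hs : f.InWin s) (hp : 2 ∣ s.1 + s.2) : IsDark f.N s := by
  have hX := f.hX
  have hX' := f.hX'
  have hY := f.hY
  have hY' := f.hY'
  obtain ⟨h1, h2, h3, h4⟩ := hs
  exact ⟨by omega, by omega, by omega, by omega, hp⟩

private theorem win_crown {s : Square} (hs : f.InWin s) (p : Piece) : p.crown f.N s.2 = p := by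
  have hX := f.hX
  have hX' := f.hX'
  have hY := f.hY
  have hY' := f.hY'
  obtain ⟨h1, h2, h3, h4⟩ := hs
  unfold Piece.crown
  rw [if_neg]
  intro h
  obtain ⟨c, k⟩ := p
  cases c <;> simp only [Color.farRow] at h <;> omega

private theorem other_other (c : Color) : c.other.other = c := by cases c <;> rfl

private theorem fwd_iff (e : Dg) (c : Color) : e.fwd c = true ↔ e.v.2 = c.forward := by
  cases e <;> cases c <;> simp [Dg.fwd, Dg.v, Color.forward]

private theorem v_diag (e : Dg) : IsDiag e.v := by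
  cases e <;> simp [IsDiag, Dg.v]

private theorem ne_add_v (e : Dg) (s : Square) : s ≠ s + e.v := by
  intro h
  have h1 := congrArg Prod.fst h
  simp only [Prod.fst_add] at h1
  cases e <;> simp only [Dg.v] at h1 <;> omega

private theorem ne_add_vv (e : Dg) (s : Square) : s ≠ s + e.v + e.v := by
  intro h
  have h1 := congrArg Prod.fst h
  simp only [Prod.fst_add] at h1
  cases e <;> simp only [Dg.v] at h1 <;> omega

private theorem exists_dg {d : ℤ × ℤ} (h : IsDiag d) : ∃ e : Dg, d = e.v := by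
  obtain ⟨h1, h2⟩ := h
  rcases h1 with h1 | h1 <;> rcases h2 with h2 | h2
  · exact ⟨.ur, Prod.ext h1 h2⟩
  · exact ⟨.dr, Prod.ext h1 h2⟩
  · exact ⟨.ul, Prod.ext h1 h2⟩
  · exact ⟨.dl, Prod.ext h1 h2⟩

/-- index of the next square -/
private theorem nx_ix {s : Square} (hs : f.InWin s) (e : Dg) (h : f.InWin (s + e.v)) :
    e.nx (ix (s.1 - f.X) (s.2 - f.Y)) = ix ((s + e.v).1 - f.X) ((s + e.v).2 - f.Y) := by
  have hzl := f.hzl
  have h1 := win_ix hs
  have h2 := win_ix h
  obtain ⟨a1, a2, a3, a4⟩ := hs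
  obtain ⟨b1, b2, b3, b4⟩ := h
  cases e <;> simp only [Dg.nx, Dg.v, Prod.fst_add, Prod.snd_add] at * <;> omega

/-- the conditions of `testBit_caps` in terms of squares -/
private theorem caps_iff {L : LB} {c : Color} {e : Dg} {s : Square}
    (hs : f.InWin s) (hs1 : f.InWin (s + e.v)) (hs2 : f.InWin (s + e.v + e.v)) :
    (L.caps f.F c e).testBit (ix (s.1 - f.X) (s.2 - f.Y)) = true ↔
      (L.own c).testBit (ix (s.1 - f.X) (s.2 - f.Y)) = true ∧
      (e.fwd c = true ∨ L.k.testBit (ix (s.1 - f.X) (s.2 - f.Y)) = true) ∧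
      (L.own c.other).testBit (ix ((s + e.v).1 - f.X) ((s + e.v).2 - f.Y)) = true ∧
      (f.F ^^^ (L.w ||| L.b)).testBit
        (ix ((s + e.v + e.v).1 - f.X) ((s + e.v + e.v).2 - f.Y)) = true := by
  have hzl := f.hzl
  have h1 := nx_ix hs e hs1
  have h2 := nx_ix hs1 e hs2
  have g1 := win_ix hs
  obtain ⟨a1, a2, a3, a4⟩ := hs
  obtain ⟨b1, b2, b3, b4⟩ := hs2
  rw [testBit_caps]
  refine and_congr_right fun _ => and_congr_right fun _ => ?_
  rw [← h2, ← h1]
  cases e <;> simp only [Dg.nx, Dg.v, Prod.fst_add, Prod.snd_add] at *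
  · rw [Nat.sub_sub]
    exact ⟨fun h => h.2, fun h => ⟨by omega, h⟩⟩
  · rw [Nat.sub_sub]
    exact ⟨fun h => h.2, fun h => ⟨by omega, h⟩⟩

/-- the three squares of a jump in the local board -/
private theorem caps_win {L : LB} (hw : L.wf f.F = true) {c : Color} {e : Dg} {i : ℕ}
    (h : (L.caps f.F c e).testBit i = true) : ∃ s : Square, f.InWin s ∧ f.InWin (s + e.v) ∧
      f.InWin (s + e.v + e.v) ∧ i = ix (s.1 - f.X) (s.2 - f.Y) ∧ 2 ∣ s.1 + s.2 := by
  have hzl := f.hzl
  have hX := f.hp
  rw [testBit_caps] at h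
  obtain ⟨h1, -, h2⟩ := h
  obtain ⟨x, y, a1, a2, a3, a4, a5, a6⟩ := F_bit (own_F hw h1)
  have key : ∀ i1 i2 : ℕ, (L.own c.other).testBit i1 = true →
      (f.F ^^^ (L.w ||| L.b)).testBit i2 = true → (i1 : ℤ) = i + e.v.1 + 64 * e.v.2 →
      (i2 : ℤ) = i + 2 * e.v.1 + 128 * e.v.2 → ∃ s : Square, f.InWin s ∧ f.InWin (s + e.v) ∧
      f.InWin (s + e.v + e.v) ∧ i = ix (s.1 - f.X) (s.2 - f.Y) ∧ 2 ∣ s.1 + s.2 := by
    intro i1 i2 h3 h4 h5 h6
    obtain ⟨x1, y1, b1, b2, b3, b4, -, b6⟩ := F_bit (own_F hw h3)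
    obtain ⟨x2, y2, c1, c2, c3, c4, -, c6⟩ := F_bit ((xor_bit hw).1 h4).1
    have hd := v_diag e
    unfold IsDiag at hd
    obtain ⟨d1, d2⟩ := hd
    generalize e.v = v at *
    obtain ⟨v1, v2⟩ := v
    dsimp only at h5 h6 d1 d2
    have hall : x1 = x + v1 ∧ y1 = y + v2 ∧ x2 = x + 2 * v1 ∧ y2 = y + 2 * v2 := by
      clear hX a5
      rcases d1 with d1 | d1 <;> rcases d2 with d2 | d2 <;> subst d1 <;> subst d2 <;>
        refine ⟨?_, ?_, ?_, ?_⟩ <;> omega
    obtain ⟨e1, e2, e3, e4⟩ := hall
    subst e1 e2 e3 e4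
    have hs : f.InWin (f.X + x - 4, f.Y + y - 6) := by
      refine ⟨?_, ?_, ?_, ?_⟩ <;> dsimp only <;> omega
    refine ⟨(f.X + x - 4, f.Y + y - 6), hs, ?_, ?_, ?_, ?_⟩
    · refine ⟨?_, ?_, ?_, ?_⟩ <;> simp only [Prod.fst_add, Prod.snd_add] <;> omega
    · refine ⟨?_, ?_, ?_, ?_⟩ <;> simp only [Prod.fst_add, Prod.snd_add] <;> omega
    · have := win_ix hs
      dsimp only at this ⊢
      omega
    · dsimp only
      omega
  cases e with
  | ur => exact key _ _ h2.1 h2.2 (by simp only [Dg.v]; push_cast; ring) (by simp only [Dg.v]; push_cast; ring)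
  | ul => exact key _ _ h2.1 h2.2 (by simp only [Dg.v]; push_cast; ring) (by simp only [Dg.v]; push_cast; ring)
  | dr =>
    obtain ⟨h0, h3, h4⟩ := h2
    exact key _ _ h3 h4 (by simp only [Dg.v]; omega) (by simp only [Dg.v]; omega)
  | dl =>
    obtain ⟨h0, h3, h4⟩ := h2
    exact key _ _ h3 h4 (by simp only [Dg.v]; omega) (by simp only [Dg.v]; omega)

private theorem one_bit (i j : ℕ) : ((1 : ℕ) <<< i).testBit j = decide (i = j) := by
  rw [Nat.one_shiftLeft, Nat.testBit_two_pow]

private theorem clear_bit (n i j : ℕ) :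
    (if n.testBit i then n ^^^ (1 <<< i) else n).testBit j = if j = i then false else n.testBit j := by
  by_cases hij : j = i
  · subst hij
    rw [if_pos rfl]
    split_ifs with h
    · rw [Nat.testBit_xor, one_bit, h]
      simp
    · simpa using h
  · rw [if_neg hij]
    split_ifs with h
    · rw [Nat.testBit_xor, one_bit]
      have : ¬ i = j := fun h' => hij h'.symm
      simp [this]
    · rfl

private theorem xor_clear {n i : ℕ} (h : n.testBit i = true) (j : ℕ) :
    (n ^^^ (1 <<< i)).testBit j = if j = i then false else n.testBit j := by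
  have h1 := clear_bit n i j
  rw [if_pos h] at h1
  exact h1

private theorem set_bit (n i j : ℕ) :
    (n ||| (1 <<< i)).testBit j = if j = i then true else n.testBit j := by
  rw [Nat.testBit_or, one_bit]
  by_cases hij : j = i
  · subst hij
    simp
  · have : ¬ i = j := fun h' => hij h'.symm
    simp [this, hij]

private theorem jump_own {L : LB} {c : Color} {i : ℕ} {e : Dg} (h : (L.own c).testBit i = true)
    (j : ℕ) : ((L.jump c i e).own c).testBit j =
      if j = e.nx (e.nx i) then true else if j = i then false else (L.own c).testBit j := by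
  have h1 : (L.jump c i e).own c = (L.own c ^^^ (1 <<< i)) ||| (1 <<< e.nx (e.nx i)) := by
    cases c <;> rfl
  rw [h1, set_bit, xor_clear h]

private theorem jump_other {L : LB} {c : Color} {i : ℕ} {e : Dg}
    (h : (L.own c.other).testBit (e.nx i) = true) (j : ℕ) :
    ((L.jump c i e).own c.other).testBit j =
      if j = e.nx i then false else (L.own c.other).testBit j := by
  have h1 : (L.jump c i e).own c.other = L.own c.other ^^^ (1 <<< e.nx i) := by
    cases c <;> rfl
  rw [h1, xor_clear h]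

private theorem jump_k {L : LB} {c : Color} {i : ℕ} {e : Dg} (hm : i ≠ e.nx i)
    (htm : e.nx (e.nx i) ≠ e.nx i)
    (hk : L.k.testBit (e.nx (e.nx i)) = false) (j : ℕ) :
    (L.jump c i e).k.testBit j =
      if j = e.nx (e.nx i) then L.k.testBit i else if j = i then false else
        if j = e.nx i then false else L.k.testBit j := by
  have h1 : (L.jump c i e).k =
      if (if L.k.testBit (e.nx i) then L.k ^^^ (1 <<< e.nx i) else L.k).testBit i then
        ((if L.k.testBit (e.nx i) then L.k ^^^ (1 <<< e.nx i) else L.k) ^^^ (1 <<< i)) |||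
          (1 <<< e.nx (e.nx i))
      else (if L.k.testBit (e.nx i) then L.k ^^^ (1 <<< e.nx i) else L.k) := by
    cases c <;> rfl
  rw [h1]
  have h2 := clear_bit L.k (e.nx i)
  generalize (if L.k.testBit (e.nx i) then L.k ^^^ (1 <<< e.nx i) else L.k) = k0 at *
  have h3 : k0.testBit i = L.k.testBit i := by rw [h2, if_neg hm]
  by_cases hi : L.k.testBit i = true
  · rw [h3, if_pos hi, set_bit, xor_clear (by rw [h3, hi]), hi]
    by_cases a1 : j = e.nx (e.nx i)
    · rw [if_pos a1, if_pos a1]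
    · rw [if_neg a1, if_neg a1]
      by_cases a2 : j = i
      · rw [if_pos a2, if_pos a2]
      · rw [if_neg a2, if_neg a2, h2]
  · rw [h3, if_neg hi, h2]
    by_cases a1 : j = e.nx (e.nx i)
    · rw [if_pos a1, a1, if_neg htm, hk]
      simpa using hi
    · rw [if_neg a1]
      by_cases a2 : j = i
      · rw [if_pos a2, a2, if_neg hm]
        simpa using hi
      · rw [if_neg a2]

private theorem wf_iff_own {F : ℕ} {L : LB} (c : Color)
    (h1 : ∀ j, (L.own c).testBit j = true → F.testBit j = true)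
    (h2 : ∀ j, (L.own c.other).testBit j = true → F.testBit j = true)
    (h3 : ∀ j, (L.own c).testBit j = true → (L.own c.other).testBit j = true → False)
    (h4 : ∀ j, L.k.testBit j = true → (L.own c).testBit j = true ∨
      (L.own c.other).testBit j = true) : L.wf F = true := by
  cases c
  · exact wf_of_bits h1 h2 h3 h4
  · exact wf_of_bits h2 h1 (fun j a b => h3 j b a) fun j a => (h4 j a).symm

private theorem wf_own {F : ℕ} {L : LB} (h : L.wf F = true) (c : Color) :
    ∀ j, L.k.testBit j = true → (L.own c).testBit j = true ∨ (L.own c.other).testBit j = true := by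
  intro j hj
  have h1 := (wf_bits h).2.2.2 j hj
  cases c
  · exact h1
  · exact h1.symm

private theorem get_congr {L L' : LB} {x y : ℤ} (c : Color)
    (h1 : (L'.own c).testBit (ix x y) = (L.own c).testBit (ix x y))
    (h2 : (L'.own c.other).testBit (ix x y) = (L.own c.other).testBit (ix x y))
    (h3 : L'.k.testBit (ix x y) = L.k.testBit (ix x y)) : L'.get x y = L.get x y := by
  unfold LB.get
  cases c
  · change L'.w.testBit _ = L.w.testBit _ at h1
    change L'.b.testBit _ = L.b.testBit _ at h2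
    rw [h1, h2, h3]
  · change L'.b.testBit _ = L.b.testBit _ at h1
    change L'.w.testBit _ = L.w.testBit _ at h2
    rw [h1, h2, h3]

private theorem get_none' {L : LB} {x y : ℤ} (c : Color)
    (h1 : (L.own c).testBit (ix x y) = false) (h2 : (L.own c.other).testBit (ix x y) = false) :
    L.get x y = none := by
  cases c
  · exact get_none.2 ⟨h1, h2⟩
  · exact get_none.2 ⟨h2, h1⟩

/-- A jump that is possible in the local board is possible in the board. -/
theorem canJump_of_caps {L : LB} {b : Board} (hb : Loc f L b) {c : Color} {d : Dg} {i : ℕ}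
    (h : (L.caps f.F c d).testBit i = true) :
    ∃ p : Piece, ∃ s : Square, p.color = c ∧ f.InWin s ∧ f.InWin (s + d.v) ∧
      f.InWin (s + d.v + d.v) ∧ i = ix (s.1 - f.X) (s.2 - f.Y) ∧
      d.nx i = ix ((s + d.v).1 - f.X) ((s + d.v).2 - f.Y) ∧
      d.nx (d.nx i) = ix ((s + d.v + d.v).1 - f.X) ((s + d.v + d.v).2 - f.Y) ∧
      CanJump f.N b p s d.v := by
  have hw := hb.wf
  obtain ⟨s, hs, hs1, hs2, hi, hp⟩ := caps_win hw h
  rw [hi, caps_iff hs hs1 hs2] at h
  obtain ⟨h1, h2, h3, h4⟩ := h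
  have h5 := (xor_bit hw).1 h4
  refine ⟨⟨c, L.k.testBit i⟩, s, rfl, hs, hs1, hs2, hi, ?_, ?_, ?_, ⟨v_diag d, ?_⟩,
    ⟨⟨c.other, L.k.testBit (ix ((s + d.v).1 - f.X) ((s + d.v).2 - f.Y))⟩, ?_, rfl⟩, ?_, ?_⟩
  · rw [hi, nx_ix hs d hs1]
  · rw [hi, nx_ix hs d hs1, nx_ix hs1 d hs2]
  · rw [hb.agree s hs, hi]
    exact (get_some hw).2 ⟨h1, rfl⟩
  · rw [hi]
    rcases h2 with h2 | h2
    · exact Or.inr ((fwd_iff d c).1 h2)
    · exact Or.inl h2
  · rw [hb.agree _ hs1]
    exact (get_some hw).2 ⟨h3, rfl⟩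
  · refine win_dark hs2 ?_
    simp only [Prod.fst_add, Prod.snd_add]
    have hd := v_diag d
    unfold IsDiag at hd
    obtain ⟨d1, d2⟩ := hd
    omega
  · rw [hb.agree _ hs2]
    exact get_none.2 h5.2

/-- A jump that is possible in the board is possible in the local board. -/
theorem caps_of_canJump {L : LB} {b : Board} (hb : Loc f L b) {p : Piece} {s : Square}
    {d : ℤ × ℤ} (h : CanJump f.N b p s d) :
    ∃ e : Dg, d = e.v ∧ f.InWin s ∧ f.InWin (s + d) ∧ f.InWin (s + d + d) ∧
      (L.caps f.F p.color e).testBit (ix (s.1 - f.X) (s.2 - f.Y)) = true ∧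
      e.nx (ix (s.1 - f.X) (s.2 - f.Y)) = ix ((s + d).1 - f.X) ((s + d).2 - f.Y) ∧
      e.nx (e.nx (ix (s.1 - f.X) (s.2 - f.Y))) = ix ((s + d + d).1 - f.X) ((s + d + d).2 - f.Y) := by
  have hw := hb.wf
  obtain ⟨h1, ⟨h2, h3⟩, ⟨q, h4, h5⟩, h6, h7⟩ := id h
  obtain ⟨e, rfl⟩ := exists_dg h2
  obtain ⟨d1, d2⟩ := h2
  have hz := hb.jumps p s e.v h
  have hwin : f.InWin s ∧ f.InWin (s + e.v) ∧ f.InWin (s + e.v + e.v) := by
    unfold Frame.InZone at hz
    unfold Frame.InWin
    simp only [Prod.fst_add, Prod.snd_add] at hz ⊢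
    rcases hz with hz | hz | hz <;> obtain ⟨z1, z2, z3, z4⟩ := hz <;>
      refine ⟨⟨?_, ?_, ?_, ?_⟩, ⟨?_, ?_, ?_, ?_⟩, ⟨?_, ?_, ?_, ?_⟩⟩ <;> omega
  obtain ⟨hs, hs1, hs2⟩ := hwin
  refine ⟨e, rfl, hs, hs1, hs2, ?_, nx_ix hs e hs1, ?_⟩
  · rw [caps_iff hs hs1 hs2]
    obtain ⟨c, k⟩ := p
    obtain ⟨c', k'⟩ := q
    rw [hb.agree s hs] at h1
    rw [hb.agree _ hs1] at h4
    rw [hb.agree _ hs2] at h7
    dsimp only at h5
    subst h5
    obtain ⟨g1, g2⟩ := (get_some hw).1 h1
    obtain ⟨g3, -⟩ := (get_some hw).1 h4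
    refine ⟨g1, ?_, g3, (xor_bit hw).2 ⟨bit_F hs2 h6.2.2.2.2, get_none.1 h7⟩⟩
    rcases h3 with h3 | h3
    · right
      rw [g2]
      exact h3
    · exact Or.inl ((fwd_iff e c).2 h3)
  · rw [nx_ix hs e hs1, nx_ix hs1 e hs2]

/-- The local board after a jump inside the zone. -/
theorem loc_jump {L : LB} {b : Board} (hb : Loc f L b) {p : Piece} {s : Square} {e : Dg}
    (h : CanJump f.N b p s e.v) (h1 : f.InZone s) (h2 : f.InZone (s + e.v))
    (h3 : f.InZone (s + e.v + e.v)) :
    Loc f (L.jump p.color (ix (s.1 - f.X) (s.2 - f.Y)) e) (b.jump f.N p s e.v) ∧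
      f.EqOff b (b.jump f.N p s e.v) ∧ p.crown f.N (s + e.v + e.v).2 = p := by
  have hw := hb.wf
  obtain ⟨e', he', hs, hs1, hs2, hcap, hn1, hn2⟩ := caps_of_canJump hb h
  have hee : e' = e := by
    revert he'
    cases e <;> cases e' <;> simp [Dg.v]
  subst hee
  rw [caps_iff hs hs1 hs2] at hcap
  obtain ⟨o1, -, o3, o4⟩ := hcap
  obtain ⟨o5, o6, o7⟩ := (xor_bit hw).1 o4
  obtain ⟨b1, -, -, b4, b5⟩ := id h
  have hcr : p.crown f.N (s + e'.v + e'.v).2 = p := win_crown hs2 p
  have hoff : f.EqOff b (b.jump f.N p s e'.v) := by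
    intro s' hs'
    have n1 : s' ≠ s + e'.v + e'.v := fun h' => hs' (h' ▸ h3)
    have n2 : s' ≠ s := fun h' => hs' (h' ▸ h1)
    have n3 : s' ≠ s + e'.v := fun h' => hs' (h' ▸ h2)
    unfold Board.jump Board.move
    rw [Function.update_of_ne n1, Function.update_of_ne n2, Function.update_of_ne n3]
  have hi : ix (s.1 - f.X) (s.2 - f.Y) ≠ e'.nx (ix (s.1 - f.X) (s.2 - f.Y)) := by
    rw [hn1]
    exact fun h' => ne_add_v e' s (win_inj hs hs1 h')
  have hti : e'.nx (e'.nx (ix (s.1 - f.X) (s.2 - f.Y))) ≠ ix (s.1 - f.X) (s.2 - f.Y) := by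
    rw [hn2]
    exact fun h' => ne_add_vv e' s (win_inj hs2 hs h').symm
  have htm : e'.nx (e'.nx (ix (s.1 - f.X) (s.2 - f.Y))) ≠
      e'.nx (ix (s.1 - f.X) (s.2 - f.Y)) := by
    rw [hn2, hn1]
    exact fun h' => ne_add_v e' (s + e'.v) (win_inj hs2 hs1 h').symm
  have ow : (L.own p.color).testBit (e'.nx (e'.nx (ix (s.1 - f.X) (s.2 - f.Y)))) = false := by
    rw [hn2]
    cases p.color
    · exact o6
    · exact o7
  have ob : (L.own p.color.other).testBit (e'.nx (e'.nx (ix (s.1 - f.X) (s.2 - f.Y)))) = false := by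
    rw [hn2]
    cases p.color
    · exact o7
    · exact o6
  have ok : L.k.testBit (e'.nx (e'.nx (ix (s.1 - f.X) (s.2 - f.Y)))) = false := by
    by_contra hcon
    rw [Bool.not_eq_false] at hcon
    rcases wf_own hw p.color _ hcon with h' | h'
    · rw [ow] at h'
      exact absurd h' (by decide)
    · rw [ob] at h'
      exact absurd h' (by decide)
  rw [← hn1] at o3
  rw [← hn2] at o5
  have hwf : (L.jump p.color (ix (s.1 - f.X) (s.2 - f.Y)) e').wf f.F = true := by
    refine wf_iff_own p.color ?_ ?_ ?_ ?_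
    · intro j hj
      rw [jump_own o1] at hj
      split_ifs at hj with a1 a2
      · rw [a1]; exact o5
      · exact own_F hw hj
    · intro j hj
      rw [jump_other o3] at hj
      split_ifs at hj with a1
      exact own_F hw hj
    · intro j hj hj'
      rw [jump_own o1] at hj
      rw [jump_other o3] at hj'
      split_ifs at hj' with a3
      split_ifs at hj with a1 a2
      · rw [a1, ob] at hj'
        exact absurd hj' (by decide)
      · exact own_disj hw hj hj'
    · intro j hj
      rw [jump_k hi htm ok] at hj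
      rw [jump_own o1, jump_other o3]
      split_ifs at hj with a1 a2 a3
      · rw [if_pos a1]; exact Or.inl rfl
      · rw [if_neg a1, if_neg a2, if_neg a3]
        exact wf_own hw p.color j hj
  refine ⟨⟨hwf, ?_, ?_⟩, hoff, hcr⟩
  · -- agreement
    intro s' hs'
    unfold Board.jump Board.move
    by_cases n1 : s' = s + e'.v + e'.v
    · subst n1
      rw [Function.update_self, hcr, ← b1, hb.agree s hs]
      obtain ⟨c, k⟩ := p
      rw [hb.agree s hs] at b1
      rw [b1]
      refine ((get_some hwf).2 ⟨?_, ?_⟩).symm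
      · dsimp only
        rw [jump_own o1, ← hn2, if_pos rfl]
      · dsimp only
        rw [jump_k hi htm ok, ← hn2, if_pos rfl]
        exact ((get_some hw).1 b1).2
    · rw [Function.update_of_ne n1]
      have m1 : ix (s'.1 - f.X) (s'.2 - f.Y) ≠ e'.nx (e'.nx (ix (s.1 - f.X) (s.2 - f.Y))) := by
        rw [hn2]
        exact fun h' => n1 (win_inj hs' hs2 h')
      by_cases n2 : s' = s
      · subst n2
        rw [Function.update_self]
        refine (get_none' p.color ?_ ?_).symm
        · rw [jump_own o1, if_neg m1, if_pos rfl]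
        · rw [jump_other o3, if_neg hi]
          by_contra hcon
          rw [Bool.not_eq_false] at hcon
          exact own_disj hw o1 hcon
      · rw [Function.update_of_ne n2]
        have m2 : ix (s'.1 - f.X) (s'.2 - f.Y) ≠ ix (s.1 - f.X) (s.2 - f.Y) :=
          fun h' => n2 (win_inj hs' hs h')
        by_cases n3 : s' = s + e'.v
        · subst n3
          rw [Function.update_self]
          refine (get_none' p.color ?_ ?_).symm
          · rw [jump_own o1, if_neg m1, if_neg m2, ← hn1]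
            by_contra hcon
            rw [Bool.not_eq_false] at hcon
            exact own_disj hw hcon o3
          · rw [jump_other o3, ← hn1, if_pos rfl]
        · rw [Function.update_of_ne n3]
          have m3 : ix (s'.1 - f.X) (s'.2 - f.Y) ≠ e'.nx (ix (s.1 - f.X) (s.2 - f.Y)) := by
            rw [hn1]
            exact fun h' => n3 (win_inj hs' hs1 h')
          rw [hb.agree s' hs']
          refine (get_congr p.color ?_ ?_ ?_).symm
          · rw [jump_own o1, if_neg m1, if_neg m2]
          · rw [jump_other o3, if_neg m3]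
          · rw [jump_k hi htm ok, if_neg m1, if_neg m2, if_neg m3]
  · -- jumps
    intro p' s' d' hj
    by_contra hcon
    rw [not_or, not_or] at hcon
    obtain ⟨n1, n2, n3⟩ := hcon
    obtain ⟨j1, j2, ⟨q, j3, j4⟩, j5, j6⟩ := hj
    rw [hoff _ n1] at j1
    rw [hoff _ n2] at j3
    rw [hoff _ n3] at j6
    rcases hb.jumps p' s' d' ⟨j1, j2, ⟨q, j3, j4⟩, j5, j6⟩ with h' | h' | h'
    · exact n1 h'
    · exact n2 h'
    · exact n3 h'

end Pool.Agent.MC95
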