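import Pool.Agent.MC95.Data

/-!
# Checks of runs
-/

namespace Pool.Agent.MC95

/-- The columns `x ≥ 24`. -/
def rightM (lo n : ℕ) : ℕ := rows (fun _ => 31 <<< 28) lo n

/-- The columns `x ≤ 0`. -/
def leftM (lo n : ℕ) : ℕ := rows (fun _ => 31) lo n

/-- Both players have to capture. -/
def uAll : Color → Bool := fun _ => true

/-- Only the jumps of Black are unique. -/
def uB : Color → Bool := fun c => decide (c = .black)

/-- Only the jumps of White are unique. -/
def uW : Color → Bool := fun c => decide (c = .white)

/-- The final position of an eastbound run: `L'` is the local board, `st'` the static content after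
the run (which may have lost a king), `tout` the track. -/
def finE (zl zn : ℕ) (L' st' : LB) (tout : ℕ) : Bool :=
  let F := full (zl - 2) (zn + 4)
  let Rm := rightM (zl - 2) (zn + 4)
  (dgs.all fun d => decide (L'.caps F .black d = 0)) &&
  (dgs.all fun d => decide (L'.caps F .white d = if d = .ul then 1 <<< ix 28 (8 * tout) else 0)) &&
  decide (L'.restr Rm = (((st'.restr F).portE 24 tout).restr Rm)) &&
  decide ((L'.w &&& L'.k) ||| (st'.w &&& st'.k) = st'.w &&& st'.k)

/-- An eastbound run: `st` is the static content before the run, `st'` the one after the run;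
`zl, zn` are the first row (plus 6) and the number of rows of the zone; `tin, tout` are the
tracks. -/
def chkE (st st' : LB) (zl zn : ℕ) (u : Color → Bool) (tin tout : ℕ) (mv : List (ℕ × Dg)) : Bool :=
  let F := full (zl - 2) (zn + 4)
  let L := (st.restr F).portE (-4) tin
  L.wf F && match LB.run F (zone zl zn) u .white L mv with
    | some (L', .white) => finE zl zn L' st' tout
    | _ => false

/-- A run with a fork: after the common part `mp`, the player `c` has exactly the two jumps with
which `m1` and `m2` begin. -/
def chkF (st : LB) (zl zn : ℕ) (tin : ℕ) (c : Color) (mp m1 m2 : List (ℕ × Dg))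
    (t1 t2 : ℕ) : Bool :=
  let F := full (zl - 2) (zn + 4)
  let Z := zone zl zn
  let L := (st.restr F).portE (-4) tin
  L.wf F && match LB.run F Z uAll .white L mp with
    | none => false
    | some (L1, c1) =>
      decide (c1 = c) &&
      match m1, m2 with
      | (s1, d1) :: m1', (s2, d2) :: m2' =>
        decide (s1 ≠ s2 ∨ d1 ≠ d2) &&
        (dgs.all fun e => decide (L1.caps F c e =
          (if e = d1 then 1 <<< s1 else 0) ||| (if e = d2 then 1 <<< s2 else 0))) &&
        L1.stepOk F Z c false s1 d1 && L1.stepOk F Z c false s2 d2 &&
        (match LB.run F Z uAll c.other (L1.jump c s1 d1) m1' with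
          | some (L', .white) => finE zl zn L' st t1
          | _ => false) &&
        (match LB.run F Z uAll c.other (L1.jump c s2 d2) m2' with
          | some (L', .white) => finE zl zn L' st t2
          | _ => false)
      | _, _ => false

theorem chk_E : chkE stBg stBg 6 3 uAll 0 0 mvE = true := by decide +kernel
theorem chk_U : chkE stU stU 4 13 uAll 0 1 mvU = true := by decide +kernel
theorem chk_M1 : chkE stM stM 4 14 uAll 1 0 mvM1 = true := by decide +kernel
theorem chk_M0 : chkE stM stM 4 14 uAll 0 0 mvM0 = true := by decide +kernel
theorem chk_H2 : chkE stH stH 6 22 uAll 2 0 mvH2 = true := by decide +kernel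
theorem chk_H1 : chkE stH stH 6 22 uAll 1 1 mvH1 = true := by decide +kernel
theorem chk_WF : chkF stWF 6 11 1 .white mvWFp mvWF1 mvWF0 1 0 = true := by decide +kernel
theorem chk_BF : chkF stBF 5 15 1 .black mvBFp mvBF1 mvBF0 1 0 = true := by decide +kernel

end Pool.Agent.MC95
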