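import Pool.Agent.MC95.EBoard

/-!
# Checks of the remaining runs
-/

namespace Pool.Agent.MC95

/-- The columns `x < 0`. -/
def ltM (lo n : ℕ) : ℕ := rows (fun _ => 15) lo n

/-- The columns `0 ≤ x`. -/
def geM (lo n : ℕ) : ℕ := rows (fun _ => 31 * (2 ^ 28) + (2 ^ 28 - 16)) lo n

/-- Final position of a westbound run: to the right of the anchor the board is `st'`, to the left
`st`. -/
def finW (zl zn : ℕ) (L' st st' : LB) (tout : ℕ) : Bool :=
  let F := full (zl - 2) (zn + 4)
  (dgs.all fun d => decide (L'.caps F .black d = 0)) &&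
  (dgs.all fun d => decide (L'.caps F .white d =
    if d = .ur then 1 <<< ix (-4) (8 * tout) else 0)) &&
  decide (L'.restr (geM (zl - 2) (zn + 4)) = (st'.restr F).restr (geM (zl - 2) (zn + 4))) &&
  decide (L'.restr (ltM (zl - 2) (zn + 4)) =
    (((st.restr F).portW 0 tout).restr (ltM (zl - 2) (zn + 4))))

/-- The westbound run through a column. -/
def chkW : Bool :=
  let F := full 4 7
  let L := (stBgW.restr F).portW 28 0
  L.wf F && match LB.run F (zone 6 3) uAll .white L mvW with
    | some (L', .white) => finW 6 3 L' stBgW stRW 0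
    | _ => false

/-- The launch. -/
def chkL (al : Bool) : Bool :=
  let F := full 3 25
  let L := if al then (((stN1.restr F).put 14 8 wk).put 15 9 wm).put 16 8 none
    else (((stN1.restr F).put 15 9 wk).put 14 8 wm).put 13 7 none
  let st' := if al then stD1 else stD0.put 15 9 wk
  L.wf F && match LB.run F (zone 5 21) uAll .black L (if al then mvL1 else mvL0) with
    | some (L', .white) => finW 5 21 L' stN1 st' (wtrk al)
    | _ => false

/-- The turn of the westbound wave. -/
def chkN : Bool :=
  let F := full 2 17
  let L := (stN2.restr F).portW 28 0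
  L.wf F && match LB.run F (zone 4 13) uAll .white L mvN2 with
    | some (L', .white) => finE 4 13 L' stN2r 1
    | _ => false

/-- The rows from `y = 12` on. -/
def hiM : ℕ := rows (fun _ => 2 ^ 33 - 1) 18 22

/-- The gate, entered on track `0`. -/
def chkGF (a : Bool) : Bool :=
  let F := full 3 25
  let ka := fun L : LB => if a then L.put 15 19 wk else L.put 14 18 wk
  let L := (ka (stG.restr F)).portE (-4) 0
  L.wf F && match LB.run F (zone 5 21) uW .white L mvGF with
    | some (L', .white) => decide (L'.restr hiM = (ka (stGs.restr F)).restr hiM)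
    | _ => false

/-- The only jump. -/
def LB.only (F : ℕ) (L : LB) (c : Color) (i : ℕ) (e : Dg) : Bool :=
  dgs.all fun d => decide (L.caps F c d = if d = e then 1 <<< i else 0)

/-- The gate, entered on track `1`: after the run the king moves from `(14, 18)` to `(15, 19)` and
back. -/
def chkGP : Bool :=
  let F := full 3 25
  let Z := zone 5 21
  let L := ((stG.restr F).put 14 18 wk).portE (-4) 1
  L.wf F && match LB.run F Z uB .white L mvGP with
    | some (L1, .white) =>
      (dgs.all fun d => decide (L1.caps F .white d = 0)) &&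
      (let L2 := (L1.put 14 18 none).put 15 19 wk
       L2.stepOk F Z .black true (ix 14 14) .dl &&
       (let L3 := L2.jump .black (ix 14 14) .dl
        (dgs.all fun d => decide (L3.caps F .white d = 0)) &&
        (let L4 := (L3.put 15 19 none).put 14 18 wk
         L4.stepOk F Z .black true (ix 16 16) .dl &&
         (let L5 := L4.jump .black (ix 16 16) .dl
          L5.stepOk F Z .white false (ix 14 18) .dr &&
          (let L6 := L5.jump .white (ix 14 18) .dr
           L6.stepOk F Z .black true (ix 17 17) .dl &&
           (let L7 := L6.jump .black (ix 17 17) .dl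
            decide (L7.k = 0)))))))
    | _ => false

theorem chk_Ty : chkE (stT.put 12 14 wk) stT 6 15 uB 1 0 mvTy = true := by decide +kernel
theorem chk_Tn : chkE stT stT 6 15 uW 1 1 mvTn = true := by decide +kernel
theorem chk_Tn1 : chkE (stT.put 11 15 wk) (stT.put 11 15 wk) 6 15 uW 1 1 mvTn = true := by
  decide +kernel
theorem chk_Tn2 : chkE (stT.put 13 15 wk) (stT.put 13 15 wk) 6 15 uW 1 1 mvTn = true := by
  decide +kernel
theorem chk_Tn3 : chkE (stT.put 10 16 wk) (stT.put 10 16 wk) 6 15 uW 1 1 mvTn = true := by
  decide +kernel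
theorem chk_Tn4 : chkE (stT.put 14 16 wk) (stT.put 14 16 wk) 6 15 uW 1 1 mvTn = true := by
  decide +kernel
theorem chk_Y1t : chkE (stY.put 10 12 bk) (stY.put 10 12 bk) 5 28 uB 1 1 mvY1t = true := by
  decide +kernel
theorem chk_Y1f : chkE (stY.put 9 13 bk) (stY.put 9 13 bk) 5 28 uW 1 0 mvY1f = true := by
  decide +kernel
theorem chk_Y2t : chkE (stY.put 9 13 bk) (stY.put 9 13 bk) 5 28 uB 2 3 mvY2t = true := by
  decide +kernel
theorem chk_Y2f : chkE (stY.put 10 12 bk) (stY.put 10 12 bk) 5 28 uW 2 2 mvY2f = true := by
  decide +kernel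
theorem chk_UT : chkE stUT stUT 2 16 uAll 0 1 mvUT = true := by decide +kernel
theorem chk_K0 : chkE (stD0.put 15 9 wk) stD0 5 21 uB 2 2 mvK0 = true := by decide +kernel
theorem chk_K1 : chkE stD1 stD1 5 21 uB 2 2 mvK1 = true := by decide +kernel
theorem chk_W : chkW = true := by decide +kernel
theorem chk_L (al : Bool) : chkL al = true := by cases al <;> decide +kernel
theorem chk_N : chkN = true := by decide +kernel
theorem chk_GF (a : Bool) : chkGF a = true := by cases a <;> decide +kernel
theorem chk_GP : chkGP = true := by decide +kernel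

end Pool.Agent.MC95
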