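import Pool.Agent.MC95.EBoard

/-!
# Well-formed circuits
-/

namespace Pool.Agent.MC95

/-- A circuit together with the columns of the tiles NB and NA, of the left and right ends of the
corridor, of the tile N1 and of the gate. -/
structure Circ where
  g : Geo
  cB : ℕ
  cA : ℕ
  cL : ℕ
  cR : ℕ
  cN : ℕ
  cG : ℕ

/-- The tile in column `c`. -/
def Circ.op (C : Circ) (c : ℕ) : Op := C.g.ops.getD c default

/-- Conditions on a single tile. -/
def OpOk (sg : ℕ) (o : Op) : Prop :=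
  o.reg ≤ 2 ∧ o.cor ≤ 4 ∧
  match o.kind with
  | .first => o.reg = 0 ∧ o.cor = 0
  | .blank => True
  | .U => 1 ≤ o.trk ∧ (o.trk = 1 → o.reg ≤ 1) ∧ (o.cor ≠ 0 → o.trk ≤ 20) ∧ o.trk + 1 ≤ sg
  | .M => 2 ≤ o.trk ∧ (o.cor ≠ 0 → o.trk ≤ 20) ∧ o.trk + 1 ≤ sg
  | .H => 2 ≤ o.trk ∧ (o.cor ≠ 0 → o.trk ≤ 19) ∧ o.trk + 2 ≤ sg
  | .WF => 2 ≤ o.trk ∧ (o.cor ≠ 0 → o.trk ≤ 20) ∧ o.trk + 1 ≤ sg
  | .BF => 2 ≤ o.trk ∧ (o.cor ≠ 0 → o.trk ≤ 20) ∧ o.trk + 1 ≤ sg
  | .T => o.trk = 20 ∧ o.cor = 1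
  | .Y => 2 ≤ o.trk ∧ o.cor = 0 ∧ o.trk + 4 ≤ sg
  | .UT => o.trk = sg ∧ o.cor = 0 ∧ o.reg = 0
  | .G => o.trk = sg ∧ o.cor = 0 ∧ o.reg = 0
  | .N1 => o.trk = 0 ∧ o.cor = 0
  | .NA => o.trk = 1 ∧ o.cor = 0
  | .NB => o.trk = 0 ∧ o.cor = 0

/-- Well-formed circuits. -/
structure Circ.Ok (C : Circ) : Prop where
  tiles : ∀ c < C.g.ops.length, OpOk C.g.sg (C.op c)
  fit : ∀ c, c + 1 < C.g.ops.length → Fit (C.op c) (C.op (c + 1))
  first : ∀ c < C.g.ops.length, (C.op c).kind = .first ↔ c = 0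
  last : (C.op (C.g.ops.length - 1)).kind = .blank
  n1 : ∀ c < C.g.ops.length, (C.op c).kind = .N1 ↔ c = C.cN
  gate : ∀ c < C.g.ops.length, (C.op c).kind = .G ↔ c = C.cG
  cor1 : ∀ c < C.g.ops.length, (C.op c).cor = 1 ↔ C.cL < c ∧ c < C.cR
  cor2 : ∀ c < C.g.ops.length, (C.op c).cor = 2 ↔ c = C.cL
  cor3 : ∀ c < C.g.ops.length, (C.op c).cor = 3 ↔ c = C.cR
  nb : ∀ c < C.g.ops.length, (C.op c).kind = .NB ↔ c = C.cB
  na : ∀ c < C.g.ops.length, (C.op c).kind = .NA ↔ c = C.cA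
  reg0 : ∀ c < C.g.ops.length, c < C.cB ∨ C.cN < c → (C.op c).reg = 0
  reg1 : ∀ c < C.g.ops.length, C.cB < c → c < C.cA → (C.op c).reg = 1
  reg2 : ∀ c < C.g.ops.length, C.cA < c → c < C.cN → (C.op c).reg = 2
  hB : 1 ≤ C.cB
  hBA : C.cB < C.cA
  hAL : C.cA < C.cL
  hLR : C.cL < C.cR
  hRN : C.cR < C.cN
  hNG : C.cN < C.cG
  hG : C.cG + 1 < C.g.ops.length
  caps : (C.op C.cL).kind = .blank ∧ (C.op C.cR).kind = .blank
  sg24 : 26 ≤ C.g.sg
  size : 12 + 8 * C.g.sg + 40 ≤ C.g.N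

/-- Rows from `top` on are not touched by waves. -/
def Circ.top (C : Circ) : ℤ := 12 + 8 * C.g.sg + 12

/-- The kings after a launch: `xd`: the king of the corridor has been captured; `kd`: the king of N1
has been captured. -/
def KC.dead (κ : KC) (xd kd : Bool) : KC :=
  { κ with x := if xd then none else κ.x, al := if kd then none else some false }

/-- The board after a launch. -/
def Circ.eb (C : Circ) (al : Bool) (κ : KC) (xd kd : Bool) : Board :=
  C.g.eboard C.cL C.cN al (κ.dead xd kd)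

/-- The position of the king of the corridor is a position of the corridor. -/
def Circ.XOk (C : Circ) (κ : KC) : Prop := ∀ i, κ.x = some i → i ≤ 28 * (C.cR - C.cL)

/-- The position of the stop in column `c`. -/
def Circ.stopAt (C : Circ) (c : ℕ) : ℕ := 28 * c + 12 - (28 * C.cL + 14)

/-- The zone of a tile: first row (plus 6) and number of rows. -/
def Kind.zl : Kind → ℕ
  | .U => 4
  | .M => 4
  | .H => 6
  | .WF => 6
  | .BF => 5
  | .T => 6
  | .Y => 5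
  | .UT => 2
  | .G => 5
  | .N1 => 5
  | .NA => 4
  | .NB => 4
  | _ => 6

/-- See `Kind.zl`. -/
def Kind.zn : Kind → ℕ
  | .U => 13
  | .M => 14
  | .H => 22
  | .WF => 11
  | .BF => 15
  | .T => 15
  | .Y => 28
  | .UT => 16
  | .G => 21
  | .N1 => 21
  | .NA => 13
  | .NB => 13
  | _ => 3

/-- A wave on track `t` passes the tile straight. -/
def straightOk (sg : ℕ) (o : Op) (t : ℕ) : Prop :=
  2 ≤ t ∧ t ≤ sg + 1 ∧ (o.cor = 0 ∨ t ≤ 21) ∧ o.kind ≠ .G ∧ o.kind ≠ .first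

/-- White wins, read off the circuit: `l` is the list of the tiles from column `c` on, `t` the
track. -/
def semW (C : Circ) (al : Bool) (κ : KC) : List Op → ℕ → ℕ → Bool → Bool → Prop
  | [], _, _, _, _ => False
  | o :: l, c, t, xd, kd =>
    if o.trk ≤ t ∧ t < o.trk + o.kind.n then
      match o.kind, t - o.trk with
      | .U, 0 => (2 ≤ t ∨ al = true) ∧ semW C al κ l (c + 1) (o.trk + 1) xd kd
      | .M, _ => semW C al κ l (c + 1) o.trk xd kd
      | .H, 2 => semW C al κ l (c + 1) o.trk xd kd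
      | .H, 1 => semW C al κ l (c + 1) (o.trk + 1) xd kd
      | .WF, 1 => semW C al κ l (c + 1) (o.trk + 1) xd kd ∨ semW C al κ l (c + 1) o.trk xd kd
      | .BF, 1 => semW C al κ l (c + 1) (o.trk + 1) xd kd ∧ semW C al κ l (c + 1) o.trk xd kd
      | .T, 1 => xd = false ∧ κ.x = some (C.stopAt c) ∧ semW C al κ l (c + 1) o.trk true kd
      | .Y, 1 => κ.y c = true ∧ semW C al κ l (c + 1) (o.trk + 1) xd kd
      | .Y, 2 => κ.y c = false ∧ semW C al κ l (c + 1) (o.trk + 3) xd kd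
      | .N1, 2 => kd = al ∧ semW C al κ l (c + 1) 2 xd true
      | .UT, 0 => semW C al κ l (c + 1) (o.trk + 1) xd kd
      | .G, 1 => xd = true ∧ kd = true ∧ κ.a = false
      | _, _ => False
    else straightOk C.g.sg o t ∧ semW C al κ l (c + 1) t xd kd

/-- White does not win, read off the circuit. -/
def semL (C : Circ) (al : Bool) (κ : KC) : List Op → ℕ → ℕ → Prop
  | [], _, _ => False
  | o :: l, c, t =>
    if o.trk ≤ t ∧ t < o.trk + o.kind.n then
      match o.kind, t - o.trk with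
      | .U, 0 => (2 ≤ t ∨ al = true) ∧ semL C al κ l (c + 1) (o.trk + 1)
      | .M, _ => semL C al κ l (c + 1) o.trk
      | .H, 2 => semL C al κ l (c + 1) o.trk
      | .H, 1 => semL C al κ l (c + 1) (o.trk + 1)
      | .WF, 1 => semL C al κ l (c + 1) (o.trk + 1) ∧ semL C al κ l (c + 1) o.trk
      | .BF, 1 => semL C al κ l (c + 1) (o.trk + 1) ∨ semL C al κ l (c + 1) o.trk
      | .T, 1 => κ.x ≠ some (C.stopAt c) ∧ semL C al κ l (c + 1) (o.trk + 1)
      | .Y, 1 => κ.y c = false ∧ semL C al κ l (c + 1) o.trk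
      | .Y, 2 => κ.y c = true ∧ semL C al κ l (c + 1) (o.trk + 2)
      | .UT, 0 => semL C al κ l (c + 1) (o.trk + 1)
      | .G, 0 => True
      | _, _ => False
    else straightOk C.g.sg o t ∧ semL C al κ l (c + 1) t

end Pool.Agent.MC95
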