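import Pool.Agent.MC95.Rules

/-!
# Forced moves

PLAN. `misere_white_iff`, `misere_black_iff`: unfold by `cases` (the colour index `c.other` of the
constructor `other` is computed by `Color.other`). `legal_capture`, `legal_iff`: a capture is
available, so `Legal.step` is excluded by `hno`; in `Captures`, the first jump is the given one by
uniqueness, `Captures.last` needs `hend`, and `Captures.next` continues with a further jump of the
same piece from the landing square, which `hno` excludes (a `Captures` derivation from a square
gives a `CanJump` there with the piece on that square; the piece on `s + d + d` after the jump is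
`p.crown N _ = p`).
-/

namespace Pool.Agent.MC95

private lemma forced_white_aux {N : ℕ} {b : Board} {t : Color} (h : MisereWins N .white b t) (ht : t = .white) :
    (∀ b', ¬ Legal N .white b b') ∨ ∃ b', Legal N .white b b' ∧ MisereWins N .white b' .black := by
  cases h with
  | stuck h => exact Or.inl h
  | own h hw => exact Or.inr ⟨_, h, hw⟩
  | other h hw => exact absurd ht (by simp [Color.other])

private lemma forced_black_aux {N : ℕ} {b : Board} {t : Color} (h : MisereWins N .white b t) (ht : t = .black) :
    (∃ b', Legal N .black b b') ∧ ∀ b', Legal N .black b b' → MisereWins N .white b' .white := by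
  cases h with
  | stuck h => exact absurd ht (by simp)
  | own h hw => exact absurd ht (by simp)
  | other h hw => exact ⟨h, hw⟩

theorem misere_white_iff {N : ℕ} {b : Board} :
    MisereWins N .white b .white ↔
      (∀ b', ¬ Legal N .white b b') ∨ ∃ b', Legal N .white b b' ∧ MisereWins N .white b' .black := by
  constructor
  · intro h
    exact forced_white_aux h rfl
  · rintro (h | ⟨b', h, hw⟩)
    · exact MisereWins.stuck h
    · exact MisereWins.own h hw

theorem misere_black_iff {N : ℕ} {b : Board} :
    MisereWins N .white b .black ↔
      (∃ b', Legal N .black b b') ∧ ∀ b', Legal N .black b b' → MisereWins N .white b' .white := by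
  constructor
  · intro h
    exact forced_black_aux h rfl
  · rintro ⟨h, hw⟩
    exact MisereWins.other (c := Color.white) h hw

/-- A single jump is a legal move if the piece cannot jump on. -/
theorem legal_jump {N : ℕ} {b : Board} {p : Piece} {s : Square} {d : ℤ × ℤ}
    (hj : CanJump N b p s d)
    (hno : ∀ d', ¬ CanJump N (b.jump N p s d) p (s + d + d) d') :
    Legal N p.color b (b.jump N p s d) :=
  Legal.capture hj.1 rfl (Captures.last hj (Or.inr hno))

private lemma forced_captures_canJump {N : ℕ} {b b' : Board} {s : Square} (h : Captures N b s b') :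
    ∃ p d, CanJump N b p s d := by
  cases h with
  | last h _ => exact ⟨_, _, h⟩
  | next h _ _ => exact ⟨_, _, h⟩

private lemma forced_jump_apply {N : ℕ} {b : Board} {p : Piece} {s : Square} {d : ℤ × ℤ} :
    b.jump N p s d (s + d + d) = some (p.crown N (s + d + d).2) := by
  simp [Board.jump, Board.move]

/-- If a set of jumps contains all possible jumps of a player, none of them promotes the piece, and
after none of them the piece can jump on, then the legal moves are these jumps. -/
theorem legal_iff {N : ℕ} {b : Board} {c : Color} (J : Set (Piece × Square × (ℤ × ℤ)))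
    (hJ : ∀ p s d, CanJump N b p s d → p.color = c → (p, s, d) ∈ J)
    (hJ' : ∀ p s d, (p, s, d) ∈ J → CanJump N b p s d ∧ p.color = c ∧
      p.crown N (s + d + d).2 = p ∧ ∀ d', ¬ CanJump N (b.jump N p s d) p (s + d + d) d')
    (hne : J.Nonempty) (b' : Board) :
    Legal N c b b' ↔ ∃ p s d, (p, s, d) ∈ J ∧ b' = b.jump N p s d := by
  constructor
  · intro h
    cases h with
    | step hno hs hc hd ht he =>
      obtain ⟨⟨p, s, d⟩, hp⟩ := hne
      obtain ⟨h1, h2, -, -⟩ := hJ' p s d hp
      exact absurd ⟨s, p, d, h2, h1⟩ hno
    | @capture p s _ hs hc h =>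
      cases h with
      | @last _ p' _ d hj hend =>
        have hpp : p' = p := Option.some.inj (hj.1.symm.trans hs)
        subst hpp
        exact ⟨p', s, d, hJ p' s d hj hc, rfl⟩
      | @next _ p' _ d _ hj hcrown hrest =>
        have hpp : p' = p := Option.some.inj (hj.1.symm.trans hs)
        subst hpp
        have hmem := hJ p' s d hj hc
        obtain ⟨-, -, h3, h4⟩ := hJ' p' s d hmem
        obtain ⟨q, d', hq⟩ := forced_captures_canJump hrest
        have h5 := hq.1
        rw [forced_jump_apply, h3] at h5
        have h6 : p' = q := Option.some.inj h5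
        subst h6
        exact absurd hq (h4 d')
  · rintro ⟨p, s, d, hp, rfl⟩
    obtain ⟨h1, h2, -, h4⟩ := hJ' p s d hp
    rw [← h2]
    exact legal_jump h1 h4

/-- Without captures, the legal moves are the steps. -/
theorem legal_step_iff {N : ℕ} {b : Board} {c : Color}
    (hno : ∀ p s d, p.color = c → ¬ CanJump N b p s d) (b' : Board) :
    Legal N c b b' ↔ ∃ p s d, b s = some p ∧ p.color = c ∧ p.Dir d ∧ IsDark N (s + d) ∧
      b (s + d) = none ∧ b' = b.move N p s (s + d) := by
  constructor
  · intro h
    cases h with
    | @step p s d hno' hs hc hd ht he => exact ⟨p, s, d, hs, hc, hd, ht, he, rfl⟩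
    | @capture p s _ hs hc h =>
      obtain ⟨q, d, hq⟩ := forced_captures_canJump h
      have hqp : q = p := Option.some.inj (hq.1.symm.trans hs)
      subst hqp
      exact absurd hq (hno q s d hc)
  · rintro ⟨p, s, d, hs, hc, hd, ht, he, rfl⟩
    exact Legal.step (fun ⟨s', p', d', hc', hj⟩ => hno p' s' d' hc' hj) hs hc hd ht he

end Pool.Agent.MC95
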