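import Pool.Agent.MC95.Holes
import Pool.Agent.MC95.Forced

/-!
# The main phase: no jumps, and the legal moves

PLAN. `kboard_quiet`: let `CanJump _ (kboard κ) p s d`, landing on `h = s + d + d`, which is an empty
square of the static board (`kboard_else`, `kboard_king`), so `C.Hole h`. Apply `hole_nbr` to `h` and
`-d`: `h - d = s + d` carries a piece, so it is on the board. If it is a hole, there is a king on it,
and by `hole_adj` it is the king of the room of `h`; then `s = h - d - d` is either a hole (then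
with a king of the same room, which has only one king) or, by `hole_nbr` for `h - d` and `-d`, a man
of colour `dcol (-d)`, which does not move in direction `d`, or the exceptional White man below a
square of N1, but the king of N1 is White. If it is a man of colour `dcol (-d)` with a man of the
same colour behind it, `s` carries a man of the same colour. If it is the exceptional White man, `s`
carries a man (`board (s) ≠ none`), which would have to be Black and move up.
`kboard_white_moves`, `kboard_black_moves`: by `legal_step_iff`; a step to the hole `t = s + d` comes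
from a king in the same room or from a man at distance one, which by `hole_nbr` (for `t` and `-d`) can
only be the exceptional White man. Conversely the moves exist. Equality of boards by `kboard_king` and
`kboard_else`.
-/

namespace Pool.Agent.MC95

variable {C : Circ} {κ : KC}

theorem kboard_dark (s : Square) (p : Piece) (h : C.g.kboard C.cL κ s = some p) :
    IsDark C.g.N s := by
  by_contra hcon
  unfold Geo.kboard at h
  rw [if_neg hcon] at h
  cases h

/-! ### rooms -/

/-- The rooms. -/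
private inductive Rm
  | x | y (c : ℕ) | n | g | t

/-- The squares of a room. -/
private def InRoom (C : Circ) : Rm → Square → Prop
  | .x, s => ∃ i ≤ C.len, s = C.xcell i
  | .y c, s => c < C.g.ops.length ∧ (C.op c).kind = .Y ∧ ∃ u, s = C.ycell c u
  | .n, s => ∃ u, s = C.ncell u
  | .g, s => ∃ u, s = C.gcell u
  | .t, s => ∃ u, s = C.tcell u

/-- The king of a room. -/
private def KRoom (C : Circ) (κ : KC) : Rm → Square → Option Piece → Prop
  | .x, s, p => ∃ i, κ.x = some i ∧ s = C.xcell i ∧ p = wk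
  | .y c, s, p => (c < C.g.ops.length ∧ (C.op c).kind = .Y) ∧ s = C.ycell c (κ.y c) ∧ p = bk
  | .n, s, p => ∃ u, κ.al = some u ∧ s = C.ncell u ∧ p = wk
  | .g, s, p => s = C.gcell κ.a ∧ p = wk
  | .t, s, p => s = C.tcell κ.tog ∧ p = bk

private theorem inRoom_hole {ρ : Rm} {s : Square} (h : InRoom C ρ s) : C.Hole s := by
  cases ρ with
  | x => obtain ⟨i, hi, rfl⟩ := h; exact .x i hi
  | y c => obtain ⟨hc, hk, u, rfl⟩ := h; exact .y c hc hk u
  | n => obtain ⟨u, rfl⟩ := h; exact .n u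
  | g => obtain ⟨u, rfl⟩ := h; exact .g u
  | t => obtain ⟨u, rfl⟩ := h; exact .t u

private theorem kRoom_in (hx : C.XOk κ) {ρ : Rm} {s : Square} {p : Option Piece}
    (h : KRoom C κ ρ s p) : InRoom C ρ s := by
  cases ρ with
  | x => obtain ⟨i, hi, hs, -⟩ := h; exact ⟨i, hx i hi, hs⟩
  | y c => obtain ⟨⟨hc, hk⟩, hs, -⟩ := h; exact ⟨hc, hk, _, hs⟩
  | n => obtain ⟨u, hu, hs, -⟩ := h; exact ⟨u, hs⟩
  | g => exact ⟨_, h.1⟩
  | t => exact ⟨_, h.1⟩

private theorem room_unique (hC : C.Ok) {ρ ρ' : Rm} {s : Square} (h : InRoom C ρ s)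
    (h' : InRoom C ρ' s) : ρ = ρ' := by
  obtain ⟨-, i2, i3, i4, i5, i6, i7⟩ := cell_inj hC
  cases ρ with
  | x =>
    obtain ⟨i, hi, rfl⟩ := h
    cases ρ' with
    | x => rfl
    | y c => obtain ⟨hc, hk, u, hs⟩ := h'; exact absurd hs ((i3 i hi).1 c u hc hk)
    | n => obtain ⟨u, hs⟩ := h'; exact absurd hs ((i3 i hi).2.1 u)
    | g => obtain ⟨u, hs⟩ := h'; exact absurd hs ((i3 i hi).2.2.1 u)
    | t => obtain ⟨u, hs⟩ := h'; exact absurd hs ((i3 i hi).2.2.2 u)
  | y c =>
    obtain ⟨hc, hk, u, rfl⟩ := h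
    cases ρ' with
    | x => obtain ⟨i, hi, hs⟩ := h'; exact absurd hs.symm ((i3 i hi).1 c u hc hk)
    | y c' =>
      obtain ⟨hc', hk', u', hs⟩ := h'
      rw [(i2 c c' u u' hc hc' hk hk' hs).1]
    | n => obtain ⟨v, hs⟩ := h'; exact absurd hs ((i4 c u hc hk).1 v)
    | g => obtain ⟨v, hs⟩ := h'; exact absurd hs ((i4 c u hc hk).2.1 v)
    | t => obtain ⟨v, hs⟩ := h'; exact absurd hs ((i4 c u hc hk).2.2 v)
  | n =>
    obtain ⟨u, rfl⟩ := h
    cases ρ' with
    | x => obtain ⟨i, hi, hs⟩ := h'; exact absurd hs.symm ((i3 i hi).2.1 u)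
    | y c => obtain ⟨hc, hk, v, hs⟩ := h'; exact absurd hs.symm ((i4 c v hc hk).1 u)
    | n => rfl
    | g => obtain ⟨v, hs⟩ := h'; exact absurd hs (i5 u v)
    | t => obtain ⟨v, hs⟩ := h'; exact absurd hs (i6 u v)
  | g =>
    obtain ⟨u, rfl⟩ := h
    cases ρ' with
    | x => obtain ⟨i, hi, hs⟩ := h'; exact absurd hs.symm ((i3 i hi).2.2.1 u)
    | y c => obtain ⟨hc, hk, v, hs⟩ := h'; exact absurd hs.symm ((i4 c v hc hk).2.1 u)
    | n => obtain ⟨v, hs⟩ := h'; exact absurd hs.symm (i5 v u)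
    | g => rfl
    | t => obtain ⟨v, hs⟩ := h'; exact absurd hs (i7 u v)
  | t =>
    obtain ⟨u, rfl⟩ := h
    cases ρ' with
    | x => obtain ⟨i, hi, hs⟩ := h'; exact absurd hs.symm ((i3 i hi).2.2.2 u)
    | y c => obtain ⟨hc, hk, v, hs⟩ := h'; exact absurd hs.symm ((i4 c v hc hk).2.2 u)
    | n => obtain ⟨v, hs⟩ := h'; exact absurd hs.symm (i6 v u)
    | g => obtain ⟨v, hs⟩ := h'; exact absurd hs.symm (i7 v u)
    | t => rfl

private theorem kRoom_unique {ρ : Rm} {s s' : Square} {p p' : Option Piece}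
    (h : KRoom C κ ρ s p) (h' : KRoom C κ ρ s' p') : s = s' ∧ p = p' := by
  cases ρ with
  | x =>
    obtain ⟨i, hi, rfl, rfl⟩ := h
    obtain ⟨j, hj, rfl, rfl⟩ := h'
    rw [hi] at hj
    cases hj
    exact ⟨rfl, rfl⟩
  | y c =>
    obtain ⟨-, rfl, rfl⟩ := h
    obtain ⟨-, rfl, rfl⟩ := h'
    exact ⟨rfl, rfl⟩
  | n =>
    obtain ⟨i, hi, rfl, rfl⟩ := h
    obtain ⟨j, hj, rfl, rfl⟩ := h'
    rw [hi] at hj
    cases hj
    exact ⟨rfl, rfl⟩
  | g =>
    obtain ⟨rfl, rfl⟩ := h
    obtain ⟨rfl, rfl⟩ := h'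
    exact ⟨rfl, rfl⟩
  | t =>
    obtain ⟨rfl, rfl⟩ := h
    obtain ⟨rfl, rfl⟩ := h'
    exact ⟨rfl, rfl⟩

private theorem kRoom_board (hC : C.Ok) (hx : C.XOk κ) {ρ : Rm} {s : Square} {p : Option Piece}
    (h : KRoom C κ ρ s p) : C.g.kboard C.cL κ s = p := by
  obtain ⟨k1, k2, k3, k4, k5⟩ := kboard_king hC hx
  cases ρ with
  | x => obtain ⟨i, hi, rfl, rfl⟩ := h; exact k1 i hi
  | y c => obtain ⟨⟨hc, hk⟩, rfl, rfl⟩ := h; exact k4 c hc hk
  | n => obtain ⟨u, hu, rfl, rfl⟩ := h; exact k2 u hu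
  | g => obtain ⟨rfl, rfl⟩ := h; exact k3
  | t => obtain ⟨rfl, rfl⟩ := h; exact k5

private theorem no_kRoom_board (hC : C.Ok) (hx : C.XOk κ) {s : Square}
    (h : ∀ ρ p, ¬ KRoom C κ ρ s p) : C.g.kboard C.cL κ s = C.g.board s := by
  refine kboard_else hC hx ?_ ?_ ?_ ?_ ?_
  · intro i hi hs
    exact h .x wk ⟨i, hi, hs, rfl⟩
  · intro u hu hs
    exact h .n wk ⟨u, hu, hs, rfl⟩
  · intro hs
    exact h .g wk ⟨hs, rfl⟩
  · intro c hc hk hs
    exact h (.y c) bk ⟨⟨hc, hk⟩, hs, rfl⟩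
  · intro hs
    exact h .t bk ⟨hs, rfl⟩

/-- A piece on a hole is a king. -/
private theorem hole_king (hC : C.Ok) (hx : C.XOk κ) {s : Square} {p : Piece} (hs : C.Hole s)
    (h : C.g.kboard C.cL κ s = some p) : ∃ ρ, KRoom C κ ρ s (some p) := by
  by_contra hcon
  have h2 : ∀ ρ q, ¬ KRoom C κ ρ s q := by
    intro ρ q hq
    have h3 := kRoom_board hC hx hq
    rw [h] at h3
    subst h3
    exact hcon ⟨ρ, hq⟩
  rw [no_kRoom_board hC hx h2, (board_none_iff hC (hole_dark hC hs)).2 hs] at h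
  cases h

/-- An empty square is a hole. -/
private theorem empty_hole (hC : C.Ok) (hx : C.XOk κ) {s : Square} (hs : IsDark C.g.N s)
    (h : C.g.kboard C.cL κ s = none) : C.Hole s := by
  by_contra hcon
  have h2 : ∀ ρ q, ¬ KRoom C κ ρ s q := fun ρ q hq => hcon (inRoom_hole (kRoom_in hx hq))
  rw [no_kRoom_board hC hx h2] at h
  exact hcon ((board_none_iff hC hs).1 h)

/-- A man of the static board is there. -/
private theorem man_board (hC : C.Ok) (hx : C.XOk κ) {s : Square} (h : C.g.board s ≠ none) :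
    C.g.kboard C.cL κ s = C.g.board s := by
  refine no_kRoom_board hC hx fun ρ q hq => h ?_
  have hh := inRoom_hole (kRoom_in hx hq)
  exact (board_none_iff hC (hole_dark hC hh)).2 hh

private theorem sq_add_neg (s d : Square) : s + d + -d = s := by
  rw [add_neg_cancel_right]

private theorem diag_neg {d : ℤ × ℤ} (h : IsDiag d) : IsDiag (-d) := by
  obtain ⟨h1, h2⟩ := h
  refine ⟨?_, ?_⟩
  · show -d.1 = 1 ∨ -d.1 = -1
    omega
  · show -d.2 = 1 ∨ -d.2 = -1
    omega

private theorem dcol_dir {d : ℤ × ℤ} (h : (⟨dcol (-d), false⟩ : Piece).Dir d) : False := by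
  obtain ⟨⟨h1, h2⟩, h3⟩ := h
  rcases h3 with h3 | h3
  · cases h3
  · rcases h2 with h2 | h2
    · have h4 : dcol (-d) = .black := by
        unfold dcol
        rw [if_neg]
        show ¬ (-d.2 = 1)
        omega
      have h5 : d.2 = (dcol (-d)).forward := h3
      rw [h4] at h5
      have h6 : d.2 = -1 := h5
      omega
    · have h4 : dcol (-d) = .white := by
        unfold dcol
        rw [if_pos]
        show -d.2 = 1
        omega
      have h5 : d.2 = (dcol (-d)).forward := h3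
      rw [h4] at h5
      have h6 : d.2 = 1 := h5
      omega

private theorem diag_ne {s d : Square} (hd : IsDiag d) (h : s = s + d) : False := by
  have h1 : s.1 = s.1 + d.1 := congrArg Prod.fst h
  obtain ⟨h2, -⟩ := hd
  omega

/-- Adjacent holes are in the same room. -/
private theorem adj_room (hC : C.Ok) {s : Square} (h : C.Hole s) {d : ℤ × ℤ} (hd : IsDiag d)
    (h' : C.Hole (s + d)) : ∃ ρ, InRoom C ρ s ∧ InRoom C ρ (s + d) := by
  rcases hole_adj hC h hd h' with ⟨i, hi, ⟨h1, h2⟩ | ⟨h1, h2⟩⟩ | ⟨c, hc, u, hk, h1, h2⟩ |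
    ⟨u, h1, h2⟩ | ⟨u, h1, h2⟩ | ⟨u, h1, h2⟩
  · exact ⟨.x, ⟨i, by omega, h1⟩, ⟨i + 1, by omega, h2⟩⟩
  · exact ⟨.x, ⟨i + 1, by omega, h1⟩, ⟨i, by omega, h2⟩⟩
  · exact ⟨.y c, ⟨hc, hk, u, h1⟩, ⟨hc, hk, !u, h2⟩⟩
  · exact ⟨.n, ⟨u, h1⟩, ⟨!u, h2⟩⟩
  · exact ⟨.g, ⟨u, h1⟩, ⟨!u, h2⟩⟩
  · exact ⟨.t, ⟨u, h1⟩, ⟨!u, h2⟩⟩

/-- The king in N1 is White. -/
private theorem n_white (hC : C.Ok) (hx : C.XOk κ) {s : Square} {q : Piece} {u : Bool}
    (hs : s = C.ncell u) (h : C.g.kboard C.cL κ s = some q) : q = ⟨.white, true⟩ := by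
  obtain ⟨ρ, hρ⟩ := hole_king hC hx (hs ▸ Circ.Hole.n u) h
  have h1 : ρ = .n := room_unique hC (kRoom_in hx hρ) ⟨u, hs⟩
  subst h1
  obtain ⟨v, -, -, h2⟩ := hρ
  exact Option.some.inj h2

theorem kboard_quiet (hC : C.Ok) (hx : C.XOk κ) (p : Piece) (s : Square) (d : ℤ × ℤ) :
    ¬ CanJump C.g.N (C.g.kboard C.cL κ) p s d := by
  rintro ⟨hs, hdir, ⟨q, hq, hqc⟩, hdark, hempty⟩
  have hd := hdir.1
  have hsd := kboard_dark _ _ hs
  have hsd2 := kboard_dark _ _ hq
  have hh := empty_hole hC hx hdark hempty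
  -- a man on `s` of the colour `dcol (-d)` is impossible
  have key : C.g.board s ≠ some ⟨dcol (-d), false⟩ := by
    intro hb
    have h1 := man_board hC hx (κ := κ) (s := s) (by rw [hb]; simp)
    rw [hs, hb] at h1
    have h2 : p = ⟨dcol (-d), false⟩ := Option.some.inj h1
    rw [h2] at hdir
    exact dcol_dir hdir
  rcases hole_nbr hC hh (diag_neg hd) with h1 | h1 | ⟨h1, h2⟩ | ⟨h1, h2, h3⟩
  · rw [sq_add_neg] at h1
    exact h1 hsd2
  · rw [sq_add_neg] at h1
    obtain ⟨ρ2, hρ2⟩ := hole_king hC hx h1 hq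
    rcases hole_nbr hC h1 (diag_neg hd) with h4 | h4 | ⟨h4, -⟩ | ⟨h4, h5, h6⟩
    · rw [sq_add_neg] at h4
      exact h4 hsd
    · obtain ⟨ρ, hr1, hr2⟩ := adj_room hC h1 (diag_neg hd) h4
      rw [sq_add_neg] at h4 hr2
      obtain ⟨ρ1, hρ1⟩ := hole_king hC hx h4 hs
      have e1 := room_unique hC (kRoom_in hx hρ1) hr2
      have e2 := room_unique hC (kRoom_in hx hρ2) hr1
      subst e1 e2
      exact diag_ne hd (kRoom_unique hρ1 hρ2).1
    · rw [sq_add_neg] at h4
      exact key h4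
    · rw [sq_add_neg] at h5
      have h7 := man_board hC hx (κ := κ) (s := s) (by rw [h5]; simp)
      rw [hs, h5] at h7
      have h8 : p = ⟨.white, false⟩ := Option.some.inj h7
      have h9 : q = ⟨.white, true⟩ := by
        rcases h4 with ⟨h4, -⟩ | ⟨h4, -⟩
        · exact n_white hC hx h4 hq
        · exact n_white hC hx h4 hq
      rw [h8, h9] at hqc
      cases hqc
  · rw [sq_add_neg, sq_add_neg] at h2
    exact key (h2 hsd)
  · rw [sq_add_neg] at h2 h3
    rw [sq_add_neg] at h3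
    have h7 := man_board hC hx (κ := κ) (s := s + d) (by rw [h2]; simp)
    rw [hq, h2] at h7
    have h8 : q = ⟨.white, false⟩ := Option.some.inj h7
    have h9 := man_board hC hx (κ := κ) h3
    rw [hs] at h9
    have h10 := (board_man hC h9.symm).2
    obtain ⟨-, h11⟩ := hdir
    rcases h11 with h11 | h11
    · rw [h10] at h11
      cases h11
    · have h12 : p.color = .black := by
        rw [h8] at hqc
        revert hqc
        cases p.color
        · intro hh
          cases hh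
        · intro _
          rfl
      rw [h12] at h11
      have h13 : d.2 = -1 := h11
      have h14 : -d.2 = -1 := by
        rcases h1 with ⟨-, h1⟩ | ⟨-, h1⟩
        · exact congrArg Prod.snd h1
        · exact congrArg Prod.snd h1
      omega

/-! ### moves of the kings -/

/-- A move of a king. -/
private theorem move_eq (hC : C.Ok) {κ' : KC} (hx : C.XOk κ) (hx' : C.XOk κ') {ρ0 : Rm}
    {p : Piece} (hp : p.king = true) {s t : Square} (hs : KRoom C κ ρ0 s (some p))
    (ht : KRoom C κ' ρ0 t (some p)) (hst : s ≠ t)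
    (hag : ∀ ρ, ρ ≠ ρ0 → ∀ r q, KRoom C κ ρ r q ↔ KRoom C κ' ρ r q) :
    (C.g.kboard C.cL κ).move C.g.N p s t = C.g.kboard C.cL κ' := by
  have hcr : p.crown C.g.N t.2 = p := by
    unfold Piece.crown
    split_ifs
    · cases p
      simp only [Piece.mk.injEq, true_and]
      exact hp.symm
    · rfl
  funext r
  unfold Board.move
  rw [hcr]
  by_cases hrt : r = t
  · subst hrt
    rw [Function.update_self, kRoom_board hC hx' ht]
  · rw [Function.update_of_ne hrt]
    by_cases hrs : r = s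
    · subst hrs
      rw [Function.update_self]
      have hin := kRoom_in hx hs
      have hh := inRoom_hole hin
      have h1 : ∀ ρ q, ¬ KRoom C κ' ρ r q := by
        intro ρ q hq
        have h2 := room_unique hC (kRoom_in hx' hq) hin
        subst h2
        exact hst (kRoom_unique hq ht).1
      rw [no_kRoom_board hC hx' h1, (board_none_iff hC (hole_dark hC hh)).2 hh]
    · rw [Function.update_of_ne hrs]
      by_cases hk : ∃ ρ q, KRoom C κ ρ r q
      · obtain ⟨ρ, q, hq⟩ := hk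
        have hρ : ρ ≠ ρ0 := by
          rintro rfl
          exact hrs (kRoom_unique hq hs).1
        rw [kRoom_board hC hx hq, kRoom_board hC hx' ((hag ρ hρ r q).1 hq)]
      · have h1 : ∀ ρ q, ¬ KRoom C κ ρ r q := fun ρ q hq => hk ⟨ρ, q, hq⟩
        have h2 : ∀ ρ q, ¬ KRoom C κ' ρ r q := by
          intro ρ q hq
          have hρ : ρ ≠ ρ0 := by
            rintro rfl
            exact hrt (kRoom_unique hq ht).1
          exact h1 ρ q ((hag ρ hρ r q).2 hq)
        rw [no_kRoom_board hC hx h1, no_kRoom_board hC hx' h2]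

private theorem quiet_color (hC : C.Ok) (hx : C.XOk κ) (c : Color) :
    ∀ p s d, p.color = c → ¬ CanJump C.g.N (C.g.kboard C.cL κ) p s d :=
  fun p s d _ => kboard_quiet hC hx p s d

private theorem move_legal (hC : C.Ok) {κ' : KC} (hx : C.XOk κ) (hx' : C.XOk κ') {ρ0 : Rm}
    {p : Piece} (hp : p.king = true) {s t : Square} (hs : KRoom C κ ρ0 s (some p))
    (ht : KRoom C κ' ρ0 t (some p)) (hd : IsDiag (t - s))
    (hag : ∀ ρ, ρ ≠ ρ0 → ∀ r q, KRoom C κ ρ r q ↔ KRoom C κ' ρ r q) :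
    Legal C.g.N p.color (C.g.kboard C.cL κ) (C.g.kboard C.cL κ') := by
  have hst' : s + (t - s) = t := add_sub_cancel s t
  have hst : s ≠ t := by
    intro h
    exact diag_ne (s := s) hd (by rw [hst']; exact h)
  rw [legal_step_iff (quiet_color hC hx p.color)]
  refine ⟨p, s, t - s, kRoom_board hC hx hs, rfl, ⟨hd, Or.inl hp⟩, ?_, ?_, ?_⟩
  · rw [hst']
    exact hole_dark hC (inRoom_hole (kRoom_in hx' ht))
  · rw [hst']
    have hin := kRoom_in hx' ht
    have hh := inRoom_hole hin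
    have h1 : ∀ ρ q, ¬ KRoom C κ ρ t q := by
      intro ρ q hq
      have h2 := room_unique hC (kRoom_in hx hq) hin
      subst h2
      exact hst (kRoom_unique hs hq).1
    rw [no_kRoom_board hC hx h1, (board_none_iff hC (hole_dark hC hh)).2 hh]
  · rw [hst']
    exact (move_eq hC hx hx' hp hs ht hst hag).symm

private theorem ncell_inj {u v : Bool} (h : C.ncell u = C.ncell v) : u = v := by
  have h1 : (28 * (C.cN : ℤ) + (if u then 14 else 15)) = 28 * (C.cN : ℤ) + (if v then 14 else 15) :=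
    congrArg Prod.fst h
  cases u <;> cases v <;> simp at h1 ⊢

private theorem gcell_inj {u v : Bool} (h : C.gcell u = C.gcell v) : u = v := by
  have h1 : (28 * (C.cG : ℤ) + (if u then 15 else 14)) = 28 * (C.cG : ℤ) + (if v then 15 else 14) :=
    congrArg Prod.fst h
  cases u <;> cases v <;> simp at h1 ⊢

private theorem tcell_inj {u v : Bool} (h : C.tcell u = C.tcell v) : u = v := by
  have h1 := congrArg Prod.fst h
  unfold Circ.tcell at h1
  cases u <;> cases v <;> simp at h1 ⊢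

private theorem ag_al {o : Option Bool} : ∀ ρ, ρ ≠ Rm.n → ∀ r q,
    KRoom C κ ρ r q ↔ KRoom C { κ with al := o } ρ r q := by
  intro ρ hρ r q
  cases ρ <;> first | exact Iff.rfl | exact absurd rfl hρ

private theorem ag_x {o : Option ℕ} : ∀ ρ, ρ ≠ Rm.x → ∀ r q,
    KRoom C κ ρ r q ↔ KRoom C { κ with x := o } ρ r q := by
  intro ρ hρ r q
  cases ρ <;> first | exact Iff.rfl | exact absurd rfl hρ

private theorem ag_a {o : Bool} : ∀ ρ, ρ ≠ Rm.g → ∀ r q,
    KRoom C κ ρ r q ↔ KRoom C { κ with a := o } ρ r q := by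
  intro ρ hρ r q
  cases ρ <;> first | exact Iff.rfl | exact absurd rfl hρ

private theorem ag_t {o : Bool} : ∀ ρ, ρ ≠ Rm.t → ∀ r q,
    KRoom C κ ρ r q ↔ KRoom C { κ with tog := o } ρ r q := by
  intro ρ hρ r q
  cases ρ <;> first | exact Iff.rfl | exact absurd rfl hρ

private theorem ag_y {c : ℕ} {o : Bool} : ∀ ρ, ρ ≠ Rm.y c → ∀ r q,
    KRoom C κ ρ r q ↔ KRoom C { κ with y := Function.update κ.y c o } ρ r q := by
  intro ρ hρ r q
  cases ρ with
  | y c' =>
    have h : c' ≠ c := by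
      rintro rfl
      exact hρ rfl
    show (_ ∧ r = C.ycell c' (κ.y c') ∧ _) ↔
      (_ ∧ r = C.ycell c' (Function.update κ.y c o c') ∧ _)
    rw [Function.update_of_ne h]
  | x => exact Iff.rfl
  | n => exact Iff.rfl
  | g => exact Iff.rfl
  | t => exact Iff.rfl

/-- Where a step to a square comes from. -/
private theorem step_cases (hC : C.Ok) (hx : C.XOk κ) {p : Piece} {s : Square} {d : ℤ × ℤ}
    (hs : C.g.kboard C.cL κ s = some p) (hdir : p.Dir d) (ht : IsDark C.g.N (s + d))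
    (he : C.g.kboard C.cL κ (s + d) = none) :
    ((∃ i, κ.x = some (i + 1) ∧ s = C.xcell (i + 1) ∧ s + d = C.xcell i ∧ p = ⟨.white, true⟩) ∨
      (∃ i < C.len, κ.x = some i ∧ s = C.xcell i ∧ s + d = C.xcell (i + 1) ∧
        p = ⟨.white, true⟩) ∨
      (∃ c < C.g.ops.length, (C.op c).kind = .Y ∧ s = C.ycell c (κ.y c) ∧
        s + d = C.ycell c (!(κ.y c)) ∧ p = ⟨.black, true⟩) ∨
      (∃ u, κ.al = some u ∧ s = C.ncell u ∧ s + d = C.ncell (!u) ∧ p = ⟨.white, true⟩) ∨
      (s = C.gcell κ.a ∧ s + d = C.gcell (!κ.a) ∧ p = ⟨.white, true⟩) ∨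
      (s = C.tcell κ.tog ∧ s + d = C.tcell (!κ.tog) ∧ p = ⟨.black, true⟩)) ∨
    ((s + d = C.ncell true ∧ d = (1, 1) ∨ s + d = C.ncell false ∧ d = (-1, 1)) ∧
      p = ⟨.white, false⟩) := by
  have hd := hdir.1
  have hsd := kboard_dark _ _ hs
  have hh := empty_hole hC hx ht he
  obtain ⟨i1, i2, -⟩ := cell_inj hC
  rcases hole_nbr hC hh (diag_neg hd) with h1 | h1 | ⟨h1, -⟩ | ⟨h1, h2, -⟩
  · rw [sq_add_neg] at h1
    exact absurd hsd h1
  · left
    have hadj := hole_adj hC hh (diag_neg hd) h1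
    rw [sq_add_neg] at h1 hadj
    obtain ⟨ρ, hρ⟩ := hole_king hC hx h1 hs
    have hin := kRoom_in hx hρ
    rcases hadj with ⟨i, hi, ⟨h3, h4⟩ | ⟨h3, h4⟩⟩ | ⟨c, hc, u, hk, h3, h4⟩ |
      ⟨u, h3, h4⟩ | ⟨u, h3, h4⟩ | ⟨u, h3, h4⟩
    · have e := room_unique hC hin (ρ' := .x) ⟨i + 1, by omega, h4⟩
      subst e
      obtain ⟨j, hj, e1, e2⟩ := hρ
      have e3 := i1 _ _ (h4.symm.trans e1)
      subst e3
      exact Or.inl ⟨i, hj, h4, h3, Option.some.inj e2⟩
    · have e := room_unique hC hin (ρ' := .x) ⟨i, by omega, h4⟩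
      subst e
      obtain ⟨j, hj, e1, e2⟩ := hρ
      have e3 := i1 _ _ (h4.symm.trans e1)
      subst e3
      exact Or.inr (Or.inl ⟨i, hi, hj, h4, h3, Option.some.inj e2⟩)
    · have e := room_unique hC hin (ρ' := .y c) ⟨hc, hk, _, h4⟩
      subst e
      obtain ⟨-, e1, e2⟩ := hρ
      have e3 := (i2 c c _ _ hc hc hk hk (h4.symm.trans e1)).2
      refine Or.inr (Or.inr (Or.inl ⟨c, hc, hk, e1, ?_, Option.some.inj e2⟩))
      rw [← e3, Bool.not_not]
      exact h3
    · have e := room_unique hC hin (ρ' := .n) ⟨_, h4⟩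
      subst e
      obtain ⟨v, hv, e1, e2⟩ := hρ
      have e3 := ncell_inj (h4.symm.trans e1)
      refine Or.inr (Or.inr (Or.inr (Or.inl ⟨v, hv, e1, ?_, Option.some.inj e2⟩)))
      rw [← e3, Bool.not_not]
      exact h3
    · have e := room_unique hC hin (ρ' := .g) ⟨_, h4⟩
      subst e
      obtain ⟨e1, e2⟩ := hρ
      have e3 := gcell_inj (h4.symm.trans e1)
      refine Or.inr (Or.inr (Or.inr (Or.inr (Or.inl ⟨e1, ?_, Option.some.inj e2⟩))))
      rw [← e3, Bool.not_not]
      exact h3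
    · have e := room_unique hC hin (ρ' := .t) ⟨_, h4⟩
      subst e
      obtain ⟨e1, e2⟩ := hρ
      have e3 := tcell_inj (h4.symm.trans e1)
      refine Or.inr (Or.inr (Or.inr (Or.inr (Or.inr ⟨e1, ?_, Option.some.inj e2⟩))))
      rw [← e3, Bool.not_not]
      exact h3
  · rw [sq_add_neg] at h1
    exfalso
    have h3 := man_board hC hx (κ := κ) (s := s) (by rw [h1]; simp)
    rw [hs, h1] at h3
    have h4 : p = ⟨dcol (-d), false⟩ := Option.some.inj h3
    rw [h4] at hdir
    exact dcol_dir hdir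
  · right
    rw [sq_add_neg] at h2
    have h3 := man_board hC hx (κ := κ) (s := s) (by rw [h2]; simp)
    rw [hs, h2] at h3
    refine ⟨?_, Option.some.inj h3⟩
    rcases h1 with ⟨h1, h4⟩ | ⟨h1, h4⟩
    · exact Or.inl ⟨h1, by rw [← neg_neg d, h4]; rfl⟩
    · exact Or.inr ⟨h1, by rw [← neg_neg d, h4]; rfl⟩

/-- The exceptional men. -/
private theorem n1_men (hC : C.Ok) :
    C.g.board (28 * (C.cN : ℤ) + 16, 20) = wm ∧ C.g.board (28 * (C.cN : ℤ) + 13, 19) = wm := by
  have hlt : C.cN < C.g.ops.length := by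
    have h1 := hC.hNG
    have h2 := hC.hG
    omega
  have hkind : (C.op C.cN).kind = .N1 := (hC.n1 _ hlt).2 rfl
  have hok := hC.tiles _ hlt
  have htrk : (C.op C.cN).trk = 0 := by
    obtain ⟨-, -, h3⟩ := hok
    rw [hkind] at h3
    exact h3.1
  have hsize := hC.size
  have hN : C.g.N = 28 * C.g.ops.length := rfl
  have hget : C.g.ops.getD C.cN default = C.op C.cN := rfl
  constructor
  · unfold Geo.board
    have e1 : (28 * (C.cN : ℤ) + 16).toNat / 28 = C.cN := by omega
    have e2 : (28 * (C.cN : ℤ) + 16).toNat % 28 = 16 := by omega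
    have e3 : (20 : ℤ).toNat = 20 := rfl
    rw [if_pos (by
      refine ⟨?_, ?_, ?_, ?_, ?_⟩
      · show (0 : ℤ) ≤ 28 * (C.cN : ℤ) + 16
        omega
      · show 28 * (C.cN : ℤ) + 16 < C.g.N
        omega
      · show (0 : ℤ) ≤ 20
        omega
      · show (20 : ℤ) < C.g.N
        omega
      · show (2 : ℤ) ∣ 28 * (C.cN : ℤ) + 16 + 20
        omega)]
    show cell _ _ (C.g.ops.getD ((28 * (C.cN : ℤ) + 16).toNat / 28) default)
      ((28 * (C.cN : ℤ) + 16).toNat % 28) (20 : ℤ).toNat = wm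
    rw [e1, e2, e3, hget]
    unfold cell
    have hin : (C.op C.cN).InTile 16 20 := by
      unfold Op.InTile
      rw [hkind, htrk]
      decide
    rw [if_pos hin, hkind, htrk]
    decide
  · unfold Geo.board
    have e1 : (28 * (C.cN : ℤ) + 13).toNat / 28 = C.cN := by omega
    have e2 : (28 * (C.cN : ℤ) + 13).toNat % 28 = 13 := by omega
    have e3 : (19 : ℤ).toNat = 19 := rfl
    rw [if_pos (by
      refine ⟨?_, ?_, ?_, ?_, ?_⟩
      · show (0 : ℤ) ≤ 28 * (C.cN : ℤ) + 13
        omega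
      · show 28 * (C.cN : ℤ) + 13 < C.g.N
        omega
      · show (0 : ℤ) ≤ 19
        omega
      · show (19 : ℤ) < C.g.N
        omega
      · show (2 : ℤ) ∣ 28 * (C.cN : ℤ) + 13 + 19
        omega)]
    show cell _ _ (C.g.ops.getD ((28 * (C.cN : ℤ) + 13).toNat / 28) default)
      ((28 * (C.cN : ℤ) + 13).toNat % 28) (19 : ℤ).toNat = wm
    rw [e1, e2, e3, hget]
    unfold cell
    have hin : (C.op C.cN).InTile 13 19 := by
      unfold Op.InTile
      rw [hkind, htrk]
      decide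
    rw [if_pos hin, hkind, htrk]
    decide

private theorem crown_man (hC : C.Ok) {y : ℤ} (hy : y ≤ 21) :
    (⟨.white, false⟩ : Piece).crown C.g.N y = ⟨.white, false⟩ := by
  have hsize := hC.size
  unfold Piece.crown
  rw [if_neg]
  show ¬ (y = (C.g.N : ℤ) - 1)
  omega

/-- An empty square of N1. -/
private theorem n_empty (hC : C.Ok) (hx : C.XOk κ) {u : Bool} (h : κ.al = some (!u)) :
    C.g.kboard C.cL κ (C.ncell u) = none := by
  have hh : C.Hole (C.ncell u) := Circ.Hole.n u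
  have h1 : ∀ ρ q, ¬ KRoom C κ ρ (C.ncell u) q := by
    intro ρ q hq
    have h2 := room_unique hC (kRoom_in hx hq) (ρ' := .n) ⟨u, rfl⟩
    subst h2
    obtain ⟨v, hv, e, -⟩ := hq
    have h3 := ncell_inj e
    rw [h, ← h3] at hv
    cases u <;> cases hv
  rw [no_kRoom_board hC hx h1, (board_none_iff hC (hole_dark hC hh)).2 hh]

theorem kboard_white_moves (hC : C.Ok) (hx : C.XOk κ) (hal : κ.al ≠ none) (b' : Board) :
    Legal C.g.N .white (C.g.kboard C.cL κ) b' ↔
      (∃ u, κ.al = some u ∧ b' = C.g.kboard C.cL { κ with al := some !u }) ∨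
      (∃ i < C.len, κ.x = some i ∧ b' = C.g.kboard C.cL { κ with x := some (i + 1) }) ∨
      (∃ i, κ.x = some (i + 1) ∧ b' = C.g.kboard C.cL { κ with x := some i }) ∨
      b' = C.g.kboard C.cL { κ with a := !κ.a } ∨
      (∃ u, κ.al = some u ∧ b' = C.g.lboard C.cL C.cN u κ) := by
  obtain ⟨a1, a2, a3, a4, a5⟩ := cell_adj hC
  have hxa : ∀ i ≤ C.len, C.XOk { κ with x := some i } := by
    intro i hi j hj
    have h1 : some i = some j := hj
    cases h1
    exact hi
  constructor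
  · rw [legal_step_iff (quiet_color hC hx .white)]
    rintro ⟨p, s, d, hs, hc, hdir, ht, he, rfl⟩
    have hst : s ≠ s + d := fun h => diag_ne hdir.1 h
    rcases step_cases hC hx hs hdir ht he with (⟨i, h1, h2, h3, rfl⟩ | ⟨i, hi, h1, h2, h3, rfl⟩ |
      ⟨c, hc', hk, h1, h2, rfl⟩ | ⟨u, h1, h2, h3, rfl⟩ | ⟨h1, h2, rfl⟩ | ⟨h1, h2, rfl⟩) | ⟨h1, rfl⟩
    · right; right; left
      have hi : i ≤ C.len := by
        have := hx _ h1
        unfold Circ.len
        omega
      refine ⟨i, h1, move_eq hC hx (hxa i hi) (ρ0 := .x) rfl ⟨i + 1, h1, h2, rfl⟩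
        ⟨i, rfl, h3, rfl⟩ hst ag_x⟩
    · right; left
      exact ⟨i, hi, h1, move_eq hC hx (hxa (i + 1) hi) (ρ0 := .x) rfl ⟨i, h1, h2, rfl⟩
        ⟨i + 1, rfl, h3, rfl⟩ hst ag_x⟩
    · cases hc
    · left
      exact ⟨u, h1, move_eq hC hx (κ' := { κ with al := some !u }) hx (ρ0 := .n) rfl
        ⟨u, h1, h2, rfl⟩ ⟨!u, rfl, h3, rfl⟩ hst ag_al⟩
    · right; right; right; left
      exact move_eq hC hx (κ' := { κ with a := !κ.a }) hx (ρ0 := .g) rfl
        ⟨h1, rfl⟩ ⟨h2, rfl⟩ hst ag_a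
    · cases hc
    · right; right; right; right
      obtain ⟨v, hv⟩ := Option.ne_none_iff_exists'.1 hal
      obtain ⟨-, k2, -⟩ := kboard_king hC hx
      have hk2 := k2 v hv
      rcases h1 with ⟨h1, rfl⟩ | ⟨h1, rfl⟩
      · have hvf : v = false := by
          cases v
          · rfl
          · rw [h1, hk2] at he
            cases he
        subst hvf
        refine ⟨false, hv, ?_⟩
        have e1 : s = (28 * (C.cN : ℤ) + 13, 19) := by
          have h3 : s.1 + 1 = 28 * (C.cN : ℤ) + 14 := congrArg Prod.fst h1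
          have h4 : s.2 + 1 = 20 := congrArg Prod.snd h1
          apply Prod.ext
          · show s.1 = 28 * (C.cN : ℤ) + 13
            omega
          · show s.2 = 19
            omega
        have e2 : C.ncell true = (28 * (C.cN : ℤ) + 14, 20) := rfl
        have hcr : (⟨.white, false⟩ : Piece).crown C.g.N (s + (1, 1)).2 = ⟨.white, false⟩ := by
          apply crown_man hC
          rw [h1, e2]
          show (20 : ℤ) ≤ 21
          omega
        unfold Board.move
        rw [hcr, h1, e1, e2]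
        rfl
      · have hvf : v = true := by
          cases v
          · rw [h1, hk2] at he
            cases he
          · rfl
        subst hvf
        refine ⟨true, hv, ?_⟩
        have e1 : s = (28 * (C.cN : ℤ) + 16, 20) := by
          have h3 : s.1 + -1 = 28 * (C.cN : ℤ) + 15 := congrArg Prod.fst h1
          have h4 : s.2 + 1 = 21 := congrArg Prod.snd h1
          apply Prod.ext
          · show s.1 = 28 * (C.cN : ℤ) + 16
            omega
          · show s.2 = 20
            omega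
        have e2 : C.ncell false = (28 * (C.cN : ℤ) + 15, 21) := rfl
        have hcr : (⟨.white, false⟩ : Piece).crown C.g.N (s + (-1, 1)).2 = ⟨.white, false⟩ := by
          apply crown_man hC
          rw [h1, e2]
        unfold Board.move
        rw [hcr, h1, e1, e2]
        rfl
  · rintro (⟨u, h1, rfl⟩ | ⟨i, hi, h1, rfl⟩ | ⟨i, h1, rfl⟩ | rfl | ⟨u, h1, rfl⟩)
    · exact move_legal hC hx (κ' := { κ with al := some !u }) hx (ρ0 := .n)
        (p := ⟨.white, true⟩) rfl ⟨u, h1, rfl, rfl⟩ ⟨!u, rfl, rfl, rfl⟩ (a3 u) ag_al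
    · exact move_legal hC hx (hxa (i + 1) hi) (ρ0 := .x) (p := ⟨.white, true⟩) rfl
        ⟨i, h1, rfl, rfl⟩ ⟨i + 1, rfl, rfl, rfl⟩ (a1 i hi) ag_x
    · have hi : i < C.len := by
        have := hx _ h1
        unfold Circ.len
        omega
      refine move_legal hC hx (hxa i hi.le) (ρ0 := .x) (p := ⟨.white, true⟩) rfl
        ⟨i + 1, h1, rfl, rfl⟩ ⟨i, rfl, rfl, rfl⟩ ?_ ag_x
      rw [← neg_sub]
      exact diag_neg (a1 i hi)
    · exact move_legal hC hx (κ' := { κ with a := !κ.a }) hx (ρ0 := .g)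
        (p := ⟨.white, true⟩) rfl ⟨rfl, rfl⟩ ⟨rfl, rfl⟩ (a4 κ.a) ag_a
    · obtain ⟨m1, m2⟩ := n1_men hC
      rw [legal_step_iff (quiet_color hC hx .white)]
      cases u
      · have e2 : ((28 * (C.cN : ℤ) + 13, 19) : Square) + (1, 1) = C.ncell true := by
          apply Prod.ext
          · show 28 * (C.cN : ℤ) + 13 + 1 = 28 * (C.cN : ℤ) + 14
            omega
          · rfl
        refine ⟨⟨.white, false⟩, (28 * (C.cN : ℤ) + 13, 19), (1, 1), ?_, rfl,
          ⟨⟨Or.inl rfl, Or.inl rfl⟩, Or.inr rfl⟩, ?_, ?_, ?_⟩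
        · rw [man_board hC hx (by rw [m2]; simp), m2]
        · rw [e2]
          exact hole_dark hC (Circ.Hole.n true)
        · rw [e2]
          exact n_empty hC hx h1
        · rw [e2]
          have e3 : C.ncell true = (28 * (C.cN : ℤ) + 14, 20) := rfl
          have hcr : (⟨.white, false⟩ : Piece).crown C.g.N (C.ncell true).2 = ⟨.white, false⟩ := by
            apply crown_man hC
            rw [e3]
            show (20 : ℤ) ≤ 21
            omega
          unfold Board.move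
          rw [hcr, e3]
          rfl
      · have e2 : ((28 * (C.cN : ℤ) + 16, 20) : Square) + (-1, 1) = C.ncell false := by
          apply Prod.ext
          · show 28 * (C.cN : ℤ) + 16 + -1 = 28 * (C.cN : ℤ) + 15
            omega
          · rfl
        refine ⟨⟨.white, false⟩, (28 * (C.cN : ℤ) + 16, 20), (-1, 1), ?_, rfl,
          ⟨⟨Or.inr rfl, Or.inl rfl⟩, Or.inr rfl⟩, ?_, ?_, ?_⟩
        · rw [man_board hC hx (by rw [m1]; simp), m1]
        · rw [e2]
          exact hole_dark hC (Circ.Hole.n false)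
        · rw [e2]
          exact n_empty hC hx h1
        · rw [e2]
          have e3 : C.ncell false = (28 * (C.cN : ℤ) + 15, 21) := rfl
          have hcr : (⟨.white, false⟩ : Piece).crown C.g.N (C.ncell false).2 = ⟨.white, false⟩ := by
            apply crown_man hC
            rw [e3]
          unfold Board.move
          rw [hcr, e3]
          rfl

theorem kboard_black_moves (hC : C.Ok) (hx : C.XOk κ) (b' : Board) :
    Legal C.g.N .black (C.g.kboard C.cL κ) b' ↔
      b' = C.g.kboard C.cL { κ with tog := !κ.tog } ∨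
      ∃ c < C.g.ops.length, (C.op c).kind = .Y ∧
        b' = C.g.kboard C.cL { κ with y := Function.update κ.y c !(κ.y c) } := by
  obtain ⟨a1, a2, a3, a4, a5⟩ := cell_adj hC
  constructor
  · rw [legal_step_iff (quiet_color hC hx .black)]
    rintro ⟨p, s, d, hs, hc, hdir, ht, he, rfl⟩
    have hst : s ≠ s + d := fun h => diag_ne hdir.1 h
    rcases step_cases hC hx hs hdir ht he with (⟨i, h1, h2, h3, rfl⟩ | ⟨i, hi, h1, h2, h3, rfl⟩ |
      ⟨c, hc', hk, h1, h2, rfl⟩ | ⟨u, h1, h2, h3, rfl⟩ | ⟨h1, h2, rfl⟩ | ⟨h1, h2, rfl⟩) | ⟨h1, rfl⟩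
    · cases hc
    · cases hc
    · right
      refine ⟨c, hc', hk, move_eq hC hx (κ' := { κ with y := Function.update κ.y c !(κ.y c) }) hx
        (ρ0 := .y c) rfl ⟨⟨hc', hk⟩, h1, rfl⟩ ⟨⟨hc', hk⟩, ?_, rfl⟩ hst ag_y⟩
      show s + d = C.ycell c (Function.update κ.y c (!(κ.y c)) c)
      rw [Function.update_self]
      exact h2
    · cases hc
    · cases hc
    · left
      exact move_eq hC hx (κ' := { κ with tog := !κ.tog }) hx (ρ0 := .t) rfl
        ⟨h1, rfl⟩ ⟨h2, rfl⟩ hst ag_t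
    · cases hc
  · rintro (rfl | ⟨c, hc, hk, rfl⟩)
    · exact move_legal hC hx (κ' := { κ with tog := !κ.tog }) hx (ρ0 := .t)
        (p := ⟨.black, true⟩) rfl ⟨rfl, rfl⟩ ⟨rfl, rfl⟩ (a5 κ.tog) ag_t
    · refine move_legal hC hx (κ' := { κ with y := Function.update κ.y c !(κ.y c) }) hx
        (ρ0 := .y c) (p := ⟨.black, true⟩) rfl (s := C.ycell c (κ.y c))
        (t := C.ycell c (!(κ.y c))) ⟨⟨hc, hk⟩, rfl, rfl⟩ ⟨⟨hc, hk⟩, ?_, rfl⟩ (a2 c (κ.y c)) ag_y
      show C.ycell c (!(κ.y c)) = C.ycell c (Function.update κ.y c (!(κ.y c)) c)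
      rw [Function.update_self]

end Pool.Agent.MC95
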