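import Pool.Agent.MC95.WinA

/-!
# Windows of the tiles UT, G and N1 after a launch

PLAN. As in `WinA.lean` (`cell_plain` is the main tool; inside the special part of the tile the
content is that of the local board by definition of `cell`, outside it is `stBg.get`, and a finite
check, e.g. `decide +kernel` on masks, says that the local board agrees with `stBg` there; for UT and G with the rows
`11`, `12`, `13` White, `14`, ..., `18` Black, `19`, `20`, `21` White; for N1 `ecell` is the content of
`dirty al` by definition in column `cN`, and to the left the trace of the westbound wave and the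
rows `1`, `9` of the westbound tracks have to be compared).
-/

namespace Pool.Agent.MC95

variable {C : Circ} {κ : KC} {al xd kd : Bool} {c : ℕ}

/-! ### local boards by coordinates -/

/-- content by the natural coordinates of the window -/
private def getN (L : LB) (x y : ℕ) : Option Piece :=
  if L.w.testBit (x + 64 * y) then some ⟨.white, L.k.testBit (x + 64 * y)⟩
  else if L.b.testBit (x + 64 * y) then some ⟨.black, L.k.testBit (x + 64 * y)⟩
  else none

private theorem get_eq_getN (L : LB) (x y : ℤ) : L.get x y = getN L (x + 4).toNat (y + 6).toNat := rfl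

/-- the rows outside of the special part of the tiles at the top -/
private def exp0 (x y : ℕ) : Option Piece :=
  if 28 ≤ y then bm
  else if 25 ≤ y then wm
  else if 20 ≤ y then bm
  else if 17 ≤ y then wm
  else if (y + 2) % 8 = 0 then (if x % 4 = 0 then wm else bm)
  else if (y + 2) % 8 = 1 then (if x % 4 = 1 then wm else bm)
  else if (y + 2) % 8 = 2 then (if x % 4 = 2 then bm else wm)
  else if (y + 2) % 8 ≤ 4 then wm
  else bm

/-- the rows outside of the special part of the tiles -/
private def topf (sg reg x y : ℕ) : Option Piece :=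
  if 12 + 8 * sg + 22 ≤ y then bm
  else if 12 + 8 * sg + 19 ≤ y then wm
  else if 12 + 8 * sg + 14 ≤ y then bm
  else if 12 + 8 * sg + 11 ≤ y then wm
  else bgc reg x y

private theorem topf_exp0 {sg x xn y yn : ℕ} (hx : x % 4 = xn % 4) (hy : y + 6 = 12 + 8 * sg + yn) :
    topf sg 0 x y = exp0 xn yn := by
  have e1 : (12 + 8 * sg + 22 ≤ y) ↔ 28 ≤ yn := by omega
  have e2 : (12 + 8 * sg + 19 ≤ y) ↔ 25 ≤ yn := by omega
  have e3 : (12 + 8 * sg + 14 ≤ y) ↔ 20 ≤ yn := by omega
  have e4 : (12 + 8 * sg + 11 ≤ y) ↔ 17 ≤ yn := by omega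
  have e5 : (y + 4) % 8 = (yn + 2) % 8 := by omega
  have e6 : ¬ ((1 ≤ 0 ∧ y = 13) ∨ (2 ≤ 0 ∧ y = 21)) := by omega
  unfold topf exp0 bgc
  simp only [e1, e2, e3, e4, e5, e6, hx, if_false]

private theorem topf_low {sg reg x y : ℕ} (h : y < 12 + 8 * sg + 11) :
    topf sg reg x y = bgc reg x y := by
  unfold topf
  rw [if_neg (by omega), if_neg (by omega), if_neg (by omega), if_neg (by omega)]

/-! ### cells -/

private theorem cell_out {N sg : ℕ} {op : Op} {x y : ℕ} (ht : ¬ op.InTile x y)
    (hcor : op.cor = 0 ∨ op.cor = 4) (hf : op.kind = .first → 2 ≤ x) :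
    cell N sg op x y = topf sg (op.regAt x) x y := by
  unfold cell topf
  rw [if_neg ht, if_neg (by omega), if_neg (by omega), if_neg (by omega), if_neg]
  rintro ⟨h1, h2⟩
  have := hf h1
  omega

private theorem kingAt_side {N cL : ℕ} {κ : KC} {op : Op} {c x y : ℕ} (hcor : op.cor = 0 ∨ op.cor = 4)
    (hx : x = 0 ∨ 24 ≤ x) (hf : op.kind = .first → 24 ≤ x) : kingAt N cL κ op c x y = none := by
  unfold kingAt
  rw [if_neg (by omega)]
  obtain ⟨k, t, r, co, i⟩ := op
  dsimp only at hf ⊢
  cases k with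
  | first =>
    have h := hf rfl
    dsimp only
    rw [if_neg (by omega)]
  | N1 => dsimp only; rw [if_neg (by omega)]
  | G => dsimp only; rw [if_neg (by omega)]
  | Y => dsimp only; rw [if_neg (by omega)]
  | _ => rfl

private theorem not_inTile_side {op : Op} {x y : ℕ} (hx : x = 0 ∨ 24 ≤ x) : ¬ op.InTile x y := by
  unfold Op.InTile
  omega

private theorem regAt_left {op : Op} {x : ℕ} (hx : 24 ≤ x) : op.regAt x = op.regAt 27 := by
  unfold Op.regAt
  cases op.kind <;> simp only <;> rw [if_neg (by omega), if_neg (by omega)]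

private theorem ecell_high {N sg cN : ℕ} {al : Bool} {op : Op} {c x y : ℕ} (h : 34 < y) :
    ecell N sg cN al op c x y = cell N sg op x y := by
  have hw : wtrk al ≤ 1 := by cases al <;> decide
  unfold ecell
  rw [if_neg (by omega), if_neg (by omega), if_neg (by omega), if_neg (by omega)]

/-! ### the board after a launch -/

private theorem eb_light {s : Square} (hd : ¬ IsDark C.g.N s) : C.eb al κ xd kd s = none := by
  unfold Circ.eb Geo.eboard
  rw [if_neg hd]

private theorem eb_eval {s : Square} (hd : IsDark C.g.N s) {c' x' y' : ℕ} (hx' : x' < 28)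
    (h1 : s.1 = 28 * (c' : ℤ) + x') (h2 : s.2 = y')
    (hk : kingAt C.g.N C.cL (κ.dead xd kd) (C.op c') c' x' y' = none) :
    C.eb al κ xd kd s = ecell C.g.N C.g.sg C.cN al (C.op c') c' x' y' := by
  have e1 : s.1.toNat / 28 = c' := by omega
  have e2 : s.1.toNat % 28 = x' := by omega
  have e3 : s.2.toNat = y' := by omega
  unfold Circ.eb Geo.eboard
  rw [if_pos hd, e1, e2, e3]
  change (match kingAt C.g.N C.cL (κ.dead xd kd) (C.op c') c' x' y' with
    | some p => some p
    | none => ecell C.g.N C.g.sg C.cN al (C.op c') c' x' y') = _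
  rw [hk]

private theorem eb_king {s : Square} (hd : IsDark C.g.N s) {c' x' y' : ℕ} (hx' : x' < 28)
    (h1 : s.1 = 28 * (c' : ℤ) + x') (h2 : s.2 = y') {p : Piece}
    (hk : kingAt C.g.N C.cL (κ.dead xd kd) (C.op c') c' x' y' = some p) :
    C.eb al κ xd kd s = some p := by
  have e1 : s.1.toNat / 28 = c' := by omega
  have e2 : s.1.toNat % 28 = x' := by omega
  have e3 : s.2.toNat = y' := by omega
  unfold Circ.eb Geo.eboard
  rw [if_pos hd, e1, e2, e3]
  change (match kingAt C.g.N C.cL (κ.dead xd kd) (C.op c') c' x' y' with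
    | some p => some p
    | none => ecell C.g.N C.g.sg C.cN al (C.op c') c' x' y') = _
  rw [hk]

/-- a square to the left or to the right of a tile without corridor -/
private theorem eb_side {s : Square} (hd : IsDark C.g.N s) {c' x' y' : ℕ} (hx' : x' < 28)
    (h1 : s.1 = 28 * (c' : ℤ) + x') (h2 : s.2 = y') (hcor : (C.op c').cor = 0 ∨ (C.op c').cor = 4)
    (hx : x' = 0 ∨ 24 ≤ x') (hf : (C.op c').kind = .first → 24 ≤ x') :
    C.eb al κ xd kd s = ecell C.g.N C.g.sg C.cN al (C.op c') c' x' y' :=
  eb_eval hd hx' h1 h2 (kingAt_side hcor hx hf)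

private theorem cell_side {N sg : ℕ} {op : Op} {x y : ℕ} (hcor : op.cor = 0 ∨ op.cor = 4)
    (hx : x = 0 ∨ 24 ≤ x) (hf : op.kind = .first → 24 ≤ x) :
    cell N sg op x y = topf sg (op.regAt x) x y :=
  cell_out (not_inTile_side hx) hcor fun h => by have := hf h; omega

/-! ### the tiles UT and G -/

private theorem chkUT : ∀ x < 33, ∀ y < 20, (if (x + y) % 2 = 1 then getN stUT x y = none
    else if 5 ≤ x ∧ x ≤ 27 ∧ 3 ≤ y ∧ y ≤ 17 then True else getN stUT x y = exp0 x y) := by
  decide +kernel

private theorem chkG : ∀ x < 33, ∀ y < 28, 3 ≤ y → (if (x + y) % 2 = 1 then getN stG x y = none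
    else if 5 ≤ x ∧ x ≤ 27 ∧ 3 ≤ y ∧ y ≤ 25 then True else getN stG x y = exp0 x y) := by
  decide +kernel

/-- the part of a window outside of the special part, for tiles at the top -/
private theorem eb_top (hC : C.Ok) (hc : 1 ≤ c) (hc' : c + 1 < C.g.ops.length)
    (hcor : (C.op c).cor = 0) (hr0 : (C.op c).regAt 0 = 0) (hr27 : (C.op c).regAt 27 = 0)
    (hreg : ∀ x, (C.op c).regAt x = 0)
    {x y : ℤ} (h1 : -4 ≤ x) (h2 : x ≤ 28) (h3 : -6 ≤ y) (h4 : y < 34)
    (hd : IsDark C.g.N (28 * (c : ℤ) + x, 12 + 8 * (C.g.sg : ℤ) + y))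
    (hin : 0 ≤ x → x ≤ 27 → ¬ (C.op c).InTile x.toNat (12 + 8 * (C.g.sg : ℤ) + y).toNat ∧
      kingAt C.g.N C.cL (κ.dead xd kd) (C.op c) c x.toNat (12 + 8 * (C.g.sg : ℤ) + y).toNat =
        none) :
    C.eb al κ xd kd (28 * (c : ℤ) + x, 12 + 8 * (C.g.sg : ℤ) + y) =
      exp0 (x + 4).toNat (y + 6).toNat := by
  have hsg := hC.sg24
  have f1 := hC.fit (c - 1) (by omega)
  have f2 := hC.fit c hc'
  rw [show c - 1 + 1 = c by omega] at f1
  obtain ⟨g1, -, g3⟩ := f1
  obtain ⟨k1, k2, -⟩ := f2
  have hfirst : ∀ c' < C.g.ops.length, 1 ≤ c' → (C.op c').kind ≠ .first := by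
    intro c' hc1 hc2 h
    have := (hC.first c' hc1).1 h
    omega
  obtain ⟨y', hy'⟩ : ∃ y' : ℕ, y' = (12 + 8 * (C.g.sg : ℤ) + y).toNat := ⟨_, rfl⟩
  have hy2 : 12 + 8 * (C.g.sg : ℤ) + y = y' := by omega
  rcases lt_or_ge x 0 with hx | hx
  · -- the column to the left
    obtain ⟨x', hx'⟩ : ∃ x' : ℕ, (x' : ℤ) = x + 28 := ⟨(x + 28).toNat, by omega⟩
    rw [eb_side (c' := c - 1) (x' := x') (y' := y') hd (by omega) (by dsimp only; omega) hy2
      (g3 hcor) (Or.inr (by omega)) (fun _ => by omega), ecell_high (by omega),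
      cell_side (g3 hcor) (Or.inr (by omega)) (fun _ => by omega), regAt_left (by omega), ← g1, hr0]
    exact topf_exp0 (by omega) (by omega)
  · rcases le_or_gt x 27 with hx2 | hx2
    · -- the column itself
      obtain ⟨i1, i2⟩ := hin hx hx2
      obtain ⟨x', hx'⟩ : ∃ x' : ℕ, x' = x.toNat := ⟨_, rfl⟩
      rw [← hx', ← hy'] at i1 i2
      rw [eb_eval (c' := c) (x' := x') (y' := y') hd (by omega) (by dsimp only; omega) hy2 i2,
        ecell_high (by omega), cell_out i1 (Or.inl hcor) (fun h => absurd h (hfirst c (by omega) hc)),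
        hreg]
      exact topf_exp0 (by omega) (by omega)
    · -- the column to the right
      have hx3 : x = 28 := by omega
      subst hx3
      have hf : (C.op (c + 1)).kind = .first → 24 ≤ 0 := fun h =>
        absurd h (hfirst (c + 1) hc' (by omega))
      rw [eb_side (c' := c + 1) (x' := 0) (y' := y') hd (by omega) (by dsimp only; push_cast; omega)
        hy2 (k2 hcor) (Or.inl rfl) hf, ecell_high (by omega), cell_side (k2 hcor) (Or.inl rfl) hf,
        k1, hr27]
      exact topf_exp0 (by omega) (by omega)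

private theorem kingAt_UT {N cL : ℕ} {κ : KC} {op : Op} {c x y : ℕ} (hcor : op.cor = 0)
    (hk : op.kind = .UT) : kingAt N cL κ op c x y = none := by
  unfold kingAt
  rw [if_neg (by omega), hk]

private theorem kingAt_G {N cL : ℕ} {κ : KC} {op : Op} {c x y : ℕ} (hcor : op.cor = 0)
    (hk : op.kind = .G) : kingAt N cL κ op c x y =
    if (κ.a = false ∧ x = 14 ∧ y = 12 + 8 * op.trk + 18) ∨
      (κ.a = true ∧ x = 15 ∧ y = 12 + 8 * op.trk + 19) then wk else none := by
  unfold kingAt
  rw [if_neg (by omega), hk]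

private theorem kingAt_N1 {N cL : ℕ} {κ : KC} {op : Op} {c x y : ℕ} (hcor : op.cor = 0)
    (hk : op.kind = .N1) : kingAt N cL κ op c x y =
    if (κ.al = some true ∧ x = 14 ∧ y = 12 + 8) ∨ (κ.al = some false ∧ x = 15 ∧ y = 12 + 9) then wk
    else none := by
  unfold kingAt
  rw [if_neg (by omega), hk]

theorem winEq_UT (hC : C.Ok) (hx : C.XOk κ) (hc : 1 ≤ c) (hc' : c + 1 < C.g.ops.length)
    (hk : (C.op c).kind = .UT) :
    WinEq (C.eb al κ xd kd) c (C.op c).trk 2 16 stUT := by
  have hop := hC.tiles c (by omega)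
  have hsz := hC.size
  have hsg := hC.sg24
  unfold Geo.N at hsz
  unfold OpOk at hop
  rw [hk] at hop
  obtain ⟨-, -, htrk, hcor, hreg⟩ := hop
  intro x y h1 h2 h3 h4
  have hchk := chkUT (x + 4).toNat (by omega) (y + 6).toNat (by omega)
  rw [get_eq_getN]
  by_cases hd : IsDark C.g.N (28 * (c : ℤ) + x, 12 + 8 * ((C.op c).trk : ℤ) + y)
  · obtain ⟨-, -, -, -, hpar⟩ := id hd
    dsimp only at hpar
    rw [if_neg (by omega)] at hchk
    by_cases hin : 5 ≤ (x + 4).toNat ∧ (x + 4).toNat ≤ 27 ∧ 3 ≤ (y + 6).toNat ∧ (y + 6).toNat ≤ 17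
    · obtain ⟨x', hx'⟩ : ∃ x' : ℕ, (x' : ℤ) = x := ⟨x.toNat, by omega⟩
      obtain ⟨y', hy'⟩ : ∃ y' : ℕ, (y' : ℤ) = 12 + 8 * ((C.op c).trk : ℤ) + y :=
        ⟨(12 + 8 * ((C.op c).trk : ℤ) + y).toNat, by omega⟩
      have hT : (C.op c).InTile x' y' := by
        unfold Op.InTile
        rw [hk]
        refine ⟨by decide, by decide, by omega, by omega, by omega, ?_⟩
        have : Kind.UT.ytop = 11 := rfl
        rw [this]
        omega
      rw [eb_eval (c' := c) (x' := x') (y' := y') hd (by omega) (by dsimp only; omega)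
        (by dsimp only; omega) (kingAt_UT hcor hk), ecell_high (by omega)]
      unfold cell
      rw [if_pos hT, hk, hx', show (y' : ℤ) - (12 + 8 * ((C.op c).trk : ℤ)) = y by omega]
      exact get_eq_getN _ _ _
    · rw [if_neg hin] at hchk
      rw [hchk, htrk]
      rw [htrk] at hd
      refine eb_top hC hc hc' hcor ?_ ?_ ?_ h1 h2 (by omega) (by omega) hd fun i1 i2 => ⟨?_, kingAt_UT hcor hk⟩
      · unfold Op.regAt; rw [hk]; exact hreg
      · unfold Op.regAt; rw [hk]; exact hreg
      · intro z; unfold Op.regAt; rw [hk]; exact hreg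
      · unfold Op.InTile
        rw [hk]
        have : Kind.UT.ytop = 11 := rfl
        rw [this]
        omega
  · rw [eb_light hd]
    have hpar : ¬ (2 ∣ 28 * (c : ℤ) + x + (12 + 8 * ((C.op c).trk : ℤ) + y)) := by
      intro h
      apply hd
      unfold IsDark Geo.N
      refine ⟨?_, ?_, ?_, ?_, h⟩ <;> dsimp only <;> push_cast <;> omega
    rw [if_pos (by omega)] at hchk
    exact hchk.symm

private theorem stG_king (a : Bool) (x y : ℤ) (h1 : -4 ≤ x) (h2 : x ≤ 28) (h3 : -6 ≤ y) :
    (if a then stG.put 15 19 wk else stG.put 14 18 wk).get x y =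
      if (a = false ∧ x = 14 ∧ y = 18) ∨ (a = true ∧ x = 15 ∧ y = 19) then wk else stG.get x y := by
  have e1 : stG.w &&& stG.b = 0 := by decide +kernel
  have e2 : stG.k ||| (stG.w ||| stG.b) = stG.w ||| stG.b := by decide +kernel
  cases a
  · rw [if_neg (by decide), get_put stG 14 18 x y wk (by omega) (by omega) (by omega) h1 (by omega) h3 e1 e2]
    simp
  · rw [if_pos rfl, get_put stG 15 19 x y wk (by omega) (by omega) (by omega) h1 (by omega) h3 e1 e2]
    simp

theorem winEq_G (hC : C.Ok) (hx : C.XOk κ) :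
    WinEq (C.eb al κ xd kd) C.cG C.g.sg 5 21
      (if κ.a then stG.put 15 19 wk else stG.put 14 18 wk) := by
  have hsz := hC.size
  have hsg := hC.sg24
  have hG := hC.hG
  have hN := hC.hNG
  have hk : (C.op C.cG).kind = .G := (hC.gate C.cG (by omega)).2 rfl
  have hop := hC.tiles C.cG (by omega)
  unfold Geo.N at hsz
  unfold OpOk at hop
  rw [hk] at hop
  obtain ⟨-, -, htrk, hcor, hreg⟩ := hop
  intro x y h1 h2 h3 h4
  have hchk := chkG (x + 4).toNat (by omega) (y + 6).toNat (by omega) (by omega)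
  rw [stG_king κ.a x y h1 h2 (by omega), get_eq_getN]
  by_cases hd : IsDark C.g.N (28 * (C.cG : ℤ) + x, 12 + 8 * (C.g.sg : ℤ) + y)
  · obtain ⟨-, -, -, -, hpar⟩ := id hd
    dsimp only at hpar
    rw [if_neg (by omega)] at hchk
    by_cases hking : (κ.a = false ∧ x = 14 ∧ y = 18) ∨ (κ.a = true ∧ x = 15 ∧ y = 19)
    · rw [if_pos hking]
      obtain ⟨x', hx'⟩ : ∃ x' : ℕ, (x' : ℤ) = x := ⟨x.toNat, by omega⟩
      obtain ⟨y', hy'⟩ : ∃ y' : ℕ, (y' : ℤ) = 12 + 8 * (C.g.sg : ℤ) + y :=
        ⟨(12 + 8 * (C.g.sg : ℤ) + y).toNat, by omega⟩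
      refine eb_king (c' := C.cG) (x' := x') (y' := y') hd (by omega) (by dsimp only; omega)
        (by dsimp only; omega) ?_
      rw [kingAt_G hcor hk, if_pos]
      rw [htrk]
      change (κ.a = false ∧ _) ∨ (κ.a = true ∧ _)
      rcases hking with ⟨i1, i2, i3⟩ | ⟨i1, i2, i3⟩
      · exact Or.inl ⟨i1, by omega, by omega⟩
      · exact Or.inr ⟨i1, by omega, by omega⟩
    · rw [if_neg hking]
      have hkn : ∀ x' y' : ℕ, (x' : ℤ) = x → (y' : ℤ) = 12 + 8 * (C.g.sg : ℤ) + y →
          kingAt C.g.N C.cL (κ.dead xd kd) (C.op C.cG) C.cG x' y' = none := by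
        intro x' y' hx' hy'
        rw [kingAt_G hcor hk, if_neg]
        rw [htrk]
        intro h
        apply hking
        change (κ.a = false ∧ _) ∨ (κ.a = true ∧ _) at h
        rcases h with ⟨i1, i2, i3⟩ | ⟨i1, i2, i3⟩
        · exact Or.inl ⟨i1, by omega, by omega⟩
        · exact Or.inr ⟨i1, by omega, by omega⟩
      by_cases hin : 5 ≤ (x + 4).toNat ∧ (x + 4).toNat ≤ 27 ∧ 3 ≤ (y + 6).toNat ∧ (y + 6).toNat ≤ 25
      · obtain ⟨x', hx'⟩ : ∃ x' : ℕ, (x' : ℤ) = x := ⟨x.toNat, by omega⟩
        obtain ⟨y', hy'⟩ : ∃ y' : ℕ, (y' : ℤ) = 12 + 8 * (C.g.sg : ℤ) + y :=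
          ⟨(12 + 8 * (C.g.sg : ℤ) + y).toNat, by omega⟩
        have hT : (C.op C.cG).InTile x' y' := by
          unfold Op.InTile
          rw [hk, htrk]
          refine ⟨by decide, by decide, by omega, by omega, by omega, ?_⟩
          have : Kind.G.ytop = 19 := rfl
          rw [this]
          omega
        rw [eb_eval (c' := C.cG) (x' := x') (y' := y') hd (by omega) (by dsimp only; omega)
          (by dsimp only; omega) (hkn x' y' hx' hy'), ecell_high (by omega)]
        unfold cell
        rw [if_pos hT, hk, hx', htrk, show (y' : ℤ) - (12 + 8 * (C.g.sg : ℤ)) = y by omega]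
        exact get_eq_getN _ _ _
      · rw [if_neg hin] at hchk
        rw [hchk]
        refine eb_top hC (by omega) hG hcor ?_ ?_ ?_ h1 h2 (by omega) (by omega) hd
          fun i1 i2 => ⟨?_, hkn _ _ (by omega) (by omega)⟩
        · unfold Op.regAt; rw [hk]; exact hreg
        · unfold Op.regAt; rw [hk]; exact hreg
        · intro z; unfold Op.regAt; rw [hk]; exact hreg
        · unfold Op.InTile
          rw [hk, htrk]
          have : Kind.G.ytop = 19 := rfl
          rw [this]
          omega
  · rw [eb_light hd]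
    have hpar : ¬ (2 ∣ 28 * (C.cG : ℤ) + x + (12 + 8 * (C.g.sg : ℤ) + y)) := by
      intro h
      apply hd
      unfold IsDark Geo.N
      refine ⟨?_, ?_, ?_, ?_, h⟩ <;> dsimp only <;> push_cast <;> omega
    rw [if_pos (by omega)] at hchk
    rw [if_neg (by omega)]
    exact hchk.symm

/-! ### the tile N1 -/

private theorem chkN1 (al : Bool) : ∀ x < 33, ∀ y < 28, 3 ≤ y →
    (if (x + y) % 2 = 1 then getN (dirty al) x y = none
    else if x < 4 then getN (dirty al) x y =
      (if y + 6 = 12 + 8 * wtrk al then bm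
      else if y + 6 = 13 + 8 * wtrk al then none
      else if y + 6 = 14 + 8 * wtrk al then wm
      else bgc 2 (x + 24) (y + 6))
    else if x = 32 then getN (dirty al) x y = bgc 0 0 (y + 6) else True) := by
  cases al <;> decide +kernel

private theorem N1_king (al kd : Bool) (x y : ℤ) (h1 : -4 ≤ x) (h2 : x ≤ 28) (h3 : -6 ≤ y) :
    (if kd then dirty al else (dirty al).put 15 9 wk).get x y =
      if kd = false ∧ x = 15 ∧ y = 9 then wk else (dirty al).get x y := by
  have e1 : (dirty al).w &&& (dirty al).b = 0 := by cases al <;> decide +kernel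
  have e2 : (dirty al).k ||| ((dirty al).w ||| (dirty al).b) = (dirty al).w ||| (dirty al).b := by
    cases al <;> decide +kernel
  cases kd
  · rw [if_neg (by decide), get_put (dirty al) 15 9 x y wk (by omega) (by omega) (by omega) h1
      (by omega) h3 e1 e2]
    simp
  · rw [if_pos rfl]
    simp

theorem winEq_N1 (hC : C.Ok) (hx : C.XOk κ) :
    WinEq (C.eb al κ xd kd) C.cN 0 5 21
      (if kd then dirty al else (dirty al).put 15 9 wk) := by
  have hsz := hC.size
  have hsg := hC.sg24
  have hB := hC.hB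
  have hBA := hC.hBA
  have hAL := hC.hAL
  have hLR := hC.hLR
  have hRN := hC.hRN
  have hG := hC.hG
  have hNG := hC.hNG
  have hk : (C.op C.cN).kind = .N1 := (hC.n1 C.cN (by omega)).2 rfl
  have hop := hC.tiles C.cN (by omega)
  unfold Geo.N at hsz
  unfold OpOk at hop
  rw [hk] at hop
  obtain ⟨-, -, htrk, hcor⟩ := hop
  have f1 := hC.fit (C.cN - 1) (by omega)
  have f2 := hC.fit C.cN (by omega)
  rw [show C.cN - 1 + 1 = C.cN by omega] at f1
  obtain ⟨g1, -, g3⟩ := f1
  obtain ⟨k1, k2, -⟩ := f2
  have hfirst : ∀ c' < C.g.ops.length, 1 ≤ c' → (C.op c').kind ≠ .first := by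
    intro c' hc1 hc2 h
    have := (hC.first c' hc1).1 h
    omega
  have hw : wtrk al ≤ 1 := by cases al <;> decide
  intro x y h1 h2 h3 h4
  have hchk := chkN1 al (x + 4).toNat (by omega) (y + 6).toNat (by omega) (by omega)
  rw [N1_king al kd x y h1 h2 (by omega), get_eq_getN]
  obtain ⟨y', hy'⟩ : ∃ y' : ℕ, (y' : ℤ) = 12 + y := ⟨(12 + y).toNat, by omega⟩
  have hyy : 12 + 8 * ((0 : ℕ) : ℤ) + y = y' := by push_cast; omega
  have hyn : y' = (y + 6).toNat + 6 := by omega
  rw [hyy]
  by_cases hd : IsDark C.g.N (28 * (C.cN : ℤ) + x, (y' : ℤ))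
  · obtain ⟨-, -, -, -, hpar⟩ := id hd
    dsimp only at hpar
    rw [if_neg (by omega)] at hchk
    rcases lt_or_ge x 0 with hx0 | hx0
    · -- left
      rw [if_neg (by omega)]
      rw [if_pos (by omega)] at hchk
      obtain ⟨x', hx'⟩ : ∃ x' : ℕ, (x' : ℤ) = x + 28 := ⟨(x + 28).toNat, by omega⟩
      rw [eb_side (c' := C.cN - 1) (x' := x') (y' := y') hd (by omega) (by dsimp only; omega) rfl
        (g3 hcor) (Or.inr (by omega)) (fun _ => by omega), hchk, ← hyn]
      unfold ecell
      have e0 : ¬ (C.cN - 1 = C.cN ∧ 6 ≤ y' ∧ y' ≤ 34) := by omega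
      have e1 : (C.cN - 1 < C.cN ∧ y' = 12 + 8 * wtrk al) ↔ y' = 12 + 8 * wtrk al := by omega
      have e2 : (C.cN - 1 < C.cN ∧ y' = 13 + 8 * wtrk al) ↔ y' = 13 + 8 * wtrk al := by omega
      have e3 : (C.cN - 1 < C.cN ∧ y' = 14 + 8 * wtrk al) ↔ y' = 14 + 8 * wtrk al := by omega
      have e4 : (C.op C.cN).regAt 0 = 2 := by
        unfold Op.regAt
        rw [hk]
        rfl
      rw [if_neg e0, cell_side (g3 hcor) (Or.inr (by omega)) (fun _ => by omega),
        regAt_left (by omega), ← g1, e4, topf_low (by omega), show (x + 4).toNat + 24 = x' by omega]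
      simp only [e1, e2, e3]
    · rcases le_or_gt x 27 with hx2 | hx2
      · obtain ⟨x', hx'⟩ : ∃ x' : ℕ, (x' : ℤ) = x := ⟨x.toNat, by omega⟩
        by_cases hking : kd = false ∧ x = 15 ∧ y = 9
        · rw [if_pos hking]
          refine eb_king (c' := C.cN) (x' := x') (y' := y') hd (by omega) (by dsimp only; omega)
            rfl ?_
          rw [kingAt_N1 hcor hk, if_pos]
          right
          refine ⟨?_, by omega, by omega⟩
          unfold KC.dead
          rw [hking.1]
          rfl
        · rw [if_neg hking]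
          have hkn : kingAt C.g.N C.cL (κ.dead xd kd) (C.op C.cN) C.cN x' y' = none := by
            rw [kingAt_N1 hcor hk, if_neg]
            unfold KC.dead
            dsimp only
            cases kd
            · intro h
              simp only [Bool.false_eq_true, if_false] at h
              rcases h with ⟨i1, -⟩ | ⟨-, i2, i3⟩
              · exact absurd i1 (by decide)
              · exact hking ⟨rfl, by omega, by omega⟩
            · simp
          rw [eb_eval (c' := C.cN) (x' := x') (y' := y') hd (by omega) (by dsimp only; omega) rfl hkn]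
          unfold ecell
          rw [if_pos ⟨rfl, by omega, by omega⟩, hx', show (y' : ℤ) - 12 = y by omega]
          exact get_eq_getN _ _ _
      · -- right
        have hx3 : x = 28 := by omega
        subst hx3
        rw [if_neg (by omega)]
        rw [if_neg (by omega), if_pos (by omega)] at hchk
        have hf : (C.op (C.cN + 1)).kind = .first → 24 ≤ 0 := fun h =>
          absurd h (hfirst (C.cN + 1) (by omega) (by omega))
        have e4 : (C.op C.cN).regAt 27 = 0 := by
          unfold Op.regAt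
          rw [hk]
          rfl
        rw [eb_side (c' := C.cN + 1) (x' := 0) (y' := y') hd (by omega)
          (by dsimp only; push_cast; omega) rfl (k2 hcor) (Or.inl rfl) hf, hchk, ← hyn]
        unfold ecell
        rw [if_neg (by omega), if_neg (by omega), if_neg (by omega), if_neg (by omega),
          cell_side (k2 hcor) (Or.inl rfl) hf, k1, e4, topf_low (by omega)]
  · rw [eb_light hd]
    have hpar : ¬ (2 ∣ 28 * (C.cN : ℤ) + x + (y' : ℤ)) := by
      intro h
      apply hd
      unfold IsDark Geo.N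
      refine ⟨?_, ?_, ?_, ?_, h⟩ <;> dsimp only <;> push_cast <;> omega
    rw [if_pos (by omega)] at hchk
    rw [if_neg (by omega)]
    exact hchk.symm

theorem eb_N1_off (hC : C.Ok) (s : Square) (hs : ¬ InZ C.cN 0 5 21 s) :
    C.eb al κ xd true s = C.eb al κ xd false s := by
  by_cases hd : IsDark C.g.N s
  · have hNG := hC.hNG
    have hG := hC.hG
    obtain ⟨d1, d2, d3, d4, -⟩ := id hd
    have hN : C.g.N = 28 * C.g.ops.length := rfl
    rw [hN] at d2
    have key : kingAt C.g.N C.cL (κ.dead xd true) (C.op (s.1.toNat / 28)) (s.1.toNat / 28)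
        (s.1.toNat % 28) s.2.toNat = kingAt C.g.N C.cL (κ.dead xd false) (C.op (s.1.toNat / 28))
        (s.1.toNat / 28) (s.1.toNat % 28) s.2.toNat := by
      by_cases hk : (C.op (s.1.toNat / 28)).kind = .N1
      · have hc := (hC.n1 (s.1.toNat / 28) (by omega)).1 hk
        have hcor : (C.op (s.1.toNat / 28)).cor = 0 := by
          have hop := hC.tiles (s.1.toNat / 28) (by omega)
          unfold OpOk at hop
          rw [hk] at hop
          exact hop.2.2.2
        have hne : ¬ (s.1.toNat % 28 = 15 ∧ s.2.toNat = 12 + 9) := by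
          intro h
          apply hs
          unfold InZ
          push_cast
          refine ⟨?_, ?_, ?_, ?_⟩ <;> omega
        have a1 : (κ.dead xd true).al = none := rfl
        have a2 : (κ.dead xd false).al = some false := rfl
        rw [kingAt_N1 hcor hk, kingAt_N1 hcor hk, a1, a2, if_neg (by simp), if_neg]
        rintro (⟨i1, -⟩ | ⟨-, i2⟩)
        · exact absurd i1 (by decide)
        · exact hne i2
      · unfold kingAt
        have e1 : (κ.dead xd true).x = (κ.dead xd false).x := rfl
        have e2 : (κ.dead xd true).a = (κ.dead xd false).a := rfl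
        have e3 : (κ.dead xd true).y = (κ.dead xd false).y := rfl
        have e4 : (κ.dead xd true).tog = (κ.dead xd false).tog := rfl
        rw [e1, e2, e3, e4]
        generalize C.op (s.1.toNat / 28) = op at hk
        obtain ⟨k, t, r, co, i⟩ := op
        dsimp only at hk ⊢
        cases k <;> first | rfl | exact absurd rfl hk
    unfold Circ.eb Geo.eboard
    rw [if_pos hd, if_pos hd]
    change (match kingAt C.g.N C.cL (κ.dead xd true) (C.op (s.1.toNat / 28)) (s.1.toNat / 28)
        (s.1.toNat % 28) s.2.toNat with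
      | some p => some p
      | none => _) = (match kingAt C.g.N C.cL (κ.dead xd false) (C.op (s.1.toNat / 28))
        (s.1.toNat / 28) (s.1.toNat % 28) s.2.toNat with
      | some p => some p
      | none => _)
    rw [key]
  · rw [eb_light hd, eb_light hd]

end Pool.Agent.MC95
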