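import Pool.Agent.MC95.Final
import Pool.Agent.MC95.Win

/-!
# The gate, entered on track 1

PLAN. `b` is given by `PortE`; use the frame at `cG` with `Y = 12 + 8 * sg`, `zl = 5`, `zn = 21`,
`winEq_G`, `chk_GP` and `run_sound`: after the run White moves the king of the gate up (a step; no jump
is possible), Black has exactly one jump, White moves the king back, Black has exactly one jump,
White captures with the king, Black has exactly one jump, and the board satisfies `FinalP` with
`R = 12 + 8 * sg + 20`; there is no White king since `PortE.kings` and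
`C.eb al κ true true` has no other White king than that of the gate.
-/

namespace Pool.Agent.MC95

variable {C : Circ} {κ : KC} {al : Bool}

/-! ### the local boards -/

private def gpL : LB := ((stG.restr (full 3 25)).put 14 18 wk).portE (-4) 1

private def gpL1 : LB :=
  match LB.run (full 3 25) (zone 5 21) uB .white gpL mvGP with
  | some (L, _) => L
  | none => gpL

private def gpL2 : LB := (gpL1.put 14 18 none).put 15 19 wk
private def gpL3 : LB := gpL2.jump .black (ix 14 14) .dl
private def gpL4 : LB := (gpL3.put 15 19 none).put 14 18 wk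
private def gpL5 : LB := gpL4.jump .black (ix 16 16) .dl
private def gpL7 : LB := (gpL5.jump .white (ix 14 18) .dr).jump .black (ix 17 17) .dl

private theorem gp_wf : gpL.wf (full 3 25) = true := by decide +kernel

private theorem gp_run1 : LB.run (full 3 25) (zone 5 21) uB .white gpL mvGP =
    some (gpL1, .white) := by decide +kernel

private theorem gp_caps1 : (dgs.all fun d => decide (gpL1.caps (full 3 25) .white d = 0)) = true := by
  decide +kernel

private theorem gp_get1 : gpL1.get 14 18 = wk ∧ gpL1.get 15 19 = none := by decide +kernel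

private theorem gp_wf2 : gpL2.wf (full 3 25) = true := by decide +kernel

private theorem gp_run2 : LB.run (full 3 25) (zone 5 21) uB .black gpL2 [(ix 14 14, .dl)] =
    some (gpL3, .white) := by decide +kernel

private theorem gp_caps3 : (dgs.all fun d => decide (gpL3.caps (full 3 25) .white d = 0)) = true := by
  decide +kernel

private theorem gp_get3 : gpL3.get 15 19 = wk ∧ gpL3.get 14 18 = none := by decide +kernel

private theorem gp_wf4 : gpL4.wf (full 3 25) = true := by decide +kernel

private theorem gp_run4 : LB.run (full 3 25) (zone 5 21) uB .black gpL4 [(ix 16 16, .dl)] =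
    some (gpL5, .white) := by decide +kernel

private theorem gp_run5 : LB.run (full 3 25) (zone 5 21) uB .white gpL5
    [(ix 14 18, .dr), (ix 17 17, .dl)] = some (gpL7, .white) := by decide +kernel

private theorem gp_k7 : gpL7.k = 0 := by decide +kernel

/-! ### bits -/

private theorem gp_clr_bit (n i j : ℕ) :
    (if n.testBit i then n ^^^ (1 <<< i) else n).testBit j = (decide (j ≠ i) && n.testBit j) := by
  by_cases h : n.testBit i = true
  · rw [if_pos h, Nat.testBit_xor, Nat.one_shiftLeft, Nat.testBit_two_pow]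
    by_cases h2 : j = i
    · subst h2; simp [h]
    · have h3 : ¬ i = j := fun h => h2 h.symm
      simp [h2, h3]
  · rw [if_neg h]
    by_cases h2 : j = i
    · subst h2; simpa using h
    · simp [h2]

private theorem gp_set_bit (n i j : ℕ) :
    (n ||| (1 <<< i)).testBit j = (n.testBit j || decide (i = j)) := by
  rw [Nat.testBit_or, Nat.one_shiftLeft, Nat.testBit_two_pow]

private theorem gp_get_put (L : LB) (x y x' y' : ℤ) (o : Option Piece) (hx : -4 ≤ x)
    (hx1 : x ≤ 59) (hy : -6 ≤ y) (hx' : -4 ≤ x') (hx1' : x' ≤ 59) (hy' : -6 ≤ y') :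
    (L.put x y o).get x' y' = if x' = x ∧ y' = y then o else L.get x' y' := by
  by_cases h : x' = x ∧ y' = y
  · obtain ⟨rfl, rfl⟩ := h
    rw [if_pos ⟨rfl, rfl⟩]
    rcases o with _ | ⟨_ | _, _ | _⟩ <;>
      simp only [LB.put, LB.get, gp_clr_bit, gp_set_bit] <;> simp
  · have hne : ¬ ix x' y' = ix x y := fun h2 => h (ix_inj hx' hx1' hy' hx hx1 hy h2)
    have hne' : ¬ ix x y = ix x' y' := fun h2 => hne h2.symm
    rw [if_neg h]
    rcases o with _ | ⟨_ | _, _ | _⟩ <;>
      simp only [LB.put, LB.get, gp_clr_bit, gp_set_bit] <;> simp [hne, hne']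

private theorem gp_full {lo n : ℕ} {x y : ℤ} (hx : -4 ≤ x) (hx1 : x ≤ 28) (hy : -6 ≤ y)
    (h1 : (lo : ℤ) ≤ y + 6) (h2 : y + 6 < lo + n) :
    (full lo n).testBit (ix x y) = true ↔ 2 ∣ x + y := by
  rw [testBit_full]
  constructor
  · rintro ⟨a, b, ha, hb1, hb2, hab, hi⟩
    have h3 := ix_eq hx hy
    rw [hi] at h3
    omega
  · intro h
    refine ⟨(x + 4).toNat, (y + 6).toNat, by omega, by omega, by omega, by omega, rfl⟩

private theorem gp_get_some_wf {F : ℕ} {L : LB} (h : L.wf F = true) {x y : ℤ} {p : Piece}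
    (hp : L.get x y = some p) : F.testBit (ix x y) = true := by
  have key : ∀ a : ℕ, a ||| F = F → a.testBit (ix x y) = true → F.testBit (ix x y) = true := by
    intro a ha hi
    rw [← ha, Nat.testBit_or, hi, Bool.true_or]
  unfold LB.wf at h
  simp only [Bool.and_eq_true, decide_eq_true_eq] at h
  unfold LB.get at hp
  split_ifs at hp with h1 h2
  · exact key _ h.1.1.1 h1
  · exact key _ h.1.1.2 h2

private theorem gp_get_ne_wk {L : LB} (hk : L.k = 0) (x y : ℤ) : L.get x y ≠ wk := by
  unfold LB.get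
  rw [hk, Nat.zero_testBit]
  split_ifs <;> simp

/-! ### steps of the king -/

private theorem gp_loc {f : Frame} {L L' : LB} {b b' : Board} (hb : Loc f L b)
    (hwf : L'.wf f.F = true) (hag : ∀ s, f.InWin s → b' s = L'.get (s.1 - f.X) (s.2 - f.Y))
    (hoff : f.EqOff b b') : Loc f L' b' where
  wf := hwf
  agree := hag
  jumps := by
    intro p s d hj
    by_contra hcon
    rw [not_or, not_or] at hcon
    obtain ⟨h1, h2, h3⟩ := hcon
    obtain ⟨j1, j2, ⟨q, j3, j4⟩, j5, j6⟩ := hj
    rw [hoff _ h1] at j1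
    rw [hoff _ h2] at j3
    rw [hoff _ h3] at j6
    rcases hb.jumps p s d ⟨j1, j2, ⟨q, j3, j4⟩, j5, j6⟩ with h | h | h
    · exact h1 h
    · exact h2 h
    · exact h3 h

/-- A step of the king inside the zone. -/
private theorem gp_step {f : Frame} {L : LB} {b : Board} (hb : Loc f L b)
    (hno : ∀ e, L.caps f.F .white e = 0) {x y x' y' : ℤ}
    (h1 : L.get x y = wk) (h2 : L.get x' y' = none) (hd : IsDiag (x' - x, y' - y))
    (hpar : 2 ∣ x' + y') (z1 : f.InZone (f.X + x, f.Y + y)) (z2 : f.InZone (f.X + x', f.Y + y'))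
    (hwf : ((L.put x y none).put x' y' wk).wf f.F = true) :
    ∃ b', Loc f ((L.put x y none).put x' y' wk) b' ∧ f.EqOff b b' ∧
      (MisereWins f.N .white b' .black → MisereWins f.N .white b .white) := by
  have hzl := f.hzl
  have hX := f.hX
  have hX' := f.hX'
  have hY := f.hY
  have hY' := f.hY'
  have hp := f.hp
  obtain ⟨a1, a2, a3, a4⟩ := id z1
  obtain ⟨c1, c2, c3, c4⟩ := id z2
  simp only at a1 a2 a3 a4 c1 c2 c3 c4
  have w1 : f.InWin (f.X + x, f.Y + y) := by
    refine ⟨?_, ?_, ?_, ?_⟩ <;> simp only <;> omega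
  have w2 : f.InWin (f.X + x', f.Y + y') := by
    refine ⟨?_, ?_, ?_, ?_⟩ <;> simp only <;> omega
  have e1 : (f.X + x - f.X, f.Y + y - f.Y) = (x, y) := by
    rw [Prod.mk.injEq]; constructor <;> ring
  have e2 : (f.X + x' - f.X, f.Y + y' - f.Y) = (x', y') := by
    rw [Prod.mk.injEq]; constructor <;> ring
  rw [Prod.mk.injEq] at e1 e2
  have hs : b (f.X + x, f.Y + y) = some ⟨.white, true⟩ := by
    rw [hb.agree _ w1]
    simp only
    rw [e1.1, e1.2, h1]
  have ht : b (f.X + x', f.Y + y') = none := by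
    rw [hb.agree _ w2]
    simp only
    rw [e2.1, e2.2, h2]
  obtain ⟨s, hsd⟩ : ∃ s : Square, s = (f.X + x, f.Y + y) := ⟨_, rfl⟩
  obtain ⟨t, htd⟩ : ∃ t : Square, t = (f.X + x', f.Y + y') := ⟨_, rfl⟩
  have hst : s + (x' - x, y' - y) = t := by
    rw [hsd, htd]
    ext
    · simp only [Prod.fst_add]; ring
    · simp only [Prod.snd_add]; ring
  have hdark : IsDark f.N t := by
    rw [htd]
    refine ⟨?_, ?_, ?_, ?_, ?_⟩ <;> simp only <;> omega
  rw [← hsd] at hs z1 w1
  rw [← htd] at ht z2 w2
  have hcr : ∀ r : ℤ, (⟨.white, true⟩ : Piece).crown f.N r = ⟨.white, true⟩ := by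
    intro r
    unfold Piece.crown
    split_ifs <;> rfl
  refine ⟨b.move f.N ⟨.white, true⟩ s t, ?_, ?_, ?_⟩
  · refine gp_loc hb hwf ?_ ?_
    · intro s' hs'
      obtain ⟨g1, g2, g3, g4⟩ := id hs'
      rw [gp_get_put _ _ _ _ _ _ (by omega) (by omega) (by omega) (by omega) (by omega) (by omega),
        gp_get_put _ _ _ _ _ _ (by omega) (by omega) (by omega) (by omega) (by omega) (by omega),
        ← hb.agree s' hs']
      unfold Board.move
      rw [hcr]
      by_cases k1 : s' = t
      · rw [k1, Function.update_self, htd, if_pos e2]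
      · have k1' : ¬ (s'.1 - f.X = x' ∧ s'.2 - f.Y = y') := by
          rintro ⟨m1, m2⟩
          apply k1
          rw [htd]
          ext
          · simp only; omega
          · simp only; omega
        rw [Function.update_of_ne k1, if_neg k1']
        by_cases k2 : s' = s
        · rw [k2, Function.update_self, hsd, if_pos e1]
        · have k2' : ¬ (s'.1 - f.X = x ∧ s'.2 - f.Y = y) := by
            rintro ⟨m1, m2⟩
            apply k2
            rw [hsd]
            ext
            · simp only; omega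
            · simp only; omega
          rw [Function.update_of_ne k2, if_neg k2']
    · intro s' hs'
      unfold Board.move
      rw [Function.update_of_ne (fun h => hs' (by rw [h]; exact z2)),
        Function.update_of_ne (fun h => hs' (by rw [h]; exact z1))]
  · intro s' hs'
    unfold Board.move
    rw [Function.update_of_ne (fun h => hs' (by rw [h]; exact z2)),
      Function.update_of_ne (fun h => hs' (by rw [h]; exact z1))]
  · intro hw
    have hleg : Legal f.N .white b (b.move f.N ⟨.white, true⟩ s (s + (x' - x, y' - y))) := by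
      refine Legal.step ?_ hs rfl ⟨hd, Or.inl rfl⟩ ?_ ?_
      · rintro ⟨s', p', d', hc', hj⟩
        exact no_jump hno hb hc' hj
      · rw [hst]; exact hdark
      · rw [hst]; exact ht
    rw [hst] at hleg
    exact misere_white_iff.2 (Or.inr ⟨_, hleg, hw⟩)

/-! ### the board after the launch -/

private theorem gp_eb (s : Square) : C.eb al κ true true s =
    if IsDark C.g.N s then
      match kingAt C.g.N C.cL (κ.dead true true) (C.op (s.1.toNat / 28)) (s.1.toNat / 28)
        (s.1.toNat % 28) s.2.toNat with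
      | some p => some p
      | none => ecell C.g.N C.g.sg C.cN al (C.op (s.1.toNat / 28)) (s.1.toNat / 28)
        (s.1.toNat % 28) s.2.toNat
    else none := rfl

private theorem gp_col {s : Square} (h : IsDark C.g.N s) : s.1.toNat / 28 < C.g.ops.length := by
  obtain ⟨h1, h2, -⟩ := h
  unfold Geo.N at h2
  push_cast at h2
  omega

private theorem gp_king (o : Op) (N cL c x y : ℕ) : kingAt N cL (κ.dead true true) o c x y =
    match o.kind with
    | .G => if (κ.a = false ∧ x = 14 ∧ y = 12 + 8 * o.trk + 18) ∨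
        (κ.a = true ∧ x = 15 ∧ y = 12 + 8 * o.trk + 19) then wk else none
    | .Y => if (κ.y c = true ∧ x = 10 ∧ y = 12 + 8 * o.trk + 12) ∨
        (κ.y c = false ∧ x = 9 ∧ y = 12 + 8 * o.trk + 13) then bk else none
    | .first => if (κ.tog = false ∧ x = 0 ∧ y + 2 = N) ∨ (κ.tog = true ∧ x = 1 ∧ y + 1 = N) then bk
      else none
    | _ => none := by
  unfold kingAt KC.dead
  rw [if_neg (fun h => by simp at h)]
  rcases o with ⟨k, a1, a2, a3, a4⟩
  cases k <;> simp

private theorem gp_ite {P : Prop} [Decidable P] {a b : Option Piece} (h1 : a ≠ wk) (h2 : b ≠ wk) :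
    (if P then a else b) ≠ wk := by
  split_ifs <;> assumption

private theorem gp_ecell_ne_wk (N sg cN c x y : ℕ) (o : Op) : ecell N sg cN al o c x y ≠ wk := by
  have h1 : (dirty al).k = 0 := by cases al <;> rfl
  have h2 : o.kind.st.k = 0 := by
    rcases o with ⟨k, a1, a2, a3, a4⟩
    cases k <;> rfl
  unfold ecell cell bgc
  repeat' (first | exact gp_get_ne_wk h1 _ _ | exact gp_get_ne_wk h2 _ _ | apply gp_ite)
  all_goals decide

/-- The only White king is that of the gate. -/
private theorem gp_wk (hC : C.Ok) (ha : κ.a = false) {s : Square}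
    (h : C.eb al κ true true s = wk) :
    s = (28 * (C.cG : ℤ) + 14, 12 + 8 * (C.g.sg : ℤ) + 18) := by
  rw [gp_eb] at h
  by_cases hd : IsDark C.g.N s
  · rw [if_pos hd] at h
    have hcol := gp_col hd
    obtain ⟨d1, d2, d3, d4, d5⟩ := hd
    obtain ⟨c, hc⟩ : ∃ c, c = s.1.toNat / 28 := ⟨_, rfl⟩
    obtain ⟨x, hx⟩ : ∃ x, x = s.1.toNat % 28 := ⟨_, rfl⟩
    obtain ⟨y, hy⟩ : ∃ y, y = s.2.toNat := ⟨_, rfl⟩
    rw [← hc] at h hcol
    rw [← hx, ← hy] at h
    have hok := hC.tiles c hcol
    have hg := hC.gate c hcol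
    rw [gp_king] at h
    obtain ⟨o, ho⟩ : ∃ o, o = C.op c := ⟨_, rfl⟩
    rw [← ho] at h hok hg
    have hne := gp_ecell_ne_wk (al := al) C.g.N C.g.sg C.cN c x y o
    unfold OpOk at hok
    cases hk : o.kind <;> rw [hk] at h hok hg <;> simp only at h hok hg
    case G =>
      split_ifs at h with h1
      · rcases h1 with ⟨-, h2, h3⟩ | ⟨h2, -⟩
        · have h4 : c = C.cG := hg.1 trivial
          ext
          · simp only; omega
          · simp only; omega
        · rw [ha] at h2
          exact absurd h2 (by decide)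
      · exact absurd h hne
    all_goals first
      | exact absurd h hne
      | (split_ifs at h with h1
         · simp at h
         · exact absurd h hne)
  · rw [if_neg hd] at h
    exact absurd h (by decide)

/-- The rows above the gate. -/
private theorem gp_cell {N sg : ℕ} {o : Op} {x y : ℕ} (ho : OpOk sg o) (hsg : 26 ≤ sg)
    (hy : 12 + 8 * sg + 20 ≤ y) : cell N sg o x y =
    if o.kind = .first ∧ ((x = 0 ∧ y + 2 = N) ∨ (x = 1 ∧ y + 1 = N)) then none
    else if 12 + 8 * sg + 22 ≤ y then bm else wm := by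
  have hin : ¬ o.InTile x y := by
    rintro ⟨h1, h2, h3, h4, h5, h6⟩
    unfold OpOk at ho
    cases hk : o.kind <;> rw [hk] at ho h6 <;> simp only [Kind.ytop] at ho h6 <;>
      first | exact h1 hk | exact h2 hk | omega
  have hbT : bT = 20 := rfl
  unfold cell
  rw [if_neg hin, if_neg (fun h => by have := h.2.2; omega), if_neg (fun h => by have := h.2.2; omega),
    if_neg (fun h => by have := h.2.2; omega)]
  by_cases h1 : o.kind = .first ∧ ((x = 0 ∧ y + 2 = N) ∨ (x = 1 ∧ y + 1 = N))
  · rw [if_pos h1, if_pos h1]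
  · rw [if_neg h1, if_neg h1]
    by_cases h2 : 12 + 8 * sg + 22 ≤ y
    · rw [if_pos h2, if_pos h2]
    · rw [if_neg h2, if_neg h2, if_pos (by omega)]

private theorem gp_ecell {N sg cN c : ℕ} {o : Op} {x y : ℕ} (ho : OpOk sg o) (hsg : 26 ≤ sg)
    (hy : 12 + 8 * sg + 20 ≤ y) : ecell N sg cN al o c x y =
    if o.kind = .first ∧ ((x = 0 ∧ y + 2 = N) ∨ (x = 1 ∧ y + 1 = N)) then none
    else if 12 + 8 * sg + 22 ≤ y then bm else wm := by
  have hw : wtrk al ≤ 1 := by cases al <;> decide
  unfold ecell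
  rw [if_neg (by omega), if_neg (by omega), if_neg (by omega), if_neg (by omega), gp_cell ho hsg hy]

private theorem gp_high (hC : C.Ok) {s : Square} (hd : IsDark C.g.N s)
    (hy : 12 + 8 * (C.g.sg : ℤ) + 20 ≤ s.2) : C.eb al κ true true s =
    if s = (0, (C.g.N : ℤ) - 2) then (if κ.tog then none else bk)
    else if s = (1, (C.g.N : ℤ) - 1) then (if κ.tog then bk else none)
    else if 12 + 8 * (C.g.sg : ℤ) + 22 ≤ s.2 then bm else wm := by
  have hcol := gp_col hd
  rw [gp_eb, if_pos hd]
  obtain ⟨d1, d2, d3, d4, d5⟩ := hd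
  obtain ⟨c, hc⟩ : ∃ c, c = s.1.toNat / 28 := ⟨_, rfl⟩
  obtain ⟨x, hx⟩ : ∃ x, x = s.1.toNat % 28 := ⟨_, rfl⟩
  obtain ⟨y, hy'⟩ : ∃ y, y = s.2.toNat := ⟨_, rfl⟩
  rw [← hc] at hcol
  rw [← hc, ← hx, ← hy']
  have hok := hC.tiles c hcol
  have hfirst := hC.first c hcol
  have hg := hC.gate c hcol
  obtain ⟨o, ho⟩ : ∃ o, o = C.op c := ⟨_, rfl⟩
  rw [← ho] at hok hfirst hg ⊢
  have hyy : 12 + 8 * C.g.sg + 20 ≤ y := by omega
  have e22 : 12 + 8 * (C.g.sg : ℤ) + 22 ≤ s.2 ↔ 12 + 8 * C.g.sg + 22 ≤ y := by omega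
  rw [gp_king, gp_ecell hok hC.sg24 hyy]
  have hcor1 : s = (0, (C.g.N : ℤ) - 2) ↔ c = 0 ∧ x = 0 ∧ y + 2 = C.g.N := by
    constructor
    · intro h
      have h1 : s.1 = 0 := by rw [h]
      have h2 : s.2 = (C.g.N : ℤ) - 2 := by rw [h]
      refine ⟨?_, ?_, ?_⟩ <;> omega
    · rintro ⟨h1, h2, h3⟩
      ext
      · simp only; omega
      · simp only; omega
  have hcor2 : s = (1, (C.g.N : ℤ) - 1) ↔ c = 0 ∧ x = 1 ∧ y + 1 = C.g.N := by
    constructor
    · intro h
      have h1 : s.1 = 1 := by rw [h]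
      have h2 : s.2 = (C.g.N : ℤ) - 1 := by rw [h]
      refine ⟨?_, ?_, ?_⟩ <;> omega
    · rintro ⟨h1, h2, h3⟩
      ext
      · simp only; omega
      · simp only; omega
  simp only [hcor1, hcor2, e22]
  by_cases hf : o.kind = .first
  · have hc0 : c = 0 := hfirst.1 hf
    rw [hf]
    cases ht : κ.tog <;> by_cases k1 : x = 0 ∧ y + 2 = C.g.N <;>
      by_cases k2 : x = 1 ∧ y + 1 = C.g.N <;> simp [hc0, k1, k2]
  · have hc0 : c ≠ 0 := fun h => hf (hfirst.2 h)
    have hkg : o.kind = .G → y ≠ 12 + 8 * o.trk + 18 ∧ y ≠ 12 + 8 * o.trk + 19 := by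
      intro hk
      unfold OpOk at hok
      rw [hk] at hok
      simp only at hok
      omega
    have hky : o.kind = .Y → y ≠ 12 + 8 * o.trk + 12 ∧ y ≠ 12 + 8 * o.trk + 13 := by
      intro hk
      unfold OpOk at hok
      rw [hk] at hok
      simp only at hok
      omega
    have hm : (match o.kind with
      | .G => if (κ.a = false ∧ x = 14 ∧ y = 12 + 8 * o.trk + 18) ∨
          (κ.a = true ∧ x = 15 ∧ y = 12 + 8 * o.trk + 19) then wk else none
      | .Y => if (κ.y c = true ∧ x = 10 ∧ y = 12 + 8 * o.trk + 12) ∨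
          (κ.y c = false ∧ x = 9 ∧ y = 12 + 8 * o.trk + 13) then bk else none
      | .first => if (κ.tog = false ∧ x = 0 ∧ y + 2 = C.g.N) ∨
          (κ.tog = true ∧ x = 1 ∧ y + 1 = C.g.N) then bk else none
      | _ => none) = none := by
      cases hk : o.kind <;> simp only
      · exact absurd hk hf
      · have := hky hk
        rw [if_neg (by tauto)]
      · have := hkg hk
        rw [if_neg (by tauto)]
    rw [hm]
    simp [hf, hc0]

/-! ### the frame -/

private def gpFrame (hC : C.Ok) : Frame where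
  N := C.g.N
  X := 28 * C.cG
  Y := 12 + 8 * C.g.sg
  zl := 5
  zn := 21
  hzl := by norm_num
  hzn := by norm_num
  hX := by
    have h1 := hC.hNG
    omega
  hX' := by
    have h1 := hC.hG
    unfold Geo.N
    push_cast
    omega
  hY := by omega
  hY' := by
    have h1 := hC.size
    push_cast
    omega
  hp := by omega

private theorem gp_portE (x y : ℤ) (hx : -4 ≤ x) (hx1 : x ≤ 28) (hy : -6 ≤ y) :
    gpL.get x y = if x = -4 ∧ y = 8 then bm
      else if (x = -3 ∧ y = 9) ∨ (x = -2 ∧ y = 10) then none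
      else if x = 14 ∧ y = 18 then wk
      else (stG.restr (full 3 25)).get x y := by
  unfold gpL LB.portE
  rw [gp_get_put _ _ _ _ _ _ (by norm_num) (by norm_num) (by norm_num) hx (by omega) hy,
    gp_get_put _ _ _ _ _ _ (by norm_num) (by norm_num) (by norm_num) hx (by omega) hy,
    gp_get_put _ _ _ _ _ _ (by norm_num) (by norm_num) (by norm_num) hx (by omega) hy,
    gp_get_put _ _ _ _ _ _ (by norm_num) (by norm_num) (by norm_num) hx (by omega) hy]
  push_cast
  split_ifs <;> first | rfl | (exfalso; omega)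

private theorem gp_start (hC : C.Ok) (hx : C.XOk κ) (ha : κ.a = false) {b : Board}
    (hb : PortE C.g.N C.top (C.eb al κ true true) C.cG (C.g.sg + 1) b) :
    Loc (gpFrame hC) gpL b where
  wf := gp_wf
  agree := by
    intro s hs
    obtain ⟨h1, h2, h3, h4⟩ := hs
    simp only [gpFrame] at h1 h2 h3 h4 ⊢
    obtain ⟨x, hx'⟩ : ∃ x : ℤ, x = s.1 - 28 * (C.cG : ℤ) := ⟨_, rfl⟩
    obtain ⟨y, hy'⟩ : ∃ y : ℤ, y = s.2 - (12 + 8 * (C.g.sg : ℤ)) := ⟨_, rfl⟩
    have hs' : s = (28 * (C.cG : ℤ) + x, 12 + 8 * (C.g.sg : ℤ) + y) := by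
      ext
      · simp only; omega
      · simp only; omega
    rw [← hx'] at h1 h2 ⊢
    rw [← hy'] at h3 h4 ⊢
    push_cast at h3 h4
    rw [gp_portE x y h1 h2 (by omega)]
    by_cases hpar : 2 ∣ x + y
    · rw [hb.right s (by omega), portMod]
      have hbase : C.eb al κ true true s = (stG.put 14 18 wk).get x y := by
        rw [hs']
        have := winEq_G (al := al) (xd := true) (kd := true) hC hx x y h1 h2 (by push_cast; omega)
          (by push_cast; omega)
        rw [ha] at this
        exact this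
      rw [hbase, gp_get_put _ _ _ _ _ _ (by norm_num) (by norm_num) (by norm_num) h1 (by omega)
        (by omega), get_restr, if_pos ((gp_full h1 h2 (by omega) (by omega) (by omega)).2 hpar)]
      refine if_congr ?_ rfl (if_congr ?_ rfl rfl)
      · rw [hs', Prod.mk.injEq]
        push_cast
        omega
      · rw [hs', Prod.mk.injEq, Prod.mk.injEq]
        push_cast
        omega
    · have hbs : b s = none := by
        rcases hbs : b s with _ | p
        · rfl
        · have := (hb.dark s p hbs).2.2.2.2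
          omega
      rw [hbs, if_neg (by omega), if_neg (by omega), if_neg (by omega), get_restr, if_neg]
      intro h5
      exact hpar ((gp_full h1 h2 (by omega) (by omega) (by omega)).1 h5)
  jumps := by
    intro p s d hj
    obtain ⟨-, h2, h3⟩ := hb.jump p s d hj
    right
    right
    rw [h2, h3]
    refine ⟨?_, ?_, ?_, ?_⟩ <;> simp only [gpFrame, Prod.fst_add, Prod.snd_add] <;>
      push_cast <;> omega

private theorem gp_dgs (d : Dg) : d ∈ dgs := by cases d <;> decide

private theorem gp_all {L : LB} {F : ℕ} (h : (dgs.all fun d => decide (L.caps F .white d = 0)) = true)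
    (e : Dg) : L.caps F .white e = 0 := by
  rw [List.all_eq_true] at h
  exact of_decide_eq_true (h e (gp_dgs e))

theorem gateP (hC : C.Ok) (hx : C.XOk κ) (ha : κ.a = false) :
    WinFrom C.g.N C.top (C.eb al κ true true) C.cG (C.g.sg + 1) := by
  intro b hb
  have hsg := hC.sg24
  have hsize := hC.size
  have hNG := hC.hNG
  have hG := hC.hG
  have l0 := gp_start hC hx ha hb
  obtain ⟨b1, l1, q1, w1, -⟩ := run_sound (f := gpFrame hC) gp_run1 l0
  refine w1 rfl ?_
  have z1 : (gpFrame hC).InZone ((gpFrame hC).X + 14, (gpFrame hC).Y + 18) := by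
    refine ⟨?_, ?_, ?_, ?_⟩ <;> simp only [gpFrame] <;> push_cast <;> omega
  have z2 : (gpFrame hC).InZone ((gpFrame hC).X + 15, (gpFrame hC).Y + 19) := by
    refine ⟨?_, ?_, ?_, ?_⟩ <;> simp only [gpFrame] <;> push_cast <;> omega
  obtain ⟨b2, l2, q2, w2⟩ := gp_step l1 (gp_all gp_caps1) gp_get1.1 gp_get1.2
    ⟨by norm_num, by norm_num⟩ (by norm_num) z1 z2 gp_wf2
  refine w2 ?_
  obtain ⟨b3, l3, q3, w3, -⟩ := run_sound (f := gpFrame hC) gp_run2 l2
  refine w3 rfl ?_
  obtain ⟨b4, l4, q4, w4⟩ := gp_step l3 (gp_all gp_caps3) gp_get3.1 gp_get3.2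
    ⟨by norm_num, by norm_num⟩ (by norm_num) z2 z1 gp_wf4
  refine w4 ?_
  obtain ⟨b5, l5, q5, w5, -⟩ := run_sound (f := gpFrame hC) gp_run4 l4
  refine w5 rfl ?_
  obtain ⟨b7, l7, q7, w7, -⟩ := run_sound (f := gpFrame hC) gp_run5 l5
  refine w7 rfl ?_
  show MisereWins C.g.N .white b7 .white
  have hoff : ∀ s, ¬ (gpFrame hC).InZone s → b7 s = b s := fun s hs => by
    rw [q7 s hs, q5 s hs, q4 s hs, q3 s hs, q2 s hs, q1 s hs]
  have hbase : ∀ s : Square, 12 + 8 * (C.g.sg : ℤ) + 20 ≤ s.2 →
      b7 s = C.eb al κ true true s := by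
    intro s hs
    rw [hoff s ?_, hb.high s ?_]
    · unfold Circ.top
      omega
    · rintro ⟨-, -, -, h4⟩
      simp only [gpFrame] at h4
      push_cast at h4
      omega
  have hN2 : ∃ n : ℕ, C.g.N = 2 * n := ⟨14 * C.g.ops.length, by unfold Geo.N; ring⟩
  obtain ⟨n, hn⟩ := hN2
  refine final_win (R := 12 + 8 * (C.g.sg : ℤ) + 20) ?_
  refine ⟨⟨n, hn⟩, by omega, by omega, ?_, ?_, ?_, ?_, ?_⟩
  · -- dark squares
    intro s p hs
    by_cases hz : (gpFrame hC).InZone s
    · obtain ⟨h1, h2, h3, h4⟩ := hz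
      simp only [gpFrame] at h1 h2 h3 h4
      push_cast at h3 h4
      have hw : (gpFrame hC).InWin s := by
        refine ⟨?_, ?_, ?_, ?_⟩ <;> simp only [gpFrame] <;> push_cast <;> omega
      have hag := l7.agree s hw
      rw [hs] at hag
      have h5 := gp_get_some_wf l7.wf hag.symm
      have hX' := (gpFrame hC).hX'
      simp only [gpFrame] at h5 hX'
      have h6 := (gp_full (lo := 3) (n := 25) (by omega) (by omega) (by omega)
        (by push_cast; omega) (by push_cast; omega)).1 h5
      refine ⟨?_, ?_, ?_, ?_, ?_⟩ <;> omega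
    · rw [hoff s hz] at hs
      exact hb.dark s p hs
  · -- no White kings
    intro s hs
    by_cases hz : (gpFrame hC).InZone s
    · obtain ⟨h1, h2, h3, h4⟩ := hz
      simp only [gpFrame] at h1 h2 h3 h4
      push_cast at h3 h4
      have hw : (gpFrame hC).InWin s := by
        refine ⟨?_, ?_, ?_, ?_⟩ <;> simp only [gpFrame] <;> push_cast <;> omega
      rw [l7.agree s hw] at hs
      exact gp_get_ne_wk gp_k7 _ _ hs
    · have h1 := gp_wk hC ha (hb.kings s (by rw [← hoff s hz]; exact hs))
      apply hz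
      rw [h1]
      exact z1
  · intro s hd hs
    have h1 : 12 + 8 * (C.g.sg : ℤ) + 20 ≤ s.2 := by rcases hs with h | h <;> omega
    rw [hbase s h1, gp_high hC hd h1, if_neg, if_neg, if_neg]
    · rcases hs with h | h <;> omega
    · intro h
      have h2 : s.2 = (C.g.N : ℤ) - 1 := by rw [h]
      rcases hs with h | h <;> omega
    · intro h
      have h2 : s.2 = (C.g.N : ℤ) - 2 := by rw [h]
      rcases hs with h | h <;> omega
  · intro s hd hs h1 h2
    have h3 : 12 + 8 * (C.g.sg : ℤ) + 20 ≤ s.2 := by omega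
    rw [hbase s h3, gp_high hC hd h3, if_neg h1, if_neg h2, if_pos (by omega)]
  · have hd1 : IsDark C.g.N (0, (C.g.N : ℤ) - 2) := by
      refine ⟨?_, ?_, ?_, ?_, ?_⟩ <;> simp only <;> omega
    have hd2 : IsDark C.g.N (1, (C.g.N : ℤ) - 1) := by
      refine ⟨?_, ?_, ?_, ?_, ?_⟩ <;> simp only <;> omega
    have g1 : 12 + 8 * (C.g.sg : ℤ) + 20 ≤ ((0, (C.g.N : ℤ) - 2) : Square).2 := by
      simp only; omega
    have g2 : 12 + 8 * (C.g.sg : ℤ) + 20 ≤ ((1, (C.g.N : ℤ) - 1) : Square).2 := by
      simp only; omega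
    have g3 : ((1, (C.g.N : ℤ) - 1) : Square) ≠ (0, (C.g.N : ℤ) - 2) := by
      intro h
      rw [Prod.mk.injEq] at h
      omega
    have e1 : b7 (0, (C.g.N : ℤ) - 2) = if κ.tog then none else bk := by
      rw [hbase _ g1, gp_high hC hd1 g1, if_pos rfl]
    have e2 : b7 (1, (C.g.N : ℤ) - 1) = if κ.tog then bk else none := by
      rw [hbase _ g2, gp_high hC hd2 g2, if_neg g3, if_pos rfl]
    rw [e1, e2]
    cases κ.tog
    · left; constructor <;> rfl
    · right; constructor <;> rfl

end Pool.Agent.MC95
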