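import Pool.Agent.MC95.Win
import Pool.Agent.MC95.Gate

/-!
# Soundness of the semantics of circuits

PLAN. Induction on the list. The zones of the tiles satisfy `FrameOk` by `OpOk` and `Circ.Ok`
(`htop` of `FrameOk`: the zone of a tile ends below the row `8 * sg + 12`, relative to the first row
of track `0`). Straight passage: `glueE` with `st = st' = stBg`, `zl = 6`, `zn = 3`, `k = t`,
`tin = tout = 0`, `chk_E`. U, M, H: `glueE` with `winEq_std` and `chk_U`, `chk_M0`, `chk_M1`,
`chk_H1`, `chk_H2`. WF, BF: `glueF` with `chk_WF`, `chk_BF`. T: `glueE` with `base' = C.eb al κ true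
kd`, `winEq_T_yes`, `winEq_T_gone`, `eb_T_off`, `chk_Ty` for `semW`; `winEq_T_no` and `chk_Tn`,
`chk_Tn1`, ..., `chk_Tn4` for `semL`. Y: `winEq_Y`, `chk_Y1t`, `chk_Y2t` for `semW`, `chk_Y1f`,
`chk_Y2f` for `semL`. N1: `winEq_N1`, `eb_N1_off`, `chk_K0` (`al = false`) and `chk_K1`
(`al = true`; then `kd = true` already). UT: `winEq_UT`, `chk_UT`. G: `gateP`, `gateF`.
-/

namespace Pool.Agent.MC95

variable {C : Circ} {κ : KC} {al : Bool}

/-! ### lists -/

private theorem ss_drop {c : ℕ} {o : Op} {l : List Op} (h : C.g.ops.drop c = o :: l) :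
    c < C.g.ops.length ∧ C.op c = o ∧ C.g.ops.drop (c + 1) = l := by
  have h1 : c < C.g.ops.length := by
    by_contra hcon
    rw [List.drop_eq_nil_of_le (not_lt.1 hcon)] at h
    exact absurd h (by simp)
  rw [List.drop_eq_getElem_cons h1] at h
  have h2 := List.cons.inj h
  refine ⟨h1, ?_, h2.2⟩
  unfold Circ.op
  rw [List.getD_eq_getElem _ _ h1]
  exact h2.1

private theorem ss_lt {c : ℕ} {l : List Op} (h : C.g.ops.drop (c + 1) = l) (hl : l ≠ []) :
    c + 1 < C.g.ops.length := by
  by_contra hcon
  rw [List.drop_eq_nil_of_le (not_lt.1 hcon)] at h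
  exact hl h.symm

private theorem ss_neW {l : List Op} {c t : ℕ} {xd kd : Bool} (h : semW C al κ l c t xd kd) :
    l ≠ [] := by
  rintro rfl
  exact h

private theorem ss_neL {l : List Op} {c t : ℕ} (h : semL C al κ l c t) : l ≠ [] := by
  rintro rfl
  exact h

/-! ### windows -/

private theorem ss_frame (hC : C.Ok) {c k zl zn : ℕ} (hc : 1 ≤ c) (hc' : c + 1 < C.g.ops.length)
    (h1 : 2 ≤ zl) (h2 : 0 < zn) (h3 : 8 * k + zl + zn ≤ 8 * C.g.sg + 18) :
    FrameOk C.g.N C.top c k zl zn := by
  have hs := hC.size
  have hN : C.g.N = 28 * C.g.ops.length := rfl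
  have ht : C.top = 12 + 8 * (C.g.sg : ℤ) + 12 := rfl
  refine ⟨h1, h2, hc, by omega, by omega, ?_⟩
  rw [ht]
  omega

private theorem ss_glue (hC : C.Ok) {c k zl zn tin tout : ℕ} {st : LB} {u : Color → Bool}
    {mv : List (ℕ × Dg)} {xd kd : Bool} (hc : 1 ≤ c) (hc' : c + 1 < C.g.ops.length)
    (h1 : 2 ≤ zl) (h2 : 0 < zn) (h3 : 8 * k + zl + zn ≤ 8 * C.g.sg + 18)
    (hin : zl ≤ 8 * tin + 8 ∧ 8 * tin + 8 < zl + zn)
    (hout : zl ≤ 8 * tout + 8 ∧ 8 * tout + 8 < zl + zn + 2)
    (hw : WinEq (C.eb al κ xd kd) c k zl zn st)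
    (hchk : chkE st st zl zn u tin tout mv = true) :
    (u .black = true → WinFrom C.g.N C.top (C.eb al κ xd kd) (c + 1) (k + tout) →
      WinFrom C.g.N C.top (C.eb al κ xd kd) c (k + tin)) ∧
    (u .white = true → LoseFrom C.g.N C.top (C.eb al κ xd kd) (c + 1) (k + tout) →
      LoseFrom C.g.N C.top (C.eb al κ xd kd) c (k + tin)) :=
  glueE (ss_frame hC hc hc' h1 h2 h3) hin hout eb_dark eb_dark hw hw (fun _ _ => rfl) hchk

private theorem ss_weq (hC : C.Ok) (hx : C.XOk κ) {c : ℕ} (hc : 1 ≤ c)
    (hc' : c + 1 < C.g.ops.length) {o : Op} (hop : C.op c = o) {kk : Kind} (hkd : o.kind = kk)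
    (hk : kk = .U ∨ kk = .M ∨ kk = .H ∨ kk = .WF ∨ kk = .BF) (h2 : 2 ≤ o.trk ∨ al = true)
    {xd kd : Bool} : WinEq (C.eb al κ xd kd) c o.trk kk.zl kk.zn kk.st := by
  subst hkd
  subst hop
  exact winEq_std hC hx hc hc' hk h2

/-- straight passage -/
private theorem ss_straight (hC : C.Ok) (hx : C.XOk κ) {c : ℕ} (hc : 1 ≤ c)
    (hc' : c + 1 < C.g.ops.length) {o : Op} (hop : C.op c = o) {t : ℕ}
    (hs : straightOk C.g.sg o t) (ht : ¬ (o.trk ≤ t ∧ t < o.trk + o.kind.n)) {xd kd : Bool} :
    (WinFrom C.g.N C.top (C.eb al κ xd kd) (c + 1) t →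
      WinFrom C.g.N C.top (C.eb al κ xd kd) c t) ∧
    (LoseFrom C.g.N C.top (C.eb al κ xd kd) (c + 1) t →
      LoseFrom C.g.N C.top (C.eb al κ xd kd) c t) := by
  subst hop
  have hw := winEq_straight (al := al) (xd := xd) (kd := kd) hC hx hc hc' hs ht
  have hs2 := hs.2.1
  have h := ss_glue hC (tin := 0) (tout := 0) hc hc' (by norm_num) (by norm_num) (by omega)
    (by norm_num) (by norm_num) hw chk_E
  exact ⟨h.1 rfl, h.2 rfl⟩

/-- the tiles U, M, H -/
private theorem ss_std (hC : C.Ok) (hx : C.XOk κ) {c : ℕ} (hc : 1 ≤ c)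
    (hc' : c + 1 < C.g.ops.length) {o : Op} (hop : C.op c = o) {kk : Kind} (hkd : o.kind = kk)
    (hk : kk = .U ∨ kk = .M ∨ kk = .H) (h2 : 2 ≤ o.trk ∨ al = true) {tin tout : ℕ}
    {mv : List (ℕ × Dg)} (h3 : 8 * o.trk + kk.zl + kk.zn ≤ 8 * C.g.sg + 18)
    (hin : kk.zl ≤ 8 * tin + 8 ∧ 8 * tin + 8 < kk.zl + kk.zn)
    (hout : kk.zl ≤ 8 * tout + 8 ∧ 8 * tout + 8 < kk.zl + kk.zn + 2)
    (hchk : chkE kk.st kk.st kk.zl kk.zn uAll tin tout mv = true) {xd kd : Bool} :
    (WinFrom C.g.N C.top (C.eb al κ xd kd) (c + 1) (o.trk + tout) →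
      WinFrom C.g.N C.top (C.eb al κ xd kd) c (o.trk + tin)) ∧
    (LoseFrom C.g.N C.top (C.eb al κ xd kd) (c + 1) (o.trk + tout) →
      LoseFrom C.g.N C.top (C.eb al κ xd kd) c (o.trk + tin)) := by
  have hz : 2 ≤ kk.zl ∧ 0 < kk.zn := by
    rcases hk with rfl | rfl | rfl <;> decide
  have hw := ss_weq (al := al) (xd := xd) (kd := kd) hC hx hc hc' hop hkd
    (by rcases hk with rfl | rfl | rfl <;> simp) h2
  have h := ss_glue hC hc hc' hz.1 hz.2 h3 hin hout hw hchk
  exact ⟨h.1 rfl, h.2 rfl⟩

/-- the tile WF -/
private theorem ss_WF (hC : C.Ok) (hx : C.XOk κ) {c : ℕ} (hc : 1 ≤ c)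
    (hc' : c + 1 < C.g.ops.length) {o : Op} (hop : C.op c = o) (hkd : o.kind = .WF)
    (h2 : 2 ≤ o.trk) (h3 : o.trk + 1 ≤ C.g.sg) {xd kd : Bool} :
    ((WinFrom C.g.N C.top (C.eb al κ xd kd) (c + 1) (o.trk + 1) ∨
      WinFrom C.g.N C.top (C.eb al κ xd kd) (c + 1) o.trk) →
      WinFrom C.g.N C.top (C.eb al κ xd kd) c (o.trk + 1)) ∧
    ((LoseFrom C.g.N C.top (C.eb al κ xd kd) (c + 1) (o.trk + 1) ∧
      LoseFrom C.g.N C.top (C.eb al κ xd kd) (c + 1) o.trk) →
      LoseFrom C.g.N C.top (C.eb al κ xd kd) c (o.trk + 1)) := by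
  have hw : WinEq (C.eb al κ xd kd) c o.trk 6 11 stWF :=
    ss_weq hC hx hc hc' hop hkd (by simp) (Or.inl h2)
  have h := glueF (ss_frame hC (k := o.trk) hc hc' (by norm_num) (by norm_num) (by omega))
    (by norm_num) (by norm_num) (by norm_num) eb_dark hw chk_WF
  exact h.1 rfl

/-- the tile BF -/
private theorem ss_BF (hC : C.Ok) (hx : C.XOk κ) {c : ℕ} (hc : 1 ≤ c)
    (hc' : c + 1 < C.g.ops.length) {o : Op} (hop : C.op c = o) (hkd : o.kind = .BF)
    (h2 : 2 ≤ o.trk) (h3 : o.trk + 1 ≤ C.g.sg) {xd kd : Bool} :
    ((WinFrom C.g.N C.top (C.eb al κ xd kd) (c + 1) (o.trk + 1) ∧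
      WinFrom C.g.N C.top (C.eb al κ xd kd) (c + 1) o.trk) →
      WinFrom C.g.N C.top (C.eb al κ xd kd) c (o.trk + 1)) ∧
    ((LoseFrom C.g.N C.top (C.eb al κ xd kd) (c + 1) (o.trk + 1) ∨
      LoseFrom C.g.N C.top (C.eb al κ xd kd) (c + 1) o.trk) →
      LoseFrom C.g.N C.top (C.eb al κ xd kd) c (o.trk + 1)) := by
  have hw : WinEq (C.eb al κ xd kd) c o.trk 5 15 stBF :=
    ss_weq hC hx hc hc' hop hkd (by simp) (Or.inl h2)
  have h := glueF (ss_frame hC (k := o.trk) hc hc' (by norm_num) (by norm_num) (by omega))
    (by norm_num) (by norm_num) (by norm_num) eb_dark hw chk_BF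
  exact h.2 rfl

theorem semW_sound (hC : C.Ok) (hx : C.XOk κ) : ∀ (l : List Op) (c t : ℕ) (xd kd : Bool),
    C.g.ops.drop c = l → 1 ≤ c → (al = true → kd = true) → semW C al κ l c t xd kd →
    WinFrom C.g.N C.top (C.eb al κ xd kd) c t := by
  intro l
  induction l with
  | nil =>
    intro c t xd kd _ _ _ h
    exact absurd h id
  | cons o l ih =>
    intro c t xd kd hd hc hkd0 h
    obtain ⟨hlt, hop, hd'⟩ := ss_drop hd
    have hok := hC.tiles c hlt
    rw [hop] at hok
    have IH : ∀ {t xd kd}, (al = true → kd = true) → semW C al κ l (c + 1) t xd kd →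
        WinFrom C.g.N C.top (C.eb al κ xd kd) (c + 1) t := fun h1 h2 =>
      ih (c + 1) _ _ _ hd' (by omega) h1 h2
    have NE : ∀ {t xd kd}, semW C al κ l (c + 1) t xd kd → c + 1 < C.g.ops.length := fun h2 =>
      ss_lt hd' (ss_neW h2)
    rw [semW] at h
    by_cases hin : o.trk ≤ t ∧ t < o.trk + o.kind.n
    · rw [if_pos hin] at h
      obtain ⟨j, rfl⟩ : ∃ j, t = o.trk + j := ⟨t - o.trk, by omega⟩
      rw [show o.trk + j - o.trk = j by omega] at h
      have hjn : j < o.kind.n := by omega
      clear hin
      rcases hk : o.kind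
      case first => simp [hk, Kind.n] at hjn
      case blank => simp [hk, Kind.n] at hjn
      case U =>
        rw [hk] at hjn
        simp only [OpOk, hk] at hok h
        have hj2 : j < 2 := hjn
        interval_cases j
        · obtain ⟨h1, h2⟩ := h
          exact (ss_std hC hx hc (NE h2) hop hk (by simp) h1 (tin := 0) (tout := 1)
            (by simp only [Kind.zl, Kind.zn]; omega) (by decide) (by decide) chk_U).1 (IH hkd0 h2)
        · exact h.elim
      case M =>
        rw [hk] at hjn
        simp only [OpOk, hk] at hok h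
        have hj2 : j < 2 := hjn
        interval_cases j
        · exact (ss_std hC hx hc (NE h) hop hk (by simp) (Or.inl hok.2.2.1) (tin := 0) (tout := 0)
            (by simp only [Kind.zl, Kind.zn]; omega) (by decide) (by decide) chk_M0).1 (IH hkd0 h)
        · exact (ss_std hC hx hc (NE h) hop hk (by simp) (Or.inl hok.2.2.1) (tin := 1) (tout := 0)
            (by simp only [Kind.zl, Kind.zn]; omega) (by decide) (by decide) chk_M1).1 (IH hkd0 h)
      case H =>
        rw [hk] at hjn
        simp only [OpOk, hk] at hok h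
        have hj2 : j < 3 := hjn
        interval_cases j
        · exact h.elim
        · exact (ss_std hC hx hc (NE h) hop hk (by simp) (Or.inl hok.2.2.1) (tin := 1) (tout := 1)
            (by simp only [Kind.zl, Kind.zn]; omega) (by decide) (by decide) chk_H1).1 (IH hkd0 h)
        · exact (ss_std hC hx hc (NE h) hop hk (by simp) (Or.inl hok.2.2.1) (tin := 2) (tout := 0)
            (by simp only [Kind.zl, Kind.zn]; omega) (by decide) (by decide) chk_H2).1 (IH hkd0 h)
      case WF =>
        rw [hk] at hjn
        simp only [OpOk, hk] at hok h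
        have hj2 : j < 2 := hjn
        interval_cases j
        · exact h.elim
        · have hlt' : c + 1 < C.g.ops.length := h.elim (fun h => NE h) fun h => NE h
          exact (ss_WF hC hx hc hlt' hop hk hok.2.2.1 hok.2.2.2.2).1
            (h.imp (IH hkd0) (IH hkd0))
      case BF =>
        rw [hk] at hjn
        simp only [OpOk, hk] at hok h
        have hj2 : j < 2 := hjn
        interval_cases j
        · exact h.elim
        · exact (ss_BF hC hx hc (NE h.1) hop hk hok.2.2.1 hok.2.2.2.2).1
            ⟨IH hkd0 h.1, IH hkd0 h.2⟩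
      case T =>
        rw [hk] at hjn
        simp only [OpOk, hk] at hok h
        have hj2 : j < 2 := hjn
        interval_cases j
        · exact h.elim
        · obtain ⟨rfl, h1, h2⟩ := h
          have hk' : (C.op c).kind = .T := by rw [hop, hk]
          have hs := hC.sg24
          have hw := winEq_T_yes (al := al) (kd := kd) hC hx hc (NE h2) hk' h1
          have hw' := winEq_T_gone (al := al) (κ := κ) (kd := kd) hC hx hc (NE h2) hk'
          have h3 := glueE (ss_frame hC (k := (C.op c).trk) hc (NE h2) (by norm_num) (by norm_num)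
            (by rw [hop]; omega)) (tin := 1) (tout := 0) (by norm_num) (by norm_num) eb_dark eb_dark
            hw hw' (eb_T_off hC hlt hk' h1) chk_Ty
          rw [hop] at h3
          exact h3.1 rfl (IH hkd0 h2)
      case Y =>
        rw [hk] at hjn
        simp only [OpOk, hk] at hok h
        have hj2 : j < 4 := hjn
        have hk' : (C.op c).kind = .Y := by rw [hop, hk]
        interval_cases j
        · exact h.elim
        · obtain ⟨h1, h2⟩ := h
          have hw := winEq_Y (al := al) (xd := xd) (kd := kd) hC hx hc (NE h2) hk'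
          rw [h1, if_pos rfl, hop] at hw
          exact (ss_glue hC (tin := 1) (tout := 1) hc (NE h2) (by norm_num) (by norm_num)
            (by omega) (by norm_num) (by norm_num) hw chk_Y1t).1 rfl (IH hkd0 h2)
        · obtain ⟨h1, h2⟩ := h
          have hw := winEq_Y (al := al) (xd := xd) (kd := kd) hC hx hc (NE h2) hk'
          rw [h1, if_neg (by simp), hop] at hw
          exact (ss_glue hC (tin := 2) (tout := 3) hc (NE h2) (by norm_num) (by norm_num)
            (by omega) (by norm_num) (by norm_num) hw chk_Y2t).1 rfl (IH hkd0 h2)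
        · exact h.elim
      case UT =>
        rw [hk] at hjn
        simp only [OpOk, hk] at hok h
        have hj2 : j < 2 := hjn
        have hk' : (C.op c).kind = .UT := by rw [hop, hk]
        interval_cases j
        · have hw := winEq_UT (al := al) (xd := xd) (kd := kd) hC hx hc (NE h) hk'
          rw [hop] at hw
          exact (ss_glue hC (tin := 0) (tout := 1) hc (NE h) (by norm_num) (by norm_num)
            (by omega) (by norm_num) (by norm_num) hw chk_UT).1 rfl (IH hkd0 h)
        · exact h.elim
      case G =>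
        rw [hk] at hjn
        simp only [OpOk, hk] at hok h
        have hj2 : j < 2 := hjn
        have hk' : (C.op c).kind = .G := by rw [hop, hk]
        interval_cases j
        · exact h.elim
        · obtain ⟨rfl, rfl, h1⟩ := h
          have hcG : c = C.cG := (hC.gate c hlt).1 hk'
          rw [hcG, hok.2.2.1]
          exact gateP hC hx h1
      case N1 =>
        rw [hk] at hjn
        simp only [OpOk, hk] at hok h
        have hj2 : j < 3 := hjn
        have hk' : (C.op c).kind = .N1 := by rw [hop, hk]
        have hcN : c = C.cN := (hC.n1 c hlt).1 hk'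
        have h0 : o.trk = 0 := hok.2.2.1
        have hs := hC.sg24
        interval_cases j
        · exact h.elim
        · exact h.elim
        · obtain ⟨rfl, h1⟩ := h
          rw [h0]
          have h2 := IH (fun _ => rfl) h1
          have hw := winEq_N1 (al := kd) (xd := xd) (kd := kd) hC hx
          have hw' := winEq_N1 (al := kd) (xd := xd) (kd := true) hC hx
          rw [← hcN] at hw hw'
          rw [if_pos rfl] at hw'
          have hfr := ss_frame hC (c := c) (k := 0) (zl := 5) (zn := 21) hc (NE h1) (by norm_num)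
            (by norm_num) (by omega)
          cases kd
          · rw [if_neg (by simp)] at hw
            exact (glueE hfr (tin := 2) (tout := 2) (by norm_num) (by norm_num) eb_dark eb_dark
              hw hw' (fun s hs => eb_N1_off hC s (by rw [← hcN]; exact hs)) chk_K0).1 rfl h2
          · exact (glueE hfr (tin := 2) (tout := 2) (by norm_num) (by norm_num) eb_dark eb_dark
              hw' hw' (fun _ _ => rfl) chk_K1).1 rfl h2
      case NA => simp only [hk] at h
      case NB => simp only [hk] at h
    · rw [if_neg hin] at h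
      exact (ss_straight hC hx hc (NE h.2) hop h.1 hin).1 (IH hkd0 h.2)

theorem semL_sound (hC : C.Ok) (hx : C.XOk κ) : ∀ (l : List Op) (c t : ℕ),
    C.g.ops.drop c = l → 1 ≤ c → semL C al κ l c t →
    LoseFrom C.g.N C.top (C.eb al κ false al) c t := by
  intro l
  induction l with
  | nil =>
    intro c t _ _ h
    exact absurd h id
  | cons o l ih =>
    intro c t hd hc h
    obtain ⟨hlt, hop, hd'⟩ := ss_drop hd
    have hok := hC.tiles c hlt
    rw [hop] at hok
    have IH : ∀ {t}, semL C al κ l (c + 1) t →
        LoseFrom C.g.N C.top (C.eb al κ false al) (c + 1) t := fun h2 =>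
      ih (c + 1) _ hd' (by omega) h2
    have NE : ∀ {t}, semL C al κ l (c + 1) t → c + 1 < C.g.ops.length := fun h2 =>
      ss_lt hd' (ss_neL h2)
    rw [semL] at h
    by_cases hin : o.trk ≤ t ∧ t < o.trk + o.kind.n
    · rw [if_pos hin] at h
      obtain ⟨j, rfl⟩ : ∃ j, t = o.trk + j := ⟨t - o.trk, by omega⟩
      rw [show o.trk + j - o.trk = j by omega] at h
      have hjn : j < o.kind.n := by omega
      clear hin
      rcases hk : o.kind
      case first => simp [hk, Kind.n] at hjn
      case blank => simp [hk, Kind.n] at hjn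
      case U =>
        rw [hk] at hjn
        simp only [OpOk, hk] at hok h
        have hj2 : j < 2 := hjn
        interval_cases j
        · obtain ⟨h1, h2⟩ := h
          exact (ss_std hC hx hc (NE h2) hop hk (by simp) h1 (tin := 0) (tout := 1)
            (by simp only [Kind.zl, Kind.zn]; omega) (by decide) (by decide) chk_U).2 (IH h2)
        · exact h.elim
      case M =>
        rw [hk] at hjn
        simp only [OpOk, hk] at hok h
        have hj2 : j < 2 := hjn
        interval_cases j
        · exact (ss_std hC hx hc (NE h) hop hk (by simp) (Or.inl hok.2.2.1) (tin := 0) (tout := 0)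
            (by simp only [Kind.zl, Kind.zn]; omega) (by decide) (by decide) chk_M0).2 (IH h)
        · exact (ss_std hC hx hc (NE h) hop hk (by simp) (Or.inl hok.2.2.1) (tin := 1) (tout := 0)
            (by simp only [Kind.zl, Kind.zn]; omega) (by decide) (by decide) chk_M1).2 (IH h)
      case H =>
        rw [hk] at hjn
        simp only [OpOk, hk] at hok h
        have hj2 : j < 3 := hjn
        interval_cases j
        · exact h.elim
        · exact (ss_std hC hx hc (NE h) hop hk (by simp) (Or.inl hok.2.2.1) (tin := 1) (tout := 1)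
            (by simp only [Kind.zl, Kind.zn]; omega) (by decide) (by decide) chk_H1).2 (IH h)
        · exact (ss_std hC hx hc (NE h) hop hk (by simp) (Or.inl hok.2.2.1) (tin := 2) (tout := 0)
            (by simp only [Kind.zl, Kind.zn]; omega) (by decide) (by decide) chk_H2).2 (IH h)
      case WF =>
        rw [hk] at hjn
        simp only [OpOk, hk] at hok h
        have hj2 : j < 2 := hjn
        interval_cases j
        · exact h.elim
        · exact (ss_WF hC hx hc (NE h.1) hop hk hok.2.2.1 hok.2.2.2.2).2
            ⟨IH h.1, IH h.2⟩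
      case BF =>
        rw [hk] at hjn
        simp only [OpOk, hk] at hok h
        have hj2 : j < 2 := hjn
        interval_cases j
        · exact h.elim
        · have hlt' : c + 1 < C.g.ops.length := h.elim (fun h => NE h) fun h => NE h
          exact (ss_BF hC hx hc hlt' hop hk hok.2.2.1 hok.2.2.2.2).2
            (h.imp (fun h => IH h) fun h => IH h)
      case T =>
        rw [hk] at hjn
        simp only [OpOk, hk] at hok h
        have hj2 : j < 2 := hjn
        interval_cases j
        · exact h.elim
        · obtain ⟨h1, h2⟩ := h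
          have hk' : (C.op c).kind = .T := by rw [hop, hk]
          have hs := hC.sg24
          obtain ⟨L, hL, hw⟩ := winEq_T_no (al := al) (xd := false) (kd := al) hC hx hc (NE h2) hk'
            h1
          rw [hop] at hw
          have h3 : chkE L L 6 15 uW 1 1 mvTn = true := by
            rcases hL with rfl | rfl | rfl | rfl | rfl
            · exact chk_Tn
            · exact chk_Tn1
            · exact chk_Tn2
            · exact chk_Tn3
            · exact chk_Tn4
          exact (ss_glue hC (tin := 1) (tout := 1) hc (NE h2) (by norm_num) (by norm_num)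
            (by omega) (by norm_num) (by norm_num) hw h3).2 rfl (IH h2)
      case Y =>
        rw [hk] at hjn
        simp only [OpOk, hk] at hok h
        have hj2 : j < 4 := hjn
        have hk' : (C.op c).kind = .Y := by rw [hop, hk]
        interval_cases j
        · exact h.elim
        · obtain ⟨h1, h2⟩ := h
          have hw := winEq_Y (al := al) (xd := false) (kd := al) hC hx hc (NE h2) hk'
          rw [h1, if_neg (by simp), hop] at hw
          exact (ss_glue hC (tin := 1) (tout := 0) hc (NE h2) (by norm_num) (by norm_num)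
            (by omega) (by norm_num) (by norm_num) hw chk_Y1f).2 rfl (IH h2)
        · obtain ⟨h1, h2⟩ := h
          have hw := winEq_Y (al := al) (xd := false) (kd := al) hC hx hc (NE h2) hk'
          rw [h1, if_pos rfl, hop] at hw
          exact (ss_glue hC (tin := 2) (tout := 2) hc (NE h2) (by norm_num) (by norm_num)
            (by omega) (by norm_num) (by norm_num) hw chk_Y2f).2 rfl (IH h2)
        · exact h.elim
      case UT =>
        rw [hk] at hjn
        simp only [OpOk, hk] at hok h
        have hj2 : j < 2 := hjn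
        have hk' : (C.op c).kind = .UT := by rw [hop, hk]
        interval_cases j
        · have hw := winEq_UT (al := al) (xd := false) (kd := al) hC hx hc (NE h) hk'
          rw [hop] at hw
          exact (ss_glue hC (tin := 0) (tout := 1) hc (NE h) (by norm_num) (by norm_num)
            (by omega) (by norm_num) (by norm_num) hw chk_UT).2 rfl (IH h)
        · exact h.elim
      case G =>
        rw [hk] at hjn
        simp only [OpOk, hk] at hok h
        have hj2 : j < 2 := hjn
        have hk' : (C.op c).kind = .G := by rw [hop, hk]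
        interval_cases j
        · have hcG : c = C.cG := (hC.gate c hlt).1 hk'
          rw [hcG, hok.2.2.1]
          exact gateF hC hx
        · exact h.elim
      case N1 => simp only [hk] at h
      case NA => simp only [hk] at h
      case NB => simp only [hk] at h
    · rw [if_neg hin] at h
      exact (ss_straight hC hx hc (NE h.2) hop h.1 hin).2 (IH h.2)

end Pool.Agent.MC95
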