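import Pool.Agent.MC95.WDefs

/-!
# A westbound wave through one column

PLAN. `west_step`: frame at column `c` with `Y = 12 + 8 * wtrk al`, `zl = 6`, `zn = 3`, `chk_W`: before the
run the window is `stBgW` with a port in column `28`, after it is `stRW` for `x ≥ 0` and `stBgW` with a
port in column `0` for `x < 0`. The tiles between the turn and N1 have `reg ≥ 1` (`reg = 2` if
`wtrk al = 1`), and their special parts are above row `4` of the westbound track.
-/

namespace Pool.Agent.MC95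

variable {C : Circ} {κ : KC} {al : Bool}

/-! ### finite facts -/

private def wsL : LB := (stBgW.restr (full 4 7)).portW 28 0
private def wsR : LB := stRW.restr (full 4 7)
private def wsP : LB := (stBgW.restr (full 4 7)).portW 0 0

private theorem ws_A1 : ∀ w : ℕ, w < 2 → ∀ x : ℕ, x < 28 → ∀ k : ℕ, k < 7 → (x + k) % 2 = 0 →
    (if (x = 27 ∧ k = 3) ∨ (x = 26 ∧ k = 4) then none else bgc 2 x (10 + 8 * w + k)) =
      wsL.get (((x + 4 : ℕ) : ℤ) - 4) ((k : ℤ) - 2) := by decide +kernel

private theorem ws_A3 : ∀ w < 2, ∀ x < 4, ∀ k < 7, (x + k) % 2 = 0 →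
    bgc 2 (24 + x) (10 + 8 * w + k) = wsL.get ((x : ℤ) - 4) ((k : ℤ) - 2) := by decide +kernel

private theorem ws_A4 : ∀ w : ℕ, w < 2 → ∀ k : ℕ, k < 7 → k % 2 = 0 →
    (if k = 2 then bm else if k = 3 then none else if k = 4 then wm
      else bgc 2 0 (10 + 8 * w + k)) = wsL.get 28 ((k : ℤ) - 2) := by decide +kernel

private theorem ws_A5 : ∀ al : Bool, ∀ k : ℕ, k < 7 → k % 2 = 0 →
    (dirty al).get 0 (((10 + 8 * wtrk al + k : ℕ) : ℤ) - 12) =
      wsL.get 28 ((k : ℤ) - 2) := by decide +kernel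

private theorem ws_A6 : ∀ x : ℕ, x < 33 → ∀ k : ℕ, k < 7 → (x + k) % 2 = 1 →
    wsL.get ((x : ℤ) - 4) ((k : ℤ) - 2) = none := by decide +kernel

private theorem ws_B1 : ∀ w : ℕ, w < 2 → ∀ x : ℕ, x < 28 → ∀ k : ℕ, k < 7 → (x + k) % 2 = 0 →
    (if k = 2 then bm else if k = 3 then none else if k = 4 then wm
      else bgc 2 x (10 + 8 * w + k)) = wsR.get (((x + 4 : ℕ) : ℤ) - 4) ((k : ℤ) - 2) := by
  decide +kernel

private theorem ws_B2 : ∀ w : ℕ, w < 2 → ∀ k : ℕ, k < 7 → k % 2 = 0 →
    (if k = 2 then bm else if k = 3 then none else if k = 4 then wm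
      else bgc 2 0 (10 + 8 * w + k)) = wsR.get 28 ((k : ℤ) - 2) := by decide +kernel

private theorem ws_B3 : ∀ al : Bool, ∀ k : ℕ, k < 7 → k % 2 = 0 →
    (dirty al).get 0 (((10 + 8 * wtrk al + k : ℕ) : ℤ) - 12) =
      wsR.get 28 ((k : ℤ) - 2) := by decide +kernel

private theorem ws_B4 : ∀ w : ℕ, w < 2 → ∀ x : ℕ, x < 4 → ∀ k : ℕ, k < 7 → (x + k) % 2 = 0 →
    (if (x = 3 ∧ k = 3) ∨ (x = 2 ∧ k = 4) then none else bgc 2 (24 + x) (10 + 8 * w + k)) =
      wsP.get ((x : ℤ) - 4) ((k : ℤ) - 2) := by decide +kernel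

private theorem ws_B5 : ∀ x : ℕ, x < 33 → ∀ k : ℕ, k < 7 → (x + k) % 2 = 1 →
    wsR.get ((x : ℤ) - 4) ((k : ℤ) - 2) = none ∧ wsP.get ((x : ℤ) - 4) ((k : ℤ) - 2) = none := by
  decide +kernel

private theorem ws_ge : ∀ x : ℕ, x < 33 → ∀ k : ℕ, k < 7 →
    (geM 4 7).testBit (ix ((x : ℤ) - 4) ((k : ℤ) - 2)) = decide (4 ≤ x) := by decide +kernel

private theorem ws_lt : ∀ x : ℕ, x < 33 → ∀ k : ℕ, k < 7 →
    (ltM 4 7).testBit (ix ((x : ℤ) - 4) ((k : ℤ) - 2)) = decide (x < 4) := by decide +kernel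

private theorem ws_wtrk (al : Bool) : wtrk al < 2 := by cases al <;> decide

/-! ### the tiles between the turn and N1 -/

/-- What is needed about a tile, at the column `x` and the row `Y`. -/
private def WsTile (o : Op) (x Y : ℕ) : Prop :=
  o.kind ≠ .first ∧ ¬ o.InTile x Y ∧ (Y = 13 → 1 ≤ o.regAt x) ∧ (Y = 21 → 2 ≤ o.regAt x) ∧
    (o.kind = .Y → 2 ≤ o.trk) ∧ (o.kind = .G → 2 ≤ o.trk) ∧ (o.kind = .N1 → x < 14)

private theorem ws_cell {N sg : ℕ} {o : Op} {x Y w : ℕ} (hw : w < 2) (hY : 10 + 8 * w ≤ Y)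
    (hY' : Y ≤ 16 + 8 * w) (ht : WsTile o x Y) (hsg : 26 ≤ sg) :
    cell N sg o x Y = bgc 2 x Y := by
  obtain ⟨h1, h2, h3, h4, -⟩ := ht
  have hb : bT = 20 := rfl
  unfold cell
  rw [if_neg h2, if_neg (by rintro ⟨_, _, h⟩; omega), if_neg (by rintro ⟨_, _, h⟩; omega),
    if_neg (by rintro ⟨_, _, h⟩; omega), if_neg (by rintro ⟨h, _⟩; exact h1 h),
    if_neg (by omega), if_neg (by omega), if_neg (by omega), if_neg (by omega)]
  have hiff : ((1 ≤ o.regAt x ∧ Y = 13) ∨ (2 ≤ o.regAt x ∧ Y = 21)) ↔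
      ((1 ≤ 2 ∧ Y = 13) ∨ (2 ≤ 2 ∧ Y = 21)) := by
    constructor
    · rintro (⟨_, h⟩ | ⟨_, h⟩)
      · exact Or.inl ⟨by norm_num, h⟩
      · exact Or.inr ⟨by norm_num, h⟩
    · rintro (⟨_, h⟩ | ⟨_, h⟩)
      · exact Or.inl ⟨h3 h, h⟩
      · exact Or.inr ⟨h4 h, h⟩
  unfold bgc
  simp only [hiff]

private theorem ws_king {N cL : ℕ} {κ : KC} {o : Op} {c x Y : ℕ} (hY : Y ≤ 24)
    (ht : WsTile o x Y) : kingAt N cL κ o c x Y = none := by
  obtain ⟨h1, -, -, -, h2, h3, h4⟩ := ht
  have hb : bT = 20 := rfl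
  unfold kingAt
  rw [if_neg (by rintro ⟨_, _, _, _, h⟩; omega)]
  cases hk : o.kind with
  | N1 =>
    have := h4 hk
    simp only
    rw [if_neg]
    rintro (⟨_, h, _⟩ | ⟨_, h, _⟩) <;> omega
  | G =>
    have := h3 hk
    simp only
    rw [if_neg]
    rintro (⟨_, _, h⟩ | ⟨_, _, h⟩) <;> omega
  | Y =>
    have := h2 hk
    simp only
    rw [if_neg]
    rintro (⟨_, _, h⟩ | ⟨_, _, h⟩) <;> omega
  | first => exact absurd hk h1
  | _ => rfl

private theorem ws_coord {c x Y : ℕ} (hx : x < 28) :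
    (((28 * c + x : ℕ) : ℤ)).toNat / 28 = c ∧ (((28 * c + x : ℕ) : ℤ)).toNat % 28 = x ∧
      ((Y : ℕ) : ℤ).toNat = Y := by
  refine ⟨?_, ?_, ?_⟩ <;> omega

private theorem ws_dark (hC : C.Ok) {c x Y : ℕ} (hc : c < C.g.ops.length) (hx : x < 28)
    (hY : Y ≤ 24) (hp : (x + Y) % 2 = 0) :
    IsDark C.g.N (((28 * c + x : ℕ) : ℤ), ((Y : ℕ) : ℤ)) := by
  have h1 := hC.size
  have h2 : C.g.N = 28 * C.g.ops.length := rfl
  refine ⟨?_, ?_, ?_, ?_, ?_⟩ <;> simp only <;> omega

private theorem ws_kb (hC : C.Ok) {κ : KC} {w c x Y : ℕ} (hw : w < 2) (hY : 10 + 8 * w ≤ Y)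
    (hY' : Y ≤ 16 + 8 * w) (hc : c < C.g.ops.length) (hx : x < 28) (hp : (x + Y) % 2 = 0)
    (ht : WsTile (C.op c) x Y) :
    C.g.kboard C.cL κ (((28 * c + x : ℕ) : ℤ), ((Y : ℕ) : ℤ)) = bgc 2 x Y := by
  obtain ⟨e1, e2, e3⟩ := ws_coord (c := c) (Y := Y) hx
  have hsg := hC.sg24
  unfold Geo.kboard
  rw [if_pos (ws_dark hC hc hx (by omega) hp)]
  simp only [e1, e2, e3]
  have h1 := ws_king (N := C.g.N) (cL := C.cL) (κ := κ) (c := c) (by omega : Y ≤ 24) ht
  have h2 := ws_cell (N := C.g.N) hw hY hY' ht hsg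
  unfold Circ.op at h1 h2
  rw [h1, h2]

private theorem ws_eb (hC : C.Ok) {κ : KC} {al : Bool} {c x Y : ℕ} (hY : 10 + 8 * wtrk al ≤ Y)
    (hY' : Y ≤ 16 + 8 * wtrk al) (hc : c < C.cN) (hx : x < 28) (hp : (x + Y) % 2 = 0)
    (ht : WsTile (C.op c) x Y) :
    C.g.eboard C.cL C.cN al κ (((28 * c + x : ℕ) : ℤ), ((Y : ℕ) : ℤ)) =
      if Y = 12 + 8 * wtrk al then bm else if Y = 13 + 8 * wtrk al then none
      else if Y = 14 + 8 * wtrk al then wm else bgc 2 x Y := by
  obtain ⟨e1, e2, e3⟩ := ws_coord (c := c) (Y := Y) hx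
  have hsg := hC.sg24
  have hw := ws_wtrk al
  have hNG := hC.hNG
  have hG := hC.hG
  unfold Geo.eboard
  rw [if_pos (ws_dark hC (by omega) hx (by omega) hp)]
  simp only [e1, e2, e3]
  have h1 := ws_king (N := C.g.N) (cL := C.cL) (κ := κ) (c := c) (by omega : Y ≤ 24) ht
  have h2 := ws_cell (N := C.g.N) hw hY hY' ht hsg
  unfold Circ.op at h1 h2
  rw [h1]
  simp only
  unfold ecell
  rw [if_neg (by omega), h2]
  simp only [hc, true_and]

private theorem ws_ebN (hC : C.Ok) {κ : KC} {al : Bool} {Y : ℕ} (hY : 10 + 8 * wtrk al ≤ Y)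
    (hY' : Y ≤ 16 + 8 * wtrk al) (hp : Y % 2 = 0) (hk : (C.op C.cN).kind = .N1) :
    C.g.eboard C.cL C.cN al κ (((28 * C.cN + 0 : ℕ) : ℤ), ((Y : ℕ) : ℤ)) =
      (dirty al).get 0 (((Y : ℕ) : ℤ) - 12) := by
  obtain ⟨e1, e2, e3⟩ := ws_coord (c := C.cN) (x := 0) (Y := Y) (by norm_num)
  have hw := ws_wtrk al
  have hNG := hC.hNG
  have hG := hC.hG
  unfold Geo.eboard
  rw [if_pos (ws_dark hC (by omega) (by norm_num) (by omega) (by omega))]
  simp only [e1, e2, e3]
  have h1 : kingAt C.g.N C.cL κ (C.op C.cN) C.cN 0 Y = none := by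
    have hb : bT = 20 := rfl
    unfold kingAt
    rw [if_neg (by rintro ⟨_, _, _, _, h⟩; omega), hk]
    simp
  unfold Circ.op at h1
  rw [h1]
  simp only
  unfold ecell
  rw [if_pos ⟨rfl, by omega, by omega⟩]
  rfl

/-- The tiles between the turn and N1. -/
private theorem ws_tile (hC : C.Ok) {al : Bool} {c x Y : ℕ} (h1 : C.ct al ≤ c) (h2 : c < C.cN)
    (hx : C.ct al < c ∨ 24 ≤ x) (hY : 10 + 8 * wtrk al ≤ Y) (hY' : Y ≤ 16 + 8 * wtrk al) :
    WsTile (C.op c) x Y := by
  have hB := hC.hB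
  have hBA := hC.hBA
  have hAL := hC.hAL
  have hLR := hC.hLR
  have hRN := hC.hRN
  have hNG := hC.hNG
  have hG := hC.hG
  have hsg := hC.sg24
  have hlt : c < C.g.ops.length := by omega
  have htile := hC.tiles c hlt
  have hfirst : (C.op c).kind ≠ .first := by
    intro h
    have := (hC.first c hlt).1 h
    unfold Circ.ct at h1
    split_ifs at h1 <;> omega
  have hn1 : (C.op c).kind ≠ .N1 := by
    intro h
    have := (hC.n1 c hlt).1 h
    omega
  rcases Nat.eq_or_lt_of_le h1 with h | h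
  · -- the turning tile
    have hx24 : 24 ≤ x := by omega
    cases al with
    | true =>
      have hc : c = C.cB := by rw [← h]; rfl
      have hk := (hC.nb c hlt).2 hc
      have hw : wtrk true = 0 := rfl
      rw [hw] at hY hY'
      refine ⟨hfirst, ?_, ?_, ?_, ?_, ?_, ?_⟩
      · rintro ⟨_, _, _, h5, _⟩; omega
      · intro _
        unfold Op.regAt
        rw [hk]
        simp only
        rw [if_neg (by omega)]
      · intro h5; omega
      · intro h5; rw [hk] at h5; cases h5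
      · intro h5; rw [hk] at h5; cases h5
      · intro h5; exact absurd h5 hn1
    | false =>
      have hc : c = C.cA := by rw [← h]; rfl
      have hk := (hC.na c hlt).2 hc
      have hw : wtrk false = 1 := rfl
      rw [hw] at hY hY'
      refine ⟨hfirst, ?_, ?_, ?_, ?_, ?_, ?_⟩
      · rintro ⟨_, _, _, h5, _⟩; omega
      · intro h5; omega
      · intro _
        unfold Op.regAt
        rw [hk]
        simp only
        rw [if_neg (by omega)]
      · intro h5; rw [hk] at h5; cases h5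
      · intro h5; rw [hk] at h5; cases h5
      · intro h5; exact absurd h5 hn1
  · -- between
    have hnb : (C.op c).kind ≠ .NB := by
      intro h3
      have := (hC.nb c hlt).1 h3
      unfold Circ.ct at h
      split_ifs at h <;> omega
    -- the number of westbound tracks
    have hreg : (Y = 13 → 1 ≤ (C.op c).regAt x) ∧ (Y = 21 → 2 ≤ (C.op c).regAt x) := by
      by_cases hA : c = C.cA
      · have hk := (hC.na c hlt).2 hA
        cases al with
        | true =>
          have hw : wtrk true = 0 := rfl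
          rw [hw] at hY hY'
          refine ⟨fun _ => ?_, fun h5 => by omega⟩
          unfold Op.regAt
          rw [hk]
          simp only
          split_ifs <;> omega
        | false =>
          have h3 : C.cA < c := h
          omega
      · have hna : (C.op c).kind ≠ .NA := fun h3 => hA ((hC.na c hlt).1 h3)
        have hra : (C.op c).regAt x = (C.op c).reg := by
          unfold Op.regAt
          cases hk : (C.op c).kind <;> first | rfl | exact absurd hk hnb | exact absurd hk hna |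
            exact absurd hk hn1
        rw [hra]
        cases al with
        | true =>
          have h3 : C.cB < c := h
          have hw : wtrk true = 0 := rfl
          rw [hw] at hY hY'
          refine ⟨fun _ => ?_, fun h5 => by omega⟩
          rcases Nat.lt_or_ge c C.cA with h4 | h4
          · rw [hC.reg1 c hlt h3 h4]
          · rw [hC.reg2 c hlt (by omega) h2]; norm_num
        | false =>
          have h3 : C.cA < c := h
          have := hC.reg2 c hlt h3 h2
          rw [this]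
          exact ⟨fun _ => by norm_num, fun _ => le_rfl⟩
    -- the tracks
    have htrk : (C.op c).kind ≠ .blank → 1 ≤ (C.op c).trk ∧ (al = false → 2 ≤ (C.op c).trk) := by
      intro hbl
      obtain ⟨-, -, h5⟩ := htile
      have hreg2 : al = false → (C.op c).reg = 2 := by
        intro hal
        subst hal
        exact hC.reg2 c hlt h h2
      have hna : al = false → (C.op c).kind ≠ .NA := by
        intro hal h3
        subst hal
        have h4 : C.cA < c := h
        have := (hC.na c hlt).1 h3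
        omega
      cases hk : (C.op c).kind <;> rw [hk] at h5 <;> simp only at h5
      case first => exact absurd hk hfirst
      case blank => exact absurd hk hbl
      case U =>
        refine ⟨h5.1, fun hal => ?_⟩
        have := hreg2 hal
        have h6 := h5.2.1
        by_contra h7
        have h8 := h6 (by omega)
        omega
      case NA => exact ⟨by omega, fun hal => absurd hk (hna hal)⟩
      case NB => exact absurd hk hnb
      case N1 => exact absurd hk hn1
      all_goals exact ⟨by omega, fun _ => by omega⟩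
    have hYk : (C.op c).kind = .Y → 2 ≤ (C.op c).trk := by
      intro hk
      obtain ⟨-, -, h5⟩ := htile
      rw [hk] at h5
      exact h5.1
    have hGk : (C.op c).kind = .G → 2 ≤ (C.op c).trk := by
      intro hk
      obtain ⟨-, -, h5⟩ := htile
      rw [hk] at h5
      simp only at h5
      omega
    refine ⟨hfirst, ?_, hreg.1, hreg.2, hYk, hGk, fun h3 => absurd h3 hn1⟩
    rintro ⟨_, h4, _, _, h5, _⟩
    obtain ⟨h6, h7⟩ := htrk h4
    cases al with
    | true =>
      have hw : wtrk true = 0 := rfl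
      rw [hw] at hY hY'
      omega
    | false =>
      have hw : wtrk false = 1 := rfl
      rw [hw] at hY hY'
      have := h7 rfl
      omega

private theorem ws_N1 (hC : C.Ok) : (C.op C.cN).kind = .N1 := by
  have hNG := hC.hNG
  have hG := hC.hG
  exact (hC.n1 C.cN (by omega)).2 rfl

/-- The board after a launch in the window to the right of the turn. -/
private theorem ws_eb' (hC : C.Ok) {κ : KC} {al : Bool} {c x k : ℕ} (hk : k < 7)
    (h1 : C.ct al < c) (h2 : c < C.cN ∨ (c = C.cN ∧ x = 0)) (hx : x < 28)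
    (hp : (x + k) % 2 = 0) :
    C.g.eboard C.cL C.cN al κ (((28 * c + x : ℕ) : ℤ), ((10 + 8 * wtrk al + k : ℕ) : ℤ)) =
      if c = C.cN then (dirty al).get 0 (((10 + 8 * wtrk al + k : ℕ) : ℤ) - 12) else
      if k = 2 then bm else if k = 3 then none
      else if k = 4 then wm else bgc 2 x (10 + 8 * wtrk al + k) := by
  by_cases hcN : c = C.cN
  · rw [if_pos hcN]
    have hx0 : x = 0 := by omega
    subst hx0
    subst hcN
    exact ws_ebN hC (by omega) (by omega) (by omega) (ws_N1 hC)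
  · rw [if_neg hcN]
    have h3 : c < C.cN := by omega
    rw [ws_eb hC (by omega) (by omega) h3 hx (by omega)
      (ws_tile hC h1.le h3 (Or.inl h1) (by omega) (by omega))]
    have e1 : (10 + 8 * wtrk al + k = 12 + 8 * wtrk al) ↔ k = 2 := by omega
    have e2 : (10 + 8 * wtrk al + k = 13 + 8 * wtrk al) ↔ k = 3 := by omega
    have e3 : (10 + 8 * wtrk al + k = 14 + 8 * wtrk al) ↔ k = 4 := by omega
    simp only [e1, e2, e3]

private theorem ws_nodark {N : ℕ} {s : Square} (h : ¬ IsDark N s) {g : Geo} (hg : g.N = N)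
    {cL cN : ℕ} {al : Bool} {κ : KC} : g.kboard cL κ s = none ∧ g.eboard cL cN al κ s = none := by
  subst hg
  constructor
  · unfold Geo.kboard; rw [if_neg h]
  · unfold Geo.eboard; rw [if_neg h]

/-- The boards agree outside of the three rows. -/
private theorem ws_ke {κ : KC} {al : Bool} {s : Square} {c : ℕ} (hc : c < C.cN)
    (h0 : 28 * (c : ℤ) ≤ s.1) (h1 : s.1 < 28 * (c : ℤ) + 28)
    (h2 : ¬ (12 + 8 * (wtrk al : ℤ) ≤ s.2 ∧ s.2 ≤ 14 + 8 * (wtrk al : ℤ))) :
    C.g.eboard C.cL C.cN al κ s = C.g.kboard C.cL κ s := by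
  by_cases hd : IsDark C.g.N s
  · have hd3 := hd.2.2.1
    unfold Geo.eboard Geo.kboard
    rw [if_pos hd, if_pos hd]
    have e1 : s.1.toNat / 28 = c := by omega
    rw [e1]
    have : ecell C.g.N C.g.sg C.cN al (C.g.ops.getD c default) c (s.1.toNat % 28) s.2.toNat =
        cell C.g.N C.g.sg (C.g.ops.getD c default) (s.1.toNat % 28) s.2.toNat := by
      unfold ecell
      rw [if_neg (by omega), if_neg (by omega), if_neg (by omega), if_neg (by omega)]
    rw [this]
    cases kingAt C.g.N C.cL κ (C.g.ops.getD c default) c (s.1.toNat % 28) s.2.toNat <;> rfl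
  · obtain ⟨h3, h4⟩ := ws_nodark (cL := C.cL) (cN := C.cN) (al := al) (κ := κ) hd (rfl : C.g.N = _)
    rw [h3, h4]

private def wsFrame (hC : C.Ok) {al : Bool} {c : ℕ} (hc : C.ct al < c) (hc' : c < C.cN) :
    Frame where
  N := C.g.N
  X := 28 * c
  Y := 12 + 8 * wtrk al
  zl := 6
  zn := 3
  hzl := by norm_num
  hzn := by norm_num
  hX := by omega
  hX' := by
    have h2 : C.g.N = 28 * C.g.ops.length := rfl
    have hNG := hC.hNG
    have hG := hC.hG
    omega
  hY := by push_cast; omega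
  hY' := by
    have := hC.size
    have := ws_wtrk al
    push_cast
    omega
  hp := by omega

/-- The window in front. -/
private theorem ws_before (hC : C.Ok) {κ : KC} {al : Bool} {c x k : ℕ} (hc : C.ct al < c)
    (hc' : c < C.cN) (hx : x < 33) (hk : k < 7) :
    C.wb al κ (c + 1) (28 * (c : ℤ) + x - 4, 10 + 8 * (wtrk al : ℤ) + k) =
      wsL.get ((x : ℤ) - 4) ((k : ℤ) - 2) := by
  have hw := ws_wtrk al
  have hNG := hC.hNG
  have hG := hC.hG
  rcases Nat.mod_two_eq_zero_or_one (x + k) with hp | hp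
  · unfold Circ.wb Geo.wboard
    rcases Nat.lt_or_ge x 4 with h1 | h1
    · -- the tile `c - 1`
      have e : ((28 * (c : ℤ) + x - 4, 10 + 8 * (wtrk al : ℤ) + k) : Square) =
          (((28 * (c - 1) + (24 + x) : ℕ) : ℤ), ((10 + 8 * wtrk al + k : ℕ) : ℤ)) := by
        refine Prod.ext ?_ ?_ <;> simp only <;> omega
      rw [if_neg, if_neg]
      · rw [e, ws_kb hC hw (by omega) (by omega) (by omega) (by omega) (by omega)
          (ws_tile hC (al := al) (by omega) (by omega) (Or.inr (by omega)) (by omega) (by omega))]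
        exact ws_A3 _ hw x h1 k hk hp
      · simp only; push_cast; omega
      · simp only [Prod.mk.injEq]; push_cast; omega
    · obtain ⟨x', rfl⟩ : ∃ x', x = x' + 4 := ⟨x - 4, by omega⟩
      rcases Nat.lt_or_ge x' 28 with h2 | h2
      · -- the tile `c`
        have e : ((28 * (c : ℤ) + ((x' + 4 : ℕ) : ℤ) - 4, 10 + 8 * (wtrk al : ℤ) + k) : Square) =
            (((28 * c + x' : ℕ) : ℤ), ((10 + 8 * wtrk al + k : ℕ) : ℤ)) := by
          refine Prod.ext ?_ ?_ <;> simp only <;> push_cast <;> ring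
        by_cases hport : (x' = 27 ∧ k = 3) ∨ (x' = 26 ∧ k = 4)
        · have hA := ws_A1 _ hw x' h2 k hk (by omega)
          rw [if_pos hport] at hA
          rw [if_pos, hA]
          simp only [Prod.mk.injEq]; push_cast; omega
        · rw [if_neg, if_neg]
          · rw [e, ws_kb hC hw (by omega) (by omega) (by omega) (by omega) (by omega)
              (ws_tile hC (al := al) (by omega) (by omega) (Or.inl hc) (by omega) (by omega))]
            have hA := ws_A1 _ hw x' h2 k hk (by omega)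
            rw [if_neg hport] at hA
            exact hA
          · simp only; push_cast; omega
          · simp only [Prod.mk.injEq]; push_cast; omega
      · -- the tile `c + 1`
        have hx' : x' = 28 := by omega
        subst hx'
        have e : ((28 * (c : ℤ) + ((28 + 4 : ℕ) : ℤ) - 4, 10 + 8 * (wtrk al : ℤ) + k) : Square) =
            (((28 * (c + 1) + 0 : ℕ) : ℤ), ((10 + 8 * wtrk al + k : ℕ) : ℤ)) := by
          refine Prod.ext ?_ ?_ <;> simp only <;> push_cast <;> ring
        rw [if_neg, if_pos]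
        · rw [e, ws_eb' hC hk (by omega) (by omega) (by omega) (by omega)]
          have e4 : (((28 + 4 : ℕ) : ℤ) - 4) = 28 := by norm_num
          rw [e4]
          split_ifs with hcN
          · exact ws_A5 al k hk (by omega)
          all_goals
            have := ws_A4 _ hw k hk (by omega)
            simp_all
        · simp only; push_cast; omega
        · simp only [Prod.mk.injEq]; push_cast; omega
  · rw [ws_A6 x hx k hk hp]
    have hd : ¬ IsDark C.g.N (28 * (c : ℤ) + x - 4, 10 + 8 * (wtrk al : ℤ) + k) := by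
      rintro ⟨-, -, -, -, h5⟩
      simp only at h5
      omega
    obtain ⟨h3, h4⟩ := ws_nodark (cL := C.cL) (cN := C.cN) (al := al) (κ := κ.dead false al) hd
      (rfl : C.g.N = _)
    unfold Circ.wb Geo.wboard
    rw [h3, h4]
    split_ifs <;> rfl

/-- The window afterwards. -/
private theorem ws_after (hC : C.Ok) {κ : KC} {al : Bool} {c x k : ℕ} (hc : C.ct al < c)
    (hc' : c < C.cN) (hx : x < 33) (hk : k < 7) :
    C.wb al κ c (28 * (c : ℤ) + x - 4, 10 + 8 * (wtrk al : ℤ) + k) =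
      if x < 4 then wsP.get ((x : ℤ) - 4) ((k : ℤ) - 2)
      else wsR.get ((x : ℤ) - 4) ((k : ℤ) - 2) := by
  have hw := ws_wtrk al
  have hNG := hC.hNG
  have hG := hC.hG
  rcases Nat.mod_two_eq_zero_or_one (x + k) with hp | hp
  · unfold Circ.wb Geo.wboard
    rcases Nat.lt_or_ge x 4 with h1 | h1
    · -- the tile `c - 1`
      rw [if_pos h1]
      have e : ((28 * (c : ℤ) + x - 4, 10 + 8 * (wtrk al : ℤ) + k) : Square) =
          (((28 * (c - 1) + (24 + x) : ℕ) : ℤ), ((10 + 8 * wtrk al + k : ℕ) : ℤ)) := by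
        refine Prod.ext ?_ ?_ <;> simp only <;> omega
      rw [← ws_B4 _ hw x h1 k hk hp]
      by_cases hport : (x = 3 ∧ k = 3) ∨ (x = 2 ∧ k = 4)
      · rw [if_pos, if_pos hport]
        simp only [Prod.mk.injEq]; omega
      · rw [if_neg, if_neg, if_neg hport]
        · rw [e, ws_kb hC hw (by omega) (by omega) (by omega) (by omega) (by omega)
            (ws_tile hC (al := al) (by omega) (by omega) (Or.inr (by omega)) (by omega) (by omega))]
        · simp only; omega
        · simp only [Prod.mk.injEq]; omega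
    · rw [if_neg (by omega : ¬ x < 4)]
      obtain ⟨x', rfl⟩ : ∃ x', x = x' + 4 := ⟨x - 4, by omega⟩
      rcases Nat.lt_or_ge x' 28 with h2 | h2
      · -- the tile `c`
        have e : ((28 * (c : ℤ) + ((x' + 4 : ℕ) : ℤ) - 4, 10 + 8 * (wtrk al : ℤ) + k) : Square) =
            (((28 * c + x' : ℕ) : ℤ), ((10 + 8 * wtrk al + k : ℕ) : ℤ)) := by
          refine Prod.ext ?_ ?_ <;> simp only <;> push_cast <;> ring
        rw [if_neg, if_pos]
        · rw [e, ws_eb' hC hk (by omega) (by omega) (by omega) (by omega),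
            if_neg (by omega : ¬ c = C.cN)]
          exact ws_B1 _ hw x' h2 k hk (by omega)
        · simp only; push_cast; omega
        · simp only [Prod.mk.injEq]; push_cast; omega
      · -- the tile `c + 1`
        have hx' : x' = 28 := by omega
        subst hx'
        have e : ((28 * (c : ℤ) + ((28 + 4 : ℕ) : ℤ) - 4, 10 + 8 * (wtrk al : ℤ) + k) : Square) =
            (((28 * (c + 1) + 0 : ℕ) : ℤ), ((10 + 8 * wtrk al + k : ℕ) : ℤ)) := by
          refine Prod.ext ?_ ?_ <;> simp only <;> push_cast <;> ring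
        rw [if_neg, if_pos]
        · rw [e, ws_eb' hC hk (by omega) (by omega) (by omega) (by omega)]
          have e4 : (((28 + 4 : ℕ) : ℤ) - 4) = 28 := by norm_num
          rw [e4]
          split_ifs with hcN
          · exact ws_B3 al k hk (by omega)
          all_goals
            have := ws_B2 _ hw k hk (by omega)
            simp_all
        · simp only; push_cast; omega
        · simp only [Prod.mk.injEq]; push_cast; omega
  · obtain ⟨g1, g2⟩ := ws_B5 x hx k hk hp
    rw [g1, g2]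
    have hd : ¬ IsDark C.g.N (28 * (c : ℤ) + x - 4, 10 + 8 * (wtrk al : ℤ) + k) := by
      rintro ⟨-, -, -, -, h5⟩
      simp only at h5
      omega
    obtain ⟨h3, h4⟩ := ws_nodark (cL := C.cL) (cN := C.cN) (al := al) (κ := κ.dead false al) hd
      (rfl : C.g.N = _)
    unfold Circ.wb Geo.wboard
    rw [h3, h4]
    split_ifs <;> rfl

/-- Outside of the window nothing changes. -/
private theorem ws_off {κ : KC} {al : Bool} {c : ℕ} (hc' : c < C.cN) {s : Square}
    (hs : ¬ (28 * (c : ℤ) - 4 ≤ s.1 ∧ s.1 ≤ 28 * (c : ℤ) + 28 ∧ 10 + 8 * (wtrk al : ℤ) ≤ s.2 ∧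
      s.2 ≤ 16 + 8 * (wtrk al : ℤ))) : C.wb al κ c s = C.wb al κ (c + 1) s := by
  unfold Circ.wb Geo.wboard
  have hs' : s = (s.1, s.2) := rfl
  have hP : ¬ (s = (28 * (c : ℤ) - 1, 13 + 8 * (wtrk al : ℤ)) ∨
      s = (28 * (c : ℤ) - 2, 14 + 8 * (wtrk al : ℤ))) := by
    rw [hs', Prod.mk.injEq, Prod.mk.injEq]; omega
  have hP' : ¬ (s = (28 * ((c + 1 : ℕ) : ℤ) - 1, 13 + 8 * (wtrk al : ℤ)) ∨
      s = (28 * ((c + 1 : ℕ) : ℤ) - 2, 14 + 8 * (wtrk al : ℤ))) := by
    rw [hs', Prod.mk.injEq, Prod.mk.injEq]; push_cast; omega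
  rw [if_neg hP, if_neg hP']
  · rcases lt_or_ge s.1 (28 * (c : ℤ)) with h1 | h1
    · rw [if_neg (by omega), if_neg (by push_cast; omega)]
    · rw [if_pos (by omega)]
      rcases lt_or_ge s.1 (28 * (c : ℤ) + 28) with h2 | h2
      · rw [if_neg (by push_cast; omega)]
        exact ws_ke hc' h1 h2 (by omega)
      · rw [if_pos (by push_cast; omega)]

theorem west_step (hC : C.Ok) (hx : C.XOk κ) {c : ℕ} (hc : C.ct al < c) (hc' : c < C.cN)
    (hj : C.WJump al κ (c + 1)) :
    C.WJump al κ c ∧ (MisereWins C.g.N .white (C.wb al κ (c + 1)) .white ↔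
      MisereWins C.g.N .white (C.wb al κ c) .white) := by
  have hchk := chk_W
  unfold chkW at hchk
  simp only [Bool.and_eq_true] at hchk
  obtain ⟨hwf, hrun⟩ := hchk
  set f := wsFrame hC hc hc' with hf
  have hfF : f.F = full 4 7 := rfl
  -- the local board in front
  have hloc : Loc f wsL (C.wb al κ (c + 1)) := by
    refine ⟨hwf, ?_, ?_⟩
    · intro s hs
      obtain ⟨h1, h2, h3, h4⟩ := hs
      simp only [hf, wsFrame] at h1 h2 h3 h4 ⊢
      obtain ⟨x, hxs⟩ : ∃ x : ℕ, (x : ℤ) = s.1 - 28 * (c : ℤ) + 4 :=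
        ⟨(s.1 - 28 * (c : ℤ) + 4).toNat, by omega⟩
      obtain ⟨k, hks⟩ : ∃ k : ℕ, (k : ℤ) = s.2 - (12 + 8 * (wtrk al : ℤ)) + 2 :=
        ⟨(s.2 - (12 + 8 * (wtrk al : ℤ)) + 2).toNat, by omega⟩
      have e : s = (28 * (c : ℤ) + x - 4, 10 + 8 * (wtrk al : ℤ) + k) := by
        refine Prod.ext ?_ ?_ <;> simp only <;> omega
      have e1 : s.1 - 28 * (c : ℤ) = (x : ℤ) - 4 := by omega
      have e2 : s.2 - (12 + 8 * (wtrk al : ℤ)) = (k : ℤ) - 2 := by omega
      rw [e1, e2, e]
      exact ws_before hC hc hc' (by omega) (by omega)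
    · intro p s d hcj
      obtain ⟨-, h2, -⟩ := hj p s d hcj
      left
      rw [h2]
      refine ⟨?_, ?_, ?_, ?_⟩ <;> simp only [hf, wsFrame] <;> push_cast <;> omega
  rcases hr : LB.run (full 4 7) (zone 6 3) uAll .white ((stBgW.restr (full 4 7)).portW 28 0) mvW
    with _ | ⟨L', c'⟩
  · rw [hr] at hrun
    exact absurd hrun (by simp)
  rw [hr] at hrun
  rcases c' with _ | _
  swap
  · exact absurd hrun (by simp)
  simp only at hrun
  obtain ⟨b', h1, h2, h3, h4⟩ := run_sound (f := f) hr hloc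
  unfold finW at hrun
  simp only [Bool.and_eq_true, decide_eq_true_eq, List.all_eq_true] at hrun
  obtain ⟨⟨⟨f1, f2⟩, f3⟩, f4⟩ := hrun
  have hdgs : ∀ d : Dg, d ∈ dgs := by intro d; cases d <;> decide
  have f1' : ∀ d, L'.caps f.F .black d = 0 := fun d => f1 d (hdgs d)
  have f2' : ∀ d, L'.caps f.F .white d = if d = .ur then 1 <<< ix (-4) (8 * (0 : ℕ)) else 0 :=
    fun d => f2 d (hdgs d)
  -- the board afterwards
  have hb' : b' = C.wb al κ c := by
    funext s
    by_cases hs : 28 * (c : ℤ) - 4 ≤ s.1 ∧ s.1 ≤ 28 * (c : ℤ) + 28 ∧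
        10 + 8 * (wtrk al : ℤ) ≤ s.2 ∧ s.2 ≤ 16 + 8 * (wtrk al : ℤ)
    · have hwin : f.InWin s := by
        refine ⟨?_, ?_, ?_, ?_⟩ <;> simp only [hf, wsFrame] <;> push_cast <;> omega
      rw [h1.agree s hwin]
      simp only [hf, wsFrame]
      obtain ⟨x, hxs⟩ : ∃ x : ℕ, (x : ℤ) = s.1 - 28 * (c : ℤ) + 4 :=
        ⟨(s.1 - 28 * (c : ℤ) + 4).toNat, by omega⟩
      obtain ⟨k, hks⟩ : ∃ k : ℕ, (k : ℤ) = s.2 - (12 + 8 * (wtrk al : ℤ)) + 2 :=
        ⟨(s.2 - (12 + 8 * (wtrk al : ℤ)) + 2).toNat, by omega⟩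
      have e : s = (28 * (c : ℤ) + x - 4, 10 + 8 * (wtrk al : ℤ) + k) := by
        refine Prod.ext ?_ ?_ <;> simp only <;> omega
      have e1 : s.1 - 28 * (c : ℤ) = (x : ℤ) - 4 := by omega
      have e2 : s.2 - (12 + 8 * (wtrk al : ℤ)) = (k : ℤ) - 2 := by omega
      rw [e1, e2, e, ws_after hC hc hc' (by omega) (by omega)]
      rcases Nat.lt_or_ge x 4 with hx4 | hx4
      · rw [if_pos hx4]
        have hbit := ws_lt x (by omega) k (by omega)
        rw [decide_eq_true hx4] at hbit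
        have g1 := get_restr L' (ltM 4 7) ((x : ℤ) - 4) ((k : ℤ) - 2)
        have g2 := get_restr wsP (ltM 4 7) ((x : ℤ) - 4) ((k : ℤ) - 2)
        rw [if_pos hbit] at g1 g2
        rw [← g1, ← g2]
        exact congrArg (fun L : LB => L.get ((x : ℤ) - 4) ((k : ℤ) - 2)) f4
      · rw [if_neg (by omega : ¬ x < 4)]
        have hbit := ws_ge x (by omega) k (by omega)
        rw [decide_eq_true hx4] at hbit
        have g1 := get_restr L' (geM 4 7) ((x : ℤ) - 4) ((k : ℤ) - 2)
        have g2 := get_restr wsR (geM 4 7) ((x : ℤ) - 4) ((k : ℤ) - 2)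
        rw [if_pos hbit] at g1 g2
        rw [← g1, ← g2]
        exact congrArg (fun L : LB => L.get ((x : ℤ) - 4) ((k : ℤ) - 2)) f3
    · have hnz : ¬ f.InZone s := by
        rintro ⟨z1, z2, z3, z4⟩
        simp only [hf, wsFrame] at z1 z2 z3 z4
        push_cast at z3 z4
        apply hs
        refine ⟨?_, ?_, ?_, ?_⟩ <;> omega
      rw [h2 s hnz]
      exact (ws_off hc' hs).symm
  subst hb'
  refine ⟨?_, h4 rfl, h3 rfl⟩
  intro p s d hcj
  rcases hcol : p.color with _ | _
  · have hi : f.F.testBit (ix (-4) (8 * ((0 : ℕ) : ℤ))) = true := by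
      rw [hfF]; decide +kernel
    obtain ⟨g1, g2, g3⟩ := one_jump hi f2' h1 hcol hcj
    obtain ⟨q1, q2, q3, q4⟩ := g2
    simp only [hf, wsFrame] at q1 q2 q3 q4 g3
    push_cast at q3 q4
    obtain ⟨e1, e2⟩ := ix_inj q1 (by omega) (by omega) (by omega) (by omega) (by omega) g3
    refine ⟨rfl, ?_, g1⟩
    refine Prod.ext ?_ ?_ <;> simp only <;> push_cast at e2 ⊢ <;> omega
  · exact absurd hcj (no_jump f1' h1 hcol)

end Pool.Agent.MC95
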