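import Pool.Agent.MC95.WDefs

/-!
# The turn of the westbound wave

PLAN. `turn`: frame at the turning tile (`cB` if `al`, else `cA`), `Y = 12 + 8 * wtrk al`, `zl = 4`,
`zn = 13`, `chk_N`; afterwards `PortE` holds for the board `C.eb`.
-/

namespace Pool.Agent.MC95

variable {C : Circ} {κ : KC} {al : Bool}

/-! ### bits -/

private theorem tn_clr_bit (n i j : ℕ) :
    (if n.testBit i then n ^^^ (1 <<< i) else n).testBit j = (decide (j ≠ i) && n.testBit j) := by
  by_cases h : n.testBit i = true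
  · rw [if_pos h, Nat.testBit_xor, Nat.one_shiftLeft, Nat.testBit_two_pow]
    by_cases h2 : j = i
    · subst h2; simp [h]
    · have h3 : ¬ i = j := fun h => h2 h.symm
      simp [h2, h3]
  · rw [if_neg h]
    by_cases h2 : j = i
    · subst h2; simpa using h
    · simp [h2]

private theorem tn_set_bit (n i j : ℕ) :
    (n ||| (1 <<< i)).testBit j = (n.testBit j || decide (i = j)) := by
  rw [Nat.testBit_or, Nat.one_shiftLeft, Nat.testBit_two_pow]

private theorem tn_get_put (L : LB) (x y x' y' : ℤ) (o : Option Piece) (hx : -4 ≤ x)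
    (hx1 : x ≤ 59) (hy : -6 ≤ y) (hx' : -4 ≤ x') (hx1' : x' ≤ 59) (hy' : -6 ≤ y') :
    (L.put x y o).get x' y' = if x' = x ∧ y' = y then o else L.get x' y' := by
  by_cases h : x' = x ∧ y' = y
  · obtain ⟨rfl, rfl⟩ := h
    rw [if_pos ⟨rfl, rfl⟩]
    rcases o with _ | ⟨_ | _, _ | _⟩ <;>
      simp only [LB.put, LB.get, tn_clr_bit, tn_set_bit] <;> simp
  · have hne : ¬ ix x' y' = ix x y := fun h2 => h (ix_inj hx' hx1' hy' hx hx1 hy h2)
    have hne' : ¬ ix x y = ix x' y' := fun h2 => hne h2.symm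
    rw [if_neg h]
    rcases o with _ | ⟨_ | _, _ | _⟩ <;>
      simp only [LB.put, LB.get, tn_clr_bit, tn_set_bit] <;> simp [hne, hne']

private theorem tn_rows (f : ℕ → ℕ) (lo n : ℕ) {a b : ℕ} (h1 : lo ≤ b) (h2 : b < lo + n)
    (h3 : (f b).testBit a = true) : (rows f lo n).testBit (a + 64 * b) = true := by
  induction n with
  | zero => omega
  | succ n ih =>
    rw [rows, Nat.testBit_or, Bool.or_eq_true]
    rcases Nat.lt_or_ge b (lo + n) with h | h
    · exact Or.inl (ih h)
    · right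
      have h4 : b = lo + n := by omega
      subst h4
      rw [Nat.testBit_shiftLeft]
      simp [h3]

private theorem tn_rightM {lo n : ℕ} {x y : ℤ} (hx : 24 ≤ x) (hx1 : x ≤ 28) (hy : -6 ≤ y)
    (h1 : (lo : ℤ) ≤ y + 6) (h2 : y + 6 < lo + n) : (rightM lo n).testBit (ix x y) = true := by
  unfold rightM ix
  refine tn_rows _ _ _ (by omega) (by omega) ?_
  have h3 : (x + 4).toNat = 28 ∨ (x + 4).toNat = 29 ∨ (x + 4).toNat = 30 ∨ (x + 4).toNat = 31 ∨
      (x + 4).toNat = 32 := by omega
  rcases h3 with h3 | h3 | h3 | h3 | h3 <;> rw [h3] <;> decide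

private theorem tn_full {lo n : ℕ} {x y : ℤ} (hx : -4 ≤ x) (hx1 : x ≤ 28) (hy : -6 ≤ y)
    (h1 : (lo : ℤ) ≤ y + 6) (h2 : y + 6 < lo + n) :
    (full lo n).testBit (ix x y) = true ↔ 2 ∣ x + y := by
  rw [testBit_full]
  constructor
  · rintro ⟨a, b, ha, hb1, hb2, hab, hi⟩
    have h3 := ix_eq hx hy
    rw [hi] at h3
    omega
  · intro h
    refine ⟨(x + 4).toNat, (y + 6).toNat, by omega, by omega, by omega, by omega, rfl⟩

private theorem tn_sub_testBit {a F : ℕ} (h : a ||| F = F) {i : ℕ} (hi : a.testBit i = true) :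
    F.testBit i = true := by
  rw [← h, Nat.testBit_or, hi, Bool.true_or]

private theorem tn_get_some_wf {F : ℕ} {L : LB} (h : L.wf F = true) {x y : ℤ} {p : Piece}
    (hp : L.get x y = some p) : F.testBit (ix x y) = true := by
  unfold LB.wf at h
  simp only [Bool.and_eq_true, decide_eq_true_eq] at h
  unfold LB.get at hp
  split_ifs at hp with h1 h2
  · exact tn_sub_testBit h.1.1.1 h1
  · exact tn_sub_testBit h.1.1.2 h2

private theorem tn_of_get_wk {L : LB} {x y : ℤ} (h : L.get x y = wk) :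
    (L.w &&& L.k).testBit (ix x y) = true := by
  unfold LB.get at h
  rw [Nat.testBit_and, Bool.and_eq_true]
  split_ifs at h with h1 h2
  · refine ⟨h1, ?_⟩
    simpa using h
  · simp at h

private theorem tn_get_portE (L : LB) (a : ℤ) (t : ℕ) (x y : ℤ) (ha : -4 ≤ a) (ha1 : a ≤ 24)
    (hx : -4 ≤ x) (hx1 : x ≤ 28) (hy : -6 ≤ y) :
    (L.portE a t).get x y = if x = a ∧ y = 8 * t then bm
      else if (x = a + 1 ∧ y = 8 * t + 1) ∨ (x = a + 2 ∧ y = 8 * t + 2) then none
      else L.get x y := by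
  unfold LB.portE
  rw [tn_get_put _ _ _ _ _ _ (by omega) (by omega) (by omega) hx (by omega) hy,
    tn_get_put _ _ _ _ _ _ (by omega) (by omega) (by omega) hx (by omega) hy,
    tn_get_put _ _ _ _ _ _ (by omega) (by omega) (by omega) hx (by omega) hy]
  split_ifs <;> first | rfl | (exfalso; omega)

private theorem tn_get_portW (L : LB) (x y : ℤ) (hx : -4 ≤ x) (hx1 : x ≤ 28) (hy : -6 ≤ y) :
    (L.portW 28 0).get x y = if x = 28 ∧ y = 0 then bm
      else if (x = 27 ∧ y = 1) ∨ (x = 26 ∧ y = 2) then none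
      else L.get x y := by
  unfold LB.portW
  rw [tn_get_put _ _ _ _ _ _ (by omega) (by omega) (by omega) hx (by omega) hy,
    tn_get_put _ _ _ _ _ _ (by omega) (by omega) (by omega) hx (by omega) hy,
    tn_get_put _ _ _ _ _ _ (by omega) (by omega) (by omega) hx (by omega) hy]
  push_cast
  split_ifs <;> first | rfl | (exfalso; omega)

/-! ### finite checks -/

private def tnChk (P : ℤ → ℤ → Bool) : Bool :=
  (List.range 33).all fun i => (List.range 17).all fun j => P ((i : ℤ) - 4) ((j : ℤ) - 4)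

private theorem tn_chk {P : ℤ → ℤ → Bool} (h : tnChk P = true) {x y : ℤ} (hx : -4 ≤ x)
    (hx1 : x ≤ 28) (hy : -4 ≤ y) (hy1 : y ≤ 12) : P x y = true := by
  unfold tnChk at h
  rw [List.all_eq_true] at h
  have h1 := h (x + 4).toNat (List.mem_range.2 (by omega))
  rw [List.all_eq_true] at h1
  have h2 := h1 (y + 4).toNat (List.mem_range.2 (by omega))
  have e1 : (((x + 4).toNat : ℕ) : ℤ) - 4 = x := by omega
  have e2 : (((y + 4).toNat : ℕ) : ℤ) - 4 = y := by omega
  rw [e1, e2] at h2
  exact h2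

private theorem tn_c1 : tnChk (fun x y => decide ((x ≤ 0 ∨ 24 ≤ x ∨ y = -4) → ¬ (24 ≤ x ∧ y = 1) →
    stBg.get x y = stN2.get x y)) = true := by decide +kernel

private theorem tn_c2 : tnChk (fun x y => decide (x ≤ -1 → stBg.get (x + 28) y = stN2.get x y)) =
    true := by decide +kernel

private theorem tn_c3 : tnChk (fun x y => decide (24 ≤ x → y ≠ 0 → y ≠ 1 → y ≠ 2 →
    stBg.get x y = stN2r.get x y)) = true := by decide +kernel

private theorem tn_c4 : tnChk (fun x y => decide (24 ≤ x →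
    (y = 0 → 2 ∣ x + y → stN2r.get x y = bm) ∧ (y = 1 → stN2r.get x y = none) ∧
    (y = 2 → 2 ∣ x + y → stN2r.get x y = wm))) = true := by decide +kernel

private theorem tn_c5 : tnChk (fun x y => decide (x = 28 → stBg.get 0 y = stBg.get x y)) =
    true := by decide +kernel

/-! ### the circuit near the turn -/

private structure TnFacts (C : Circ) (al : Bool) : Prop where
  c1 : 1 ≤ C.ct al
  cN : C.ct al + 1 < C.cN
  len : C.ct al + 1 < C.g.ops.length
  kind : (C.op (C.ct al)).kind = if al then .NB else .NA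
  trk : (C.op (C.ct al)).trk = wtrk al
  st : (C.op (C.ct al)).kind.st = stN2
  ytop : (C.op (C.ct al)).kind.ytop = 12
  cor : (C.op (C.ct al)).cor = 0
  reg0 : ∀ x, x ≤ 12 → (C.op (C.ct al)).regAt x = if al then 0 else 1
  reg1 : ∀ x, 13 ≤ x → (C.op (C.ct al)).regAt x = if al then 1 else 2
  regp : ∀ x, 13 ≤ x → (C.op (C.ct al - 1)).regAt x = if al then 0 else 1
  regn : (C.op (C.ct al + 1)).regAt 0 = if al then 1 else 2
  nfirst : (C.op (C.ct al + 1)).kind ≠ .first
  n1 : ∀ c, c ≤ C.ct al + 1 → (C.op c).kind ≠ .N1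
  N : C.g.N = 28 * C.g.ops.length

private theorem tn_regAt (o : Op) {x : ℕ} (hx : 13 ≤ x) : o.regAt x = o.regAt 27 := by
  have h : ¬ x ≤ 12 := by omega
  unfold Op.regAt
  cases o.kind <;> simp [h]

private theorem tn_facts (hC : C.Ok) (al : Bool) : TnFacts C al := by
  have hB := hC.hB
  have hBA := hC.hBA
  have hAL := hC.hAL
  have hLR := hC.hLR
  have hRN := hC.hRN
  have hNG := hC.hNG
  have hG := hC.hG
  have hct : 1 ≤ C.ct al ∧ C.ct al + 1 < C.cN ∧ C.ct al + 1 < C.g.ops.length := by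
    unfold Circ.ct
    cases al
    · rw [if_neg (by decide)]
      omega
    · rw [if_pos rfl]
      omega
  obtain ⟨h1, h2, h3⟩ := hct
  have hkind : (C.op (C.ct al)).kind = if al then .NB else .NA := by
    cases al
    · exact (hC.na _ (by omega)).2 rfl
    · exact (hC.nb _ (by omega)).2 rfl
  have hok := hC.tiles (C.ct al) (by omega)
  have htrk : (C.op (C.ct al)).trk = wtrk al ∧ (C.op (C.ct al)).cor = 0 := by
    unfold OpOk at hok
    rw [hkind] at hok
    cases al
    · exact hok.2.2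
    · exact hok.2.2
  have hst : (C.op (C.ct al)).kind.st = stN2 ∧ (C.op (C.ct al)).kind.ytop = 12 := by
    rw [hkind]
    cases al <;> exact ⟨rfl, rfl⟩
  have hreg0 : ∀ x, x ≤ 12 → (C.op (C.ct al)).regAt x = if al then 0 else 1 := by
    intro x hx
    unfold Op.regAt
    rw [hkind]
    cases al <;> simp [hx]
  have hreg1 : ∀ x, 13 ≤ x → (C.op (C.ct al)).regAt x = if al then 1 else 2 := by
    intro x hx
    have h : ¬ x ≤ 12 := by omega
    unfold Op.regAt
    rw [hkind]
    cases al <;> simp [h]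
  have hfit1 := hC.fit (C.ct al - 1) (by omega)
  have hfit2 := hC.fit (C.ct al) (by omega)
  have e1 : C.ct al - 1 + 1 = C.ct al := by omega
  rw [e1] at hfit1
  refine ⟨h1, h2, h3, hkind, htrk.1, hst.1, hst.2, htrk.2, hreg0, hreg1, ?_, ?_, ?_, ?_, rfl⟩
  · intro x hx
    rw [tn_regAt _ hx, ← hfit1.1]
    exact hreg0 0 (by omega)
  · rw [hfit2.1]
    exact hreg1 27 (by omega)
  · intro h
    have := (hC.first _ h3).1 h
    omega
  · intro c hc h
    have := (hC.n1 c (by omega)).1 h
    omega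

private theorem tn_kingAt {N cL sg : ℕ} {κ : KC} {o : Op} {c x y : ℕ} (hy : y ≤ 39)
    (hk : o.kind ≠ .N1) (hok : OpOk sg o) (hsg : 26 ≤ sg) (hN : 12 + 8 * sg + 40 ≤ N) :
    kingAt N cL κ o c x y = none := by
  have hcor : 14 ≤ corRow o x := by
    unfold corRow
    split_ifs <;> omega
  unfold kingAt
  rw [if_neg (by
    rintro ⟨-, -, -, -, h⟩
    have hbT : bT = 20 := rfl
    rw [hbT] at h
    omega)]
  unfold OpOk at hok
  rcases hkind : o.kind with _ | _ | _ | _ | _ | _ | _ | _ | _ | _ | _ | _ | _ | _ <;>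
    simp only [hkind] at hok hk ⊢
  · rw [if_neg]
    rintro (⟨-, -, h⟩ | ⟨-, -, h⟩) <;> omega
  · rw [if_neg]
    rintro (⟨-, -, h⟩ | ⟨-, -, h⟩) <;> omega
  · rw [if_neg]
    rintro (⟨-, -, h⟩ | ⟨-, -, h⟩) <;> omega
  · exact absurd rfl hk

private theorem tn_kingAt' (hC : C.Ok) {κ : KC} {c x y : ℕ} (hy : y ≤ 39)
    (hc : c ≤ C.ct al + 1) : kingAt C.g.N C.cL κ (C.op c) c x y = none := by
  have hf := tn_facts hC al
  have h1 := hf.len
  exact tn_kingAt hy (hf.n1 c hc) (hC.tiles c (by omega)) hC.sg24 hC.size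

private theorem tn_kb (hC : C.Ok) {κ : KC} {c x y : ℕ} (hx : x < 28) (hy : y ≤ 39)
    (hc : c ≤ C.ct al + 1) (hd : IsDark C.g.N ((28 * (c : ℤ) + x, (y : ℤ)) : Square)) :
    C.g.kboard C.cL κ (28 * (c : ℤ) + x, (y : ℤ)) = cell C.g.N C.g.sg (C.op c) x y := by
  have e1 : (28 * (c : ℤ) + x).toNat / 28 = c := by omega
  have e2 : (28 * (c : ℤ) + x).toNat % 28 = x := by omega
  have e3 : ((y : ℤ)).toNat = y := by omega
  unfold Geo.kboard
  rw [if_pos hd]
  simp only [e1, e2, e3]
  have h := tn_kingAt' (x := x) hC (κ := κ) hy hc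
  unfold Circ.op at h
  rw [h]
  rfl

private theorem tn_eb (hC : C.Ok) {κ : KC} {c x y : ℕ} (hx : x < 28) (hy : y ≤ 39)
    (hc : c ≤ C.ct al + 1) (hd : IsDark C.g.N ((28 * (c : ℤ) + x, (y : ℤ)) : Square)) :
    C.g.eboard C.cL C.cN al κ (28 * (c : ℤ) + x, (y : ℤ)) =
      ecell C.g.N C.g.sg C.cN al (C.op c) c x y := by
  have e1 : (28 * (c : ℤ) + x).toNat / 28 = c := by omega
  have e2 : (28 * (c : ℤ) + x).toNat % 28 = x := by omega
  have e3 : ((y : ℤ)).toNat = y := by omega
  unfold Geo.eboard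
  rw [if_pos hd]
  simp only [e1, e2, e3]
  have h := tn_kingAt' (x := x) hC (κ := κ) hy hc
  unfold Circ.op at h
  rw [h]
  rfl

/-- The background near the turn. -/
private theorem tn_cell (hC : C.Ok) {c x : ℕ} {y : ℤ} (hx : x < 28) (hy : -4 ≤ y)
    (hy1 : y ≤ 12) (hd : 2 ∣ (x : ℤ) + y)
    (hc : (c + 1 = C.ct al ∧ 24 ≤ x) ∨
      (c = C.ct al ∧ (x = 0 ∨ y = -4 ∨ (24 ≤ x ∧ y ≠ 1))) ∨ (c = C.ct al + 1 ∧ x = 0)) :
    cell C.g.N C.g.sg (C.op c) x (12 + 8 * (wtrk al : ℤ) + y).toNat = stBg.get x y := by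
  have hf := tn_facts hC al
  have hsg := hC.sg24
  have hw : wtrk al = if al then 0 else 1 := rfl
  have hw1 : wtrk al ≤ 1 := by rw [hw]; split_ifs <;> omega
  refine cell_plain (k := wtrk al) (by omega) (by omega) (by omega) hx hd ?_
    (Or.inr (Or.inr (by omega))) (by omega) ?_ ?_
  · rintro ⟨-, -, h1, h2, h3, h4⟩
    rcases hc with ⟨-, hc⟩ | ⟨hc, hc'⟩ | ⟨-, hc⟩
    · omega
    · rw [hc, hf.trk] at h3
      rcases hc' with hc' | hc' | hc'
      · omega
      · omega
      · omega
    · omega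
  · rcases hc with ⟨hc, hx'⟩ | ⟨hc, hc'⟩ | ⟨hc, hc'⟩
    · have h1 := hf.regp x (by omega)
      have h2 : C.ct al - 1 = c := by omega
      rw [h2] at h1
      rw [h1, hw]
      cases al
      · right; left
        refine ⟨rfl, ?_⟩
        push_cast
        simp
        omega
      · left; rfl
    · rw [hc]
      by_cases hx12 : x ≤ 12
      · rw [hf.reg0 x hx12, hw]
        cases al
        · right; left
          refine ⟨rfl, ?_⟩
          simp
          omega
        · left; rfl
      · rw [hf.reg1 x (by omega), hw]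
        cases al
        · right; right
          simp
          omega
        · right; left
          refine ⟨rfl, ?_⟩
          simp
          omega
    · rw [hc, hc', hf.regn, hw]
      cases al
      · right; right
        simp
        omega
      · right; left
        refine ⟨rfl, ?_⟩
        simp
        omega
  · rcases hc with ⟨-, hc⟩ | ⟨hc, -⟩ | ⟨hc, -⟩
    · right; omega
    · left
      rw [hc, hf.kind]
      cases al <;> simp
    · left
      rw [hc]
      exact hf.nfirst

private theorem tn_c6 : tnChk (fun x y => decide (x = 28 → y ≠ 0 → 2 ∣ x + y →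
    stN2r.get x y = stN2.get x y)) = true := by decide +kernel

private theorem tn_c7 : stN2.get 25 1 = bm := by decide +kernel

private theorem tn_w1 (al : Bool) : wtrk al ≤ 1 := by cases al <;> decide

private theorem tn_isDark (hC : C.Ok) {x y : ℤ} (hx : -4 ≤ x) (hx1 : x ≤ 28) (hy : -4 ≤ y)
    (hy1 : y ≤ 12) (hd : 2 ∣ x + y) :
    IsDark C.g.N ((28 * (C.ct al : ℤ) + x, 12 + 8 * (wtrk al : ℤ) + y) : Square) := by
  have hf := tn_facts hC al
  have h1 := hf.c1
  have h2 := hf.len
  have h3 := hf.N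
  have h4 := hC.size
  have h5 := tn_w1 al
  refine ⟨?_, ?_, ?_, ?_, ?_⟩ <;> simp only <;> omega

/-- The square `(25, 1)`. -/
private theorem tn_cell25 (hC : C.Ok) :
    cell C.g.N C.g.sg (C.op (C.ct al)) 25 (12 + 8 * (wtrk al : ℤ) + 1).toNat = bm := by
  have hf := tn_facts hC al
  have hsg := hC.sg24
  have hreg := hf.reg1 25 (by omega)
  have hcor := hf.cor
  have hk := hf.kind
  have hw : wtrk al = if al then 0 else 1 := rfl
  unfold cell
  rw [if_neg, if_neg, if_neg, if_neg, if_neg, if_neg, if_neg, if_neg, if_neg, hreg]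
  · cases al
    · rw [hw]; decide
    · rw [hw]; decide
  · have := tn_w1 al; omega
  · have := tn_w1 al; omega
  · have := tn_w1 al; omega
  · have := tn_w1 al; omega
  · rw [hk]
    rintro ⟨h, -⟩
    cases al <;> simp at h
  · rintro ⟨h, -⟩; omega
  · rintro ⟨h, -⟩; omega
  · rintro ⟨h, -⟩; omega
  · rintro ⟨-, -, -, h, -⟩; omega

/-- The board left of the wave. -/
private theorem tn_kwin (hC : C.Ok) {κ : KC} {x y : ℤ} (hx : -4 ≤ x) (hx1 : x ≤ 27)
    (hy : -4 ≤ y) (hy1 : y ≤ 12) (hd : 2 ∣ x + y) (hne : ¬ (x = 27 ∧ y = 1)) :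
    C.g.kboard C.cL κ (28 * (C.ct al : ℤ) + x, 12 + 8 * (wtrk al : ℤ) + y) = stN2.get x y := by
  have hf := tn_facts hC al
  have hdark := tn_isDark (al := al) hC hx (by omega) hy hy1 hd
  have hw1 := tn_w1 al
  have hc1 := hf.c1
  obtain ⟨Y, hY⟩ : ∃ Y : ℕ, (Y : ℤ) = 12 + 8 * (wtrk al : ℤ) + y :=
    ⟨(12 + 8 * (wtrk al : ℤ) + y).toNat, by omega⟩
  have hYn : (12 + 8 * (wtrk al : ℤ) + y).toNat = Y := by omega
  rcases lt_or_ge x 0 with hx0 | hx0
  · -- the tile to the left
    obtain ⟨c, hc⟩ : ∃ c : ℕ, c + 1 = C.ct al := ⟨C.ct al - 1, by omega⟩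
    obtain ⟨X, hX⟩ : ∃ X : ℕ, (X : ℤ) = x + 28 := ⟨(x + 28).toNat, by omega⟩
    have e1 : 28 * (C.ct al : ℤ) + x = 28 * (c : ℤ) + (X : ℤ) := by
      rw [← hc]; push_cast; omega
    rw [e1, ← hY] at hdark ⊢
    rw [tn_kb (al := al) hC (by omega) (by omega) (by omega) hdark]
    have h1 := tn_cell (al := al) hC (c := c) (x := X) (y := y) (by omega) hy hy1 (by omega)
      (Or.inl ⟨hc, by omega⟩)
    rw [hYn] at h1
    rw [h1, hX]
    have h2 := of_decide_eq_true (tn_chk tn_c2 hx (by omega) hy hy1)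
    exact h2 (by omega)
  · -- the tile itself
    obtain ⟨X, hX⟩ : ∃ X : ℕ, (X : ℤ) = x := ⟨x.toNat, by omega⟩
    have e1 : 28 * (C.ct al : ℤ) + x = 28 * ((C.ct al : ℕ) : ℤ) + (X : ℤ) := by omega
    rw [e1, ← hY] at hdark ⊢
    rw [tn_kb (al := al) hC (by omega) (by omega) (by omega) hdark]
    by_cases hcase : x ≤ 0 ∨ 24 ≤ x ∨ y = -4
    · by_cases h25 : 24 ≤ x ∧ y = 1
      · have hx25 : x = 25 := by omega
        have hX25 : X = 25 := by omega
        have h1 := tn_cell25 (al := al) hC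
        rw [← h25.2, hYn] at h1
        rw [hX25, h1, hx25, h25.2, tn_c7]
      · have h1 := tn_cell (al := al) hC (c := C.ct al) (x := X) (y := y) (by omega) hy hy1
          (by omega) (Or.inr (Or.inl ⟨rfl, by omega⟩))
        rw [hYn] at h1
        rw [h1, hX]
        have h2 := of_decide_eq_true (tn_chk tn_c1 hx (by omega) hy hy1)
        exact h2 hcase h25
    · have hin : (C.op (C.ct al)).InTile X Y := by
        have hk := hf.kind
        refine ⟨?_, ?_, by omega, by omega, ?_, ?_⟩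
        · rw [hk]; cases al <;> simp
        · rw [hk]; cases al <;> simp
        · rw [hf.trk]; omega
        · rw [hf.trk, hf.ytop]; omega
      unfold cell
      rw [if_pos hin, hf.st, hf.trk, hX]
      have e2 : (Y : ℤ) - (12 + 8 * (wtrk al : ℕ)) = y := by omega
      rw [e2]

/-- The board after the passage of the wave. -/
private theorem tn_ewin (hC : C.Ok) {κ : KC} {x y : ℤ} (hx : 24 ≤ x) (hx1 : x ≤ 28)
    (hy : -4 ≤ y) (hy1 : y ≤ 12) (hd : 2 ∣ x + y) :
    C.g.eboard C.cL C.cN al κ (28 * (C.ct al : ℤ) + x, 12 + 8 * (wtrk al : ℤ) + y) =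
      stN2r.get x y := by
  have hf := tn_facts hC al
  have hdark := tn_isDark (al := al) hC (by omega) hx1 hy hy1 hd
  have hw1 := tn_w1 al
  have hcN := hf.cN
  obtain ⟨Y, hY⟩ : ∃ Y : ℕ, (Y : ℤ) = 12 + 8 * (wtrk al : ℤ) + y :=
    ⟨(12 + 8 * (wtrk al : ℤ) + y).toNat, by omega⟩
  have hYn : (12 + 8 * (wtrk al : ℤ) + y).toNat = Y := by omega
  have key : ∀ c X : ℕ, (c = C.ct al ∧ (X : ℤ) = x ∧ x ≤ 27) ∨
      (c = C.ct al + 1 ∧ X = 0 ∧ x = 28) →
      ecell C.g.N C.g.sg C.cN al (C.op c) c X Y = stN2r.get x y := by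
    intro c X hc
    have h4 := of_decide_eq_true (tn_chk tn_c4 (x := x) (y := y) (by omega) hx1 hy hy1)
    obtain ⟨h40, h41, h42⟩ := h4 hx
    unfold ecell
    rw [if_neg (by rintro ⟨h, -⟩; omega)]
    by_cases hy0 : y = 0
    · rw [if_pos ⟨by omega, by omega⟩, h40 hy0 hd]
    rw [if_neg (by rintro ⟨-, h⟩; omega)]
    by_cases hy1' : y = 1
    · rw [if_pos ⟨by omega, by omega⟩, h41 hy1']
    rw [if_neg (by rintro ⟨-, h⟩; omega)]
    by_cases hy2 : y = 2
    · rw [if_pos ⟨by omega, by omega⟩, h42 hy2 hd]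
    rw [if_neg (by rintro ⟨-, h⟩; omega)]
    have h3 := of_decide_eq_true (tn_chk tn_c3 (x := x) (y := y) (by omega) hx1 hy hy1)
    rw [← h3 hx hy0 hy1' hy2]
    rcases hc with ⟨hc, hX, hx27⟩ | ⟨hc, hX, hx28⟩
    · have h1 := tn_cell (al := al) hC (c := c) (x := X) (y := y) (by omega) hy hy1
        (by omega) (Or.inr (Or.inl ⟨hc, by omega⟩))
      rw [hYn] at h1
      rw [h1, hX]
    · have h1 := tn_cell (al := al) hC (c := c) (x := X) (y := y) (by omega) hy hy1
        (by omega) (Or.inr (Or.inr ⟨hc, hX⟩))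
      rw [hYn] at h1
      rw [h1, hX]
      have h5 := of_decide_eq_true (tn_chk tn_c5 (x := x) (y := y) (by omega) hx1 hy hy1)
      exact h5 hx28
  rcases lt_or_ge x 28 with hx28 | hx28
  · obtain ⟨X, hX⟩ : ∃ X : ℕ, (X : ℤ) = x := ⟨x.toNat, by omega⟩
    have e1 : 28 * (C.ct al : ℤ) + x = 28 * ((C.ct al : ℕ) : ℤ) + (X : ℤ) := by omega
    rw [e1, ← hY] at hdark ⊢
    rw [tn_eb hC (by omega) (by omega) (by omega) hdark]
    exact key _ _ (Or.inl ⟨rfl, hX, by omega⟩)
  · have e1 : 28 * (C.ct al : ℤ) + x = 28 * ((C.ct al + 1 : ℕ) : ℤ) + ((0 : ℕ) : ℤ) := by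
      push_cast; omega
    rw [e1, ← hY] at hdark ⊢
    rw [tn_eb hC (by omega) (by omega) (by omega) hdark]
    exact key _ _ (Or.inr ⟨rfl, rfl, by omega⟩)

/-! ### comparison of the boards -/

private theorem tn_kb_eb {κ : KC} {s : Square}
    (h1 : s.1 < 28 * (C.cN : ℤ) ∨ 34 < s.2) (h2 : s.2 < 12 + 8 * (wtrk al : ℤ) ∨
      14 + 8 * (wtrk al : ℤ) < s.2) :
    C.g.kboard C.cL κ s = C.g.eboard C.cL C.cN al κ s := by
  unfold Geo.kboard Geo.eboard
  by_cases hd : IsDark C.g.N s
  · rw [if_pos hd, if_pos hd]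
    obtain ⟨d1, d2, d3, d4, -⟩ := hd
    rcases hk : kingAt C.g.N C.cL κ (C.g.ops.getD (s.1.toNat / 28) default) (s.1.toNat / 28)
      (s.1.toNat % 28) s.2.toNat with _ | p
    · simp only
      unfold ecell
      rw [if_neg, if_neg, if_neg, if_neg]
      · rintro ⟨-, h⟩; omega
      · rintro ⟨-, h⟩; omega
      · rintro ⟨-, h⟩; omega
      · rintro ⟨h, h', h''⟩; omega
    · rfl
  · rw [if_neg hd, if_neg hd]

private theorem tn_kings (hC : C.Ok) {κ : KC} {s : Square} (h : C.g.kboard C.cL κ s = wk) :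
    C.g.eboard C.cL C.cN al κ s = wk := by
  unfold Geo.kboard at h
  by_cases hd : IsDark C.g.N s
  · rw [if_pos hd] at h
    unfold Geo.eboard
    rw [if_pos hd]
    rcases hk : kingAt C.g.N C.cL κ (C.g.ops.getD (s.1.toNat / 28) default) (s.1.toNat / 28)
      (s.1.toNat % 28) s.2.toNat with _ | p
    · rw [hk] at h
      simp only at h
      have hb : C.g.board s = wk := by
        unfold Geo.board
        rw [if_pos hd]
        exact h
      have := (board_man hC hb).2
      simp at this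
    · rw [hk] at h
      exact h
  · rw [if_neg hd] at h
    exact absurd h (by simp)

private theorem tn_wb_dark {c : ℕ} {s : Square} {p : Piece} (h : C.wb al κ c s = some p) :
    IsDark C.g.N s := by
  unfold Circ.wb Geo.wboard at h
  split_ifs at h with h1 h2
  · exact eb_dark (C := C) (al := al) (κ := κ) (xd := false) (kd := al) s p h
  · exact kboard_dark s p h

/-- The window at the turning tile. -/
private def tnFrame (hC : C.Ok) (al : Bool) : Frame where
  N := C.g.N
  X := 28 * C.ct al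
  Y := 12 + 8 * wtrk al
  zl := 4
  zn := 13
  hzl := by omega
  hzn := by omega
  hX := by have := (tn_facts hC al).c1; omega
  hX' := by have := (tn_facts hC al).len; have := (tn_facts hC al).N; omega
  hY := by omega
  hY' := by
    have := tn_w1 al
    have := hC.size
    push_cast
    omega
  hp := by omega

private theorem tn_loc (hC : C.Ok) (hj : C.WJump al κ (C.ct al + 1))
    (hwf : ((stN2.restr (full 2 17)).portW 28 0).wf (full 2 17) = true) :
    Loc (tnFrame hC al) ((stN2.restr (full 2 17)).portW 28 0) (C.wb al κ (C.ct al + 1)) where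
  wf := hwf
  agree := by
    intro s hs
    obtain ⟨h1, h2, h3, h4⟩ := hs
    simp only [tnFrame] at h1 h2 h3 h4 ⊢
    obtain ⟨x, hx⟩ : ∃ x : ℤ, x = s.1 - 28 * (C.ct al : ℤ) := ⟨_, rfl⟩
    obtain ⟨y, hy⟩ : ∃ y : ℤ, y = s.2 - (12 + 8 * (wtrk al : ℤ)) := ⟨_, rfl⟩
    have hs' : s = (28 * (C.ct al : ℤ) + x, 12 + 8 * (wtrk al : ℤ) + y) := by
      ext
      · simp only; omega
      · simp only; omega
    rw [← hx] at h1 h2 ⊢
    rw [← hy] at h3 h4 ⊢
    have hy1 : -4 ≤ y := by push_cast at h3; omega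
    have hy2 : y ≤ 12 := by push_cast at h4; omega
    rw [tn_get_portW _ _ _ h1 h2 (by omega)]
    by_cases hpar : 2 ∣ x + y
    · have hr : (stN2.restr (full 2 17)).get x y = stN2.get x y := by
        rw [get_restr, if_pos ((tn_full h1 h2 (by omega) (by push_cast; omega)
          (by push_cast; omega)).2 hpar)]
      rw [hr, hs']
      unfold Circ.wb Geo.wboard
      by_cases hp : (x = 27 ∧ y = 1) ∨ (x = 26 ∧ y = 2)
      · rw [if_pos, if_neg (by omega), if_pos hp]
        rw [Prod.mk.injEq, Prod.mk.injEq]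
        push_cast
        omega
      · rw [if_neg, if_neg hp]
        · by_cases hx28 : x = 28
          · rw [if_pos (by push_cast; omega), tn_ewin hC (by omega) h2 hy1 hy2 hpar]
            by_cases hy0 : y = 0
            · rw [if_pos ⟨hx28, hy0⟩]
              have h4 := of_decide_eq_true (tn_chk tn_c4 (x := x) (y := y) h1 h2 hy1 hy2)
              exact (h4 (by omega)).1 hy0 hpar
            · rw [if_neg (by omega)]
              have h6 := of_decide_eq_true (tn_chk tn_c6 (x := x) (y := y) h1 h2 hy1 hy2)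
              exact h6 hx28 hy0 hpar
          · rw [if_neg (by push_cast; omega), if_neg (by omega),
              tn_kwin hC h1 (by omega) hy1 hy2 hpar (by omega)]
        · rw [Prod.mk.injEq, Prod.mk.injEq]
          push_cast
          omega
    · have hbs : C.wb al κ (C.ct al + 1) s = none := by
        rcases hbs : C.wb al κ (C.ct al + 1) s with _ | p
        · rfl
        · have := (tn_wb_dark hbs).2.2.2.2
          omega
      rw [hbs, if_neg (by omega), if_neg (by omega), get_restr, if_neg]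
      intro h5
      exact hpar ((tn_full h1 h2 (by omega) (by push_cast; omega) (by push_cast; omega)).1 h5)
  jumps := by
    intro p s d hjmp
    obtain ⟨-, h2, -⟩ := hj p s d hjmp
    left
    rw [h2]
    refine ⟨?_, ?_, ?_, ?_⟩ <;> simp only [tnFrame] <;> push_cast <;> omega

private theorem tn_c8 : stN2r.w &&& stN2r.k = 0 := by decide +kernel

private theorem tn_port (hC : C.Ok) {L' : LB} (hfin : finE 4 13 L' stN2r 1 = true) {b' : Board}
    (hb' : Loc (tnFrame hC al) L' b')
    (heq : (tnFrame hC al).EqOff (C.wb al κ (C.ct al + 1)) b') :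
    PortE C.g.N C.top (C.eb al κ false al) (C.ct al + 1) (wtrk al + 1) b' := by
  have hf := tn_facts hC al
  have hw1 := tn_w1 al
  have hcN := hf.cN
  have hsg := hC.sg24
  have hct1 := hf.c1
  unfold finE at hfin
  simp only [Bool.and_eq_true, decide_eq_true_eq, List.all_eq_true] at hfin
  obtain ⟨⟨⟨f1, f2⟩, f3⟩, f4⟩ := hfin
  have hdgs : ∀ d : Dg, d ∈ dgs := by intro d; cases d <;> decide
  have f1' : ∀ d, L'.caps (tnFrame hC al).F .black d = 0 := fun d => f1 d (hdgs d)
  have f2' : ∀ d, L'.caps (tnFrame hC al).F .white d =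
      if d = .ul then 1 <<< ix 28 (8 * (1 : ℕ)) else 0 := fun d => f2 d (hdgs d)
  have htop : C.top = 12 + 8 * (C.g.sg : ℤ) + 12 := rfl
  have hwb : ∀ s : Square, 28 * ((C.ct al + 1 : ℕ) : ℤ) - 4 ≤ s.1 ∨ C.top ≤ s.2 →
      ¬ (tnFrame hC al).InWin s → C.wb al κ (C.ct al + 1) s = C.eb al κ false al s := by
    intro s hs hw
    have hw' : ¬ (-4 ≤ s.1 - 28 * (C.ct al : ℤ) ∧ s.1 - 28 * (C.ct al : ℤ) ≤ 28 ∧
        ((4 : ℕ) : ℤ) - 2 ≤ s.2 - (12 + 8 * (wtrk al : ℤ)) + 6 ∧
        s.2 - (12 + 8 * (wtrk al : ℤ)) + 6 < ((4 : ℕ) : ℤ) + ((13 : ℕ) : ℤ) + 2) := hw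
    push_cast at hw' hs
    unfold Circ.wb Geo.wboard Circ.eb
    have hs' : s = (s.1, s.2) := rfl
    rw [if_neg]
    · by_cases hge : 28 * ((C.ct al + 1 : ℕ) : ℤ) ≤ s.1
      · rw [if_pos hge]
      · rw [if_neg hge]
        push_cast at hge
        refine tn_kb_eb ?_ ?_
        · left; omega
        · rw [htop] at hs
          omega
    · rw [hs', Prod.mk.injEq, Prod.mk.injEq]
      push_cast
      rw [htop] at hs
      omega
  refine ⟨?_, ?_, ?_, ?_, ?_⟩
  · -- to the right of the anchor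
    intro s hs
    by_cases hw : (tnFrame hC al).InWin s
    · have hag := hb'.agree s hw
      obtain ⟨h1, h2, h3, h4⟩ := hw
      simp only [tnFrame] at h1 h2 h3 h4 hag
      obtain ⟨x, hx⟩ : ∃ x : ℤ, x = s.1 - 28 * (C.ct al : ℤ) := ⟨_, rfl⟩
      obtain ⟨y, hy⟩ : ∃ y : ℤ, y = s.2 - (12 + 8 * (wtrk al : ℤ)) := ⟨_, rfl⟩
      have hs' : s = (28 * (C.ct al : ℤ) + x, 12 + 8 * (wtrk al : ℤ) + y) := by
        ext
        · simp only; omega
        · simp only; omega
      rw [← hx] at h1 h2 hag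
      rw [← hy] at h3 h4 hag
      push_cast at hs h3 h4
      have hx24 : 24 ≤ x := by omega
      have hy1 : -4 ≤ y := by omega
      have hy2 : y ≤ 12 := by omega
      have hL : L'.get x y = ((stN2r.restr (full (4 - 2) (13 + 4))).portE 24 1).get x y := by
        have hbit : (rightM (4 - 2) (13 + 4)).testBit (ix x y) = true :=
          tn_rightM hx24 h2 (by omega) (by push_cast; omega) (by push_cast; omega)
        have e1 := get_restr L' (rightM (4 - 2) (13 + 4)) x y
        have e2 := get_restr ((stN2r.restr (full (4 - 2) (13 + 4))).portE 24 1)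
          (rightM (4 - 2) (13 + 4)) x y
        rw [if_pos hbit] at e1 e2
        rw [← e1, ← e2, f3]
      rw [hag, hL, tn_get_portE _ _ _ _ _ (by omega) (by omega) h1 h2 (by omega), portMod]
      have hr : (stN2r.restr (full (4 - 2) (13 + 4))).get x y = C.eb al κ false al s := by
        rw [get_restr]
        by_cases hpar : 2 ∣ x + y
        · rw [if_pos ((tn_full h1 h2 (by omega) (by push_cast; omega)
            (by push_cast; omega)).2 hpar), hs']
          unfold Circ.eb
          rw [tn_ewin hC hx24 h2 hy1 hy2 hpar]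
        · rw [if_neg fun h5 => hpar ((tn_full h1 h2 (by omega) (by push_cast; omega)
            (by push_cast; omega)).1 h5)]
          rcases hbs : C.eb al κ false al s with _ | p
          · rfl
          · have := (eb_dark s p hbs).2.2.2.2
            omega
      rw [hr]
      refine if_congr ?_ rfl (if_congr ?_ rfl rfl)
      · rw [hs', Prod.mk.injEq]
        push_cast
        omega
      · rw [hs', Prod.mk.injEq, Prod.mk.injEq]
        push_cast
        omega
    · have hnz : ¬ (tnFrame hC al).InZone s := by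
        intro hz
        apply hw
        obtain ⟨h1, h2, h3, h4⟩ := hz
        simp only [tnFrame] at h1 h2 h3 h4
        refine ⟨?_, ?_, ?_, ?_⟩ <;> simp only [tnFrame] <;> push_cast at * <;> omega
      have hw' : ¬ (-4 ≤ s.1 - 28 * (C.ct al : ℤ) ∧ s.1 - 28 * (C.ct al : ℤ) ≤ 28 ∧
          ((4 : ℕ) : ℤ) - 2 ≤ s.2 - (12 + 8 * (wtrk al : ℤ)) + 6 ∧
          s.2 - (12 + 8 * (wtrk al : ℤ)) + 6 < ((4 : ℕ) : ℤ) + ((13 : ℕ) : ℤ) + 2) := hw
      push_cast at hw'
      rw [heq s hnz, hwb s (Or.inl hs) hw, portMod]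
      have hs' : s = (s.1, s.2) := rfl
      rw [if_neg, if_neg]
      · rw [hs', Prod.mk.injEq, Prod.mk.injEq]
        push_cast
        omega
      · rw [hs', Prod.mk.injEq]
        push_cast
        omega
  · intro s hs
    have hnw : ¬ (tnFrame hC al).InWin s := by
      rintro ⟨h1, h2, h3, h4⟩
      simp only [tnFrame] at h1 h2 h3 h4
      rw [htop] at hs
      push_cast at h4
      omega
    have hnz : ¬ (tnFrame hC al).InZone s := by
      rintro ⟨h1, h2, h3, h4⟩
      simp only [tnFrame] at h1 h2 h3 h4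
      rw [htop] at hs
      push_cast at h4
      omega
    rw [heq s hnz, hwb s (Or.inr hs) hnw]
  · intro s hs
    by_cases hz : (tnFrame hC al).InZone s
    · have hw : (tnFrame hC al).InWin s := by
        obtain ⟨h1, h2, h3, h4⟩ := hz
        simp only [tnFrame] at h1 h2 h3 h4
        refine ⟨?_, ?_, ?_, ?_⟩ <;> simp only [tnFrame] <;> push_cast at * <;> omega
      have hag := hb'.agree s hw
      rw [hs] at hag
      have h5 := tn_of_get_wk hag.symm
      rw [tn_c8] at f4
      have h6 := tn_sub_testBit f4 h5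
      rw [Nat.zero_testBit] at h6
      exact absurd h6 (by decide)
    · rw [heq s hz] at hs
      unfold Circ.wb Geo.wboard at hs
      split_ifs at hs with h1 h2
      · exact hs
      · exact tn_kings hC hs
  · intro s p hs
    by_cases hz : (tnFrame hC al).InZone s
    · have hw : (tnFrame hC al).InWin s := by
        obtain ⟨h1, h2, h3, h4⟩ := hz
        simp only [tnFrame] at h1 h2 h3 h4
        refine ⟨?_, ?_, ?_, ?_⟩ <;> simp only [tnFrame] <;> push_cast at * <;> omega
      have hag := hb'.agree s hw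
      obtain ⟨h1, h2, h3, h4⟩ := hw
      simp only [tnFrame] at h1 h2 h3 h4 hag
      rw [hs] at hag
      have h5 := tn_get_some_wf hb'.wf hag.symm
      have h6 := (tn_full (lo := 4 - 2) (n := 13 + 4) h1 h2 (by push_cast at *; omega)
        (by push_cast at *; omega) (by push_cast at *; omega)).1 h5
      have hNl := hf.N
      have hlen := hf.len
      have hsize := hC.size
      push_cast at h3 h4
      refine ⟨?_, ?_, ?_, ?_, ?_⟩ <;> omega
    · rw [heq s hz] at hs
      exact tn_wb_dark hs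
  · intro p s d hj
    rcases hcol : p.color with _ | _
    · have hi : (tnFrame hC al).F.testBit (ix 28 (8 * ((1 : ℕ) : ℤ))) = true := by
        show (full (4 - 2) (13 + 4)).testBit _ = true
        exact (tn_full (lo := 4 - 2) (n := 13 + 4) (by omega) (by omega) (by omega)
          (by omega) (by omega)).2 (by omega)
      obtain ⟨h1, h2, h3⟩ := one_jump hi f2' hb' hcol hj
      obtain ⟨g1, g2, g3, g4⟩ := h2
      simp only [tnFrame] at g1 g2 g3 g4 h3
      obtain ⟨e1, e2⟩ := ix_inj g1 (by omega) (by push_cast at *; omega) (by omega) (by omega)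
        (by omega) h3
      refine ⟨rfl, ?_, h1⟩
      ext
      · simp only
        push_cast
        omega
      · simp only
        push_cast at *
        omega
    · exact absurd hj (no_jump f1' hb' hcol)

theorem turn (hC : C.Ok) (hx : C.XOk κ) (hj : C.WJump al κ (C.ct al + 1)) :
    (WinFrom C.g.N C.top (C.eb al κ false al) (C.ct al + 1) (wtrk al + 1) →
      MisereWins C.g.N .white (C.wb al κ (C.ct al + 1)) .white) ∧
    (LoseFrom C.g.N C.top (C.eb al κ false al) (C.ct al + 1) (wtrk al + 1) →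
      ¬ MisereWins C.g.N .white (C.wb al κ (C.ct al + 1)) .white) := by
  have hchk := chk_N
  unfold chkN at hchk
  simp only [Bool.and_eq_true] at hchk
  obtain ⟨hwf, hrun⟩ := hchk
  rcases hr : LB.run (full 2 17) (zone 4 13) uAll .white
      ((stN2.restr (full 2 17)).portW 28 0) mvN2 with _ | ⟨L', c'⟩
  · rw [hr] at hrun
    exact absurd hrun (by simp)
  · rw [hr] at hrun
    rcases c' with _ | _
    · simp only at hrun
      obtain ⟨b', h1, h2, h3, h4⟩ := run_sound (f := tnFrame hC al) hr (tn_loc hC hj hwf)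
      have hp := tn_port hC hrun h1 h2
      constructor
      · intro hW
        exact h3 rfl (hW b' hp)
      · intro hL hw
        exact hL b' hp (h4 rfl hw)
    · exact absurd hrun (by simp)

end Pool.Agent.MC95
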