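import Pool.Agent.MC95.WLaunch
import Pool.Agent.MC95.WStep
import Pool.Agent.MC95.WTurn

/-!
# From the launch to the first eastbound position

PLAN. `launch`, then `west_step` for `c = cN - 1, ..., ct + 1` (downward induction), then `turn`.
-/

namespace Pool.Agent.MC95

variable {C : Circ} {κ : KC} {al : Bool}

private lemma helper61_ct_lt (hC : C.Ok) : C.ct al < C.cN := by
  have h1 := hC.hBA
  have h2 := hC.hAL
  have h3 := hC.hLR
  have h4 := hC.hRN
  unfold Circ.ct
  split_ifs <;> omega

private lemma helper61_west (hC : C.Ok) (hx : C.XOk κ) (hj : C.WJump al κ C.cN) (n : ℕ) :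
    ∀ c : ℕ, C.ct al < c → c + n = C.cN →
    C.WJump al κ c ∧ (MisereWins C.g.N .white (C.wb al κ C.cN) .white ↔
      MisereWins C.g.N .white (C.wb al κ c) .white) := by
  induction n with
  | zero =>
    intro c _ h2
    obtain rfl : c = C.cN := by omega
    exact ⟨hj, Iff.rfl⟩
  | succ n ih =>
    intro c h1 h2
    obtain ⟨a1, a2⟩ := ih (c + 1) (by omega) (by omega)
    obtain ⟨b1, b2⟩ := west_step hC hx h1 (by omega) a1
    exact ⟨b1, a2.trans b2⟩

/-- A launch, from the launching move to the first eastbound position. -/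
theorem launch_sound (hC : C.Ok) (hx : C.XOk κ) (hal : κ.al = some al) :
    (WinFrom C.g.N C.top (C.eb al κ false al) (C.ct al + 1) (wtrk al + 1) →
      MisereWins C.g.N .white (C.g.lboard C.cL C.cN al κ) .black) ∧
    (LoseFrom C.g.N C.top (C.eb al κ false al) (C.ct al + 1) (wtrk al + 1) →
      ¬ MisereWins C.g.N .white (C.g.lboard C.cL C.cN al κ) .black) := by
  obtain ⟨a1, a2⟩ := launch hC hx hal
  have hlt := helper61_ct_lt (al := al) hC
  obtain ⟨b1, b2⟩ := helper61_west hC hx a1 (C.cN - (C.ct al + 1)) (C.ct al + 1) (by omega)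
    (by omega)
  obtain ⟨t1, t2⟩ := turn hC hx b1
  refine ⟨fun h => ?_, fun h => ?_⟩
  · exact a2.2 (b2.2 (t1 h))
  · exact fun h' => t2 h (b2.1 (a2.1 h'))

end Pool.Agent.MC95
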