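import Pool.Agent.MC95.LTrans
import Pool.Agent.MC95.SemSound
import Pool.Agent.MC95.WPhase
import Pool.Agent.MC95.Quiet

/-!
# Misère checkers on the board of a circuit and the abstract game

PLAN. `kb_congr`: `kboard` depends on `κ.y` only at the columns of the tiles Y. `kb_update`: hence
changing `s.y k` is changing the king in the column `c` of the `k`-th tile Y (`cnt .Y ops c = k`),
the map `c ↦ cnt .Y ops c` being injective on these columns, with image `{0, ..., K.m - 1}`
(`exists_col`). `claim_W`, `claim_L`: `semW_of_aW`, `semW_sound` (with `c = C.ct s.al + 1`,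
`t = wtrk s.al + 1`, `xd = false`, `kd = s.al`), `launch_sound`.
`conn_W`: induction on `AWin`; a claim is the launch (`kboard_white_moves`, last case), a move of
the abstract game is a legal move by `kboard_white_moves`, and every legal move of Black is a
`BMove` by `kboard_black_moves` (the move of the king in the corner is a pass). `conn_L`: induction on
`MisereWins` with the statement for both players to move: White to move at `kboard (kcOf ops s tog)`
gives `AWin K false s`; Black to move gives `∀ s'', BMove K s s'' → AWin K false s''`. White always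
has a legal move. (Generalize the board and the player for the induction.)
-/

namespace Pool.Agent.MC95

variable {C : Circ} {K : Ckt}

/-- The abstract game of a circuit. -/
structure Link (C : Circ) (K : Ckt) : Prop where
  m : num .Y C.g.ops = K.m
  len : C.len = K.Lc
  stop : ∀ c < C.g.ops.length, (C.op c).kind = .T → C.stopAt c = K.stop (cnt .T C.g.ops c)
  cnt0 : ∀ al, cnt .Y C.g.ops (C.ct al + 1) = 0 ∧ cnt .T C.g.ops (C.ct al + 1) = 0
  W : ∀ s : AS, s.a = false → K.Claim s →
    aW C.g.sg K.stop s (C.g.ops.drop (C.ct s.al + 1)) 0 0 (wtrk s.al + 1) false s.al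
  L : ∀ s : AS, ¬ K.Claim s →
    aL C.g.sg K.stop s (C.g.ops.drop (C.ct s.al + 1)) 0 0 (wtrk s.al + 1)

theorem kb_congr {κ κ' : KC} (h1 : κ.al = κ'.al) (h2 : κ.x = κ'.x) (h3 : κ.a = κ'.a)
    (h4 : ∀ c < C.g.ops.length, (C.op c).kind = .Y → κ.y c = κ'.y c) (h5 : κ.tog = κ'.tog) :
    C.g.kboard C.cL κ = C.g.kboard C.cL κ' := by
  funext s
  unfold Geo.kboard
  by_cases hd : IsDark C.g.N s
  · rw [if_pos hd, if_pos hd]
    have hlt : s.1.toNat / 28 < C.g.ops.length := by
      obtain ⟨a1, a2, -⟩ := hd
      have hN : C.g.N = 28 * C.g.ops.length := rfl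
      omega
    have hk : kingAt C.g.N C.cL κ (C.g.ops.getD (s.1.toNat / 28) default) (s.1.toNat / 28)
        (s.1.toNat % 28) s.2.toNat = kingAt C.g.N C.cL κ'
        (C.g.ops.getD (s.1.toNat / 28) default) (s.1.toNat / 28) (s.1.toNat % 28)
        s.2.toNat := by
      have h4' := h4 _ hlt
      unfold Circ.op at h4'
      unfold kingAt
      rw [h2]
      by_cases hc : (κ'.x = some (28 * (s.1.toNat / 28) + s.1.toNat % 28 - (28 * C.cL + 14)) ∧
          28 * C.cL + 14 ≤ 28 * (s.1.toNat / 28) + s.1.toNat % 28 ∧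
          1 ≤ (C.g.ops.getD (s.1.toNat / 28) default).cor ∧
          (C.g.ops.getD (s.1.toNat / 28) default).cor ≤ 3 ∧
          s.2.toNat = 12 + 8 * bT +
            corRow (C.g.ops.getD (s.1.toNat / 28) default) (s.1.toNat % 28))
      · rw [if_pos hc, if_pos hc]
      · rw [if_neg hc, if_neg hc]
        cases hkd : (C.g.ops.getD (s.1.toNat / 28) default).kind
        case Y => simp only [h4' hkd]
        all_goals simp only [h1, h3, h5]
    rw [hk]
  · rw [if_neg hd, if_neg hd]

private theorem cn_num_cons (kd : Kind) (o : Op) (l : List Op) :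
    num kd (o :: l) = num kd l + if o.kind = kd then 1 else 0 := by
  unfold num
  rw [List.countP_cons]
  by_cases h : o.kind = kd <;> simp [h]

private theorem cn_col (kd : Kind) : ∀ (l : List Op) (k : ℕ), k < num kd l →
    ∃ c < l.length, (l.getD c default).kind = kd ∧ cnt kd l c = k := by
  intro l
  induction l with
  | nil =>
    intro k hk
    exact absurd hk (by simp [num])
  | cons o l ih =>
    intro k hk
    rw [cn_num_cons] at hk
    have hc : ∀ c, cnt kd (o :: l) (c + 1) = cnt kd l c + if o.kind = kd then 1 else 0 := by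
      intro c
      unfold cnt
      rw [List.take_succ_cons, cn_num_cons]
    by_cases ho : o.kind = kd
    · rw [if_pos ho] at hk
      rcases k with _ | k
      · exact ⟨0, by simp, by simpa using ho, by simp [cnt, num]⟩
      · obtain ⟨c, h1, h2, h3⟩ := ih k (by omega)
        refine ⟨c + 1, by simpa using h1, by simpa using h2, ?_⟩
        rw [hc, if_pos ho, h3]
    · rw [if_neg ho] at hk
      obtain ⟨c, h1, h2, h3⟩ := ih k (by omega)
      refine ⟨c + 1, by simpa using h1, by simpa using h2, ?_⟩
      rw [hc, if_neg ho, h3, Nat.add_zero]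

private theorem cn_mono (kd : Kind) (l : List Op) {c c' : ℕ} (h : c ≤ c') :
    cnt kd l c ≤ cnt kd l c' := by
  unfold cnt num
  exact (List.take_sublist_take_left h).countP_le

private theorem cn_drop {c : ℕ} (hc : c < C.g.ops.length) :
    C.g.ops.drop c = C.op c :: C.g.ops.drop (c + 1) := by
  rw [List.drop_eq_getElem_cons hc]
  unfold Circ.op
  rw [List.getD_eq_getElem _ _ hc]

private theorem cn_succ {c : ℕ} (hc : c < C.g.ops.length) (hk : (C.op c).kind = .Y) :
    cnt .Y C.g.ops (c + 1) = cnt .Y C.g.ops c + 1 := by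
  rw [cnt_succ (cn_drop hc) .Y, if_pos hk]

private theorem cn_inj {c c' : ℕ} (hc : c < C.g.ops.length) (hk : (C.op c).kind = .Y)
    (hc' : c' < C.g.ops.length) (hk' : (C.op c').kind = .Y)
    (h : cnt .Y C.g.ops c = cnt .Y C.g.ops c') : c = c' := by
  rcases lt_trichotomy c c' with h1 | h1 | h1
  · have h2 := cn_mono .Y C.g.ops (Nat.succ_le_of_lt h1)
    rw [Nat.succ_eq_add_one, cn_succ hc hk] at h2
    omega
  · exact h1
  · have h2 := cn_mono .Y C.g.ops (Nat.succ_le_of_lt h1)
    rw [Nat.succ_eq_add_one, cn_succ hc' hk'] at h2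
    omega

theorem exists_col (hK : Link C K) {k : ℕ} (hk : k < K.m) :
    ∃ c < C.g.ops.length, (C.op c).kind = .Y ∧ cnt .Y C.g.ops c = k := by
  rw [← hK.m] at hk
  exact cn_col .Y C.g.ops k hk

theorem cnt_lt (hK : Link C K) {c : ℕ} (hc : c < C.g.ops.length) (hk : (C.op c).kind = .Y) :
    cnt .Y C.g.ops c < K.m := by
  rw [← hK.m]
  have h1 := cn_succ hc hk
  have h2 : cnt .Y C.g.ops (c + 1) ≤ num .Y C.g.ops := by
    unfold cnt num
    exact (List.take_sublist _ _).countP_le
  omega

theorem kb_update (hK : Link C K) {s : AS} {tog : Bool} {c : ℕ} (hc : c < C.g.ops.length)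
    (hk : (C.op c).kind = .Y) :
    C.g.kboard C.cL { kcOf C.g.ops s tog with
      y := Function.update (kcOf C.g.ops s tog).y c !((kcOf C.g.ops s tog).y c) } =
    C.g.kboard C.cL (kcOf C.g.ops { s with
      y := Function.update s.y (cnt .Y C.g.ops c) !(s.y (cnt .Y C.g.ops c)) } tog) := by
  refine kb_congr rfl rfl rfl ?_ rfl
  intro c' hc' hk'
  show Function.update (fun c => s.y (cnt .Y C.g.ops c)) c (!(s.y (cnt .Y C.g.ops c))) c' =
    Function.update s.y (cnt .Y C.g.ops c) (!(s.y (cnt .Y C.g.ops c))) (cnt .Y C.g.ops c')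
  by_cases h : c' = c
  · subst h
    rw [Function.update_self, Function.update_self]
  · rw [Function.update_of_ne h, Function.update_of_ne]
    intro h1
    exact h (cn_inj hc' hk' hc hk h1)

private theorem cn_xok (hK : Link C K) {s : AS} (hs : s.x ≤ K.Lc) (tog : Bool) :
    C.XOk (kcOf C.g.ops s tog) := by
  intro i hi
  have h1 : some s.x = some i := hi
  cases h1
  have h2 := hK.len
  unfold Circ.len at h2
  omega

theorem claim_W (hC : C.Ok) (hK : Link C K) {s : AS} (hs : s.x ≤ K.Lc) (ha : s.a = false)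
    (hc : K.Claim s) (tog : Bool) :
    MisereWins C.g.N .white (C.g.lboard C.cL C.cN s.al (kcOf C.g.ops s tog)) .black := by
  have hx := cn_xok hK hs tog
  refine (launch_sound hC hx (al := s.al) rfl).1 ?_
  refine semW_sound hC hx _ _ _ _ _ rfl (by omega) (fun h => h) ?_
  refine semW_of_aW hK.stop _ _ _ _ _ rfl ?_
  rw [(hK.cnt0 s.al).1, (hK.cnt0 s.al).2]
  exact hK.W s ha hc

theorem claim_L (hC : C.Ok) (hK : Link C K) {s : AS} (hs : s.x ≤ K.Lc) (hc : ¬ K.Claim s)
    (tog : Bool) :
    ¬ MisereWins C.g.N .white (C.g.lboard C.cL C.cN s.al (kcOf C.g.ops s tog)) .black := by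
  have hx := cn_xok hK hs tog
  refine (launch_sound hC hx (al := s.al) rfl).2 ?_
  refine semL_sound hC hx _ _ _ rfl (by omega) ?_
  refine semL_of_aL hK.stop _ _ _ rfl ?_
  rw [(hK.cnt0 s.al).1, (hK.cnt0 s.al).2]
  exact hK.L s hc

theorem conn_W (hC : C.Ok) (hK : Link C K) {s : AS} (h : AWin K true s) (hs : s.x ≤ K.Lc)
    (tog : Bool) : MisereWins C.g.N .white (C.g.kboard C.cL (kcOf C.g.ops s tog)) .white := by
  induction h generalizing tog with
  | @claim s hc ha =>
    have hx := cn_xok hK hs tog
    refine MisereWins.own ((kboard_white_moves hC hx (by simp [kcOf]) _).2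
      (Or.inr (Or.inr (Or.inr (Or.inr ⟨s.al, rfl, rfl⟩))))) ?_
    exact claim_W hC hK hs (ha rfl) hc tog
  | @move s s' hm hb ih =>
    have hx := cn_xok hK hs tog
    have key : s'.x ≤ K.Lc ∧ Legal C.g.N .white (C.g.kboard C.cL (kcOf C.g.ops s tog))
        (C.g.kboard C.cL (kcOf C.g.ops s' tog)) := by
      cases hm with
      | al =>
        exact ⟨hs, (kboard_white_moves hC hx (by simp [kcOf]) _).2 (Or.inl ⟨s.al, rfl, rfl⟩)⟩
      | right h =>
        exact ⟨h, (kboard_white_moves hC hx (by simp [kcOf]) _).2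
          (Or.inr (Or.inl ⟨s.x, by rw [hK.len]; exact h, rfl, rfl⟩))⟩
      | left h =>
        refine ⟨(by show s.x - 1 ≤ K.Lc; omega), (kboard_white_moves hC hx (by simp [kcOf]) _).2
          (Or.inr (Or.inr (Or.inl ⟨s.x - 1, ?_, rfl⟩)))⟩
        show some s.x = some (s.x - 1 + 1)
        rw [Nat.sub_add_cancel h]
      | a =>
        exact ⟨hs, (kboard_white_moves hC hx (by simp [kcOf]) _).2
          (Or.inr (Or.inr (Or.inr (Or.inl rfl))))⟩
    obtain ⟨hs', hl⟩ := key
    have hx' := cn_xok hK hs' tog
    refine MisereWins.own hl ?_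
    show MisereWins C.g.N .white _ .black
    rw [misere_black_iff]
    refine ⟨⟨_, (kboard_black_moves hC hx' _).2 (Or.inl rfl)⟩, ?_⟩
    intro b' hb'
    rcases (kboard_black_moves hC hx' b').1 hb' with rfl | ⟨c, hc, hk, rfl⟩
    · exact ih s' (BMove.pass s') hs' (!tog)
    · rw [kb_update hK hc hk]
      exact ih _ (BMove.y s' _ (cnt_lt hK hc hk)) hs' tog

private theorem cn_L (hC : C.Ok) (hK : Link C K) {b : Board} {t : Color}
    (h : MisereWins C.g.N .white b t) :
    (t = .white → ∀ (s : AS) (tog : Bool), s.x ≤ K.Lc →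
      b = C.g.kboard C.cL (kcOf C.g.ops s tog) → AWin K false s) ∧
    (t = .black → ∀ (s : AS) (tog : Bool), s.x ≤ K.Lc →
      b = C.g.kboard C.cL (kcOf C.g.ops s tog) → ∀ s'', BMove K s s'' → AWin K false s'') := by
  induction h with
  | @stuck b h =>
    refine ⟨?_, fun ht => (by cases ht)⟩
    intro _ s tog hs hb
    subst hb
    have hx := cn_xok hK hs tog
    exact absurd ((kboard_white_moves hC hx (by simp [kcOf]) _).2
      (Or.inr (Or.inr (Or.inr (Or.inl rfl))))) (h _)
  | @own b b' h hw ih =>
    refine ⟨?_, fun ht => (by cases ht)⟩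
    intro _ s tog hs hb
    subst hb
    have hx := cn_xok hK hs tog
    rcases (kboard_white_moves hC hx (by simp [kcOf]) _).1 h with ⟨u, h1, h2⟩ | ⟨i, hi, h1, h2⟩ |
      ⟨i, h1, h2⟩ | h2 | ⟨u, h1, h2⟩
    · have e : some s.al = some u := h1
      cases e
      exact AWin.move (WMove.al s) (ih.2 rfl { s with al := !s.al } tog hs h2)
    · have e : some s.x = some i := h1
      cases e
      have hi' : s.x < K.Lc := by rw [← hK.len]; exact hi
      exact AWin.move (WMove.right s hi') (ih.2 rfl { s with x := s.x + 1 } tog hi' h2)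
    · have e : s.x = i + 1 := Option.some.inj h1
      have e2 : i = s.x - 1 := by omega
      subst e2
      exact AWin.move (WMove.left s (by omega))
        (ih.2 rfl { s with x := s.x - 1 } tog (by show s.x - 1 ≤ K.Lc; omega) h2)
    · exact AWin.move (WMove.a s) (ih.2 rfl { s with a := !s.a } tog hs h2)
    · have e : some s.al = some u := h1
      cases e
      by_cases hc : K.Claim s
      · exact AWin.claim hc (fun h => by cases h)
      · subst h2
        exact absurd hw (claim_L hC hK hs hc tog)
  | @other b h hw ih =>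
    refine ⟨fun ht => (by cases ht), ?_⟩
    intro _ s tog hs hb s'' hm
    subst hb
    have hx := cn_xok hK hs tog
    cases hm with
    | pass =>
      exact (ih _ ((kboard_black_moves hC hx _).2 (Or.inl rfl))).1 rfl s (!tog) hs rfl
    | y k hk =>
      obtain ⟨c, hc, hkd, hcnt⟩ := exists_col hK hk
      subst hcnt
      refine (ih _ ((kboard_black_moves hC hx _).2 (Or.inr ⟨c, hc, hkd, rfl⟩))).1 rfl _ tog ?_
        (kb_update hK hc hkd)
      exact hs

theorem conn_L (hC : C.Ok) (hK : Link C K) {s : AS} {tog : Bool} (hs : s.x ≤ K.Lc)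
    (h : MisereWins C.g.N .white (C.g.kboard C.cL (kcOf C.g.ops s tog)) .white) :
    AWin K false s := by
  exact (cn_L hC hK h).1 rfl s tog hs rfl

end Pool.Agent.MC95
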