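import Pool.Agent.MC95.Run
import Pool.Agent.MC95.Chk

/-!
# Waves between two columns of the circuit

A wave on track `t` in front of column `c` of the circuit: to the right of the anchor the board
`b` is the board `base`, except for the three squares of the port.

PLAN. `glueE`: let `b` satisfy `PortE N top base c (k + tin) b`. Use the frame with
`X = 28 * c`, `Y = 12 + 8 * k`, `zl`, `zn` (`FrameOk` gives its fields) and the local board
`L = (st.restr F).portE (-4) tin`. `Loc f L b`: well-formedness is part of `chkE`; agreement by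
`hst`, `get_restr`, `get_put` (the squares of the port are in the window by `hin`; light squares are
empty on both sides by `dark` and `LB.wf`); the only possible jump is that of the port, whose
landing square `(-2, 8 * tin + 2)` is in the zone by `hin`. Apply `run_sound`, which gives `b'` with
local board `L'` and the two implications. `PortE N top base' (c + 1) (k + tout) b'`: `right` by the
third part of `finE` in the window and by `hoff` and `PortE.right` outside; `high` since the zone
ends below `top`; `kings` by the last part of `finE` in the window, by `hoff` outside; `dark` in the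
window by `LB.wf`; `jump` by `one_jump`, `no_jump` and `ix_inj`.
`glueF`: the same with `run_sound`, `fork_sound`, and `run_sound` for the two branches.
-/

namespace Pool.Agent.MC95

/-- The board `base` with a port with the anchor `(a, y)`. -/
def portMod (base : Board) (a y : ℤ) : Board := fun s =>
  if s = (a, y) then bm else if s = (a + 1, y + 1) ∨ s = (a + 2, y + 2) then none else base s

/-- The board `b` has a wave on track `t` in front of column `c`; White is to move. Rows from `top`
on are untouched, and all White kings are on squares where `base` has White kings. -/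
structure PortE (N : ℕ) (top : ℤ) (base : Board) (c t : ℕ) (b : Board) : Prop where
  right : ∀ s : Square, 28 * (c : ℤ) - 4 ≤ s.1 →
    b s = portMod base (28 * (c : ℤ) - 4) (12 + 8 * (t : ℤ)) s
  high : ∀ s : Square, top ≤ s.2 → b s = base s
  kings : ∀ s, b s = wk → base s = wk
  dark : ∀ s p, b s = some p → IsDark N s
  jump : ∀ p s d, CanJump N b p s d →
    p.color = .white ∧ s = (28 * (c : ℤ), 12 + 8 * (t : ℤ)) ∧ d = (-1, 1)

/-- White wins whenever there is a wave on track `t` in front of column `c`. -/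
def WinFrom (N : ℕ) (top : ℤ) (base : Board) (c t : ℕ) : Prop :=
  ∀ b, PortE N top base c t b → MisereWins N .white b .white

/-- White does not win when there is a wave on track `t` in front of column `c`. -/
def LoseFrom (N : ℕ) (top : ℤ) (base : Board) (c t : ℕ) : Prop :=
  ∀ b, PortE N top base c t b → ¬ MisereWins N .white b .white

/-- The window of `base` at column `c`, with the rows counted from track `k`, is described by the
local board `st`; the rows are those with `zl - 2 ≤ y + 6 < zl + zn + 2`. -/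
def WinEq (base : Board) (c k zl zn : ℕ) (st : LB) : Prop :=
  ∀ x y : ℤ, -4 ≤ x → x ≤ 28 → (zl : ℤ) - 2 ≤ y + 6 → y + 6 < zl + zn + 2 →
    base (28 * (c : ℤ) + x, 12 + 8 * (k : ℤ) + y) = st.get x y

/-- The square `s` is in the zone of column `c`, with the rows counted from track `k`. -/
def InZ (c k zl zn : ℕ) (s : Square) : Prop :=
  -2 ≤ s.1 - 28 * (c : ℤ) ∧ s.1 - 28 * (c : ℤ) ≤ 26 ∧ (zl : ℤ) ≤ s.2 - (12 + 8 * (k : ℤ)) + 6 ∧
    s.2 - (12 + 8 * (k : ℤ)) + 6 < zl + zn

/-- Conditions on the position of a window. -/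
structure FrameOk (N : ℕ) (top : ℤ) (c k zl zn : ℕ) : Prop where
  hzl : 2 ≤ zl
  hzn : 0 < zn
  hc : 1 ≤ c
  hc' : 28 * c + 28 < N
  hN : 12 + 8 * k + zl + zn ≤ N + 3
  htop : (12 + 8 * (k : ℤ)) + zl + zn - 6 ≤ top

/-! ### bits -/

private theorem port_clr_bit (n i j : ℕ) :
    (if n.testBit i then n ^^^ (1 <<< i) else n).testBit j = (decide (j ≠ i) && n.testBit j) := by
  by_cases h : n.testBit i = true
  · rw [if_pos h, Nat.testBit_xor, Nat.one_shiftLeft, Nat.testBit_two_pow]
    by_cases h2 : j = i
    · subst h2; simp [h]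
    · have h3 : ¬ i = j := fun h => h2 h.symm
      simp [h2, h3]
  · rw [if_neg h]
    by_cases h2 : j = i
    · subst h2; simpa using h
    · simp [h2]

private theorem port_set_bit (n i j : ℕ) :
    (n ||| (1 <<< i)).testBit j = (n.testBit j || decide (i = j)) := by
  rw [Nat.testBit_or, Nat.one_shiftLeft, Nat.testBit_two_pow]

private theorem port_get_put (L : LB) (x y x' y' : ℤ) (o : Option Piece) (hx : -4 ≤ x)
    (hx1 : x ≤ 59) (hy : -6 ≤ y) (hx' : -4 ≤ x') (hx1' : x' ≤ 59) (hy' : -6 ≤ y') :
    (L.put x y o).get x' y' = if x' = x ∧ y' = y then o else L.get x' y' := by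
  by_cases h : x' = x ∧ y' = y
  · obtain ⟨rfl, rfl⟩ := h
    rw [if_pos ⟨rfl, rfl⟩]
    rcases o with _ | ⟨_ | _, _ | _⟩ <;>
      simp only [LB.put, LB.get, port_clr_bit, port_set_bit] <;> simp
  · have hne : ¬ ix x' y' = ix x y := fun h2 => h (ix_inj hx' hx1' hy' hx hx1 hy h2)
    have hne' : ¬ ix x y = ix x' y' := fun h2 => hne h2.symm
    rw [if_neg h]
    rcases o with _ | ⟨_ | _, _ | _⟩ <;>
      simp only [LB.put, LB.get, port_clr_bit, port_set_bit] <;> simp [hne, hne']

private theorem port_rows (f : ℕ → ℕ) (lo n : ℕ) {a b : ℕ} (h1 : lo ≤ b) (h2 : b < lo + n)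
    (h3 : (f b).testBit a = true) : (rows f lo n).testBit (a + 64 * b) = true := by
  induction n with
  | zero => omega
  | succ n ih =>
    rw [rows, Nat.testBit_or, Bool.or_eq_true]
    rcases Nat.lt_or_ge b (lo + n) with h | h
    · exact Or.inl (ih h)
    · right
      have h4 : b = lo + n := by omega
      subst h4
      rw [Nat.testBit_shiftLeft]
      simp [h3]

private theorem port_rightM {lo n : ℕ} {x y : ℤ} (hx : 24 ≤ x) (hx1 : x ≤ 28) (hy : -6 ≤ y)
    (h1 : (lo : ℤ) ≤ y + 6) (h2 : y + 6 < lo + n) : (rightM lo n).testBit (ix x y) = true := by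
  unfold rightM ix
  refine port_rows _ _ _ (by omega) (by omega) ?_
  have h3 : (x + 4).toNat = 28 ∨ (x + 4).toNat = 29 ∨ (x + 4).toNat = 30 ∨ (x + 4).toNat = 31 ∨
      (x + 4).toNat = 32 := by omega
  rcases h3 with h3 | h3 | h3 | h3 | h3 <;> rw [h3] <;> decide

private theorem port_full {lo n : ℕ} {x y : ℤ} (hx : -4 ≤ x) (hx1 : x ≤ 28) (hy : -6 ≤ y)
    (h1 : (lo : ℤ) ≤ y + 6) (h2 : y + 6 < lo + n) :
    (full lo n).testBit (ix x y) = true ↔ 2 ∣ x + y := by
  rw [testBit_full]
  constructor
  · rintro ⟨a, b, ha, hb1, hb2, hab, hi⟩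
    have h3 := ix_eq hx hy
    rw [hi] at h3
    omega
  · intro h
    refine ⟨(x + 4).toNat, (y + 6).toNat, by omega, by omega, by omega, by omega, rfl⟩

private theorem port_sub_testBit {a F : ℕ} (h : a ||| F = F) {i : ℕ} (hi : a.testBit i = true) :
    F.testBit i = true := by
  rw [← h, Nat.testBit_or, hi, Bool.true_or]

private theorem port_get_some_wf {F : ℕ} {L : LB} (h : L.wf F = true) {x y : ℤ} {p : Piece}
    (hp : L.get x y = some p) : F.testBit (ix x y) = true := by
  unfold LB.wf at h
  simp only [Bool.and_eq_true, decide_eq_true_eq] at h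
  unfold LB.get at hp
  split_ifs at hp with h1 h2
  · exact port_sub_testBit h.1.1.1 h1
  · exact port_sub_testBit h.1.1.2 h2

private theorem port_get_wk {L : LB} {x y : ℤ} :
    (L.w &&& L.k).testBit (ix x y) = true → L.get x y = wk := by
  intro h
  rw [Nat.testBit_and, Bool.and_eq_true] at h
  unfold LB.get
  rw [if_pos h.1, h.2]

private theorem port_of_get_wk {L : LB} {x y : ℤ} (h : L.get x y = wk) :
    (L.w &&& L.k).testBit (ix x y) = true := by
  unfold LB.get at h
  rw [Nat.testBit_and, Bool.and_eq_true]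
  split_ifs at h with h1 h2
  · refine ⟨h1, ?_⟩
    simpa using h
  · simp at h

/-! ### the port of a wave -/

private theorem port_get_portE (L : LB) (a : ℤ) (t : ℕ) (x y : ℤ) (ha : -4 ≤ a) (ha1 : a ≤ 24)
    (hx : -4 ≤ x) (hx1 : x ≤ 28) (hy : -6 ≤ y) :
    (L.portE a t).get x y = if x = a ∧ y = 8 * t then bm
      else if (x = a + 1 ∧ y = 8 * t + 1) ∨ (x = a + 2 ∧ y = 8 * t + 2) then none
      else L.get x y := by
  unfold LB.portE
  rw [port_get_put _ _ _ _ _ _ (by omega) (by omega) (by omega) hx (by omega) hy,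
    port_get_put _ _ _ _ _ _ (by omega) (by omega) (by omega) hx (by omega) hy,
    port_get_put _ _ _ _ _ _ (by omega) (by omega) (by omega) hx (by omega) hy]
  split_ifs <;> first | rfl | (exfalso; omega)

/-- The window at column `c` and track `k`. -/
private def FrameOk.frame {N : ℕ} {top : ℤ} {c k zl zn : ℕ} (hf : FrameOk N top c k zl zn) :
    Frame where
  N := N
  X := 28 * c
  Y := 12 + 8 * k
  zl := zl
  zn := zn
  hzl := hf.hzl
  hzn := hf.hzn
  hX := by have := hf.hc; omega
  hX' := by have := hf.hc'; omega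
  hY := by omega
  hY' := by have := hf.hN; omega
  hp := by omega

/-- The local board in front of the column. -/
private theorem port_loc {N : ℕ} {top : ℤ} {base : Board} {c k zl zn : ℕ} {st : LB} {tin : ℕ}
    (hf : FrameOk N top c k zl zn)
    (hin : zl ≤ 8 * tin + 8 ∧ 8 * tin + 8 < zl + zn)
    (hst : WinEq base c k zl zn st)
    (hwf : ((st.restr (full (zl - 2) (zn + 4))).portE (-4) tin).wf (full (zl - 2) (zn + 4)) = true)
    {b : Board} (hb : PortE N top base c (k + tin) b) :
    Loc hf.frame ((st.restr (full (zl - 2) (zn + 4))).portE (-4) tin) b where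
  wf := hwf
  agree := by
    intro s hs
    obtain ⟨h1, h2, h3, h4⟩ := hs
    have hzl := hf.hzl
    simp only [FrameOk.frame] at h1 h2 h3 h4 ⊢
    obtain ⟨x, hx⟩ : ∃ x : ℤ, x = s.1 - 28 * (c : ℤ) := ⟨_, rfl⟩
    obtain ⟨y, hy⟩ : ∃ y : ℤ, y = s.2 - (12 + 8 * (k : ℤ)) := ⟨_, rfl⟩
    have hs' : s = (28 * (c : ℤ) + x, 12 + 8 * (k : ℤ) + y) := by
      ext
      · simp only; omega
      · simp only; omega
    rw [← hx] at h1 h2 ⊢
    rw [← hy] at h3 h4 ⊢
    rw [port_get_portE _ _ _ _ _ (by omega) (by omega) h1 h2 (by omega)]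
    -- light squares
    by_cases hpar : 2 ∣ x + y
    · rw [hb.right s (by omega), portMod]
      have hbase : base s = st.get x y := by
        rw [hs']
        exact hst x y h1 h2 h3 h4
      have hr : (st.restr (full (zl - 2) (zn + 4))).get x y = st.get x y := by
        rw [get_restr, if_pos ((port_full h1 h2 (by omega) (by omega) (by omega)).2 hpar)]
      rw [hr, hbase]
      refine if_congr ?_ rfl (if_congr ?_ rfl rfl)
      · rw [hs', Prod.mk.injEq]
        push_cast
        omega
      · rw [hs', Prod.mk.injEq, Prod.mk.injEq]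
        push_cast
        omega
    · have hbs : b s = none := by
        rcases hbs : b s with _ | p
        · rfl
        · have := (hb.dark s p hbs).2.2.2.2
          omega
      rw [hbs, if_neg (by omega), if_neg (by omega), get_restr, if_neg]
      intro h5
      exact hpar ((port_full h1 h2 (by omega) (by omega) (by omega)).1 h5)
  jumps := by
    intro p s d hj
    obtain ⟨-, h2, h3⟩ := hb.jump p s d hj
    right
    right
    rw [h2, h3]
    have := hf.hzl
    refine ⟨?_, ?_, ?_, ?_⟩ <;> simp only [FrameOk.frame, Prod.fst_add, Prod.snd_add] <;>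
      push_cast <;> omega

/-- The wave has arrived at the next column. -/
private theorem port_fin {N : ℕ} {top : ℤ} {base base' : Board} {c k zl zn : ℕ} {st' : LB}
    {tin tout : ℕ} (hf : FrameOk N top c k zl zn)
    (hout : zl ≤ 8 * tout + 8 ∧ 8 * tout + 8 < zl + zn + 2)
    (hdark : ∀ s p, base' s = some p → IsDark N s)
    (hst' : WinEq base' c k zl zn st')
    (hoff : ∀ s, ¬ InZ c k zl zn s → base' s = base s) {L' : LB}
    (hfin : finE zl zn L' st' tout = true) {b b' : Board}
    (hb : PortE N top base c (k + tin) b) (hb' : Loc hf.frame L' b')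
    (heq : hf.frame.EqOff b b') : PortE N top base' (c + 1) (k + tout) b' := by
  have hzl := hf.hzl
  have hc := hf.hc
  have hc' := hf.hc'
  have hN := hf.hN
  have htop := hf.htop
  unfold finE at hfin
  simp only [Bool.and_eq_true, decide_eq_true_eq, List.all_eq_true] at hfin
  obtain ⟨⟨⟨f1, f2⟩, f3⟩, f4⟩ := hfin
  have hdgs : ∀ d : Dg, d ∈ dgs := by intro d; cases d <;> decide
  have f1' : ∀ d, L'.caps hf.frame.F .black d = 0 := fun d => f1 d (hdgs d)
  have f2' : ∀ d, L'.caps hf.frame.F .white d = if d = .ul then 1 <<< ix 28 (8 * tout) else 0 :=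
    fun d => f2 d (hdgs d)
  have hzone : ∀ s, hf.frame.InZone s ↔ InZ c k zl zn s := fun s => Iff.rfl
  have hoff' : ∀ s, ¬ hf.frame.InZone s → base' s = base s := fun s hs =>
    hoff s (fun h => hs ((hzone s).2 h))
  refine ⟨?_, ?_, ?_, ?_, ?_⟩
  · -- to the right of the anchor
    intro s hs
    push_cast at hs
    by_cases hw : hf.frame.InWin s
    · have hag := hb'.agree s hw
      obtain ⟨h1, h2, h3, h4⟩ := hw
      simp only [FrameOk.frame] at h1 h2 h3 h4 hag
      obtain ⟨x, hx⟩ : ∃ x : ℤ, x = s.1 - 28 * (c : ℤ) := ⟨_, rfl⟩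
      obtain ⟨y, hy⟩ : ∃ y : ℤ, y = s.2 - (12 + 8 * (k : ℤ)) := ⟨_, rfl⟩
      have hs' : s = (28 * (c : ℤ) + x, 12 + 8 * (k : ℤ) + y) := by
        ext
        · simp only; omega
        · simp only; omega
      rw [← hx] at h1 h2 hag
      rw [← hy] at h3 h4 hag
      have hx24 : 24 ≤ x := by omega
      have hbase : base' s = st'.get x y := by
        rw [hs']
        exact hst' x y h1 h2 h3 h4
      -- the local board
      have hL : L'.get x y = ((st'.restr (full (zl - 2) (zn + 4))).portE 24 tout).get x y := by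
        have hbit : (rightM (zl - 2) (zn + 4)).testBit (ix x y) = true :=
          port_rightM hx24 h2 (by omega) (by omega) (by omega)
        have e1 := get_restr L' (rightM (zl - 2) (zn + 4)) x y
        have e2 := get_restr ((st'.restr (full (zl - 2) (zn + 4))).portE 24 tout)
          (rightM (zl - 2) (zn + 4)) x y
        rw [if_pos hbit] at e1 e2
        rw [← e1, ← e2, f3]
      rw [hag, hL, port_get_portE _ _ _ _ _ (by omega) (by omega) h1 h2 (by omega), portMod]
      have hr : (st'.restr (full (zl - 2) (zn + 4))).get x y = base' s := by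
        rw [get_restr]
        by_cases hpar : 2 ∣ x + y
        · rw [if_pos ((port_full h1 h2 (by omega) (by omega) (by omega)).2 hpar), hbase]
        · rw [if_neg fun h5 => hpar
            ((port_full h1 h2 (by omega) (by omega) (by omega)).1 h5)]
          rcases hbs : base' s with _ | p
          · rfl
          · have := (hdark s p hbs).2.2.2.2
            omega
      rw [hr]
      refine if_congr ?_ rfl (if_congr ?_ rfl rfl)
      · rw [hs', Prod.mk.injEq]
        push_cast
        omega
      · rw [hs', Prod.mk.injEq, Prod.mk.injEq]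
        push_cast
        omega
    · -- outside the window
      have hnz : ¬ hf.frame.InZone s := by
        intro hz
        apply hw
        obtain ⟨h1, h2, h3, h4⟩ := hz
        simp only [FrameOk.frame] at h1 h2 h3 h4
        refine ⟨?_, ?_, ?_, ?_⟩ <;> simp only [FrameOk.frame] <;> omega
      have hw' : ¬ (-4 ≤ s.1 - 28 * (c : ℤ) ∧ s.1 - 28 * (c : ℤ) ≤ 28 ∧
          (zl : ℤ) - 2 ≤ s.2 - (12 + 8 * (k : ℤ)) + 6 ∧
          s.2 - (12 + 8 * (k : ℤ)) + 6 < zl + zn + 2) := hw
      rw [heq s hnz, hb.right s (by omega), portMod, portMod, hoff' s hnz]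
      have hs' : s = (s.1, s.2) := rfl
      rw [if_neg, if_neg, if_neg, if_neg]
      · rw [hs', Prod.mk.injEq, Prod.mk.injEq]
        push_cast
        omega
      · rw [hs', Prod.mk.injEq]
        push_cast
        omega
      · rw [hs', Prod.mk.injEq, Prod.mk.injEq]
        push_cast
        omega
      · rw [hs', Prod.mk.injEq]
        push_cast
        omega
  · intro s hs
    have hnz : ¬ hf.frame.InZone s := by
      rintro ⟨h1, h2, h3, h4⟩
      simp only [FrameOk.frame] at h1 h2 h3 h4
      omega
    rw [heq s hnz, hb.high s hs, hoff' s hnz]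
  · intro s hs
    by_cases hz : hf.frame.InZone s
    · have hw : hf.frame.InWin s := by
        obtain ⟨h1, h2, h3, h4⟩ := hz
        simp only [FrameOk.frame] at h1 h2 h3 h4
        refine ⟨?_, ?_, ?_, ?_⟩ <;> simp only [FrameOk.frame] <;> omega
      have hag := hb'.agree s hw
      obtain ⟨h1, h2, h3, h4⟩ := hw
      simp only [FrameOk.frame] at h1 h2 h3 h4 hag
      rw [hs] at hag
      have h5 := port_of_get_wk hag.symm
      have h6 : (st'.w &&& st'.k).testBit
          (ix (s.1 - 28 * (c : ℤ)) (s.2 - (12 + 8 * (k : ℤ)))) = true :=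
        port_sub_testBit f4 h5
      have h7 := hst' (s.1 - 28 * (c : ℤ)) (s.2 - (12 + 8 * (k : ℤ))) h1 h2 h3 h4
      have h8 : (28 * (c : ℤ) + (s.1 - 28 * (c : ℤ)),
          12 + 8 * (k : ℤ) + (s.2 - (12 + 8 * (k : ℤ)))) = s := by
        ext
        · simp only; omega
        · simp only; omega
      rw [h8] at h7
      rw [h7]
      exact port_get_wk h6
    · rw [heq s hz] at hs
      rw [hoff' s hz]
      exact hb.kings s hs
  · intro s p hs
    by_cases hz : hf.frame.InZone s
    · have hw : hf.frame.InWin s := by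
        obtain ⟨h1, h2, h3, h4⟩ := hz
        simp only [FrameOk.frame] at h1 h2 h3 h4
        refine ⟨?_, ?_, ?_, ?_⟩ <;> simp only [FrameOk.frame] <;> omega
      have hag := hb'.agree s hw
      obtain ⟨h1, h2, h3, h4⟩ := hw
      simp only [FrameOk.frame] at h1 h2 h3 h4 hag
      rw [hs] at hag
      have h5 := port_get_some_wf hb'.wf hag.symm
      have h6 := (port_full (lo := zl - 2) (n := zn + 4) h1 h2 (by omega) (by omega)
        (by omega)).1 h5
      refine ⟨?_, ?_, ?_, ?_, ?_⟩ <;> omega
    · rw [heq s hz] at hs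
      exact hb.dark s p hs
  · intro p s d hj
    rcases hcol : p.color with _ | _
    · have hi : hf.frame.F.testBit (ix 28 (8 * (tout : ℤ))) = true :=
        (port_full (lo := zl - 2) (n := zn + 4) (by omega) (by omega) (by omega) (by omega)
          (by omega)).2 (by omega)
      obtain ⟨h1, h2, h3⟩ := one_jump hi f2' hb' hcol hj
      obtain ⟨g1, g2, g3, g4⟩ := h2
      simp only [FrameOk.frame] at g1 g2 g3 g4 h3
      obtain ⟨e1, e2⟩ := ix_inj g1 (by omega) (by omega) (by omega) (by omega) (by omega) h3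
      refine ⟨rfl, ?_, h1⟩
      ext
      · simp only
        push_cast
        omega
      · simp only
        push_cast
        omega
    · exact absurd hj (no_jump f1' hb' hcol)

/-- An eastbound run. -/
theorem glueE {N : ℕ} {top : ℤ} {base base' : Board} {c k zl zn : ℕ} {st st' : LB}
    {u : Color → Bool} {tin tout : ℕ} {mv : List (ℕ × Dg)} (hf : FrameOk N top c k zl zn)
    (hin : zl ≤ 8 * tin + 8 ∧ 8 * tin + 8 < zl + zn)
    (hout : zl ≤ 8 * tout + 8 ∧ 8 * tout + 8 < zl + zn + 2)
    (hdark : ∀ s p, base s = some p → IsDark N s)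
    (hdark' : ∀ s p, base' s = some p → IsDark N s)
    (hst : WinEq base c k zl zn st) (hst' : WinEq base' c k zl zn st')
    (hoff : ∀ s, ¬ InZ c k zl zn s → base' s = base s)
    (hchk : chkE st st' zl zn u tin tout mv = true) :
    (u .black = true → WinFrom N top base' (c + 1) (k + tout) → WinFrom N top base c (k + tin)) ∧
    (u .white = true → LoseFrom N top base' (c + 1) (k + tout) →
      LoseFrom N top base c (k + tin)) := by
  unfold chkE at hchk
  simp only [Bool.and_eq_true] at hchk
  obtain ⟨hwf, hrun⟩ := hchk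
  rcases hr : LB.run (full (zl - 2) (zn + 4)) (zone zl zn) u .white
      ((st.restr (full (zl - 2) (zn + 4))).portE (-4) tin) mv with _ | ⟨L', c'⟩
  · rw [hr] at hrun
    exact absurd hrun (by simp)
  · rw [hr] at hrun
    rcases c' with _ | _
    · simp only at hrun
      have key : ∀ b, PortE N top base c (k + tin) b →
          ∃ b', PortE N top base' (c + 1) (k + tout) b' ∧
            (u .black = true → MisereWins N .white b' .white → MisereWins N .white b .white) ∧
            (u .white = true → MisereWins N .white b .white → MisereWins N .white b' .white) := by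
        intro b hb
        have hloc := port_loc hf hin hst hwf hb
        obtain ⟨b', h1, h2, h3, h4⟩ := run_sound (f := hf.frame) hr hloc
        exact ⟨b', port_fin hf hout hdark' hst' hoff hrun hb h1 h2, h3, h4⟩
      constructor
      · intro hu hW b hb
        obtain ⟨b', h1, h2, -⟩ := key b hb
        exact h2 hu (hW b' h1)
      · intro hu hL b hb hw
        obtain ⟨b', h1, -, h2⟩ := key b hb
        exact hL b' h1 (h2 hu hw)
    · exact absurd hrun (by simp)

/-- An eastbound run with a fork. -/
theorem glueF {N : ℕ} {top : ℤ} {base : Board} {c k zl zn : ℕ} {st : LB}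
    {tin t1 t2 : ℕ} {cc : Color} {mp m1 m2 : List (ℕ × Dg)} (hf : FrameOk N top c k zl zn)
    (hin : zl ≤ 8 * tin + 8 ∧ 8 * tin + 8 < zl + zn)
    (h1 : zl ≤ 8 * t1 + 8 ∧ 8 * t1 + 8 < zl + zn + 2)
    (h2 : zl ≤ 8 * t2 + 8 ∧ 8 * t2 + 8 < zl + zn + 2)
    (hdark : ∀ s p, base s = some p → IsDark N s)
    (hst : WinEq base c k zl zn st)
    (hchk : chkF st zl zn tin cc mp m1 m2 t1 t2 = true) :
    (cc = .white →
      ((WinFrom N top base (c + 1) (k + t1) ∨ WinFrom N top base (c + 1) (k + t2)) →
        WinFrom N top base c (k + tin)) ∧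
      ((LoseFrom N top base (c + 1) (k + t1) ∧ LoseFrom N top base (c + 1) (k + t2)) →
        LoseFrom N top base c (k + tin))) ∧
    (cc = .black →
      ((WinFrom N top base (c + 1) (k + t1) ∧ WinFrom N top base (c + 1) (k + t2)) →
        WinFrom N top base c (k + tin)) ∧
      ((LoseFrom N top base (c + 1) (k + t1) ∨ LoseFrom N top base (c + 1) (k + t2)) →
        LoseFrom N top base c (k + tin))) := by
  unfold chkF at hchk
  simp only [Bool.and_eq_true] at hchk
  obtain ⟨hwf, hrun⟩ := hchk
  rcases hr : LB.run (full (zl - 2) (zn + 4)) (zone zl zn) uAll .white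
      ((st.restr (full (zl - 2) (zn + 4))).portE (-4) tin) mp with _ | ⟨L1, c1⟩
  · rw [hr] at hrun
    exact absurd hrun (by simp)
  rw [hr] at hrun
  simp only [Bool.and_eq_true, decide_eq_true_eq] at hrun
  obtain ⟨hcc, hrun⟩ := hrun
  subst hcc
  rcases m1 with _ | ⟨⟨s1, d1⟩, m1'⟩
  · exact absurd hrun (by simp)
  rcases m2 with _ | ⟨⟨s2, d2⟩, m2'⟩
  · exact absurd hrun (by simp)
  simp only [Bool.and_eq_true, decide_eq_true_eq, List.all_eq_true] at hrun
  obtain ⟨⟨⟨⟨⟨-, hcaps⟩, hs1⟩, hs2⟩, hr1⟩, hr2⟩ := hrun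
  have hdgs : ∀ d : Dg, d ∈ dgs := by intro d; cases d <;> decide
  rcases hq1 : LB.run (full (zl - 2) (zn + 4)) (zone zl zn) uAll c1.other (L1.jump c1 s1 d1) m1'
    with _ | ⟨L2, c2⟩
  · rw [hq1] at hr1
    exact absurd hr1 (by simp)
  rcases hq2 : LB.run (full (zl - 2) (zn + 4)) (zone zl zn) uAll c1.other (L1.jump c1 s2 d2) m2'
    with _ | ⟨L3, c3⟩
  · rw [hq2] at hr2
    exact absurd hr2 (by simp)
  rw [hq1] at hr1
  rw [hq2] at hr2
  rcases c2 with _ | _
  swap
  · exact absurd hr1 (by simp)
  rcases c3 with _ | _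
  swap
  · exact absurd hr2 (by simp)
  simp only at hr1 hr2
  have key : ∀ b, PortE N top base c (k + tin) b →
      ∃ b1 b2, PortE N top base (c + 1) (k + t1) b1 ∧ PortE N top base (c + 1) (k + t2) b2 ∧
        (c1 = .white → (MisereWins N .white b .white ↔
          (MisereWins N .white b1 .white ∨ MisereWins N .white b2 .white))) ∧
        (c1 = .black → (MisereWins N .white b .white ↔
          (MisereWins N .white b1 .white ∧ MisereWins N .white b2 .white))) := by
    intro b hb
    have hloc := port_loc hf hin hst hwf hb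
    obtain ⟨b0, l0, q0, w0, v0⟩ := run_sound (f := hf.frame) hr hloc
    obtain ⟨e1, e2, l1, q1, l2, q2, hW, hB⟩ := fork_sound (f := hf.frame)
      (fun e => hcaps e (hdgs e)) hs1 hs2 l0
    obtain ⟨b1, l3, q3, w3, v3⟩ := run_sound (f := hf.frame) hq1 l1
    obtain ⟨b2, l4, q4, w4, v4⟩ := run_sound (f := hf.frame) hq2 l2
    have eq1 : hf.frame.EqOff b b1 := fun s hs => by
      rw [q3 s hs, q1 s hs, q0 s hs]
    have eq2 : hf.frame.EqOff b b2 := fun s hs => by
      rw [q4 s hs, q2 s hs, q0 s hs]
    have i0 : MisereWins N .white b .white ↔ MisereWins N .white b0 c1 := ⟨v0 rfl, w0 rfl⟩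
    have i1 : MisereWins N .white e1 c1.other ↔ MisereWins N .white b1 .white :=
      ⟨v3 rfl, w3 rfl⟩
    have i2 : MisereWins N .white e2 c1.other ↔ MisereWins N .white b2 .white :=
      ⟨v4 rfl, w4 rfl⟩
    refine ⟨b1, b2, port_fin hf h1 hdark hst (fun _ _ => rfl) hr1 hb l3 eq1,
      port_fin hf h2 hdark hst (fun _ _ => rfl) hr2 hb l4 eq2, fun h => ?_, fun h => ?_⟩
    · rw [i0, ← i1, ← i2]
      exact hW h
    · rw [i0, ← i1, ← i2]
      exact hB h
  refine ⟨fun hc => ⟨?_, ?_⟩, fun hc => ⟨?_, ?_⟩⟩
  · rintro (h | h) b hb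
    · obtain ⟨b1, b2, p1, p2, g1, -⟩ := key b hb
      exact (g1 hc).2 (Or.inl (h b1 p1))
    · obtain ⟨b1, b2, p1, p2, g1, -⟩ := key b hb
      exact (g1 hc).2 (Or.inr (h b2 p2))
  · rintro ⟨h, h'⟩ b hb hw
    obtain ⟨b1, b2, p1, p2, g1, -⟩ := key b hb
    rcases (g1 hc).1 hw with h3 | h3
    · exact h b1 p1 h3
    · exact h' b2 p2 h3
  · rintro ⟨h, h'⟩ b hb
    obtain ⟨b1, b2, p1, p2, -, g1⟩ := key b hb
    exact (g1 hc).2 ⟨h b1 p1, h' b2 p2⟩
  · rintro (h | h) b hb hw
    · obtain ⟨b1, b2, p1, p2, -, g1⟩ := key b hb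
      exact h b1 p1 ((g1 hc).1 hw).1
    · obtain ⟨b1, b2, p1, p2, -, g1⟩ := key b hb
      exact h b2 p2 ((g1 hc).1 hw).2

end Pool.Agent.MC95
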