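import Pool.Agent.MC95.Static
import Pool.Agent.MC95.Port

/-!
# The board after a launch
-/

namespace Pool.Agent.MC95

/-- The window of N1 after a launch (`al`: the king was in the lower square), without the king. -/
def dirty (al : Bool) : LB := if al then stD1 else stD0

/-- The westbound track used by a launch. -/
def wtrk (al : Bool) : ℕ := if al then 0 else 1

/-- The content of a dark square after a launch and the passage of the westbound wave, without
kings: column `x` of the tile `op` in column `c`, row `y`. -/
def ecell (N sg cN : ℕ) (al : Bool) (op : Op) (c x y : ℕ) : Option Piece :=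
  if c = cN ∧ 6 ≤ y ∧ y ≤ 34 then (dirty al).get x ((y : ℤ) - 12)
  else if c < cN ∧ y = 12 + 8 * wtrk al then bm
  else if c < cN ∧ y = 13 + 8 * wtrk al then none
  else if c < cN ∧ y = 14 + 8 * wtrk al then wm
  else cell N sg op x y

/-- The board after a launch and the passage of the westbound wave. `cL` is the column of the left
end of the corridor, `cN` the column of the tile N1. -/
def Geo.eboard (g : Geo) (cL cN : ℕ) (al : Bool) (κ : KC) : Board := fun s =>
  if IsDark g.N s then
    match kingAt g.N cL κ (g.ops.getD (s.1.toNat / 28) default) (s.1.toNat / 28)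
      (s.1.toNat % 28) s.2.toNat with
    | some p => some p
    | none => ecell g.N g.sg cN al (g.ops.getD (s.1.toNat / 28) default) (s.1.toNat / 28)
      (s.1.toNat % 28) s.2.toNat
  else none

/-- The board with a westbound wave after a launch; the anchor is in column `28 * c`. -/
def Geo.wboard (g : Geo) (cL cN : ℕ) (al : Bool) (κ : KC) (c : ℕ) : Board := fun s =>
  if s = (28 * (c : ℤ) - 1, 13 + 8 * (wtrk al : ℤ)) ∨
    s = (28 * (c : ℤ) - 2, 14 + 8 * (wtrk al : ℤ)) then none
  else if 28 * (c : ℤ) ≤ s.1 then g.eboard cL cN al κ s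
  else g.kboard cL κ s

/-- The only possible jump is the jump of a White man from `s` in direction `d`. -/
def OnlyJump (N : ℕ) (b : Board) (s : Square) (d : ℤ × ℤ) : Prop :=
  ∀ p s' d', CanJump N b p s' d' → p.color = .white ∧ s' = s ∧ d' = d

/-- The board after the launching move. -/
def Geo.lboard (g : Geo) (cL cN : ℕ) (al : Bool) (κ : KC) : Board :=
  if al then
    Function.update (Function.update (g.kboard cL κ) (28 * (cN : ℤ) + 16, 20) none)
      (28 * (cN : ℤ) + 15, 21) wm
  else
    Function.update (Function.update (g.kboard cL κ) (28 * (cN : ℤ) + 13, 19) none)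
      (28 * (cN : ℤ) + 14, 20) wm

/-- Consecutive tiles fit together. -/
def Fit (o1 o2 : Op) : Prop :=
  o2.regAt 0 = o1.regAt 27 ∧ (o1.cor = 0 → o2.cor = 0 ∨ o2.cor = 4) ∧
    (o2.cor = 0 → o1.cor = 0 ∨ o1.cor = 4)

end Pool.Agent.MC95
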