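import Pool.Agent.MC95.Lay

/-!
# The content of the squares of the initial board
-/

namespace Pool.Agent.MC95

/-- The content of a dark square of the initial board: column `x` of the tile `o`, row `y` of the
board. -/
def kcell (N sg : ℕ) (o : Op) (x y : ℕ) : Option Piece :=
  if o.kind = .T ∧ o.ini = true ∧ x = 12 ∧ y = 186 then wk
  else if o.kind = .N1 ∧ x = 14 ∧ y = 20 then wk
  else if o.kind = .G ∧ x = 14 ∧ y = 30 + 8 * o.trk then wk
  else if o.kind = .Y ∧ ((o.ini = true ∧ x = 10 ∧ y = 24 + 8 * o.trk) ∨
    (o.ini = false ∧ x = 9 ∧ y = 25 + 8 * o.trk)) then bk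
  else if o.kind = .first ∧ x = 0 ∧ y + 2 = N then bk
  else cell N sg o x y

/-- The code of the squares of a tile in row `y`. -/
def tileRow (N sg : ℕ) (o : Op) (y : ℕ) : List Bool :=
  (List.range 28).flatMap fun x => if (x + y) % 2 = 0 then codeSquare (kcell N sg o x y) else []

end Pool.Agent.MC95
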