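import Pool.Agent.MC95.Lay

/-!
# The tiles of the layout are well-formed

PLAN. By blocks: `o ∈ send S τ t` is blank, or `H u` with `t < u`, `u + 2 ≤ τ`, or `M t` (and then
`t < τ`). All bounds by `omega` after `simp [lsg]`. The tiles of the corridor are a fixed list:
for `∀ o ∈ xPart, ...` use `decide` for conditions without `m` (e.g. `o.trk ≤ 20 ∧ ...`) and derive
`OpOk (lsg m) o` from them.
-/

namespace Pool.Agent.MC95

variable {m : ℕ} {terms : ℕ → List (Bool × (ℕ → Option Bool))} {y0 : ℕ → Bool}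

theorem mem_send {S τ t : ℕ} {o : Op} (h : o ∈ send S τ t) :
    o = bl 2 ∨ (∃ u, o = tl 2 .H u ∧ t < u ∧ u + 2 ≤ τ) ∨ (o = tl 2 .M t ∧ t < τ) := by
  unfold send at h
  rw [List.mem_flatMap] at h
  obtain ⟨i, -, h⟩ := h
  rw [List.mem_map] at h
  obtain ⟨u, -, h⟩ := h
  split_ifs at h with h1 h2
  · right; left
    exact ⟨u, h.symm, h1.2, by omega⟩
  · right; right
    obtain ⟨h2, rfl⟩ := h2
    exact ⟨h.symm, by omega⟩
  · left
    exact h.symm

private theorem ok_bl (sg : ℕ) {r : ℕ} (hr : r ≤ 2) : OpOk sg (bl r) :=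
  ⟨hr, Nat.zero_le _, trivial⟩

private theorem ok_U {sg r t : ℕ} (hr : r ≤ 2) (h1 : 1 ≤ t) (h2 : t = 1 → r ≤ 1) (h3 : t + 1 ≤ sg) :
    OpOk sg (tl r .U t) :=
  ⟨hr, Nat.zero_le _, h1, h2, fun h => absurd rfl h, h3⟩

private theorem ok_M {sg r t : ℕ} (hr : r ≤ 2) (h1 : 2 ≤ t) (h3 : t + 1 ≤ sg) :
    OpOk sg (tl r .M t) :=
  ⟨hr, Nat.zero_le _, h1, fun h => absurd rfl h, h3⟩

private theorem ok_H {sg r t : ℕ} (hr : r ≤ 2) (h1 : 2 ≤ t) (h3 : t + 2 ≤ sg) :
    OpOk sg (tl r .H t) :=
  ⟨hr, Nat.zero_le _, h1, fun h => absurd rfl h, h3⟩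

private theorem ok_WF {sg r t : ℕ} (hr : r ≤ 2) (h1 : 2 ≤ t) (h3 : t + 1 ≤ sg) :
    OpOk sg (tl r .WF t) :=
  ⟨hr, Nat.zero_le _, h1, fun h => absurd rfl h, h3⟩

private theorem ok_BF {sg r t : ℕ} (hr : r ≤ 2) (h1 : 2 ≤ t) (h3 : t + 1 ≤ sg) :
    OpOk sg (tl r .BF t) :=
  ⟨hr, Nat.zero_le _, h1, fun h => absurd rfl h, h3⟩

private theorem ok_send {sg S τ t : ℕ} (ht : 2 ≤ t ∨ τ ≤ t) (hτ : τ ≤ sg) :
    ∀ o ∈ send S τ t, OpOk sg o := by
  intro o ho
  rcases mem_send ho with rfl | ⟨u, rfl, h1, h2⟩ | ⟨rfl, h1⟩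
  · exact ok_bl sg le_rfl
  · exact ok_H le_rfl (by omega) (by omega)
  · exact ok_M le_rfl (by omega) (by omega)

private theorem ok_lad {sg r a n : ℕ} (hr : r ≤ 2) (h1 : 1 ≤ a) (h2 : a = 1 → r ≤ 1)
    (h3 : a + n ≤ sg) : ∀ o ∈ lad r a n, OpOk sg o := by
  intro o ho
  unfold lad at ho
  rw [List.mem_map] at ho
  obtain ⟨i, hi, rfl⟩ := ho
  rw [List.mem_range] at hi
  exact ok_U hr (by omega) (fun h => h2 (by omega)) (by omega)

private theorem ok_fan {sg r a : ℕ} (hr : r ≤ 2) (h1 : 2 ≤ a) (h3 : a + 6 ≤ sg) :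
    ∀ o ∈ fan r a, OpOk sg o := by
  intro o ho
  unfold fan at ho
  simp only [List.mem_cons, List.not_mem_nil, or_false] at ho
  rcases ho with rfl | rfl | rfl | rfl | rfl | rfl
  · exact ok_WF hr (by omega) (by omega)
  · exact ok_M hr (by omega) (by omega)
  · exact ok_WF hr (by omega) (by omega)
  · exact ok_M hr (by omega) (by omega)
  · exact ok_WF hr (by omega) (by omega)
  · exact ok_M hr (by omega) (by omega)

private theorem ok_litB {sg S ρ k : ℕ} (h1 : 2 ≤ ρ) (h2 : ρ + 1 ≤ sg) (v : Option Bool) :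
    ∀ o ∈ litB S ρ k v, OpOk sg o := by
  intro o ho
  rcases v with _ | b
  · unfold litB at ho
    rcases List.mem_cons.1 ho with rfl | ho
    · exact ok_bl sg le_rfl
    · exact ok_send (Or.inr le_rfl) (Nat.zero_le _) o ho
  · cases b
    · unfold litB at ho
      rcases List.mem_cons.1 ho with rfl | ho
      · exact ok_BF le_rfl h1 h2
      · exact ok_send (Or.inl (by omega)) (by omega) o ho
    · unfold litB at ho
      rcases List.mem_cons.1 ho with rfl | ho
      · exact ok_BF le_rfl h1 h2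
      · exact ok_send (Or.inl (by omega)) (by omega) o ho

private theorem ok_termB {sg S ρ : ℕ} (h1 : 2 ≤ ρ) (h2 : ρ + 2 ≤ sg)
    (τ : Bool × (ℕ → Option Bool)) : ∀ o ∈ termB m S ρ τ, OpOk sg o := by
  intro o ho
  unfold termB at ho
  split_ifs at ho with hτ
  · rcases List.mem_cons.1 ho with rfl | ho
    · exact ok_WF le_rfl (by omega) (by omega)
    rcases List.mem_append.1 ho with ho | ho
    · rw [List.mem_flatMap] at ho
      obtain ⟨k, -, ho⟩ := ho
      exact ok_litB h1 (by omega) _ o ho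
    rcases List.mem_cons.1 ho with rfl | ho
    · exact ok_M le_rfl h1 (by omega)
    · exact ok_send (Or.inl (by omega)) (by omega) o ho
  · have hb : ∀ o ∈ bl 2 :: send S 0 0, OpOk sg o := by
      intro o ho
      rcases List.mem_cons.1 ho with rfl | ho
      · exact ok_bl sg le_rfl
      · exact ok_send (Or.inr le_rfl) (Nat.zero_le _) o ho
    rcases List.mem_cons.1 ho with rfl | ho
    · exact ok_bl sg le_rfl
    rcases List.mem_append.1 ho with ho | ho
    · rw [List.mem_flatMap] at ho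
      obtain ⟨k, -, ho⟩ := ho
      exact hb o ho
    · exact hb o ho

private theorem ok_rootB {S w : ℕ} (hw : w < 8) (ts : List (Bool × (ℕ → Option Bool))) :
    ∀ o ∈ rootB m S w ts, OpOk (lsg m) o := by
  intro o ho
  unfold rootB at ho
  unfold lsg
  rcases List.mem_cons.1 ho with rfl | ho
  · exact ok_BF le_rfl (by omega) (by omega)
  rcases List.mem_cons.1 ho with rfl | ho
  · exact ok_M le_rfl (by omega) (by omega)
  rcases List.mem_append.1 ho with ho | ho
  · exact ok_send (Or.inl (by omega)) (by omega) o ho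
  rcases List.mem_append.1 ho with ho | ho
  · rw [List.mem_flatMap] at ho
    obtain ⟨τ, -, ho⟩ := ho
    exact ok_termB (by omega) (by omega) _ o ho
  · exact ok_send (Or.inl (by omega)) (by omega) o ho

private theorem ok_kingB {S k : ℕ} (hk : k < m) (b : Bool) :
    ∀ o ∈ kingB S k b, OpOk (lsg m) o := by
  intro o ho
  unfold kingB at ho
  unfold lsg
  rcases List.mem_cons.1 ho with rfl | ho
  · exact ok_U le_rfl (by omega) (by omega) (by omega)
  rcases List.mem_cons.1 ho with rfl | ho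
  · exact ⟨le_rfl, Nat.zero_le _, by show 2 ≤ 22 + 4 * k; omega, rfl,
      by show 22 + 4 * k + 4 ≤ 38 + 4 * m; omega⟩
  rcases List.mem_append.1 ho with ho | ho
  · exact ok_send (Or.inl (by omega)) (by omega) o ho
  rcases List.mem_append.1 ho with ho | ho
  · exact ok_send (Or.inl (by omega)) (by omega) o ho
  rcases List.mem_cons.1 ho with rfl | ho
  · exact ok_M le_rfl (by omega) (by omega)
  rcases List.mem_append.1 ho with ho | ho
  · exact ok_send (Or.inl (by omega)) (by omega) o ho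
  rcases List.mem_cons.1 ho with rfl | ho
  · exact ok_M le_rfl (by omega) (by omega)
  · exact ok_send (Or.inl (by omega)) (by omega) o ho

/-- check of a tile of the corridor -/
private def cchk (o : Op) : Bool :=
  o.reg == 2 && o.cor == 1 && match o.kind with
    | .U => decide (2 ≤ o.trk) && decide (o.trk ≤ 20)
    | .M => decide (2 ≤ o.trk) && decide (o.trk ≤ 20)
    | .H => decide (2 ≤ o.trk) && decide (o.trk ≤ 19)
    | .WF => decide (2 ≤ o.trk) && decide (o.trk ≤ 20)
    | .T => o.trk == 20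
    | _ => false

private theorem cchk_ok {o : Op} (h : cchk o = true) : OpOk (lsg m) o := by
  obtain ⟨k, t, r, c, b⟩ := o
  cases k <;> simp [cchk] at h <;> unfold OpOk lsg <;> simp <;> omega

private theorem xPart_chk : xPart.all cchk = true := by decide

private theorem ok_xPart : ∀ o ∈ xPart, OpOk (lsg m) o := fun o ho =>
  cchk_ok (List.all_eq_true.1 xPart_chk o ho)

private theorem ok_finB : ∀ o ∈ finB (lsg m), OpOk (lsg m) o := by
  intro o ho
  unfold finB at ho
  unfold lsg at ho ⊢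
  rcases List.mem_cons.1 ho with rfl | ho
  · exact ok_U (by omega) (by omega) (by omega) (by omega)
  rcases List.mem_cons.1 ho with rfl | ho
  · exact ok_H (by omega) (by omega) (by omega)
  rcases List.mem_append.1 ho with ho | ho
  · rw [List.mem_flatMap] at ho
    obtain ⟨i, hi, ho⟩ := ho
    rw [List.mem_range] at hi
    simp only [List.mem_cons, List.not_mem_nil, or_false] at ho
    rcases ho with rfl | rfl
    · exact ok_U (by omega) (by omega) (by omega) (by omega)
    · exact ok_U (by omega) (by omega) (by omega) (by omega)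
  · simp only [List.mem_cons, List.not_mem_nil, or_false] at ho
    rcases ho with rfl | rfl | rfl | rfl
    · exact ⟨Nat.zero_le _, Nat.zero_le _, rfl, rfl, rfl⟩
    · exact ok_U (by omega) (by omega) (by omega) (by omega)
    · exact ⟨Nat.zero_le _, Nat.zero_le _, rfl, rfl, rfl⟩
    · exact ok_bl _ (by omega)

private theorem ok_corB : ∀ o ∈ corB m, OpOk (lsg m) o := by
  intro o ho
  unfold corB at ho
  rcases List.mem_cons.1 ho with rfl | ho
  · exact ⟨le_rfl, le_rfl, trivial⟩
  rcases List.mem_cons.1 ho with rfl | ho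
  · exact ⟨le_rfl, by show 2 ≤ 4; omega, trivial⟩
  rcases List.mem_append.1 ho with ho | ho
  · exact ok_xPart o ho
  unfold endB at ho
  rcases List.mem_cons.1 ho with rfl | ho
  · exact ⟨le_rfl, by show 3 ≤ 4; omega, trivial⟩
  rcases List.mem_cons.1 ho with rfl | ho
  · exact ⟨le_rfl, le_rfl, trivial⟩
  rcases List.mem_cons.1 ho with rfl | ho
  · exact ⟨Nat.zero_le _, Nat.zero_le _, rfl, rfl⟩
  · exact ok_finB o ho

theorem layout_tiles : ∀ o ∈ layout m terms y0, OpOk (lsg m) o := by
  intro o ho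
  unfold layout at ho
  rcases List.mem_cons.1 ho with rfl | ho
  · exact ⟨Nat.zero_le _, Nat.zero_le _, rfl, rfl⟩
  rcases List.mem_cons.1 ho with rfl | ho
  · exact ⟨Nat.zero_le _, Nat.zero_le _, rfl, rfl⟩
  rcases List.mem_append.1 ho with ho | ho
  · exact ok_lad (by omega) (by omega) (by omega) (by unfold lsg; omega) o ho
  rcases List.mem_append.1 ho with ho | ho
  · exact ok_fan (by omega) (by omega) (by unfold lsg; omega) o ho
  unfold aB at ho
  rcases List.mem_cons.1 ho with rfl | ho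
  · exact ⟨Nat.zero_le _, Nat.zero_le _, rfl, rfl⟩
  rcases List.mem_append.1 ho with ho | ho
  · exact ok_lad (by omega) (by omega) (by omega) (by unfold lsg; omega) o ho
  rcases List.mem_append.1 ho with ho | ho
  · exact ok_fan (by omega) (by omega) (by unfold lsg; omega) o ho
  unfold rootsB at ho
  rcases List.mem_append.1 ho with ho | ho
  · rw [List.mem_flatMap] at ho
    obtain ⟨w, hw, ho⟩ := ho
    rw [List.mem_range] at hw
    exact ok_rootB hw _ o ho
  unfold kingsB at ho
  rcases List.mem_append.1 ho with ho | ho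
  · rw [List.mem_flatMap] at ho
    obtain ⟨k, hk, ho⟩ := ho
    rw [List.mem_range] at hk
    exact ok_kingB hk _ o ho
  · exact ok_corB o ho

end Pool.Agent.MC95
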