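import Pool.Agent.MC95.Lay

/-!
# Consecutive tiles of the layout fit together

PLAN. `Fit o1 o2` holds if both have `cor = 0` and the same `reg` and no special kind. Show for each
block that all its tiles have a given `reg` and `cor` (and kinds other than NB, NA, N1, so that
`regAt x = reg`), and use this with `List.isChain_append`, `List.isChain_cons` (`IsChain`); at the
junctions use `regAt 27` of NB (`1`), NA (`2`), N1 (`0`) and `regAt 0` (`0`, `1`, `2`).
-/

namespace Pool.Agent.MC95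

variable {m : ℕ} {terms : ℕ → List (Bool × (ℕ → Option Bool))} {y0 : ℕ → Bool}

/-- A tile that may follow a tile with `regAt 27 = r`, `cor = c`. -/
private def FitB (r c : ℕ) (o : Op) : Prop :=
  o.regAt 0 = r ∧ (c = 0 → o.cor = 0 ∨ o.cor = 4) ∧ (o.cor = 0 → c = 0 ∨ c = 4)

/-- A list of tiles that may follow a tile with `regAt 27 = r`, `cor = c`. -/
private def ChB : ℕ → ℕ → List Op → Prop
  | _, _, [] => True
  | r, c, o :: l => FitB r c o ∧ ChB (o.regAt 27) o.cor l

/-- A plain tile. -/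
private def UniB (r c : ℕ) (o : Op) : Prop :=
  o.regAt 0 = r ∧ o.regAt 27 = r ∧ o.cor = c

private theorem chB_chain (o : Op) (l : List Op) (h : ChB (o.regAt 27) o.cor l) :
    List.IsChain Fit (o :: l) := by
  induction l generalizing o with
  | nil => exact List.isChain_singleton _
  | cons a l ih =>
    rw [List.isChain_cons_cons]
    exact ⟨h.1, ih a h.2⟩

private theorem ChB.app {r c : ℕ} {l1 l2 : List Op} (h1 : ∀ o ∈ l1, UniB r c o) (h2 : ChB r c l2) :
    ChB r c (l1 ++ l2) := by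
  induction l1 with
  | nil => exact h2
  | cons a l ih =>
    have ha := h1 a (List.mem_cons_self)
    have hl := ih fun o ho => h1 o (List.mem_cons_of_mem _ ho)
    refine ⟨⟨ha.1, fun hc => ?_, fun hc => ?_⟩, ?_⟩
    · left; rw [ha.2.2, hc]
    · left; rw [← ha.2.2, hc]
    · rw [ha.2.1, ha.2.2]; exact hl

private theorem ChB.c21 {r : ℕ} {l : List Op} (h : ChB r 1 l) : ChB r 2 l := by
  cases l with
  | nil => trivial
  | cons a l =>
    refine ⟨⟨h.1.1, fun hc => ?_, fun hc => ?_⟩, h.2⟩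
    · omega
    · have := h.1.2.2 hc; omega

private theorem lad_uni {r a n : ℕ} : ∀ o ∈ lad r a n, UniB r 0 o := by
  intro o ho
  simp only [lad, List.mem_map] at ho
  obtain ⟨i, _, rfl⟩ := ho
  exact ⟨rfl, rfl, rfl⟩

private theorem fan_uni {r a : ℕ} : ∀ o ∈ fan r a, UniB r 0 o := by
  intro o ho
  simp only [fan, List.mem_cons, List.not_mem_nil, or_false] at ho
  rcases ho with rfl | rfl | rfl | rfl | rfl | rfl <;> exact ⟨rfl, rfl, rfl⟩

private theorem send_uni {S τ t : ℕ} : ∀ o ∈ send S τ t, UniB 2 0 o := by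
  intro o ho
  simp only [send, List.mem_flatMap, List.mem_map] at ho
  obtain ⟨i, _, u, _, rfl⟩ := ho
  split_ifs <;> exact ⟨rfl, rfl, rfl⟩

private theorem litB_uni {S ρ k : ℕ} {x : Option Bool} : ∀ o ∈ litB S ρ k x, UniB 2 0 o := by
  intro o ho
  rcases x with _ | _ | _ <;>
  · simp only [litB, List.mem_cons] at ho
    rcases ho with rfl | ho
    · exact ⟨rfl, rfl, rfl⟩
    · exact send_uni o ho

private theorem termB_uni {m S ρ : ℕ} {τ : Bool × (ℕ → Option Bool)} :
    ∀ o ∈ termB m S ρ τ, UniB 2 0 o := by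
  intro o ho
  unfold termB at ho
  split_ifs at ho
  · simp only [List.mem_cons, List.mem_append, List.mem_flatMap] at ho
    rcases ho with rfl | ⟨k, _, ho⟩ | rfl | ho
    · exact ⟨rfl, rfl, rfl⟩
    · exact litB_uni o ho
    · exact ⟨rfl, rfl, rfl⟩
    · exact send_uni o ho
  · simp only [List.mem_cons, List.mem_append, List.mem_flatMap] at ho
    rcases ho with rfl | ⟨k, _, rfl | ho⟩ | rfl | ho
    · exact ⟨rfl, rfl, rfl⟩
    · exact ⟨rfl, rfl, rfl⟩
    · exact send_uni o ho
    · exact ⟨rfl, rfl, rfl⟩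
    · exact send_uni o ho

private theorem rootB_uni {m S w : ℕ} {ts : List (Bool × (ℕ → Option Bool))} :
    ∀ o ∈ rootB m S w ts, UniB 2 0 o := by
  intro o ho
  simp only [rootB, List.mem_cons, List.mem_append, List.mem_flatMap] at ho
  rcases ho with rfl | rfl | ho | ⟨k, _, ho⟩ | ho
  · exact ⟨rfl, rfl, rfl⟩
  · exact ⟨rfl, rfl, rfl⟩
  · exact send_uni o ho
  · exact termB_uni o ho
  · exact send_uni o ho

private theorem kingB_uni {S k : ℕ} {y : Bool} : ∀ o ∈ kingB S k y, UniB 2 0 o := by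
  intro o ho
  simp only [kingB, List.mem_cons, List.mem_append] at ho
  rcases ho with rfl | rfl | ho | ho | rfl | ho | rfl | ho
  · exact ⟨rfl, rfl, rfl⟩
  · exact ⟨rfl, rfl, rfl⟩
  · exact send_uni o ho
  · exact send_uni o ho
  · exact ⟨rfl, rfl, rfl⟩
  · exact send_uni o ho
  · exact ⟨rfl, rfl, rfl⟩
  · exact send_uni o ho

private theorem sendC_uni {n : ℕ} : ∀ o ∈ sendC n, UniB 2 1 o := by
  intro o ho
  simp only [sendC, List.mem_append, List.mem_map, List.mem_singleton] at ho
  rcases ho with ⟨i, _, rfl⟩ | rfl <;> exact ⟨rfl, rfl, rfl⟩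

private theorem xPre_uni {j : ℕ} : ∀ o ∈ xPre j, UniB 2 1 o := by
  intro o ho
  simp only [xPre, List.mem_append, List.mem_map, List.mem_cons, List.not_mem_nil, or_false] at ho
  rcases ho with ((rfl | rfl | rfl) | ⟨i, _, rfl⟩) | ho
  · exact ⟨rfl, rfl, rfl⟩
  · exact ⟨rfl, rfl, rfl⟩
  · exact ⟨rfl, rfl, rfl⟩
  · exact ⟨rfl, rfl, rfl⟩
  · split_ifs at ho
    · simp only [List.mem_cons, List.not_mem_nil, or_false] at ho
      rcases ho with rfl | rfl <;> exact ⟨rfl, rfl, rfl⟩
    · exact absurd ho (List.not_mem_nil)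

private theorem xBlock_uni {j : ℕ} : ∀ o ∈ xBlock j, UniB 2 1 o := by
  intro o ho
  simp only [xBlock, List.mem_append, List.mem_cons] at ho
  rcases ho with ho | rfl | ho | rfl | ho
  · exact xPre_uni o ho
  · exact ⟨rfl, rfl, rfl⟩
  · exact sendC_uni o ho
  · exact ⟨rfl, rfl, rfl⟩
  · exact sendC_uni o ho

private theorem xPart_uni : ∀ o ∈ xPart, UniB 2 1 o := by
  intro o ho
  simp only [xPart, List.mem_append, List.mem_singleton] at ho
  rcases ho with ho | ho | ho | ho | rfl
  · exact xBlock_uni o ho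
  · exact xBlock_uni o ho
  · exact xBlock_uni o ho
  · exact xBlock_uni o ho
  · exact ⟨rfl, rfl, rfl⟩

private theorem finB_uni {sg : ℕ} : ∀ o ∈ finB sg, UniB 0 0 o := by
  intro o ho
  simp only [finB, List.mem_append, List.mem_flatMap, List.mem_cons, List.not_mem_nil,
    or_false] at ho
  rcases ho with rfl | rfl | ⟨i, _, rfl | rfl⟩ | rfl | rfl | rfl | rfl <;> exact ⟨rfl, rfl, rfl⟩

private theorem finB_ch {sg : ℕ} : ChB 0 0 (finB sg) := by
  have h := ChB.app (r := 0) (c := 0) (l1 := finB sg) (l2 := []) finB_uni trivial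
  rwa [List.append_nil] at h

private theorem endB_ch : ChB 2 1 (endB m) := by
  refine ⟨⟨rfl, ?_, ?_⟩, ⟨rfl, ?_, ?_⟩, ⟨rfl, ?_, ?_⟩, finB_ch⟩ <;> intro h <;>
    first
    | exact absurd h (by decide)
    | exact Or.inl rfl
    | exact Or.inr rfl

private theorem corB_ch : ChB 2 0 (corB m) := by
  refine ⟨⟨rfl, fun _ => Or.inr rfl, fun h => absurd h (by decide)⟩,
    ⟨rfl, fun h => absurd h (by decide), fun h => absurd h (by decide)⟩, ?_⟩
  exact ChB.c21 (ChB.app xPart_uni endB_ch)

private theorem kingsB_ch : ChB 2 0 (kingsB m y0) := by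
  refine ChB.app (fun o ho => ?_) corB_ch
  rw [List.mem_flatMap] at ho
  obtain ⟨k, _, ho⟩ := ho
  exact kingB_uni o ho

private theorem rootsB_ch : ChB 2 0 (rootsB m terms y0) := by
  refine ChB.app (fun o ho => ?_) kingsB_ch
  rw [List.mem_flatMap] at ho
  obtain ⟨k, _, ho⟩ := ho
  exact rootB_uni o ho

private theorem aB_ch : ChB 1 0 (aB m terms y0) :=
  ⟨⟨rfl, fun _ => Or.inl rfl, fun _ => Or.inl rfl⟩, ChB.app lad_uni (ChB.app fan_uni rootsB_ch)⟩

theorem layout_chain : List.IsChain Fit (layout m terms y0) := by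
  refine chB_chain _ _ ⟨⟨rfl, fun _ => Or.inl rfl, fun _ => Or.inl rfl⟩, ?_⟩
  exact ChB.app lad_uni (ChB.app fan_uni aB_ch)

theorem layout_fit : ∀ c, c + 1 < (layout m terms y0).length →
    Fit ((layout m terms y0).getD c default) ((layout m terms y0).getD (c + 1) default) := by
  intro c hc
  have h := (List.isChain_iff_getElem.mp (layout_chain (m := m) (terms := terms) (y0 := y0))) c hc
  rw [List.getD_eq_getElem _ _ (by omega), List.getD_eq_getElem _ _ hc]
  exact h

end Pool.Agent.MC95
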