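import Pool.Agent.MC95.HolesA
import Pool.Agent.MC95.LOkA
import Pool.Agent.MC95.LOkB

/-!
# The layout is a well-formed circuit

PLAN. `uniq`: an element of a list that is the only one with a property. Write
`layout = A ++ o :: B` with `o` the tile NB, NA, N1, G, ... and `A.length` the claimed column (`rlen`,
`klen` are lengths of the corresponding parts; `kingB` has the same length for both values of its
last argument), and show that the tiles of `A` and `B` do not have the property, by blocks. For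
`cor1`: `layout = A ++ xPart ++ B`, all tiles of `xPart` have `cor = 1` (`decide`), no other.
`lcirc_stop`: the tiles T are in `xPart`, at the positions given by `lstop` (`decide`).
-/

namespace Pool.Agent.MC95

variable {m : ℕ} {terms : ℕ → List (Bool × (ℕ → Option Bool))} {y0 : ℕ → Bool}

private theorem c67_mem {l : List Op} {c : ℕ} (h : c < l.length) : l.getD c default ∈ l := by
  rw [List.getD_eq_getElem _ _ h]; exact List.getElem_mem h

private theorem c67_left {A B : List Op} {c : ℕ} (h : c < A.length) :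
    (A ++ B).getD c default = A.getD c default := List.getD_append _ _ _ _ h

private theorem c67_right {A B : List Op} {c : ℕ} (h : A.length ≤ c) :
    (A ++ B).getD c default = B.getD (c - A.length) default :=
  List.getD_append_right _ _ _ _ h

theorem uniq {A B : List Op} {o : Op} {P : Op → Prop} (hA : ∀ o' ∈ A, ¬ P o') (ho : P o)
    (hB : ∀ o' ∈ B, ¬ P o') :
    ∀ c < (A ++ o :: B).length, P ((A ++ o :: B).getD c default) ↔ c = A.length := by
  intro c hc
  rcases lt_or_ge c A.length with h | h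
  · rw [c67_left h]
    constructor
    · intro hp
      exact absurd hp (hA _ (c67_mem h))
    · intro hp
      omega
  · rw [c67_right h]
    rcases h1 : c - A.length with _ | k
    · simp only [List.getD_cons_zero]
      exact ⟨fun _ => by omega, fun _ => ho⟩
    · rw [List.getD_cons_succ]
      have h2 : k < B.length := by
        simp only [List.length_append, List.length_cons] at hc
        omega
      constructor
      · intro hp
        exact absurd hp (hB _ (c67_mem h2))
      · intro hp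
        omega

/-- `o` is the tile in column `c` of the list `l`, which starts in column `n`. -/
private def c67At (l : List Op) (n c : ℕ) (o : Op) : Prop :=
  ∃ i, c = n + i ∧ i < l.length ∧ l.getD i default = o

private theorem c67At_cons {x : Op} {l : List Op} {n c : ℕ} {o : Op} (h : c67At (x :: l) n c o) :
    (c = n ∧ o = x) ∨ c67At l (n + 1) c o := by
  obtain ⟨i, rfl, hi, ho⟩ := h
  rcases i with _ | i
  · left
    exact ⟨rfl, by simpa using ho.symm⟩
  · right
    exact ⟨i, by omega, by simpa using hi, by simpa using ho⟩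

private theorem c67At_app {A l : List Op} {n c : ℕ} {o : Op} (h : c67At (A ++ l) n c o) :
    (n ≤ c ∧ c < n + A.length ∧ o ∈ A) ∨ c67At l (n + A.length) c o := by
  obtain ⟨i, rfl, hi, ho⟩ := h
  rcases lt_or_ge i A.length with h | h
  · left
    rw [c67_left h] at ho
    exact ⟨by omega, by omega, ho ▸ c67_mem h⟩
  · right
    rw [c67_right h] at ho
    exact ⟨i - A.length, by omega, by rw [List.length_append] at hi; omega, ho⟩

/-- The tiles of the roots and of the kings except Y. -/
private def c67Q (r : ℕ) (o : Op) : Prop :=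
  o.reg = r ∧ o.cor = 0 ∧ (o.kind = .blank ∨ o.kind = .H ∨ o.kind = .M ∨ o.kind = .BF ∨
    o.kind = .WF ∨ o.kind = .U)

private theorem c67_lad {r a n : ℕ} : ∀ o ∈ lad r a n, c67Q r o := by
  intro o ho
  simp only [lad, List.mem_map] at ho
  obtain ⟨i, _, rfl⟩ := ho
  simp [c67Q, tl]

private theorem c67_fan {r a : ℕ} : ∀ o ∈ fan r a, c67Q r o := by
  intro o ho
  simp only [fan, List.mem_cons, List.not_mem_nil, or_false] at ho
  rcases ho with rfl | rfl | rfl | rfl | rfl | rfl <;> simp [c67Q, tl]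

private theorem c67_send {S τ t : ℕ} : ∀ o ∈ send S τ t, c67Q 2 o := by
  intro o ho
  rcases mem_send ho with rfl | ⟨u, rfl, _⟩ | ⟨rfl, _⟩ <;> simp [c67Q, tl, bl]

private theorem c67_litB {S ρ k : ℕ} {x : Option Bool} : ∀ o ∈ litB S ρ k x, c67Q 2 o := by
  intro o ho
  rcases x with _ | _ | _ <;> simp only [litB, List.mem_cons] at ho <;>
    rcases ho with rfl | ho
  all_goals first | exact c67_send o ho | simp [c67Q, tl, bl]

private theorem c67_termB {S ρ : ℕ} {τ : Bool × (ℕ → Option Bool)} :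
    ∀ o ∈ termB m S ρ τ, c67Q 2 o := by
  intro o ho
  rw [termB] at ho
  split_ifs at ho
  · simp only [List.mem_cons, List.mem_append, List.mem_flatMap] at ho
    rcases ho with rfl | ⟨k, _, ho⟩ | rfl | ho
    · simp [c67Q, tl]
    · exact c67_litB o ho
    · simp [c67Q, tl]
    · exact c67_send o ho
  · simp only [List.mem_cons, List.mem_append, List.mem_flatMap] at ho
    rcases ho with rfl | ⟨k, _, rfl | ho⟩ | rfl | ho
    · simp [c67Q, bl]
    · simp [c67Q, bl]
    · exact c67_send o ho
    · simp [c67Q, bl]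
    · exact c67_send o ho

private theorem c67_rootB {S w : ℕ} {ts : List (Bool × (ℕ → Option Bool))} :
    ∀ o ∈ rootB m S w ts, c67Q 2 o := by
  intro o ho
  simp only [rootB, List.mem_cons, List.mem_append, List.mem_flatMap] at ho
  rcases ho with rfl | rfl | ho | ⟨τ, _, ho⟩ | ho
  · simp [c67Q, tl]
  · simp [c67Q, tl]
  · exact c67_send o ho
  · exact c67_termB o ho
  · exact c67_send o ho

private theorem c67_kingB {S k : ℕ} {b : Bool} :
    ∀ o ∈ kingB S k b, c67Q 2 o ∨ (o.kind = .Y ∧ o.reg = 2 ∧ o.cor = 0) := by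
  intro o ho
  simp only [kingB, List.mem_cons, List.mem_append] at ho
  rcases ho with rfl | rfl | ho | ho | rfl | ho | rfl | ho
  · left; simp [c67Q, tl]
  · right; simp
  · exact Or.inl (c67_send o ho)
  · exact Or.inl (c67_send o ho)
  · left; simp [c67Q, tl]
  · exact Or.inl (c67_send o ho)
  · left; simp [c67Q, tl]
  · exact Or.inl (c67_send o ho)

/-- The tiles of the roots. -/
private def c67R (m : ℕ) (terms : ℕ → List (Bool × (ℕ → Option Bool))) : List Op :=
  (List.range 8).flatMap fun w => rootB m (lsg m) w (terms w)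

/-- The tiles of the kings `k < n`. -/
private def c67K (m n : ℕ) (y0 : ℕ → Bool) : List Op :=
  (List.range n).flatMap fun k => kingB (lsg m) k (y0 k)

private theorem c67_R : ∀ o ∈ c67R m terms, c67Q 2 o := by
  intro o ho
  simp only [c67R, List.mem_flatMap] at ho
  obtain ⟨w, _, ho⟩ := ho
  exact c67_rootB o ho

private theorem c67_K {n : ℕ} :
    ∀ o ∈ c67K m n y0, c67Q 2 o ∨ (o.kind = .Y ∧ o.reg = 2 ∧ o.cor = 0) := by
  intro o ho
  simp only [c67K, List.mem_flatMap] at ho
  obtain ⟨w, _, ho⟩ := ho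
  exact c67_kingB o ho

private theorem c67_lenR : (c67R m terms).length = rlen m terms := rfl

private theorem c67_lenK : (c67K m m y0).length = klen m := by
  simp [c67K, klen, List.length_flatMap, kingB]

/-- The tiles between N1 and the gate. -/
private def c67F (sg : ℕ) : List Op :=
  tl 0 .U 2 :: tl 0 .H 2 ::
    (((List.range (sg - 3)).flatMap fun i => [tl 0 .U (3 + i), tl 0 .U (2 + i)]) ++
      [tl 0 .UT sg, tl 0 .U (sg - 1)])

private theorem c67_finB (sg : ℕ) : finB sg = c67F sg ++ [tl 0 .G sg, bl 0] := by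
  simp [finB, c67F]

private theorem c67_lenF (sg : ℕ) : (c67F sg).length = 4 + 2 * (sg - 3) := by
  simp [c67F, List.length_flatMap, List.sum_replicate]
  omega

private theorem c67_F {sg : ℕ} : ∀ o ∈ c67F sg, o.reg = 0 ∧ o.cor = 0 ∧
    (o.kind = .U ∨ o.kind = .H ∨ o.kind = .UT) := by
  intro o ho
  simp only [c67F, List.mem_cons, List.mem_append, List.mem_flatMap, List.not_mem_nil,
    or_false] at ho
  rcases ho with rfl | rfl | ⟨k, _, rfl | rfl⟩ | rfl | rfl <;> simp [tl]

private theorem c67_lenX : xPart.length = 135 := by decide +kernel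

private theorem c67_X : ∀ o ∈ xPart, o.reg = 2 ∧ o.cor = 1 ∧
    (o.kind = .WF ∨ o.kind = .U ∨ o.kind = .M ∨ o.kind = .H ∨ o.kind = .T) := by
  decide +kernel

/-- The tiles between NB and NA. -/
private def c67B1 (m : ℕ) : List Op := lad 1 1 (36 + 4 * m) ++ fan 1 (31 + 4 * m)

/-- The tiles between NA and the roots. -/
private def c67B2 (m : ℕ) : List Op := lad 2 2 (27 + 4 * m) ++ fan 2 (23 + 4 * m)

private theorem c67_B1 : ∀ o ∈ c67B1 m, c67Q 1 o := by
  intro o ho
  simp only [c67B1, List.mem_append] at ho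
  exact ho.elim (c67_lad o) (c67_fan o)

private theorem c67_B2 : ∀ o ∈ c67B2 m, c67Q 2 o := by
  intro o ho
  simp only [c67B2, List.mem_append] at ho
  exact ho.elim (c67_lad o) (c67_fan o)

private theorem c67_lenB1 : (c67B1 m).length = 42 + 4 * m := by
  simp [c67B1, lad, fan]; omega

private theorem c67_lenB2 : (c67B2 m).length = 33 + 4 * m := by
  simp [c67B2, lad, fan]; omega

private theorem c67_aB : aB m terms y0 = tl 0 .NA 1 :: (c67B2 m ++ (c67R m terms ++
    (c67K m m y0 ++ (⟨.blank, 0, 2, 4, false⟩ :: ⟨.blank, 0, 2, 2, false⟩ :: (xPart ++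
      (⟨.blank, 0, 2, 3, false⟩ :: ⟨.blank, 0, 2, 4, false⟩ :: tl 0 .N1 0 ::
        (c67F (lsg m) ++ [tl 0 .G (lsg m), bl 0]))))))) := by
  simp only [aB, rootsB, kingsB, corB, endB, c67_finB, c67B2, c67R, c67K, List.append_assoc]

private theorem c67_layout : layout m terms y0 = tl 0 .first 0 :: tl 0 .NB 0 ::
    (c67B1 m ++ aB m terms y0) := by
  simp only [layout, c67B1, List.append_assoc]

private theorem c67_len : (layout m terms y0).length = (lcirc m terms y0).cG + 2 := by
  rw [c67_layout, c67_aB]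
  simp only [List.length_cons, List.length_append, c67_lenB1, c67_lenB2, c67_lenR, c67_lenK,
    c67_lenX, c67_lenF, List.length_nil, lcirc, lcL]
  omega


/-- The tile in column `c`. -/
private theorem c67_cls {c : ℕ} (hc : c < (layout m terms y0).length) :
    (c = 0 ∧ (layout m terms y0).getD c default = tl 0 .first 0) ∨
    (c = 1 ∧ (layout m terms y0).getD c default = tl 0 .NB 0) ∨
    (1 < c ∧ c < 44 + 4 * m ∧ c67Q 1 ((layout m terms y0).getD c default)) ∨
    (c = 44 + 4 * m ∧ (layout m terms y0).getD c default = tl 0 .NA 1) ∨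
    (44 + 4 * m < c ∧ c < lcL m terms ∧ (c67Q 2 ((layout m terms y0).getD c default) ∨
      (((layout m terms y0).getD c default).kind = .Y ∧
        ((layout m terms y0).getD c default).reg = 2 ∧
        ((layout m terms y0).getD c default).cor = 0) ∨
      (layout m terms y0).getD c default = ⟨.blank, 0, 2, 4, false⟩)) ∨
    (c = lcL m terms ∧ (layout m terms y0).getD c default = ⟨.blank, 0, 2, 2, false⟩) ∨
    (lcL m terms < c ∧ c < lcL m terms + 136 ∧ (layout m terms y0).getD c default ∈ xPart) ∨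
    (c = lcL m terms + 136 ∧ (layout m terms y0).getD c default = ⟨.blank, 0, 2, 3, false⟩) ∨
    (c = lcL m terms + 137 ∧ (layout m terms y0).getD c default = ⟨.blank, 0, 2, 4, false⟩) ∨
    (c = lcL m terms + 138 ∧ (layout m terms y0).getD c default = tl 0 .N1 0) ∨
    (lcL m terms + 138 < c ∧ c < (lcirc m terms y0).cG ∧
      (layout m terms y0).getD c default ∈ c67F (lsg m)) ∨
    (c = (lcirc m terms y0).cG ∧ (layout m terms y0).getD c default = tl 0 .G (lsg m)) ∨
    (c = (lcirc m terms y0).cG + 1 ∧ (layout m terms y0).getD c default = bl 0) := by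
  have hG : (lcirc m terms y0).cG = lcL m terms + 143 + 2 * (lsg m - 3) := rfl
  have hL : lcL m terms = 79 + 8 * m + rlen m terms + klen m := rfl
  have h : c67At (layout m terms y0) 0 c ((layout m terms y0).getD c default) :=
    ⟨c, by omega, hc, rfl⟩
  generalize (layout m terms y0).getD c default = o at h ⊢
  rw [c67_layout] at h
  rcases c67At_cons h with h | h
  · exact Or.inl h
  rcases c67At_cons h with h | h
  · exact Or.inr (Or.inl h)
  rcases c67At_app h with ⟨h1, h2, h3⟩ | h
  · rw [c67_lenB1] at h2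
    exact Or.inr (Or.inr (Or.inl ⟨by omega, by omega, c67_B1 _ h3⟩))
  rw [c67_aB, c67_lenB1] at h
  rcases c67At_cons h with ⟨h, h'⟩ | h
  · exact Or.inr (Or.inr (Or.inr (Or.inl ⟨by omega, h'⟩)))
  rcases c67At_app h with ⟨h1, h2, h3⟩ | h
  · rw [c67_lenB2] at h2
    exact Or.inr (Or.inr (Or.inr (Or.inr (Or.inl ⟨by omega, by omega, Or.inl (c67_B2 _ h3)⟩))))
  rw [c67_lenB2] at h
  rcases c67At_app h with ⟨h1, h2, h3⟩ | h
  · rw [c67_lenR] at h2
    exact Or.inr (Or.inr (Or.inr (Or.inr (Or.inl ⟨by omega, by omega, Or.inl (c67_R _ h3)⟩))))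
  rw [c67_lenR] at h
  rcases c67At_app h with ⟨h1, h2, h3⟩ | h
  · rw [c67_lenK] at h2
    refine Or.inr (Or.inr (Or.inr (Or.inr (Or.inl ⟨by omega, by omega, ?_⟩))))
    exact (c67_K _ h3).elim Or.inl (fun h => Or.inr (Or.inl h))
  rw [c67_lenK] at h
  rcases c67At_cons h with ⟨h, h'⟩ | h
  · exact Or.inr (Or.inr (Or.inr (Or.inr (Or.inl ⟨by omega, by omega, Or.inr (Or.inr h')⟩))))
  rcases c67At_cons h with ⟨h, h'⟩ | h
  · exact Or.inr (Or.inr (Or.inr (Or.inr (Or.inr (Or.inl ⟨by omega, h'⟩)))))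
  rcases c67At_app h with ⟨h1, h2, h3⟩ | h
  · rw [c67_lenX] at h2
    exact Or.inr (Or.inr (Or.inr (Or.inr (Or.inr (Or.inr (Or.inl ⟨by omega, by omega, h3⟩))))))
  rw [c67_lenX] at h
  rcases c67At_cons h with ⟨h, h'⟩ | h
  · exact Or.inr (Or.inr (Or.inr (Or.inr (Or.inr (Or.inr (Or.inr (Or.inl ⟨by omega, h'⟩)))))))
  rcases c67At_cons h with ⟨h, h'⟩ | h
  · exact Or.inr (Or.inr (Or.inr (Or.inr (Or.inr (Or.inr (Or.inr (Or.inr
      (Or.inl ⟨by omega, h'⟩))))))))
  rcases c67At_cons h with ⟨h, h'⟩ | h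
  · exact Or.inr (Or.inr (Or.inr (Or.inr (Or.inr (Or.inr (Or.inr (Or.inr (Or.inr
      (Or.inl ⟨by omega, h'⟩)))))))))
  rcases c67At_app h with ⟨h1, h2, h3⟩ | h
  · rw [c67_lenF] at h2
    exact Or.inr (Or.inr (Or.inr (Or.inr (Or.inr (Or.inr (Or.inr (Or.inr (Or.inr (Or.inr
      (Or.inl ⟨by omega, by omega, h3⟩))))))))))
  rw [c67_lenF] at h
  rcases c67At_cons h with ⟨h, h'⟩ | h
  · exact Or.inr (Or.inr (Or.inr (Or.inr (Or.inr (Or.inr (Or.inr (Or.inr (Or.inr (Or.inr
      (Or.inr (Or.inl ⟨by omega, h'⟩)))))))))))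
  rcases c67At_cons h with ⟨h, h'⟩ | h
  · exact Or.inr (Or.inr (Or.inr (Or.inr (Or.inr (Or.inr (Or.inr (Or.inr (Or.inr (Or.inr
      (Or.inr (Or.inr ⟨by omega, h'⟩)))))))))))
  obtain ⟨i, _, hi, _⟩ := h
  simp at hi

private theorem c67_Q {r : ℕ} {o : Op} (h : c67Q r o) : o.reg = r ∧ o.cor = 0 ∧
    o.kind ≠ .first ∧ o.kind ≠ .NB ∧ o.kind ≠ .NA ∧ o.kind ≠ .N1 ∧ o.kind ≠ .G ∧
    o.kind ≠ .T ∧ o.kind ≠ .Y := by
  obtain ⟨h1, h2, h3⟩ := h
  refine ⟨h1, h2, ?_⟩
  rcases h3 with h | h | h | h | h | h <;> rw [h] <;> decide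

private theorem c67_X' {o : Op} (h : o ∈ xPart) : o.reg = 2 ∧ o.cor = 1 ∧
    o.kind ≠ .first ∧ o.kind ≠ .NB ∧ o.kind ≠ .NA ∧ o.kind ≠ .N1 ∧ o.kind ≠ .G ∧
    o.kind ≠ .Y := by
  obtain ⟨h1, h2, h3⟩ := c67_X _ h
  refine ⟨h1, h2, ?_⟩
  rcases h3 with h | h | h | h | h <;> rw [h] <;> decide

private theorem c67_F' {sg : ℕ} {o : Op} (h : o ∈ c67F sg) : o.reg = 0 ∧ o.cor = 0 ∧
    o.kind ≠ .first ∧ o.kind ≠ .NB ∧ o.kind ≠ .NA ∧ o.kind ≠ .N1 ∧ o.kind ≠ .G ∧
    o.kind ≠ .T ∧ o.kind ≠ .Y := by
  obtain ⟨h1, h2, h3⟩ := c67_F _ h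
  refine ⟨h1, h2, ?_⟩
  rcases h3 with h | h | h <;> rw [h] <;> decide

/-- The kinds of the tiles, their parts in the corridor and their numbers `reg`, by columns. -/
private theorem c67_sum {c : ℕ} (hc : c < (layout m terms y0).length) :
    ((((layout m terms y0).getD c default).kind = .first ↔ c = 0) ∧
    (((layout m terms y0).getD c default).kind = .NB ↔ c = 1) ∧
    (((layout m terms y0).getD c default).kind = .NA ↔ c = 44 + 4 * m) ∧
    (((layout m terms y0).getD c default).kind = .N1 ↔ c = lcL m terms + 138) ∧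
    (((layout m terms y0).getD c default).kind = .G ↔ c = (lcirc m terms y0).cG) ∧
    (((layout m terms y0).getD c default).cor = 1 ↔
      lcL m terms < c ∧ c < lcL m terms + 136) ∧
    (((layout m terms y0).getD c default).cor = 2 ↔ c = lcL m terms) ∧
    (((layout m terms y0).getD c default).cor = 3 ↔ c = lcL m terms + 136)) ∧
    (c < 1 ∨ lcL m terms + 138 < c → ((layout m terms y0).getD c default).reg = 0) ∧
    (1 < c → c < 44 + 4 * m → ((layout m terms y0).getD c default).reg = 1) ∧
    (44 + 4 * m < c → c < lcL m terms + 138 →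
      ((layout m terms y0).getD c default).reg = 2) := by
  have hG : (lcirc m terms y0).cG = lcL m terms + 143 + 2 * (lsg m - 3) := rfl
  have hL : lcL m terms = 79 + 8 * m + rlen m terms + klen m := rfl
  have h := c67_cls hc
  generalize (layout m terms y0).getD c default = o at h ⊢
  generalize (lcirc m terms y0).cG = cG at hG h ⊢
  rcases h with ⟨h, rfl⟩ | ⟨h, rfl⟩ | ⟨h, h', h1⟩ | ⟨h, rfl⟩ | ⟨h, h', h1⟩ | ⟨h, rfl⟩ |
    ⟨h, h', h1⟩ | ⟨h, rfl⟩ | ⟨h, rfl⟩ | ⟨h, rfl⟩ | ⟨h, h', h1⟩ | ⟨h, rfl⟩ | ⟨h, rfl⟩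
  · simp [tl]; omega
  · simp [tl]; omega
  · obtain ⟨h2, h3, k1, k2, k3, k4, k5, k6, k7⟩ := c67_Q h1
    simp [h2, h3, k1, k2, k3, k4, k5]; omega
  · simp [tl]; omega
  · rcases h1 with h1 | ⟨h1, h2, h3⟩ | rfl
    · obtain ⟨h2, h3, k1, k2, k3, k4, k5, k6, k7⟩ := c67_Q h1
      simp [h2, h3, k1, k2, k3, k4, k5]; omega
    · simp [h1, h2, h3]; omega
    · simp; omega
  · simp; omega
  · obtain ⟨h2, h3, k1, k2, k3, k4, k5, k7⟩ := c67_X' h1
    simp [h2, h3, k1, k2, k3, k4, k5]; omega
  · simp; omega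
  · simp; omega
  · simp [tl]; omega
  · obtain ⟨h2, h3, k1, k2, k3, k4, k5, k6, k7⟩ := c67_F' h1
    simp [h2, h3, k1, k2, k3, k4, k5]; omega
  · simp [tl]; omega
  · simp [bl]; omega


theorem lcirc_ok : (lcirc m terms y0).Ok := by
  have hG : (lcirc m terms y0).cG = lcL m terms + 143 + 2 * (lsg m - 3) := rfl
  have hL : lcL m terms = 79 + 8 * m + rlen m terms + klen m := rfl
  have hS : lsg m = 38 + 4 * m := rfl
  have hlen : (layout m terms y0).length = (lcirc m terms y0).cG + 2 := c67_len
  refine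
    { tiles := fun c hc => layout_tiles _ (c67_mem hc)
      fit := layout_fit
      first := fun c hc => (c67_sum hc).1.1
      last := ?_
      n1 := fun c hc => (c67_sum hc).1.2.2.2.1
      gate := fun c hc => (c67_sum hc).1.2.2.2.2.1
      cor1 := fun c hc => (c67_sum hc).1.2.2.2.2.2.1
      cor2 := fun c hc => (c67_sum hc).1.2.2.2.2.2.2.1
      cor3 := fun c hc => (c67_sum hc).1.2.2.2.2.2.2.2
      nb := fun c hc => (c67_sum hc).1.2.1
      na := fun c hc => (c67_sum hc).1.2.2.1
      reg0 := fun c hc h => (c67_sum hc).2.1 h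
      reg1 := fun c hc h h' => (c67_sum hc).2.2.1 h h'
      reg2 := fun c hc h h' => (c67_sum hc).2.2.2 h h'
      hB := le_refl 1
      hBA := ?_
      hAL := ?_
      hLR := ?_
      hRN := ?_
      hNG := ?_
      hG := ?_
      caps := ?_
      sg24 := ?_
      size := ?_ }
  · have h := c67_cls (m := m) (terms := terms) (y0 := y0)
      (c := (layout m terms y0).length - 1) (by omega)
    rw [hlen] at h
    change ((layout m terms y0).getD ((layout m terms y0).length - 1) default).kind = .blank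
    rw [hlen]
    rcases h with ⟨h, h'⟩ | ⟨h, h'⟩ | ⟨h, h', h1⟩ | ⟨h, h'⟩ | ⟨h, h', h1⟩ | ⟨h, h'⟩ |
      ⟨h, h', h1⟩ | ⟨h, h'⟩ | ⟨h, h'⟩ | ⟨h, h'⟩ | ⟨h, h', h1⟩ | ⟨h, h'⟩ | ⟨h, h'⟩ <;>
      first | omega | skip
    rw [h']
    rfl
  · change 1 < 44 + 4 * m
    omega
  · change 44 + 4 * m < lcL m terms
    omega
  · change lcL m terms < lcL m terms + 136
    omega
  · change lcL m terms + 136 < lcL m terms + 138
    omega
  · change lcL m terms + 138 < lcL m terms + 143 + 2 * (lsg m - 3)
    omega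
  · change (lcirc m terms y0).cG + 1 < (layout m terms y0).length
    omega
  · constructor
    · have h := c67_cls (m := m) (terms := terms) (y0 := y0)
        (c := lcL m terms) (by omega)
      change ((layout m terms y0).getD (lcL m terms) default).kind = .blank
      rcases h with ⟨h, h'⟩ | ⟨h, h'⟩ | ⟨h, h', h1⟩ | ⟨h, h'⟩ | ⟨h, h', h1⟩ | ⟨h, h'⟩ |
        ⟨h, h', h1⟩ | ⟨h, h'⟩ | ⟨h, h'⟩ | ⟨h, h'⟩ | ⟨h, h', h1⟩ | ⟨h, h'⟩ | ⟨h, h'⟩ <;>
        first | omega | skip
      rw [h']
    · have h := c67_cls (m := m) (terms := terms) (y0 := y0)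
        (c := lcL m terms + 136) (by omega)
      change ((layout m terms y0).getD (lcL m terms + 136) default).kind = .blank
      rcases h with ⟨h, h'⟩ | ⟨h, h'⟩ | ⟨h, h', h1⟩ | ⟨h, h'⟩ | ⟨h, h', h1⟩ | ⟨h, h'⟩ |
        ⟨h, h', h1⟩ | ⟨h, h'⟩ | ⟨h, h'⟩ | ⟨h, h'⟩ | ⟨h, h', h1⟩ | ⟨h, h'⟩ | ⟨h, h'⟩ <;>
        first | omega | skip
      rw [h']
  · change 26 ≤ lsg m
    omega
  · change 12 + 8 * lsg m + 40 ≤ 28 * (layout m terms y0).length
    omega

theorem lcirc_dropA : (layout m terms y0).drop ((lcirc m terms y0).cA + 1) =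
    (aB m terms y0).tail := by
  have h : layout m terms y0 = (tl 0 .first 0 :: tl 0 .NB 0 :: c67B1 m) ++ aB m terms y0 := by
    rw [c67_layout]; rfl
  have hc : (lcirc m terms y0).cA = (tl 0 .first 0 :: tl 0 .NB 0 :: c67B1 m).length := by
    simp only [List.length_cons, c67_lenB1]
    change 44 + 4 * m = _
    omega
  rw [h, hc, List.drop_append, List.drop_of_length_le (by omega)]
  simp

private theorem c67_num_append (k : Kind) (A B : List Op) :
    num k (A ++ B) = num k A + num k B := by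
  simp [num, List.countP_append]

private theorem c67_num_zero {k : Kind} {A : List Op} (h : ∀ o ∈ A, o.kind ≠ k) :
    num k A = 0 := by
  simp only [num, List.countP_eq_zero, decide_eq_true_eq]
  exact h

private theorem c67_cnt_app (k : Kind) (A B : List Op) (i : ℕ) :
    cnt k (A ++ B) (A.length + i) = num k A + cnt k B i := by
  rw [cnt, List.take_length_add_append, c67_num_append, cnt]

private theorem c67_cnt_app_left {k : Kind} {A B : List Op} {i : ℕ} (h : i ≤ A.length) :
    cnt k (A ++ B) i = cnt k A i := by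
  rw [cnt, List.take_append_of_le_length h, cnt]

theorem lcirc_cnt : cnt .Y (layout m terms y0) 2 = 0 ∧ cnt .T (layout m terms y0) 2 = 0 ∧
    cnt .Y (layout m terms y0) ((lcirc m terms y0).cA + 1) = 0 ∧
    cnt .T (layout m terms y0) ((lcirc m terms y0).cA + 1) = 0 := by
  have h : layout m terms y0 = (tl 0 .first 0 :: tl 0 .NB 0 :: c67B1 m) ++ aB m terms y0 := by
    rw [c67_layout]; rfl
  have hc : (lcirc m terms y0).cA = (tl 0 .first 0 :: tl 0 .NB 0 :: c67B1 m).length := by
    simp only [List.length_cons, c67_lenB1]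
    change 44 + 4 * m = _
    omega
  have hn : ∀ o ∈ (tl 0 .first 0 :: tl 0 .NB 0 :: c67B1 m), o.kind ≠ .Y ∧ o.kind ≠ .T := by
    intro o ho
    simp only [List.mem_cons] at ho
    rcases ho with rfl | rfl | ho
    · simp [tl]
    · simp [tl]
    · have := c67_Q (c67_B1 _ ho)
      exact ⟨this.2.2.2.2.2.2.2.2, this.2.2.2.2.2.2.2.1⟩
  refine ⟨by rw [c67_layout]; rfl, by rw [c67_layout]; rfl, ?_, ?_⟩
  · rw [h, hc, c67_cnt_app, c67_num_zero fun o ho => (hn o ho).1, c67_aB]
    rfl
  · rw [h, hc, c67_cnt_app, c67_num_zero fun o ho => (hn o ho).2, c67_aB]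
    rfl

/-- The part before the kings. -/
private def c67PK (m : ℕ) (terms : ℕ → List (Bool × (ℕ → Option Bool))) : List Op :=
  tl 0 .first 0 :: tl 0 .NB 0 :: (c67B1 m ++ (tl 0 .NA 1 :: (c67B2 m ++ c67R m terms)))

private theorem c67_layK : layout m terms y0 =
    c67PK m terms ++ (c67K m m y0 ++ corB m) := by
  rw [c67_layout, c67_aB]
  simp [c67PK, corB, endB, c67_finB]

private theorem c67_lenPK : (c67PK m terms).length = 78 + 8 * m + rlen m terms := by
  simp only [c67PK, List.length_cons, List.length_append, c67_lenB1, c67_lenB2, c67_lenR]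
  omega

private theorem c67_PK : ∀ o ∈ c67PK m terms, o.kind ≠ .Y ∧ o.kind ≠ .T := by
  intro o ho
  simp only [c67PK, List.mem_cons, List.mem_append] at ho
  have hq : ∀ {r : ℕ} {o : Op}, c67Q r o → o.kind ≠ .Y ∧ o.kind ≠ .T := by
    intro r o h
    have := c67_Q h
    exact ⟨this.2.2.2.2.2.2.2.2, this.2.2.2.2.2.2.2.1⟩
  rcases ho with rfl | rfl | ho | rfl | ho | ho
  · simp [tl]
  · simp [tl]
  · exact hq (c67_B1 _ ho)
  · simp [tl]
  · exact hq (c67_B2 _ ho)
  · exact hq (c67_R _ ho)

private theorem c67_numK {n : ℕ} : num .Y (c67K m n y0) = n := by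
  induction n with
  | zero => simp [c67K, num]
  | succ n ih =>
    have h : c67K m (n + 1) y0 = c67K m n y0 ++ kingB (lsg m) n (y0 n) := by
      simp [c67K, List.range_succ, List.flatMap_append]
    have hs : ∀ S τ t, num .Y (send S τ t) = 0 := fun S τ t =>
      c67_num_zero fun o ho => (c67_Q (c67_send o ho)).2.2.2.2.2.2.2.2
    have hc : ∀ (o : Op) (l : List Op), num .Y (o :: l) =
        (if o.kind = .Y then 1 else 0) + num .Y l := by
      intro o l
      simp only [num, List.countP_cons, decide_eq_true_eq]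
      omega
    rw [h, c67_num_append, ih, kingB]
    simp only [hc, c67_num_append, hs, tl]
    simp


private theorem c67_corB_Y : ∀ o ∈ corB m, o.kind ≠ .Y := by
  intro o ho
  simp only [corB, endB, c67_finB, List.mem_cons, List.mem_append, List.not_mem_nil,
    or_false] at ho
  rcases ho with rfl | rfl | ho | rfl | rfl | rfl | ho | rfl | rfl
  · simp
  · simp
  · exact (c67_X' ho).2.2.2.2.2.2.2
  · simp
  · simp
  · simp [tl]
  · exact (c67_F' ho).2.2.2.2.2.2.2.2
  · simp [tl]
  · simp [bl]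

theorem lcirc_numY : num .Y (layout m terms y0) = m := by
  rw [c67_layK, c67_num_append, c67_num_append, c67_numK,
    c67_num_zero fun o ho => (c67_PK o ho).1, c67_num_zero c67_corB_Y]
  omega

theorem lcirc_len : (lcirc m terms y0).len = lLc := by
  change 28 * (lcL m terms + 136 - lcL m terms) = 28 * (xPart.length + 1)
  rw [c67_lenX]
  omega

theorem lstop_ok : StopOk lLc lstop := by
  constructor <;> decide +kernel

/-- The part before the corridor. -/
private def c67PX (m : ℕ) (terms : ℕ → List (Bool × (ℕ → Option Bool))) (y0 : ℕ → Bool) :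
    List Op :=
  c67PK m terms ++ (c67K m m y0 ++ [⟨.blank, 0, 2, 4, false⟩, ⟨.blank, 0, 2, 2, false⟩])

private theorem c67_layX : layout m terms y0 =
    c67PX m terms y0 ++ (xPart ++ endB m) := by
  rw [c67_layK]
  simp [c67PX, corB]

private theorem c67_lenPX : (c67PX m terms y0).length = lcL m terms + 1 := by
  simp only [c67PX, List.length_cons, List.length_append, c67_lenPK, c67_lenK, List.length_nil]
  simp only [lcL]
  omega

private theorem c67_PX : ∀ o ∈ c67PX m terms y0, o.kind ≠ .T := by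
  intro o ho
  simp only [c67PX, List.mem_cons, List.mem_append, List.not_mem_nil, or_false] at ho
  rcases ho with ho | ho | rfl | rfl
  · exact (c67_PK _ ho).2
  · rcases c67_K _ ho with h | h
    · exact (c67_Q h).2.2.2.2.2.2.2.1
    · rw [h.1]; decide
  · simp
  · simp

/-- The tiles T are in the corridor. -/
private theorem c67_T {c : ℕ} (hc : c < (layout m terms y0).length)
    (hT : ((layout m terms y0).getD c default).kind = .T) :
    ∃ i < 135, c = lcL m terms + 1 + i ∧
      (layout m terms y0).getD c default = xPart.getD i default ∧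
      cnt .T (layout m terms y0) c = cnt .T xPart i := by
  have hc' : lcL m terms < c ∧ c < lcL m terms + 136 := by
    rcases c67_cls hc with ⟨h, h'⟩ | ⟨h, h'⟩ | ⟨h, h', h1⟩ | ⟨h, h'⟩ | ⟨h, h', h1⟩ | ⟨h, h'⟩ |
      ⟨h, h', h1⟩ | ⟨h, h'⟩ | ⟨h, h'⟩ | ⟨h, h'⟩ | ⟨h, h', h1⟩ | ⟨h, h'⟩ | ⟨h, h'⟩
    · rw [h'] at hT; cases hT
    · rw [h'] at hT; cases hT
    · exact absurd hT (c67_Q h1).2.2.2.2.2.2.2.1
    · rw [h'] at hT; cases hT
    · rcases h1 with h1 | ⟨h1, _⟩ | h1
      · exact absurd hT (c67_Q h1).2.2.2.2.2.2.2.1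
      · rw [h1] at hT; cases hT
      · rw [h1] at hT; cases hT
    · rw [h'] at hT; cases hT
    · exact ⟨h, h'⟩
    · rw [h'] at hT; cases hT
    · rw [h'] at hT; cases hT
    · rw [h'] at hT; cases hT
    · exact absurd hT (c67_F' h1).2.2.2.2.2.2.2.1
    · rw [h'] at hT; cases hT
    · rw [h'] at hT; cases hT
  obtain ⟨i, rfl⟩ : ∃ i, c = (c67PX m terms y0).length + i :=
    ⟨c - (lcL m terms + 1), by rw [c67_lenPX]; omega⟩
  rw [c67_lenPX] at hc'
  have hi : i < 135 := by omega
  refine ⟨i, hi, by rw [c67_lenPX], ?_, ?_⟩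
  · rw [c67_layX, c67_right (by omega), Nat.add_sub_cancel_left,
      c67_left (by rw [c67_lenX]; exact hi)]
  · rw [c67_layX, c67_cnt_app, c67_num_zero c67_PX,
      c67_cnt_app_left (by rw [c67_lenX]; omega), Nat.zero_add]

private theorem c67_xT : ∀ i < 135, (xPart.getD i default).kind = .T →
    28 * i + 26 = lstop (cnt .T xPart i) ∧
    (xPart.getD i default).ini = decide (cnt .T xPart i = 1) := by
  decide +kernel

theorem lcirc_stop : ∀ c < (layout m terms y0).length,
    ((lcirc m terms y0).op c).kind = .T →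
    (lcirc m terms y0).stopAt c = lstop (cnt .T (layout m terms y0) c) := by
  intro c hc h
  change ((layout m terms y0).getD c default).kind = .T at h
  obtain ⟨i, hi, rfl, h1, h2⟩ := c67_T hc h
  rw [h2, ← (c67_xT i hi (by rw [← h1]; exact h)).1]
  change 28 * (lcL m terms + 1 + i) + 12 - (28 * lcL m terms + 14) = _
  omega

theorem lcirc_iniT : ∀ c < (layout m terms y0).length, ((lcirc m terms y0).op c).kind = .T →
    ((lcirc m terms y0).op c).ini = decide (cnt .T (layout m terms y0) c = 1) := by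
  intro c hc h
  change ((layout m terms y0).getD c default).kind = .T at h
  change ((layout m terms y0).getD c default).ini = _
  obtain ⟨i, hi, rfl, h1, h2⟩ := c67_T hc h
  rw [h2, ← (c67_xT i hi (by rw [← h1]; exact h)).2, h1]

private theorem c67_kingY {S k : ℕ} {b : Bool} : ∀ i < (kingB S k b).length,
    ((kingB S k b).getD i default).kind = .Y →
    ((kingB S k b).getD i default).ini = b ∧ cnt .Y (kingB S k b) i = 0 := by
  intro i hi h
  rcases i with _ | _ | i
  · rw [kingB] at h
    cases h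
  · exact ⟨rfl, rfl⟩
  · exfalso
    rw [kingB] at h hi
    rw [List.getD_cons_succ, List.getD_cons_succ] at h
    simp only [List.length_cons, List.length_append] at hi
    have hm := c67_mem (l := send S (23 + 4 * k) 18 ++ (send S (25 + 4 * k) 18 ++
      (tl 2 .M (21 + 4 * k) :: (send S (21 + 4 * k) 4 ++
        (tl 2 .M (23 + 4 * k) :: send S (23 + 4 * k) 4))))) (c := i)
      (by simp only [List.length_cons, List.length_append]; omega)
    generalize (List.getD _ i (default : Op)) = o at hm h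
    simp only [List.mem_append, List.mem_cons] at hm
    rcases hm with ho | ho | rfl | ho | rfl | ho
    · exact (c67_Q (c67_send o ho)).2.2.2.2.2.2.2.2 h
    · exact (c67_Q (c67_send o ho)).2.2.2.2.2.2.2.2 h
    · cases h
    · exact (c67_Q (c67_send o ho)).2.2.2.2.2.2.2.2 h
    · cases h
    · exact (c67_Q (c67_send o ho)).2.2.2.2.2.2.2.2 h

private theorem c67_KY {n : ℕ} : ∀ i < (c67K m n y0).length,
    ((c67K m n y0).getD i default).kind = .Y →
    ((c67K m n y0).getD i default).ini = y0 (cnt .Y (c67K m n y0) i) := by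
  induction n with
  | zero =>
    intro i hi
    simp [c67K] at hi
  | succ n ih =>
    intro i hi h
    have h' : c67K m (n + 1) y0 = c67K m n y0 ++ kingB (lsg m) n (y0 n) := by
      simp [c67K, List.range_succ, List.flatMap_append]
    rw [h'] at hi h ⊢
    rcases lt_or_ge i (c67K m n y0).length with h1 | h1
    · rw [c67_left h1] at h ⊢
      rw [c67_cnt_app_left h1.le]
      exact ih i h1 h
    · obtain ⟨j, rfl⟩ := Nat.exists_eq_add_of_le h1
      rw [c67_right h1, Nat.add_sub_cancel_left] at h ⊢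
      rw [List.length_append] at hi
      obtain ⟨h2, h3⟩ := c67_kingY j (by omega) h
      rw [h2, c67_cnt_app, c67_numK, h3]
      rfl

theorem lcirc_iniY : ∀ c < (layout m terms y0).length, ((lcirc m terms y0).op c).kind = .Y →
    ((lcirc m terms y0).op c).ini = y0 (cnt .Y (layout m terms y0) c) := by
  intro c hc h
  change ((layout m terms y0).getD c default).kind = .Y at h
  change ((layout m terms y0).getD c default).ini = _
  rw [c67_layK] at h hc ⊢
  rcases lt_or_ge c (c67PK m terms).length with h1 | h1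
  · rw [c67_left h1] at h
    exact absurd h (c67_PK _ (c67_mem h1)).1
  obtain ⟨i, rfl⟩ := Nat.exists_eq_add_of_le h1
  rw [c67_right h1, Nat.add_sub_cancel_left] at h ⊢
  rw [c67_cnt_app, c67_num_zero fun o ho => (c67_PK o ho).1, Nat.zero_add]
  rcases lt_or_ge i (c67K m m y0).length with h2 | h2
  · rw [c67_left h2] at h ⊢
    rw [c67_cnt_app_left h2.le]
    exact c67_KY i h2 h
  · rw [c67_right h2] at h
    rw [List.length_append, List.length_append] at hc
    exact absurd h (c67_corB_Y _ (c67_mem (by omega)))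

end Pool.Agent.MC95
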