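import Pool.Agent.MC95.PCross

/-!
# The strategy of White

PLAN. `force`: the label in step `k` is `labk k`: `5, _, 2, 3, 7, 6, 5, 1, 0, 4` for
`k % 10 = 0, ..., 9`, where the label for `k % 10 = 1` is `if o1 = 1 then 6 else 1` at `k = 1`,
`if o2 = 1 then 6 else 1` at `k = 11`, and `1` otherwise; `lam k (labk k)`, `nbr (labk k) (labk (k + 1))`.
Prove by induction on `2 * G - k`: for all `x'` with `g.dom i (x' i)` for `i < k`, `i < G`, with
`x' 0 = o1` if `1 ≤ k`, `x' 10 = o2` if `11 ≤ k`, and `g.Trans (if o2 = 1 then 2 else o1) x x'` if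
`G < k`, and all `s` with `AtLabel stop (labk k) s`, `g.Tck`, `g.Cfg t k x x' s.y`, White wins at `s`.
At `k = 2 * G` this is `H`, since `g.Cfg t (2 * G) x x' y` is `g.Cfg ((t + 1) % 3) 0 x' x' y`. At
`k = G` either `g.Trans _ x x'` holds or `clause_term` gives a claim. Otherwise use `cross` with
`w = labk k`, `w' = labk (k + 1)`, and `dev` (a satisfied term at `AtLabel stop w' s'` is a claim).
`proto_complete`: suppose White does not win at `g.s0 stop`. Let `S` be the set of all `x` with
`g.Dm x` such that for some `t < 3` and some `s` with `AtLabel stop 5 s`, `g.Tck`,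
`g.Cfg t 0 x x s.y` White does not win at `s`. Then `g.Def` by `force`: for the option `b` take
`(o1, o2) = (0, 0), (1, 0), (0, 1)` for `b = 0, 1, 2`.
-/

namespace Pool.Agent.MC95

variable {g : NG} {Lc : ℕ} {stop : ℕ → ℕ}

/-- The labels of the honest walk. -/
def labk (o1 o2 k : ℕ) : ℕ :=
  if k % 10 = 0 then 5
  else if k % 10 = 1 then (if (k = 1 ∧ o1 = 1) ∨ (k = 11 ∧ o2 = 1) then 6 else 1)
  else if k % 10 = 2 then 2
  else if k % 10 = 3 then 3
  else if k % 10 = 4 then 7
  else if k % 10 = 5 then 6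
  else if k % 10 = 6 then 5
  else if k % 10 = 7 then 1
  else if k % 10 = 8 then 0
  else 4

theorem labk_lt (o1 o2 k : ℕ) : labk o1 o2 k < 8 := by
  unfold labk
  split_ifs <;> omega

/-- The two possible labels of a step. -/
def labk' (c : ℕ) (b : Bool) : ℕ :=
  if c = 0 then 5
  else if c = 1 then (if b then 6 else 1)
  else if c = 2 then 2
  else if c = 3 then 3
  else if c = 4 then 7
  else if c = 5 then 6
  else if c = 6 then 5
  else if c = 7 then 1
  else if c = 8 then 0
  else 4

theorem wk_eq (o1 o2 k : ℕ) :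
    labk o1 o2 k = labk' (k % 10) (decide ((k = 1 ∧ o1 = 1) ∨ (k = 11 ∧ o2 = 1))) := by
  unfold labk labk'
  by_cases h : (k = 1 ∧ o1 = 1) ∨ (k = 11 ∧ o2 = 1) <;> simp [h]

theorem labk'_nbr : ∀ c < 10, ∀ b b' : Bool,
    nbr (labk' c b) (labk' ((c + 1) % 10) b') = true := by
  decide

theorem labk'_lam : ∀ c < 10, ∀ b : Bool, lam c (labk' c b) = true := by
  decide

theorem wk_nbr (o1 o2 k : ℕ) : nbr (labk o1 o2 k) (labk o1 o2 (k + 1)) = true := by
  rw [wk_eq, wk_eq]
  have h1 : (k + 1) % 10 = (k % 10 + 1) % 10 := by omega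
  rw [h1]
  exact labk'_nbr _ (Nat.mod_lt _ (by norm_num)) _ _

theorem wk_lam (o1 o2 k : ℕ) : lam k (labk o1 o2 k) = true := by
  have h1 : lam k (labk o1 o2 k) = lam (k % 10) (labk o1 o2 k) := by
    unfold lam
    rw [Nat.mod_mod]
  rw [h1, wk_eq]
  exact labk'_lam _ (Nat.mod_lt _ (by norm_num)) _

/-- A satisfied term at a label is a claim. -/
theorem claim_of_label {w : ℕ} (hw : w < 8) {s : AS} (ha : AtLabel stop w s)
    (ht : ∃ τ ∈ (g.ckt Lc stop).terms w, (g.ckt Lc stop).Sat τ s.y) :
    (g.ckt Lc stop).Claim s := by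
  obtain ⟨ha1, ha2, ha3⟩ := ha
  have hrt : rt s.al (w % 4) = w := by
    unfold rt
    rw [ha2]
    by_cases h4 : 4 ≤ w
    · simp only [h4, decide_true, if_true]; omega
    · simp only [h4, decide_false, Bool.false_eq_true, if_false]; omega
  refine ⟨w % 4, by omega, ha3, ?_⟩
  rw [hrt]
  exact ht

/-- The end of a round is the beginning of the next one. -/
theorem cfg_end {t : ℕ} {x x' : ℕ → ℕ} {y : ℕ → Bool} (ht : t < 3)
    (hc : g.Cfg t (2 * g.G) x x' y) : g.Cfg ((t + 1) % 3) 0 x' x' y := by
  intro t' ht' i hi v hv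
  rw [hc t' ht' i hi v hv]
  by_cases h1 : t' = t
  · have h2 : ¬ t' = (t + 1) % 3 := by omega
    have h3 : ¬ 2 * g.G ≤ i + g.G := by omega
    simp only [h1, if_true, h3, decide_false, Bool.and_false]
    rw [h1] at h2
    simp [h2]
  · by_cases h2 : t' = (t + 1) % 3
    · have h3 : i < 2 * g.G := by omega
      simp only [h2, if_true, h3, decide_true, Bool.and_true]
      rw [h2] at h1
      simp [h1]
    · simp [h1, h2]

theorem force_aux (h : g.Ok) (hs : StopOk Lc stop) {t o1 o2 : ℕ} (ht : t < 3) (ho1 : o1 < 2)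
    (ho2 : o2 < 2) {x : ℕ → ℕ} (hx : g.Dm x)
    (H : ∀ x', g.Dm x' → x' 0 = o1 → x' 10 = o2 →
      g.Trans (if o2 = 1 then 2 else o1) x x' →
      ∀ s, AtLabel stop 5 s → g.Tck Lc stop (stop 1) s.y → g.Cfg ((t + 1) % 3) 0 x' x' s.y →
        AWin (g.ckt Lc stop) true s) :
    ∀ (r k : ℕ), k + r = 2 * g.G → ∀ x' : ℕ → ℕ, (∀ i < g.G, i < k → g.dom i (x' i) = true) →
      (1 ≤ k → x' 0 = o1) → (11 ≤ k → x' 10 = o2) →
      (g.G < k → g.Trans (if o2 = 1 then 2 else o1) x x') →
      ∀ s, AtLabel stop (labk o1 o2 k) s → g.Tck Lc stop (stop (labk o1 o2 k % 4)) s.y →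
        g.Cfg t k x x' s.y → AWin (g.ckt Lc stop) true s := by
  have hG10 := h.hG
  have hG30 := h.hG'
  intro r
  induction r with
  | zero =>
    intro k hk x' hd h0 h10 hT s ha htk hc
    have hk' : k = 2 * g.G := by omega
    subst hk'
    have hw : labk o1 o2 (2 * g.G) = 5 := by
      unfold labk
      have : 2 * g.G % 10 = 0 := by omega
      rw [if_pos this]
    rw [hw] at ha htk
    exact H x' (fun i hi => hd i hi (by omega)) (h0 (by omega)) (h10 (by omega)) (hT (by omega))
      s ha htk (cfg_end ht hc)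
  | succ r ih =>
    intro k hk x' hd h0 h10 hT s ha htk hc
    by_cases hTk : k = g.G ∧ ¬ g.Trans (optc x') x x'
    · obtain ⟨hkG, hTn⟩ := hTk
      subst hkG
      have := clause_term (Lc := Lc) (stop := stop) h ht hx (fun i hi => hd i hi hi) hc hTn
        (labk o1 o2 g.G)
      exact AWin.claim (claim_of_label (labk_lt _ _ _) ha this) (fun _ => ha.1)
    · have hTk' : k = g.G → g.Trans (if o2 = 1 then 2 else o1) x x' := by
        intro hkG
        by_contra hne
        apply hTk
        refine ⟨hkG, ?_⟩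
        have : optc x' = if o2 = 1 then 2 else o1 := by
          unfold optc
          rw [h10 (by omega), h0 (by omega)]
        rw [this]
        exact hne
      refine cross h hs (labk_lt o1 o2 k) (labk_lt o1 o2 (k + 1)) (wk_nbr o1 o2 k) ha htk ?_
      intro s' ha' htk' hoff
      have hlam : lam (k + 1) (labk o1 o2 (k + 1)) = true := wk_lam _ _ _
      rcases dev (Lc := Lc) (stop := stop) h ht (by omega) hx hd hc hlam hoff with
        hτ | ⟨hkG, v, hdv, hvo, hc'⟩ | ⟨hkG, hc'⟩
      · exact AWin.claim (claim_of_label (labk_lt _ _ _) ha' hτ) (fun _ => ha'.1)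
      · refine ih (k + 1) (by omega) (Function.update x' k v) ?_ ?_ ?_ ?_ s' ha' htk' hc'
        · intro i hi hik
          by_cases hik' : i = k
          · rw [hik', Function.update_self]; exact hdv
          · rw [Function.update_of_ne hik']; exact hd i hi (by omega)
        · intro _
          by_cases hk0 : k = 0
          · have hv := hvo (Or.inl hk0)
            rw [hk0, Function.update_self, hv, hk0]
            unfold labk
            rcases (show o1 = 0 ∨ o1 = 1 by omega) with ho | ho <;> simp [ho]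
          · have : (0 : ℕ) ≠ k := fun he => hk0 he.symm
            rw [Function.update_of_ne this]; exact h0 (by omega)
        · intro _
          by_cases hk0 : k = 10
          · have hv := hvo (Or.inr hk0)
            rw [hk0, Function.update_self, hv, hk0]
            unfold labk
            rcases (show o2 = 0 ∨ o2 = 1 by omega) with ho | ho <;> simp [ho]
          · have : (10 : ℕ) ≠ k := fun he => hk0 he.symm
            rw [Function.update_of_ne this]; exact h10 (by omega)
        · intro hlt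
          omega
      · refine ih (k + 1) (by omega) x' ?_ (fun _ => h0 (by omega)) (fun _ => h10 (by omega)) ?_
          s' ha' htk' hc'
        · intro i hi _
          exact hd i hi (by omega)
        · intro _
          by_cases hk0 : k = g.G
          · exact hTk' hk0
          · exact hT (by omega)

theorem force (h : g.Ok) (hs : StopOk Lc stop) {t o1 o2 : ℕ} (ht : t < 3) (ho1 : o1 < 2)
    (ho2 : o2 < 2) {x : ℕ → ℕ} (hx : g.Dm x)
    (H : ∀ x', g.Dm x' → x' 0 = o1 → x' 10 = o2 →
      g.Trans (if o2 = 1 then 2 else o1) x x' →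
      ∀ s, AtLabel stop 5 s → g.Tck Lc stop (stop 1) s.y → g.Cfg ((t + 1) % 3) 0 x' x' s.y →
        AWin (g.ckt Lc stop) true s)
    {s : AS} (ha : AtLabel stop 5 s) (htk : g.Tck Lc stop (stop 1) s.y)
    (hc : g.Cfg t 0 x x s.y) : AWin (g.ckt Lc stop) true s := by
  refine force_aux h hs ht ho1 ho2 hx H (2 * g.G) 0 (by omega) x (fun i _ hi => by omega)
    (fun hi => by omega) (fun hi => by omega) (fun hi => by omega) s ?_ ?_ hc
  · exact ha
  · have hw : labk o1 o2 0 = 5 := rfl
    rw [hw]
    exact htk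

/-- If the defender does not win, White wins the abstract game. -/
theorem proto_complete (h : g.Ok) (hs : StopOk Lc stop) (hd : ¬ g.Def) :
    AWin (g.ckt Lc stop) true (g.s0 stop) := by
  by_contra hw
  apply hd
  refine ⟨{x | g.Dm x ∧ ∃ t < 3, ∃ s, AtLabel stop 5 s ∧ g.Tck Lc stop (stop 1) s.y ∧
    g.Cfg t 0 x x s.y ∧ ¬ AWin (g.ckt Lc stop) true s}, ?_, fun x hx => hx.1, ?_⟩
  · refine ⟨h.init_dom, 0, by norm_num, g.s0 stop, ⟨rfl, rfl, rfl⟩, ?_, ?_, hw⟩
    · intro e _ _ _ _
      show (if g.tk e < 3 * g.G * g.V then _ else decide (g.tk e - 3 * g.G * g.V < stop 1)) = _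
      have h1 : ¬ g.tk e < 3 * g.G * g.V := by unfold NG.tk; omega
      have h2 : g.tk e - 3 * g.G * g.V = e := by unfold NG.tk; omega
      rw [if_neg h1, h2]
    · intro t' ht' i hi v hv
      obtain ⟨k1, k2, k3⟩ := kg_decode (t := t') hi hv
      have hlt := kg_lt ht' hi hv
      show (if g.kg t' i v < 3 * g.G * g.V then
        decide (g.kg t' i v / g.V / g.G = 0) &&
          decide (g.kg t' i v % g.V = g.init (g.kg t' i v / g.V % g.G))
        else decide (g.kg t' i v - 3 * g.G * g.V < stop 1)) = _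
      rw [if_pos hlt, k1, k2, k3]
      by_cases ht0 : t' = 0
      · simp [ht0]
      · simp [ht0]
  · rintro x ⟨hx, t, ht, s, ha, htk, hc, hnw⟩ b hb
    by_contra hne
    push Not at hne
    apply hnw
    have key : ∀ o1 o2 : ℕ, o1 < 2 → o2 < 2 → (if o2 = 1 then 2 else o1) = b →
        AWin (g.ckt Lc stop) true s := by
      intro o1 o2 ho1 ho2 hob
      refine force h hs ht ho1 ho2 hx ?_ ha htk hc
      intro x' hx' _ _ hT s' ha' htk' hc'
      by_contra hnw'
      rw [hob] at hT
      exact hne x' ⟨hx', (t + 1) % 3, Nat.mod_lt _ (by norm_num), s', ha', htk', hc', hnw'⟩ hT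
    interval_cases b
    · exact key 0 0 (by norm_num) (by norm_num) (by norm_num)
    · exact key 1 0 (by norm_num) (by norm_num) (by norm_num)
    · exact key 0 1 (by norm_num) (by norm_num) (by norm_num)

end Pool.Agent.MC95
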