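import Pool.Agent.MC95.PDev

/-!
# Moving to a neighbouring label

PLAN. `tick_term`: if a king of an edge is wrong at a stop, the term of this edge is satisfied.
`cross`: if `w' = w ± 4` White moves `al`; Black changes at most one king; if it is the king of an
edge that is not one of `stop 0`, `stop 1`, `stop 2`, then `tick_term` gives a claim, otherwise use
`h`. If `w' = w ± 1`, White walks from `stop (w % 4)` to `stop (w' % 4)`, `n` steps in one direction,
crossing exactly one of the edges `stop 0`, `stop 1`, `stop 2` (`StopOk`; between the two stops lies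
exactly the edge `stop (min (w % 4) (w' % 4))`), so `n - 1` kings of edges have to change. The number
of kings that differ from the initial ones is at most the number of steps. At the end, if all kings
of edges are right, then `n - 1` of them have changed, hence at most one king of a cell, which is
`OneOff`; otherwise `tick_term` gives a claim.
-/

namespace Pool.Agent.MC95

variable {g : NG} {Lc : ℕ} {stop : ℕ → ℕ}

/-- The White kings are at the label `w`. -/
def AtLabel (stop : ℕ → ℕ) (w : ℕ) (s : AS) : Prop :=
  s.a = false ∧ s.al = decide (4 ≤ w) ∧ s.x = stop (w % 4)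

theorem tick_term (hs : StopOk Lc stop) {w : ℕ} (hw : w < 8) {s : AS} (ha : AtLabel stop w s)
    (ht : ¬ g.Tck Lc stop (stop (w % 4)) s.y) : (g.ckt Lc stop).Claim s := by
  obtain ⟨ha1, ha2, ha3⟩ := ha
  have hrt : rt s.al (w % 4) = w := by
    unfold rt
    rw [ha2]
    by_cases h4 : 4 ≤ w
    · simp only [h4, decide_true, if_true]; omega
    · simp only [h4, decide_false, Bool.false_eq_true, if_false]; omega
  unfold NG.Tck at ht
  push Not at ht
  obtain ⟨e, he, h0, h1, h2, hne⟩ := ht
  refine ⟨w % 4, by omega, ha3, ?_⟩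
  show ∃ τ ∈ g.terms Lc stop (rt s.al (w % 4)), (g.ckt Lc stop).Sat τ s.y
  rw [hrt]
  refine ⟨(!(e == stop 0) && !(e == stop 1) && !(e == stop 2),
        g.lit (fun _ _ _ => none) fun e' =>
          if e' = e then some (!decide (e < stop (w % 4))) else none), ?_, ?_⟩
  · unfold NG.terms
    rw [List.mem_append]
    right
    rw [List.mem_map]
    exact ⟨e, List.mem_range.mpr he, rfl⟩
  · refine ⟨?_, ?_⟩
    · simp [h0, h1, h2]
    · intro k _ p hp
      simp only [NG.lit] at hp
      split_ifs at hp with hk1 hk2
      have hk3 : k = g.tk e := by unfold NG.tk; omega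
      have hp' : (!decide (e < stop (w % 4))) = p := by simpa using hp
      rw [hk3, ← hp']
      revert hne
      cases s.y (g.tk e) <;> cases decide (e < stop (w % 4)) <;> simp

/-- The kings below `N` that differ. -/
def Df (N : ℕ) (y0 y : ℕ → Bool) : Finset ℕ := (Finset.range N).filter fun k => y k ≠ y0 k

theorem df_update {N k : ℕ} {y0 y : ℕ → Bool} {b : Bool} :
    (Df N y0 (Function.update y k b)).card ≤ (Df N y0 y).card + 1 := by
  have : Df N y0 (Function.update y k b) ⊆ insert k (Df N y0 y) := by
    intro i hi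
    unfold Df at hi ⊢
    rw [Finset.mem_filter] at hi
    rw [Finset.mem_insert, Finset.mem_filter]
    by_cases hik : i = k
    · exact Or.inl hik
    · right
      rw [Function.update_of_ne hik] at hi
      exact hi
  exact (Finset.card_le_card this).trans (Finset.card_insert_le _ _)

theorem df_bmove {C : Ckt} {N : ℕ} {y0 : ℕ → Bool} {s s' : AS} (h : BMove C s s') :
    (Df N y0 s'.y).card ≤ (Df N y0 s.y).card + 1 ∧ s'.a = s.a ∧ s'.al = s.al ∧ s'.x = s.x := by
  cases h with
  | pass => exact ⟨Nat.le_succ _, rfl, rfl, rfl⟩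
  | y k hk => exact ⟨df_update, rfl, rfl, rfl⟩

theorem stop_lt (hs : StopOk Lc stop) {j : ℕ} (hj : j < 4) : stop j < Lc := by
  have h0 := hs.h0
  have h1 := hs.h1
  have h2 := hs.h2
  have h3 := hs.h3
  interval_cases j <;> omega

/-- Few changes and right edge kings at the end: at most one king of a cell has changed. -/
theorem oneOff_of (hs : StopOk Lc stop) {j a b : ℕ} (hj : j < 3)
    (hab : (a = j ∧ b = j + 1) ∨ (a = j + 1 ∧ b = j)) {y0 y : ℕ → Bool}
    (h0 : g.Tck Lc stop (stop a) y0) (h1 : g.Tck Lc stop (stop b) y)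
    (hc : (Df (3 * g.G * g.V + Lc) y0 y).card ≤ stop (j + 1) - stop j) :
    OneOff (3 * g.G * g.V) y0 y := by
  have hlt : stop j < stop (j + 1) := by
    have h0 := hs.h0
    have h1 := hs.h1
    have h2 := hs.h2
    interval_cases j <;> assumption
  have hmid : ∀ e, stop j < e → e < stop (j + 1) →
      e < Lc ∧ e ≠ stop 0 ∧ e ≠ stop 1 ∧ e ≠ stop 2 := by
    intro e he1 he2
    have h0 := hs.h0
    have h1 := hs.h1
    have h2 := hs.h2
    have h3 := hs.h3
    interval_cases j <;> simp only [Nat.zero_add, Nat.reduceAdd] at he1 he2 <;>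
      (refine ⟨?_, ?_, ?_, ?_⟩ <;> omega)
  set N := 3 * g.G * g.V with hN
  set D := Df (N + Lc) y0 y with hD
  have hE : (Finset.Ioo (stop j) (stop (j + 1))).image g.tk ⊆ D.filter (fun k => ¬ k < N) := by
    intro k hk
    rw [Finset.mem_image] at hk
    obtain ⟨e, he, rfl⟩ := hk
    rw [Finset.mem_Ioo] at he
    obtain ⟨m0, m1, m2, m3⟩ := hmid e he.1 he.2
    rw [Finset.mem_filter, hD]
    unfold Df
    rw [Finset.mem_filter, Finset.mem_range]
    have e0 := h0 e m0 m1 m2 m3
    have e1 := h1 e m0 m1 m2 m3
    refine ⟨⟨?_, ?_⟩, ?_⟩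
    · unfold NG.tk; omega
    · rw [e0, e1]
      rcases hab with ⟨ra, rb⟩ | ⟨ra, rb⟩
      · rw [ra, rb]
        have : ¬ e < stop j := by omega
        simp [this, he.2]
      · rw [ra, rb]
        have : ¬ e < stop j := by omega
        simp [this, he.2]
    · unfold NG.tk; omega
  have hinj : ((Finset.Ioo (stop j) (stop (j + 1))).image g.tk).card = stop (j + 1) - stop j - 1 := by
    rw [Finset.card_image_of_injective, Nat.card_Ioo]
    intro a b hab'
    unfold NG.tk at hab'
    omega
  have hcard := Finset.card_le_card hE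
  rw [hinj] at hcard
  have hsum := Finset.card_filter_add_card_filter_not (s := D) (fun k => k < N)
  have hle : (D.filter fun k => k < N).card ≤ 1 := by omega
  have hmem : ∀ k < N, y k ≠ y0 k → k ∈ D.filter fun k => k < N := by
    intro k hk hne
    rw [Finset.mem_filter, hD]
    unfold Df
    rw [Finset.mem_filter, Finset.mem_range]
    exact ⟨⟨by omega, hne⟩, hk⟩
  rcases Nat.lt_or_ge (D.filter fun k => k < N).card 1 with hz | ho
  · left
    intro k hk
    by_contra hne
    have := hmem k hk hne
    have h2 : (D.filter fun k => k < N) = ∅ := by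
      rw [← Finset.card_eq_zero]; omega
    rw [h2] at this
    exact absurd this (Finset.notMem_empty _)
  · right
    have h1' : (D.filter fun k => k < N).card = 1 := by omega
    obtain ⟨k0, hk0⟩ := Finset.card_eq_one.mp h1'
    have hk0m : k0 ∈ D.filter fun k => k < N := by rw [hk0]; exact Finset.mem_singleton_self _
    rw [Finset.mem_filter, hD] at hk0m
    unfold Df at hk0m
    rw [Finset.mem_filter] at hk0m
    refine ⟨k0, hk0m.2, fun k hk => ?_⟩
    by_cases hkk : k = k0
    · rw [if_pos hkk, hkk]
      have := hk0m.1.2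
      revert this
      cases y k0 <;> cases y0 k0 <;> simp
    · rw [if_neg hkk]
      by_contra hne
      have := hmem k hk hne
      rw [hk0, Finset.mem_singleton] at this
      exact hkk this

/-- The walk along the corridor. -/
theorem walk (hs : StopOk Lc stop) {w' n : ℕ} {y0 : ℕ → Bool} (right : Bool)
    (hend : ∀ s', AtLabel stop w' s' → (Df (3 * g.G * g.V + Lc) y0 s'.y).card ≤ n →
      AWin (g.ckt Lc stop) true s') :
    ∀ (r : ℕ) (s : AS), s.a = false → s.al = decide (4 ≤ w') →
      (if right = true then s.x + r = stop (w' % 4) else s.x = stop (w' % 4) + r) →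
      (Df (3 * g.G * g.V + Lc) y0 s.y).card + r ≤ n → AWin (g.ckt Lc stop) true s := by
  intro r
  induction r with
  | zero =>
    intro s h1 h2 h3 h4
    refine hend s ⟨h1, h2, ?_⟩ (by omega)
    cases right <;> simp at h3 <;> omega
  | succ r ih =>
    intro s h1 h2 h3 h4
    cases right with
    | true =>
      simp only [if_true] at h3
      have hlt : s.x < Lc := by
        have := stop_lt hs (show w' % 4 < 4 by omega)
        omega
      refine AWin.move (WMove.right s hlt) ?_
      intro s'' hb
      obtain ⟨b1, b2, b3, b4⟩ := df_bmove (N := 3 * g.G * g.V + Lc) (y0 := y0) hb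
      simp only at b1 b2 b3 b4
      refine ih s'' (by rw [b2]; exact h1) (by rw [b3]; exact h2) ?_ (by omega)
      simp only [if_true]
      omega
    | false =>
      simp only [Bool.false_eq_true, if_false] at h3
      have hlt : 0 < s.x := by omega
      refine AWin.move (WMove.left s hlt) ?_
      intro s'' hb
      obtain ⟨b1, b2, b3, b4⟩ := df_bmove (N := 3 * g.G * g.V + Lc) (y0 := y0) hb
      simp only at b1 b2 b3 b4
      refine ih s'' (by rw [b2]; exact h1) (by rw [b3]; exact h2) ?_ (by omega)
      simp only [Bool.false_eq_true, if_false]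
      omega

theorem df_self (N : ℕ) (y : ℕ → Bool) : (Df N y y).card = 0 := by
  rw [Finset.card_eq_zero]
  unfold Df
  apply Finset.filter_eq_empty_iff.mpr
  intro k _
  simp

theorem cross (h : g.Ok) (hs : StopOk Lc stop) {w w' : ℕ} (hw : w < 8) (hw' : w' < 8)
    (hn : nbr w w' = true) {s : AS} (ha : AtLabel stop w s)
    (ht : g.Tck Lc stop (stop (w % 4)) s.y)
    (hcont : ∀ s', AtLabel stop w' s' → g.Tck Lc stop (stop (w' % 4)) s'.y →
      OneOff (3 * g.G * g.V) s.y s'.y → AWin (g.ckt Lc stop) true s') :
    AWin (g.ckt Lc stop) true s := by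
  obtain ⟨ha1, ha2, ha3⟩ := id ha
  -- finishing at the new label
  have fin : ∀ s', AtLabel stop w' s' →
      (g.Tck Lc stop (stop (w' % 4)) s'.y → OneOff (3 * g.G * g.V) s.y s'.y) →
      AWin (g.ckt Lc stop) true s' := by
    intro s' h1 h2
    by_cases h3 : g.Tck Lc stop (stop (w' % 4)) s'.y
    · exact hcont s' h1 h3 (h2 h3)
    · exact AWin.claim (tick_term hs hw' h1 h3) (fun _ => h1.1)
  have hcases : w' = (w + 4) % 8 ∨ (w' = w + 1 ∧ w % 4 < 3) ∨ (w = w' + 1 ∧ w' % 4 < 3) := by
    unfold nbr at hn
    simp only [Bool.or_eq_true, Bool.and_eq_true, beq_iff_eq, decide_eq_true_eq] at hn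
    tauto
  rcases hcases with h1 | ⟨h1, h2⟩ | ⟨h1, h2⟩
  · refine AWin.move (WMove.al s) ?_
    intro s'' hb
    have hal : (!s.al) = decide (4 ≤ w') := by
      rw [ha2, h1]
      by_cases h4 : 4 ≤ w
      · have : ¬ 4 ≤ (w + 4) % 8 := by omega
        simp [h4, this]
      · have : 4 ≤ (w + 4) % 8 := by omega
        simp [h4, this]
    have hmod : w' % 4 = w % 4 := by omega
    cases hb with
    | pass =>
      exact fin _ ⟨ha1, hal, by rw [hmod]; exact ha3⟩ fun _ => Or.inl fun k _ => rfl
    | y k hk =>
      refine fin _ ⟨ha1, hal, by rw [hmod]; exact ha3⟩ fun _ => ?_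
      simp only
      by_cases hk2 : k < 3 * g.G * g.V
      · refine Or.inr ⟨k, hk2, fun i _ => ?_⟩
        by_cases hik : i = k
        · rw [hik, Function.update_self]; simp
        · rw [Function.update_of_ne hik, if_neg hik]
      · refine Or.inl fun i hi => ?_
        have hik : i ≠ k := by omega
        rw [Function.update_of_ne hik]
  · -- right
    have e1 : w' % 4 = w % 4 + 1 := by omega
    have hlt : stop (w % 4) ≤ stop (w % 4 + 1) := by
      have h0 := hs.h0
      have h1 := hs.h1
      have h2' := hs.h2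
      generalize w % 4 = j at h2
      interval_cases j <;> simp only [Nat.zero_add, Nat.reduceAdd] <;> omega
    refine walk (w' := w') (y0 := s.y) (n := stop (w % 4 + 1) - stop (w % 4)) hs true ?_
      (stop (w % 4 + 1) - stop (w % 4)) s ha1 ?_ ?_ ?_
    · intro s' h3 h4
      refine fin s' h3 fun h5 => ?_
      rw [e1] at h5
      exact oneOff_of hs h2 (Or.inl ⟨rfl, rfl⟩) ht h5 h4
    · rw [ha2, h1]
      have : (4 ≤ w) ↔ (4 ≤ w + 1) := by omega
      simp only [this]
    · simp only [if_true]
      rw [ha3, e1]; omega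
    · rw [df_self]; omega
  · -- left
    have e1 : w % 4 = w' % 4 + 1 := by omega
    have hlt : stop (w' % 4) ≤ stop (w' % 4 + 1) := by
      have h0 := hs.h0
      have h1 := hs.h1
      have h2' := hs.h2
      generalize w' % 4 = j at h2
      interval_cases j <;> simp only [Nat.zero_add, Nat.reduceAdd] <;> omega
    refine walk (w' := w') (y0 := s.y) (n := stop (w' % 4 + 1) - stop (w' % 4)) hs false ?_
      (stop (w' % 4 + 1) - stop (w' % 4)) s ha1 ?_ ?_ ?_
    · intro s' h3 h4
      refine fin s' h3 fun h5 => ?_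
      rw [e1] at ht
      exact oneOff_of hs h2 (Or.inr ⟨rfl, rfl⟩) ht h5 h4
    · rw [ha2, h1]
      have : (4 ≤ w' + 1) ↔ (4 ≤ w') := by omega
      simp only [this]
    · simp only [Bool.false_eq_true, if_false]
      rw [ha3, e1]; omega
    · rw [df_self]; omega

end Pool.Agent.MC95
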