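import Pool.Agent.MC95.PDefs

/-!
# The strategy table of Black

`safe c o w`: in step `c` modulo `10`, with last option bit `o`, the label `w` is safe for Black.
-/

namespace Pool.Agent.MC95

/-- Safe labels. -/
def safe (c : ℕ) (o : Bool) (w : ℕ) : Bool :=
  match c with
  | 0 => w ∈ [0, 3, 4, 5, 7]
  | 1 => if o then w ∈ [0, 4, 5, 6, 7] else w ∈ [0, 1, 4, 5, 7]
  | 2 => w ∈ [0, 1, 2, 4, 5, 6]
  | 3 => w ∈ [0, 1, 2, 3, 4, 5]
  | 4 => w ∈ [0, 1, 2, 3, 4, 7]
  | 5 => w ∈ [0, 2, 3, 4, 6, 7]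
  | 6 => w ∈ [2, 3, 4, 5, 6, 7]
  | 7 => w ∈ [1, 2, 3, 5, 6, 7]
  | 8 => w ∈ [0, 1, 2, 3, 6, 7]
  | 9 => w ∈ [0, 2, 3, 4, 7]
  | _ => false

/-- Neighbouring labels. -/
def nbr (w w' : ℕ) : Bool :=
  w' == (w + 4) % 8 || (w' == w + 1 && w % 4 < 3) || (w == w' + 1 && w' % 4 < 3)

theorem safe_lt {c : ℕ} {o : Bool} {w : ℕ} (h : safe c o w = true) : c < 10 ∧ w < 8 := by
  rcases lt_or_ge c 10 with hc | hc
  · refine ⟨hc, ?_⟩
    interval_cases c <;> cases o <;> simp [safe] at h <;> omega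
  · exfalso
    obtain ⟨k, rfl⟩ := Nat.exists_eq_add_of_le' hc
    have h2 : safe (k + 10) o w = false := rfl
    rw [h2] at h
    exact Bool.false_ne_true h

private theorem nbr_lt {w w' : ℕ} (hw : w < 8) (h : nbr w w' = true) : w' < 8 := by
  simp only [nbr, Bool.or_eq_true, Bool.and_eq_true, beq_iff_eq, decide_eq_true_eq] at h
  omega

private theorem tab_bad : ∀ c < 10, ∀ w < 8, ∀ o : Bool, safe c o w = true → bad c w = false := by
  decide +kernel

private theorem tab_opt : ∀ w < 8, ∀ o : Bool, safe 1 o w = true →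
    (w = 1 → o = false) ∧ (w = 6 → o = true) := by
  decide +kernel

private def stepB (c : ℕ) (o : Bool) (w' : ℕ) : Bool :=
  safe c o w' ||
  ((c == 0) && (safe 1 false w' || safe 1 true w')) ||
  (decide (1 ≤ c) && safe ((c + 1) % 10) o w') ||
  ((c == 0) && (safe 9 false w' && safe 9 true w')) ||
  (decide (1 ≤ c) && safe (c - 1) o w')

private theorem tab_step : ∀ c < 10, ∀ w < 8, ∀ w' < 8, ∀ o : Bool, safe c o w = true →
    nbr w w' = true → stepB c o w' = true := by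
  decide +kernel

/-- Safe labels are not bad. -/
theorem safe_not_bad {c : ℕ} {o : Bool} {w : ℕ} (h : safe c o w = true) : bad c w = false :=
  tab_bad c (safe_lt h).1 w (safe_lt h).2 o h

theorem safe_opt {o : Bool} {w : ℕ} (h : safe 1 o w = true) :
    (w = 1 → o = false) ∧ (w = 6 → o = true) :=
  tab_opt w (safe_lt h).2 o h

/-- The replies of Black: stay, advance or retreat. -/
theorem safe_step {c : ℕ} {o : Bool} {w w' : ℕ} (h : safe c o w = true) (hn : nbr w w' = true) :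
    safe c o w' = true ∨
    (c = 0 ∧ ∃ o', safe 1 o' w' = true) ∨
    (1 ≤ c ∧ safe ((c + 1) % 10) o w' = true) ∨
    (c = 0 ∧ ∀ o', safe 9 o' w' = true) ∨
    (1 ≤ c ∧ safe (c - 1) o w' = true) := by
  have h1 := tab_step c (safe_lt h).1 w (safe_lt h).2 w' (nbr_lt (safe_lt h).2 hn) o h hn
  simp only [stepB, Bool.or_eq_true, Bool.and_eq_true, beq_iff_eq, decide_eq_true_eq] at h1
  rcases h1 with (((h1 | ⟨hc, h1⟩) | ⟨hc, h1⟩) | ⟨hc, h1, h2⟩) | ⟨hc, h1⟩
  · exact Or.inl h1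
  · refine Or.inr (Or.inl ⟨hc, ?_⟩)
    rcases h1 with h1 | h1
    · exact ⟨false, h1⟩
    · exact ⟨true, h1⟩
  · exact Or.inr (Or.inr (Or.inl ⟨hc, h1⟩))
  · refine Or.inr (Or.inr (Or.inr (Or.inl ⟨hc, fun o' => ?_⟩)))
    cases o'
    · exact h1
    · exact h2
  · exact Or.inr (Or.inr (Or.inr (Or.inr ⟨hc, h1⟩)))

theorem safe_zero {o o' : Bool} {w : ℕ} (h : safe 0 o w = true) : safe 0 o' w = true := h

theorem safe_init : safe 0 false 5 = true := by decide

end Pool.Agent.MC95
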