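import Pool.Agent.MC95.PCfg
import Pool.Agent.MC95.PTab

/-!
# The strategy of Black

PLAN. `inv_not_claim`: the five families of terms are handled by `cfg_D`, `cfg_N`, `cfg_A` (with
`safe_not_bad` and `safe_opt`; note that `lam` and `bad` only depend on `c % 10`), `cfg_C`, and by
`NG.Tck` at the stop; `grp stop (stop j) = j`.
`inv_move`: White moves the gate king: Black passes. White crosses an edge that is not one of
`stop 0`, `stop 1`, `stop 2`: the group does not change, Black changes the king of the edge. White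
crosses edge `stop j`, `j < 3`, or moves `al`: the label changes to a neighbour (`nbr`), Black
replies by `safe_step`: stay (pass); advance (`k < G`: write `x' k` in cell `k` of copy `t + 1`; at
`k = 0` and `k = 10` first replace `x'` by a successor of `x` from `TwoSided.next` with the right
options; `k ≥ G`: erase cell `k - G` of copy `t`; `k + 1 = 2 * G` becomes step `0` of copy
`(t + 1) % 3`, with a new `x'` from `TwoSided.next`); retreat (`0 < k ≤ G`: erase cell `k - 1` of
copy `t + 1`; `G < k`: write `x (k - G - 1)` in cell `k - G - 1` of copy `t`; `k = 0` becomes step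
`2 * G - 1` of copy `(t + 2) % 3`, where the predecessor from `TwoSided.prev` is used and its value
in cell `G - 1` is written). `10 ∣ G` gives `(k + 1) % 10`, `(2 * G - 1) % 10 = 9`.
-/

namespace Pool.Agent.MC95

/-- The invariant of Black. -/
def NG.Inv (g : NG) (Lc : ℕ) (stop : ℕ → ℕ) (R : Set (ℕ → ℕ)) (s : AS) : Prop :=
  ∃ t < 3, ∃ k < 2 * g.G, ∃ x ∈ R, ∃ x' ∈ R, ∃ o : Bool, g.TC x x' ∧ g.Cfg t k x x' s.y ∧
    g.Tck Lc stop s.x s.y ∧ s.x ≤ Lc ∧ (1 ≤ k → k ≤ 10 → (o = true ↔ x' 0 = 1)) ∧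
    (11 ≤ k → k ≤ 20 → (o = true ↔ x' 10 = 1)) ∧
    safe (k % 10) o (rt s.al (grp stop s.x)) = true

variable {g : NG} {Lc : ℕ} {stop : ℕ → ℕ} {R : Set (ℕ → ℕ)}

private theorem lit_kg {f : ℕ → ℕ → ℕ → Option Bool} {hh : ℕ → Option Bool} {t i v : ℕ}
    (ht : t < 3) (hi : i < g.G) (hv : v < g.V) : g.lit f hh (g.kg t i v) = f t i v := by
  obtain ⟨h1, h2, h3⟩ := kg_decode (t := t) hi hv
  have h4 := kg_lt ht hi hv
  unfold NG.lit
  rw [if_pos h4, h1, h2, h3]

private theorem lit_tk {f : ℕ → ℕ → ℕ → Option Bool} {hh : ℕ → Option Bool} {e : ℕ} :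
    g.lit f hh (g.tk e) = hh e := by
  unfold NG.lit NG.tk
  rw [if_neg (by omega), Nat.add_sub_cancel_left]

private theorem kg_lt_m {t i v : ℕ} (ht : t < 3) (hi : i < g.G) (hv : v < g.V) :
    g.kg t i v < (g.ckt Lc stop).m := by
  have h4 := kg_lt ht hi hv
  show g.kg t i v < 3 * g.G * g.V + Lc
  omega

private theorem tk_lt_m {e : ℕ} (he : e < Lc) : g.tk e < (g.ckt Lc stop).m := by
  show 3 * g.G * g.V + e < 3 * g.G * g.V + Lc
  omega

private theorem kg_inj {t i v t' i' v' : ℕ} (hi : i < g.G) (hv : v < g.V) (hi' : i' < g.G)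
    (hv' : v' < g.V) (h : g.kg t' i' v' = g.kg t i v) : t' = t ∧ i' = i ∧ v' = v := by
  obtain ⟨h1, h2, h3⟩ := kg_decode (t := t) hi hv
  obtain ⟨h4, h5, h6⟩ := kg_decode (t := t') hi' hv'
  rw [h] at h4 h5 h6
  exact ⟨by rw [← h4, h1], by rw [← h5, h2], by rw [← h6, h3]⟩

private theorem rt_lt {al : Bool} {j : ℕ} (hj : j < 4) : rt al j < 8 := by
  unfold rt
  cases al <;> simp <;> omega

private theorem rt_mod {al : Bool} {j : ℕ} (hj : j < 4) : rt al j % 4 = j := by
  unfold rt
  cases al <;> simp <;> omega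

private theorem grp_stop (hs : StopOk Lc stop) {j : ℕ} (hj : j < 4) : grp stop (stop j) = j := by
  obtain ⟨h0, h1, h2, h3⟩ := hs
  unfold grp
  interval_cases j
  · rw [if_neg (by omega), if_neg (by omega), if_neg (by omega)]
  · rw [if_pos (by omega), if_neg (by omega), if_neg (by omega)]
  · rw [if_pos (by omega), if_pos (by omega), if_neg (by omega)]
  · rw [if_pos (by omega), if_pos (by omega), if_pos (by omega)]

private theorem grp_lt (x : ℕ) : grp stop x < 4 := by
  unfold grp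
  split_ifs <;> omega

private theorem lam_mod (c w : ℕ) : lam (c % 10) w = lam c w := by
  unfold lam
  rw [Nat.mod_mod]

private theorem lam_congr {c c' : ℕ} (h : c % 10 = c' % 10) (w : ℕ) : lam c w = lam c' w := by
  rw [← lam_mod c, ← lam_mod c', h]

private theorem bad_mod (c w : ℕ) : bad (c % 10) w = bad c w := by
  unfold bad
  rw [lam_congr (c := c % 10 + 1) (c' := c + 1) (by omega),
    lam_congr (c := c % 10 + 2) (c' := c + 2) (by omega)]

theorem inv_not_claim (h : g.Ok) (hs : StopOk Lc stop) (hR : g.TwoSided R) {s : AS}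
    (hi : g.Inv Lc stop R s) : ¬ (g.ckt Lc stop).Claim s := by
  obtain ⟨t, ht, k, hk, x, hx, x', hx', o, hTC, hc, htck, hxl, ho1, ho2, hsafe⟩ := hi
  rintro ⟨j, hj, hsx, τ, hτ, hv, hsat⟩
  have hsx' : s.x = stop j := hsx
  have hdx := hR.dm x hx
  have hdx' := hR.dm x' hx'
  have hdx'' : ∀ i < g.G, i < k → g.dom i (x' i) = true := fun i hi _ => hdx' i hi
  rw [hsx', grp_stop hs hj] at hsafe
  have hτ' : τ ∈ g.terms Lc stop (rt s.al j) := hτ
  unfold NG.terms at hτ'
  simp only [List.mem_append, List.mem_flatMap, List.mem_map, List.mem_range,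
    List.mem_singleton] at hτ'
  rcases hτ' with (((hD | hN) | hA) | hC) | hE
  · obtain ⟨t', ht', i, hi, v, hv', u, hu, rfl⟩ := hD
    have e1 : s.y (g.kg t' i v) = true := hsat _ (kg_lt_m ht' hi hv') true (by
      dsimp only
      rw [lit_kg ht' hi hv', if_pos ⟨rfl, rfl, Or.inl rfl⟩])
    have e2 : s.y (g.kg t' i u) = true := hsat _ (kg_lt_m ht' hi hu) true (by
      dsimp only
      rw [lit_kg ht' hi hu, if_pos ⟨rfl, rfl, Or.inr rfl⟩])
    obtain ⟨h1, h2⟩ := cfg_D h ht hk hdx hdx'' hc ht' hi hv' hu e1 e2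
    subst h1
    simp [h2] at hv
  · subst hN
    obtain ⟨t', ht', v, hv', e⟩ := cfg_N h ht hk hdx hc
    have hG := h.hG'
    have e1 : s.y (g.kg t' (g.G - 1) v) = false := hsat _ (kg_lt_m ht' (by omega) hv') false (by
      dsimp only
      rw [lit_kg ht' (by omega) hv', if_pos (by omega)])
    rw [e] at e1
    cases e1
  · obtain ⟨t', ht', k', hk', v, hv', u, hu, rfl⟩ := hA
    have hl : ∀ t'' < 3, ∀ i < g.G, ∀ v' < g.V, ∀ p, g.litA t' k' v u t'' i v' = some p →
        s.y (g.kg t'' i v') = p := by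
      intro t'' ht'' i hi v' hv'' p hp
      exact hsat _ (kg_lt_m ht'' hi hv'') p (by
        dsimp only
        rw [lit_kg ht'' hi hv'', hp])
    obtain ⟨h1, h2, h3, h4⟩ := cfg_A h ht hk hdx hdx'' hc ht' hk' hv' hu hl
    subst h1 h2
    have hnb := safe_not_bad hsafe
    rw [bad_mod] at hnb
    have hv2 : badA k' v (rt s.al j) = true := hv
    unfold badA at hv2
    rw [hnb, Bool.false_or] at hv2
    simp only [Bool.and_eq_true, Bool.or_eq_true, beq_iff_eq] at hv2
    obtain ⟨h5, h6⟩ := hv2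
    rcases h5 with h5 | h5
    · subst h5
      obtain ⟨h7, h8⟩ := safe_opt hsafe
      have h9 := ho1 (by omega) (by omega)
      have h10 := h3 rfl
      rcases h6 with ⟨h6, h6'⟩ | ⟨h6, h6'⟩
      · have := h7 h6'
        rw [h6] at h10
        have := h9.2 h10.symm
        simp_all
      · have := h8 h6'
        have := h9.1 this
        omega
    · subst h5
      obtain ⟨h7, h8⟩ := safe_opt hsafe
      have h9 := ho2 (by omega) (by omega)
      have h10 := h4 rfl
      rcases h6 with ⟨h6, h6'⟩ | ⟨h6, h6'⟩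
      · have := h7 h6'
        rw [h6] at h10
        have := h9.2 h10.symm
        simp_all
      · have := h8 h6'
        have := h9.1 this
        omega
  · obtain ⟨t', ht', q, hq, rfl⟩ := hC
    refine cfg_C h ht hk hdx hdx' hTC hc ht' hq hv ?_
    intro t'' ht'' i hi v' hv'' p hp
    exact hsat _ (kg_lt_m ht'' hi hv'') p (by
      dsimp only
      rw [lit_kg ht'' hi hv'', hp])
  · obtain ⟨e, he, rfl⟩ := hE
    have hv2 : (!(e == stop 0) && !(e == stop 1) && !(e == stop 2)) = true := hv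
    simp only [Bool.and_eq_true, Bool.not_eq_true', beq_eq_false_iff_ne] at hv2
    obtain ⟨⟨h1, h2⟩, h3⟩ := hv2
    have e1 := hsat (g.tk e) (tk_lt_m he) (!decide (e < stop (rt s.al j % 4))) (by
      dsimp only
      rw [lit_tk, if_pos rfl])
    rw [htck e he h1 h2 h3, hsx', rt_mod hj] at e1
    by_cases h5 : e < stop j <;> simp [h5] at e1

private def FF (g : NG) (t k : ℕ) (x x' : ℕ → ℕ) (t' i v : ℕ) : Bool :=
  if t' = t then decide (v = x i) && decide (k ≤ i + g.G)
    else if t' = (t + 1) % 3 then decide (v = x' i) && decide (i < k)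
    else false

private theorem cfg_flip {t k t1 k1 t0 i0 v0 : ℕ} {x x' x1 x1' : ℕ → ℕ} {y : ℕ → Bool}
    (hc : g.Cfg t k x x' y) (ht0 : t0 < 3) (hi0 : i0 < g.G) (hv0 : v0 < g.V)
    (hF : ∀ t' < 3, ∀ i < g.G, ∀ v < g.V, FF g t1 k1 x1 x1' t' i v =
      if t' = t0 ∧ i = i0 ∧ v = v0 then !(FF g t k x x' t' i v) else FF g t k x x' t' i v) :
    g.Cfg t1 k1 x1 x1' (Function.update y (g.kg t0 i0 v0) (!y (g.kg t0 i0 v0))) := by
  intro t' ht' i hi v hv
  change _ = FF g t1 k1 x1 x1' t' i v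
  rw [hF t' ht' i hi v hv]
  by_cases hh : t' = t0 ∧ i = i0 ∧ v = v0
  · rw [if_pos hh]
    obtain ⟨rfl, rfl, rfl⟩ := hh
    rw [Function.update_self, hc t' ht' i hi v hv]
    rfl
  · rw [if_neg hh, Function.update_of_ne, hc t' ht' i hi v hv]
    · rfl
    · intro hcon
      exact hh (kg_inj hi0 hv0 hi hv hcon)

private theorem FF_succ_lt {t k : ℕ} {x x' : ℕ → ℕ} (ht : t < 3) (hk : k < g.G) {t' i v : ℕ}
    (ht' : t' < 3) (_ : i < g.G) : FF g t (k + 1) x x' t' i v =
      if t' = (t + 1) % 3 ∧ i = k ∧ v = x' k then !(FF g t k x x' t' i v)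
      else FF g t k x x' t' i v := by
  unfold FF
  have h3 : t ≠ (t + 1) % 3 := by omega
  by_cases h1 : t' = t
  · subst h1
    rw [if_pos rfl, if_pos rfl, if_neg (fun hh => h3 hh.1)]
    have e1 : k + 1 ≤ i + g.G := by omega
    have e2 : k ≤ i + g.G := by omega
    simp [e1, e2]
  · by_cases h2 : t' = (t + 1) % 3
    · subst h2
      rw [if_neg h1, if_neg h1, if_pos rfl, if_pos rfl]
      by_cases h4 : i = k
      · subst h4
        by_cases h5 : v = x' i <;> simp [h5]
      · rw [if_neg (fun hh => h4 hh.2.1)]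
        by_cases h5 : i < k
        · simp [h5, show i < k + 1 by omega]
        · simp [h5, show ¬ i < k + 1 by omega]
    · rw [if_neg h1, if_neg h1, if_neg h2, if_neg h2, if_neg (fun hh => h2 hh.1)]

private theorem FF_succ_ge {t k : ℕ} {x x' : ℕ → ℕ} (hk : g.G ≤ k) {t' i v : ℕ}
    (hi : i < g.G) : FF g t (k + 1) x x' t' i v =
      if t' = t ∧ i = k - g.G ∧ v = x (k - g.G) then !(FF g t k x x' t' i v)
      else FF g t k x x' t' i v := by
  unfold FF
  by_cases h1 : t' = t
  · subst h1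
    rw [if_pos rfl, if_pos rfl]
    by_cases h4 : i = k - g.G
    · subst h4
      have e1 : ¬ k + 1 ≤ k - g.G + g.G := by omega
      have e2 : k ≤ k - g.G + g.G := by omega
      by_cases h5 : v = x (k - g.G) <;> simp [h5, e1, e2]
    · rw [if_neg (fun hh => h4 hh.2.1)]
      by_cases h5 : k + 1 ≤ i + g.G
      · simp [h5, show k ≤ i + g.G by omega]
      · simp [h5, show ¬ k ≤ i + g.G by omega]
  · by_cases h2 : t' = (t + 1) % 3
    · rw [if_neg h1, if_neg h1, if_pos h2, if_pos h2, if_neg (fun hh => h1 hh.1)]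
      simp [show i < k + 1 by omega, show i < k by omega]
    · rw [if_neg h1, if_neg h1, if_neg h2, if_neg h2, if_neg (fun hh => h1 hh.1)]

private theorem flip_symm {P : Prop} [Decidable P] {a b : Bool} (h : a = if P then !b else b) :
    b = if P then !a else a := by
  by_cases hP : P
  · rw [if_pos hP] at h ⊢
    rw [h, Bool.not_not]
  · rw [if_neg hP] at h ⊢
    exact h.symm

/-- A change of at most one Black king. -/
private def Fl (g : NG) (y y' : ℕ → Bool) : Prop :=
  y' = y ∨ ∃ n < 3 * g.G * g.V, y' = Function.update y n (!y n)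

private theorem dm_lt (h : g.Ok) {x : ℕ → ℕ} (hx : g.Dm x) {i : ℕ} (hi : i < g.G) :
    x i < g.V := h.dom_lt i _ (hx i hi)

private theorem cfg_adv (h : g.Ok) {t k : ℕ} {x x' : ℕ → ℕ} {y : ℕ → Bool} (ht : t < 3)
    (hk : k < 2 * g.G) (hx : g.Dm x) (hx' : g.Dm x') (hc : g.Cfg t k x x' y) :
    ∃ y', Fl g y y' ∧ g.Cfg t (k + 1) x x' y' := by
  by_cases hkG : k < g.G
  · refine ⟨_, Or.inr ⟨g.kg ((t + 1) % 3) k (x' k), kg_lt (by omega) hkG (dm_lt h hx' hkG), rfl⟩,
      cfg_flip hc (by omega) hkG (dm_lt h hx' hkG) ?_⟩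
    intro t' ht' i hi v hv
    exact FF_succ_lt ht hkG ht' hi
  · have hkG2 : k - g.G < g.G := by omega
    refine ⟨_, Or.inr ⟨g.kg t (k - g.G) (x (k - g.G)), kg_lt ht hkG2 (dm_lt h hx hkG2), rfl⟩,
      cfg_flip hc ht hkG2 (dm_lt h hx hkG2) ?_⟩
    intro t' ht' i hi v hv
    exact FF_succ_ge (by omega) hi

private theorem cfg_ret (h : g.Ok) {t k : ℕ} {x x' : ℕ → ℕ} {y : ℕ → Bool} (ht : t < 3)
    (hk : k < 2 * g.G) (hx : g.Dm x) (hx' : g.Dm x') (hc : g.Cfg t (k + 1) x x' y) :
    ∃ y', Fl g y y' ∧ g.Cfg t k x x' y' := by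
  by_cases hkG : k < g.G
  · refine ⟨_, Or.inr ⟨g.kg ((t + 1) % 3) k (x' k), kg_lt (by omega) hkG (dm_lt h hx' hkG), rfl⟩,
      cfg_flip hc (by omega) hkG (dm_lt h hx' hkG) ?_⟩
    intro t' ht' i hi v hv
    exact flip_symm (FF_succ_lt ht hkG ht' hi)
  · have hkG2 : k - g.G < g.G := by omega
    refine ⟨_, Or.inr ⟨g.kg t (k - g.G) (x (k - g.G)), kg_lt ht hkG2 (dm_lt h hx hkG2), rfl⟩,
      cfg_flip hc ht hkG2 (dm_lt h hx hkG2) ?_⟩
    intro t' ht' i hi v hv
    exact flip_symm (FF_succ_ge (by omega) hi)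

/-- Step `2 * G` of copy `t` is step `0` of copy `t + 1`. -/
private theorem FF_wrap {t : ℕ} {x x' x'' : ℕ → ℕ} (ht : t < 3) {t' i v : ℕ} (ht' : t' < 3)
    (hi : i < g.G) : FF g t (2 * g.G) x x' t' i v = FF g ((t + 1) % 3) 0 x' x'' t' i v := by
  unfold FF
  by_cases h1 : t' = t
  · subst h1
    have h3 : t' ≠ (t' + 1) % 3 := by omega
    have h4 : t' ≠ ((t' + 1) % 3 + 1) % 3 := by omega
    rw [if_pos rfl, if_neg h3, if_neg h4]
    have : ¬ 2 * g.G ≤ i + g.G := by omega
    simp [this]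
  · rw [if_neg h1]
    by_cases h2 : t' = (t + 1) % 3
    · rw [if_pos h2, if_pos h2]
      have : i < 2 * g.G := by omega
      simp [this]
    · rw [if_neg h2, if_neg h2]
      simp

private theorem cfg_wrap {t : ℕ} {x x' x'' : ℕ → ℕ} {y : ℕ → Bool} (ht : t < 3) :
    g.Cfg t (2 * g.G) x x' y ↔ g.Cfg ((t + 1) % 3) 0 x' x'' y := by
  constructor
  · intro hc t' ht' i hi v hv
    rw [hc t' ht' i hi v hv]
    exact FF_wrap ht ht' hi
  · intro hc t' ht' i hi v hv
    rw [hc t' ht' i hi v hv]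
    exact (FF_wrap ht ht' hi).symm

private theorem cfg_congr {t k : ℕ} {x x' x'' : ℕ → ℕ} {y : ℕ → Bool}
    (hc : g.Cfg t k x x' y) (he : ∀ i < k, x'' i = x' i) : g.Cfg t k x x'' y := by
  intro t' ht' i hi v hv
  rw [hc t' ht' i hi v hv]
  by_cases h1 : t' = t
  · rw [if_pos h1, if_pos h1]
  · rw [if_neg h1, if_neg h1]
    by_cases h2 : t' = (t + 1) % 3
    · rw [if_pos h2, if_pos h2]
      by_cases h3 : i < k
      · rw [he i h3]
      · simp [h3]
    · rw [if_neg h2, if_neg h2]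

/-- The part of the invariant about the cells. -/
private def J (g : NG) (R : Set (ℕ → ℕ)) (w : ℕ) (y : ℕ → Bool) : Prop :=
  ∃ t < 3, ∃ k < 2 * g.G, ∃ x ∈ R, ∃ x' ∈ R, ∃ o : Bool, g.TC x x' ∧ g.Cfg t k x x' y ∧
    (1 ≤ k → k ≤ 10 → (o = true ↔ x' 0 = 1)) ∧
    (11 ≤ k → k ≤ 20 → (o = true ↔ x' 10 = 1)) ∧
    safe (k % 10) o w = true

private theorem exists_opt (k : ℕ) (x' : ℕ → ℕ) : ∃ o : Bool,
    (1 ≤ k → k ≤ 10 → (o = true ↔ x' 0 = 1)) ∧ (11 ≤ k → k ≤ 20 → (o = true ↔ x' 10 = 1)) := by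
  by_cases hk : k ≤ 10
  · refine ⟨decide (x' 0 = 1), fun _ _ => by simp, fun h1 _ => ?_⟩
    omega
  · refine ⟨decide (x' 10 = 1), fun _ h1 => ?_, fun _ _ => by simp⟩
    omega

private theorem j_step (h : g.Ok) (hR : g.TwoSided R) {w w' : ℕ} {y : ℕ → Bool}
    (hj : J g R w y) (hn : nbr w w' = true) : ∃ y', Fl g y y' ∧ J g R w' y' := by
  obtain ⟨t, ht, k, hk, x, hx, x', hx', o, hTC, hc, ho1, ho2, hsafe⟩ := hj
  have hdx := hR.dm x hx
  have hdx' := hR.dm x' hx'
  have hG := h.hG'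
  obtain ⟨G', hG10⟩ := h.hG
  rcases safe_step hsafe hn with h1 | ⟨h1, o', h2⟩ | ⟨h1, h2⟩ | ⟨h1, h2⟩ | ⟨h1, h2⟩
  · exact ⟨y, Or.inl rfl, t, ht, k, hk, x, hx, x', hx', o, hTC, hc, ho1, ho2, h1⟩
  · -- advance from a step divisible by 10
    have hk1 : k + 1 < 2 * g.G := by omega
    have hk10 : (k + 1) % 10 = 1 := by omega
    by_cases hk0 : k = 0
    · subst hk0
      obtain ⟨x2, hx2, e1, e2, hTC2⟩ := hR.next x hx (if o' then 1 else 0)
        (by split_ifs <;> omega) 0 (by omega)
      obtain ⟨y', hf, hc'⟩ := cfg_adv h ht hk hdx (hR.dm x2 hx2)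
        (cfg_congr (x'' := x2) hc (fun i hi => absurd hi (by omega)))
      refine ⟨y', hf, t, ht, 0 + 1, hk1, x, hx, x2, hx2, o', hTC2, hc', fun _ _ => ?_,
        fun h3 _ => absurd h3 (by omega), by rw [hk10]; exact h2⟩
      rw [e1]
      cases o' <;> simp
    · by_cases hk10' : k = 10
      · subst hk10'
        have hx0 : x' 0 < 2 := (h.dom_opt 0 _ (Or.inl rfl)).1 (hdx' 0 (by omega))
        obtain ⟨x2, hx2, e1, e2, hTC2⟩ := hR.next x hx (x' 0) hx0 (if o' then 1 else 0)
          (by split_ifs <;> omega)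
        have hdx2 := hR.dm x2 hx2
        have hcc : g.Cfg t 10 x x2 y := by
          refine cfg_congr (x'' := x2) hc (fun i hi => ?_)
          by_cases hi0 : i = 0
          · subst hi0
            exact e1
          · have e3 := (h.dom_dummy i (x2 i) (Or.inl (by omega))).1 (hdx2 i (by omega))
            have e4 := (h.dom_dummy i (x' i) (Or.inl (by omega))).1 (hdx' i (by omega))
            rw [e3, e4]
        obtain ⟨y', hf, hc'⟩ := cfg_adv h ht hk hdx hdx2 hcc
        refine ⟨y', hf, t, ht, 10 + 1, hk1, x, hx, x2, hx2, o', hTC2, hc',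
          fun _ h3 => absurd h3 (by omega), fun _ _ => ?_, by rw [hk10]; exact h2⟩
        rw [e2]
        cases o' <;> simp
      · obtain ⟨y', hf, hc'⟩ := cfg_adv h ht hk hdx hdx' hc
        refine ⟨y', hf, t, ht, k + 1, hk1, x, hx, x', hx', o', hTC, hc',
          fun _ h3 => absurd h3 (by omega), fun _ h3 => absurd h3 (by omega),
          by rw [hk10]; exact h2⟩
  · -- advance from a step not divisible by 10
    obtain ⟨y', hf, hc'⟩ := cfg_adv h ht hk hdx hdx' hc
    by_cases hk1 : k + 1 < 2 * g.G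
    · refine ⟨y', hf, t, ht, k + 1, hk1, x, hx, x', hx', o, hTC, hc',
        fun h3 h4 => ho1 (by omega) (by omega), fun h3 h4 => ho2 (by omega) (by omega), ?_⟩
      rw [← h2]
      congr 1
      omega
    · have hk2 : k + 1 = 2 * g.G := by omega
      obtain ⟨x2, hx2, e1, e2, hTC2⟩ := hR.next x' hx' 0 (by omega) 0 (by omega)
      rw [hk2] at hc'
      refine ⟨y', hf, (t + 1) % 3, by omega, 0, by omega, x', hx', x2, hx2, o, hTC2,
        (cfg_wrap ht).1 hc', fun h3 _ => absurd h3 (by omega), fun h3 _ => absurd h3 (by omega), ?_⟩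
      rw [← h2]
      congr 1
      omega
  · -- retreat from a step divisible by 10
    by_cases hk0 : k = 0
    · subst hk0
      obtain ⟨p, hp, hTCp⟩ := hR.prev x hx
      have ht2 : ((t + 2) % 3 + 1) % 3 = t := by omega
      have hc2 : g.Cfg ((t + 2) % 3) (2 * g.G - 1 + 1) p x y := by
        rw [show 2 * g.G - 1 + 1 = 2 * g.G by omega]
        refine (cfg_wrap (x'' := x') (by omega)).2 ?_
        rw [ht2]
        exact hc
      obtain ⟨y', hf, hc'⟩ := cfg_ret h (by omega) (by omega) (hR.dm p hp) hdx hc2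
      refine ⟨y', hf, (t + 2) % 3, by omega, 2 * g.G - 1, by omega, p, hp, x, hx, true, hTCp, hc',
        fun _ h3 => absurd h3 (by omega), fun _ h3 => absurd h3 (by omega), ?_⟩
      rw [show (2 * g.G - 1) % 10 = 9 by omega]
      exact h2 true
    · obtain ⟨k1, rfl⟩ : ∃ k1, k = k1 + 1 := ⟨k - 1, by omega⟩
      obtain ⟨y', hf, hc'⟩ := cfg_ret h ht (by omega) hdx hdx' hc
      obtain ⟨o', ho1', ho2'⟩ := exists_opt k1 x'
      refine ⟨y', hf, t, ht, k1, by omega, x, hx, x', hx', o', hTC, hc', ho1', ho2', ?_⟩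
      rw [show k1 % 10 = 9 by omega]
      exact h2 o'
  · -- retreat from a step not divisible by 10
    obtain ⟨k1, rfl⟩ : ∃ k1, k = k1 + 1 := ⟨k - 1, by omega⟩
    obtain ⟨y', hf, hc'⟩ := cfg_ret h ht (by omega) hdx hdx' hc
    have hk1 : k1 % 10 = (k1 + 1) % 10 - 1 := by omega
    by_cases hk10 : k1 % 10 = 0
    · obtain ⟨o', ho1', ho2'⟩ := exists_opt k1 x'
      refine ⟨y', hf, t, ht, k1, by omega, x, hx, x', hx', o', hTC, hc', ho1', ho2', ?_⟩
      rw [← hk1, hk10] at h2
      rw [hk10]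
      exact safe_zero h2
    · refine ⟨y', hf, t, ht, k1, by omega, x, hx, x', hx', o, hTC, hc',
        fun h3 h4 => ho1 (by omega) (by omega), fun h3 h4 => ho2 (by omega) (by omega), ?_⟩
      rw [hk1]
      exact h2

private theorem tck_fl {x : ℕ} {y y' : ℕ → Bool} (hf : Fl g y y') (ht : g.Tck Lc stop x y) :
    g.Tck Lc stop x y' := by
  rcases hf with rfl | ⟨n, hn, rfl⟩
  · exact ht
  · intro e he h0 h1 h2
    rw [Function.update_of_ne, ht e he h0 h1 h2]
    unfold NG.tk
    omega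

private theorem bmove_fl {s : AS} {y' : ℕ → Bool} (hf : Fl g s.y y') :
    BMove (g.ckt Lc stop) s { s with y := y' } := by
  rcases hf with h | ⟨n, hn, rfl⟩
  · have : ({ s with y := y' } : AS) = s := by rw [h]
    rw [this]
    exact BMove.pass s
  · exact BMove.y s n (by show n < 3 * g.G * g.V + Lc; omega)

private theorem cfg_upd_tk {t k e : ℕ} {b : Bool} {x x' : ℕ → ℕ} {y : ℕ → Bool}
    (hc : g.Cfg t k x x' y) : g.Cfg t k x x' (Function.update y (g.tk e) b) := by
  intro t' ht' i hi v hv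
  rw [Function.update_of_ne, hc t' ht' i hi v hv]
  have := kg_lt ht' hi hv
  unfold NG.tk
  omega

private theorem nbr_al {al : Bool} {j : ℕ} (hj : j < 4) : nbr (rt al j) (rt (!al) j) = true := by
  unfold nbr rt
  interval_cases j <;> cases al <;> decide

private theorem nbr_right {al : Bool} {j : ℕ} (hj : j < 3) :
    nbr (rt al j) (rt al (j + 1)) = true := by
  unfold nbr rt
  interval_cases j <;> cases al <;> decide

private theorem nbr_left {al : Bool} {j : ℕ} (hj : j < 3) :
    nbr (rt al (j + 1)) (rt al j) = true := by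
  unfold nbr rt
  interval_cases j <;> cases al <;> decide

/-- The group changes when an edge `stop j`, `j < 3`, is crossed. -/
private theorem grp_succ (hs : StopOk Lc stop) {x : ℕ} (hx : x = stop 0 ∨ x = stop 1 ∨ x = stop 2) :
    grp stop (x + 1) = grp stop x + 1 ∧ grp stop x < 3 := by
  obtain ⟨h0, h1, h2, h3⟩ := hs
  unfold grp
  rcases hx with rfl | rfl | rfl
  · rw [if_pos (by omega), if_neg (by omega), if_neg (by omega), if_neg (by omega),
      if_neg (by omega), if_neg (by omega)]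
    omega
  · rw [if_pos (by omega), if_pos (by omega), if_neg (by omega), if_pos (by omega),
      if_neg (by omega), if_neg (by omega)]
    omega
  · rw [if_pos (by omega), if_pos (by omega), if_pos (by omega), if_pos (by omega),
      if_pos (by omega), if_neg (by omega)]
    omega

private theorem grp_succ_eq {x : ℕ} (h0 : x ≠ stop 0) (h1 : x ≠ stop 1) (h2 : x ≠ stop 2) :
    grp stop (x + 1) = grp stop x := by
  unfold grp
  congr 1
  · congr 1
    · by_cases h : stop 0 < x
      · rw [if_pos h, if_pos (by omega)]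
      · rw [if_neg h, if_neg (by omega)]
    · by_cases h : stop 1 < x
      · rw [if_pos h, if_pos (by omega)]
      · rw [if_neg h, if_neg (by omega)]
  · by_cases h : stop 2 < x
    · rw [if_pos h, if_pos (by omega)]
    · rw [if_neg h, if_neg (by omega)]

/-- Changing the king of an edge. -/
private theorem tck_upd {x x1 e : ℕ} {y : ℕ → Bool} (ht : g.Tck Lc stop x y) (he : e < Lc)
    (h0 : e ≠ stop 0) (h1 : e ≠ stop 1) (h2 : e ≠ stop 2)
    (hx : decide (e < x1) = !decide (e < x)) (hx' : ∀ e', e' ≠ e → (e' < x1 ↔ e' < x)) :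
    g.Tck Lc stop x1 (Function.update y (g.tk e) (!y (g.tk e))) := by
  intro e' he' h0' h1' h2'
  by_cases hee : e' = e
  · subst hee
    rw [Function.update_self, ht e' he' h0' h1' h2', hx]
  · rw [Function.update_of_ne, ht e' he' h0' h1' h2']
    · simp only [hx' e' hee]
    · unfold NG.tk
      omega

private theorem tck_congr {x x1 : ℕ} {y : ℕ → Bool} (ht : g.Tck Lc stop x y)
    (hx : ∀ e', e' ≠ stop 0 → e' ≠ stop 1 → e' ≠ stop 2 → (e' < x1 ↔ e' < x)) :
    g.Tck Lc stop x1 y := by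
  intro e' he' h0' h1' h2'
  rw [ht e' he' h0' h1' h2']
  simp only [hx e' h0' h1' h2']

private theorem inv_of_j {s : AS} (hj : J g R (rt s.al (grp stop s.x)) s.y)
    (ht : g.Tck Lc stop s.x s.y) (hx : s.x ≤ Lc) : g.Inv Lc stop R s := by
  obtain ⟨t, ht', k, hk, x, hx1, x', hx', o, hTC, hc, ho1, ho2, hsafe⟩ := hj
  exact ⟨t, ht', k, hk, x, hx1, x', hx', o, hTC, hc, ht, hx, ho1, ho2, hsafe⟩

private theorem j_upd_tk {w e : ℕ} {b : Bool} {y : ℕ → Bool} (hj : J g R w y) :
    J g R w (Function.update y (g.tk e) b) := by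
  obtain ⟨t, ht', k, hk, x, hx1, x', hx', o, hTC, hc, ho1, ho2, hsafe⟩ := hj
  exact ⟨t, ht', k, hk, x, hx1, x', hx', o, hTC, cfg_upd_tk hc, ho1, ho2, hsafe⟩

private theorem inv_edge (h : g.Ok) (hR : g.TwoSided R) {s : AS}
    (hJ : J g R (rt s.al (grp stop s.x)) s.y) {s' : AS} (hy : s'.y = s.y)
    (hn : nbr (rt s.al (grp stop s.x)) (rt s'.al (grp stop s'.x)) = true)
    (ht : g.Tck Lc stop s'.x s'.y) (hx : s'.x ≤ Lc) :
    ∃ s'', BMove (g.ckt Lc stop) s' s'' ∧ g.Inv Lc stop R s'' := by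
  obtain ⟨y', hf, hj'⟩ := j_step h hR hJ hn
  rw [← hy] at hf
  exact ⟨{ s' with y := y' }, bmove_fl hf, inv_of_j hj' (tck_fl hf ht) hx⟩

theorem inv_move (h : g.Ok) (hs : StopOk Lc stop) (hR : g.TwoSided R) {s s' : AS}
    (hi : g.Inv Lc stop R s) (hw : WMove (g.ckt Lc stop) s s') :
    ∃ s'', BMove (g.ckt Lc stop) s' s'' ∧ g.Inv Lc stop R s'' := by
  obtain ⟨t, ht, k, hk, x, hx, x', hx', o, hTC, hc, htck, hxl, ho1, ho2, hsafe⟩ := hi
  have hJ : J g R (rt s.al (grp stop s.x)) s.y :=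
    ⟨t, ht, k, hk, x, hx, x', hx', o, hTC, hc, ho1, ho2, hsafe⟩
  cases hw with
  | al => exact inv_edge h hR (s' := { s with al := !s.al }) hJ rfl (nbr_al (grp_lt _)) htck hxl
  | right hlt =>
    have hlt' : s.x < Lc := hlt
    by_cases he : s.x = stop 0 ∨ s.x = stop 1 ∨ s.x = stop 2
    · obtain ⟨e1, e2⟩ := grp_succ hs he
      refine inv_edge h hR (s' := { s with x := s.x + 1 }) hJ rfl ?_
        (tck_congr htck (fun e' h0 h1 h2 => ?_)) hlt'
      · show nbr (rt s.al (grp stop s.x)) (rt s.al (grp stop (s.x + 1))) = true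
        rw [e1]
        exact nbr_right e2
      · show e' < s.x + 1 ↔ e' < s.x
        have : e' ≠ s.x := by
          rintro rfl
          rcases he with he | he | he
          · exact h0 he
          · exact h1 he
          · exact h2 he
        omega
    · simp only [not_or] at he
      obtain ⟨h0, h1, h2⟩ := he
      refine ⟨_, BMove.y _ (g.tk s.x) (tk_lt_m hlt'), inv_of_j ?_ ?_ hlt'⟩
      · show J g R (rt s.al (grp stop (s.x + 1))) (Function.update s.y (g.tk s.x) _)
        rw [grp_succ_eq h0 h1 h2]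
        exact j_upd_tk hJ
      · exact tck_upd htck hlt' h0 h1 h2 (by simp) (fun e' he' => by
          show e' < s.x + 1 ↔ e' < s.x
          omega)
  | left hlt =>
    have hlt' : s.x - 1 < Lc := by omega
    by_cases he : s.x - 1 = stop 0 ∨ s.x - 1 = stop 1 ∨ s.x - 1 = stop 2
    · obtain ⟨e1, e2⟩ := grp_succ hs he
      rw [show s.x - 1 + 1 = s.x by omega] at e1
      refine inv_edge h hR (s' := { s with x := s.x - 1 }) hJ rfl ?_
        (tck_congr htck (fun e' h0 h1 h2 => ?_)) hlt'.le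
      · show nbr (rt s.al (grp stop s.x)) (rt s.al (grp stop (s.x - 1))) = true
        rw [e1]
        exact nbr_left e2
      · show e' < s.x - 1 ↔ e' < s.x
        have : e' ≠ s.x - 1 := by
          rintro rfl
          rcases he with he | he | he
          · exact h0 he
          · exact h1 he
          · exact h2 he
        omega
    · simp only [not_or] at he
      obtain ⟨h0, h1, h2⟩ := he
      have hg : grp stop (s.x - 1) = grp stop s.x := by
        have := grp_succ_eq h0 h1 h2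
        rw [show s.x - 1 + 1 = s.x by omega] at this
        exact this.symm
      refine ⟨_, BMove.y _ (g.tk (s.x - 1)) (tk_lt_m hlt'), inv_of_j ?_ ?_ hlt'.le⟩
      · show J g R (rt s.al (grp stop (s.x - 1))) (Function.update s.y (g.tk (s.x - 1)) _)
        rw [hg]
        exact j_upd_tk hJ
      · refine tck_upd htck hlt' h0 h1 h2 ?_ (fun e' he' => ?_)
        · show decide (s.x - 1 < s.x - 1) = !decide (s.x - 1 < s.x)
          simp [show s.x - 1 < s.x by omega]
        · show e' < s.x - 1 ↔ e' < s.x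
          omega
  | a =>
    exact ⟨_, BMove.pass _, inv_of_j (s := { s with a := !s.a }) hJ htck hxl⟩

theorem inv_init (h : g.Ok) (hs : StopOk Lc stop) (hR : g.TwoSided R) (hi : g.init ∈ R) :
    g.Inv Lc stop R (g.s0 stop) := by
  have hG := h.hG'
  obtain ⟨h0, h1, h2, h3⟩ := hs
  obtain ⟨x2, hx2, e1, e2, hTC2⟩ := hR.next g.init hi 0 (by omega) 0 (by omega)
  refine ⟨0, by omega, 0, by omega, g.init, hi, x2, hx2, false, hTC2, ?_, ?_, ?_,
    fun h3 _ => absurd h3 (by omega), fun h3 _ => absurd h3 (by omega), ?_⟩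
  · intro t' ht' i hi v hv
    obtain ⟨d1, d2, d3⟩ := kg_decode (t := t') hi hv
    show (if g.kg t' i v < 3 * g.G * g.V then _ else _) = _
    rw [if_pos (kg_lt ht' hi hv), d1, d2, d3]
    by_cases h4 : t' = 0
    · simp [h4]
    · rw [if_neg h4]
      simp [h4]
  · intro e he _ _ _
    show (if g.tk e < 3 * g.G * g.V then _ else _) = _
    unfold NG.tk
    rw [if_neg (by omega), Nat.add_sub_cancel_left]
    rfl
  · show stop 1 ≤ Lc
    omega
  · show safe 0 false (rt true (grp stop (stop 1))) = true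
    rw [grp_stop ⟨h0, h1, h2, h3⟩ (by omega)]
    exact safe_init

private theorem no_win (h : g.Ok) (hs : StopOk Lc stop) (hR : g.TwoSided R) {P : Bool} {s : AS}
    (hw : AWin (g.ckt Lc stop) P s) : ¬ g.Inv Lc stop R s := by
  induction hw with
  | claim hc _ => exact fun hi => inv_not_claim h hs hR hi hc
  | move hm _ ih =>
    intro hi
    obtain ⟨s'', hb, hi''⟩ := inv_move h hs hR hi hm
    exact ih s'' hb hi''

/-- If the defender wins, White does not win the abstract game. -/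
theorem proto_sound (h : g.Ok) (he : g.Esc) (hs : StopOk Lc stop)
    (hw : AWin (g.ckt Lc stop) false (g.s0 stop)) : ¬ g.Def := by
  intro hd
  obtain ⟨R, hR, hi⟩ := exists_twoSided h hd he
  exact no_win h hs hR hw (inv_init h hs hR hi)

end Pool.Agent.MC95
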