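import Pool.Agent.MC95.LTop
import Pool.Agent.MC95.LOkC
import Pool.Agent.MC95.Conn
import Pool.Agent.MC95.PCross
import Pool.Agent.MC95.PComplete
import Pool.Agent.MC95.PInv

/-!
# Misère checkers and safety games

PLAN. `lcirc_link` by `lcirc_numY`, `lcirc_len`, `lcirc_stop`, `lcirc_cnt`, `layout_W1`, `layout_W0`
(for `C.ct s.al = cB` or `cA`, `wtrk s.al = 0` or `1`), `layout_L1`, `layout_L0`, `lcirc_dropA`;
`SatT` is `Ckt.Sat`. `misere_iff` by `conn_W`, `conn_L`, `proto_sound`, `proto_complete`.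
-/

namespace Pool.Agent.MC95

/-- The number of Black kings in tiles Y. -/
def NG.m (g : NG) : ℕ := 3 * g.G * g.V + lLc

/-- The circuit of a numerical safety game. -/
def NG.circ (g : NG) : Circ := lcirc g.m (g.terms lLc lstop) (g.s0 lstop).y

/-- The initial board. -/
def NG.board (g : NG) : Board :=
  g.circ.g.kboard g.circ.cL (kcOf g.circ.g.ops (g.s0 lstop) false)

private theorem link_drop0 {m : ℕ} {terms : ℕ → List (Bool × (ℕ → Option Bool))}
    {y0 : ℕ → Bool} : (lcirc m terms y0).g.ops.drop ((lcirc m terms y0).ct false + 1) =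
    (aB m terms y0).tail := lcirc_dropA

private theorem link_W (m : ℕ) (terms : ℕ → List (Bool × (ℕ → Option Bool))) (stop : ℕ → ℕ)
    (y0 : ℕ → Bool) (s : AS) (ha : s.a = false)
    (hc : ∃ q < 4, s.x = stop q ∧ ∃ τ ∈ terms (rt s.al q), SatT m τ s.y) :
    aW (lcirc m terms y0).g.sg stop s
      ((lcirc m terms y0).g.ops.drop ((lcirc m terms y0).ct s.al + 1)) 0 0 (wtrk s.al + 1) false
      s.al := by
  obtain ⟨q, hq, hx, hs⟩ := hc
  cases hal : s.al with
  | true =>
    have h := layout_W1 y0 hal ha hq hx hs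
    rw [hal] at h
    exact h
  | false =>
    have h := layout_W0 y0 hal ha hq hx hs
    rw [hal] at h
    rw [link_drop0]
    exact h

private theorem link_L (m : ℕ) (terms : ℕ → List (Bool × (ℕ → Option Bool))) (stop : ℕ → ℕ)
    (y0 : ℕ → Bool) (s : AS)
    (hc : ¬ ∃ q < 4, s.x = stop q ∧ ∃ τ ∈ terms (rt s.al q), SatT m τ s.y) :
    aL (lcirc m terms y0).g.sg stop s
      ((lcirc m terms y0).g.ops.drop ((lcirc m terms y0).ct s.al + 1)) 0 0 (wtrk s.al + 1) := by
  cases hal : s.al with
  | true => exact layout_L1 y0 hal hc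
  | false =>
    have h := layout_L0 y0 hal hc
    rw [link_drop0]
    exact h

private theorem link_gen (m Lc : ℕ) (terms : ℕ → List (Bool × (ℕ → Option Bool)))
    (stop : ℕ → ℕ) (y0 : ℕ → Bool) (h1 : (lcirc m terms y0).len = Lc)
    (h2 : ∀ c < (layout m terms y0).length, ((lcirc m terms y0).op c).kind = .T →
      (lcirc m terms y0).stopAt c = stop (cnt .T (layout m terms y0) c)) :
    Link (lcirc m terms y0) ⟨m, Lc, stop, terms⟩ where
  m := lcirc_numY
  len := h1
  stop := h2
  cnt0 al := by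
    obtain ⟨h1, h2, h3, h4⟩ := lcirc_cnt (m := m) (terms := terms) (y0 := y0)
    cases al with
    | true => exact ⟨h1, h2⟩
    | false => exact ⟨h3, h4⟩
  W s ha hc := link_W m terms stop y0 s ha hc
  L s hc := link_L m terms stop y0 s hc

theorem lcirc_link (g : NG) (y0 : ℕ → Bool) :
    Link (lcirc g.m (g.terms lLc lstop) y0) (g.ckt lLc lstop) :=
  link_gen g.m lLc (g.terms lLc lstop) lstop y0 lcirc_len lcirc_stop

theorem misere_iff (g : NG) (hg : g.Ok) (hE : g.Esc) :
    MisereWins g.circ.g.N .white g.board .white ↔ ¬ g.Def := by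
  have hC : g.circ.Ok := lcirc_ok
  have hK : Link g.circ (g.ckt lLc lstop) := lcirc_link g _
  have hs : (g.s0 lstop).x ≤ (g.ckt lLc lstop).Lc :=
    (lstop_ok.h1.trans (lstop_ok.h2.trans lstop_ok.h3)).le
  constructor
  · intro h
    exact proto_sound hg hE lstop_ok (conn_L hC hK hs h)
  · intro h
    exact conn_W hC hK (proto_complete hg lstop_ok h) hs false

end Pool.Agent.MC95
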