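import Pool.Agent.MC95.FCell
import Pool.Agent.MC95.LMain

/-!
# The encoding of the initial board

PLAN. `board_kcell`: unfold `NG.board`, `kboard`, `kingAt`; for the king of the corridor:
`κ.x = some (lstop 1)`, and the square of the corridor with this position is in column `12` of the
second tile T (`lcirc_stop`, `lcirc_iniT`), row `186`; conversely a tile T with `ini` is the second
one. (Squares of other tiles: `28 * c + x = 28 * c' + 12` gives `c = c'`, `x = 12`.) For Y:
`lcirc_iniY`. The kings of N1, of the gate and of the corner are in their initial positions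
(`(g.s0 lstop).al = true`, `a = false`, `tog = false`).
`encode_board`: `N = 28 * ops.length`; `List.range (28 * L)` is the concatenation of the blocks
`28 * c + x`, and `ops = (List.range L).map fun c => ops.getD c default`; `(28 * c + x + y) % 2 =
(x + y) % 2`. `board_valid`: in row `0` all men of the board are White (`bgc`), in the last row all
are Black; pieces only on dark squares by `kboard_dark`.
-/

namespace Pool.Agent.MC95

variable (g : NG)

section layout

variable {m : ℕ} {terms : ℕ → List (Bool × (ℕ → Option Bool))} {y0 : ℕ → Bool}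

/-- The part of the layout before the corridor. -/
private def fePre (m : ℕ) (terms : ℕ → List (Bool × (ℕ → Option Bool))) (y0 : ℕ → Bool) : List Op :=
  tl 0 .first 0 :: tl 0 .NB 0 :: (lad 1 1 (36 + 4 * m) ++ (fan 1 (31 + 4 * m) ++
    (tl 0 .NA 1 :: (lad 2 2 (27 + 4 * m) ++ (fan 2 (23 + 4 * m) ++
      ((List.range 8).flatMap (fun w => rootB m (lsg m) w (terms w)) ++
        ((List.range m).flatMap (fun k => kingB (lsg m) k (y0 k)) ++
          [⟨.blank, 0, 2, 4, false⟩, ⟨.blank, 0, 2, 2, false⟩])))))))

private theorem fe_layout : layout m terms y0 = fePre m terms y0 ++ (xPart ++ endB m) := by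
  simp only [layout, aB, rootsB, kingsB, corB, fePre, List.cons_append, List.append_assoc,
    List.nil_append]

private theorem fe_lenK (S k : ℕ) (b b' : Bool) : (kingB S k b).length = (kingB S k b').length := by
  simp [kingB]

private theorem fe_lenPre : (fePre m terms y0).length = lcL m terms + 1 := by
  have h1 : ((List.range m).flatMap fun k => kingB (lsg m) k (y0 k)).length = klen m := by
    rw [klen, List.length_flatMap, List.length_flatMap]
    exact congrArg List.sum (List.map_congr_left fun k _ => fe_lenK _ _ _ _)
  have h2 : ∀ r a, (fan r a).length = 6 := fun r a => rfl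
  have h3 : ∀ r a n, (lad r a n).length = n := fun r a n => by simp [lad]
  simp only [fePre, List.length_cons, List.length_append, h1, h2, h3, List.length_nil, lcL, rlen]
  omega

private theorem fe_stop1 : lstop 1 = 28 * ((xBlock 0).length + (xPre 1).length) + 26 := by
  decide +kernel

private theorem fe_x1 : (xBlock 0).length + (xPre 1).length < xPart.length ∧
    (xPart.getD ((xBlock 0).length + (xPre 1).length) default).kind = .T ∧
    (xPart.getD ((xBlock 0).length + (xPre 1).length) default).ini = true := by
  decide +kernel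

private theorem fe_op1 : ((lcirc m terms y0).op
      (lcL m terms + 1 + ((xBlock 0).length + (xPre 1).length))).kind = .T ∧
    ((lcirc m terms y0).op
      (lcL m terms + 1 + ((xBlock 0).length + (xPre 1).length))).ini = true := by
  have h : (lcirc m terms y0).op (lcL m terms + 1 + ((xBlock 0).length + (xPre 1).length)) =
      xPart.getD ((xBlock 0).length + (xPre 1).length) default := by
    change (layout m terms y0).getD _ default = _
    rw [fe_layout, List.getD_append_right _ _ _ _ (by rw [fe_lenPre]; omega), fe_lenPre,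
      Nat.add_sub_cancel_left, List.getD_append _ _ _ _ fe_x1.1]
  rw [h]
  exact fe_x1.2

/-- The king of the corridor is in column `12` of the second tile T. -/
private theorem fe_corr {c x y : ℕ} (hc : c < (layout m terms y0).length) (hx : x < 28) :
    (some (lstop 1) = some (28 * c + x - (28 * lcL m terms + 14)) ∧
      28 * lcL m terms + 14 ≤ 28 * c + x ∧
      1 ≤ ((lcirc m terms y0).op c).cor ∧ ((lcirc m terms y0).op c).cor ≤ 3 ∧
      y = 12 + 8 * bT + corRow ((lcirc m terms y0).op c) x) ↔
    (((lcirc m terms y0).op c).kind = .T ∧ ((lcirc m terms y0).op c).ini = true ∧ x = 12 ∧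
      y = 186) := by
  constructor
  · rintro ⟨h1, h2, -, -, h3⟩
    rw [Option.some.injEq, fe_stop1] at h1
    have hxe : x = 12 := by omega
    have hce : c = lcL m terms + 1 + ((xBlock 0).length + (xPre 1).length) := by omega
    have h4 := fe_op1 (m := m) (terms := terms) (y0 := y0)
    rw [← hce] at h4
    refine ⟨h4.1, h4.2, hxe, ?_⟩
    rw [h3, corRow, if_pos ⟨h4.1, by omega, by omega⟩, hxe]
    rfl
  · rintro ⟨h1, h2, h3, h4⟩
    have h5 := lcirc_iniT (m := m) (terms := terms) (y0 := y0) c hc h1
    have h6 := lcirc_stop (m := m) (terms := terms) (y0 := y0) c hc h1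
    rw [h2] at h5
    have h7 : cnt .T (layout m terms y0) c = 1 := by
      have := h5.symm
      simpa using this
    rw [h7] at h6
    change 28 * c + 12 - (28 * lcL m terms + 14) = lstop 1 at h6
    have h8 : 0 < lstop 1 := by rw [fe_stop1]; omega
    have h9 := (lcirc_ok (m := m) (terms := terms) (y0 := y0)).tiles c hc
    obtain ⟨-, -, h9⟩ := h9
    rw [h1] at h9
    have h10 := h9.2
    refine ⟨?_, by omega, by omega, by omega, ?_⟩
    · rw [h3, h6]
    · rw [h4, corRow, if_pos ⟨h1, by omega, by omega⟩, h3]
      rfl

end layout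

private theorem fe_div (c x : ℕ) (hx : x < 28) : (28 * c + x) / 28 = c := by omega

private theorem fe_mod (c x : ℕ) (hx : x < 28) : (28 * c + x) % 28 = x := by omega

theorem board_kcell {c x y : ℕ} (hc : c < g.circ.g.ops.length) (hx : x < 28)
    (hy : y < g.circ.g.N) (hd : (x + y) % 2 = 0) :
    g.board (((28 * c + x : ℕ) : ℤ), (y : ℤ)) =
      kcell g.circ.g.N g.circ.g.sg (g.circ.op c) x y := by
  have hN : g.circ.g.N = 28 * g.circ.g.ops.length := rfl
  have hdark : IsDark g.circ.g.N (((28 * c + x : ℕ) : ℤ), (y : ℤ)) := by
    have h1 : 28 * c + x < g.circ.g.N := by rw [hN]; omega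
    have h2 : 2 ∣ 28 * c + x + y := by omega
    refine ⟨Int.natCast_nonneg _, Int.ofNat_lt.2 h1, Int.natCast_nonneg _, Int.ofNat_lt.2 hy, ?_⟩
    change (2 : ℤ) ∣ ((28 * c + x : ℕ) : ℤ) + (y : ℤ)
    exact_mod_cast h2
  have hcor := fe_corr (m := g.m) (terms := g.terms lLc lstop) (y0 := (g.s0 lstop).y)
    (c := c) (x := x) (y := y) hc hx
  have hY : (g.circ.op c).kind = .Y → (g.circ.op c).ini =
      (g.s0 lstop).y (cnt .Y g.circ.g.ops c) := lcirc_iniY c hc
  unfold NG.board Geo.kboard
  rw [if_pos hdark]
  have e1 : (((28 * c + x : ℕ) : ℤ), (y : ℤ)).1.toNat = 28 * c + x := Int.toNat_natCast _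
  have e2 : (((28 * c + x : ℕ) : ℤ), (y : ℤ)).2.toNat = y := Int.toNat_natCast _
  rw [e1, e2, fe_div c x hx, fe_mod c x hx]
  have k0 : g.circ.g.ops.getD c default = g.circ.op c := rfl
  have k1 : (kcOf g.circ.g.ops (g.s0 lstop) false).x = some (lstop 1) := rfl
  have k2 : (kcOf g.circ.g.ops (g.s0 lstop) false).al = some true := rfl
  have k3 : (kcOf g.circ.g.ops (g.s0 lstop) false).a = false := rfl
  have k4 : (kcOf g.circ.g.ops (g.s0 lstop) false).y c =
      (g.s0 lstop).y (cnt .Y g.circ.g.ops c) := rfl
  have k5 : (kcOf g.circ.g.ops (g.s0 lstop) false).tog = false := rfl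
  rw [k0]
  generalize kcOf g.circ.g.ops (g.s0 lstop) false = κ at k1 k2 k3 k4 k5 ⊢
  unfold kingAt kcell
  rw [k1, k2, k3, k4, k5]
  change (some (lstop 1) = some (28 * c + x - (28 * g.circ.cL + 14)) ∧
      28 * g.circ.cL + 14 ≤ 28 * c + x ∧
      1 ≤ (g.circ.op c).cor ∧ (g.circ.op c).cor ≤ 3 ∧
      y = 12 + 8 * bT + corRow (g.circ.op c) x) ↔ ((g.circ.op c).kind = .T ∧
      (g.circ.op c).ini = true ∧ x = 12 ∧ y = 186) at hcor
  by_cases h1 : (g.circ.op c).kind = .T ∧ (g.circ.op c).ini = true ∧ x = 12 ∧ y = 186
  · rw [if_pos (hcor.2 h1), if_pos h1]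
  · rw [if_neg (fun h => h1 (hcor.1 h)), if_neg h1]
    clear hcor h1
    rcases hk : (g.circ.op c).kind with _ | _ | _ | _ | _ | _ | _ | _ | _ | _ | _ | _ | _ | _
    case Y =>
      rw [← hY hk]
      simp only [reduceCtorEq, false_and, true_and, if_false]
      by_cases h : ((g.circ.op c).ini = true ∧ x = 10 ∧ y = 24 + 8 * (g.circ.op c).trk) ∨
          ((g.circ.op c).ini = false ∧ x = 9 ∧ y = 25 + 8 * (g.circ.op c).trk)
      · rw [if_pos h, if_pos (h.imp (fun h => ⟨h.1, h.2.1, by omega⟩) fun h => ⟨h.1, h.2.1, by omega⟩)]
      · rw [if_neg h, if_neg fun h' => h (h'.imp (fun h => ⟨h.1, h.2.1, by omega⟩)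
          fun h => ⟨h.1, h.2.1, by omega⟩)]
    case N1 =>
      simp only [reduceCtorEq, false_and, true_and, if_false, or_false, Option.some.injEq,
        Nat.reduceAdd]
      split_ifs <;> rfl
    case G =>
      simp only [reduceCtorEq, false_and, true_and, if_false, or_false]
      by_cases h : x = 14 ∧ y = 30 + 8 * (g.circ.op c).trk
      · rw [if_pos h, if_pos ⟨h.1, by omega⟩]
      · rw [if_neg h, if_neg fun h' => h ⟨h'.1, by omega⟩]
    case first =>
      simp only [reduceCtorEq, false_and, true_and, if_false, or_false]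
      split_ifs <;> rfl
    all_goals simp only [reduceCtorEq, false_and, if_false]

private theorem fe_range {α : Type*} (f : ℕ → List α) (L : ℕ) :
    (List.range (28 * L)).flatMap f =
      (List.range L).flatMap fun c => (List.range 28).flatMap fun x => f (28 * c + x) := by
  induction L with
  | zero => rfl
  | succ L ih =>
    rw [show 28 * (L + 1) = 28 * L + 28 by ring, List.range_add, List.flatMap_append, ih,
      List.range_succ (n := L), List.flatMap_append, List.flatMap_map]
    simp only [List.flatMap_cons, List.flatMap_nil, List.append_nil]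

private theorem fe_getD {α β : Type*} (d : α) (F : α → List β) (l : List α) :
    l.flatMap F = (List.range l.length).flatMap fun c => F (l.getD c d) := by
  have h : l = (List.range l.length).map fun c => l.getD c d := by
    apply List.ext_getElem
    · simp
    · intro i h1 h2
      simp [h1]
  conv_lhs => rw [h, List.flatMap_map]

private theorem fe_congr {α : Type*} {L : ℕ} {f f' : ℕ → List α} (h : ∀ c < L, f c = f' c) :
    (List.range L).flatMap f = (List.range L).flatMap f' := by
  simp only [List.flatMap_def]
  congr 1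
  exact List.map_congr_left fun c hc => h c (List.mem_range.1 hc)

private theorem fe_enc {N : ℕ} {b : Board} {X : List Bool}
    (h : ((List.range N).flatMap fun y : ℕ => (List.range N).flatMap fun x : ℕ =>
      if (x + y) % 2 = 0 then codeSquare (b ((x : ℤ), (y : ℤ))) else []) = X) :
    encode N b .white = List.replicate N true ++ ([false, false] ++ X) := by
  subst h
  rfl

theorem encode_board : encode g.circ.g.N g.board .white =
    List.replicate g.circ.g.N true ++ ([false, false] ++
      (List.range g.circ.g.N).flatMap fun y =>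
        g.circ.g.ops.flatMap fun o => tileRow g.circ.g.N g.circ.g.sg o y) := by
  refine fe_enc ?_
  refine fe_congr fun y hy => ?_
  rw [fe_getD default (fun o => tileRow g.circ.g.N g.circ.g.sg o y) g.circ.g.ops,
    show List.range g.circ.g.N = List.range (28 * g.circ.g.ops.length) from rfl, fe_range]
  refine fe_congr fun c hc => ?_
  unfold tileRow
  refine fe_congr fun x hx => ?_
  have h : (28 * c + x + y) % 2 = 0 ↔ (x + y) % 2 = 0 := by omega
  by_cases h1 : (x + y) % 2 = 0
  · rw [if_pos (h.2 h1), if_pos h1, board_kcell g hc hx hy h1]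
    rfl
  · rw [if_neg (fun h2 => h1 (h.1 h2)), if_neg h1]

private theorem fe_king {N cL : ℕ} {κ : KC} {op : Op} {c x y : ℕ} {p : Piece}
    (h : kingAt N cL κ op c x y = some p) : p.king = true := by
  unfold kingAt at h
  by_cases h1 : κ.x = some (28 * c + x - (28 * cL + 14)) ∧ 28 * cL + 14 ≤ 28 * c + x ∧
      1 ≤ op.cor ∧ op.cor ≤ 3 ∧ y = 12 + 8 * bT + corRow op x
  · rw [if_pos h1] at h
    rw [← Option.some.inj h]
  · rw [if_neg h1] at h
    cases hk : op.kind <;> rw [hk] at h <;> (try dsimp only at h) <;> (try split_ifs at h) <;>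
      first | (rw [← Option.some.inj h]) | cases h

private theorem fe_ytop (k : Kind) : k.ytop ≤ 28 := by
  cases k <;> decide

theorem board_valid : Valid g.circ.g.N g.board := by
  intro s p h
  have hd : IsDark g.circ.g.N s := kboard_dark s p h
  refine ⟨hd, ?_⟩
  by_contra hcon
  rw [not_or, not_not] at hcon
  obtain ⟨hk, hf⟩ := hcon
  have hok : g.circ.Ok := lcirc_ok
  have hsize := hok.size
  have hsg := hok.sg24
  have hN : g.circ.g.N = 28 * g.circ.g.ops.length := rfl
  obtain ⟨h1, h2, h3, h4, h5⟩ := hd
  have hcl : s.1.toNat / 28 < g.circ.g.ops.length := by omega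
  have htile := hok.tiles _ hcl
  unfold NG.board Geo.kboard at h
  rw [if_pos ⟨h1, h2, h3, h4, h5⟩] at h
  split at h
  · next q hq =>
    rw [Option.some.inj h] at hq
    exact hk (fe_king hq)
  · next hq =>
    change cell g.circ.g.N g.circ.g.sg (g.circ.op (s.1.toNat / 28)) (s.1.toNat % 28) s.2.toNat
      = some p at h
    generalize g.circ.op (s.1.toNat / 28) = o at h htile
    have hy := fe_ytop o.kind
    have htrk : o.kind ≠ .first → o.kind ≠ .blank → o.trk ≤ g.circ.g.sg := by
      intro k1 k2
      obtain ⟨-, -, h9⟩ := htile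
      revert h9
      cases hk : o.kind <;> intro h9 <;>
        first | exact absurd hk k1 | exact absurd hk k2 | (dsimp only at h9; omega)
    obtain ⟨col, kg⟩ := p
    cases col with
    | white =>
      change s.2 = (g.circ.g.N : ℤ) - 1 at hf
      have hy1 : s.2.toNat + 1 = g.circ.g.N := by omega
      unfold cell at h
      rw [if_neg] at h
      swap
      · rintro ⟨k1, k2, -, -, -, k3⟩
        have := htrk k1 k2
        omega
      rw [if_neg (by unfold bT; omega), if_neg (by unfold bT; omega),
        if_neg (by unfold bT; omega)] at h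
      split_ifs at h <;> first | omega | cases h
    | black =>
      change s.2 = 0 at hf
      have hy1 : s.2.toNat = 0 := by omega
      unfold cell at h
      rw [if_neg (by rintro ⟨-, -, -, -, k3, -⟩; omega), if_neg (by unfold bT; omega),
        if_neg (by unfold bT; omega), if_neg (by unfold bT; omega), if_neg (by omega),
        if_neg (by omega), if_neg (by omega), if_neg (by omega), if_neg (by omega)] at h
      rw [hy1] at h
      cases h

end Pool.Agent.MC95
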