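import Pool.Agent.MC95.Rules

/-!
# The encoding of positions is injective

PLAN. The number `N` is determined by the unary prefix (see `unary_inj` in
`Pool.Agent.MEternal.Language`); the code of each square has length three and determines the
content; the codes of the squares come in a fixed order, so equality of the concatenations gives
equality of the parts (`List.flatMap` over `List.range`, parts of equal length; induction).
-/

namespace Pool.Agent.MC95

theorem codeSquare_inj {p q : Option Piece} (h : codeSquare p = codeSquare q) : p = q := by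
  rcases p with _ | ⟨_ | _, _ | _⟩ <;> rcases q with _ | ⟨_ | _, _ | _⟩ <;>
    first | rfl | (exfalso; revert h; decide)

private lemma finj_length (p : Option Piece) : (codeSquare p).length = 3 := by
  rcases p with _ | p <;> rfl

private lemma finj_unary : ∀ (n m : ℕ) (L L' : List Bool),
    List.replicate n true ++ false :: L = List.replicate m true ++ false :: L' →
      n = m ∧ L = L'
  | 0, 0, L, L', h => by simpa using h
  | 0, m + 1, L, L', h => by simp [List.replicate_succ] at h
  | n + 1, 0, L, L', h => by simp [List.replicate_succ] at h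
  | n + 1, m + 1, L, L', h => by
    simp only [List.replicate_succ, List.cons_append, List.cons.injEq, true_and] at h
    obtain ⟨h1, h2⟩ := finj_unary n m L L' h
    exact ⟨by rw [h1], h2⟩

private lemma finj_flat {f g : ℕ → List Bool} : ∀ l : List ℕ,
    (∀ y ∈ l, (f y).length = (g y).length) → l.flatMap f = l.flatMap g →
      ∀ y ∈ l, f y = g y
  | [], _, _ => by
    intro y hy
    simp at hy
  | a :: l, hlen, h => by
    rw [List.flatMap_cons, List.flatMap_cons] at h
    obtain ⟨h1, h2⟩ := List.append_inj h (hlen a (by simp))
    intro y hy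
    rcases List.mem_cons.1 hy with rfl | hy
    · exact h1
    · exact finj_flat l (fun z hz => hlen z (by simp [hz])) h2 y hy

private lemma finj_flat_length {f g : ℕ → List Bool} : ∀ l : List ℕ,
    (∀ y ∈ l, (f y).length = (g y).length) → (l.flatMap f).length = (l.flatMap g).length
  | [], _ => rfl
  | a :: l, hlen => by
    rw [List.flatMap_cons, List.flatMap_cons, List.length_append, List.length_append,
      hlen a (by simp), finj_flat_length l (fun z hz => hlen z (by simp [hz]))]

theorem encode_inj {N N' : ℕ} {b b' : Board} {t t' : Color} (hb : Valid N b) (hb' : Valid N' b')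
    (h : encode N b t = encode N' b' t') : N = N' ∧ b = b' ∧ t = t' := by
  unfold encode at h
  obtain ⟨h1, h2⟩ := finj_unary _ _ _ _ h
  subst h1
  rw [List.cons.injEq] at h2
  obtain ⟨h3, h4⟩ := h2
  have hpart : ∀ y : ℕ, ∀ x : ℕ, (if (x + y) % 2 = 0 then codeSquare (b ((x : ℤ), (y : ℤ)))
      else []).length = (if (x + y) % 2 = 0 then codeSquare (b' ((x : ℤ), (y : ℤ)))
      else []).length := by
    intro y x
    split_ifs
    · rw [finj_length, finj_length]
    · rfl
  have h5 := finj_flat _ (fun y _ => finj_flat_length _ (fun x _ => hpart y x)) h4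
  have h6 : ∀ x y : ℤ, 0 ≤ x → x < N → 0 ≤ y → y < N → (x + y) % 2 = 0 →
      b (x, y) = b' (x, y) := by
    intro x y hx0 hx hy0 hy hp
    obtain ⟨x, rfl⟩ := Int.eq_ofNat_of_zero_le hx0
    obtain ⟨y, rfl⟩ := Int.eq_ofNat_of_zero_le hy0
    have hx' : x < N := by exact_mod_cast hx
    have hy' : y < N := by exact_mod_cast hy
    have hp' : (x + y) % 2 = 0 := by omega
    have h7 := finj_flat _ (fun x _ => hpart y x) (h5 y (List.mem_range.2 hy')) x
      (List.mem_range.2 hx')
    rw [if_pos hp', if_pos hp'] at h7
    exact codeSquare_inj h7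
  refine ⟨rfl, ?_, ?_⟩
  · funext s
    by_cases hs : IsDark N s
    · obtain ⟨s1, s2⟩ := s
      obtain ⟨a1, a2, a3, a4, a5⟩ := hs
      simp only at a1 a2 a3 a4 a5
      exact h6 s1 s2 a1 a2 a3 a4 (by omega)
    · have e1 : b s = none := by
        rcases hp : b s with _ | p
        · rfl
        · exact absurd (hb s p hp).1 hs
      have e2 : b' s = none := by
        rcases hp : b' s with _ | p
        · rfl
        · exact absurd (hb' s p hp).1 hs
      rw [e1, e2]
  · cases t <;> cases t' <;> first | rfl | (exfalso; revert h3; decide)

theorem encode_mem {N : ℕ} {b : Board} {t : Color} (hb : Valid N b) :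
    encode N b t ∈ MISERE ↔ MisereWins N t b t := by
  constructor
  · rintro ⟨N', b', t', hb', h, hw⟩
    obtain ⟨rfl, rfl, rfl⟩ := encode_inj hb hb' h
    exact hw
  · intro hw
    exact ⟨N, b, t, hb, rfl, hw⟩

end Pool.Agent.MC95
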