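import Pool.Agent.MC95.FNest

/-!
# Writing the tests of the kings

PLAN. `flatMap_kings`; the track of the king is `22 + 4 * ((t * G + i) * V + v)` with `t < 3` a
constant, `i = env 5`, `v = env 6`, or `22 + 4 * (3 * G * V + e)` with `e = env 5`. The initial
position (`NG.s0`) is `t = 0 ∧ v = init i` or `e < lstop 1`. Within the bounds only (`List.flatMap_congr`).
-/

namespace Pool.Agent.MC95

open Pool.Agent.MEternal Pool.Agent.MEternal.Codes

namespace GData

variable {C : Type} {A : GData C}

theorem isL_kingB {r : ℕ} (hr : r < 8) {k : Env → ℕ} (hk : IsExpr k)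
    (hk' : ∀ env (j : Fin 14) v, 7 ≤ j → k (Function.update env j v) = k env)
    {y0 : List Bool → Env → Bool} (hy : IsTest fun w env => y0 w env = true)
    (hy' : ∀ w env (j : Fin 14) v, 7 ≤ j → y0 w (Function.update env j v) = y0 w env) :
    A.IsL r {7, 8} fun w env => kingB (A.sg (env 0)) (k env) (y0 w env) := by
  have e : ∀ c : ℕ, IsExpr fun env : Env => c + 4 * k env := fun c =>
    (IsExpr.const c).add ((IsExpr.const 4).mul hk)
  have u : ∀ c : ℕ, ∀ env (j : Fin 14) v, 7 ≤ j →
      (fun env : Env => c + 4 * k env) (Function.update env j v) = (fun env : Env => c + 4 * k env) env := by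
    intro c env j v hj
    simp only [hk' env j v hj]
  have s : ∀ c d : ℕ, A.IsL r {7, 8} fun _ env => send (A.sg (env 0)) (c + 4 * k env) d := fun c d =>
    IsL.send hr (e c) (IsExpr.const d) (u c) fun _ _ _ _ => rfl
  unfold kingB
  exact IsL.tl hr .U 2 (e 22) (IsL.cons hr .Y 2 0 (e 22) hy ((s 23 18).append ((s 25 18).append
    (IsL.tl hr .M 2 (e 21) ((s 21 4).append (IsL.tl hr .M 2 (e 23) (s 23 4)))))))

/-- The initial position of the king for value `v` of cell `i` of copy `t`. -/
private def yk (A : GData C) (n t i v : ℕ) : Bool :=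
  decide (t = 0) && decide (v = if 11 ≤ i ∧ i < 11 + A.P n then A.D n - 1 else 0)

private theorem y_kg {n : ℕ} {w : List Bool} {t i v : ℕ} (ht : t < 3) (hi : i < A.G n)
    (hv : v < A.V n) :
    ((A.ng n w).s0 lstop).y ((t * A.G n + i) * A.V n + v) = A.yk n t i v := by
  have hV : 0 < A.V n := by omega
  have h1 : ((t * A.G n + i) * A.V n + v) / A.V n = t * A.G n + i := by
    rw [Nat.add_comm, Nat.add_mul_div_right _ _ hV, Nat.div_eq_of_lt hv, Nat.zero_add]
  have h2 : ((t * A.G n + i) * A.V n + v) % A.V n = v := by
    rw [Nat.add_comm, Nat.add_mul_mod_self_right, Nat.mod_eq_of_lt hv]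
  have hG : 0 < A.G n := by omega
  have h3 : (t * A.G n + i) / A.G n = t := by
    rw [Nat.add_comm, Nat.add_mul_div_right _ _ hG, Nat.div_eq_of_lt hi, Nat.zero_add]
  have h4 : (t * A.G n + i) % A.G n = i := by
    rw [Nat.add_comm, Nat.add_mul_mod_self_right, Nat.mod_eq_of_lt hi]
  have h5 : (t * A.G n + i) * A.V n + v < 3 * A.G n * A.V n := by
    have h6 : t * A.G n + i < 3 * A.G n := by
      calc t * A.G n + i < t * A.G n + A.G n := by omega
        _ = (t + 1) * A.G n := by ring
        _ ≤ 3 * A.G n := Nat.mul_le_mul_right _ (by omega)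
    calc (t * A.G n + i) * A.V n + v < (t * A.G n + i) * A.V n + A.V n := by omega
      _ = (t * A.G n + i + 1) * A.V n := by ring
      _ ≤ 3 * A.G n * A.V n := Nat.mul_le_mul_right _ (by omega)
  have hGe : (A.ng n w).G = A.G n := rfl
  have hVe : (A.ng n w).V = A.V n := rfl
  have hIe : ∀ i, (A.ng n w).init i = if 11 ≤ i ∧ i < 11 + A.P n then A.D n - 1 else 0 := fun _ => rfl
  simp only [NG.s0, hGe, hVe, hIe, if_pos h5, h1, h2, h3, h4, yk]

private theorem y_tk {n : ℕ} {w : List Bool} {e : ℕ} :
    ((A.ng n w).s0 lstop).y (3 * A.G n * A.V n + e) = decide (e < lstop 1) := by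
  have hGe : (A.ng n w).G = A.G n := rfl
  have hVe : (A.ng n w).V = A.V n := rfl
  have h : ¬ (3 * A.G n * A.V n + e < 3 * A.G n * A.V n) := by omega
  simp only [NG.s0, hGe, hVe, if_neg h, Nat.add_sub_cancel_left]

private theorem ne_up {j : Fin 14} (a : Fin 14) (ha : a < 7) (hj : 7 ≤ j) (env : Env) (v : ℕ) :
    Function.update env j v a = env a := by
  apply Function.update_of_ne
  rintro rfl
  exact absurd (lt_of_lt_of_le ha hj) (lt_irrefl _)

attribute [local irreducible] lLc in
theorem isL_kings {r : ℕ} (hr : r < 8) :
    A.IsL r {5, 6, 7, 8} fun w env => (List.range (A.m (env 0))).flatMap fun k =>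
      kingB (A.sg (env 0)) k (((A.ng (env 0) w).s0 lstop).y k) := by
  have key : A.IsL r {5, 6, 7, 8} fun _ env =>
      ((List.range 3).flatMap fun t => (List.range (A.G (env 0))).flatMap fun i =>
        (List.range (A.V (env 0))).flatMap fun v =>
          kingB (A.sg (env 0)) ((t * A.G (env 0) + i) * A.V (env 0) + v) (A.yk (env 0) t i v)) ++
      (List.range lLc).flatMap fun e =>
        kingB (A.sg (env 0)) (3 * A.G (env 0) * A.V (env 0) + e) (decide (e < lstop 1)) := by
    refine IsL.append ?_ ?_
    · refine IsL.flatMap_const (List.range 3) (f := fun t _ env =>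
        (List.range (A.G (env 0))).flatMap fun i => (List.range (A.V (env 0))).flatMap fun v =>
          kingB (A.sg (env 0)) ((t * A.G (env 0) + i) * A.V (env 0) + v) (A.yk (env 0) t i v)) ?_
      intro t _
      refine IsL.loop' (i := 5) (S := {6, 7, 8}) (by decide) (by decide) (by decide) A.isExpr_G
        (fun env => by have := A.G_le (env 0); omega) (f := fun _ env i =>
          (List.range (A.V (env 0))).flatMap fun v =>
          kingB (A.sg (env 0)) ((t * A.G (env 0) + i) * A.V (env 0) + v) (A.yk (env 0) t i v))
        ?_ ?_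
      · intro w env v v'
        have h0 : Function.update env 5 v' 0 = env 0 := Function.update_of_ne (by decide) _ _
        simp only [h0]
      · refine IsL.loop' (i := 6) (S := {7, 8}) (by decide) (by decide) (by decide) A.isExpr_V
          (fun env => A.V_le (env 0)) (f := fun _ env v =>
          kingB (A.sg (env 0)) ((t * A.G (env 0) + env 5) * A.V (env 0) + v)
            (A.yk (env 0) t (env 5) v)) ?_ ?_
        · intro w env v v'
          have h0 : Function.update env 6 v' 0 = env 0 := Function.update_of_ne (by decide) _ _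
          have h5 : Function.update env 6 v' 5 = env 5 := Function.update_of_ne (by decide) _ _
          simp only [h0, h5]
        · refine isL_kingB hr (k := fun env => (t * A.G (env 0) + env 5) * A.V (env 0) + env 6)
            ((((IsExpr.const t).mul A.isExpr_G).add (IsExpr.var 5)).mul A.isExpr_V |>.add
              (IsExpr.var 6)) ?_ (y0 := fun _ env => A.yk (env 0) t (env 5) (env 6)) ?_ ?_
          · intro env j v hj
            simp only [ne_up 0 (by decide) hj, ne_up 5 (by decide) hj, ne_up 6 (by decide) hj]
          · have hb : IsTest fun (_ : List Bool) (env : Env) => 11 ≤ env 5 ∧ env 5 < 11 + A.P (env 0) :=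
              (IsTest.le (IsExpr.const 11) (IsExpr.var 5)).and
                (IsTest.lt (IsExpr.var 5) ((IsExpr.const 11).add A.hP))
            refine ((IsTest.const (t = 0)).and ((hb.and (IsTest.eq (IsExpr.var 6) A.hD.pred)).or
              (hb.not.and (IsTest.eq (IsExpr.var 6) (IsExpr.const 0))))).congr ?_
            intro w env
            simp only [yk, Bool.and_eq_true, decide_eq_true_eq]
            by_cases hc : 11 ≤ env 5 ∧ env 5 < 11 + A.P (env 0)
            · rw [if_pos hc]; tauto
            · rw [if_neg hc]; tauto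
          · intro w env j v hj
            simp only [ne_up 0 (by decide) hj, ne_up 5 (by decide) hj, ne_up 6 (by decide) hj]
    · refine IsL.mono (S := {5, 7, 8}) ?_ (by decide)
      refine IsL.loop' (i := 5) (S := {7, 8}) (by decide) (by decide) (by decide)
        (IsExpr.const lLc) (fun env => A.lLc_le (env 0)) (f := fun _ env e =>
        kingB (A.sg (env 0)) (3 * A.G (env 0) * A.V (env 0) + e) (decide (e < lstop 1))) ?_ ?_
      · intro w env v v'
        have h0 : Function.update env 5 v' 0 = env 0 := Function.update_of_ne (by decide) _ _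
        simp only [h0]
      · refine isL_kingB hr (k := fun env => 3 * A.G (env 0) * A.V (env 0) + env 5)
          ((((IsExpr.const 3).mul A.isExpr_G).mul A.isExpr_V).add (IsExpr.var 5)) ?_
          (y0 := fun _ env => decide (env 5 < lstop 1)) ?_ ?_
        · intro env j v hj
          simp only [ne_up 0 (by decide) hj, ne_up 5 (by decide) hj]
        · refine (IsTest.lt (IsExpr.var 5) (IsExpr.const (lstop 1))).congr ?_
          intro w env
          simp only [decide_eq_true_eq]
        · intro w env j v hj
          simp only [ne_up 5 (by decide) hj]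
  refine key.congr ?_
  intro w env
  rw [show A.m (env 0) = 3 * A.G (env 0) * A.V (env 0) + lLc by unfold m; rfl, flatMap_kings]
  congr 1
  · refine List.flatMap_congr fun t ht => List.flatMap_congr fun i hi => List.flatMap_congr fun v hv => ?_
    rw [List.mem_range] at ht hi hv
    rw [y_kg ht hi hv]
  · refine List.flatMap_congr fun e _ => ?_
    rw [y_tk]

end GData

end Pool.Agent.MC95
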