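import Pool.Agent.MC95.FPar

/-!
# Writing lists of tiles

PLAN. `isExpr_N`, ...: unfold, `IsExpr.add`, `IsExpr.mul`, `IsExpr.const`, `A.hP`, `A.hD`. The bounds
`le_N`: `m`, `sg`, `V`, `G`, `lLc` are at most `len ≤ N`. `loop'`: `IsOut.loop'` (the variables `0`
and `1` are not changed). `send`: two nested loops with the variables `7`, `8` and `ite` of tiles.
-/

namespace Pool.Agent.MC95

open Pool.Agent.MEternal Pool.Agent.MEternal.Codes

namespace GData

variable {C : Type} (A : GData C)

theorem isExpr_G : IsExpr fun env : Env => A.G (env 0) := by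
  exact (IsExpr.const 10).mul (A.hP.add (IsExpr.const 3))

theorem isExpr_V : IsExpr fun env : Env => A.V (env 0) := by
  exact ((A.hP.add A.hD).add (IsExpr.const A.c)).add (IsExpr.const 3)

theorem isExpr_m : IsExpr fun env : Env => A.m (env 0) := by
  exact (((IsExpr.const 3).mul A.isExpr_G).mul A.isExpr_V).add (IsExpr.const lLc)

theorem isExpr_sg : IsExpr fun env : Env => A.sg (env 0) := by
  exact (IsExpr.const 38).add ((IsExpr.const 4).mul A.isExpr_m)

theorem isExpr_N : IsExpr fun env : Env => A.N (env 0) := by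
  have hm := A.isExpr_m
  have hs := A.isExpr_sg
  have hG := A.isExpr_G
  have hV := A.isExpr_V
  have hss : IsExpr fun env : Env => A.sg (env 0) * A.sg (env 0) := hs.mul hs
  have h1s : IsExpr fun env : Env => 1 + A.sg (env 0) * A.sg (env 0) := (IsExpr.const 1).add hss
  have hlt : IsExpr fun env : Env => A.lterm (env 0) :=
    (IsExpr.const 1).add ((hm.mul h1s).add h1s)
  have hVV := hV.mul hV
  have hnt : IsExpr fun env : Env => A.nterms (env 0) :=
    ((IsExpr.const 3).mul (hG.mul hVV)).add ((IsExpr.const 1).add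
      (((IsExpr.const 3).mul (((IsExpr.const 2).mul hG).mul hVV)).add
        (((IsExpr.const 3).mul ((IsExpr.const 18).mul (hV.mul hVV))).add (IsExpr.const lLc))))
  have hlr : IsExpr fun env : Env => A.lroot (env 0) :=
    (IsExpr.const 2).add (hss.add ((hnt.mul hlt).add hss))
  have h4m : IsExpr fun env : Env => 4 * A.m (env 0) := (IsExpr.const 4).mul hm
  have hlen : IsExpr fun env : Env => A.len (env 0) :=
    (((((((((((IsExpr.const 2).add ((IsExpr.const 36).add h4m)).add (IsExpr.const 6)).add
      (IsExpr.const 1)).add ((IsExpr.const 27).add h4m)).add (IsExpr.const 6)).add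
      ((IsExpr.const 8).mul hlr)).add
      (hm.mul ((IsExpr.const 4).add ((IsExpr.const 4).mul hss)))).add (IsExpr.const 2)).add
      (IsExpr.const 135)).add (IsExpr.const 3)).add
      ((IsExpr.const 6).add ((IsExpr.const 2).mul ((IsExpr.const 35).add h4m)))
  exact (IsExpr.const 28).mul hlen

theorem m_le (n : ℕ) : 100 + 8 * A.m n ≤ A.N n := by
  simp only [N, len]
  omega

theorem sg_le (n : ℕ) : A.sg n ≤ A.N n := by
  have h := A.m_le n
  simp only [sg, lsg]
  omega

theorem V_le (n : ℕ) : A.V n ≤ A.N n := by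
  have h := A.m_le n
  have h1 : A.V n ≤ 3 * A.G n * A.V n :=
    Nat.le_mul_of_pos_left _ (by simp only [G]; omega)
  have h2 : A.m n = 3 * A.G n * A.V n + lLc := rfl
  omega

theorem G_le (n : ℕ) : 2 * A.G n ≤ A.N n := by
  have h := A.m_le n
  have h1 : 3 * A.G n ≤ 3 * A.G n * A.V n :=
    Nat.le_mul_of_pos_right _ (by simp only [V]; omega)
  have h2 : A.m n = 3 * A.G n * A.V n + lLc := rfl
  omega

theorem lLc_le (n : ℕ) : lLc ≤ A.N n := by
  have h := A.m_le n
  have h2 : A.m n = 3 * A.G n * A.V n + lLc := rfl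
  omega

variable {A}

theorem IsL.congr {r : ℕ} {S : Finset (Fin 14)} {f f' : List Bool → Env → List Op}
    (h : A.IsL r S f) (h' : ∀ w env, f' w env = f w env) : A.IsL r S f' := by
  exact IsOut.congr h fun w env => by rw [h']

theorem IsL.mono {r : ℕ} {S S' : Finset (Fin 14)} {f : List Bool → Env → List Op}
    (h : A.IsL r S f) (hS : S ⊆ S') : A.IsL r S' f := by
  exact IsOut.mono h hS

theorem IsL.append {r : ℕ} {S : Finset (Fin 14)} {f f' : List Bool → Env → List Op}
    (h : A.IsL r S f) (h' : A.IsL r S f') : A.IsL r S fun w env => f w env ++ f' w env := by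
  exact IsOut.congr (IsOut.append h h') fun w env => List.flatMap_append

theorem IsL.ite {r : ℕ} {S : Finset (Fin 14)} {f f' : List Bool → Env → List Op}
    {φ : List Bool → Env → Prop} [∀ w env, Decidable (φ w env)] (hφ : IsTest φ)
    (h : A.IsL r S f) (h' : A.IsL r S f') :
    A.IsL r S fun w env => if φ w env then f w env else f' w env := by
  refine IsOut.congr (IsOut.ite hφ h h') fun w env => ?_
  by_cases hc : φ w env
  · simp only [if_pos hc]
  · simp only [if_neg hc]

theorem IsL.tile {r : ℕ} (hr : r < 8) {S : Finset (Fin 14)} (kind : Kind) (reg cor : ℕ)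
    {trk : Env → ℕ} (htrk : IsExpr trk) {ini : List Bool → Env → Bool}
    (hini : IsTest fun w env => ini w env = true) :
    A.IsL r S fun w env => [⟨kind, trk env, reg, cor, ini w env⟩] := by
  refine IsOut.congr (isOut_tile kind reg cor r hr A.isExpr_N A.isExpr_sg htrk hini)
    fun w env => ?_
  simp

/-- A tile in front of a list. -/
theorem IsL.cons {r : ℕ} (hr : r < 8) {S : Finset (Fin 14)} (kind : Kind) (reg cor : ℕ)
    {trk : Env → ℕ} (htrk : IsExpr trk) {ini : List Bool → Env → Bool}
    (hini : IsTest fun w env => ini w env = true) {f : List Bool → Env → List Op}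
    (h : A.IsL r S f) :
    A.IsL r S fun w env => ⟨kind, trk env, reg, cor, ini w env⟩ :: f w env := by
  refine IsL.congr (IsL.append (IsL.tile hr kind reg cor htrk hini) h) fun w env => ?_
  simp

theorem IsL.tl {r : ℕ} (hr : r < 8) {S : Finset (Fin 14)} (kind : Kind) (reg : ℕ)
    {trk : Env → ℕ} (htrk : IsExpr trk) {f : List Bool → Env → List Op} (h : A.IsL r S f) :
    A.IsL r S fun w env => tl reg kind (trk env) :: f w env := by
  refine IsL.cons hr kind reg 0 htrk (ini := fun _ _ => false) ?_ h
  exact IsTest.const _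

theorem IsL.const {r : ℕ} (hr : r < 8) {S : Finset (Fin 14)} (l : List Op) :
    A.IsL r S fun _ _ => l := by
  induction l with
  | nil => exact IsOut.congr (IsOut.const []) fun w env => by simp
  | cons o l ih =>
    exact IsL.cons hr o.kind o.reg o.cor (IsExpr.const o.trk) (ini := fun _ _ => o.ini)
      (IsTest.const _) ih

theorem IsL.flatMap_const {α : Type*} {r : ℕ} {S : Finset (Fin 14)} (l : List α)
    {f : α → List Bool → Env → List Op} (h : ∀ a ∈ l, A.IsL r S (f a)) :
    A.IsL r S fun w env => l.flatMap fun a => f a w env := by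
  refine IsOut.congr (IsOut.flatMap_const l h) fun w env => ?_
  simp only [List.flatMap_assoc]

theorem IsL.loop' {r : ℕ} {S : Finset (Fin 14)} {i : Fin 14} (hi : i ≠ 0) (hi1 : i ≠ 1)
    (hiS : i ∉ S) {b : Env → ℕ} (hb : IsExpr b) (hM : ∀ env, b env ≤ A.N (env 0))
    {f : List Bool → Env → ℕ → List Op}
    (hf : ∀ w env v v', f w (Function.update env i v') v = f w env v)
    (h : A.IsL r S fun w env => f w env (env i)) :
    A.IsL r (insert i S) fun w env => (List.range (b env)).flatMap fun v => f w env v := by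
  have h0 : ∀ (env : Env) v, Function.update env i v 0 = env 0 := fun env v =>
    Function.update_of_ne hi.symm _ _
  have h1 : ∀ (env : Env) v, Function.update env i v 1 = env 1 := fun env v =>
    Function.update_of_ne hi1.symm _ _
  refine IsOut.congr (IsOut.loop' (g := fun w env v => (f w env v).flatMap fun o =>
    tileRow (A.N (env 0)) (A.sg (env 0)) o (8 * env 1 + r)) hi hiS hb hM ?_ h) fun w env => ?_
  · intro w env v v'
    simp only [h0, h1, hf]
  · simp only [List.flatMap_assoc]

theorem IsL.send {r : ℕ} (hr : r < 8) {τ t : Env → ℕ} (hτ : IsExpr τ) (ht : IsExpr t)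
    (hτ' : ∀ env (j : Fin 14) v, 7 ≤ j → τ (Function.update env j v) = τ env)
    (ht' : ∀ env (j : Fin 14) v, 7 ≤ j → t (Function.update env j v) = t env) :
    A.IsL r {7, 8} fun _ env => send (A.sg (env 0)) (τ env) (t env) := by
  have h70 : ∀ (env : Env) v, Function.update env 7 v 0 = env 0 := fun env v =>
    Function.update_of_ne (by decide) _ _
  have h80 : ∀ (env : Env) v, Function.update env 8 v 0 = env 0 := fun env v =>
    Function.update_of_ne (by decide) _ _
  have h87 : ∀ (env : Env) v, Function.update env 8 v 7 = env 7 := fun env v =>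
    Function.update_of_ne (by decide) _ _
  have key : A.IsL r ∅ fun _ env =>
      if env 8 + 2 * env 7 + 2 = τ env ∧ t env < env 8 then [Pool.Agent.MC95.tl 2 .H (env 8)]
      else if env 8 + 2 * env 7 + 1 = τ env ∧ env 8 = t env then
        [Pool.Agent.MC95.tl 2 .M (env 8)] else [bl 2] := by
    have e87 : IsExpr fun env : Env => env 8 + 2 * env 7 :=
      (IsExpr.var 8).add ((IsExpr.const 2).mul (IsExpr.var 7))
    refine IsL.ite ((IsTest.eq (e87.add (IsExpr.const 2)) hτ).and
      (IsTest.lt ht (IsExpr.var 8))) ?_ (IsL.ite ((IsTest.eq (e87.add (IsExpr.const 1)) hτ).and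
      (IsTest.eq (IsExpr.var 8) ht)) ?_ ?_)
    · exact IsL.tile hr _ _ _ (IsExpr.var 8) (IsTest.const _)
    · exact IsL.tile hr _ _ _ (IsExpr.var 8) (IsTest.const _)
    · exact IsL.const hr _
  have in8 : A.IsL r {8} fun _ env => (List.range (A.sg (env 0))).flatMap fun u =>
      if u + 2 * env 7 + 2 = τ env ∧ t env < u then [Pool.Agent.MC95.tl 2 .H u]
      else if u + 2 * env 7 + 1 = τ env ∧ u = t env then
        [Pool.Agent.MC95.tl 2 .M u] else [bl 2] := by
    have := IsL.loop' (A := A) (r := r) (S := ∅) (i := 8) (by decide) (by decide) (by simp)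
      A.isExpr_sg (fun env => A.sg_le (env 0)) (f := fun _ env u =>
      if u + 2 * env 7 + 2 = τ env ∧ t env < u then [Pool.Agent.MC95.tl 2 .H u]
      else if u + 2 * env 7 + 1 = τ env ∧ u = t env then
        [Pool.Agent.MC95.tl 2 .M u] else [bl 2]) (fun w env v v' => by
          simp only [h87, hτ' env 8 _ (by decide), ht' env 8 _ (by decide)]) key
    exact this
  have in7 := IsL.loop' (A := A) (r := r) (S := {8}) (i := 7) (by decide) (by decide)
      (by decide) A.isExpr_sg (fun env => A.sg_le (env 0)) (f := fun _ env i =>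
      (List.range (A.sg (env 0))).flatMap fun u =>
      if u + 2 * i + 2 = τ env ∧ t env < u then [Pool.Agent.MC95.tl 2 .H u]
      else if u + 2 * i + 1 = τ env ∧ u = t env then
        [Pool.Agent.MC95.tl 2 .M u] else [bl 2]) (fun w env v v' => by
          simp only [h70, hτ' env 7 _ (by decide), ht' env 7 _ (by decide)]) in8
  refine IsL.congr in7 fun w env => ?_
  unfold Pool.Agent.MC95.send
  refine congrArg (fun g => List.flatMap g (List.range (A.sg (env 0)))) (funext fun i => ?_)
  rw [List.map_eq_flatMap]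
  refine congrArg (fun g => List.flatMap g (List.range (A.sg (env 0)))) (funext fun u => ?_)
  by_cases c1 : u + 2 * i + 2 = τ env ∧ t env < u
  · rw [if_pos c1, if_pos c1]
  · rw [if_neg c1, if_neg c1]
    by_cases c2 : u + 2 * i + 1 = τ env ∧ u = t env
    · rw [if_pos c2, if_pos c2]
    · rw [if_neg c2, if_neg c2]

theorem IsL.lad {r : ℕ} (hr : r < 8) (reg a b : ℕ) (hb : b ≤ 100) :
    A.IsL r {2} fun _ env => lad reg a (b + 4 * A.m (env 0)) := by
  have h20 : ∀ (env : Env) v, Function.update env 2 v 0 = env 0 := fun env v =>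
    Function.update_of_ne (by decide) _ _
  have hb' : IsExpr fun env : Env => b + 4 * A.m (env 0) :=
    (IsExpr.const b).add ((IsExpr.const 4).mul A.isExpr_m)
  have key : A.IsL r ∅ fun _ env => [Pool.Agent.MC95.tl reg .U (a + env 2)] :=
    IsL.tile hr _ _ _ ((IsExpr.const a).add (IsExpr.var 2)) (IsTest.const _)
  have := IsL.loop' (A := A) (r := r) (S := ∅) (i := 2) (by decide) (by decide) (by simp)
    hb' (fun env => by have := A.m_le (env 0); omega) (f := fun _ _ i =>
      [Pool.Agent.MC95.tl reg .U (a + i)]) (fun w env v v' => rfl) key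
  refine IsL.congr this fun w env => ?_
  simp only [Pool.Agent.MC95.lad]
  rw [List.map_eq_flatMap]

theorem IsL.fan {r : ℕ} (hr : r < 8) {S : Finset (Fin 14)} (reg : ℕ) {a : Env → ℕ}
    (ha : IsExpr a) : A.IsL r S fun _ env => fan reg (a env) := by
  have hc : ∀ k : ℕ, IsExpr fun env : Env => a env + k := fun k => ha.add (IsExpr.const k)
  have h6 : A.IsL r S fun _ env => [Pool.Agent.MC95.tl reg .M (a env)] :=
    IsL.tl hr _ _ ha (IsL.const hr [])
  have h5 : A.IsL r S fun _ env =>
      [Pool.Agent.MC95.tl reg .WF (a env + 1), Pool.Agent.MC95.tl reg .M (a env)] :=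
    IsL.tl hr _ _ (hc 1) h6
  have h4 : A.IsL r S fun _ env => [Pool.Agent.MC95.tl reg .M (a env + 2),
      Pool.Agent.MC95.tl reg .WF (a env + 1), Pool.Agent.MC95.tl reg .M (a env)] :=
    IsL.tl hr _ _ (hc 2) h5
  have h3 := IsL.tl hr .WF reg (hc 3) h4
  have h2 := IsL.tl hr .M reg (hc 4) h3
  have h1 := IsL.tl hr .WF reg (hc 5) h2
  exact IsL.congr h1 fun w env => by simp only [Pool.Agent.MC95.fan]

end GData

end Pool.Agent.MC95
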