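import Pool.Agent.MC95.FRoot
import Pool.Agent.MC95.FKing

/-!
# Writing the circuit

PLAN. `isL_layout`: unfold `layout`, `aB`, `rootsB`, `kingsB`, `corB`, `endB`, `finB`; `IsL.append`,
`IsL.cons`, `IsL.lad`, `IsL.fan`, `IsL.const` (for `xPart`), `isL_root` (with `IsL.flatMap_const` for
`w0 < 8`), `isL_kings`; the list in `finB` is a loop with variable `2`
(`lsg m - 3 = 35 + 4 * m`). `length_layout`: lengths (`send` has length `S * S`).
`isOut_board`: loops with variable `1` over `z < N`, for each constant `r < 8` the row
`8 * z + r` if it is `< N`.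
-/

namespace Pool.Agent.MC95

open Pool.Agent.MEternal Pool.Agent.MEternal.Codes

namespace GData

variable {C : Type} [Finite C] (A : GData C)

/-- The circuit. -/
noncomputable def lay (n : ℕ) (w : List Bool) : List Op :=
  layout (A.m n) ((A.ng n w).terms lLc lstop) ((A.ng n w).s0 lstop).y

private theorem fl_len {α β : Type*} (c : ℕ) (f : α → List β) : ∀ l : List α,
    (∀ a ∈ l, (f a).length = c) → (l.flatMap f).length = l.length * c
  | [], _ => by simp
  | a :: l, h => by
    rw [List.flatMap_cons, List.length_append, h a (by simp),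
      fl_len c f l fun b hb => h b (by simp [hb]), List.length_cons]
    ring

private theorem fl_send (S τ t : ℕ) : (send S τ t).length = S * S := by
  unfold send
  rw [fl_len S _ _ fun i _ => by simp, List.length_range]

private theorem fl_lit (S ρ k : ℕ) (o : Option Bool) : (litB S ρ k o).length = 1 + S * S := by
  rcases o with _ | _ | _
  · show (bl 2 :: send S 0 0).length = _
    rw [List.length_cons, fl_send, Nat.add_comm]
  · show (tl 2 .BF ρ :: send S ρ (24 + 4 * k)).length = _
    rw [List.length_cons, fl_send, Nat.add_comm]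
  · show (tl 2 .BF ρ :: send S ρ (22 + 4 * k)).length = _
    rw [List.length_cons, fl_send, Nat.add_comm]

private theorem fl_term (m S ρ : ℕ) (τ : Bool × (ℕ → Option Bool)) :
    (termB m S ρ τ).length = 1 + (m * (1 + S * S) + (1 + S * S)) := by
  unfold termB
  split_ifs
  · rw [List.length_cons, List.length_append, fl_len (1 + S * S) _ _ fun k _ => fl_lit S ρ k _,
      List.length_range, List.length_cons, fl_send]
    ring
  · rw [List.length_cons, List.length_append, fl_len (1 + S * S) _ _ fun k _ => by
      rw [List.length_cons, fl_send, Nat.add_comm], List.length_range, List.length_cons, fl_send]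
    ring

private theorem fl_terms (n : ℕ) (w : List Bool) (w0 : ℕ) :
    ((A.ng n w).terms lLc lstop w0).length = A.nterms n := by
  have h := congrArg List.length (A.terms_flatMap n w w0 fun _ => [()])
  rw [fl_len 1 _ _ fun _ _ => rfl, Nat.mul_one] at h
  rw [h]
  simp only [List.length_append]
  rw [fl_len (A.G n * (A.V n * A.V n)) _ (List.range 3) fun t _ => by
      rw [fl_len (A.V n * A.V n) _ _ fun i _ => by
        rw [fl_len (A.V n) _ _ fun v _ => by
          rw [fl_len 1 _ _ fun u _ => rfl, List.length_range, Nat.mul_one], List.length_range],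
        List.length_range],
    fl_len (2 * (A.P n + 3) * (10 * (A.V n * A.V n))) _ (List.range 3) fun t _ => by
      rw [fl_len (10 * (A.V n * A.V n)) _ _ fun i _ => by
        rw [fl_len (A.V n * A.V n) _ _ fun k0 _ => by
          rw [fl_len (A.V n) _ _ fun v _ => by
            rw [fl_len 1 _ _ fun u _ => rfl, List.length_range, Nat.mul_one], List.length_range],
          List.length_range],
        List.length_range],
    fl_len (6 * (3 * (A.V n * (A.V n * A.V n)))) _ (List.range 3) fun t _ => by
      rw [fl_len (3 * (A.V n * (A.V n * A.V n))) _ _ fun q1 _ => by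
        rw [fl_len (A.V n * (A.V n * A.V n)) _ _ fun q2 _ => by
          rw [fl_len (A.V n * A.V n) _ _ fun q3 _ => by
            rw [fl_len (A.V n) _ _ fun q4 _ => by
              rw [fl_len 1 _ _ fun u _ => rfl, List.length_range, Nat.mul_one], List.length_range],
            List.length_range],
          List.length_range],
        List.length_range],
    fl_len 1 _ (List.range lLc) fun e _ => rfl]
  simp only [List.length_range, List.length_singleton]
  unfold nterms G
  ring

private theorem fl_root (n : ℕ) (w : List Bool) (w0 : ℕ) :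
    (rootB (A.m n) (A.sg n) w0 ((A.ng n w).terms lLc lstop w0)).length = A.lroot n := by
  unfold rootB
  rw [List.length_cons, List.length_cons, List.length_append, List.length_append, fl_send, fl_send,
    fl_len (A.lterm n) _ _ fun τ _ => fl_term _ _ _ τ, fl_terms]
  unfold lroot
  ring

private theorem fl_king (S k : ℕ) (b : Bool) : (kingB S k b).length = 4 + 4 * (S * S) := by
  unfold kingB
  simp only [List.length_cons, List.length_append, fl_send]
  ring

private theorem fl_cons (A : GData C) {r : ℕ} (hr : r < 8) (l : List Op) {S : Finset (Fin 14)}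
    {f : List Bool → Env → List Op} (h : A.IsL r S f) : A.IsL r S fun w env => l ++ f w env :=
  IsL.append (IsL.const hr l) h

theorem isL_layout {r : ℕ} (hr : r < 8) :
    A.IsL r {2, 3, 4, 5, 6, 7, 8} fun w env => A.lay (env 0) w := by
  have em : ∀ b : ℕ, IsExpr fun env : Env => b + 4 * A.m (env 0) := fun b =>
    (IsExpr.const b).add ((IsExpr.const 4).mul A.isExpr_m)
  have hsg := A.isExpr_sg
  have hfin : A.IsL r {2, 3, 4, 5, 6, 7, 8} fun _ env => finB (A.sg (env 0)) := by
    have h1 : A.IsL r {2, 3, 4, 5, 6, 7, 8} fun _ env =>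
        (List.range (A.sg (env 0) - 3)).flatMap fun i => [tl 0 .U (3 + i), tl 0 .U (2 + i)] := by
      have e3 : IsExpr fun env : Env => A.sg (env 0) - 3 := by
        obtain ⟨e, he⟩ := em 35
        refine ⟨e, fun env => (he env).trans ?_⟩
        simp only [sg, lsg]
        omega
      refine IsL.loop' (i := 2) (S := {3, 4, 5, 6, 7, 8}) (by decide) (by decide) (by decide) e3
        (fun env => by have := A.sg_le (env 0); omega)
        (f := fun _ _ i => [tl 0 .U (3 + i), tl 0 .U (2 + i)]) (fun _ _ _ _ => rfl) ?_
      exact IsL.tl hr .U 0 ((IsExpr.const 3).add (IsExpr.var 2))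
        (IsL.tl hr .U 0 ((IsExpr.const 2).add (IsExpr.var 2)) (IsL.const hr []))
    have e1 : IsExpr fun env : Env => A.sg (env 0) - 1 := by
      obtain ⟨e, he⟩ := em 37
      refine ⟨e, fun env => (he env).trans ?_⟩
      simp only [sg, lsg]
      omega
    have h2 : A.IsL r {2, 3, 4, 5, 6, 7, 8} fun _ env =>
        [tl 0 .UT (A.sg (env 0)), tl 0 .U (A.sg (env 0) - 1), tl 0 .G (A.sg (env 0)), bl 0] :=
      IsL.tl hr .UT 0 hsg (IsL.tl hr .U 0 e1 (IsL.tl hr .G 0 hsg (IsL.const hr [bl 0])))
    exact IsL.tl hr .U 0 (IsExpr.const 2) (IsL.tl hr .H 0 (IsExpr.const 2) (h1.append h2))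
  have hend : A.IsL r {2, 3, 4, 5, 6, 7, 8} fun _ env => endB (A.m (env 0)) :=
    (fl_cons A hr [⟨.blank, 0, 2, 3, false⟩, ⟨.blank, 0, 2, 4, false⟩, tl 0 .N1 0] hfin).congr
      fun _ _ => rfl
  have hcor : A.IsL r {2, 3, 4, 5, 6, 7, 8} fun _ env => corB (A.m (env 0)) :=
    (fl_cons A hr [⟨.blank, 0, 2, 4, false⟩, ⟨.blank, 0, 2, 2, false⟩]
      (fl_cons A hr xPart hend)).congr fun _ _ => rfl
  have hk : A.IsL r {2, 3, 4, 5, 6, 7, 8} fun w env =>
      kingsB (A.m (env 0)) ((A.ng (env 0) w).s0 lstop).y :=
    ((isL_kings (A := A) hr).mono (by decide)).append hcor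
  have hroots : A.IsL r {2, 3, 4, 5, 6, 7, 8} fun w env =>
      rootsB (A.m (env 0)) ((A.ng (env 0) w).terms lLc lstop) ((A.ng (env 0) w).s0 lstop).y := by
    refine IsL.append ?_ hk
    exact IsL.flatMap_const (List.range 8) (f := fun w0 w env =>
      rootB (A.m (env 0)) (A.sg (env 0)) w0 ((A.ng (env 0) w).terms lLc lstop w0))
      fun w0 _ => isL_root hr w0
  have hA : A.IsL r {2, 3, 4, 5, 6, 7, 8} fun w env =>
      aB (A.m (env 0)) ((A.ng (env 0) w).terms lLc lstop) ((A.ng (env 0) w).s0 lstop).y :=
    IsL.tl hr .NA 0 (IsExpr.const 1) (IsL.append ((IsL.lad hr 2 2 27 (by decide)).mono (by decide))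
      (IsL.append (IsL.fan hr 2 (em 23)) hroots))
  exact IsL.tl hr .first 0 (IsExpr.const 0) (IsL.tl hr .NB 0 (IsExpr.const 0)
    (IsL.append ((IsL.lad hr 1 1 36 (by decide)).mono (by decide))
      (IsL.append (IsL.fan hr 1 (em 31)) hA)))

private theorem fl_xPart : xPart.length = 135 := by decide +kernel

theorem length_layout (n : ℕ) (w : List Bool) : (A.lay n w).length = A.len n := by
  have h1 : ((List.range 8).flatMap fun w0 => rootB (A.m n) (lsg (A.m n)) w0
      ((A.ng n w).terms lLc lstop w0)).length = 8 * A.lroot n := by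
    change ((List.range 8).flatMap fun w0 => rootB (A.m n) (A.sg n) w0
      ((A.ng n w).terms lLc lstop w0)).length = 8 * A.lroot n
    rw [fl_len (A.lroot n) _ _ fun w0 _ => A.fl_root n w w0, List.length_range]
  have h2 : ((List.range (A.m n)).flatMap fun k => kingB (lsg (A.m n)) k
      (((A.ng n w).s0 lstop).y k)).length = A.m n * (4 + 4 * (A.sg n * A.sg n)) := by
    change ((List.range (A.m n)).flatMap fun k => kingB (A.sg n) k
      (((A.ng n w).s0 lstop).y k)).length = A.m n * (4 + 4 * (A.sg n * A.sg n))
    rw [fl_len (4 + 4 * (A.sg n * A.sg n)) _ _ fun k _ => fl_king _ _ _, List.length_range]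
  have h3 : ∀ a b c, (lad a b c).length = c := fun a b c => by simp [lad]
  have h4 : ∀ a b, (fan a b).length = 6 := fun a b => rfl
  have h5 : (finB (lsg (A.m n))).length = 6 + 2 * (35 + 4 * A.m n) := by
    unfold finB
    rw [List.length_cons, List.length_cons, List.length_append, fl_len 2 _ _ fun _ _ => rfl,
      List.length_range]
    simp only [List.length_cons, List.length_nil, lsg]
    omega
  simp only [lay, layout, aB, rootsB, kingsB, corB, endB, List.length_cons, List.length_append, h1,
    h2, h3, h4, h5, fl_xPart, len]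
  omega

/-- The code of the board. -/
noncomputable def out (n : ℕ) (w : List Bool) : List Bool :=
  List.replicate (A.N n) true ++ ([false, false] ++
    (List.range (A.N n)).flatMap fun y =>
      (A.lay n w).flatMap fun o => tileRow (A.N n) (A.sg n) o y)

private theorem range_eight_aux {α : Type*} (f : ℕ → List α) : ∀ M : ℕ,
    (List.range (8 * M)).flatMap f = (List.range M).flatMap fun z =>
      (List.range 8).flatMap fun r => f (8 * z + r)
  | 0 => rfl
  | M + 1 => by
    have h : 8 * (M + 1) = 8 * M + 8 := by ring
    rw [h, List.range_add, List.flatMap_append, range_eight_aux f M,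
      List.range_succ (n := M), List.flatMap_append, List.flatMap_singleton, List.flatMap_map]

theorem range_eight {α : Type*} (N : ℕ) (f : ℕ → List α) :
    (List.range N).flatMap f = (List.range N).flatMap fun z =>
      (List.range 8).flatMap fun r => if 8 * z + r < N then f (8 * z + r) else [] := by
  rw [← range_eight_aux (fun y => if y < N then f y else []) N]
  have h : 8 * N = N + 7 * N := by ring
  rw [h, List.range_add, List.flatMap_append, List.flatMap_map]
  have h1 : (List.range N).flatMap (fun y => if y < N then f y else []) =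
      (List.range N).flatMap f := by
    refine List.flatMap_congr fun y hy => ?_
    rw [if_pos (List.mem_range.1 hy)]
  have h2 : (List.range (7 * N)).flatMap (fun y => if N + y < N then f (N + y) else []) = [] := by
    refine List.flatMap_eq_nil_iff.2 fun y _ => ?_
    rw [if_neg (by omega)]
  rw [h1, h2, List.append_nil]

theorem isOut_board : IsOut A.N {1, 2, 3, 4, 5, 6, 7, 8} fun w env => A.out (env 0) w := by
  have u1 : ∀ (env : Env) v, Function.update env 1 v 0 = env 0 := fun env v =>
    Function.update_of_ne (by decide) _ _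
  have hN := A.isExpr_N
  have hT : IsOut A.N {1, 2, 3, 4, 5, 6, 7, 8} fun _ env => List.replicate (A.N (env 0)) true := by
    have h := IsOut.loop' (M := A.N) (i := 1) (S := {2, 3, 4, 5, 6, 7, 8}) (by decide) (by decide)
      hN (fun env => le_rfl) (g := fun _ _ _ => [true]) (fun _ _ _ _ => rfl) (IsOut.const [true])
    refine h.congr fun w env => ?_
    induction A.N (env 0) with
    | zero => rfl
    | succ k ih => rw [List.range_succ, List.flatMap_append, ← ih, List.replicate_succ']; rfl
  have hB : IsOut A.N {1, 2, 3, 4, 5, 6, 7, 8} fun w env => (List.range (A.N (env 0))).flatMap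
      fun y => (A.lay (env 0) w).flatMap fun o => tileRow (A.N (env 0)) (A.sg (env 0)) o y := by
    have h := IsOut.loop' (M := A.N) (i := 1) (S := {2, 3, 4, 5, 6, 7, 8}) (by decide) (by decide)
      hN (fun env => le_rfl) (g := fun w env z => (List.range 8).flatMap fun r =>
        if 8 * z + r < A.N (env 0) then (A.lay (env 0) w).flatMap fun o =>
          tileRow (A.N (env 0)) (A.sg (env 0)) o (8 * z + r) else [])
      (fun w env v v' => by simp only [u1])
      (IsOut.flatMap_const (List.range 8) (g := fun r w env =>
        if 8 * env 1 + r < A.N (env 0) then (A.lay (env 0) w).flatMap fun o =>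
          tileRow (A.N (env 0)) (A.sg (env 0)) o (8 * env 1 + r) else []) fun r hr =>
        IsOut.ite (IsTest.lt (((IsExpr.const 8).mul (IsExpr.var 1)).add (IsExpr.const r)) hN)
          (A.isL_layout (List.mem_range.1 hr)) (IsOut.const []))
    refine h.congr fun w env => ?_
    exact range_eight _ _
  exact hT.append ((IsOut.const [false, false]).append hB)

theorem out_polyTime :
    Nonempty (Turing.TM2ComputableInPolyTime (id : List Bool → List Bool)
      (id : List Bool → List Bool) (fun w => A.out w.length w)) := by
  have h0 : (0 : Fin 14) ∉ ({1, 2, 3, 4, 5, 6, 7, 8} : Finset (Fin 14)) := by decide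
  have h := IsOut.polyTime (M := A.N) (g := fun w env => A.out (env 0) w) h0 A.isExpr_N
    A.isOut_board
  have e : (fun w : List Bool => A.out (env0 13 w.length 0) w) = fun w => A.out w.length w := by
    funext w
    have e1 : env0 13 w.length 0 = w.length := by simp [env0]
    rw [e1]
  rwa [e] at h

end GData

end Pool.Agent.MC95
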