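import Pool.Agent.MC95.FTerm

/-!
# The terms as nested loops

PLAN. `terms_flatMap`: `List.flatMap_append`, `List.flatMap_assoc`, `List.flatMap_map`;
`2 * G = 2 * (P + 3) * 10` and `nQ = 6 * 3 * V * V * V` with `range_mul_flatMap`; within the bounds
`qd V ((((q1 * 3 + q2) * V + q3) * V + q4) * V + q5) = (q1, q2, q3, q4, q5)`.
`nterms_eq`: lengths of nested `flatMap`s.
-/

namespace Pool.Agent.MC95

open Pool.Agent.MEternal Pool.Agent.MEternal.Codes

namespace GData

variable {C : Type} (A : GData C)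

/-- The terms D. -/
noncomputable def T1 (n : ℕ) (w : List Bool) (t i v u : ℕ) : Bool × (ℕ → Option Bool) :=
  (!(v == u) || !(A.ng n w).dom i v,
    (A.ng n w).lit (fun t' i' v' => if t' = t ∧ i' = i ∧ (v' = v ∨ v' = u) then some true else none)
      fun _ => none)

/-- The term N. -/
noncomputable def T2 (n : ℕ) (w : List Bool) : Bool × (ℕ → Option Bool) :=
  (true, (A.ng n w).lit (fun _ i' _ => if i' + 1 = (A.ng n w).G then some false else none)
    fun _ => none)

/-- The terms A. -/
noncomputable def T3 (n : ℕ) (w : List Bool) (w0 t k v u : ℕ) : Bool × (ℕ → Option Bool) :=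
  (badA k v w0, (A.ng n w).lit ((A.ng n w).litA t k v u) fun _ => none)

open Classical in
/-- Literals of the terms C, by the components of the clause. -/
noncomputable def litC' (n : ℕ) (w : List Bool) (t q1 q2 q3 q4 q5 t' i' v' : ℕ) : Option Bool :=
  if t' = (t + 1) % 3 then
    (if i' + 1 = A.G n ∧ v' = 0 then some true
    else if i' = 0 then (if q2 ≠ 2 ∧ v' = q2 then some true else none)
    else if i' = 10 then (if v' = (if q2 = 2 then 1 else 0) then some true else none)
    else if nxtI (A.P n) (A.D n) A.cb (A.row n w) q1 q2 q3 q4 q5 i' v' then some false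
    else none)
  else if t' = t then
    (if i' = 1 ∧ v' = 0 then some true
    else if curI A.F A.acc A.e (A.P n) q1 q2 q3 q4 q5 i' v' then some false
    else none)
  else none

open Classical in
/-- The terms C. -/
noncomputable def T4 (n : ℕ) (w : List Bool) (t q1 q2 q3 q4 q5 : ℕ) :
    Bool × (ℕ → Option Bool) :=
  (decide (vGQ (A.P n) (A.D n) A.c (q1, q2, q3, q4, q5)),
    (A.ng n w).lit (A.litC' n w t q1 q2 q3 q4 q5) fun _ => none)

/-- The terms for the edges. -/
noncomputable def T5 (n : ℕ) (w : List Bool) (w0 e : ℕ) : Bool × (ℕ → Option Bool) :=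
  (!(e == lstop 0) && !(e == lstop 1) && !(e == lstop 2),
    (A.ng n w).lit (fun _ _ _ => none) fun e' =>
      if e' = e then some (!decide (e < lstop (w0 % 4))) else none)

theorem lit_kg {n : ℕ} {w : List Bool} {f : ℕ → ℕ → ℕ → Option Bool} {h : ℕ → Option Bool}
    {t i v : ℕ} (ht : t < 3) (hi : i < A.G n) (hv : v < A.V n) :
    (A.ng n w).lit f h ((t * A.G n + i) * A.V n + v) = f t i v := by
  have hG : (A.ng n w).G = A.G n := rfl
  have hV : (A.ng n w).V = A.V n := rfl
  have h0 : 0 < A.V n := by omega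
  have h1 : 0 < A.G n := by omega
  unfold NG.lit
  rw [hG, hV]
  have e1 : ((t * A.G n + i) * A.V n + v) / A.V n = t * A.G n + i := by
    rw [Nat.add_comm, Nat.add_mul_div_right _ _ h0, Nat.div_eq_of_lt hv, Nat.zero_add]
  have e2 : ((t * A.G n + i) * A.V n + v) % A.V n = v := by
    rw [Nat.add_comm, Nat.add_mul_mod_self_right, Nat.mod_eq_of_lt hv]
  have e3 : (t * A.G n + i) / A.G n = t := by
    rw [Nat.add_comm, Nat.add_mul_div_right _ _ h1, Nat.div_eq_of_lt hi, Nat.zero_add]
  have e4 : (t * A.G n + i) % A.G n = i := by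
    rw [Nat.add_comm, Nat.add_mul_mod_self_right, Nat.mod_eq_of_lt hi]
  have e5 : (t * A.G n + i) * A.V n + v < 3 * A.G n * A.V n := by
    have h2 : t * A.G n + i + 1 ≤ 3 * A.G n := by nlinarith
    calc (t * A.G n + i) * A.V n + v < (t * A.G n + i) * A.V n + A.V n := by omega
      _ = (t * A.G n + i + 1) * A.V n := by ring
      _ ≤ _ := Nat.mul_le_mul_right _ h2
  rw [if_pos e5, e1, e2, e3, e4]

theorem lit_tk {n : ℕ} {w : List Bool} {f : ℕ → ℕ → ℕ → Option Bool} {h : ℕ → Option Bool}
    {e : ℕ} : (A.ng n w).lit f h (3 * A.G n * A.V n + e) = h e := by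
  have hG : (A.ng n w).G = A.G n := rfl
  have hV : (A.ng n w).V = A.V n := rfl
  unfold NG.lit
  rw [hG, hV, if_neg (by omega), Nat.add_sub_cancel_left]

private theorem fnest_div {V a b : ℕ} (hb : b < V) : (a * V + b) / V = a := by
  rw [Nat.add_comm, Nat.add_mul_div_right _ _ (by omega), Nat.div_eq_of_lt hb, Nat.zero_add]

private theorem fnest_mod {V a b : ℕ} (hb : b < V) : (a * V + b) % V = b := by
  rw [Nat.add_comm, Nat.add_mul_mod_self_right, Nat.mod_eq_of_lt hb]

private theorem fnest_qd {V q1 q2 q3 q4 q5 : ℕ} (h2 : q2 < 3) (h3 : q3 < V) (h4 : q4 < V)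
    (h5 : q5 < V) :
    qd V ((((q1 * 3 + q2) * V + q3) * V + q4) * V + q5) = (q1, q2, q3, q4, q5) := by
  unfold qd
  rw [fnest_div h5, fnest_div h4, fnest_div h3, fnest_div h2, fnest_mod h2, fnest_mod h3,
    fnest_mod h4, fnest_mod h5]

open Classical in
private theorem fnest_T4 {n : ℕ} {w : List Bool} {t q1 q2 q3 q4 q5 : ℕ} (h2 : q2 < 3)
    (h3 : q3 < A.V n) (h4 : q4 < A.V n) (h5 : q5 < A.V n) :
    ((A.ng n w).vq ((((q1 * 3 + q2) * A.V n + q3) * A.V n + q4) * A.V n + q5),
      (A.ng n w).lit ((A.ng n w).litC t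
        ((((q1 * 3 + q2) * A.V n + q3) * A.V n + q4) * A.V n + q5)) fun _ => none) =
      A.T4 n w t q1 q2 q3 q4 q5 := by
  have hq := fnest_qd (q1 := q1) h2 h3 h4 h5
  set q := (((q1 * 3 + q2) * A.V n + q3) * A.V n + q4) * A.V n + q5
  have hv : (A.ng n w).vq q = decide (vGQ (A.P n) (A.D n) A.c (q1, q2, q3, q4, q5)) := by
    show decide (vGQ (A.P n) (A.D n) A.c (qd (A.V n) q)) = _
    rw [hq]
  have ho : (A.ng n w).opt q = q2 := by
    show (qd (A.V n) q).2.1 = _
    rw [hq]
  have hc : ∀ i v, (A.ng n w).cur q i v = true ↔ curI A.F A.acc A.e (A.P n) q1 q2 q3 q4 q5 i v := by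
    intro i v
    show decide (curI A.F A.acc A.e (A.P n) (qd (A.V n) q).1 (qd (A.V n) q).2.1
      (qd (A.V n) q).2.2.1 (qd (A.V n) q).2.2.2.1 (qd (A.V n) q).2.2.2.2 i v) = true ↔ _
    rw [hq, decide_eq_true_iff]
  have hn : ∀ i v, (A.ng n w).nxt q i v = true ↔
      nxtI (A.P n) (A.D n) A.cb (A.row n w) q1 q2 q3 q4 q5 i v := by
    intro i v
    show decide (nxtI (A.P n) (A.D n) A.cb (A.row n w) (qd (A.V n) q).1 (qd (A.V n) q).2.1
      (qd (A.V n) q).2.2.1 (qd (A.V n) q).2.2.2.1 (qd (A.V n) q).2.2.2.2 i v) = true ↔ _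
    rw [hq, decide_eq_true_iff]
  have hl : (A.ng n w).litC t q = A.litC' n w t q1 q2 q3 q4 q5 := by
    funext t' i' v'
    have hG : (A.ng n w).G = A.G n := rfl
    unfold NG.litC litC'
    rw [ho, hG]
    by_cases h1 : (A.ng n w).nxt q i' v' = true <;> by_cases h2 : (A.ng n w).cur q i' v' = true <;>
      simp only [h1, h2, (hn i' v').1, (hc i' v').1, ← hn i' v', ← hc i' v']
  unfold T4
  rw [hv, hl]

theorem terms_flatMap {α : Type*} (n : ℕ) (w : List Bool) (w0 : ℕ)
    (φ : Bool × (ℕ → Option Bool) → List α) :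
    ((A.ng n w).terms lLc lstop w0).flatMap φ =
      ((List.range 3).flatMap fun t => (List.range (A.G n)).flatMap fun i =>
        (List.range (A.V n)).flatMap fun v => (List.range (A.V n)).flatMap fun u =>
          φ (A.T1 n w t i v u)) ++
      (φ (A.T2 n w) ++
      (((List.range 3).flatMap fun t => (List.range (2 * (A.P n + 3))).flatMap fun k =>
        (List.range 10).flatMap fun k0 => (List.range (A.V n)).flatMap fun v =>
          (List.range (A.V n)).flatMap fun u => φ (A.T3 n w w0 t (k * 10 + k0) v u)) ++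
      (((List.range 3).flatMap fun t => (List.range 6).flatMap fun q1 =>
        (List.range 3).flatMap fun q2 => (List.range (A.V n)).flatMap fun q3 =>
          (List.range (A.V n)).flatMap fun q4 => (List.range (A.V n)).flatMap fun q5 =>
            φ (A.T4 n w t q1 q2 q3 q4 q5)) ++
      (List.range lLc).flatMap fun e => φ (A.T5 n w w0 e)))) := by
  have hG : (A.ng n w).G = A.G n := rfl
  have hV : (A.ng n w).V = A.V n := rfl
  have hQ : (A.ng n w).nQ = 6 * 3 * A.V n * A.V n * A.V n := rfl
  have h2G : 2 * A.G n = 2 * (A.P n + 3) * 10 := by unfold G; ring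
  unfold NG.terms
  rw [hG, hV, hQ, h2G]
  simp only [List.flatMap_append, List.append_assoc]
  refine congrArg₂ _ ?_ (congrArg₂ _ ?_ (congrArg₂ _ ?_ (congrArg₂ _ ?_ ?_)))
  · simp only [List.flatMap_assoc, List.flatMap_map]
    rfl
  · exact List.flatMap_singleton φ _
  · simp only [List.flatMap_assoc, List.flatMap_map, range_mul_flatMap]
    rfl
  · simp only [List.flatMap_assoc, List.flatMap_map, range_mul_flatMap]
    refine List.flatMap_congr fun t _ => List.flatMap_congr fun q1 _ =>
      List.flatMap_congr fun q2 h2 => List.flatMap_congr fun q3 h3 =>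
      List.flatMap_congr fun q4 h4 => List.flatMap_congr fun q5 h5 => ?_
    rw [fnest_T4 A (List.mem_range.1 h2) (List.mem_range.1 h3) (List.mem_range.1 h4)
      (List.mem_range.1 h5)]
  · simp only [List.flatMap_map]
    rfl

theorem nterms_eq (n : ℕ) (w : List Bool) (w0 : ℕ) :
    ((A.ng n w).terms lLc lstop w0).length = A.nterms n := by
  have hG : (A.ng n w).G = A.G n := rfl
  have hV : (A.ng n w).V = A.V n := rfl
  have hQ : (A.ng n w).nQ = 6 * 3 * A.V n * A.V n * A.V n := rfl
  unfold NG.terms nterms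
  rw [hG, hV, hQ]
  simp only [List.length_append, List.length_flatMap, List.length_map, List.length_range,
    List.map_const', List.sum_replicate, smul_eq_mul, List.length_cons, List.length_nil]
  ring

end GData

end Pool.Agent.MC95
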