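import Pool.Agent.MEternal.Tests

/-!
# Functions computed by loop programs

PLAN. `loop`: the program `.loopUp i e p`. `flatMap_const`: induction on the list. `polyTime`: `FProg.polyTime` with the
polynomial `X + e.vp`, where `e` is the expression of `M`; by `Expr.val_le`, `M n ≤ e.vp.eval n`
(all variables of `env0 13 n` are at most `n`), and `Safe` is monotone in its first argument
(`Safe.mono`, by induction on the program).
-/

namespace Pool.Agent.MC95

open Pool.Agent.MEternal

/-- Assignments. -/
abbrev Env : Type := Fin 14 → ℕ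

/-- The function is the output of a program with loop variables in `S` and bounds at most
`M (env 0)`. -/
def IsOut (M : ℕ → ℕ) (S : Finset (Fin 14)) (g : List Bool → Env → List Bool) : Prop :=
  ∃ p : FProg 14, (∀ w env, p.output w env = g w env) ∧
    ∀ env : Env, (∀ i ∈ S, env i = 0) → p.Safe (M (env 0)) env

variable {M : ℕ → ℕ} {S S' : Finset (Fin 14)} {g g' : List Bool → Env → List Bool}

theorem safe_mono {p : FProg 14} : ∀ {m m' : ℕ} {env : Env}, p.Safe m env → m ≤ m' →
    p.Safe m' env := by
  induction p with
  | nop => intro m m' env _ _; trivial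
  | emit b => intro m m' env _ _; trivial
  | seq p q ihp ihq =>
    intro m m' env h hm
    exact ⟨ihp h.1 hm, ihq h.2 hm⟩
  | ite b p q ihp ihq =>
    intro m m' env h hm
    exact ⟨ihp h.1 hm, ihq h.2 hm⟩
  | loopUp i e p ih =>
    intro m m' env h hm
    exact ⟨h.1, h.2.1.trans hm, fun v hv => ih (h.2.2 v hv) hm⟩

theorem IsOut.congr (h : IsOut M S g) (h' : ∀ w env, g' w env = g w env) : IsOut M S g' := by
  obtain ⟨p, hp, hs⟩ := h
  exact ⟨p, fun w env => (hp w env).trans (h' w env).symm, hs⟩

theorem IsOut.mono (h : IsOut M S g) (hS : S ⊆ S') : IsOut M S' g := by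
  obtain ⟨p, hp, hs⟩ := h
  exact ⟨p, hp, fun env he => hs env fun i hi => he i (hS hi)⟩

theorem IsOut.const (l : List Bool) : IsOut M S fun _ _ => l := by
  induction l with
  | nil => exact ⟨.nop, fun _ _ => rfl, fun _ _ => trivial⟩
  | cons b l ih =>
    obtain ⟨p, hp, hs⟩ := ih
    refine ⟨.seq (.emit b) p, fun w env => ?_, fun env he => ⟨trivial, hs env he⟩⟩
    show [b] ++ p.output w env = b :: l
    rw [hp w env]
    rfl

theorem IsOut.append (h : IsOut M S g) (h' : IsOut M S g') :
    IsOut M S fun w env => g w env ++ g' w env := by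
  obtain ⟨p, hp, hs⟩ := h
  obtain ⟨p', hp', hs'⟩ := h'
  refine ⟨.seq p p', fun w env => ?_, fun env he => ⟨hs env he, hs' env he⟩⟩
  show p.output w env ++ p'.output w env = _
  rw [hp, hp']

theorem IsOut.ite {φ : List Bool → Env → Prop} [∀ w env, Decidable (φ w env)] (hφ : IsTest φ)
    (h : IsOut M S g) (h' : IsOut M S g') :
    IsOut M S fun w env => if φ w env then g w env else g' w env := by
  obtain ⟨b, hb⟩ := hφ
  obtain ⟨p, hp, hs⟩ := h
  obtain ⟨p', hp', hs'⟩ := h'
  refine ⟨.ite b p p', fun w env => ?_, fun env he => ⟨hs env he, hs' env he⟩⟩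
  show (if b.val w env then p.output w env else p'.output w env) =
    if φ w env then g w env else g' w env
  rw [hp, hp']
  by_cases hc : φ w env
  · rw [if_pos hc, if_pos ((hb w env).2 hc)]
  · rw [if_neg hc, if_neg (fun hh => hc ((hb w env).1 hh))]

theorem IsOut.flatMap_const {α : Type*} (l : List α) {g : α → List Bool → Env → List Bool}
    (h : ∀ a ∈ l, IsOut M S (g a)) : IsOut M S fun w env => l.flatMap fun a => g a w env := by
  induction l with
  | nil => exact (IsOut.const []).congr fun _ _ => rfl
  | cons a l ih =>
    have h1 := h a (by simp)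
    have h2 := ih fun b hb => h b (by simp [hb])
    exact (h1.append h2).congr fun w env => by simp [List.flatMap_cons]

theorem IsOut.loop {i : Fin 14} (hi : i ≠ 0) (hiS : i ∉ S) {b : Env → ℕ} (hb : IsExpr b)
    (hM : ∀ env, b env ≤ M (env 0)) (h : IsOut M S g) :
    IsOut M (insert i S) fun w env =>
      (List.range (b env)).flatMap fun v => g w (Function.update env i v) := by
  obtain ⟨e, he⟩ := hb
  obtain ⟨p, hp, hs⟩ := h
  refine ⟨.loopUp i e p, fun w env => ?_, fun env hz => ⟨hz i (by simp), ?_, fun v _ => ?_⟩⟩
  · show ((List.range (e.val env)).flatMap fun v => p.output w (Function.update env i v)) = _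
    rw [he]
    simp only [hp]
  · rw [he]
    exact hM env
  · have h1 := hs (Function.update env i v) fun j hj => by
      rw [Function.update_of_ne]
      · exact hz j (by simp [hj])
      · rintro rfl
        exact hiS hj
    rwa [Function.update_of_ne hi.symm] at h1

/-- A loop whose body is given as a function of the loop variable. -/
theorem IsOut.loop' {i : Fin 14} (hi : i ≠ 0) (hiS : i ∉ S) {b : Env → ℕ} (hb : IsExpr b)
    (hM : ∀ env, b env ≤ M (env 0)) {g : List Bool → Env → ℕ → List Bool}
    (hg : ∀ w env v v', g w (Function.update env i v') v = g w env v)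
    (h : IsOut M S fun w env => g w env (env i)) :
    IsOut M (insert i S) fun w env => (List.range (b env)).flatMap fun v => g w env v := by
  refine (IsOut.loop hi hiS hb hM h).congr fun w env => ?_
  simp only [Function.update_self, hg]

theorem IsOut.polyTime (hS : 0 ∉ S) (hM : IsExpr fun env : Env => M (env 0))
    (h : IsOut M S g) :
    Nonempty (Turing.TM2ComputableInPolyTime (id : List Bool → List Bool)
      (id : List Bool → List Bool) (fun w => g w (env0 13 w.length))) := by
  obtain ⟨e, he⟩ := hM
  obtain ⟨p, hp, hs⟩ := h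
  have key := FProg.polyTime p (Polynomial.X + e.vp) ?_
  · convert key using 2
    funext w
    exact (hp w _).symm
  · intro n
    have h0 : ∀ i, env0 13 n i ≤ n := by
      intro i
      simp only [env0]
      split_ifs <;> omega
    have h1 : M n ≤ e.vp.eval n := by
      have h2 := Expr.val_le h0 e
      rw [he] at h2
      exact h2
    have h3 : (Polynomial.X + e.vp).eval n = n + e.vp.eval n := by simp
    rw [h3]
    refine ⟨by omega, safe_mono (hs _ fun i hi => ?_) (h1.trans (by omega))⟩
    have : i ≠ 0 := by
      rintro rfl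
      exact hS hi
    simp [env0, this]

end Pool.Agent.MC95
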