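import Mathlib

/-!
# The abstract game of a circuit, and the circuit of a safety game

The abstract game: White has a king with two positions `al`, a king in the corridor at position `x`,
and a king `a` in the gate; Black has `m` kings `y k` with two positions each. White claims a win at
a state with `x = stop j` if a term of the root `4 * al + j` is satisfied.

The safety game `NG`: `G` cells, values `< V`; the attacker chooses an option `b < 3`, the defender
answers with a new assignment `x'` of values to the cells such that every clause `q` with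
`opt q = b` is satisfied. Cells `0` and `10` hold the option, cells `1, ..., 9` and `G - 1` are
dummies.

The circuit: three copies of the cells, the Black king `(t * G + i) * V + v` is in position `true` if
cell `i` of copy `t` holds the value `v`; the Black king `3 * G * V + e` records whether the king in
the corridor is to the right of edge `e`.
-/

namespace Pool.Agent.MC95

/-- States of the abstract game. -/
@[ext] structure AS where
  al : Bool
  x : ℕ
  a : Bool
  y : ℕ → Bool

/-- Circuits in the abstract: number of Black kings, length of the corridor, stops, terms of the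
roots (a term is a validity bit together with the literals). -/
structure Ckt where
  m : ℕ
  Lc : ℕ
  stop : ℕ → ℕ
  terms : ℕ → List (Bool × (ℕ → Option Bool))

/-- The number of a root. -/
def rt (al : Bool) (j : ℕ) : ℕ := 4 * (if al then 1 else 0) + j

/-- The term `τ` is satisfied. -/
def Ckt.Sat (C : Ckt) (τ : Bool × (ℕ → Option Bool)) (y : ℕ → Bool) : Prop :=
  τ.1 = true ∧ ∀ k < C.m, ∀ p, τ.2 k = some p → y k = p

/-- White can claim a win. -/
def Ckt.Claim (C : Ckt) (s : AS) : Prop :=
  ∃ j < 4, s.x = C.stop j ∧ ∃ τ ∈ C.terms (rt s.al j), C.Sat τ s.y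

/-- Moves of White. -/
inductive WMove (C : Ckt) : AS → AS → Prop
  | al (s : AS) : WMove C s { s with al := !s.al }
  | right (s : AS) (h : s.x < C.Lc) : WMove C s { s with x := s.x + 1 }
  | left (s : AS) (h : 0 < s.x) : WMove C s { s with x := s.x - 1 }
  | a (s : AS) : WMove C s { s with a := !s.a }

/-- Moves of Black. -/
inductive BMove (C : Ckt) : AS → AS → Prop
  | pass (s : AS) : BMove C s s
  | y (s : AS) (k : ℕ) (h : k < C.m) : BMove C s { s with y := Function.update s.y k (!s.y k) }

/-- White wins the abstract game. If `P`, then White can only claim with the king of the gate in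
position `false`. -/
inductive AWin (C : Ckt) (P : Bool) : AS → Prop
  | claim {s : AS} (hc : C.Claim s) (ha : P = true → s.a = false) : AWin C P s
  | move {s s' : AS} (h : WMove C s s') (hb : ∀ s'', BMove C s' s'' → AWin C P s'') : AWin C P s

/-- Numerical safety games. -/
structure NG where
  G : ℕ
  V : ℕ
  nQ : ℕ
  dom : ℕ → ℕ → Bool
  opt : ℕ → ℕ
  vq : ℕ → Bool
  cur : ℕ → ℕ → ℕ → Bool
  nxt : ℕ → ℕ → ℕ → Bool
  init : ℕ → ℕ

/-- Conditions on numerical safety games. -/
structure NG.Ok (g : NG) : Prop where
  hG : 10 ∣ g.G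
  hG' : 30 ≤ g.G
  hV : 2 ≤ g.V
  dom_lt : ∀ i v, g.dom i v = true → v < g.V
  dom_opt : ∀ i v, i = 0 ∨ i = 10 → (g.dom i v = true ↔ v < 2)
  dom_dummy : ∀ i v, (1 ≤ i ∧ i ≤ 9) ∨ i + 1 = g.G → (g.dom i v = true ↔ v = 0)
  init_dom : ∀ i < g.G, g.dom i (g.init i) = true
  opt_lt : ∀ q, g.opt q < 3
  cur_range : ∀ q i v, g.cur q i v = true → 11 ≤ i ∧ i + 1 < g.G
  nxt_range : ∀ q i v, g.nxt q i v = true → 11 ≤ i ∧ i + 1 < g.G

/-- The values of an assignment are in the domains. -/
def NG.Dm (g : NG) (x : ℕ → ℕ) : Prop := ∀ i < g.G, g.dom i (x i) = true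

/-- The defender may answer the option `b` by moving from `x` to `x'`. -/
def NG.Trans (g : NG) (b : ℕ) (x x' : ℕ → ℕ) : Prop :=
  ∀ q < g.nQ, g.vq q = true → g.opt q = b →
    (∃ i < g.G, g.cur q i (x i) = true) ∨ (∃ i < g.G, g.nxt q i (x' i) = true)

/-- The defender wins. -/
def NG.Def (g : NG) : Prop :=
  ∃ S : Set (ℕ → ℕ), g.init ∈ S ∧ (∀ x ∈ S, g.Dm x) ∧
    ∀ x ∈ S, ∀ b < 3, ∃ x' ∈ S, g.Trans b x x'

/-- There is an assignment from which every answer is possible. -/
def NG.Esc (g : NG) : Prop :=
  ∃ z, g.Dm z ∧ ∀ q < g.nQ, ∃ i < g.G, g.cur q i (z i) = true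

/-- The option stored in an assignment. -/
def optc (x : ℕ → ℕ) : ℕ := if x 10 = 1 then 2 else x 0

/-- The number of the Black king for value `v` of cell `i` of copy `t`. -/
def NG.kg (g : NG) (t i v : ℕ) : ℕ := (t * g.G + i) * g.V + v

/-- The number of the Black king for edge `e` of the corridor. -/
def NG.tk (g : NG) (e : ℕ) : ℕ := 3 * g.G * g.V + e

/-- Literals given by conditions on the cells and on the edges. -/
def NG.lit (g : NG) (f : ℕ → ℕ → ℕ → Option Bool) (h : ℕ → Option Bool) (k : ℕ) : Option Bool :=
  if k < 3 * g.G * g.V then f (k / g.V / g.G) (k / g.V % g.G) (k % g.V)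
  else h (k - 3 * g.G * g.V)

/-- The labels of the honest walk: `lam c w` means that root `w` is a label of step `c`. -/
def lam (c w : ℕ) : Bool :=
  match c % 10 with
  | 0 => w == 5
  | 1 => w == 1 || w == 6
  | 2 => w == 2
  | 3 => w == 3
  | 4 => w == 7
  | 5 => w == 6
  | 6 => w == 5
  | 7 => w == 1
  | 8 => w == 0
  | _ => w == 4

/-- The labels at which Black must not be in step `c`. -/
def bad (c w : ℕ) : Bool := lam (c + 1) w || lam (c + 2) w

/-- Validity of the terms `A`. -/
def badA (k v w : ℕ) : Bool :=
  bad k w || ((k == 1 || k == 11) && ((v == 1 && w == 1) || (v == 0 && w == 6)))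

/-- Literals of the terms `A`. -/
def NG.litA (g : NG) (t k v u : ℕ) (t' i' v' : ℕ) : Option Bool :=
  if k = 0 then
    (if t' = t ∧ i' + 1 = g.G ∧ v' = v then some true
    else if t' = (t + 1) % 3 ∧ i' = 0 then some false
    else if t' = (t + 2) % 3 ∧ i' + 1 = g.G then some false
    else none)
  else if k < g.G then
    (if t' = (t + 1) % 3 ∧ i' + 1 = k ∧ v' = v then some true
    else if t' = (t + 1) % 3 ∧ i' = k then some false
    else none)
  else if k = g.G then
    (if t' = (t + 1) % 3 ∧ i' + 1 = g.G ∧ v' = v then some true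
    else if t' = t ∧ i' = 0 ∧ v' = u then some true
    else none)
  else
    (if t' = t ∧ i' + g.G = k ∧ v' = v then some true
    else if t' = t ∧ i' + g.G + 1 = k then some false
    else none)

/-- Literals of the terms `C`. -/
def NG.litC (g : NG) (t q : ℕ) (t' i' v' : ℕ) : Option Bool :=
  if t' = (t + 1) % 3 then
    (if i' + 1 = g.G ∧ v' = 0 then some true
    else if i' = 0 then (if g.opt q ≠ 2 ∧ v' = g.opt q then some true else none)
    else if i' = 10 then (if v' = (if g.opt q = 2 then 1 else 0) then some true else none)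
    else if g.nxt q i' v' = true then some false
    else none)
  else if t' = t then
    (if i' = 1 ∧ v' = 0 then some true
    else if g.cur q i' v' = true then some false
    else none)
  else none

/-- The terms of root `w`. -/
def NG.terms (g : NG) (Lc : ℕ) (stop : ℕ → ℕ) (w : ℕ) : List (Bool × (ℕ → Option Bool)) :=
  ((List.range 3).flatMap fun t => (List.range g.G).flatMap fun i =>
    (List.range g.V).flatMap fun v => (List.range g.V).map fun u =>
      (!(v == u) || !g.dom i v,
        g.lit (fun t' i' v' => if t' = t ∧ i' = i ∧ (v' = v ∨ v' = u) then some true else none)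
          fun _ => none)) ++
  [(true, g.lit (fun _ i' _ => if i' + 1 = g.G then some false else none) fun _ => none)] ++
  ((List.range 3).flatMap fun t => (List.range (2 * g.G)).flatMap fun k =>
    (List.range g.V).flatMap fun v => (List.range g.V).map fun u =>
      (badA k v w, g.lit (g.litA t k v u) fun _ => none)) ++
  ((List.range 3).flatMap fun t => (List.range g.nQ).map fun q =>
      (g.vq q, g.lit (g.litC t q) fun _ => none)) ++
  ((List.range Lc).map fun e =>
      (!(e == stop 0) && !(e == stop 1) && !(e == stop 2),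
        g.lit (fun _ _ _ => none) fun e' =>
          if e' = e then some (!decide (e < stop (w % 4))) else none))

/-- The circuit of a numerical safety game. -/
def NG.ckt (g : NG) (Lc : ℕ) (stop : ℕ → ℕ) : Ckt where
  m := 3 * g.G * g.V + Lc
  Lc := Lc
  stop := stop
  terms := g.terms Lc stop

/-- The initial state. -/
def NG.s0 (g : NG) (stop : ℕ → ℕ) : AS where
  al := true
  x := stop 1
  a := false
  y := fun k => if k < 3 * g.G * g.V then
      decide (k / g.V / g.G = 0) && decide (k % g.V = g.init (k / g.V % g.G))
    else decide (k - 3 * g.G * g.V < stop 1)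

/-- Conditions on the stops. -/
structure StopOk (Lc : ℕ) (stop : ℕ → ℕ) : Prop where
  h0 : stop 0 < stop 1
  h1 : stop 1 < stop 2
  h2 : stop 2 < stop 3
  h3 : stop 3 < Lc

/-- The group of a position in the corridor. -/
def grp (stop : ℕ → ℕ) (x : ℕ) : ℕ :=
  (if stop 0 < x then 1 else 0) + (if stop 1 < x then 1 else 0) + (if stop 2 < x then 1 else 0)

/-- The Black kings describe step `k` of round `t`: copy `t` holds `x` (from cell `k - G` on), copy
`t + 1` holds `x'` (up to cell `k - 1`). -/
def NG.Cfg (g : NG) (t k : ℕ) (x x' : ℕ → ℕ) (y : ℕ → Bool) : Prop :=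
  ∀ t' < 3, ∀ i < g.G, ∀ v < g.V, y (g.kg t' i v) =
    (if t' = t then decide (v = x i) && decide (k ≤ i + g.G)
    else if t' = (t + 1) % 3 then decide (v = x' i) && decide (i < k)
    else false)

/-- The Black kings of the edges are right for the position `x` of the king in the corridor. -/
def NG.Tck (g : NG) (Lc : ℕ) (stop : ℕ → ℕ) (x : ℕ) (y : ℕ → Bool) : Prop :=
  ∀ e < Lc, e ≠ stop 0 → e ≠ stop 1 → e ≠ stop 2 → y (g.tk e) = decide (e < x)

end Pool.Agent.MC95
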