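import Pool.Agent.MEternal.Bound
import Pool.Agent.MC95.PDefs

/-!
# The numerical safety game of the tableau game

The cells `11, ..., 10 + P` hold the digits of the time, `11 + P, ..., 12 + 2 * P` the digits of the
position, `13 + 2 * P` and `14 + 2 * P` the positions of the borrows, `15 + 2 * P` the end flag and
`16 + 2 * P, ..., 18 + 2 * P` the claimed symbols; the others are dummies, except for the cells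
`0` and `10`.
-/

namespace Pool.Agent.MC95

open Pool.Agent.MEternal Pool.Agent.MEternal.CAGame Pool.Agent.MEternal.Codes

variable {C : Type}

/-- Literals about the current state: clause `(q1, ..., q5)`, cell `i`, value `v`. -/
def curI (F : C → C → C → C) (acc : C → Prop) (e : C → ℕ) (P q1 q2 q3 q4 q5 i v : ℕ) : Prop :=
  (i = 15 + 2 * P ∧ v = 1) ∨
  (q1 = 0 ∧ q4 < P ∧ i = 11 + q4 ∧ v ≠ q5) ∨
  (q1 = 1 ∧ q4 < P + 2 ∧ i = 11 + P + q4 ∧ v ≠ q5) ∨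
  (q1 = 1 ∧ q2 < 3 ∧ i = 16 + 2 * P + q2 ∧ v = 0) ∨
  (q1 = 2 ∧ q2 < 3 ∧ i = 16 + 2 * P + q2 ∧ okN F acc e q3 q4 q5 v)

/-- Literals about the next state. -/
def nxtI (P D cb : ℕ) (row : ℕ → ℕ → ℕ → Prop) (q1 q2 q3 q4 q5 i v : ℕ) : Prop :=
  (q1 = 0 ∧ i = 13 + 2 * P ∧ v ≠ q3) ∨
  (q1 = 0 ∧ q4 < P ∧ i = 11 + q4 ∧ decN D q3 q4 q5 v) ∨
  (q1 = 1 ∧ i = 14 + 2 * P ∧ v ≠ q3) ∨
  (q1 = 1 ∧ q4 < P + 2 ∧ i = 11 + P + q4 ∧ mvN D q2 q3 q4 q5 v) ∨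
  (q1 = 2 ∧ ((i = 16 + 2 * P ∧ v ≠ q3) ∨ (i = 17 + 2 * P ∧ v ≠ q4) ∨
    (i = 18 + 2 * P ∧ v ≠ q5))) ∨
  ((q1 = 3 ∨ q1 = 4 ∨ q1 = 5) ∧ i = 15 + 2 * P ∧ v = 0) ∨
  (q1 = 3 ∧ q3 < P ∧ i = 11 + q3 ∧ v = 0) ∨
  (q1 = 4 ∧ ((i = 11 + P ∧ v ≠ q3) ∨ (11 + P < i ∧ i < 13 + 2 * P ∧
    ((i = 12 + 2 * P ∧ v ≠ 1) ∨ (i ≠ 12 + 2 * P ∧ v ≠ 0))))) ∨
  (q1 = 4 ∧ q4 < 3 ∧ i = 16 + 2 * P + q4 ∧ row q3 q4 v) ∨
  (q1 = 5 ∧ q3 < P + 2 ∧ i = 11 + P + q3 ∧ (q3 = 0 ∨ offN P q3 v)) ∨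
  (q1 = 5 ∧ q4 < 3 ∧ i = 16 + 2 * P + q4 ∧ v = cb)

/-- Domains. -/
def domI (P D c i v : ℕ) : Prop :=
  ((i = 0 ∨ i = 10) ∧ v < 2) ∨ (1 ≤ i ∧ i ≤ 9 ∧ v = 0) ∨
  (11 ≤ i ∧ i < 13 + 2 * P ∧ v < D) ∨ (i = 13 + 2 * P ∧ v < P) ∨ (i = 14 + 2 * P ∧ v < P + 2) ∨
  (i = 15 + 2 * P ∧ v < 2) ∨ (16 + 2 * P ≤ i ∧ i < 19 + 2 * P ∧ v < c + 1) ∨
  (19 + 2 * P ≤ i ∧ v = 0)

/-- The components of the number of a clause. -/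
def qd (V q : ℕ) : ℕ × ℕ × ℕ × ℕ × ℕ :=
  (q / V / V / V / 3, q / V / V / V % 3, q / V / V % V, q / V % V, q % V)

open Classical in
/-- The numerical safety game. -/
noncomputable def gameNG (F : C → C → C → C) (acc : C → Prop) (e : C → ℕ) (P D c cb : ℕ)
    (row : ℕ → ℕ → ℕ → Prop) : NG where
  G := 10 * (P + 3)
  V := P + D + c + 3
  nQ := 6 * 3 * (P + D + c + 3) * (P + D + c + 3) * (P + D + c + 3)
  dom i v := decide (domI P D c i v)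
  opt q := (qd (P + D + c + 3) q).2.1
  vq q := decide (vGQ P D c (qd (P + D + c + 3) q))
  cur q i v :=
    let x := qd (P + D + c + 3) q
    decide (curI F acc e P x.1 x.2.1 x.2.2.1 x.2.2.2.1 x.2.2.2.2 i v)
  nxt q i v :=
    let x := qd (P + D + c + 3) q
    decide (nxtI P D cb row x.1 x.2.1 x.2.2.1 x.2.2.2.1 x.2.2.2.2 i v)
  init i := if 11 ≤ i ∧ i < 11 + P then D - 1 else 0

end Pool.Agent.MC95
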