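import Pool.Agent.MC95.FTile
import Pool.Agent.MC95.GNum

/-!
# Writing lists of tiles: definitions
-/

namespace Pool.Agent.MC95

open Pool.Agent.MEternal Pool.Agent.MEternal.Codes

/-- The data of the tableau game, as functions of the length `n` of the input and the input. -/
structure GData (C : Type) where
  F : C → C → C → C
  acc : C → Prop
  e : C → ℕ
  cb : ℕ
  c : ℕ
  P : ℕ → ℕ
  D : ℕ → ℕ
  row : ℕ → List Bool → ℕ → ℕ → ℕ → Prop
  hP : IsExpr fun env : Env => P (env 0)
  hD : IsExpr fun env : Env => D (env 0)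
  hrow : ∀ a k d : Env → ℕ, IsExpr a → IsExpr k → IsExpr d →
    IsTest fun w env => row (env 0) w (a env) (k env) (d env)

namespace GData

variable {C : Type} (A : GData C)

/-- The numerical safety game. -/
noncomputable def ng (n : ℕ) (w : List Bool) : NG :=
  gameNG A.F A.acc A.e (A.P n) (A.D n) A.c A.cb (A.row n w)

/-- The number of cells. -/
def G (n : ℕ) : ℕ := 10 * (A.P n + 3)

/-- The number of values. -/
def V (n : ℕ) : ℕ := A.P n + A.D n + A.c + 3

/-- The number of Black kings in tiles Y. -/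
def m (n : ℕ) : ℕ := 3 * A.G n * A.V n + lLc

/-- The track of the gate. -/
def sg (n : ℕ) : ℕ := lsg (A.m n)

/-- The number of tiles of a term. -/
def lterm (n : ℕ) : ℕ :=
  1 + (A.m n * (1 + A.sg n * A.sg n) + (1 + A.sg n * A.sg n))

/-- The number of terms of a root. -/
def nterms (n : ℕ) : ℕ :=
  3 * (A.G n * (A.V n * A.V n)) + (1 + (3 * (2 * A.G n * (A.V n * A.V n)) +
    (3 * (18 * (A.V n * (A.V n * A.V n))) + lLc)))

/-- The number of tiles of a root. -/
def lroot (n : ℕ) : ℕ :=
  2 + (A.sg n * A.sg n + (A.nterms n * A.lterm n + A.sg n * A.sg n))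

/-- The number of tiles of the circuit. -/
def len (n : ℕ) : ℕ :=
  2 + (36 + 4 * A.m n) + 6 + 1 + (27 + 4 * A.m n) + 6 + 8 * A.lroot n +
    A.m n * (4 + 4 * (A.sg n * A.sg n)) + 2 + 135 + 3 + (6 + 2 * (35 + 4 * A.m n))

/-- The size of the board. -/
def N (n : ℕ) : ℕ := 28 * A.len n

/-- Lists of tiles that can be written. -/
def IsL (r : ℕ) (S : Finset (Fin 14)) (f : List Bool → Env → List Op) : Prop :=
  IsOut A.N S fun w env =>
    (f w env).flatMap fun o => tileRow (A.N (env 0)) (A.sg (env 0)) o (8 * env 1 + r)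

end GData

end Pool.Agent.MC95
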