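import Pool.Agent.MC95.FPar

/-!
# Tests

PLAN. Unfold and apply the rules for tests (`repeat'` with `IsTest.and`, `IsTest.or`, `IsTest.not`,
`IsTest.eq`, `IsTest.lt`, `IsTest.le`, `IsExpr.add`, ..., `isTest_okN`, `A.hrow`, as in
`Pool.Agent.MEternal.AdjTests`); conditions on constants by `IsTest.const`. `v ≠ q` is `¬ v = q`.
`badA (k * 10 + k0)`: `lam c w` depends on `c % 10`, so `bad (k * 10 + k0) w0` is a constant;
`k * 10 + k0 = 1` and `k * 10 + k0 = 11` are tests.
-/

namespace Pool.Agent.MC95

open Pool.Agent.MEternal Pool.Agent.MEternal.Codes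

namespace GData

variable {C : Type} [Finite C] (A : GData C)

theorem isTest_curI (q1 q2 : ℕ) {q3 q4 q5 i v : Env → ℕ} (h3 : IsExpr q3) (h4 : IsExpr q4)
    (h5 : IsExpr q5) (hi : IsExpr i) (hv : IsExpr v) :
    IsTest fun (_ : List Bool) (env : Env) => curI A.F A.acc A.e (A.P (env 0)) q1 q2 (q3 env)
      (q4 env) (q5 env) (i env) (v env) := by
  have hP := A.hP
  have h2P : IsExpr fun env : Env => 2 * A.P (env 0) := (IsExpr.const 2).mul hP
  simp only [curI]
  repeat' first
    | exact IsTest.const _
    | apply IsTest.and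
    | apply IsTest.or
    | apply IsTest.eq
    | apply IsTest.lt
    | apply IsTest.ne
    | apply IsTest.not
    | apply isTest_okN
    | exact IsExpr.const _
    | assumption
    | apply IsExpr.add

theorem isTest_nxtI (q1 q2 : ℕ) {q3 q4 q5 i v : Env → ℕ} (h3 : IsExpr q3) (h4 : IsExpr q4)
    (h5 : IsExpr q5) (hi : IsExpr i) (hv : IsExpr v) :
    IsTest fun (w : List Bool) (env : Env) => nxtI (A.P (env 0)) (A.D (env 0)) A.cb
      (A.row (env 0) w) q1 q2 (q3 env) (q4 env) (q5 env) (i env) (v env) := by
  have hP := A.hP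
  have hD := A.hD
  have h2P : IsExpr fun env : Env => 2 * A.P (env 0) := (IsExpr.const 2).mul hP
  simp only [nxtI, decN, mvN, offN]
  repeat' first
    | exact IsTest.const _
    | apply IsTest.and
    | apply IsTest.or
    | apply IsTest.eq
    | apply IsTest.lt
    | apply IsTest.ne
    | apply IsTest.not
    | apply A.hrow
    | exact IsExpr.const _
    | assumption
    | apply IsExpr.add

theorem isTest_domI {i v : Env → ℕ} (hi : IsExpr i) (hv : IsExpr v) :
    IsTest fun (_ : List Bool) (env : Env) =>
      domI (A.P (env 0)) (A.D (env 0)) A.c (i env) (v env) := by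
  have hP := A.hP
  have hD := A.hD
  have h2P : IsExpr fun env : Env => 2 * A.P (env 0) := (IsExpr.const 2).mul hP
  simp only [domI]
  repeat' first
    | exact IsTest.const _
    | apply IsTest.and
    | apply IsTest.or
    | apply IsTest.eq
    | apply IsTest.lt
    | apply IsTest.le
    | apply IsTest.ne
    | apply IsTest.not
    | exact IsExpr.const _
    | assumption
    | apply IsExpr.add

theorem isTest_vGQ (q1 q2 : ℕ) {q3 q4 q5 : Env → ℕ} (h3 : IsExpr q3) (h4 : IsExpr q4)
    (h5 : IsExpr q5) :
    IsTest fun (_ : List Bool) (env : Env) =>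
      vGQ (A.P (env 0)) (A.D (env 0)) A.c (q1, q2, q3 env, q4 env, q5 env) := by
  have hP := A.hP
  have hD := A.hD
  simp only [vGQ]
  repeat' first
    | exact IsTest.const _
    | apply IsTest.and
    | apply IsTest.or
    | apply IsTest.eq
    | apply IsTest.lt
    | apply IsTest.le
    | apply IsTest.ne
    | apply IsTest.not
    | exact IsExpr.const _
    | assumption
    | apply IsExpr.add

private theorem lam_congr {a b : ℕ} (h : a % 10 = b % 10) (w : ℕ) : lam a w = lam b w := by
  unfold lam
  rw [h]

private theorem bad_congr {a b : ℕ} (h : a % 10 = b % 10) (w : ℕ) : bad a w = bad b w := by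
  unfold bad
  rw [lam_congr (a := a + 1) (b := b + 1) (by omega), lam_congr (a := a + 2) (b := b + 2)
    (by omega)]

theorem isTest_badA (k0 w0 : ℕ) (hk0 : k0 < 10) {k v : Env → ℕ} (hk : IsExpr k)
    (hv : IsExpr v) :
    IsTest fun (_ : List Bool) (env : Env) => badA (k env * 10 + k0) (v env) w0 = true := by
  have h : ∀ (w : List Bool) (env : Env), badA (k env * 10 + k0) (v env) w0 = true ↔
      (bad k0 w0 = true ∨ ((k env * 10 + k0 = 1 ∨ k env * 10 + k0 = 11) ∧
        ((v env = 1 ∧ w0 = 1) ∨ (v env = 0 ∧ w0 = 6)))) := by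
    intro w env
    have hb : bad (k env * 10 + k0) w0 = bad k0 w0 := bad_congr (by omega) w0
    unfold badA
    rw [hb]
    simp only [Bool.or_eq_true, Bool.and_eq_true, beq_iff_eq]
  refine IsTest.congr ?_ h
  have hk10 : IsExpr fun env : Env => k env * 10 := hk.mul (IsExpr.const 10)
  repeat' first
    | exact IsTest.const _
    | apply IsTest.and
    | apply IsTest.or
    | apply IsTest.eq
    | exact IsExpr.const _
    | assumption
    | apply IsExpr.add

end GData

end Pool.Agent.MC95
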