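import Pool.Agent.MC95.FNest
import Pool.Agent.MC95.FTest

/-!
# Writing the roots

PLAN. `isL_T1`, ..., `isL_T5`: `isL_term` with `ft`, `fe` read off the literals by `lit_kg`,
`lit_tk` (`t`, `t'`, `q1`, `q2`, `k0`, `w0` are constants; `litA` with `k = env 2 * 10 + k0`: all
conditions are comparisons of sums; `(t + 1) % 3` and `(t + 2) % 3` are constants). `isL_root`: `terms_flatMap`,
`IsL.flatMap_const` for the constant ranges (`3`, `6`, `10`), `IsL.loop'` with the variables `2`, `3`, `4`
(and `2` for the edges).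
-/

namespace Pool.Agent.MC95

open Pool.Agent.MEternal Pool.Agent.MEternal.Codes

/-- All level sets of a literal are tests. -/
private def IsOpt (f : List Bool → Env → Option Bool) : Prop :=
  ∀ b, IsTest fun w env => f w env = some b

private theorem IsOpt.const (o : Option Bool) : IsOpt fun _ _ => o := fun _ => IsTest.const _

private theorem IsOpt.ite {c : List Bool → Env → Prop} [∀ w env, Decidable (c w env)]
    {f g : List Bool → Env → Option Bool} (hc : IsTest c) (hf : IsOpt f) (hg : IsOpt g) :
    IsOpt fun w env => if c w env then f w env else g w env := by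
  intro b
  refine ((hc.and (hf b)).or (hc.not.and (hg b))).congr fun w env => ?_
  show (if c w env then f w env else g w env) = some b ↔ _
  by_cases h : c w env
  · rw [if_pos h]
    simp only [h, true_and, not_true_eq_false, false_and, or_false]
  · rw [if_neg h]
    simp only [h, false_and, not_false_eq_true, true_and, false_or]

namespace GData

variable {C : Type} [Finite C] {A : GData C}

/-- a term given by functions of the cell and of the edge -/
private theorem isL_gen {r : ℕ} (hr : r < 8) (w0 : ℕ)
    {v0 : List Bool → Env → Bool} {f : List Bool → Env → ℕ → ℕ → ℕ → Option Bool}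
    {h : List Bool → Env → ℕ → Option Bool}
    (hv0 : ∀ w env (j : Fin 14) v, 5 ≤ j → v0 w (Function.update env j v) = v0 w env)
    (hf0 : ∀ w env (j : Fin 14) v, 5 ≤ j → f w (Function.update env j v) = f w env)
    (hh0 : ∀ w env (j : Fin 14) v, 5 ≤ j → h w (Function.update env j v) = h w env)
    (hv : IsTest fun w env => v0 w env = true)
    (hf : ∀ t < 3, IsOpt fun w env => f w env t (env 5) (env 6))
    (hh : IsOpt fun w env => h w env (env 5)) :
    A.IsL r {5, 6, 7, 8} fun w env => termB (A.m (env 0)) (A.sg (env 0))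
      (21 + 4 * A.m (env 0) + 2 * w0) (v0 w env, (A.ng (env 0) w).lit (f w env) (h w env)) := by
  have h0 : ∀ (env : Env) (j : Fin 14) v, 5 ≤ j → Function.update env j v 0 = env 0 := by
    intro env j v hj
    refine Function.update_of_ne ?_ _ _
    rintro rfl
    exact absurd hj (by decide)
  have hρ : IsExpr fun env : Env => 21 + 4 * A.m (env 0) + 2 * w0 :=
    ((IsExpr.const 21).add ((IsExpr.const 4).mul A.isExpr_m)).add (IsExpr.const (2 * w0))
  refine isL_term (ρ := fun env => 21 + 4 * A.m (env 0) + 2 * w0)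
    (τ := fun w env => (v0 w env, (A.ng (env 0) w).lit (f w env) (h w env)))
    (ft := fun t b w env => f w env t (env 5) (env 6) = some b)
    (fe := fun b w env => h w env (env 5) = some b) hr hρ ?_ ?_ hv ?_ ?_ ?_ ?_
  · intro env j v hj
    simp only [h0 env j v hj]
  · intro w env j v hj
    simp only [h0 env j v hj, hv0 w env j v hj, hf0 w env j v hj, hh0 w env j v hj]
  · intro t ht b
    exact hf t ht b
  · intro t ht b w env hi hv'
    simp only [A.lit_kg ht hi hv']
  · intro b
    exact hh b
  · intro b w env _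
    simp only [A.lit_tk]

private theorem upd_ne {env : Env} {i j : Fin 14} {v : ℕ} (hj : 5 ≤ j) (hi : i < 5) :
    Function.update env j v i = env i :=
  Function.update_of_ne (ne_of_lt (lt_of_lt_of_le hi hj)) _ _

open Classical in
theorem isL_T1 {r : ℕ} (hr : r < 8) (w0 t : ℕ) (ht : t < 3) :
    A.IsL r {5, 6, 7, 8} fun w env => termB (A.m (env 0)) (A.sg (env 0))
      (21 + 4 * A.m (env 0) + 2 * w0) (A.T1 (env 0) w t (env 2) (env 3) (env 4)) := by
  unfold T1
  refine isL_gen hr w0
    (v0 := fun w env => (!(env 3 == env 4) || !(A.ng (env 0) w).dom (env 2) (env 3)))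
    (f := fun w env t' i' v' => if t' = t ∧ i' = env 2 ∧ (v' = env 3 ∨ v' = env 4) then some true
      else none) (h := fun _ _ _ => none) ?_ ?_ ?_ ?_ ?_ (IsOpt.const none)
  · intro w env j v hj
    simp only [upd_ne hj (show (0 : Fin 14) < 5 by decide), upd_ne hj (show (2 : Fin 14) < 5 by decide),
      upd_ne hj (show (3 : Fin 14) < 5 by decide), upd_ne hj (show (4 : Fin 14) < 5 by decide)]
  · intro w env j v hj
    simp only [upd_ne hj (show (2 : Fin 14) < 5 by decide),
      upd_ne hj (show (3 : Fin 14) < 5 by decide), upd_ne hj (show (4 : Fin 14) < 5 by decide)]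
  · intro w env j v hj
    rfl
  · refine ((IsTest.eq (IsExpr.var 3) (IsExpr.var 4)).not.or
      (A.isTest_domI (IsExpr.var 2) (IsExpr.var 3)).not).congr fun w env => ?_
    have hd : (A.ng (env 0) w).dom (env 2) (env 3) =
        decide (domI (A.P (env 0)) (A.D (env 0)) A.c (env 2) (env 3)) := rfl
    rw [hd]
    simp
  · intro t' _
    refine IsOpt.ite (((IsTest.const (t' = t)).and
      ((IsTest.eq (IsExpr.var 5) (IsExpr.var 2)).and
      ((IsTest.eq (IsExpr.var 6) (IsExpr.var 3)).or (IsTest.eq (IsExpr.var 6) (IsExpr.var 4))))))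
      (IsOpt.const _) (IsOpt.const _)

theorem isL_T2 {r : ℕ} (hr : r < 8) (w0 : ℕ) :
    A.IsL r {5, 6, 7, 8} fun w env => termB (A.m (env 0)) (A.sg (env 0))
      (21 + 4 * A.m (env 0) + 2 * w0) (A.T2 (env 0) w) := by
  unfold T2
  refine isL_gen hr w0 (v0 := fun w env => true)
    (f := fun w env _ i' _ => if i' + 1 = A.G (env 0) then some false else none)
    (h := fun _ _ _ => none) ?_ ?_ ?_ ?_ ?_ (IsOpt.const none)
  · intro w env j v hj
    rfl
  · intro w env j v hj
    simp only [upd_ne hj (show (0 : Fin 14) < 5 by decide)]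
  · intro w env j v hj
    rfl
  · exact (IsTest.const True).congr fun w env => by simp
  · intro t' _
    exact IsOpt.ite (IsTest.eq ((IsExpr.var 5).add (IsExpr.const 1)) A.isExpr_G)
      (IsOpt.const _) (IsOpt.const _)

theorem isL_T3 {r : ℕ} (hr : r < 8) (w0 t k0 : ℕ) (ht : t < 3) (hk : k0 < 10) :
    A.IsL r {5, 6, 7, 8} fun w env => termB (A.m (env 0)) (A.sg (env 0))
      (21 + 4 * A.m (env 0) + 2 * w0)
      (A.T3 (env 0) w w0 t (env 2 * 10 + k0) (env 3) (env 4)) := by
  unfold T3
  have hkE : IsExpr fun env : Env => env 2 * 10 + k0 :=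
    ((IsExpr.var 2).mul (IsExpr.const 10)).add (IsExpr.const k0)
  have hG := A.isExpr_G
  have h1 : ∀ i : Fin 14, IsExpr fun env : Env => env i + 1 :=
    fun i => (IsExpr.var i).add (IsExpr.const 1)
  have h5 : IsExpr fun env : Env => env 5 + A.G (env 0) := (IsExpr.var 5).add A.isExpr_G
  have h5' : IsExpr fun env : Env => env 5 + A.G (env 0) + 1 := h5.add (IsExpr.const 1)
  refine isL_gen hr w0 (v0 := fun w env => badA (env 2 * 10 + k0) (env 3) w0)
    (f := fun w env => (A.ng (env 0) w).litA t (env 2 * 10 + k0) (env 3) (env 4))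
    (h := fun _ _ _ => none) ?_ ?_ ?_ ?_ ?_ (IsOpt.const none)
  · intro w env j v hj
    simp only [upd_ne hj (show (2 : Fin 14) < 5 by decide), upd_ne hj (show (3 : Fin 14) < 5 by decide)]
  · intro w env j v hj
    simp only [upd_ne hj (show (0 : Fin 14) < 5 by decide), upd_ne hj (show (2 : Fin 14) < 5 by decide),
      upd_ne hj (show (3 : Fin 14) < 5 by decide), upd_ne hj (show (4 : Fin 14) < 5 by decide)]
  · intro w env j v hj
    rfl
  · exact isTest_badA k0 w0 hk (IsExpr.var 2) (IsExpr.var 3)
  · intro t' _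
    have hGe : ∀ (w : List Bool) (env : Env), (A.ng (env 0) w).G = A.G (env 0) := fun _ _ => rfl
    simp only [NG.litA, hGe]
    repeat' first
      | exact IsOpt.const _
      | apply IsOpt.ite
      | exact IsTest.const _
      | apply IsTest.and
      | apply IsTest.or
      | apply IsTest.eq
      | apply IsTest.lt
      | exact IsExpr.const _
      | exact IsExpr.var _
      | exact h5'
      | assumption
      | apply h1
      | apply IsExpr.add

open Classical in
theorem isL_T4 {r : ℕ} (hr : r < 8) (w0 t q1 q2 : ℕ) (ht : t < 3) :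
    A.IsL r {5, 6, 7, 8} fun w env => termB (A.m (env 0)) (A.sg (env 0))
      (21 + 4 * A.m (env 0) + 2 * w0)
      (A.T4 (env 0) w t q1 q2 (env 2) (env 3) (env 4)) := by
  unfold T4
  have hG := A.isExpr_G
  have h1 : ∀ i : Fin 14, IsExpr fun env : Env => env i + 1 :=
    fun i => (IsExpr.var i).add (IsExpr.const 1)
  refine isL_gen hr w0
    (v0 := fun w env => decide (vGQ (A.P (env 0)) (A.D (env 0)) A.c (q1, q2, env 2, env 3, env 4)))
    (f := fun w env => A.litC' (env 0) w t q1 q2 (env 2) (env 3) (env 4))
    (h := fun _ _ _ => none) ?_ ?_ ?_ ?_ ?_ (IsOpt.const none)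
  · intro w env j v hj
    simp only [upd_ne hj (show (0 : Fin 14) < 5 by decide), upd_ne hj (show (2 : Fin 14) < 5 by decide),
      upd_ne hj (show (3 : Fin 14) < 5 by decide), upd_ne hj (show (4 : Fin 14) < 5 by decide)]
  · intro w env j v hj
    simp only [upd_ne hj (show (0 : Fin 14) < 5 by decide), upd_ne hj (show (2 : Fin 14) < 5 by decide),
      upd_ne hj (show (3 : Fin 14) < 5 by decide), upd_ne hj (show (4 : Fin 14) < 5 by decide)]
  · intro w env j v hj
    rfl
  · refine (A.isTest_vGQ q1 q2 (IsExpr.var 2) (IsExpr.var 3) (IsExpr.var 4)).congr fun w env => ?_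
    exact decide_eq_true_iff
  · intro t' _
    unfold litC'
    refine IsOpt.ite (IsTest.const _) ?_ (IsOpt.ite (IsTest.const _) ?_ (IsOpt.const _))
    · refine IsOpt.ite ((IsTest.eq (h1 5) hG).and (IsTest.eq (IsExpr.var 6) (IsExpr.const 0)))
        (IsOpt.const _) (IsOpt.ite (IsTest.eq (IsExpr.var 5) (IsExpr.const 0)) ?_
        (IsOpt.ite (IsTest.eq (IsExpr.var 5) (IsExpr.const 10)) ?_ (IsOpt.ite ?_ (IsOpt.const _)
        (IsOpt.const _))))
      · exact IsOpt.ite ((IsTest.const _).and (IsTest.eq (IsExpr.var 6) (IsExpr.const q2)))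
          (IsOpt.const _) (IsOpt.const _)
      · exact IsOpt.ite (IsTest.eq (IsExpr.var 6) (IsExpr.const _)) (IsOpt.const _) (IsOpt.const _)
      · exact A.isTest_nxtI q1 q2 (IsExpr.var 2) (IsExpr.var 3) (IsExpr.var 4) (IsExpr.var 5)
          (IsExpr.var 6)
    · refine IsOpt.ite ((IsTest.eq (IsExpr.var 5) (IsExpr.const 1)).and
        (IsTest.eq (IsExpr.var 6) (IsExpr.const 0))) (IsOpt.const _) (IsOpt.ite ?_ (IsOpt.const _)
        (IsOpt.const _))
      exact A.isTest_curI q1 q2 (IsExpr.var 2) (IsExpr.var 3) (IsExpr.var 4) (IsExpr.var 5)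
          (IsExpr.var 6)

theorem isL_T5 {r : ℕ} (hr : r < 8) (w0 : ℕ) :
    A.IsL r {5, 6, 7, 8} fun w env => termB (A.m (env 0)) (A.sg (env 0))
      (21 + 4 * A.m (env 0) + 2 * w0) (A.T5 (env 0) w w0 (env 2)) := by
  unfold T5
  refine isL_gen hr w0
    (v0 := fun w env => (!(env 2 == lstop 0) && !(env 2 == lstop 1) && !(env 2 == lstop 2)))
    (f := fun _ _ _ _ _ => none)
    (h := fun _ env e' => if e' = env 2 then some (!decide (env 2 < lstop (w0 % 4))) else none)
    ?_ ?_ ?_ ?_ (fun _ _ => IsOpt.const none) ?_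
  · intro w env j v hj
    simp only [upd_ne hj (show (2 : Fin 14) < 5 by decide)]
  · intro w env j v hj
    rfl
  · intro w env j v hj
    simp only [upd_ne hj (show (2 : Fin 14) < 5 by decide)]
  · refine (((IsTest.eq (IsExpr.var 2) (IsExpr.const (lstop 0))).not.and
      (IsTest.eq (IsExpr.var 2) (IsExpr.const (lstop 1))).not).and
      (IsTest.eq (IsExpr.var 2) (IsExpr.const (lstop 2))).not).congr fun w env => ?_
    simp only [Bool.and_eq_true, Bool.not_eq_true', beq_eq_false_iff_ne, ne_eq]
  · refine IsOpt.ite (IsTest.eq (IsExpr.var 5) (IsExpr.var 2)) ?_ (IsOpt.const _)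
    intro b
    have hlt : IsTest fun (_ : List Bool) (env : Env) => env 2 < lstop (w0 % 4) :=
      IsTest.lt (IsExpr.var 2) (IsExpr.const _)
    cases b with
    | true =>
      refine hlt.not.congr fun w env => ?_
      simp
    | false =>
      refine hlt.congr fun w env => ?_
      simp

private theorem u_ne {env : Env} {i j : Fin 14} {v : ℕ} (h : i ≠ j) :
    Function.update env j v i = env i := Function.update_of_ne h _ _

theorem isL_root {r : ℕ} (hr : r < 8) (w0 : ℕ) :
    A.IsL r {2, 3, 4, 5, 6, 7, 8} fun w env => rootB (A.m (env 0)) (A.sg (env 0)) w0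
      ((A.ng (env 0) w).terms lLc lstop w0) := by
  have hm := A.isExpr_m
  have e4m : IsExpr fun env : Env => 4 * A.m (env 0) := (IsExpr.const 4).mul hm
  have hρ : IsExpr fun env : Env => 21 + 4 * A.m (env 0) + 2 * w0 :=
    ((IsExpr.const 21).add e4m).add (IsExpr.const (2 * w0))
  have hρ1 : IsExpr fun env : Env => 22 + 4 * A.m (env 0) + 2 * w0 :=
    ((IsExpr.const 22).add e4m).add (IsExpr.const (2 * w0))
  have hρ2 : IsExpr fun env : Env => 23 + 4 * A.m (env 0) + 2 * w0 :=
    ((IsExpr.const 23).add e4m).add (IsExpr.const (2 * w0))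
  have h0 : ∀ (env : Env) (j : Fin 14) v, 7 ≤ j → Function.update env j v 0 = env 0 := by
    intro env j v hj
    refine Function.update_of_ne ?_ _ _
    rintro rfl
    exact absurd hj (by decide)
  have hs1 : A.IsL r {2, 3, 4, 5, 6, 7, 8} fun _ env =>
      send (A.sg (env 0)) (21 + 4 * A.m (env 0) + 2 * w0) (20 - 4 * (w0 % 4)) :=
    (IsL.send hr hρ (IsExpr.const _) (fun env j v hj => by simp only [h0 env j v hj])
      fun _ _ _ _ => rfl).mono (by decide)
  have hs2 : A.IsL r {2, 3, 4, 5, 6, 7, 8} fun _ env =>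
      send (A.sg (env 0)) (23 + 4 * A.m (env 0) + 2 * w0) 4 :=
    (IsL.send hr hρ2 (IsExpr.const _) (fun env j v hj => by simp only [h0 env j v hj])
      fun _ _ _ _ => rfl).mono (by decide)
  -- terms D
  have H1 : A.IsL r {2, 3, 4, 5, 6, 7, 8} fun w env => (List.range 3).flatMap fun t =>
      (List.range (A.G (env 0))).flatMap fun i => (List.range (A.V (env 0))).flatMap fun v =>
        (List.range (A.V (env 0))).flatMap fun u => termB (A.m (env 0)) (A.sg (env 0))
          (21 + 4 * A.m (env 0) + 2 * w0) (A.T1 (env 0) w t i v u) := by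
    refine IsL.flatMap_const (List.range 3) (f := fun t w env =>
      (List.range (A.G (env 0))).flatMap fun i => (List.range (A.V (env 0))).flatMap fun v =>
        (List.range (A.V (env 0))).flatMap fun u => termB (A.m (env 0)) (A.sg (env 0))
          (21 + 4 * A.m (env 0) + 2 * w0) (A.T1 (env 0) w t i v u)) fun t ht => ?_
    have l4 := IsL.loop' (A := A) (r := r) (i := 4) (S := {5, 6, 7, 8}) (by decide) (by decide)
      (by decide) A.isExpr_V (fun env => A.V_le (env 0)) (f := fun w env u =>
        termB (A.m (env 0)) (A.sg (env 0)) (21 + 4 * A.m (env 0) + 2 * w0)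
          (A.T1 (env 0) w t (env 2) (env 3) u)) (fun w env v v' => by
        simp only [u_ne (show (0 : Fin 14) ≠ 4 by decide), u_ne (show (2 : Fin 14) ≠ 4 by decide),
          u_ne (show (3 : Fin 14) ≠ 4 by decide)]) (isL_T1 hr w0 t (List.mem_range.1 ht))
    have l3 := IsL.loop' (A := A) (r := r) (i := 3) (by decide) (by decide)
      (by decide) A.isExpr_V (fun env => A.V_le (env 0)) (f := fun w env v =>
        (List.range (A.V (env 0))).flatMap fun u =>
        termB (A.m (env 0)) (A.sg (env 0)) (21 + 4 * A.m (env 0) + 2 * w0)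
          (A.T1 (env 0) w t (env 2) v u)) (fun w env v v' => by
        simp only [u_ne (show (0 : Fin 14) ≠ 3 by decide), u_ne (show (2 : Fin 14) ≠ 3 by decide)])
        l4
    have l2 := IsL.loop' (A := A) (r := r) (i := 2) (by decide) (by decide)
      (by decide) A.isExpr_G (fun env => by have := A.G_le (env 0); omega) (f := fun w env i =>
        (List.range (A.V (env 0))).flatMap fun v => (List.range (A.V (env 0))).flatMap fun u =>
        termB (A.m (env 0)) (A.sg (env 0)) (21 + 4 * A.m (env 0) + 2 * w0)
          (A.T1 (env 0) w t i v u)) (fun w env v v' => by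
        simp only [u_ne (show (0 : Fin 14) ≠ 2 by decide)]) l3
    exact l2
  have H2 : A.IsL r {2, 3, 4, 5, 6, 7, 8} fun w env => termB (A.m (env 0)) (A.sg (env 0))
      (21 + 4 * A.m (env 0) + 2 * w0) (A.T2 (env 0) w) := (isL_T2 hr w0).mono (by decide)
  have H3 : A.IsL r {2, 3, 4, 5, 6, 7, 8} fun w env => (List.range 3).flatMap fun t =>
      (List.range (2 * (A.P (env 0) + 3))).flatMap fun k => (List.range 10).flatMap fun k0 =>
        (List.range (A.V (env 0))).flatMap fun v => (List.range (A.V (env 0))).flatMap fun u =>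
          termB (A.m (env 0)) (A.sg (env 0)) (21 + 4 * A.m (env 0) + 2 * w0)
            (A.T3 (env 0) w w0 t (k * 10 + k0) v u) := by
    refine IsL.flatMap_const (List.range 3) (f := fun t w env =>
      (List.range (2 * (A.P (env 0) + 3))).flatMap fun k => (List.range 10).flatMap fun k0 =>
        (List.range (A.V (env 0))).flatMap fun v => (List.range (A.V (env 0))).flatMap fun u =>
          termB (A.m (env 0)) (A.sg (env 0)) (21 + 4 * A.m (env 0) + 2 * w0)
            (A.T3 (env 0) w w0 t (k * 10 + k0) v u)) fun t ht => ?_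
    have hb : IsExpr fun env : Env => 2 * (A.P (env 0) + 3) :=
      (IsExpr.const 2).mul (A.hP.add (IsExpr.const 3))
    have l2 := IsL.loop' (A := A) (r := r) (i := 2) (S := {3, 4, 5, 6, 7, 8}) (by decide)
      (by decide) (by decide) hb (fun env => by
        have h1 := A.G_le (env 0)
        have h2 : A.G (env 0) = 10 * (A.P (env 0) + 3) := rfl
        omega) (f := fun w env k => (List.range 10).flatMap fun k0 =>
        (List.range (A.V (env 0))).flatMap fun v => (List.range (A.V (env 0))).flatMap fun u =>
          termB (A.m (env 0)) (A.sg (env 0)) (21 + 4 * A.m (env 0) + 2 * w0)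
            (A.T3 (env 0) w w0 t (k * 10 + k0) v u)) (fun w env v v' => by
        simp only [u_ne (show (0 : Fin 14) ≠ 2 by decide)]) (by
        refine IsL.flatMap_const (List.range 10) (f := fun k0 w env =>
          (List.range (A.V (env 0))).flatMap fun v => (List.range (A.V (env 0))).flatMap fun u =>
          termB (A.m (env 0)) (A.sg (env 0)) (21 + 4 * A.m (env 0) + 2 * w0)
            (A.T3 (env 0) w w0 t (env 2 * 10 + k0) v u)) fun k0 hk0 => ?_
        have l4 := IsL.loop' (A := A) (r := r) (i := 4) (S := {5, 6, 7, 8}) (by decide)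
          (by decide) (by decide) A.isExpr_V (fun env => A.V_le (env 0)) (f := fun w env u =>
          termB (A.m (env 0)) (A.sg (env 0)) (21 + 4 * A.m (env 0) + 2 * w0)
            (A.T3 (env 0) w w0 t (env 2 * 10 + k0) (env 3) u)) (fun w env v v' => by
          simp only [u_ne (show (0 : Fin 14) ≠ 4 by decide),
            u_ne (show (2 : Fin 14) ≠ 4 by decide), u_ne (show (3 : Fin 14) ≠ 4 by decide)])
          (isL_T3 hr w0 t k0 (List.mem_range.1 ht) (List.mem_range.1 hk0))
        have l3 := IsL.loop' (A := A) (r := r) (i := 3) (by decide) (by decide)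
          (by decide) A.isExpr_V (fun env => A.V_le (env 0)) (f := fun w env v =>
          (List.range (A.V (env 0))).flatMap fun u =>
          termB (A.m (env 0)) (A.sg (env 0)) (21 + 4 * A.m (env 0) + 2 * w0)
            (A.T3 (env 0) w w0 t (env 2 * 10 + k0) v u)) (fun w env v v' => by
          simp only [u_ne (show (0 : Fin 14) ≠ 3 by decide),
            u_ne (show (2 : Fin 14) ≠ 3 by decide)]) l4
        exact l3)
    exact l2
  have H4 : A.IsL r {2, 3, 4, 5, 6, 7, 8} fun w env => (List.range 3).flatMap fun t =>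
      (List.range 6).flatMap fun q1 => (List.range 3).flatMap fun q2 =>
        (List.range (A.V (env 0))).flatMap fun q3 => (List.range (A.V (env 0))).flatMap fun q4 =>
          (List.range (A.V (env 0))).flatMap fun q5 =>
          termB (A.m (env 0)) (A.sg (env 0)) (21 + 4 * A.m (env 0) + 2 * w0)
            (A.T4 (env 0) w t q1 q2 q3 q4 q5) := by
    refine IsL.flatMap_const (List.range 3) (f := fun t w env =>
      (List.range 6).flatMap fun q1 => (List.range 3).flatMap fun q2 =>
        (List.range (A.V (env 0))).flatMap fun q3 => (List.range (A.V (env 0))).flatMap fun q4 =>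
          (List.range (A.V (env 0))).flatMap fun q5 =>
          termB (A.m (env 0)) (A.sg (env 0)) (21 + 4 * A.m (env 0) + 2 * w0)
            (A.T4 (env 0) w t q1 q2 q3 q4 q5)) fun t ht => ?_
    refine IsL.flatMap_const (List.range 6) (f := fun q1 w env =>
      (List.range 3).flatMap fun q2 =>
        (List.range (A.V (env 0))).flatMap fun q3 => (List.range (A.V (env 0))).flatMap fun q4 =>
          (List.range (A.V (env 0))).flatMap fun q5 =>
          termB (A.m (env 0)) (A.sg (env 0)) (21 + 4 * A.m (env 0) + 2 * w0)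
            (A.T4 (env 0) w t q1 q2 q3 q4 q5)) fun q1 _ => ?_
    refine IsL.flatMap_const (List.range 3) (f := fun q2 w env =>
        (List.range (A.V (env 0))).flatMap fun q3 => (List.range (A.V (env 0))).flatMap fun q4 =>
          (List.range (A.V (env 0))).flatMap fun q5 =>
          termB (A.m (env 0)) (A.sg (env 0)) (21 + 4 * A.m (env 0) + 2 * w0)
            (A.T4 (env 0) w t q1 q2 q3 q4 q5)) fun q2 _ => ?_
    have l4 := IsL.loop' (A := A) (r := r) (i := 4) (S := {5, 6, 7, 8}) (by decide) (by decide)
      (by decide) A.isExpr_V (fun env => A.V_le (env 0)) (f := fun w env u =>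
        termB (A.m (env 0)) (A.sg (env 0)) (21 + 4 * A.m (env 0) + 2 * w0)
          (A.T4 (env 0) w t q1 q2 (env 2) (env 3) u)) (fun w env v v' => by
        simp only [u_ne (show (0 : Fin 14) ≠ 4 by decide), u_ne (show (2 : Fin 14) ≠ 4 by decide),
          u_ne (show (3 : Fin 14) ≠ 4 by decide)]) (isL_T4 hr w0 t q1 q2 (List.mem_range.1 ht))
    have l3 := IsL.loop' (A := A) (r := r) (i := 3) (by decide) (by decide)
      (by decide) A.isExpr_V (fun env => A.V_le (env 0)) (f := fun w env v =>
        (List.range (A.V (env 0))).flatMap fun u =>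
        termB (A.m (env 0)) (A.sg (env 0)) (21 + 4 * A.m (env 0) + 2 * w0)
          (A.T4 (env 0) w t q1 q2 (env 2) v u)) (fun w env v v' => by
        simp only [u_ne (show (0 : Fin 14) ≠ 3 by decide), u_ne (show (2 : Fin 14) ≠ 3 by decide)])
        l4
    have l2 := IsL.loop' (A := A) (r := r) (i := 2) (by decide) (by decide)
      (by decide) A.isExpr_V (fun env => A.V_le (env 0)) (f := fun w env i =>
        (List.range (A.V (env 0))).flatMap fun v => (List.range (A.V (env 0))).flatMap fun u =>
        termB (A.m (env 0)) (A.sg (env 0)) (21 + 4 * A.m (env 0) + 2 * w0)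
          (A.T4 (env 0) w t q1 q2 i v u)) (fun w env v v' => by
        simp only [u_ne (show (0 : Fin 14) ≠ 2 by decide)]) l3
    exact l2
  have H5 : A.IsL r {2, 3, 4, 5, 6, 7, 8} fun w env => (List.range lLc).flatMap fun e =>
      termB (A.m (env 0)) (A.sg (env 0)) (21 + 4 * A.m (env 0) + 2 * w0)
        (A.T5 (env 0) w w0 e) := by
    have l2 := IsL.loop' (A := A) (r := r) (i := 2) (S := {5, 6, 7, 8}) (by decide) (by decide)
      (by decide) (IsExpr.const lLc) (fun env => A.lLc_le (env 0)) (f := fun w env e =>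
        termB (A.m (env 0)) (A.sg (env 0)) (21 + 4 * A.m (env 0) + 2 * w0)
          (A.T5 (env 0) w w0 e)) (fun w env v v' => by
        simp only [u_ne (show (0 : Fin 14) ≠ 2 by decide)]) (isL_T5 hr w0)
    exact l2.mono (by decide)
  have HT : A.IsL r {2, 3, 4, 5, 6, 7, 8} fun w env =>
      ((A.ng (env 0) w).terms lLc lstop w0).flatMap (termB (A.m (env 0)) (A.sg (env 0))
        (21 + 4 * A.m (env 0) + 2 * w0)) := by
    refine (H1.append (H2.append (H3.append (H4.append H5)))).congr fun w env => ?_
    exact A.terms_flatMap (env 0) w w0 _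
  exact IsL.tl hr _ 2 hρ1 (IsL.tl hr _ 2 hρ (hs1.append (HT.append hs2)))

end GData

end Pool.Agent.MC95
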