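import Pool.Agent.MC95.FLay

/-!
# Writing terms

PLAN. `flatMap_kings`: `List.range (3 * G * V + L)` in mixed radix. `isL_lits`: by `flatMap_kings` the
literals are a loop over the constants `t < 3`, a loop with variable `5` over `i < G`, a loop with
variable `6` over `v < V`, and then a loop with variable `5` over `e < lLc`; the body is
`if ft t true then ... else if ft t false then ... else ...` with the lists of `litB`; the two
agree within the bounds (`List.flatMap_congr`). Tracks: `22 + 4 * k` with
`k = (t * G + i) * V + v` or `3 * G * V + e`.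
-/

namespace Pool.Agent.MC95

open Pool.Agent.MEternal Pool.Agent.MEternal.Codes

private theorem range_add_flatMap_aux {α : Type*} (a b : ℕ) (f : ℕ → List α) :
    (List.range (a + b)).flatMap f =
      (List.range a).flatMap f ++ (List.range b).flatMap fun j => f (a + j) := by
  rw [List.range_add, List.flatMap_append, List.flatMap_map]

theorem range_mul_flatMap {α : Type*} (a b : ℕ) (f : ℕ → List α) :
    (List.range (a * b)).flatMap f =
      (List.range a).flatMap fun i => (List.range b).flatMap fun j => f (i * b + j) := by
  induction a with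
  | zero => simp
  | succ a ih =>
    rw [Nat.succ_mul, range_add_flatMap_aux, ih, List.range_succ, List.flatMap_append]
    simp

theorem range_add_flatMap {α : Type*} (a b : ℕ) (f : ℕ → List α) :
    (List.range (a + b)).flatMap f =
      (List.range a).flatMap f ++ (List.range b).flatMap fun j => f (a + j) :=
  range_add_flatMap_aux a b f

theorem flatMap_kings {α : Type*} (G V L : ℕ) (f : ℕ → List α) :
    (List.range (3 * G * V + L)).flatMap f =
      ((List.range 3).flatMap fun t => (List.range G).flatMap fun i =>
        (List.range V).flatMap fun v => f ((t * G + i) * V + v)) ++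
      (List.range L).flatMap fun e => f (3 * G * V + e) := by
  rw [range_add_flatMap, range_mul_flatMap (3 * G) V f,
    range_mul_flatMap 3 G (fun i => (List.range V).flatMap fun j => f (i * V + j))]

namespace GData

variable {C : Type} {A : GData C}

private theorem flatMap_congr' {α β : Type*} {l : List α} {f g : α → List β}
    (h : ∀ a ∈ l, f a = g a) : l.flatMap f = l.flatMap g := by
  induction l with
  | nil => rfl
  | cons a l ih =>
    rw [List.flatMap_cons, List.flatMap_cons, h a List.mem_cons_self,
      ih fun b hb => h b (List.mem_cons_of_mem _ hb)]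

private theorem IsL.loopU {r : ℕ} {S : Finset (Fin 14)} {i : Fin 14} (hi : i ≠ 0) (hi1 : i ≠ 1)
    (hiS : i ∉ S) {b : Env → ℕ} (hb : IsExpr b) (hM : ∀ env, b env ≤ A.N (env 0))
    {g : List Bool → Env → List Op} (h : A.IsL r S g) :
    A.IsL r (insert i S) fun w env =>
      (List.range (b env)).flatMap fun v => g w (Function.update env i v) := by
  refine IsL.loop' hi hi1 hiS hb hM (f := fun w env v => g w (Function.update env i v)) ?_ ?_
  · intro w env v v'
    simp only [Function.update_idem]
  · exact h.congr fun w env => by simp only [Function.update_eq_self]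

open Classical in
private theorem isL_body {r : ℕ} (hr : r < 8) {ρ : Env → ℕ} (hρ : IsExpr ρ)
    (hρ' : ∀ env (j : Fin 14) v, 5 ≤ j → ρ (Function.update env j v) = ρ env)
    {κ : Env → ℕ} (hκ : IsExpr κ)
    (hκ' : ∀ env (j : Fin 14) v, 7 ≤ j → κ (Function.update env j v) = κ env)
    {f : Bool → List Bool → Env → Prop} (hf : ∀ b, IsTest (f b)) :
    A.IsL r {7, 8} fun w env =>
      if f true w env then tl 2 .BF (ρ env) :: send (A.sg (env 0)) (ρ env) (22 + 4 * κ env)
      else if f false w env then
        tl 2 .BF (ρ env) :: send (A.sg (env 0)) (ρ env) (24 + 4 * κ env)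
      else tl 2 .blank 0 :: send (A.sg (env 0)) 0 0 := by
  have hρ7 : ∀ env (j : Fin 14) v, 7 ≤ j → ρ (Function.update env j v) = ρ env :=
    fun env j v hj => hρ' env j v (le_trans (by decide) hj)
  refine IsL.ite (hf true) (IsL.tl hr _ 2 hρ ?_)
    (IsL.ite (hf false) (IsL.tl hr _ 2 hρ ?_) (IsL.tl hr _ 2 (IsExpr.const 0) ?_))
  · exact IsL.send hr hρ ((IsExpr.const 22).add ((IsExpr.const 4).mul hκ)) hρ7
      fun env j v hj => by simp only [hκ' env j v hj]
  · exact IsL.send hr hρ ((IsExpr.const 24).add ((IsExpr.const 4).mul hκ)) hρ7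
      fun env j v hj => by simp only [hκ' env j v hj]
  · exact IsL.send hr (IsExpr.const 0) (IsExpr.const 0) (fun _ _ _ _ => rfl) fun _ _ _ _ => rfl

open Classical in
private theorem litB_eq (S ρ k : ℕ) (τ : Option Bool) (P Q : Prop) (hP : P ↔ τ = some true)
    (hQ : Q ↔ τ = some false) :
    litB S ρ k τ = if P then tl 2 .BF ρ :: send S ρ (22 + 4 * k)
      else if Q then tl 2 .BF ρ :: send S ρ (24 + 4 * k)
      else tl 2 .blank 0 :: send S 0 0 := by
  rcases τ with _ | _ | _
  · have h1 : ¬ P := fun h => by simpa using hP.1 h
    have h2 : ¬ Q := fun h => by simpa using hQ.1 h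
    simp only [h1, h2, if_false]
    rfl
  · have h1 : ¬ P := fun h => by simpa using hP.1 h
    have h2 : Q := hQ.2 rfl
    simp only [h1, h2, if_false, if_true]
    rfl
  · have h1 : P := hP.2 rfl
    simp only [h1, if_true]
    rfl

theorem isL_lits {r : ℕ} (hr : r < 8) {ρ : Env → ℕ} (hρ : IsExpr ρ)
    (hρ' : ∀ env (j : Fin 14) v, 5 ≤ j → ρ (Function.update env j v) = ρ env)
    {τ : List Bool → Env → ℕ → Option Bool}
    (hτ : ∀ w env (j : Fin 14) v, 5 ≤ j → τ w (Function.update env j v) = τ w env)
    {ft : ℕ → Bool → List Bool → Env → Prop} (hft : ∀ t < 3, ∀ b, IsTest (ft t b))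
    (hft' : ∀ t < 3, ∀ b w env, env 5 < A.G (env 0) → env 6 < A.V (env 0) →
      (ft t b w env ↔ τ w env ((t * A.G (env 0) + env 5) * A.V (env 0) + env 6) = some b))
    {fe : Bool → List Bool → Env → Prop} (hfe : ∀ b, IsTest (fe b))
    (hfe' : ∀ b w env, env 5 < lLc →
      (fe b w env ↔ τ w env (3 * A.G (env 0) * A.V (env 0) + env 5) = some b)) :
    A.IsL r {5, 6, 7, 8} fun w env => (List.range (A.m (env 0))).flatMap fun k =>
      litB (A.sg (env 0)) (ρ env) k (τ w env k) := by
  classical
  have h1 : ∀ t ∈ List.range 3, A.IsL r {5, 6, 7, 8} fun w env =>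
      (List.range (A.G (env 0))).flatMap fun i =>
        (List.range (A.V ((Function.update env 5 i) 0))).flatMap fun v =>
          (fun (w : List Bool) (env : Env) =>
            if ft t true w env then
              tl 2 .BF (ρ env) :: send (A.sg (env 0)) (ρ env)
                (22 + 4 * ((t * A.G (env 0) + env 5) * A.V (env 0) + env 6))
            else if ft t false w env then
              tl 2 .BF (ρ env) :: send (A.sg (env 0)) (ρ env)
                (24 + 4 * ((t * A.G (env 0) + env 5) * A.V (env 0) + env 6))
            else tl 2 .blank 0 :: send (A.sg (env 0)) 0 0) w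
              (Function.update (Function.update env 5 i) 6 v) := by
    intro t ht
    have ht3 : t < 3 := List.mem_range.1 ht
    have hb := isL_body (A := A) hr hρ hρ'
      (κ := fun env => (t * A.G (env 0) + env 5) * A.V (env 0) + env 6)
      ((((IsExpr.const t).mul A.isExpr_G).add (IsExpr.var 5)).mul A.isExpr_V |>.add
        (IsExpr.var 6))
      (fun env j v hj => by
        have e0 : (0 : Fin 14) ≠ j := by
          rintro rfl; revert hj; decide
        have e5 : (5 : Fin 14) ≠ j := by
          rintro rfl; revert hj; decide
        have e6 : (6 : Fin 14) ≠ j := by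
          rintro rfl; revert hj; decide
        simp only [Function.update_of_ne e0, Function.update_of_ne e5,
          Function.update_of_ne e6])
      (hft t ht3)
    have h6 := IsL.loopU (i := 6) (by decide) (by decide) (by decide) A.isExpr_V
      (fun env => A.V_le (env 0)) hb
    have h5 := IsL.loopU (i := 5) (by decide) (by decide) (by decide) A.isExpr_G
      (fun env => by have := A.G_le (env 0); omega) h6
    exact h5
  have h2 : A.IsL r {5, 6, 7, 8} fun w env =>
      (List.range lLc).flatMap fun e =>
          (fun (w : List Bool) (env : Env) =>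
            if fe true w env then
              tl 2 .BF (ρ env) :: send (A.sg (env 0)) (ρ env)
                (22 + 4 * (3 * A.G (env 0) * A.V (env 0) + env 5))
            else if fe false w env then
              tl 2 .BF (ρ env) :: send (A.sg (env 0)) (ρ env)
                (24 + 4 * (3 * A.G (env 0) * A.V (env 0) + env 5))
            else tl 2 .blank 0 :: send (A.sg (env 0)) 0 0) w (Function.update env 5 e) := by
    have hb := isL_body (A := A) hr hρ hρ'
      (κ := fun env => 3 * A.G (env 0) * A.V (env 0) + env 5)
      ((((IsExpr.const 3).mul A.isExpr_G).mul A.isExpr_V).add (IsExpr.var 5))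
      (fun env j v hj => by
        have e0 : (0 : Fin 14) ≠ j := by
          rintro rfl; revert hj; decide
        have e5 : (5 : Fin 14) ≠ j := by
          rintro rfl; revert hj; decide
        simp only [Function.update_of_ne e0, Function.update_of_ne e5])
      hfe
    have h5 := IsL.loopU (i := 5) (by decide) (by decide) (by decide)
      (b := fun _ => lLc) (IsExpr.const lLc) (fun env => A.lLc_le (env 0)) hb
    exact h5.mono (by decide)
  refine ((IsL.flatMap_const (List.range 3) h1).append h2).congr fun w env => ?_
  have hm : A.m (env 0) = 3 * A.G (env 0) * A.V (env 0) + lLc := rfl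
  rw [hm, flatMap_kings]
  refine congrArg₂ (· ++ ·) ?_ ?_
  · refine flatMap_congr' fun t ht => flatMap_congr' fun i hi => ?_
    have e05 : (Function.update env 5 i) 0 = env 0 :=
      Function.update_of_ne (by decide) _ _
    rw [e05]
    refine flatMap_congr' fun v hv => ?_
    have ht3 : t < 3 := List.mem_range.1 ht
    have hi' : i < A.G (env 0) := List.mem_range.1 hi
    have hv' : v < A.V (env 0) := List.mem_range.1 hv
    have e0 : (Function.update (Function.update env 5 i) 6 v) 0 = env 0 := by
      rw [Function.update_of_ne (by decide), Function.update_of_ne (by decide)]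
    have e5 : (Function.update (Function.update env 5 i) 6 v) 5 = i := by
      rw [Function.update_of_ne (by decide), Function.update_self]
    have e6 : (Function.update (Function.update env 5 i) 6 v) 6 = v :=
      Function.update_self _ _ _
    have eρ : ρ (Function.update (Function.update env 5 i) 6 v) = ρ env := by
      rw [hρ' _ 6 v (by decide), hρ' _ 5 i (by decide)]
    have eτ : τ w (Function.update (Function.update env 5 i) 6 v) = τ w env := by
      rw [hτ w _ 6 v (by decide), hτ w _ 5 i (by decide)]
    have key : ∀ b, ft t b w (Function.update (Function.update env 5 i) 6 v) ↔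
        τ w env ((t * A.G (env 0) + i) * A.V (env 0) + v) = some b := by
      intro b
      have := hft' t ht3 b w (Function.update (Function.update env 5 i) 6 v)
        (by rw [e0, e5]; exact hi') (by rw [e0, e6]; exact hv')
      rw [e0, e5, e6, eτ] at this
      exact this
    rw [litB_eq _ _ _ _ _ _ (key true) (key false)]
    simp only [e0, e5, e6, eρ]
  · refine flatMap_congr' fun e he => ?_
    have he' : e < lLc := List.mem_range.1 he
    have e0 : (Function.update env 5 e) 0 = env 0 := Function.update_of_ne (by decide) _ _
    have e5 : (Function.update env 5 e) 5 = e := Function.update_self _ _ _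
    have eρ : ρ (Function.update env 5 e) = ρ env := hρ' _ 5 e (by decide)
    have eτ : τ w (Function.update env 5 e) = τ w env := hτ w _ 5 e (by decide)
    have key : ∀ b, fe b w (Function.update env 5 e) ↔
        τ w env (3 * A.G (env 0) * A.V (env 0) + e) = some b := by
      intro b
      have := hfe' b w (Function.update env 5 e) (by rw [e5]; exact he')
      rw [e0, e5, eτ] at this
      exact this
    rw [litB_eq _ _ _ _ _ _ (key true) (key false)]
    simp only [e0, e5, eρ]

theorem isL_term {r : ℕ} (hr : r < 8) {ρ : Env → ℕ} (hρ : IsExpr ρ)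
    (hρ' : ∀ env (j : Fin 14) v, 5 ≤ j → ρ (Function.update env j v) = ρ env)
    {τ : List Bool → Env → Bool × (ℕ → Option Bool)}
    (hτ : ∀ w env (j : Fin 14) v, 5 ≤ j → τ w (Function.update env j v) = τ w env)
    (hv : IsTest fun w env => (τ w env).1 = true)
    {ft : ℕ → Bool → List Bool → Env → Prop} (hft : ∀ t < 3, ∀ b, IsTest (ft t b))
    (hft' : ∀ t < 3, ∀ b w env, env 5 < A.G (env 0) → env 6 < A.V (env 0) →
      (ft t b w env ↔ (τ w env).2 ((t * A.G (env 0) + env 5) * A.V (env 0) + env 6) = some b))
    {fe : Bool → List Bool → Env → Prop} (hfe : ∀ b, IsTest (fe b))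
    (hfe' : ∀ b w env, env 5 < lLc →
      (fe b w env ↔ (τ w env).2 (3 * A.G (env 0) * A.V (env 0) + env 5) = some b)) :
    A.IsL r {5, 6, 7, 8} fun w env => termB (A.m (env 0)) (A.sg (env 0)) (ρ env) (τ w env) := by
  have hρ7 : ∀ env (j : Fin 14) v, 7 ≤ j → ρ (Function.update env j v) = ρ env :=
    fun env j v hj => hρ' env j v (le_trans (by decide) hj)
  have hs0 : A.IsL r {5, 6, 7, 8} fun _ env => send (A.sg (env 0)) 0 0 :=
    (IsL.send hr (IsExpr.const 0) (IsExpr.const 0) (fun _ _ _ _ => rfl)
      fun _ _ _ _ => rfl).mono (by decide)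
  have hs18 : A.IsL r {5, 6, 7, 8} fun _ env => send (A.sg (env 0)) (ρ env) 18 :=
    (IsL.send hr hρ (IsExpr.const 18) hρ7 fun _ _ _ _ => rfl).mono (by decide)
  have h1 : A.IsL r {5, 6, 7, 8} fun w env => tl 2 .WF (ρ env + 1) ::
      ((List.range (A.m (env 0))).flatMap (fun k =>
        litB (A.sg (env 0)) (ρ env) k ((τ w env).2 k)) ++
      (tl 2 .M (ρ env) :: send (A.sg (env 0)) (ρ env) 18)) := by
    refine IsL.tl hr _ 2 (hρ.add (IsExpr.const 1)) (IsL.append ?_ (IsL.tl hr _ 2 hρ hs18))
    exact isL_lits hr hρ hρ' (τ := fun w env => (τ w env).2)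
      (fun w env j v hj => by simp only [hτ w env j v hj]) hft hft' hfe hfe'
  have h2 : A.IsL r {5, 6, 7, 8} fun _ env => tl 2 .blank 0 ::
      ((List.range (A.m (env 0))).flatMap (fun k => litB (A.sg (env 0)) (ρ env) k none) ++
      (tl 2 .blank 0 :: send (A.sg (env 0)) 0 0)) := by
    refine IsL.tl hr _ 2 (IsExpr.const 0) (IsL.append ?_ (IsL.tl hr _ 2 (IsExpr.const 0) hs0))
    exact isL_lits hr hρ hρ' (τ := fun _ _ _ => none) (fun _ _ _ _ _ => rfl)
      (ft := fun _ _ _ _ => False) (fun _ _ _ => IsTest.const False)
      (fun _ _ _ _ _ _ _ => by simp) (fe := fun _ _ _ => False)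
      (fun _ => IsTest.const False) (fun _ _ _ _ => by simp)
  refine (IsL.ite hv h1 h2).congr fun w env => ?_
  rfl

end GData

end Pool.Agent.MC95
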