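import Pool.Agent.MC95.FOut
import Pool.Agent.MC95.FCell

/-!
# Writing a tile

PLAN. `kind`, `reg`, `cor`, `r` and the column `x` are constants, so `tileRow` is a fixed
concatenation (`IsOut.flatMap_const`), `(x + (8 * env 1 + r)) % 2 = (x + r) % 2`, and `kcell`
is a nested conditional whose conditions are tests (`IsOut.ite`, `IsTest.and`, `IsTest.le`,
`IsTest.eq`, ...; conditions on constants by `IsTest.const` or `split_ifs`). In
`bgc reg x (8 * z + r)`, `(8 * z + r + 4) % 8 = (r + 4) % 8` is a constant. In the special part of the tile the content is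
`st.get x (y - (12 + 8 * trk))` with `-3 ≤ y - (12 + 8 * trk) ≤ 28`: use `isOut_cases`.
-/

namespace Pool.Agent.MC95

open Pool.Agent.MEternal

variable {M : ℕ → ℕ} {S : Finset (Fin 14)}

/-- A finite case distinction. -/
theorem isOut_cases {a b : Env → ℕ} (ha : IsExpr a) (hb : IsExpr b) (n : ℕ) (c : ℕ → List Bool)
    {g : List Bool → Env → List Bool} (h : IsOut M S g) :
    IsOut M S fun w env =>
      if b env ≤ a env ∧ a env < b env + n then c (a env - b env) else g w env := by
  induction n with
  | zero =>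
    refine h.congr fun w env => ?_
    rw [if_neg (by omega)]
  | succ n ih =>
    refine (IsOut.ite (IsTest.eq ha (hb.add (IsExpr.const n))) (IsOut.const (c n)) ih).congr
      fun w env => ?_
    by_cases h1 : a env = b env + n
    · rw [if_pos (by omega), if_pos h1]
      congr 1
      omega
    · rw [if_neg h1]
      by_cases h2 : b env ≤ a env ∧ a env < b env + n
      · rw [if_pos (by omega), if_pos h2]
      · rw [if_neg (by omega), if_neg h2]

private theorem cs_ite {φ : List Bool → Env → Prop} [∀ w env, Decidable (φ w env)]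
    (hφ : IsTest φ) {f f' : List Bool → Env → Option Piece}
    (h : IsOut M S fun w env => codeSquare (f w env))
    (h' : IsOut M S fun w env => codeSquare (f' w env)) :
    IsOut M S fun w env => codeSquare (if φ w env then f w env else f' w env) :=
  (IsOut.ite hφ h h').congr fun w env => by split_ifs <;> rfl

private theorem cs_const (o : Option Piece) : IsOut M S fun _ _ => codeSquare o :=
  IsOut.const _

private theorem isExpr_y (r : ℕ) : IsExpr fun env : Env => 8 * env 1 + r :=
  ((IsExpr.const 8).mul (IsExpr.var 1)).add (IsExpr.const r)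

private theorem regAt_eq (kind : Kind) (t reg cor : ℕ) (i : Bool) (x : ℕ) :
    Op.regAt ⟨kind, t, reg, cor, i⟩ x = Op.regAt ⟨kind, 0, reg, cor, false⟩ x := by
  cases kind <;> rfl

private theorem ytop_le (kind : Kind) : kind.ytop ≤ 28 := by
  cases kind <;> decide

private theorem isOut_bgc (reg r x : ℕ) :
    IsOut M S fun _ env => codeSquare (bgc reg x (8 * env 1 + r)) := by
  have hy := isExpr_y r
  have hc : ∀ i, IsTest fun (_ : List Bool) (env : Env) => (8 * env 1 + r + 4) % 8 = i := by
    intro i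
    refine (IsTest.const ((r + 4) % 8 = i)).congr fun w env => ?_
    omega
  have hc' : IsTest fun (_ : List Bool) (env : Env) => (8 * env 1 + r + 4) % 8 ≤ 4 := by
    refine (IsTest.const ((r + 4) % 8 ≤ 4)).congr fun w env => ?_
    omega
  have hφ : IsTest fun (_ : List Bool) (env : Env) =>
      (1 ≤ reg ∧ 8 * env 1 + r = 13) ∨ (2 ≤ reg ∧ 8 * env 1 + r = 21) :=
    ((IsTest.const _).and (IsTest.eq hy (IsExpr.const 13))).or
      ((IsTest.const _).and (IsTest.eq hy (IsExpr.const 21)))
  have hψ : IsTest fun (_ : List Bool) (env : Env) =>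
      x % 4 = if (1 ≤ reg ∧ 8 * env 1 + r = 13) ∨ (2 ≤ reg ∧ 8 * env 1 + r = 21) then 3
        else 1 := by
    refine ((hφ.and (IsTest.const (x % 4 = 3))).or
      (hφ.not.and (IsTest.const (x % 4 = 1)))).congr fun w env => ?_
    split_ifs with h
    · simp [h]
    · simp only [h]
      simp
  unfold bgc
  refine cs_ite (hc 0) (cs_ite (IsTest.const _) (cs_const _) (cs_const _)) ?_
  refine cs_ite (hc 1) (cs_ite hψ (cs_const _) (cs_const _)) ?_
  refine cs_ite (hc 2) (cs_ite (IsTest.const _) (cs_const _) (cs_const _)) ?_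
  exact cs_ite hc' (cs_const _) (cs_const _)

private theorem isOut_cell (kind : Kind) (reg cor r x : ℕ)
    {N sg trk : Env → ℕ} (hN : IsExpr N) (hsg : IsExpr sg) (htrk : IsExpr trk)
    {ini : List Bool → Env → Bool} :
    IsOut M S fun w env =>
      codeSquare (cell (N env) (sg env) ⟨kind, trk env, reg, cor, ini w env⟩ x
        (8 * env 1 + r)) := by
  have hy := isExpr_y r
  have hb : IsExpr fun env : Env => 9 + 8 * trk env :=
    (IsExpr.const 9).add ((IsExpr.const 8).mul htrk)
  have hb' : IsExpr fun env : Env => 12 + 8 * trk env + kind.ytop :=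
    ((IsExpr.const 12).add ((IsExpr.const 8).mul htrk)).add (IsExpr.const _)
  have hS : ∀ k, IsExpr fun env : Env => 12 + 8 * sg env + k := fun k =>
    ((IsExpr.const 12).add ((IsExpr.const 8).mul hsg)).add (IsExpr.const k)
  have hIn : IsTest fun (w : List Bool) (env : Env) =>
      Op.InTile ⟨kind, trk env, reg, cor, ini w env⟩ x (8 * env 1 + r) := by
    show IsTest fun (_ : List Bool) (env : Env) => kind ≠ .first ∧ kind ≠ .blank ∧ 1 ≤ x ∧
      x ≤ 23 ∧ 9 + 8 * trk env ≤ 8 * env 1 + r ∧ 8 * env 1 + r ≤ 12 + 8 * trk env + kind.ytop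
    exact (IsTest.const _).and ((IsTest.const _).and ((IsTest.const _).and
      ((IsTest.const _).and ((IsTest.le hb hy).and (IsTest.le hy hb')))))
  have hA := isOut_cases (M := M) (S := S) hy hb 32
    (fun i => codeSquare (kind.st.get x ((i : ℤ) - 3))) (IsOut.const [])
  have hB : IsOut M S fun w env => codeSquare
      (if 1 ≤ cor ∧ cor ≤ 3 ∧ 8 * env 1 + r = 12 + 8 * bT + 23 then
        (if cor = 1 ∨ (cor = 2 ∧ 14 ≤ x) ∨ (cor = 3 ∧ x ≤ 14) then none else bm)
      else if 1 ≤ cor ∧ cor ≤ 3 ∧ 8 * env 1 + r = 12 + 8 * bT + 24 then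
        (if cor = 1 ∨ (cor = 2 ∧ 14 ≤ x) ∨ (cor = 3 ∧ x ≤ 14) then none else wm)
      else if 1 ≤ cor ∧ cor ≤ 3 ∧ (8 * env 1 + r = 12 + 8 * bT + 25 ∨
        8 * env 1 + r = 12 + 8 * bT + 26) then wm
      else if kind = .first ∧ ((x = 0 ∧ 8 * env 1 + r + 2 = N env) ∨
        (x = 1 ∧ 8 * env 1 + r + 1 = N env)) then none
      else if 12 + 8 * sg env + 22 ≤ 8 * env 1 + r then bm
      else if 12 + 8 * sg env + 19 ≤ 8 * env 1 + r then wm
      else if 12 + 8 * sg env + 14 ≤ 8 * env 1 + r then bm
      else if 12 + 8 * sg env + 11 ≤ 8 * env 1 + r then wm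
      else bgc (Op.regAt ⟨kind, trk env, reg, cor, ini w env⟩ x) x (8 * env 1 + r)) := by
    refine cs_ite ((IsTest.const _).and ((IsTest.const _).and (IsTest.eq hy (IsExpr.const _))))
      (cs_ite (IsTest.const _) (cs_const _) (cs_const _)) ?_
    refine cs_ite ((IsTest.const _).and ((IsTest.const _).and (IsTest.eq hy (IsExpr.const _))))
      (cs_ite (IsTest.const _) (cs_const _) (cs_const _)) ?_
    refine cs_ite ((IsTest.const _).and ((IsTest.const _).and ((IsTest.eq hy (IsExpr.const _)).or
      (IsTest.eq hy (IsExpr.const _))))) (cs_const _) ?_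
    refine cs_ite ((IsTest.const _).and (((IsTest.const _).and
      (IsTest.eq (hy.add (IsExpr.const 2)) hN)).or ((IsTest.const _).and
      (IsTest.eq (hy.add (IsExpr.const 1)) hN)))) (cs_const _) ?_
    refine cs_ite (IsTest.le (hS 22) hy) (cs_const _) ?_
    refine cs_ite (IsTest.le (hS 19) hy) (cs_const _) ?_
    refine cs_ite (IsTest.le (hS 14) hy) (cs_const _) ?_
    refine cs_ite (IsTest.le (hS 11) hy) (cs_const _) ?_
    refine (isOut_bgc (Op.regAt ⟨kind, 0, reg, cor, false⟩ x) r x).congr fun w env => ?_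
    rw [regAt_eq]
  refine (IsOut.ite hIn hA hB).congr fun w env => ?_
  unfold cell
  by_cases h : Op.InTile ⟨kind, trk env, reg, cor, ini w env⟩ x (8 * env 1 + r)
  · rw [if_pos h, if_pos h]
    have h1 : 9 + 8 * trk env ≤ 8 * env 1 + r := h.2.2.2.2.1
    have h2 : 8 * env 1 + r ≤ 12 + 8 * trk env + kind.ytop := h.2.2.2.2.2
    have h3 := ytop_le kind
    rw [if_pos ⟨h1, by omega⟩]
    have h4 : (((8 * env 1 + r - (9 + 8 * trk env) : ℕ) : ℤ) - 3) =
        ((8 * env 1 + r : ℕ) : ℤ) - (12 + 8 * ((trk env : ℕ) : ℤ)) := by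
      push_cast [Nat.cast_sub h1]
      ring
    rw [h4]
  · rw [if_neg h, if_neg h]

theorem isOut_kcell (kind : Kind) (reg cor r x : ℕ) (hr : r < 8) (hx : x < 28)
    {N sg trk : Env → ℕ} (hN : IsExpr N) (hsg : IsExpr sg) (htrk : IsExpr trk)
    {ini : List Bool → Env → Bool} (hini : IsTest fun w env => ini w env = true) :
    IsOut M S fun w env =>
      codeSquare (kcell (N env) (sg env) ⟨kind, trk env, reg, cor, ini w env⟩ x
        (8 * env 1 + r)) := by
  have hy := isExpr_y r
  have hT : ∀ k, IsExpr fun env : Env => k + 8 * trk env := fun k =>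
    (IsExpr.const k).add ((IsExpr.const 8).mul htrk)
  have hini' : IsTest fun w env => ini w env = false :=
    hini.not.congr fun w env => by simp
  show IsOut M S fun w env => codeSquare
    (if kind = .T ∧ ini w env = true ∧ x = 12 ∧ 8 * env 1 + r = 186 then wk
    else if kind = .N1 ∧ x = 14 ∧ 8 * env 1 + r = 20 then wk
    else if kind = .G ∧ x = 14 ∧ 8 * env 1 + r = 30 + 8 * trk env then wk
    else if kind = .Y ∧ ((ini w env = true ∧ x = 10 ∧ 8 * env 1 + r = 24 + 8 * trk env) ∨
      (ini w env = false ∧ x = 9 ∧ 8 * env 1 + r = 25 + 8 * trk env)) then bk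
    else if kind = .first ∧ x = 0 ∧ 8 * env 1 + r + 2 = N env then bk
    else cell (N env) (sg env) ⟨kind, trk env, reg, cor, ini w env⟩ x (8 * env 1 + r))
  refine cs_ite ((IsTest.const _).and (hini.and ((IsTest.const _).and
    (IsTest.eq hy (IsExpr.const _))))) (cs_const _) ?_
  refine cs_ite ((IsTest.const _).and ((IsTest.const _).and
    (IsTest.eq hy (IsExpr.const _)))) (cs_const _) ?_
  refine cs_ite ((IsTest.const _).and ((IsTest.const _).and
    (IsTest.eq hy (hT 30)))) (cs_const _) ?_
  refine cs_ite ((IsTest.const _).and ((hini.and ((IsTest.const _).and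
    (IsTest.eq hy (hT 24)))).or (hini'.and ((IsTest.const _).and
    (IsTest.eq hy (hT 25)))))) (cs_const _) ?_
  refine cs_ite ((IsTest.const _).and ((IsTest.const _).and
    (IsTest.eq (hy.add (IsExpr.const 2)) hN))) (cs_const _) ?_
  exact isOut_cell kind reg cor r x hN hsg htrk

theorem isOut_tile (kind : Kind) (reg cor r : ℕ) (hr : r < 8) {N sg trk : Env → ℕ}
    (hN : IsExpr N) (hsg : IsExpr sg) (htrk : IsExpr trk)
    {ini : List Bool → Env → Bool} (hini : IsTest fun w env => ini w env = true) :
    IsOut M S fun w env =>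
      tileRow (N env) (sg env) ⟨kind, trk env, reg, cor, ini w env⟩ (8 * env 1 + r) := by
  unfold tileRow
  refine IsOut.flatMap_const (List.range 28) (g := fun x w env =>
    if (x + (8 * env 1 + r)) % 2 = 0 then codeSquare (kcell (N env) (sg env)
      ⟨kind, trk env, reg, cor, ini w env⟩ x (8 * env 1 + r)) else []) fun x hx => ?_
  have hx' : x < 28 := List.mem_range.1 hx
  refine IsOut.ite ((IsTest.const ((x + r) % 2 = 0)).congr fun w env => ?_)
    (isOut_kcell kind reg cor r x hr hx' hN hsg htrk hini) (IsOut.const [])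
  omega

end Pool.Agent.MC95
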