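import Pool.Agent.MC95.CircOk

/-!
# Final positions

PLAN. `exists_capture`: induction on the number of pieces of the opponent (finitely many, all on the
board); after a jump either the piece cannot jump on (or has been promoted), or it can.
`final_win`: every legal move keeps `FinalP` (nothing changes in the rows from `R` on, except that
the Black king in the corner moves between its two squares: the men in row `R + 1` are blocked by
those in row `R + 2` and conversely, since the rows behind them are full; a jump or step from below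
needs an empty landing square in the rows `≥ R`, but the only one is the one in the corner; a White
man below row `R` does not reach the last row, so no White king appears). A move of White moves a
White man up, a move of Black moves or adds no White man; so the sum of `N - s.2` over the squares
`s` with a White man does not increase, and decreases with each move of White. Black always has a
legal move: a capture if there is a possible jump, otherwise the move of the king in the corner.
Induction on this sum: White has no legal move (and wins), or moves.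
-/

namespace Pool.Agent.MC95

/-! ### finite boards -/

private noncomputable def fsq (N : ℕ) : Finset Square := (Finset.Ico (0 : ℤ) N) ×ˢ (Finset.Ico (0 : ℤ) N)

private lemma mem_fsq {N : ℕ} {s : Square} (h : IsDark N s) : s ∈ fsq N := by
  unfold fsq
  rw [Finset.mem_product, Finset.mem_Ico, Finset.mem_Ico]
  exact ⟨⟨h.1, h.2.1⟩, ⟨h.2.2.1, h.2.2.2.1⟩⟩

private lemma fin_jump_apply {N : ℕ} {b : Board} {p : Piece} {s : Square} {d : ℤ × ℤ} (t : Square) :
    b.jump N p s d t = if t = s + d + d then some (p.crown N (s + d + d).2) else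
      if t = s then none else if t = s + d then none else b t := by
  unfold Board.jump Board.move
  rw [Function.update_apply, Function.update_apply, Function.update_apply]

private lemma fin_move_apply {N : ℕ} {b : Board} {p : Piece} {s : Square} {u : Square} (t : Square) :
    b.move N p s u t = if t = u then some (p.crown N u.2) else if t = s then none else b t := by
  unfold Board.move
  rw [Function.update_apply, Function.update_apply]

private lemma fin_ne1 {s : Square} {d : ℤ × ℤ} (hd : IsDiag d) : s ≠ s + d := by
  intro h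
  have h2 : s.2 = s.2 + d.2 := congrArg Prod.snd h
  rcases hd.2 with h3 | h3 <;> omega

private lemma fin_ne2 {s : Square} {d : ℤ × ℤ} (hd : IsDiag d) : s ≠ s + d + d := by
  intro h
  have h2 : s.2 = s.2 + d.2 + d.2 := congrArg Prod.snd h
  rcases hd.2 with h3 | h3 <;> omega

private lemma fin_jump_dark {N : ℕ} {b : Board} (hd : ∀ s p, b s = some p → IsDark N s) {p : Piece}
    {s : Square} {d : ℤ × ℤ} (h : CanJump N b p s d) :
    ∀ t q, b.jump N p s d t = some q → IsDark N t := by
  intro t q ht
  rw [fin_jump_apply] at ht
  split_ifs at ht with h1 h2 h3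
  · rw [h1]; exact h.2.2.2.1
  · exact hd t q ht

private noncomputable def fpc (N : ℕ) (b : Board) : ℕ := ((fsq N).filter (fun t => b t ≠ none)).card

private lemma fpc_jump {N : ℕ} {b : Board} (hd : ∀ s p, b s = some p → IsDark N s) {p : Piece}
    {s : Square} {d : ℤ × ℤ} (h : CanJump N b p s d) : fpc N (b.jump N p s d) < fpc N b := by
  obtain ⟨hs, hdir, ⟨q, hq, -⟩, ht, he⟩ := h
  have hdiag : IsDiag d := hdir.1
  unfold fpc
  set A := (fsq N).filter (fun t => b t ≠ none) with hA
  have hsA : s ∈ A := by
    rw [hA, Finset.mem_filter]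
    exact ⟨mem_fsq (hd s p hs), by rw [hs]; simp⟩
  have hmA : s + d ∈ A.erase s := by
    rw [Finset.mem_erase, hA, Finset.mem_filter]
    exact ⟨(fin_ne1 hdiag).symm, mem_fsq (hd _ q hq), by rw [hq]; simp⟩
  have hsub : (fsq N).filter (fun t => b.jump N p s d t ≠ none) ⊆
      insert (s + d + d) ((A.erase s).erase (s + d)) := by
    intro t htt
    rw [Finset.mem_filter, fin_jump_apply] at htt
    obtain ⟨h1, h2⟩ := htt
    rw [Finset.mem_insert]
    by_cases e1 : t = s + d + d
    · exact Or.inl e1
    · right
      rw [if_neg e1] at h2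
      by_cases e2 : t = s
      · rw [if_pos e2] at h2; exact absurd rfl h2
      · rw [if_neg e2] at h2
        by_cases e3 : t = s + d
        · rw [if_pos e3] at h2; exact absurd rfl h2
        · rw [if_neg e3] at h2
          rw [Finset.mem_erase, Finset.mem_erase, hA, Finset.mem_filter]
          exact ⟨e3, e2, h1, h2⟩
  have hc := Finset.card_le_card hsub
  have hc2 := Finset.card_insert_le (s + d + d) ((A.erase s).erase (s + d))
  rw [Finset.card_erase_of_mem hmA, Finset.card_erase_of_mem hsA] at hc2
  have hpos : 0 < (A.erase s).card := Finset.card_pos.2 ⟨_, hmA⟩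
  rw [Finset.card_erase_of_mem hsA] at hpos
  omega

/-- A possible jump is the beginning of a capturing move. -/
theorem exists_capture {N : ℕ} {b : Board} (hd : ∀ s p, b s = some p → IsDark N s) {p : Piece}
    {s : Square} {d : ℤ × ℤ} (h : CanJump N b p s d) : ∃ b', Captures N b s b' := by
  have main : ∀ n : ℕ, ∀ b : Board, (∀ s p, b s = some p → IsDark N s) → fpc N b = n →
      ∀ p s d, CanJump N b p s d → ∃ b', Captures N b s b' := by
    intro n
    induction n using Nat.strong_induction_on with
    | _ n ih =>
      intro b hd hn p s d h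
      by_cases hcr : p.crown N (s + d + d).2 = p
      · by_cases hno : ∀ d', ¬ CanJump N (b.jump N p s d) p (s + d + d) d'
        · exact ⟨_, Captures.last h (Or.inr hno)⟩
        · push Not at hno
          obtain ⟨d', hd'⟩ := hno
          obtain ⟨b', hb'⟩ := ih (fpc N (b.jump N p s d)) (by rw [← hn]; exact fpc_jump hd h)
            (b.jump N p s d) (fin_jump_dark hd h) rfl p (s + d + d) d' hd'
          exact ⟨b', Captures.next h hcr hb'⟩
      · exact ⟨_, Captures.last h (Or.inl hcr)⟩
  exact main _ b hd rfl p s d h

/-- Final positions in which White wins: no White kings, the rows `R`, `R + 1` full of White men, all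
rows above full of Black men, except for the Black king in the corner with its two squares. -/
structure FinalP (N : ℕ) (R : ℤ) (b : Board) : Prop where
  hN : 2 ∣ N
  hR : 0 ≤ R
  hRN : R + 8 ≤ N
  dark : ∀ s p, b s = some p → IsDark N s
  nk : ∀ s, b s ≠ wk
  band : ∀ s : Square, IsDark N s → s.2 = R ∨ s.2 = R + 1 → b s = wm
  upper : ∀ s : Square, IsDark N s → R + 2 ≤ s.2 → s ≠ (0, (N : ℤ) - 2) →
    s ≠ (1, (N : ℤ) - 1) → b s = bm
  tog : (b (0, (N : ℤ) - 2) = bk ∧ b (1, (N : ℤ) - 1) = none) ∨
    (b (0, (N : ℤ) - 2) = none ∧ b (1, (N : ℤ) - 1) = bk)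

/-- an empty square from row `R` on is in the corner -/
private lemma fin_empty {N : ℕ} {R : ℤ} {b : Board} (h : FinalP N R b) {u : Square} (hu : IsDark N u)
    (he : b u = none) (hR : R ≤ u.2) : u = (0, (N : ℤ) - 2) ∨ u = (1, (N : ℤ) - 1) := by
  by_contra hcon
  push Not at hcon
  by_cases h1 : R + 2 ≤ u.2
  · rw [h.upper u hu h1 hcon.1 hcon.2] at he
    exact absurd he (by simp)
  · rw [h.band u hu (by omega)] at he
    exact absurd he (by simp)

/-- pieces above the band are Black -/
private lemma fin_black {N : ℕ} {R : ℤ} {b : Board} (h : FinalP N R b) {u : Square} {p : Piece}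
    (hu : b u = some p) (hR : R + 2 ≤ u.2) : p.color = .black := by
  have hd := h.dark u p hu
  by_cases h1 : u = (0, (N : ℤ) - 2)
  · rw [h1] at hu
    rcases h.tog with ⟨h2, -⟩ | ⟨h2, -⟩
    · rw [h2] at hu; rw [← Option.some.inj hu]
    · rw [h2] at hu; exact absurd hu (by simp)
  · by_cases h3 : u = (1, (N : ℤ) - 1)
    · rw [h3] at hu
      rcases h.tog with ⟨-, h2⟩ | ⟨-, h2⟩
      · rw [h2] at hu; exact absurd hu (by simp)
      · rw [h2] at hu; rw [← Option.some.inj hu]
    · rw [h.upper u hd hR h1 h3] at hu
      rw [← Option.some.inj hu]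

/-- White pieces are men -/
private lemma fin_man {N : ℕ} {R : ℤ} {b : Board} (h : FinalP N R b) {u : Square} {p : Piece}
    (hu : b u = some p) (hc : p.color = .white) : p = ⟨.white, false⟩ := by
  rcases p with ⟨c, k⟩
  simp only at hc
  subst hc
  cases k with
  | false => rfl
  | true => exact absurd hu (h.nk u)

/-- changes below row `R` -/
private lemma fin_below {N : ℕ} {R : ℤ} {b b' : Board} (h : FinalP N R b)
    (hsame : ∀ u : Square, R ≤ u.2 → b' u = b u) (hd : ∀ s p, b' s = some p → IsDark N s)
    (hnk : ∀ s, b' s ≠ wk) : FinalP N R b' where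
  hN := h.hN
  hR := h.hR
  hRN := h.hRN
  dark := hd
  nk := hnk
  band s hs hR := by
    rw [hsame s (by omega)]
    exact h.band s hs hR
  upper s hs hR h1 h2 := by
    rw [hsame s (by omega)]
    exact h.upper s hs hR h1 h2
  tog := by
    have hRN := h.hRN
    rw [hsame (0, (N : ℤ) - 2) (by show R ≤ (N : ℤ) - 2; omega),
      hsame (1, (N : ℤ) - 1) (by show R ≤ (N : ℤ) - 1; omega)]
    exact h.tog

private lemma fin_crown {N : ℕ} {R : ℤ} (hRN : R + 8 ≤ N) {p : Piece} (hp : some p ≠ wk) {y : ℤ}
    (hy : y < R) : some (p.crown N y) ≠ wk := by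
  rcases p with ⟨c, k⟩
  cases c with
  | white =>
    have h1 : y ≠ (N : ℤ) - 1 := by omega
    have h2 : (⟨.white, k⟩ : Piece).crown N y = ⟨.white, k⟩ := by
      unfold Piece.crown Color.farRow
      simp [h1]
    rw [h2]; exact hp
  | black =>
    unfold Piece.crown
    split_ifs <;> simp [wk]

/-- jumps happen below row `R` -/
private lemma fin_jump_rows {N : ℕ} {R : ℤ} {b : Board} (h : FinalP N R b) {p : Piece} {s : Square}
    {d : ℤ × ℤ} (hj : CanJump N b p s d) : s.2 < R ∧ (s + d).2 < R ∧ (s + d + d).2 < R := by
  obtain ⟨hs, hdir, ⟨q, hq, hqc⟩, ht, he⟩ := hj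
  have hRN := h.hRN
  have e1 : (s + d).2 = s.2 + d.2 := rfl
  have e2 : (s + d + d).2 = s.2 + d.2 + d.2 := rfl
  have ht2 : (s + d + d).2 < R := by
    by_contra hcon
    push Not at hcon
    have hc := fin_empty h ht he hcon
    have hrow : (N : ℤ) - 2 ≤ (s + d + d).2 := by
      rcases hc with hc | hc <;> rw [hc]
      show (N : ℤ) - 2 ≤ (N : ℤ) - 1
      omega
    have hs1 : p.color = .black := fin_black h hs (by rcases hdir.1.2 with h3 | h3 <;> omega)
    have hq1 : q.color = .black := fin_black h hq (by rcases hdir.1.2 with h3 | h3 <;> omega)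
    rw [hs1, hq1] at hqc
    exact absurd hqc (by simp [Color.other])
  have hs2 : s.2 < R := by
    by_contra hcon
    push Not at hcon
    have hds := h.dark s p hs
    have h5 : s.2 = R ∨ s.2 = R + 1 := by rcases hdir.1.2 with h3 | h3 <;> omega
    rw [h.band s hds h5] at hs
    have hp : p = ⟨.white, false⟩ := (Option.some.inj hs).symm
    have h6 := hdir.2
    rw [hp] at h6
    simp only [Bool.false_eq_true, false_or, Color.forward] at h6
    omega
  refine ⟨hs2, ?_, ht2⟩
  rcases hdir.1.2 with h3 | h3 <;> omega

private lemma fin_jump {N : ℕ} {R : ℤ} {b : Board} (h : FinalP N R b) {p : Piece} {s : Square}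
    {d : ℤ × ℤ} (hj : CanJump N b p s d) : FinalP N R (b.jump N p s d) := by
  obtain ⟨h1, h2, h3⟩ := fin_jump_rows h hj
  have hRN := h.hRN
  refine fin_below h ?_ (fin_jump_dark h.dark hj) ?_
  · intro u hu
    rw [fin_jump_apply, if_neg, if_neg, if_neg]
    · rintro rfl; omega
    · rintro rfl; omega
    · rintro rfl; omega
  · intro u
    rw [fin_jump_apply]
    split_ifs with e1 e2 e3
    · exact fin_crown hRN (by rw [← hj.1]; exact h.nk s) h3
    · simp
    · simp
    · exact h.nk u

/-! ### the potential -/

private def fval (N : ℕ) (b : Board) (u : Square) : ℕ := if b u = wm then ((N : ℤ) - u.2).toNat else 0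

private noncomputable def fmu (N : ℕ) (b : Board) : ℕ := ∑ u ∈ fsq N, fval N b u

private lemma fin_split {F : Finset Square} {s t : Square} (hs : s ∈ F) (ht : t ∈ F) (hst : s ≠ t)
    (f : Square → ℕ) : ∑ u ∈ F, f u = f s + (f t + ∑ u ∈ (F.erase s).erase t, f u) := by
  rw [← Finset.add_sum_erase F f hs,
    ← Finset.add_sum_erase (F.erase s) f (Finset.mem_erase.2 ⟨hst.symm, ht⟩)]

/-- a White man goes from `s` up to `t`, no other White man appears -/
private lemma fmu_lt {N : ℕ} {b b' : Board} {s t : Square} (hs : IsDark N s) (ht : IsDark N t)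
    (hst : s.2 < t.2) (h1 : b s = wm) (h2 : b' s ≠ wm)
    (h3 : ∀ u, u ≠ s → u ≠ t → b' u = wm → b u = wm) : fmu N b' < fmu N b := by
  unfold fmu
  have hne : s ≠ t := by rintro rfl; omega
  rw [fin_split (mem_fsq hs) (mem_fsq ht) hne (fval N b'), fin_split (mem_fsq hs) (mem_fsq ht) hne (fval N b)]
  have e1 : fval N b' s = 0 := by unfold fval; rw [if_neg h2]
  have e2 : fval N b s = ((N : ℤ) - s.2).toNat := by unfold fval; rw [if_pos h1]
  have e3 : fval N b' t ≤ ((N : ℤ) - t.2).toNat := by
    unfold fval
    split_ifs
    · exact le_refl _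
    · exact Nat.zero_le _
  have e4 : ∑ u ∈ ((fsq N).erase s).erase t, fval N b' u ≤ ∑ u ∈ ((fsq N).erase s).erase t, fval N b u := by
    apply Finset.sum_le_sum
    intro u hu
    rw [Finset.mem_erase, Finset.mem_erase] at hu
    unfold fval
    by_cases h4 : b' u = wm
    · rw [if_pos h4, if_pos (h3 u hu.2.1 hu.1 h4)]
    · rw [if_neg h4]; exact Nat.zero_le _
  have h5 := hs.2.2.2.1
  have h6 := ht.2.2.2.1
  have e5 : ((N : ℤ) - t.2).toNat < ((N : ℤ) - s.2).toNat := by omega
  omega

private lemma fmu_le {N : ℕ} {b b' : Board} (h : ∀ u, b' u = wm → b u = wm) : fmu N b' ≤ fmu N b := by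
  unfold fmu
  apply Finset.sum_le_sum
  intro u _
  unfold fval
  by_cases h4 : b' u = wm
  · rw [if_pos h4, if_pos (h u h4)]
  · rw [if_neg h4]; exact Nat.zero_le _

private lemma fin_crown_black {N : ℕ} {p : Piece} (hp : p.color = .black) (y : ℤ) :
    some (p.crown N y) ≠ wm := by
  intro h
  have h1 : p.crown N y = ⟨.white, false⟩ := Option.some.inj h
  unfold Piece.crown at h1
  split_ifs at h1 with h2
  · simp at h1
  · rw [h1] at hp; exact absurd hp (by simp)

private lemma fmu_jump {N : ℕ} {R : ℤ} {b : Board} (h : FinalP N R b) {p : Piece} {s : Square}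
    {d : ℤ × ℤ} (hj : CanJump N b p s d) :
    fmu N (b.jump N p s d) ≤ fmu N b ∧ (p.color = .white → fmu N (b.jump N p s d) < fmu N b) := by
  have hsd := h.dark s p hj.1
  have htd : IsDark N (s + d + d) := hj.2.2.2.1
  have hdiag : IsDiag d := hj.2.1.1
  have hwhite : p.color = .white → fmu N (b.jump N p s d) < fmu N b := by
    intro hc
    have hp := fin_man h hj.1 hc
    have hd2 : d.2 = 1 := by
      have h6 := hj.2.1.2
      rw [hp] at h6
      simpa [Color.forward] using h6
    refine fmu_lt (s := s) (t := s + d + d) hsd htd ?_ ?_ ?_ ?_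
    · show s.2 < s.2 + d.2 + d.2
      omega
    · rw [hj.1, hp]
    · rw [fin_jump_apply, if_neg (fin_ne2 hdiag), if_pos rfl]
      simp
    · intro u hu1 hu2 hu3
      rw [fin_jump_apply, if_neg hu2, if_neg hu1] at hu3
      split_ifs at hu3
      exact hu3
  refine ⟨?_, hwhite⟩
  by_cases hc : p.color = .white
  · exact (hwhite hc).le
  · have hb : p.color = .black := by
      cases hpc : p.color with
      | white => exact absurd hpc hc
      | black => rfl
    apply fmu_le
    intro u hu
    rw [fin_jump_apply] at hu
    split_ifs at hu with e1 e2 e3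
    · exact absurd hu (fin_crown_black hb _)
    · exact hu

private lemma fin_captures {N : ℕ} {R : ℤ} {b b' : Board} {s : Square} (hcap : Captures N b s b') :
    FinalP N R b → FinalP N R b' ∧ fmu N b' ≤ fmu N b ∧
      (∀ p, b s = some p → p.color = .white → fmu N b' < fmu N b) := by
  induction hcap with
  | @last b p s d hj hend =>
    intro h
    refine ⟨fin_jump h hj, (fmu_jump h hj).1, ?_⟩
    intro p' hp' hc
    have : p = p' := Option.some.inj (hj.1.symm.trans hp')
    subst this
    exact (fmu_jump h hj).2 hc
  | @next b p s d b' hj hcrown hrest ih =>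
    intro h
    obtain ⟨h1, h2, -⟩ := ih (fin_jump h hj)
    refine ⟨h1, h2.trans (fmu_jump h hj).1, ?_⟩
    intro p' hp' hc
    have : p = p' := Option.some.inj (hj.1.symm.trans hp')
    subst this
    exact lt_of_le_of_lt h2 ((fmu_jump h hj).2 hc)

private lemma fin_step {N : ℕ} {R : ℤ} {b : Board} (h : FinalP N R b) {p : Piece} {s : Square}
    {d : ℤ × ℤ} (hs : b s = some p) (hdir : p.Dir d) (ht : IsDark N (s + d)) (he : b (s + d) = none) :
    FinalP N R (b.move N p s (s + d)) ∧ fmu N (b.move N p s (s + d)) ≤ fmu N b ∧
      (p.color = .white → fmu N (b.move N p s (s + d)) < fmu N b) := by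
  have hRN := h.hRN
  have hR0 := h.hR
  have hsd := h.dark s p hs
  have hdiag : IsDiag d := hdir.1
  have e1 : (s + d).2 = s.2 + d.2 := rfl
  have e1' : (s + d).1 = s.1 + d.1 := rfl
  have hmvdark : ∀ u q, b.move N p s (s + d) u = some q → IsDark N u := by
    intro u q hu
    rw [fin_move_apply] at hu
    split_ifs at hu with h1 h2
    · rw [h1]; exact ht
    · exact h.dark u q hu
  have hwhite : p.color = .white → fmu N (b.move N p s (s + d)) < fmu N b := by
    intro hc
    have hp := fin_man h hs hc
    have hd2 : d.2 = 1 := by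
      have h6 := hdir.2
      rw [hp] at h6
      simpa [Color.forward] using h6
    refine fmu_lt (s := s) (t := s + d) hsd ht (by omega) (by rw [hs, hp]) ?_ ?_
    · rw [fin_move_apply, if_neg (fin_ne1 hdiag), if_pos rfl]
      simp
    · intro u hu1 hu2 hu3
      rw [fin_move_apply, if_neg hu2, if_neg hu1] at hu3
      exact hu3
  have hle : fmu N (b.move N p s (s + d)) ≤ fmu N b := by
    by_cases hc : p.color = .white
    · exact (hwhite hc).le
    · have hb : p.color = .black := by
        cases hpc : p.color with
        | white => exact absurd hpc hc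
        | black => rfl
      apply fmu_le
      intro u hu
      rw [fin_move_apply] at hu
      split_ifs at hu with e1 e2
      · exact absurd hu (fin_crown_black hb _)
      · exact hu
  refine ⟨?_, hle, hwhite⟩
  by_cases htR : (s + d).2 < R
  · -- a step below row `R`
    have hs2 : s.2 < R := by
      by_contra hcon
      push Not at hcon
      have h5 : s.2 = R ∨ s.2 = R + 1 := by rcases hdiag.2 with h3 | h3 <;> omega
      rw [h.band s hsd h5] at hs
      have hp : p = ⟨.white, false⟩ := (Option.some.inj hs).symm
      have h6 := hdir.2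
      rw [hp] at h6
      simp only [Bool.false_eq_true, false_or, Color.forward] at h6
      omega
    refine fin_below h ?_ hmvdark ?_
    · intro u hu
      rw [fin_move_apply, if_neg, if_neg]
      · rintro rfl; omega
      · rintro rfl; omega
    · intro u
      rw [fin_move_apply]
      split_ifs with e1 e2
      · exact fin_crown hRN (by rw [← hs]; exact h.nk s) htR
      · simp
      · exact h.nk u
  · -- the king in the corner
    push Not at htR
    have hcorner := fin_empty h ht he htR
    -- the piece is the king and the two squares are exchanged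
    have hkey : (s = (1, (N : ℤ) - 1) ∧ s + d = (0, (N : ℤ) - 2) ∧ p = ⟨.black, true⟩) ∨
        (s = (0, (N : ℤ) - 2) ∧ s + d = (1, (N : ℤ) - 1) ∧ p = ⟨.black, true⟩) := by
      rcases hcorner with hc | hc
      · left
        have c1 : s.1 + d.1 = 0 := by rw [← e1', hc]
        have c2 : s.2 + d.2 = (N : ℤ) - 2 := by rw [← e1, hc]
        have hs1 : s.1 = 1 := by
          have := hsd.1
          rcases hdiag.1 with h3 | h3 <;> omega
        rcases hdiag.2 with h3 | h3
        · -- from below: a Black man does not move up
          exfalso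
          have hrow : s.2 = (N : ℤ) - 3 := by omega
          have hm : b s = bm := by
            apply h.upper s hsd (by omega)
            · intro hh
              have := congrArg Prod.fst hh
              simp only at this
              omega
            · intro hh
              have := congrArg Prod.snd hh
              simp only at this
              omega
          rw [hm] at hs
          have hp : p = ⟨.black, false⟩ := (Option.some.inj hs).symm
          have h6 := hdir.2
          rw [hp] at h6
          simp only [Bool.false_eq_true, false_or, Color.forward] at h6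
          omega
        · have hseq : s = (1, (N : ℤ) - 1) := Prod.ext hs1 (by show s.2 = (N : ℤ) - 1; omega)
          refine ⟨hseq, hc, ?_⟩
          rcases h.tog with ⟨h7, -⟩ | ⟨-, h7⟩
          · rw [hc, h7] at he; exact absurd he (by simp)
          · rw [hseq, h7] at hs
            exact (Option.some.inj hs).symm
      · right
        have c1 : s.1 + d.1 = 1 := by rw [← e1', hc]
        have c2 : s.2 + d.2 = (N : ℤ) - 1 := by rw [← e1, hc]
        have hrow : s.2 = (N : ℤ) - 2 ∧ d.2 = 1 := by
          have := hsd.2.2.2.1
          rcases hdiag.2 with h3 | h3 <;> omega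
        rcases hdiag.1 with h3 | h3
        · have hseq : s = (0, (N : ℤ) - 2) := Prod.ext (by show s.1 = 0; omega) hrow.1
          refine ⟨hseq, hc, ?_⟩
          rcases h.tog with ⟨h7, -⟩ | ⟨-, h7⟩
          · rw [hseq, h7] at hs
            exact (Option.some.inj hs).symm
          · rw [hc, h7] at he; exact absurd he (by simp)
        · exfalso
          have hm : b s = bm := by
            apply h.upper s hsd (by omega)
            · intro hh
              have := congrArg Prod.fst hh
              simp only at this
              omega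
            · intro hh
              have := congrArg Prod.snd hh
              simp only at this
              omega
          rw [hm] at hs
          have hp : p = ⟨.black, false⟩ := (Option.some.inj hs).symm
          have h6 := hdir.2
          rw [hp] at h6
          simp only [Bool.false_eq_true, false_or, Color.forward] at h6
          omega
    have hne01 : ((0 : ℤ), (N : ℤ) - 2) ≠ (1, (N : ℤ) - 1) := by
      intro hh
      have := congrArg Prod.fst hh
      simp at this
    have hcr : ∀ y, (⟨.black, true⟩ : Piece).crown N y = ⟨.black, true⟩ := by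
      intro y
      unfold Piece.crown
      split_ifs <;> rfl
    have hstruct : ∀ x y : Square, s = x → s + d = y → p = ⟨.black, true⟩ →
        (∀ u, u ≠ x → u ≠ y → b.move N p s (s + d) u = b u) ∧
        (x ≠ y → b.move N p s (s + d) x = none) ∧ b.move N p s (s + d) y = bk := by
      intro x y hx hy hp
      refine ⟨?_, ?_, ?_⟩
      · intro u h1 h2
        rw [fin_move_apply, hy, hx, if_neg h2, if_neg h1]
      · intro hxy
        rw [fin_move_apply, hy, hx, if_neg hxy, if_pos rfl]
      · rw [fin_move_apply, hy, if_pos rfl, hp, hcr]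
    have hbig : ∀ x y : Square, s = x → s + d = y → p = ⟨.black, true⟩ → R + 2 ≤ x.2 → R + 2 ≤ y.2 →
        ((x = (0, (N : ℤ) - 2) ∧ y = (1, (N : ℤ) - 1)) ∨ (x = (1, (N : ℤ) - 1) ∧ y = (0, (N : ℤ) - 2))) →
        FinalP N R (b.move N p s (s + d)) := by
      intro x y hx hy hp hxR hyR hxy
      have hxyne : x ≠ y := by
        rcases hxy with ⟨r1, r2⟩ | ⟨r1, r2⟩
        · rw [r1, r2]; exact hne01
        · rw [r1, r2]; exact hne01.symm
      obtain ⟨g1, g2, g3⟩ := hstruct x y hx hy hp
      exact
        { hN := h.hN
          hR := h.hR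
          hRN := h.hRN
          dark := hmvdark
          nk := by
            intro u
            by_cases u1 : u = x
            · rw [u1, g2 hxyne]; simp
            · by_cases u2 : u = y
              · rw [u2, g3]; simp
              · rw [g1 u u1 u2]; exact h.nk u
          band := by
            intro u hu hr
            rw [g1 u (by rintro rfl; omega) (by rintro rfl; omega)]
            exact h.band u hu hr
          upper := by
            intro u hu hr n1 n2
            rw [g1 u (by rcases hxy with ⟨r1, r2⟩ | ⟨r1, r2⟩ <;> rw [r1] <;> assumption)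
              (by rcases hxy with ⟨r1, r2⟩ | ⟨r1, r2⟩ <;> rw [r2] <;> assumption)]
            exact h.upper u hu hr n1 n2
          tog := by
            rcases hxy with ⟨r1, r2⟩ | ⟨r1, r2⟩
            · right
              rw [← r1, ← r2]
              exact ⟨g2 hxyne, g3⟩
            · left
              rw [← r1, ← r2]
              exact ⟨g3, g2 hxyne⟩ }
    rcases hkey with ⟨k1, k2, k3⟩ | ⟨k1, k2, k3⟩
    · exact hbig _ _ k1 k2 k3 (by show R + 2 ≤ (N : ℤ) - 1; omega) (by show R + 2 ≤ (N : ℤ) - 2; omega)
        (Or.inr ⟨rfl, rfl⟩)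
    · exact hbig _ _ k1 k2 k3 (by show R + 2 ≤ (N : ℤ) - 2; omega) (by show R + 2 ≤ (N : ℤ) - 1; omega)
        (Or.inl ⟨rfl, rfl⟩)

private lemma fin_legal {N : ℕ} {R : ℤ} {b b' : Board} {c : Color} (h : FinalP N R b)
    (hl : Legal N c b b') : FinalP N R b' ∧ fmu N b' ≤ fmu N b ∧
      (c = .white → fmu N b' < fmu N b) := by
  cases hl with
  | @step p s d hno hs hc hd ht he =>
    obtain ⟨h1, h2, h3⟩ := fin_step h hs hd ht he
    exact ⟨h1, h2, fun hw => h3 (hc.trans hw)⟩
  | @capture p s _ hs hc hcap =>
    obtain ⟨h1, h2, h3⟩ := fin_captures hcap h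
    exact ⟨h1, h2, fun hw => h3 p hs (hc.trans hw)⟩

private lemma fin_black_move {N : ℕ} {R : ℤ} {b : Board} (h : FinalP N R b) :
    ∃ b', Legal N .black b b' := by
  have hRN := h.hRN
  have hR0 := h.hR
  by_cases hcc : CanCapture N b .black
  · obtain ⟨s, p, d, hc, hj⟩ := hcc
    obtain ⟨b', hb'⟩ := exists_capture h.dark hj
    exact ⟨b', Legal.capture hj.1 hc hb'⟩
  · have hN2 : (2 : ℤ) ∣ (N : ℤ) := by exact_mod_cast h.hN
    have hd0 : IsDark N (0, (N : ℤ) - 2) := by
      refine ⟨le_refl _, ?_, ?_, ?_, ?_⟩ <;> simp only <;> omega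
    have hd1 : IsDark N (1, (N : ℤ) - 1) := by
      refine ⟨?_, ?_, ?_, ?_, ?_⟩ <;> simp only <;> omega
    rcases h.tog with ⟨h1, h2⟩ | ⟨h1, h2⟩
    · have hadd : ((0 : ℤ), (N : ℤ) - 2) + (1, 1) = (1, (N : ℤ) - 1) := by
        ext
        · simp
        · show (N : ℤ) - 2 + 1 = (N : ℤ) - 1
          ring
      exact ⟨_, Legal.step (p := ⟨.black, true⟩) (s := (0, (N : ℤ) - 2)) (d := (1, 1)) hcc h1 rfl
        ⟨⟨Or.inl rfl, Or.inl rfl⟩, Or.inl rfl⟩ (by rw [hadd]; exact hd1) (by rw [hadd]; exact h2)⟩
    · have hadd : ((1 : ℤ), (N : ℤ) - 1) + (-1, -1) = (0, (N : ℤ) - 2) := by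
        ext
        · simp
        · show (N : ℤ) - 1 + -1 = (N : ℤ) - 2
          ring
      exact ⟨_, Legal.step (p := ⟨.black, true⟩) (s := (1, (N : ℤ) - 1)) (d := (-1, -1)) hcc h2 rfl
        ⟨⟨Or.inr rfl, Or.inr rfl⟩, Or.inl rfl⟩ (by rw [hadd]; exact hd0) (by rw [hadd]; exact h1)⟩

theorem final_win {N : ℕ} {R : ℤ} {b : Board} (h : FinalP N R b) :
    MisereWins N .white b .white := by
  have main : ∀ n : ℕ, ∀ b : Board, FinalP N R b → fmu N b = n → MisereWins N .white b .white := by
    intro n
    induction n using Nat.strong_induction_on with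
    | _ n ih =>
      intro b h hn
      by_cases hst : ∀ b', ¬ Legal N .white b b'
      · exact MisereWins.stuck hst
      · push Not at hst
        obtain ⟨b1, hb1⟩ := hst
        obtain ⟨f1, -, f3⟩ := fin_legal h hb1
        refine MisereWins.own hb1 ?_
        refine MisereWins.other (c := .white) (fin_black_move f1) ?_
        intro b2 hb2
        obtain ⟨g1, g2, -⟩ := fin_legal f1 hb2
        exact ih (fmu N b2) (by rw [← hn]; exact lt_of_le_of_lt g2 (f3 rfl)) b2 g1 rfl
  exact main _ b h rfl

end Pool.Agent.MC95
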