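import Pool.Agent.MC95.GNum

/-!
# The numerical safety game and the tableau game

PLAN. `domI_iff`, `curI_iff`, `nxtI_iff` by cases (see `vGW_iff`, `curN_iff`, `nxtN_iff` in
`Pool.Agent.MEternal` for similar proofs). `gameNG_def_iff`: from a winning set `S` of assignments
of the numerical game take the set of the states `s : GV P → GW C P D` with `varL (s j) = j` for all
`j` such that some `x` in `S` has `x (cellOf P j) = valOf e (s j)` for all `j`; conversely from a winning
set `S` of the tableau game take the set of all `x` with `Dm x` such that some `s` in `S` has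
`x (cellOf P j) = valOf e (s j)` for all `j` (choose the value `0` for the other cells; the initial
assignment has it too). A clause with number `q < nQ` and `vq q` is the code of a clause of the game
(`vGQ_iff`), and every clause of the game has a number (`qd` is inverse to the mixed radix
representation; all components are `< P + D + c + 3`, the first `< 6`, the second `< 3`). A cell `i`
with `cur q i v` or `nxt q i v` is the cell of a variable.
-/

namespace Pool.Agent.MC95

open Pool.Agent.MEternal Pool.Agent.MEternal.CAGame Pool.Agent.MEternal.Codes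

variable {C : Type}

variable {F : C → C → C → C} {acc : C → Prop} {e : C → ℕ} {P D c cb : ℕ}
  {row : ℕ → ℕ → ℕ → Prop}

/-- The cell of a variable. -/
def cellOf (P : ℕ) : GV P → ℕ
  | .td i => 11 + i
  | .pd i => 11 + P + i
  | .mt => 13 + 2 * P
  | .mp => 14 + 2 * P
  | .zf => 15 + 2 * P
  | .cell k => 16 + 2 * P + k

/-- The number of a value. -/
def valOf (e : C → ℕ) : GW C P D → ℕ
  | .td _ v => v
  | .pd _ v => v
  | .mt m => m
  | .mp m => m
  | .zf b => b.toNat
  | .cell _ c => oc e c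

theorem domI_iff (he : ∀ x, e x < c) (he' : ∀ i < c, ∃ x, e x = i) (j : GV P)
    (v : ℕ) : domI P D c (cellOf P j) v ↔ ∃ y : GW C P D, varL y = j ∧ valOf e y = v := by
  rcases j with i | i | _ | _ | _ | k
  · have hi := i.2
    have h1 : domI P D c (11 + (i : ℕ)) v ↔ v < D := by
      unfold domI; omega
    show domI P D c (11 + (i : ℕ)) v ↔ _
    rw [h1]
    constructor
    · intro h; exact ⟨.td i ⟨v, h⟩, rfl, rfl⟩
    · rintro ⟨y, hy, rfl⟩
      rcases y with ⟨i', v'⟩ | ⟨i', v'⟩ | m | m | b | ⟨k, o⟩ <;> simp [varL] at hy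
      exact v'.2
  · have hi := i.2
    have h1 : domI P D c (11 + P + (i : ℕ)) v ↔ v < D := by
      unfold domI; omega
    show domI P D c (11 + P + (i : ℕ)) v ↔ _
    rw [h1]
    constructor
    · intro h; exact ⟨.pd i ⟨v, h⟩, rfl, rfl⟩
    · rintro ⟨y, hy, rfl⟩
      rcases y with ⟨i', v'⟩ | ⟨i', v'⟩ | m | m | b | ⟨k, o⟩ <;> simp [varL] at hy
      exact v'.2
  · have h1 : domI P D c (13 + 2 * P) v ↔ v < P := by
      unfold domI; omega
    show domI P D c (13 + 2 * P) v ↔ _
    rw [h1]
    constructor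
    · intro h; exact ⟨.mt ⟨v, h⟩, rfl, rfl⟩
    · rintro ⟨y, hy, rfl⟩
      rcases y with ⟨i', v'⟩ | ⟨i', v'⟩ | m | m | b | ⟨k, o⟩ <;> simp [varL] at hy
      exact m.2
  · have h1 : domI P D c (14 + 2 * P) v ↔ v < P + 2 := by
      unfold domI; omega
    show domI P D c (14 + 2 * P) v ↔ _
    rw [h1]
    constructor
    · intro h; exact ⟨.mp ⟨v, h⟩, rfl, rfl⟩
    · rintro ⟨y, hy, rfl⟩
      rcases y with ⟨i', v'⟩ | ⟨i', v'⟩ | m | m | b | ⟨k, o⟩ <;> simp [varL] at hy
      exact m.2
  · have h1 : domI P D c (15 + 2 * P) v ↔ v < 2 := by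
      unfold domI; omega
    show domI P D c (15 + 2 * P) v ↔ _
    rw [h1]
    constructor
    · intro h
      rcases v with _ | _ | v
      · exact ⟨.zf false, rfl, rfl⟩
      · exact ⟨.zf true, rfl, rfl⟩
      · omega
    · rintro ⟨y, hy, rfl⟩
      rcases y with ⟨i', v'⟩ | ⟨i', v'⟩ | m | m | b | ⟨k, o⟩ <;> simp [varL] at hy
      rcases b <;> simp [valOf]
  · have hk := k.2
    have h1 : domI P D c (16 + 2 * P + (k : ℕ)) v ↔ v < c + 1 := by
      unfold domI; omega
    show domI P D c (16 + 2 * P + (k : ℕ)) v ↔ _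
    rw [h1]
    constructor
    · intro h
      obtain ⟨o, ho⟩ := oc_surj he' h
      exact ⟨.cell k o, rfl, ho⟩
    · rintro ⟨y, hy, rfl⟩
      rcases y with ⟨i', v'⟩ | ⟨i', v'⟩ | m | m | b | ⟨k', o⟩ <;> simp [varL] at hy
      exact oc_lt he o

private theorem curI_curN (q1 q2 q3 q4 q5 : ℕ) (x : GW C P D) :
    curI F acc e P q1 q2 q3 q4 q5 (cellOf P (varL x)) (valOf e x) ↔
      curN F acc e (q1, q2, q3, q4, q5) (cGW e x) := by
  rcases x with ⟨i, v⟩ | ⟨i, v⟩ | m | m | b | ⟨k, o⟩
  · have hi := i.2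
    simp only [curI, curN, cGW, cellOf, valOf, varL]
    constructor
    · rintro (h | h | h | h | h)
      all_goals first | (exfalso; omega) | skip
      exact Or.inr (Or.inl ⟨h.1, trivial, by omega, h.2.2.2⟩)
    · rintro (h | h | h | h | h)
      all_goals first | (exfalso; omega) | skip
      exact Or.inr (Or.inl ⟨h.1, by omega, by omega, h.2.2.2⟩)
  · have hi := i.2
    simp only [curI, curN, cGW, cellOf, valOf, varL]
    constructor
    · rintro (h | h | h | h | h)
      all_goals first | (exfalso; omega) | skip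
      exact Or.inr (Or.inr (Or.inl ⟨h.1, trivial, by omega, h.2.2.2⟩))
    · rintro (h | h | h | h | h)
      all_goals first | (exfalso; omega) | skip
      exact Or.inr (Or.inr (Or.inl ⟨h.1, by omega, by omega, h.2.2.2⟩))
  · simp only [curI, curN, cGW, cellOf, valOf, varL]
    constructor
    · rintro (h | h | h | h | h)
      all_goals (exfalso; omega)
    · rintro (h | h | h | h | h)
      all_goals (exfalso; omega)
  · simp only [curI, curN, cGW, cellOf, valOf, varL]
    constructor
    · rintro (h | h | h | h | h)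
      all_goals (exfalso; omega)
    · rintro (h | h | h | h | h)
      all_goals (exfalso; omega)
  · simp only [curI, curN, cGW, cellOf, valOf, varL]
    constructor
    · rintro (h | h | h | h | h)
      all_goals first | (exfalso; omega) | skip
      exact Or.inl ⟨trivial, h.2⟩
    · rintro (h | h | h | h | h)
      all_goals first | (exfalso; omega) | skip
      exact Or.inl ⟨trivial, h.2⟩
  · have hk := k.2
    simp only [curI, curN, cGW, cellOf, valOf, varL]
    constructor
    · rintro (h | h | h | h | h)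
      all_goals first | (exfalso; omega) | skip
      · exact Or.inr (Or.inr (Or.inr (Or.inl ⟨h.1, trivial, by omega, h.2.2.2⟩)))
      · exact Or.inr (Or.inr (Or.inr (Or.inr ⟨h.1, trivial, by omega, h.2.2.2⟩)))
    · rintro (h | h | h | h | h)
      all_goals first | (exfalso; omega) | skip
      · exact Or.inr (Or.inr (Or.inr (Or.inl ⟨h.1, by omega, by omega, h.2.2.2⟩)))
      · exact Or.inr (Or.inr (Or.inr (Or.inr ⟨h.1, by omega, by omega, h.2.2.2⟩)))

theorem curI_iff (he : Function.Injective e) (q : GQ C P D) (x : GW C P D) :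
    curI F acc e P (cGQ e q).1 (cGQ e q).2.1 (cGQ e q).2.2.1 (cGQ e q).2.2.2.1
      (cGQ e q).2.2.2.2 (cellOf P (varL x)) (valOf e x) ↔ curL F acc q x := by
  rw [curI_curN]
  exact curN_iff he F acc q x

private theorem nxtI_nxtN (q1 q2 q3 q4 q5 : ℕ) (x : GW C P D) :
    nxtI P D cb row q1 q2 q3 q4 q5 (cellOf P (varL x)) (valOf e x) ↔
      nxtN P D cb row (q1, q2, q3, q4, q5) (cGW e x) := by
  rcases x with ⟨i, v⟩ | ⟨i, v⟩ | m | m | b | ⟨k, o⟩
  · have hi := i.2
    simp only [nxtI, nxtN, cGW, cellOf, valOf, varL]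
    constructor
    · rintro (h | h | h | h | h | h | h | h | h | h | h)
      all_goals first | (exfalso; omega) | skip
      · exact Or.inr (Or.inl ⟨h.1, trivial, by omega, h.2.2.2⟩)
      · exact Or.inr (Or.inr (Or.inr (Or.inr (Or.inr (Or.inr (Or.inl ⟨h.1, trivial, by omega, h.2.2.2⟩))))))
    · rintro (h | h | h | h | h | h | h | h | h | h | h | h | h)
      all_goals first | (exfalso; omega) | skip
      · exact Or.inr (Or.inl ⟨h.1, by omega, by omega, h.2.2.2⟩)
      · exact Or.inr (Or.inr (Or.inr (Or.inr (Or.inr (Or.inr (Or.inl ⟨h.1, by omega, by omega, h.2.2.2⟩))))))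
  · have hi := i.2
    simp only [nxtI, nxtN, cGW, cellOf, valOf, varL]
    constructor
    · rintro (h | h | h | h | h | h | h | h | h | h | h)
      all_goals first | (exfalso; omega) | skip
      · exact Or.inr (Or.inr (Or.inr (Or.inl ⟨h.1, trivial, by omega, h.2.2.2⟩)))
      · refine Or.inr (Or.inr (Or.inr (Or.inr (Or.inr (Or.inr (Or.inr (Or.inr (Or.inl ⟨h.1, trivial, ?_⟩))))))))
        unfold offN
        omega
      · exact Or.inr (Or.inr (Or.inr (Or.inr (Or.inr (Or.inr (Or.inr (Or.inr (Or.inr (Or.inr (Or.inr (Or.inl ⟨h.1, trivial, by omega, h.2.2.2⟩)))))))))))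
    · rintro (h | h | h | h | h | h | h | h | h | h | h | h | h)
      all_goals first | (exfalso; omega) | skip
      · exact Or.inr (Or.inr (Or.inr (Or.inl ⟨h.1, by omega, by omega, h.2.2.2⟩)))
      · refine Or.inr (Or.inr (Or.inr (Or.inr (Or.inr (Or.inr (Or.inr (Or.inl ⟨h.1, ?_⟩)))))))
        have h2 := h.2.2
        unfold offN at h2
        omega
      · exact Or.inr (Or.inr (Or.inr (Or.inr (Or.inr (Or.inr (Or.inr (Or.inr (Or.inr (Or.inl ⟨h.1, by omega, by omega, h.2.2.2⟩)))))))))
  · simp only [nxtI, nxtN, cGW, cellOf, valOf, varL]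
    constructor
    · rintro (h | h | h | h | h | h | h | h | h | h | h)
      all_goals first | (exfalso; omega) | skip
      exact Or.inl ⟨h.1, trivial, h.2.2⟩
    · rintro (h | h | h | h | h | h | h | h | h | h | h | h | h)
      all_goals first | (exfalso; omega) | skip
      exact Or.inl ⟨h.1, trivial, h.2.2⟩
  · simp only [nxtI, nxtN, cGW, cellOf, valOf, varL]
    constructor
    · rintro (h | h | h | h | h | h | h | h | h | h | h)
      all_goals first | (exfalso; omega) | skip
      exact Or.inr (Or.inr (Or.inl ⟨h.1, trivial, h.2.2⟩))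
    · rintro (h | h | h | h | h | h | h | h | h | h | h | h | h)
      all_goals first | (exfalso; omega) | skip
      exact Or.inr (Or.inr (Or.inl ⟨h.1, trivial, h.2.2⟩))
  · simp only [nxtI, nxtN, cGW, cellOf, valOf, varL]
    constructor
    · rintro (h | h | h | h | h | h | h | h | h | h | h)
      all_goals first | (exfalso; omega) | skip
      rcases h.1 with h1 | h1 | h1
      · exact Or.inr (Or.inr (Or.inr (Or.inr (Or.inr (Or.inl ⟨h1, trivial, h.2.2⟩)))))
      · exact Or.inr (Or.inr (Or.inr (Or.inr (Or.inr (Or.inr (Or.inr (Or.inl ⟨h1, trivial, h.2.2⟩)))))))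
      · exact Or.inr (Or.inr (Or.inr (Or.inr (Or.inr (Or.inr (Or.inr (Or.inr (Or.inr (Or.inr (Or.inl ⟨h1, trivial, h.2.2⟩))))))))))
    · rintro (h | h | h | h | h | h | h | h | h | h | h | h | h)
      all_goals first | (exfalso; omega) | skip
      · exact Or.inr (Or.inr (Or.inr (Or.inr (Or.inr (Or.inl ⟨Or.inl h.1, trivial, h.2.2⟩)))))
      · exact Or.inr (Or.inr (Or.inr (Or.inr (Or.inr (Or.inl ⟨Or.inr (Or.inl h.1), trivial, h.2.2⟩)))))
      · exact Or.inr (Or.inr (Or.inr (Or.inr (Or.inr (Or.inl ⟨Or.inr (Or.inr h.1), trivial, h.2.2⟩)))))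
  · have hk := k.2
    simp only [nxtI, nxtN, cGW, cellOf, valOf, varL]
    constructor
    · rintro (h | h | h | h | h | h | h | h | h | h | h)
      all_goals first | (exfalso; omega) | skip
      · exact Or.inr (Or.inr (Or.inr (Or.inr (Or.inl ⟨h.1, trivial, by omega⟩))))
      · exact Or.inr (Or.inr (Or.inr (Or.inr (Or.inr (Or.inr (Or.inr (Or.inr (Or.inr (Or.inl ⟨h.1, trivial, by omega, h.2.2.2⟩)))))))))
      · exact Or.inr (Or.inr (Or.inr (Or.inr (Or.inr (Or.inr (Or.inr (Or.inr (Or.inr (Or.inr (Or.inr (Or.inr ⟨h.1, trivial, by omega, h.2.2.2⟩)))))))))))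
    · rintro (h | h | h | h | h | h | h | h | h | h | h | h | h)
      all_goals first | (exfalso; omega) | skip
      · exact Or.inr (Or.inr (Or.inr (Or.inr (Or.inl ⟨h.1, by omega⟩))))
      · exact Or.inr (Or.inr (Or.inr (Or.inr (Or.inr (Or.inr (Or.inr (Or.inr (Or.inl ⟨h.1, by omega, by omega, h.2.2.2⟩))))))))
      · exact Or.inr (Or.inr (Or.inr (Or.inr (Or.inr (Or.inr (Or.inr (Or.inr (Or.inr (Or.inr ⟨h.1, by omega, by omega, h.2.2.2⟩)))))))))

theorem nxtI_iff (he : Function.Injective e) {blank : C} {row0 : ℤ → C}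
    (hcb : cb = oc e (some blank))
    (hrow : ∀ (a : Fin D) (k : Fin 3) (c : Option C),
      row a k (oc e c) ↔ c = some (row0 ((a : ℕ) + (k : ℕ) - 2)))
    (q : GQ C P D) (x : GW C P D) :
    nxtI P D cb row (cGQ e q).1 (cGQ e q).2.1 (cGQ e q).2.2.1 (cGQ e q).2.2.2.1
      (cGQ e q).2.2.2.2 (cellOf P (varL x)) (valOf e x) ↔ nxtL blank row0 q x := by
  rw [nxtI_nxtN]
  exact nxtN_iff he blank row0 hcb row hrow q x

private theorem cellOf_bd (j : GV P) : 11 ≤ cellOf P j ∧ cellOf P j < 19 + 2 * P := by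
  rcases j with i | i | _ | _ | _ | k
  · have hi := i.2
    simp only [cellOf]; omega
  · have hi := i.2
    simp only [cellOf]; omega
  · simp only [cellOf]; omega
  · simp only [cellOf]; omega
  · simp only [cellOf]; omega
  · have hk := k.2
    simp only [cellOf]; omega

private theorem cellOf_surj {i : ℕ} (h1 : 11 ≤ i) (h2 : i < 19 + 2 * P) : ∃ j : GV P, cellOf P j = i := by
  by_cases h3 : i < 11 + P
  · exact ⟨.td ⟨i - 11, by omega⟩, by simp only [cellOf]; omega⟩
  by_cases h4 : i < 13 + 2 * P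
  · exact ⟨.pd ⟨i - 11 - P, by omega⟩, by simp only [cellOf]; omega⟩
  by_cases h5 : i = 13 + 2 * P
  · exact ⟨.mt, h5.symm⟩
  by_cases h6 : i = 14 + 2 * P
  · exact ⟨.mp, h6.symm⟩
  by_cases h7 : i = 15 + 2 * P
  · exact ⟨.zf, h7.symm⟩
  exact ⟨.cell ⟨i - (16 + 2 * P), by omega⟩, by simp only [cellOf]; omega⟩

private theorem cellOf_inj {j j' : GV P} (h : cellOf P j = cellOf P j') : j = j' := by
  rcases j with i | i | _ | _ | _ | k <;> rcases j' with i' | i' | _ | _ | _ | k' <;>
    simp only [cellOf] at h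
  all_goals first
    | rfl
    | (exfalso; omega)
    | (congr 1; exact Fin.ext (by omega))

private theorem curI_bd {q1 q2 q3 q4 q5 i v : ℕ} (h : curI F acc e P q1 q2 q3 q4 q5 i v) :
    11 ≤ i ∧ i < 19 + 2 * P := by
  unfold curI at h
  rcases h with h | h | h | h | h <;> omega

private theorem nxtI_bd {q1 q2 q3 q4 q5 i v : ℕ} (h : nxtI P D cb row q1 q2 q3 q4 q5 i v) :
    11 ≤ i ∧ i < 19 + 2 * P := by
  unfold nxtI at h
  rcases h with h | h | h | h | h | h | h | h | h | h | h <;> omega

private theorem radix {V a b : ℕ} (hb : b < V) : (a * V + b) / V = a ∧ (a * V + b) % V = b := by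
  have hV : 0 < V := by omega
  constructor
  · rw [Nat.add_comm, Nat.add_mul_div_right _ _ hV, Nat.div_eq_of_lt hb, Nat.zero_add]
  · rw [Nat.add_comm, Nat.add_mul_mod_self_right, Nat.mod_eq_of_lt hb]

private theorem radix_lt {V A a b : ℕ} (ha : a < A) (hb : b < V) : a * V + b < A * V := by
  calc a * V + b < a * V + V := by omega
    _ = (a + 1) * V := by ring
    _ ≤ A * V := Nat.mul_le_mul_right _ ha

/-- the number of a clause -/
private def numQ (V : ℕ) (x : ℕ × ℕ × ℕ × ℕ × ℕ) : ℕ :=
  (((x.1 * 3 + x.2.1) * V + x.2.2.1) * V + x.2.2.2.1) * V + x.2.2.2.2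

private theorem qd_numQ {V : ℕ} {x : ℕ × ℕ × ℕ × ℕ × ℕ} (h2 : x.2.1 < 3) (h3 : x.2.2.1 < V)
    (h4 : x.2.2.2.1 < V) (h5 : x.2.2.2.2 < V) : qd V (numQ V x) = x := by
  obtain ⟨x1, x2, x3, x4, x5⟩ := x
  simp only at h2 h3 h4 h5
  unfold qd numQ
  simp only [(radix (a := ((x1 * 3 + x2) * V + x3) * V + x4) h5).1,
    (radix (a := ((x1 * 3 + x2) * V + x3) * V + x4) h5).2, (radix (a := (x1 * 3 + x2) * V + x3) h4).1,
    (radix (a := (x1 * 3 + x2) * V + x3) h4).2, (radix (a := x1 * 3 + x2) h3).1,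
    (radix (a := x1 * 3 + x2) h3).2, (radix (a := x1) h2).1, (radix (a := x1) h2).2]

private theorem numQ_lt {V : ℕ} {x : ℕ × ℕ × ℕ × ℕ × ℕ} (h1 : x.1 < 6) (h2 : x.2.1 < 3) (h3 : x.2.2.1 < V)
    (h4 : x.2.2.2.1 < V) (h5 : x.2.2.2.2 < V) : numQ V x < 6 * 3 * V * V * V :=
  radix_lt (radix_lt (radix_lt (radix_lt h1 h2) h3) h4) h5

private theorem vGQ_bd {x : ℕ × ℕ × ℕ × ℕ × ℕ} (h : vGQ P D c x) : x.1 < 6 ∧ x.2.1 < 3 ∧
    x.2.2.1 < P + D + c + 3 ∧ x.2.2.2.1 < P + D + c + 3 ∧ x.2.2.2.2 < P + D + c + 3 := by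
  unfold vGQ at h
  obtain ⟨h0, h⟩ := h
  rcases h with h | h | h | h | h | h <;> omega

private theorem cGQ_opt (q : GQ C P D) : (cGQ e q).2.1 = (optL q : ℕ) := by
  rcases q with _ | _ | _ | _ | _ | _ <;> rfl

private theorem init_cell (hP : 0 < P) (hD : 0 < D) (j : GV P) :
    (if 11 ≤ cellOf P j ∧ cellOf P j < 11 + P then D - 1 else 0) = valOf e (initL (C := C) hP hD j) := by
  rcases j with i | i | _ | _ | _ | k
  · have hi := i.2
    have h : 11 ≤ cellOf P (.td i) ∧ cellOf P (.td i) < 11 + P := by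
      simp only [cellOf]; omega
    rw [if_pos h]
    rfl
  · have hi := i.2
    have h : ¬ (11 ≤ cellOf P (.pd i) ∧ cellOf P (.pd i) < 11 + P) := by
      simp only [cellOf]; omega
    rw [if_neg h]
    rfl
  · have h : ¬ (11 ≤ cellOf P .mt ∧ cellOf P .mt < 11 + P) := by
      simp only [cellOf]; omega
    rw [if_neg h]
    rfl
  · have h : ¬ (11 ≤ cellOf P .mp ∧ cellOf P .mp < 11 + P) := by
      simp only [cellOf]; omega
    rw [if_neg h]
    rfl
  · have h : ¬ (11 ≤ cellOf P .zf ∧ cellOf P .zf < 11 + P) := by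
      simp only [cellOf]; omega
    rw [if_neg h]
    rfl
  · have h : ¬ (11 ≤ cellOf P (.cell k) ∧ cellOf P (.cell k) < 11 + P) := by
      simp only [cellOf]; omega
    rw [if_neg h]
    rfl

theorem gameNG_def_iff (he : Function.Injective e) (he1 : ∀ x, e x < c)
    (he2 : ∀ i < c, ∃ x, e x = i) {blank : C} {row0 : ℤ → C} (hP : 0 < P) (hD : 0 < D)
    (hcb : cb = oc e (some blank))
    (hrow : ∀ (a : Fin D) (k : Fin 3) (c : Option C),
      row a k (oc e c) ↔ c = some (row0 ((a : ℕ) + (k : ℕ) - 2))) :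
    (gameNG F acc e P D c cb row).Def ↔ (game F acc blank row0 P D hP hD).DefenderWins := by
  classical
  have hG : (gameNG F acc e P D c cb row).G = 10 * (P + 3) := rfl
  have hdom : ∀ i v, (gameNG F acc e P D c cb row).dom i v = true ↔ domI P D c i v := by
    intro i v
    simp only [gameNG, decide_eq_true_eq]
  constructor
  · rintro ⟨S, hi, hS1, hS2⟩
    refine ⟨{s | (∀ j, varL (s j) = j) ∧ ∃ x ∈ S, ∀ j, x (cellOf P j) = valOf e (s j)}, ?_, ?_, ?_⟩
    · refine ⟨fun j => ?_, _, hi, fun j => init_cell hP hD j⟩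
      rcases j with i | i | _ | _ | _ | k <;> rfl
    · rintro s ⟨hs, -⟩ j
      exact hs j
    · rintro s ⟨hs, x, hx, hsx⟩ b
      obtain ⟨x', hx', hT⟩ := hS2 x hx (b : ℕ) b.2
      have h1 : ∀ j : GV P, ∃ y : GW C P D, varL y = j ∧ valOf e y = x' (cellOf P j) := by
        intro j
        have h2 := cellOf_bd j
        have h3 := hS1 x' hx' (cellOf P j) (by rw [hG]; omega)
        rw [hdom] at h3
        exact (domI_iff he1 he2 j _).1 h3
      choose s' hs' hsx' using h1
      refine ⟨s', ⟨hs', x', hx', fun j => (hsx' j).symm⟩, ?_⟩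
      intro q hq
      have hv : vGQ P D c (cGQ e q) := (vGQ_iff he1 he2 _).2 ⟨q, rfl⟩
      obtain ⟨b1, b2, b3, b4, b5⟩ := vGQ_bd hv
      have hqd := qd_numQ b2 b3 b4 b5
      have hlt := numQ_lt b1 b2 b3 b4 b5
      have hopt : (optL q : ℕ) = b := congrArg Fin.val hq
      have hT' := hT (numQ (P + D + c + 3) (cGQ e q)) hlt
        (by simp only [gameNG, decide_eq_true_eq]; rw [hqd]; exact hv)
        (by simp only [gameNG]; rw [hqd, cGQ_opt]; exact hopt)
      rcases hT' with ⟨i, _, hc⟩ | ⟨i, _, hc⟩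
      · left
        simp only [gameNG, decide_eq_true_eq] at hc
        rw [hqd] at hc
        obtain ⟨j, rfl⟩ := cellOf_surj (P := P) (curI_bd hc).1 (curI_bd hc).2
        rw [hsx j] at hc
        have hc' : curI F acc e P (cGQ e q).1 (cGQ e q).2.1 (cGQ e q).2.2.1 (cGQ e q).2.2.2.1
            (cGQ e q).2.2.2.2 (cellOf P (varL (s j))) (valOf e (s j)) := by
          rw [hs j]; exact hc
        refine ⟨s j, (curI_iff he q (s j)).1 hc', ?_⟩
        show s (varL (s j)) = s j
        rw [hs j]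
      · right
        simp only [gameNG, decide_eq_true_eq] at hc
        rw [hqd] at hc
        obtain ⟨j, rfl⟩ := cellOf_surj (P := P) (nxtI_bd hc).1 (nxtI_bd hc).2
        rw [← hsx' j] at hc
        have hc' : nxtI P D cb row (cGQ e q).1 (cGQ e q).2.1 (cGQ e q).2.2.1 (cGQ e q).2.2.2.1
            (cGQ e q).2.2.2.2 (cellOf P (varL (s' j))) (valOf e (s' j)) := by
          rw [hs' j]; exact hc
        refine ⟨s' j, (nxtI_iff he hcb hrow q (s' j)).1 hc', ?_⟩
        show s' (varL (s' j)) = s' j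
        rw [hs' j]
  · rintro ⟨S, hi, hS1, hS2⟩
    have hS1' : ∀ s ∈ S, ∀ j, varL (s j) = j := hS1
    refine ⟨{x | (gameNG F acc e P D c cb row).Dm x ∧
      ∃ s ∈ S, ∀ j, x (cellOf P j) = valOf e (s j)}, ?_, ?_, ?_⟩
    · refine ⟨fun i _ => ?_, _, hi, fun j => init_cell hP hD j⟩
      rw [hdom]
      show domI P D c i (if 11 ≤ i ∧ i < 11 + P then D - 1 else 0)
      by_cases h : 11 ≤ i ∧ i < 11 + P
      · rw [if_pos h]
        unfold domI
        omega
      · rw [if_neg h]
        unfold domI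
        omega
    · rintro x ⟨hx, -⟩
      exact hx
    · rintro x ⟨hx, s, hs, hsx⟩ b hb
      obtain ⟨s', hs', hT⟩ := hS2 s hs ⟨b, hb⟩
      obtain ⟨x', hx'⟩ : ∃ x' : ℕ → ℕ, (∀ j, x' (cellOf P j) = valOf e (s' j)) ∧
          ∀ i, (∀ j : GV P, cellOf P j ≠ i) → x' i = 0 := by
        refine ⟨fun i => if h : ∃ j : GV P, cellOf P j = i then valOf e (s' h.choose) else 0,
          fun j => ?_, fun i hi => ?_⟩
        · have h : ∃ j' : GV P, cellOf P j' = cellOf P j := ⟨j, rfl⟩
          beta_reduce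
          rw [dif_pos h, cellOf_inj h.choose_spec]
        · beta_reduce
          rw [dif_neg]
          rintro ⟨j, hj⟩
          exact hi j hj
      refine ⟨x', ⟨?_, s', hs', hx'.1⟩, ?_⟩
      · intro i _
        rw [hdom]
        by_cases h : ∃ j : GV P, cellOf P j = i
        · obtain ⟨j, rfl⟩ := h
          exact (domI_iff he1 he2 j _).2 ⟨s' j, hS1' s' hs' j, (hx'.1 j).symm⟩
        · rw [hx'.2 i fun j hj => h ⟨j, hj⟩]
          have h3 : ¬ (11 ≤ i ∧ i < 19 + 2 * P) := fun h4 => h (cellOf_surj h4.1 h4.2)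
          unfold domI
          omega
      · intro q _ hvq hopt
        simp only [gameNG, decide_eq_true_eq] at hvq hopt
        obtain ⟨y, hy⟩ := (vGQ_iff he1 he2 _).1 hvq
        have hopt' : optL y = ⟨b, hb⟩ := by
          apply Fin.ext
          rw [← cGQ_opt (e := e), hy]
          exact hopt
        rcases hT y hopt' with ⟨w, hw, hsw⟩ | ⟨w, hw, hsw⟩
        · left
          have hsw' : s (varL w) = w := hsw
          refine ⟨cellOf P (varL w), ?_, ?_⟩
          · have := cellOf_bd (varL w)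
            rw [hG]
            omega
          · simp only [gameNG, decide_eq_true_eq]
            rw [hsx, hsw', ← hy]
            exact (curI_iff he y w).2 hw
        · right
          have hsw' : s' (varL w) = w := hsw
          refine ⟨cellOf P (varL w), ?_, ?_⟩
          · have := cellOf_bd (varL w)
            rw [hG]
            omega
          · simp only [gameNG, decide_eq_true_eq]
            rw [hx'.1, hsw', ← hy]
            exact (nxtI_iff he hcb hrow y w).2 hw

end Pool.Agent.MC95
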