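import Pool.Agent.MC95.GNum

/-!
# The numerical safety game satisfies the conditions

PLAN. All by case distinction and `omega`. `gameNG_esc`: `z (15 + 2 * P) = 1`, all other values `0`.
-/

namespace Pool.Agent.MC95

open Pool.Agent.MEternal Pool.Agent.MEternal.CAGame Pool.Agent.MEternal.Codes

variable {C : Type}

variable {F : C → C → C → C} {acc : C → Prop} {e : C → ℕ} {P D c cb : ℕ}
  {row : ℕ → ℕ → ℕ → Prop}

theorem gameNG_ok (hP : 0 < P) (hD : 0 < D) : (gameNG F acc e P D c cb row).Ok := by
  refine ⟨⟨P + 3, rfl⟩, ?_, ?_, ?_, ?_, ?_, ?_, ?_, ?_, ?_⟩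
  · change 30 ≤ 10 * (P + 3)
    omega
  · change 2 ≤ P + D + c + 3
    omega
  · intro i v h
    change v < P + D + c + 3
    simp only [gameNG, decide_eq_true_eq] at h
    unfold domI at h
    omega
  · intro i v hi
    simp only [gameNG, decide_eq_true_eq]
    unfold domI
    omega
  · intro i v hi
    change (1 ≤ i ∧ i ≤ 9) ∨ i + 1 = 10 * (P + 3) at hi
    simp only [gameNG, decide_eq_true_eq]
    unfold domI
    omega
  · intro i _
    simp only [gameNG, decide_eq_true_eq]
    unfold domI
    split_ifs with h <;> omega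
  · intro q
    change q / (P + D + c + 3) / (P + D + c + 3) / (P + D + c + 3) % 3 < 3
    exact Nat.mod_lt _ (by norm_num)
  · intro q i v h
    simp only [gameNG, decide_eq_true_eq] at h
    change 11 ≤ i ∧ i + 1 < 10 * (P + 3)
    unfold curI at h
    rcases h with h | h | h | h | h <;> omega
  · intro q i v h
    simp only [gameNG, decide_eq_true_eq] at h
    change 11 ≤ i ∧ i + 1 < 10 * (P + 3)
    unfold nxtI at h
    rcases h with h | ⟨_, h1, h2, _⟩ | h | ⟨_, h1, h2, _⟩ | h | h | h | h | ⟨_, h1, h2, _⟩ | h | h <;> omega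

theorem gameNG_esc (hP : 0 < P) (hD : 0 < D) : (gameNG F acc e P D c cb row).Esc := by
  refine ⟨fun i => if i = 15 + 2 * P then 1 else 0, ?_, ?_⟩
  · intro i _
    simp only [gameNG, decide_eq_true_eq]
    unfold domI
    split_ifs with h <;> omega
  · intro q _
    refine ⟨15 + 2 * P, ?_, ?_⟩
    · change 15 + 2 * P < 10 * (P + 3)
      omega
    · simp only [gameNG, decide_eq_true_eq]
      left
      simp

end Pool.Agent.MC95
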