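import Pool.Agent.MC95.BoardBits
import Pool.Agent.MC95.Forced

/-!
# Soundness of runs

PLAN. `run_sound`: induction on `mv`. `LB.stepOk` gives a possible jump `(p, s, e.v)` of the player
`c` (`canJump_of_caps`), inside the zone; `loc_jump` describes the board `b1` after it; by the last
part of `LB.stepOk` and `caps_of_canJump` the piece cannot jump on, so `legal_jump` says that `b1`
is a legal result. If the flag `u c` is set, then `caps_of_canJump` (with `dgs.all`) shows that this
is the only jump of the player `c`, and `legal_iff` with `J = {(p, s, e.v)}` that `b1` is the only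
legal result. Combine with `misere_white_iff` and `misere_black_iff` (White moves: if White wins at
`b1` then at `b`; if `b1` is the only result, then conversely; Black moves: if White wins at `b`
then at `b1`; if `b1` is the only result, then conversely).
`fork_sound`: the same with `J` consisting of two jumps. `no_jump`, `one_jump`: `caps_of_canJump`.
-/

namespace Pool.Agent.MC95

variable {f : Frame}

private lemma helper23_mem_dgs (e : Dg) : e ∈ dgs := by
  cases e <;> simp [dgs]

private lemma helper23_win_inj {s t : Square} (hs : f.InWin s) (ht : f.InWin t)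
    (h : ix (s.1 - f.X) (s.2 - f.Y) = ix (t.1 - f.X) (t.2 - f.Y)) : s = t := by
  have hz := f.hzl
  obtain ⟨a1, a2, a3, a4⟩ := hs
  obtain ⟨b1, b2, b3, b4⟩ := ht
  have := ix_inj (x := s.1 - f.X) (y := s.2 - f.Y) (x' := t.1 - f.X) (y' := t.2 - f.Y)
    (by omega) (by omega) (by omega) (by omega) (by omega) (by omega) h
  exact Prod.ext (by omega) (by omega)

private lemma helper23_zone {s : Square} (hs : f.InWin s)
    (h : f.Z.testBit (ix (s.1 - f.X) (s.2 - f.Y)) = true) : f.InZone s := by
  have hz := f.hzl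
  obtain ⟨a1, a2, a3, a4⟩ := hs
  unfold Frame.Z at h
  obtain ⟨x, y, h1, h2, h3, h4, -, h6⟩ := (testBit_zone _ _ _).1 h
  have h7 := ix_eq (x := s.1 - f.X) (y := s.2 - f.Y) (by omega) (by omega)
  rw [h6] at h7
  push_cast at h7
  refine ⟨?_, ?_, ?_, ?_⟩ <;> omega

private lemma helper23_bit {i j : ℕ} (h : (1 <<< i).testBit j = true) : i = j := by
  rw [Nat.one_shiftLeft, Nat.testBit_two_pow] at h
  simpa using h

private lemma helper23_bit_self (i : ℕ) : (1 <<< i).testBit i = true := by
  rw [Nat.one_shiftLeft, Nat.testBit_two_pow]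
  simp

private lemma helper23_step {L : LB} {c : Color} {u : Bool} {i : ℕ} {e : Dg}
    (h : L.stepOk f.F f.Z c u i e = true) {b : Board} (hb : Loc f L b) :
    ∃ p : Piece, ∃ s : Square, p.color = c ∧ f.InWin s ∧ i = ix (s.1 - f.X) (s.2 - f.Y) ∧
      CanJump f.N b p s e.v ∧ Loc f (L.jump c i e) (b.jump f.N p s e.v) ∧
      f.EqOff b (b.jump f.N p s e.v) ∧ p.crown f.N (s + e.v + e.v).2 = p ∧
      (∀ d', ¬ CanJump f.N (b.jump f.N p s e.v) p (s + e.v + e.v) d') ∧
      (u = true → ∀ e', L.caps f.F c e' = if e' = e then 1 <<< i else 0) := by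
  unfold LB.stepOk at h
  simp only [Bool.and_eq_true] at h
  obtain ⟨⟨⟨⟨h1, h2⟩, h3⟩, h4⟩, h5⟩ := h
  have hu : u = true → ∀ e', L.caps f.F c e' = if e' = e then 1 <<< i else 0 := by
    intro hu e'
    rw [if_pos hu, List.all_eq_true] at h1
    exact of_decide_eq_true (h1 e' (helper23_mem_dgs e'))
  have hcap : (L.caps f.F c e).testBit i = true := by
    by_cases hu' : u = true
    · rw [hu hu' e, if_pos rfl]
      exact helper23_bit_self i
    · rw [if_neg hu'] at h1
      exact h1
  obtain ⟨p, s, hp, hs, hs1, hs2, hi, hi1, hi2, hj⟩ := canJump_of_caps hb hcap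
  rw [hi2] at h4
  rw [hi1] at h3
  have z1 : f.InZone s := helper23_zone hs (by rw [← hi]; exact h2)
  have z2 : f.InZone (s + e.v) := helper23_zone hs1 h3
  have z3 : f.InZone (s + e.v + e.v) := helper23_zone hs2 h4
  have hl := loc_jump hb hj z1 z2 z3
  rw [hp, ← hi] at hl
  refine ⟨p, s, hp, hs, hi, hj, hl.1, hl.2.1, hl.2.2, ?_, hu⟩
  intro d' hd'
  obtain ⟨e', -, -, -, -, hbit, -, -⟩ := caps_of_canJump hl.1 hd'
  rw [List.all_eq_true] at h5
  have h6 := h5 e' (helper23_mem_dgs e')
  rw [hi2] at h6
  rw [hp] at hbit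
  rw [hbit] at h6
  simp at h6

/-- the legal moves if exactly one jump is possible -/
private lemma helper23_only {L : LB} {c : Color} {i : ℕ} {e : Dg} {b : Board} (hb : Loc f L b)
    (hc : ∀ e', L.caps f.F c e' = if e' = e then 1 <<< i else 0) {p : Piece} {s : Square}
    (hp : p.color = c) (hs : f.InWin s) (hi : i = ix (s.1 - f.X) (s.2 - f.Y))
    (hj : CanJump f.N b p s e.v) (hcr : p.crown f.N (s + e.v + e.v).2 = p)
    (hno : ∀ d', ¬ CanJump f.N (b.jump f.N p s e.v) p (s + e.v + e.v) d') (b' : Board) :
    Legal f.N c b b' ↔ b' = b.jump f.N p s e.v := by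
  rw [legal_iff ({(p, s, e.v)} : Set (Piece × Square × (ℤ × ℤ)))]
  · constructor
    · rintro ⟨p', s', d', hmem, rfl⟩
      rw [Set.mem_singleton_iff] at hmem
      obtain ⟨rfl, rfl, rfl⟩ : p' = p ∧ s' = s ∧ d' = e.v := by
        simpa [Prod.ext_iff, and_assoc] using hmem
      rfl
    · rintro rfl
      exact ⟨p, s, e.v, rfl, rfl⟩
  · intro p' s' d' hj' hp'
    obtain ⟨e', rfl, hs', -, -, hbit, -, -⟩ := caps_of_canJump hb hj'
    rw [hp', hc e'] at hbit
    by_cases he : e' = e
    · subst he
      rw [if_pos rfl] at hbit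
      have h1 := helper23_bit hbit
      rw [hi] at h1
      have h2 := helper23_win_inj hs hs' h1
      subst h2
      have h3 : some p' = some p := hj'.1.symm.trans hj.1
      rw [Option.some.injEq] at h3
      rw [h3]
      exact Set.mem_singleton _
    · rw [if_neg he] at hbit
      simp at hbit
  · rintro p' s' d' hmem
    rw [Set.mem_singleton_iff] at hmem
    obtain ⟨rfl, rfl, rfl⟩ : p' = p ∧ s' = s ∧ d' = e.v := by
      simpa [Prod.ext_iff, and_assoc] using hmem
    exact ⟨hj, hp, hcr, hno⟩
  · exact Set.singleton_nonempty _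

private lemma helper23_eqOff {b b1 b2 : Board} (h1 : f.EqOff b b1) (h2 : f.EqOff b1 b2) :
    f.EqOff b b2 := fun s hs => (h2 s hs).trans (h1 s hs)

/-- The only moves are the jumps that a local board allows. -/
theorem run_sound {L L' : LB} {c c' : Color} {u : Color → Bool} {mv : List (ℕ × Dg)}
    (h : LB.run f.F f.Z u c L mv = some (L', c')) {b : Board} (hb : Loc f L b) :
    ∃ b', Loc f L' b' ∧ f.EqOff b b' ∧
      (u .black = true → MisereWins f.N .white b' c' → MisereWins f.N .white b c) ∧
      (u .white = true → MisereWins f.N .white b c → MisereWins f.N .white b' c') := by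
  induction mv generalizing c L b with
  | nil =>
    have h1 : some (L, c) = some (L', c') := h
    rw [Option.some.injEq, Prod.mk.injEq] at h1
    obtain ⟨rfl, rfl⟩ := h1
    exact ⟨b, hb, fun _ _ => rfl, fun _ h => h, fun _ h => h⟩
  | cons a mv ih =>
    obtain ⟨i, e⟩ := a
    have h1 : (if L.stepOk f.F f.Z c (u c) i e then
      LB.run f.F f.Z u c.other (L.jump c i e) mv else none) = some (L', c') := h
    by_cases hst : L.stepOk f.F f.Z c (u c) i e = true
    · rw [if_pos hst] at h1
      obtain ⟨p, s, hp, hs, hi, hj, hl, heq, hcr, hno, hu⟩ := helper23_step hst hb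
      obtain ⟨b', hb', heq', hB, hW⟩ := ih h1 hl
      have hleg : Legal f.N c b (b.jump f.N p s e.v) := by
        have := legal_jump hj hno
        rwa [hp] at this
      refine ⟨b', hb', helper23_eqOff heq heq', ?_, ?_⟩
      · intro hub hw
        have hw1 := hB hub hw
        cases c with
        | white => exact misere_white_iff.2 (Or.inr ⟨_, hleg, hw1⟩)
        | black =>
          refine misere_black_iff.2 ⟨⟨_, hleg⟩, fun b'' hb'' => ?_⟩
          rw [(helper23_only hb (hu hub) hp hs hi hj hcr hno b'').1 hb'']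
          exact hw1
      · intro huw hw
        refine hW huw ?_
        cases c with
        | white =>
          rcases misere_white_iff.1 hw with h2 | ⟨b'', hb'', hw''⟩
          · exact absurd hleg (h2 _)
          · rw [(helper23_only hb (hu huw) hp hs hi hj hcr hno b'').1 hb''] at hw''
            exact hw''
        | black => exact (misere_black_iff.1 hw).2 _ hleg
    · rw [if_neg hst] at h1
      exact absurd h1 (by simp)

/-- A fork: exactly two jumps are possible. -/
theorem fork_sound {L : LB} {c : Color} {s1 s2 : ℕ} {d1 d2 : Dg}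
    (hc : ∀ e, L.caps f.F c e = (if e = d1 then 1 <<< s1 else 0) ||| (if e = d2 then 1 <<< s2 else 0))
    (h1 : L.stepOk f.F f.Z c false s1 d1 = true) (h2 : L.stepOk f.F f.Z c false s2 d2 = true)
    {b : Board} (hb : Loc f L b) :
    ∃ b1 b2, Loc f (L.jump c s1 d1) b1 ∧ f.EqOff b b1 ∧ Loc f (L.jump c s2 d2) b2 ∧
      f.EqOff b b2 ∧
      (c = .white → (MisereWins f.N .white b c ↔
        (MisereWins f.N .white b1 c.other ∨ MisereWins f.N .white b2 c.other))) ∧
      (c = .black → (MisereWins f.N .white b c ↔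
        (MisereWins f.N .white b1 c.other ∧ MisereWins f.N .white b2 c.other))) := by
  obtain ⟨p1, t1, hp1, ht1, hi1, hj1, hl1, heq1, hcr1, hno1, -⟩ := helper23_step h1 hb
  obtain ⟨p2, t2, hp2, ht2, hi2, hj2, hl2, heq2, hcr2, hno2, -⟩ := helper23_step h2 hb
  have hleg : ∀ b', Legal f.N c b b' ↔
      (b' = b.jump f.N p1 t1 d1.v ∨ b' = b.jump f.N p2 t2 d2.v) := by
    intro b'
    rw [legal_iff ({(p1, t1, d1.v), (p2, t2, d2.v)} : Set (Piece × Square × (ℤ × ℤ)))]
    · constructor
      · rintro ⟨p', s', d', hmem, rfl⟩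
        rw [Set.mem_insert_iff, Set.mem_singleton_iff] at hmem
        rcases hmem with hmem | hmem
        · obtain ⟨rfl, rfl, rfl⟩ : p' = p1 ∧ s' = t1 ∧ d' = d1.v := by
            simpa [Prod.ext_iff, and_assoc] using hmem
          exact Or.inl rfl
        · obtain ⟨rfl, rfl, rfl⟩ : p' = p2 ∧ s' = t2 ∧ d' = d2.v := by
            simpa [Prod.ext_iff, and_assoc] using hmem
          exact Or.inr rfl
      · rintro (rfl | rfl)
        · exact ⟨p1, t1, d1.v, Or.inl rfl, rfl⟩
        · exact ⟨p2, t2, d2.v, Or.inr rfl, rfl⟩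
    · intro p' s' d' hj' hp'
      obtain ⟨e', rfl, hs', -, -, hbit, -, -⟩ := caps_of_canJump hb hj'
      rw [hp', hc e', Nat.testBit_or, Bool.or_eq_true] at hbit
      rcases hbit with hbit | hbit
      · left
        by_cases he : e' = d1
        · subst he
          rw [if_pos rfl] at hbit
          have h1 := helper23_bit hbit
          rw [hi1] at h1
          have h2 := helper23_win_inj ht1 hs' h1
          subst h2
          have h3 : some p' = some p1 := hj'.1.symm.trans hj1.1
          rw [Option.some.injEq] at h3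
          rw [h3]
        · rw [if_neg he] at hbit
          simp at hbit
      · right
        by_cases he : e' = d2
        · subst he
          rw [if_pos rfl] at hbit
          have h1 := helper23_bit hbit
          rw [hi2] at h1
          have h2 := helper23_win_inj ht2 hs' h1
          subst h2
          have h3 : some p' = some p2 := hj'.1.symm.trans hj2.1
          rw [Option.some.injEq] at h3
          rw [h3]
          exact Set.mem_singleton _
        · rw [if_neg he] at hbit
          simp at hbit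
    · rintro p' s' d' hmem
      rw [Set.mem_insert_iff, Set.mem_singleton_iff] at hmem
      rcases hmem with hmem | hmem
      · obtain ⟨rfl, rfl, rfl⟩ : p' = p1 ∧ s' = t1 ∧ d' = d1.v := by
          simpa [Prod.ext_iff, and_assoc] using hmem
        exact ⟨hj1, hp1, hcr1, hno1⟩
      · obtain ⟨rfl, rfl, rfl⟩ : p' = p2 ∧ s' = t2 ∧ d' = d2.v := by
          simpa [Prod.ext_iff, and_assoc] using hmem
        exact ⟨hj2, hp2, hcr2, hno2⟩
    · exact ⟨_, Or.inl rfl⟩
  refine ⟨_, _, hl1, heq1, hl2, heq2, ?_, ?_⟩
  · rintro rfl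
    rw [misere_white_iff]
    constructor
    · rintro (h3 | ⟨b', hb', hw⟩)
      · exact absurd ((hleg _).2 (Or.inl rfl)) (h3 _)
      · rcases (hleg b').1 hb' with rfl | rfl
        · exact Or.inl hw
        · exact Or.inr hw
    · rintro (hw | hw)
      · exact Or.inr ⟨_, (hleg _).2 (Or.inl rfl), hw⟩
      · exact Or.inr ⟨_, (hleg _).2 (Or.inr rfl), hw⟩
  · rintro rfl
    rw [misere_black_iff]
    constructor
    · rintro ⟨-, hall⟩
      exact ⟨hall _ ((hleg _).2 (Or.inl rfl)), hall _ ((hleg _).2 (Or.inr rfl))⟩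
    · rintro ⟨hw1, hw2⟩
      refine ⟨⟨_, (hleg _).2 (Or.inl rfl)⟩, fun b' hb' => ?_⟩
      rcases (hleg b').1 hb' with rfl | rfl
      · exact hw1
      · exact hw2

/-- No jump is possible. -/
theorem no_jump {L : LB} {c : Color} (hc : ∀ e, L.caps f.F c e = 0) {b : Board} (hb : Loc f L b)
    {p : Piece} {s : Square} {d : ℤ × ℤ} (hp : p.color = c) : ¬ CanJump f.N b p s d := by
  intro hj
  obtain ⟨e, -, -, -, -, hbit, -, -⟩ := caps_of_canJump hb hj
  rw [hp, hc e] at hbit
  simp at hbit

/-- Exactly one jump is possible. -/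
theorem one_jump {L : LB} {c : Color} {i : ℕ} {e : Dg} (hi : f.F.testBit i = true)
    (hc : ∀ d, L.caps f.F c d = if d = e then 1 <<< i else 0) {b : Board} (hb : Loc f L b)
    {p : Piece} {s : Square} {d : ℤ × ℤ} (hp : p.color = c) (hj : CanJump f.N b p s d) :
    d = e.v ∧ f.InWin s ∧ ix (s.1 - f.X) (s.2 - f.Y) = i := by
  obtain ⟨e', rfl, hs, -, -, hbit, -, -⟩ := caps_of_canJump hb hj
  rw [hp, hc e'] at hbit
  by_cases he : e' = e
  · subst he
    rw [if_pos rfl] at hbit
    exact ⟨rfl, hs, (helper23_bit hbit).symm⟩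
  · rw [if_neg he] at hbit
    simp at hbit

end Pool.Agent.MC95
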