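import Pool.Agent.MC95.Sealed
import Pool.Agent.MC95.Win
import Pool.Agent.MC95.Run

/-!
# The gate, entered on track 0

PLAN. `gateF`: `b` is given by `PortE`; use the frame at `cG` with `Y = 12 + 8 * sg`, `zl = 5`, `zn = 21`,
`winEq_G`, `chk_GF` and `run_sound`; the resulting board is `Sealed`, the rows outside the window by
`PortE.high`. (The rows `R` and above outside of the window of the gate are those of
`C.g.kboard`, and there the rows `8 * sg + 12`, `8 * sg + 13` are full of White men.)
-/

namespace Pool.Agent.MC95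

variable {C : Circ} {κ : KC} {al xd kd : Bool}

/-! ### bits -/

private theorem gf_clr_bit (n i j : ℕ) :
    (if n.testBit i then n ^^^ (1 <<< i) else n).testBit j = (decide (j ≠ i) && n.testBit j) := by
  by_cases h : n.testBit i = true
  · rw [if_pos h, Nat.testBit_xor, Nat.one_shiftLeft, Nat.testBit_two_pow]
    by_cases h2 : j = i
    · subst h2; simp [h]
    · have h3 : ¬ i = j := fun h => h2 h.symm
      simp [h2, h3]
  · rw [if_neg h]
    by_cases h2 : j = i
    · subst h2; simpa using h
    · simp [h2]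

private theorem gf_set_bit (n i j : ℕ) :
    (n ||| (1 <<< i)).testBit j = (n.testBit j || decide (i = j)) := by
  rw [Nat.testBit_or, Nat.one_shiftLeft, Nat.testBit_two_pow]

private theorem gf_get_put (L : LB) (x y x' y' : ℤ) (o : Option Piece) (hx : -4 ≤ x)
    (hx1 : x ≤ 59) (hy : -6 ≤ y) (hx' : -4 ≤ x') (hx1' : x' ≤ 59) (hy' : -6 ≤ y') :
    (L.put x y o).get x' y' = if x' = x ∧ y' = y then o else L.get x' y' := by
  by_cases h : x' = x ∧ y' = y
  · obtain ⟨rfl, rfl⟩ := h
    rw [if_pos ⟨rfl, rfl⟩]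
    rcases o with _ | ⟨_ | _, _ | _⟩ <;>
      simp only [LB.put, LB.get, gf_clr_bit, gf_set_bit] <;> simp
  · have hne : ¬ ix x' y' = ix x y := fun h2 => h (ix_inj hx' hx1' hy' hx hx1 hy h2)
    have hne' : ¬ ix x y = ix x' y' := fun h2 => hne h2.symm
    rw [if_neg h]
    rcases o with _ | ⟨_ | _, _ | _⟩ <;>
      simp only [LB.put, LB.get, gf_clr_bit, gf_set_bit] <;> simp [hne, hne']

private theorem gf_rows (f : ℕ → ℕ) (lo n : ℕ) {a b : ℕ} (h1 : lo ≤ b) (h2 : b < lo + n)
    (h3 : (f b).testBit a = true) : (rows f lo n).testBit (a + 64 * b) = true := by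
  induction n with
  | zero => omega
  | succ n ih =>
    rw [rows, Nat.testBit_or, Bool.or_eq_true]
    rcases Nat.lt_or_ge b (lo + n) with h | h
    · exact Or.inl (ih h)
    · right
      have h4 : b = lo + n := by omega
      subst h4
      rw [Nat.testBit_shiftLeft]
      simp [h3]

private theorem gf_hiM {x y : ℤ} (hx : -4 ≤ x) (hx1 : x ≤ 28) (hy : 12 ≤ y) (hy1 : y ≤ 33) :
    hiM.testBit (ix x y) = true := by
  unfold hiM ix
  refine gf_rows _ _ _ (by omega) (by omega) ?_
  rw [Nat.testBit_two_pow_sub_one]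
  simp only [decide_eq_true_eq]
  omega

private theorem gf_full {lo n : ℕ} {x y : ℤ} (hx : -4 ≤ x) (hx1 : x ≤ 28) (hy : -6 ≤ y)
    (h1 : (lo : ℤ) ≤ y + 6) (h2 : y + 6 < lo + n) :
    (full lo n).testBit (ix x y) = true ↔ 2 ∣ x + y := by
  rw [testBit_full]
  constructor
  · rintro ⟨a, b, ha, hb1, hb2, hab, hi⟩
    have h3 := ix_eq hx hy
    rw [hi] at h3
    omega
  · intro h
    refine ⟨(x + 4).toNat, (y + 6).toNat, by omega, by omega, by omega, by omega, rfl⟩

private theorem gf_sub_testBit {a F : ℕ} (h : a ||| F = F) {i : ℕ} (hi : a.testBit i = true) :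
    F.testBit i = true := by
  rw [← h, Nat.testBit_or, hi, Bool.true_or]

private theorem gf_get_some_wf {F : ℕ} {L : LB} (h : L.wf F = true) {x y : ℤ} {p : Piece}
    (hp : L.get x y = some p) : F.testBit (ix x y) = true := by
  unfold LB.wf at h
  simp only [Bool.and_eq_true, decide_eq_true_eq] at h
  unfold LB.get at hp
  split_ifs at hp with h1 h2
  · exact gf_sub_testBit h.1.1.1 h1
  · exact gf_sub_testBit h.1.1.2 h2

private theorem gf_get_portE (L : LB) (a : ℤ) (t : ℕ) (x y : ℤ) (ha : -4 ≤ a) (ha1 : a ≤ 24)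
    (hx : -4 ≤ x) (hx1 : x ≤ 28) (hy : -6 ≤ y) :
    (L.portE a t).get x y = if x = a ∧ y = 8 * t then bm
      else if (x = a + 1 ∧ y = 8 * t + 1) ∨ (x = a + 2 ∧ y = 8 * t + 2) then none
      else L.get x y := by
  unfold LB.portE
  rw [gf_get_put _ _ _ _ _ _ (by omega) (by omega) (by omega) hx (by omega) hy,
    gf_get_put _ _ _ _ _ _ (by omega) (by omega) (by omega) hx (by omega) hy,
    gf_get_put _ _ _ _ _ _ (by omega) (by omega) (by omega) hx (by omega) hy]
  split_ifs <;> first | rfl | (exfalso; omega)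

/-! ### the upper rows -/

/-- the king of the gate -/
private def gf_ka (a : Bool) (L : LB) : LB := if a then L.put 15 19 wk else L.put 14 18 wk

private theorem gf_chk1 (a : Bool) : gf_ka a (stG.restr (full 3 25)) =
    (gf_ka a stG).restr (full 3 25) := by cases a <;> decide +kernel

/-- rows 14 and above -/
private def gf_M : ℕ := rows (fun _ => 2 ^ 33 - 1) 20 8

private theorem gf_chk2 (a : Bool) : (gf_ka a (stGs.restr (full 3 25))).restr gf_M =
    ((gf_ka a stG).restr (full 3 25)).restr gf_M := by cases a <;> decide +kernel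

/-- rows 12, 13 -/
private def gf_M' : ℕ := rows (fun _ => 2 ^ 33 - 1) 18 2

private theorem gf_chk3 (a : Bool) : (gf_ka a (stGs.restr (full 3 25))).restr gf_M' =
    ⟨full 18 2, 0, 0⟩ := by cases a <;> decide +kernel

private theorem gf_testM {x y : ℤ} (hx : -4 ≤ x) (hx1 : x ≤ 28) (hy : 14 ≤ y) (hy1 : y ≤ 21) :
    gf_M.testBit (ix x y) = true := by
  unfold gf_M ix
  refine gf_rows _ _ _ (by omega) (by omega) ?_
  rw [Nat.testBit_two_pow_sub_one]
  simp only [decide_eq_true_eq]
  omega

private theorem gf_testM' {x y : ℤ} (hx : -4 ≤ x) (hx1 : x ≤ 28) (hy : 12 ≤ y) (hy1 : y ≤ 13) :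
    gf_M'.testBit (ix x y) = true := by
  unfold gf_M' ix
  refine gf_rows _ _ _ (by omega) (by omega) ?_
  rw [Nat.testBit_two_pow_sub_one]
  simp only [decide_eq_true_eq]
  omega

/-- positions of the kings above the waves -/
private def gf_k (κ : KC) : KC := { κ with al := some true }

private theorem gf_default : OpOk 26 (default : Op) := by
  show OpOk 26 ⟨.blank, 0, 0, 0, false⟩
  unfold OpOk
  simp

/-- The tile in any column. -/
private theorem gf_op (hC : C.Ok) (c : ℕ) : OpOk C.g.sg (C.op c) := by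
  rcases Nat.lt_or_ge c C.g.ops.length with h | h
  · exact hC.tiles c h
  · have : C.op c = ⟨.blank, 0, 0, 0, false⟩ := by
      unfold Circ.op
      rw [List.getD_eq_default _ _ h]
      rfl
    rw [this]
    unfold OpOk
    simp

/-- no king in the rows `top`, `top + 1`; above only the kings of the gate and of the corner matter -/
private theorem gf_king (N cL : ℕ) {sg : ℕ} (hsg : 26 ≤ sg) {o : Op} (ho : OpOk sg o) (κ κ' : KC)
    (ha : κ.a = κ'.a) (ht : κ.tog = κ'.tog) (c x : ℕ) {y : ℕ} (hx : x < 28)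
    (hy : 12 + 8 * sg + 12 ≤ y) : kingAt N cL κ o c x y = kingAt N cL κ' o c x y := by
  obtain ⟨k, t, r, co, ini⟩ := o
  have hcor : ∀ κ : KC, ¬ (κ.x = some (28 * c + x - (28 * cL + 14)) ∧ 28 * cL + 14 ≤ 28 * c + x ∧
      1 ≤ co ∧ co ≤ 3 ∧ y = 12 + 8 * bT + corRow ⟨k, t, r, co, ini⟩ x) := by
    rintro κ ⟨-, -, -, -, h⟩
    have h2 : corRow ⟨k, t, r, co, ini⟩ x ≤ 24 := by
      unfold corRow
      split_ifs <;> omega
    unfold bT at h
    omega
  unfold kingAt
  rw [if_neg (hcor κ), if_neg (hcor κ')]
  unfold OpOk at ho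
  cases k <;> simp only at ho ⊢
  · rw [ht]
  · rw [if_neg (by omega), if_neg (by omega)]
  · rw [ha]
  · rw [if_neg (by omega), if_neg (by omega)]

private theorem gf_eb_eq (hC : C.Ok) {s : Square} (hs : C.top ≤ s.2) :
    C.eb al κ xd kd s = C.g.kboard C.cL (gf_k κ) s := by
  unfold Circ.eb Geo.eboard Geo.kboard
  by_cases hd : IsDark C.g.N s
  · rw [if_pos hd, if_pos hd]
    have hy : 12 + 8 * C.g.sg + 12 ≤ s.2.toNat := by
      unfold Circ.top at hs
      omega
    have hsg := hC.sg24
    have h1 : kingAt C.g.N C.cL (κ.dead xd kd) (C.g.ops.getD (s.1.toNat / 28) default)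
        (s.1.toNat / 28) (s.1.toNat % 28) s.2.toNat =
      kingAt C.g.N C.cL (gf_k κ) (C.g.ops.getD (s.1.toNat / 28) default)
        (s.1.toNat / 28) (s.1.toNat % 28) s.2.toNat :=
      gf_king C.g.N C.cL hsg (gf_op hC (s.1.toNat / 28)) (κ.dead xd kd) (gf_k κ) rfl rfl _ _
        (Nat.mod_lt _ (by norm_num)) hy
    have h2 : ecell C.g.N C.g.sg C.cN al (C.g.ops.getD (s.1.toNat / 28) default) (s.1.toNat / 28)
        (s.1.toNat % 28) s.2.toNat =
      cell C.g.N C.g.sg (C.g.ops.getD (s.1.toNat / 28) default) (s.1.toNat % 28) s.2.toNat := by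
      unfold ecell
      have hw : wtrk al ≤ 1 := by unfold wtrk; split_ifs <;> omega
      rw [if_neg (by omega), if_neg (by omega), if_neg (by omega), if_neg (by omega)]
    rw [h1, h2]
    generalize kingAt C.g.N C.cL (gf_k κ) (C.g.ops.getD (s.1.toNat / 28) default)
        (s.1.toNat / 28) (s.1.toNat % 28) s.2.toNat = w
    cases w <;> rfl
  · rw [if_neg hd, if_neg hd]

/-- The rows `top`, `top + 1` outside the tile of the gate. -/
private theorem gf_band (hC : C.Ok) {s : Square} (hd : IsDark C.g.N s)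
    (hs : s.2 = C.top ∨ s.2 = C.top + 1)
    (hz : ¬ (-2 ≤ s.1 - 28 * (C.cG : ℤ) ∧ s.1 - 28 * (C.cG : ℤ) ≤ 26)) :
    C.g.kboard C.cL (gf_k κ) s = wm := by
  unfold Geo.kboard
  rw [if_pos hd]
  obtain ⟨h0, h1, h2, h3, h4⟩ := hd
  have hy : s.2.toNat = 12 + 8 * C.g.sg + 12 ∨ s.2.toNat = 12 + 8 * C.g.sg + 13 := by
    unfold Circ.top at hs
    omega
  have hsg := hC.sg24
  have hsize := hC.size
  set c := s.1.toNat / 28 with hc
  set x := s.1.toNat % 28 with hx
  set y := s.2.toNat with hyd
  have hx28 : x < 28 := Nat.mod_lt _ (by norm_num)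
  have hcx : s.1.toNat = 28 * c + x := by omega
  have hNl : C.g.N = 28 * C.g.ops.length := rfl
  have hclen : c < C.g.ops.length := by omega
  have ho : OpOk C.g.sg (C.op c) := hC.tiles c hclen
  have hGne : (C.op c).kind = .G → ¬ (1 ≤ x ∧ x ≤ 23) := by
    intro hk hx2
    have := (hC.gate c hclen).1 hk
    apply hz
    omega
  have hop : C.g.ops.getD c default = C.op c := rfl
  rw [hop]
  generalize hoo : C.op c = o at ho hGne
  have hk1 : kingAt C.g.N C.cL (gf_k κ) o c x y = none := by
    obtain ⟨k, t, r, co, ini⟩ := o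
    have hcor : ¬ ((gf_k κ).x = some (28 * c + x - (28 * C.cL + 14)) ∧
        28 * C.cL + 14 ≤ 28 * c + x ∧
        1 ≤ co ∧ co ≤ 3 ∧ y = 12 + 8 * bT + corRow ⟨k, t, r, co, ini⟩ x) := by
      rintro ⟨-, -, -, -, h⟩
      have h2 : corRow ⟨k, t, r, co, ini⟩ x ≤ 24 := by
        unfold corRow
        split_ifs <;> omega
      unfold bT at h
      omega
    unfold kingAt
    rw [if_neg hcor]
    unfold OpOk at ho
    cases k <;> simp only at ho ⊢
    · rw [if_neg (by omega)]
    · rw [if_neg (by omega)]
    · rw [if_neg (by omega)]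
    · rw [if_neg (by omega)]
  rw [hk1]
  simp only
  unfold cell
  have hnt : ¬ o.InTile x y := by
    intro h
    unfold Op.InTile at h
    obtain ⟨h5, h6, h7, h8, h9, h10⟩ := h
    unfold OpOk at ho
    obtain ⟨k, t, r, co, ini⟩ := o
    cases k <;> first
      | exact absurd rfl h5
      | exact absurd rfl h6
      | exact hGne rfl ⟨h7, h8⟩
      | (simp only [Kind.ytop] at ho h9 h10; omega)
  rw [if_neg hnt, if_neg (by unfold bT; omega), if_neg (by unfold bT; omega),
    if_neg (by unfold bT; omega), if_neg (by omega), if_neg (by omega), if_neg (by omega),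
    if_neg (by omega), if_pos (by omega)]

theorem gateF (hC : C.Ok) (hx : C.XOk κ) :
    LoseFrom C.g.N C.top (C.eb al κ xd kd) C.cG C.g.sg := by
  intro b hb hwin
  have hsg := hC.sg24
  have hsize := hC.size
  have hNl : C.g.N = 28 * C.g.ops.length := rfl
  have hcG1 : 1 ≤ C.cG := by
    have h1 := hC.hB
    have h2 := hC.hBA
    have h3 := hC.hAL
    have h4 := hC.hLR
    have h5 := hC.hRN
    have h6 := hC.hNG
    omega
  have hcG2 := hC.hG
  let f : Frame :=
    { N := C.g.N, X := 28 * C.cG, Y := 12 + 8 * C.g.sg, zl := 5, zn := 21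
      hzl := by norm_num, hzn := by norm_num, hX := by omega, hX' := by omega,
      hY := by push_cast; omega, hY' := by push_cast; omega, hp := by omega }
  have hfX : f.X = 28 * (C.cG : ℤ) := rfl
  have hfY : f.Y = 12 + 8 * (C.g.sg : ℤ) := rfl
  have hfF : f.F = full 3 25 := rfl
  have hfZ : f.Z = zone 5 21 := rfl
  have hfN : f.N = C.g.N := rfl
  have hst : WinEq (C.eb al κ xd kd) C.cG C.g.sg 5 21 (gf_ka κ.a stG) := winEq_G hC hx
  have hchk := chk_GF κ.a
  unfold chkGF at hchk
  simp only [Bool.and_eq_true] at hchk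
  obtain ⟨hwf, hrun⟩ := hchk
  set L0 : LB := (gf_ka κ.a (stG.restr (full 3 25))).portE (-4) 0 with hL0
  have hL0' : L0 = ((gf_ka κ.a stG).restr (full 3 25)).portE (-4) 0 := by
    rw [hL0, gf_chk1]
  have hwf' : L0.wf (full 3 25) = true := hwf
  rcases hr : LB.run (full 3 25) (zone 5 21) uW .white L0 mvGF with _ | ⟨L', c'⟩
  · have hrun' : (match LB.run (full 3 25) (zone 5 21) uW .white L0 mvGF with
      | some (L', .white) => decide (L'.restr hiM = (gf_ka κ.a (stGs.restr (full 3 25))).restr hiM)
      | _ => false) = true := hrun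
    rw [hr] at hrun'
    simp at hrun'
  have hrun' : (match LB.run (full 3 25) (zone 5 21) uW .white L0 mvGF with
      | some (L', .white) => decide (L'.restr hiM = (gf_ka κ.a (stGs.restr (full 3 25))).restr hiM)
      | _ => false) = true := hrun
  rw [hr] at hrun'
  cases c' with
  | black => simp at hrun'
  | white =>
    simp only [decide_eq_true_eq] at hrun'
    have hloc : Loc f L0 b := by
      refine ⟨hwf', ?_, ?_⟩
      · intro s hs
        obtain ⟨h1, h2, h3, h4⟩ := hs
        rw [hfX] at h1 h2 ⊢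
        rw [hfY] at h3 h4 ⊢
        have e1 : (f.zl : ℤ) = 5 := rfl
        have e2 : (f.zn : ℤ) = 21 := rfl
        rw [e1] at h3 h4
        rw [e2] at h4
        obtain ⟨x, hx⟩ : ∃ x : ℤ, x = s.1 - 28 * (C.cG : ℤ) := ⟨_, rfl⟩
        obtain ⟨y, hy⟩ : ∃ y : ℤ, y = s.2 - (12 + 8 * (C.g.sg : ℤ)) := ⟨_, rfl⟩
        have hs' : s = (28 * (C.cG : ℤ) + x, 12 + 8 * (C.g.sg : ℤ) + y) := by
          ext
          · simp only; omega
          · simp only; omega
        rw [← hx] at h1 h2 ⊢
        rw [← hy] at h3 h4 ⊢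
        rw [hL0', gf_get_portE _ _ _ _ _ (by omega) (by omega) h1 h2 (by omega)]
        by_cases hpar : 2 ∣ x + y
        · rw [hb.right s (by omega), portMod]
          have hbase : C.eb al κ xd kd s = (gf_ka κ.a stG).get x y := by
            rw [hs']
            exact hst x y h1 h2 (by push_cast; omega) (by push_cast; omega)
          have hr : ((gf_ka κ.a stG).restr (full 3 25)).get x y = (gf_ka κ.a stG).get x y := by
            rw [get_restr, if_pos ((gf_full h1 h2 (by omega) (by omega) (by omega)).2 hpar)]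
          rw [hr, hbase]
          refine if_congr ?_ rfl (if_congr ?_ rfl rfl)
          · rw [hs', Prod.mk.injEq]
            push_cast
            omega
          · rw [hs', Prod.mk.injEq, Prod.mk.injEq]
            push_cast
            omega
        · have hbs : b s = none := by
            rcases hbs : b s with _ | p
            · rfl
            · have := (hb.dark s p hbs).2.2.2.2
              omega
          rw [hbs, if_neg (by omega), if_neg (by omega), get_restr, if_neg]
          intro h5
          exact hpar ((gf_full h1 h2 (by omega) (by omega) (by omega)).1 h5)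
      · intro p s d hj
        obtain ⟨-, h2, h3⟩ := hb.jump p s d hj
        right
        right
        rw [h2, h3]
        refine ⟨?_, ?_, ?_, ?_⟩ <;> simp only [f, Prod.fst_add, Prod.snd_add] <;>
          push_cast <;> omega
    obtain ⟨b', hb', heq, -, hW⟩ := run_sound (f := f) (u := uW) (by rw [hfF, hfZ]; exact hr) hloc
    have hwin' : MisereWins C.g.N .white b' .white := hW rfl hwin
    refine sealed_lose hC (b := b') ?_ .white hwin'
    -- squares of the zone
    have hzone : ∀ s, f.InZone s → (-2 ≤ s.1 - 28 * (C.cG : ℤ) ∧ s.1 - 28 * (C.cG : ℤ) ≤ 26 ∧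
        -1 ≤ s.2 - (12 + 8 * (C.g.sg : ℤ)) ∧ s.2 - (12 + 8 * (C.g.sg : ℤ)) ≤ 19) := by
      rintro s ⟨h1, h2, h3, h4⟩
      simp only [f] at h1 h2 h3 h4
      omega
    have hwinz : ∀ s, f.InZone s → f.InWin s := by
      rintro s ⟨h1, h2, h3, h4⟩
      refine ⟨?_, ?_, ?_, ?_⟩ <;> omega
    have htop : C.top = 12 + 8 * (C.g.sg : ℤ) + 12 := rfl
    refine ⟨?_, ?_, gf_k κ, ?_, ?_, ?_⟩
    · intro s p hs
      by_cases hz : f.InZone s
      · have hag := hb'.agree s (hwinz s hz)
        obtain ⟨h1, h2, h3, h4⟩ := hzone s hz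
        rw [hs, hfX, hfY] at hag
        have h5 := gf_get_some_wf hb'.wf hag.symm
        rw [hfF] at h5
        have h6 := (gf_full (lo := 3) (n := 25) (by omega) (by omega) (by omega)
          (by push_cast; omega) (by push_cast; omega)).1 h5
        refine ⟨?_, ?_, ?_, ?_, ?_⟩ <;> omega
      · rw [heq s hz] at hs
        exact hb.dark s p hs
    · intro s hd hs
      by_cases hz : f.InZone s
      · have hag := hb'.agree s (hwinz s hz)
        obtain ⟨h1, h2, h3, h4⟩ := hzone s hz
        rw [hfX, hfY] at hag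
        obtain ⟨x, hx⟩ : ∃ x : ℤ, x = s.1 - 28 * (C.cG : ℤ) := ⟨_, rfl⟩
        obtain ⟨y, hy⟩ : ∃ y : ℤ, y = s.2 - (12 + 8 * (C.g.sg : ℤ)) := ⟨_, rfl⟩
        rw [← hx, ← hy] at hag
        have hy' : 12 ≤ y ∧ y ≤ 13 := by omega
        have hpar : 2 ∣ x + y := by
          have := hd.2.2.2.2
          omega
        have e1 : L'.get x y = (gf_ka κ.a (stGs.restr (full 3 25))).get x y := by
          have a1 := get_restr L' hiM x y
          have a2 := get_restr (gf_ka κ.a (stGs.restr (full 3 25))) hiM x y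
          rw [if_pos (gf_hiM (by omega) (by omega) (by omega) (by omega))] at a1 a2
          rw [← a1, ← a2, hrun']
        have e2 : (gf_ka κ.a (stGs.restr (full 3 25))).get x y =
            (⟨full 18 2, 0, 0⟩ : LB).get x y := by
          have a2 := get_restr (gf_ka κ.a (stGs.restr (full 3 25))) gf_M' x y
          rw [if_pos (gf_testM' (by omega) (by omega) (by omega) (by omega))] at a2
          rw [← a2, gf_chk3]
        rw [hag, e1, e2]
        unfold LB.get
        simp only
        rw [if_pos ((gf_full (by omega) (by omega) (by omega) (by push_cast; omega)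
          (by push_cast; omega)).2 hpar)]
        simp
      · rw [heq s hz, hb.high s (by omega), gf_eb_eq hC (by omega)]
        refine gf_band hC hd hs ?_
        rintro ⟨h1, h2⟩
        apply hz
        refine ⟨?_, ?_, ?_, ?_⟩ <;> simp only [f] <;> push_cast <;> omega
    · exact hx
    · simp [gf_k]
    · intro s hs
      by_cases hz : f.InZone s
      · have hag := hb'.agree s (hwinz s hz)
        obtain ⟨h1, h2, h3, h4⟩ := hzone s hz
        rw [hfX, hfY] at hag
        obtain ⟨x, hx⟩ : ∃ x : ℤ, x = s.1 - 28 * (C.cG : ℤ) := ⟨_, rfl⟩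
        obtain ⟨y, hy⟩ : ∃ y : ℤ, y = s.2 - (12 + 8 * (C.g.sg : ℤ)) := ⟨_, rfl⟩
        have hs' : s = (28 * (C.cG : ℤ) + x, 12 + 8 * (C.g.sg : ℤ) + y) := by
          ext
          · simp only; omega
          · simp only; omega
        rw [← hx, ← hy] at hag
        have hy' : 14 ≤ y ∧ y ≤ 19 := by omega
        have e1 : L'.get x y = (gf_ka κ.a (stGs.restr (full 3 25))).get x y := by
          have a1 := get_restr L' hiM x y
          have a2 := get_restr (gf_ka κ.a (stGs.restr (full 3 25))) hiM x y
          rw [if_pos (gf_hiM (by omega) (by omega) (by omega) (by omega))] at a1 a2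
          rw [← a1, ← a2, hrun']
        have e2 : (gf_ka κ.a (stGs.restr (full 3 25))).get x y =
            ((gf_ka κ.a stG).restr (full 3 25)).get x y := by
          have a1 := get_restr (gf_ka κ.a (stGs.restr (full 3 25))) gf_M x y
          have a2 := get_restr ((gf_ka κ.a stG).restr (full 3 25)) gf_M x y
          rw [if_pos (gf_testM (by omega) (by omega) (by omega) (by omega))] at a1 a2
          rw [← a1, ← a2, gf_chk2]
        rw [hag, e1, e2, get_restr]
        by_cases hpar : 2 ∣ x + y
        · rw [if_pos ((gf_full (by omega) (by omega) (by omega) (by push_cast; omega)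
            (by push_cast; omega)).2 hpar)]
          rw [← gf_eb_eq (al := al) (xd := xd) (kd := kd) hC (by omega), hs']
          exact (hst x y (by omega) (by omega) (by push_cast; omega) (by push_cast; omega)).symm
        · rw [if_neg fun h5 => hpar ((gf_full (by omega) (by omega) (by omega)
            (by push_cast; omega) (by push_cast; omega)).1 h5)]
          unfold Geo.kboard
          rw [if_neg]
          rintro ⟨-, -, -, -, h5⟩
          omega
      · rw [heq s hz, hb.high s (by omega), gf_eb_eq hC (by omega)]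

end Pool.Agent.MC95
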