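import Pool.Agent.MEternal.Hard
import Pool.Agent.MC95.FLayout
import Pool.Agent.MC95.FEnc
import Pool.Agent.MC95.FInj
import Pool.Agent.MC95.GOk
import Pool.Agent.MC95.GDef

/-!
# Misère checkers is hard for exponential time

As `med_hard` in `Pool.Agent.MEternal.Hard`, with the complement of the set of accepting states.
-/

namespace Pool.Agent.MC95

open Turing Pool.Agent.MEternal Pool.Agent.MEternal.Codes

namespace GData

variable {C : Type} [Finite C] (A : GData C)

theorem ng_N (n : ℕ) (w : List Bool) : (A.ng n w).circ.g.N = A.N n := by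
  unfold GData.N
  rw [← A.length_layout n w]
  rfl

theorem out_eq (n : ℕ) (w : List Bool) :
    A.out n w = encode (A.ng n w).circ.g.N (A.ng n w).board .white := by
  rw [encode_board, ng_N]
  rfl

theorem out_mem (n : ℕ) (w : List Bool) (hP : 0 < A.P n) (hD : 0 < A.D n) :
    A.out n w ∈ MISERE ↔ ¬ (A.ng n w).Def := by
  rw [out_eq, encode_mem (board_valid _)]
  exact misere_iff _ (gameNG_ok hP hD) (gameNG_esc hP hD)

end GData

open CAGame in
/-- Every language in EXPTIME is reducible to MISÈRE CHECKERS in polynomial time. -/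
theorem misere_hard (L : Set (List Bool)) (hL : L ∈ EXPTIME) :
    ∃ f : List Bool → List Bool,
      Nonempty (TM2ComputableInPolyTime (id : List Bool → List Bool)
        (id : List Bool → List Bool) f) ∧ ∀ w, w ∈ L ↔ f w ∈ MISERE := by
  classical
  obtain ⟨Γ, Λ, iΓ, iΛ, fΓ, fΛ, M, enc, acc, p, hM⟩ := hL
  let _ : Fintype Γ := Fintype.ofFinite Γ
  let _ : Fintype Λ := Fintype.ofFinite Λ
  let C := Γ × Option Λ
  set c := Fintype.card C with hc
  let eC : C ≃ Fin c := Fintype.equivFin C
  let e : C → ℕ := fun x => (eC x : ℕ)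
  have he : Function.Injective e := fun x y h => eC.injective (Fin.ext h)
  have he1 : ∀ x, e x < c := fun x => (eC x).2
  have he2 : ∀ i < c, ∃ x, e x = i := fun i hi => ⟨eC.symm ⟨i, hi⟩, by simp [e]⟩
  let P : ℕ → ℕ := fun n => p.eval n + 2
  let D : ℕ → ℕ := fun n => n + 3
  have hP : ∀ n, 0 < P n := fun n => Nat.succ_pos _
  have hD : ∀ n, 0 < D n := fun n => Nat.succ_pos _
  let F := TMRow.caF M
  let ac : C → Prop := TMRow.caAcc M (fun q => q ∉ acc)
  let cb : ℕ := oc e (some (default, none))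
  let A : GData C :=
    { F := F
      acc := ac
      e := e
      cb := cb
      c := c
      P := P
      D := D
      row := fun n w => rowN e enc n w
      hP := (IsExpr.eval (IsExpr.var 0) p).add (IsExpr.const 2)
      hD := (IsExpr.var 0).add (IsExpr.const 3)
      hrow := fun a k d ha hk hd => isTest_rowN e enc (IsExpr.var 0) ha hk hd }
  refine ⟨fun w => A.out w.length w, A.out_polyTime, ?_⟩
  intro w
  obtain ⟨cf, ⟨hev⟩, hh, hw⟩ := hM w
  set n := w.length with hn
  let G := TMRow.tmGame M (fun q => q ∉ acc) (w.map enc) (P n) (D n) (hP n) (hD n)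
  have hwin : G.DefenderWins ↔ cf.q ∉ acc := by
    refine TMRow.tmGame_iff M (fun q => q ∉ acc) (w.map enc) (P n) (D n) (hP n) (hD n) ?_
      (t := hev.steps) ?_ hev.evals_in_steps hh
    · simp [D, hn]
    · refine hev.steps_le_m.trans ?_
      have h1 : (2 : ℕ) ^ p.eval n ≤ 3 ^ p.eval n := Nat.pow_le_pow_left (by omega) _
      have h2 : (3 : ℕ) ^ (p.eval n + 2) ≤ (n + 3) ^ (p.eval n + 2) :=
        Nat.pow_le_pow_left (by omega) _
      have h3 : 1 ≤ (3 : ℕ) ^ p.eval n := Nat.one_le_pow _ _ (by omega)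
      have h4 : (3 : ℕ) ^ (p.eval n + 2) = 9 * 3 ^ p.eval n := by ring
      show 2 ^ p.eval n ≤ (n + 3) ^ (p.eval n + 2) - 2
      omega
  have hdef : (A.ng n w).Def ↔ G.DefenderWins :=
    gameNG_def_iff (C := C) he he1 he2 (hP n) (hD n) rfl fun a k d =>
      rowN_iff he M enc w a k d
  show w ∈ L ↔ A.out n w ∈ MISERE
  rw [A.out_mem n w (hP n) (hD n), hdef, hwin, hw, not_not]

end Pool.Agent.MC95
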