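import Pool.Agent.MC95.HolesA

/-!
# Rooms and kings

PLAN. Arithmetic on the columns (`(28 * c + x) / 28 = c`, `(28 * c + x) % 28 = x` for `x < 28`),
unfolding `kingAt`, `Geo.kboard`, `Geo.board`. The columns of the corridor squares `xcell i`,
`i ≤ len`, have `cor` in `1, 2, 3` (`Circ.Ok.cor1`, `cor2`, `cor3`), so by `OpOk` their kind is not
Y, N1, G, first.
-/

namespace Pool.Agent.MC95

variable {C : Circ}

private lemma h63_corRow_in (o : Op) {x : ℕ} (hx : x < 27) :
    (corRow o (x + 1) : ℤ) - corRow o x = 1 ∨ (corRow o (x + 1) : ℤ) - corRow o x = -1 := by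
  unfold corRow
  by_cases hT : o.kind = .T
  · simp only [hT, true_and]
    split_ifs <;> omega
  · simp only [hT, false_and, if_false]
    split_ifs <;> omega

private lemma h63_corRow_step (op : ℕ → Op) (X : ℕ) :
    (corRow (op ((X + 1) / 28)) ((X + 1) % 28) : ℤ) - corRow (op (X / 28)) (X % 28) = 1 ∨
    (corRow (op ((X + 1) / 28)) ((X + 1) % 28) : ℤ) - corRow (op (X / 28)) (X % 28) = -1 := by
  rcases Nat.lt_or_ge (X % 28) 27 with h | h
  · have h1 : (X + 1) / 28 = X / 28 := by omega
    have h2 : (X + 1) % 28 = X % 28 + 1 := by omega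
    rw [h1, h2]
    exact h63_corRow_in _ h
  · have h1 : (X + 1) / 28 = X / 28 + 1 := by omega
    have h2 : (X + 1) % 28 = 0 := by omega
    have h3 : X % 28 = 27 := by omega
    rw [h1, h2, h3]
    unfold corRow
    rw [if_neg (by omega), if_neg (by omega), if_neg (by omega), if_pos (by omega)]
    left
    norm_num

/-- Consecutive squares of a room are diagonal neighbours. -/
theorem cell_adj (hC : C.Ok) :
    (∀ i < C.len, IsDiag (C.xcell (i + 1) - C.xcell i)) ∧
    (∀ c u, IsDiag (C.ycell c (!u) - C.ycell c u)) ∧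
    (∀ u, IsDiag (C.ncell (!u) - C.ncell u)) ∧ (∀ u, IsDiag (C.gcell (!u) - C.gcell u)) ∧
    (∀ u, IsDiag (C.tcell (!u) - C.tcell u)) := by
  refine ⟨?_, ?_, ?_, ?_, ?_⟩
  · intro i _
    have h := h63_corRow_step C.op (28 * C.cL + 14 + i)
    constructor
    · left
      simp only [Circ.xcell, Prod.fst_sub]
      push_cast
      ring
    · have e : (C.xcell (i + 1) - C.xcell i).2 =
          (corRow (C.op ((28 * C.cL + 14 + i + 1) / 28)) ((28 * C.cL + 14 + i + 1) % 28) : ℤ) -
            corRow (C.op ((28 * C.cL + 14 + i) / 28)) ((28 * C.cL + 14 + i) % 28) := by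
        simp only [Circ.xcell, Prod.snd_sub, Nat.add_assoc]
        push_cast
        ring
      rw [e]
      exact h
  · intro c u
    unfold IsDiag Circ.ycell
    cases u <;> simp
  · intro u
    unfold IsDiag Circ.ncell
    cases u <;> simp
  · intro u
    unfold IsDiag Circ.gcell
    cases u <;> simp
  · intro u
    unfold IsDiag Circ.tcell
    cases u <;> simp

private lemma h63_len (hC : C.Ok) : C.cR < C.g.ops.length := by
  have h1 := hC.hRN
  have h2 := hC.hNG
  have h3 := hC.hG
  omega

/-- The tiles of the corridor. -/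
private lemma h63_cor (hC : C.Ok) {i : ℕ} (hi : i ≤ C.len) :
    C.cL ≤ (28 * C.cL + 14 + i) / 28 ∧ (28 * C.cL + 14 + i) / 28 ≤ C.cR ∧
    (28 * C.cL + 14 + i) / 28 < C.g.ops.length ∧
    1 ≤ (C.op ((28 * C.cL + 14 + i) / 28)).cor ∧ (C.op ((28 * C.cL + 14 + i) / 28)).cor ≤ 3 := by
  have h1 := hC.hLR
  have h2 := h63_len hC
  unfold Circ.len at hi
  have h3 : C.cL ≤ (28 * C.cL + 14 + i) / 28 := by omega
  have h4 : (28 * C.cL + 14 + i) / 28 ≤ C.cR := by omega
  have h5 : (28 * C.cL + 14 + i) / 28 < C.g.ops.length := by omega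
  refine ⟨h3, h4, h5, ?_⟩
  generalize (28 * C.cL + 14 + i) / 28 = c at h3 h4 h5
  rcases Nat.eq_or_lt_of_le h3 with h6 | h6
  · have := (hC.cor2 c h5).2 h6.symm
    omega
  · rcases Nat.eq_or_lt_of_le h4 with h7 | h7
    · have := (hC.cor3 c h5).2 h7
      omega
    · have := (hC.cor1 c h5).2 ⟨h6, h7⟩
      omega

private lemma h63_Ycor (hC : C.Ok) {c : ℕ} (hc : c < C.g.ops.length) (hk : (C.op c).kind = .Y) :
    (C.op c).cor = 0 := by
  have h := hC.tiles c hc
  unfold OpOk at h
  rw [hk] at h
  exact h.2.2.2.1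

private lemma h63_N (hC : C.Ok) : (C.op C.cN).kind = .N1 ∧ (C.op C.cN).cor = 0 ∧
    C.cN < C.g.ops.length := by
  have h2 := hC.hNG
  have h3 := hC.hG
  have hlt : C.cN < C.g.ops.length := by omega
  have hk := (hC.n1 C.cN hlt).2 rfl
  have h := hC.tiles C.cN hlt
  unfold OpOk at h
  rw [hk] at h
  exact ⟨hk, h.2.2.2, hlt⟩

private lemma h63_G (hC : C.Ok) : (C.op C.cG).kind = .G ∧ (C.op C.cG).cor = 0 ∧
    (C.op C.cG).trk = C.g.sg ∧ C.cG < C.g.ops.length := by
  have h3 := hC.hG
  have hlt : C.cG < C.g.ops.length := by omega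
  have hk := (hC.gate C.cG hlt).2 rfl
  have h := hC.tiles C.cG hlt
  unfold OpOk at h
  rw [hk] at h
  exact ⟨hk, h.2.2.2.1, h.2.2.1, hlt⟩

private lemma h63_first (hC : C.Ok) : (C.op 0).kind = .first ∧ (C.op 0).cor = 0 := by
  have h3 := hC.hG
  have hlt : 0 < C.g.ops.length := by omega
  have hk := (hC.first 0 hlt).2 rfl
  have h := hC.tiles 0 hlt
  unfold OpOk at h
  rw [hk] at h
  exact ⟨hk, h.2.2.2⟩

/-- The squares of the rooms are different. -/
theorem cell_inj (hC : C.Ok) :
    (∀ i j, C.xcell i = C.xcell j → i = j) ∧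
    (∀ c c' u u', c < C.g.ops.length → c' < C.g.ops.length → (C.op c).kind = .Y →
      (C.op c').kind = .Y → C.ycell c u = C.ycell c' u' → c = c' ∧ u = u') ∧
    (∀ i ≤ C.len, (∀ c u, c < C.g.ops.length → (C.op c).kind = .Y → C.xcell i ≠ C.ycell c u) ∧
      (∀ u, C.xcell i ≠ C.ncell u) ∧ (∀ u, C.xcell i ≠ C.gcell u) ∧
      (∀ u, C.xcell i ≠ C.tcell u)) ∧
    (∀ c u, c < C.g.ops.length → (C.op c).kind = .Y → (∀ v, C.ycell c u ≠ C.ncell v) ∧
      (∀ v, C.ycell c u ≠ C.gcell v) ∧ (∀ v, C.ycell c u ≠ C.tcell v)) ∧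
    (∀ u v, C.ncell u ≠ C.gcell v) ∧ (∀ u v, C.ncell u ≠ C.tcell v) ∧
    (∀ u v, C.gcell u ≠ C.tcell v) := by
  have hLR := hC.hLR
  have hRN := hC.hRN
  have hNG := hC.hNG
  refine ⟨?_, ?_, ?_, ?_, ?_, ?_, ?_⟩
  · intro i j h
    have h1 := congrArg Prod.fst h
    simp only [Circ.xcell] at h1
    omega
  · intro c c' u u' _ _ _ _ h
    have h1 := congrArg Prod.fst h
    simp only [Circ.ycell] at h1
    cases u <;> cases u' <;> simp at h1 ⊢ <;> omega
  · intro i hi
    obtain ⟨k1, k2, k3, k4, k5⟩ := h63_cor hC hi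
    unfold Circ.len at hi
    refine ⟨?_, ?_, ?_, ?_⟩
    · intro c u hc hk h
      have h0 := h63_Ycor hC hc hk
      have h1 := congrArg Prod.fst h
      simp only [Circ.xcell, Circ.ycell] at h1
      have hcc : (28 * C.cL + 14 + i) / 28 = c := by
        cases u <;> simp at h1 <;> omega
      rw [hcc] at k4
      omega
    · intro u h
      have h1 := congrArg Prod.fst h
      simp only [Circ.xcell, Circ.ncell] at h1
      cases u <;> simp at h1 <;> omega
    · intro u h
      have h1 := congrArg Prod.fst h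
      simp only [Circ.xcell, Circ.gcell] at h1
      cases u <;> simp at h1 <;> omega
    · intro u h
      have h1 := congrArg Prod.fst h
      simp only [Circ.xcell, Circ.tcell] at h1
      cases u <;> simp at h1 <;> omega
  · intro c u hc hk
    refine ⟨?_, ?_, ?_⟩
    · intro v h
      have h1 := congrArg Prod.fst h
      simp only [Circ.ycell, Circ.ncell] at h1
      cases u <;> cases v <;> simp at h1 <;> omega
    · intro v h
      have h1 := congrArg Prod.fst h
      simp only [Circ.ycell, Circ.gcell] at h1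
      cases u <;> cases v <;> simp at h1 <;> omega
    · intro v h
      have h1 := congrArg Prod.fst h
      simp only [Circ.ycell, Circ.tcell] at h1
      cases u <;> cases v <;> simp at h1 <;> omega
  · intro u v h
    have h1 := congrArg Prod.fst h
    simp only [Circ.ncell, Circ.gcell] at h1
    cases u <;> cases v <;> simp at h1 <;> omega
  · intro u v h
    have h1 := congrArg Prod.fst h
    simp only [Circ.ncell, Circ.tcell] at h1
    cases u <;> cases v <;> simp at h1 <;> omega
  · intro u v h
    have h1 := congrArg Prod.fst h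
    simp only [Circ.gcell, Circ.tcell] at h1
    cases u <;> cases v <;> simp at h1 <;> omega

/-- Evaluation of the board with kings where `kingAt` is known. -/
private lemma h63_kboard_some {κ : KC} {s : Square} (hs : IsDark C.g.N s) {p : Piece}
    (h : kingAt C.g.N C.cL κ (C.op (s.1.toNat / 28)) (s.1.toNat / 28) (s.1.toNat % 28)
      s.2.toNat = some p) : C.g.kboard C.cL κ s = some p := by
  unfold Geo.kboard
  rw [if_pos hs]
  unfold Circ.op at h
  rw [h]

/-- The positions of the kings. -/
theorem kboard_king (hC : C.Ok) {κ : KC} (hx : C.XOk κ) :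
    (∀ i, κ.x = some i → C.g.kboard C.cL κ (C.xcell i) = wk) ∧
    (∀ u, κ.al = some u → C.g.kboard C.cL κ (C.ncell u) = wk) ∧
    C.g.kboard C.cL κ (C.gcell κ.a) = wk ∧
    (∀ c < C.g.ops.length, (C.op c).kind = .Y → C.g.kboard C.cL κ (C.ycell c (κ.y c)) = bk) ∧
    C.g.kboard C.cL κ (C.tcell κ.tog) = bk := by
  refine ⟨?_, ?_, ?_, ?_, ?_⟩
  · intro i hi
    have hle : i ≤ C.len := hx i hi
    obtain ⟨k1, k2, k3, k4, k5⟩ := h63_cor hC hle
    refine h63_kboard_some (hole_dark hC (Circ.Hole.x i hle)) ?_
    have e1 : (C.xcell i).1.toNat = 28 * C.cL + 14 + i := by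
      simp only [Circ.xcell]; omega
    have e2 : (C.xcell i).2.toNat =
        12 + 8 * bT + corRow (C.op ((28 * C.cL + 14 + i) / 28)) ((28 * C.cL + 14 + i) % 28) := by
      simp only [Circ.xcell]; omega
    rw [e1, e2]
    unfold kingAt
    rw [if_pos]
    refine ⟨?_, by omega, k4, k5, rfl⟩
    rw [hi]
    congr 1
    omega
  · intro u hu
    obtain ⟨hk, hc0, hlt⟩ := h63_N hC
    refine h63_kboard_some (hole_dark hC (Circ.Hole.n u)) ?_
    have e1 : (C.ncell u).1.toNat = 28 * C.cN + (if u then 14 else 15) := by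
      simp only [Circ.ncell]; cases u <;> simp <;> omega
    have e2 : (C.ncell u).2.toNat = 12 + (if u then 8 else 9) := by
      simp only [Circ.ncell]; cases u <;> simp
    have e3 : (28 * C.cN + (if u then 14 else 15)) / 28 = C.cN := by
      cases u <;> simp <;> omega
    have e4 : (28 * C.cN + (if u then 14 else 15)) % 28 = (if u then 14 else 15) := by
      cases u <;> simp <;> omega
    rw [e1, e2, e3, e4]
    unfold kingAt
    rw [if_neg (by omega), hk]
    cases u <;> simp [hu]
  · obtain ⟨hk, hc0, htr, hlt⟩ := h63_G hC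
    refine h63_kboard_some (hole_dark hC (Circ.Hole.g κ.a)) ?_
    have e1 : (C.gcell κ.a).1.toNat = 28 * C.cG + (if κ.a then 15 else 14) := by
      simp only [Circ.gcell]; cases κ.a <;> simp <;> omega
    have e2 : (C.gcell κ.a).2.toNat = 12 + 8 * C.g.sg + (if κ.a then 19 else 18) := by
      simp only [Circ.gcell]; cases κ.a <;> simp <;> omega
    have e3 : (28 * C.cG + (if κ.a then 15 else 14)) / 28 = C.cG := by
      cases κ.a <;> simp <;> omega
    have e4 : (28 * C.cG + (if κ.a then 15 else 14)) % 28 = (if κ.a then 15 else 14) := by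
      cases κ.a <;> simp <;> omega
    rw [e1, e2, e3, e4]
    unfold kingAt
    rw [if_neg (by omega), hk]
    simp only [htr]
    cases h : κ.a <;> simp
  · intro c hc hk
    have hc0 := h63_Ycor hC hc hk
    refine h63_kboard_some (hole_dark hC (Circ.Hole.y c hc hk (κ.y c))) ?_
    have e1 : (C.ycell c (κ.y c)).1.toNat = 28 * c + (if κ.y c then 10 else 9) := by
      simp only [Circ.ycell]; cases κ.y c <;> simp <;> omega
    have e2 : (C.ycell c (κ.y c)).2.toNat = 12 + 8 * (C.op c).trk + (if κ.y c then 12 else 13) := by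
      simp only [Circ.ycell]; cases κ.y c <;> simp <;> omega
    have e3 : (28 * c + (if κ.y c then 10 else 9)) / 28 = c := by
      cases κ.y c <;> simp <;> omega
    have e4 : (28 * c + (if κ.y c then 10 else 9)) % 28 = (if κ.y c then 10 else 9) := by
      cases κ.y c <;> simp <;> omega
    rw [e1, e2, e3, e4]
    unfold kingAt
    rw [if_neg (by omega), hk]
    cases h : κ.y c <;> simp
  · obtain ⟨hk, hc0⟩ := h63_first hC
    refine h63_kboard_some (hole_dark hC (Circ.Hole.t κ.tog)) ?_
    have hN := hC.size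
    have e1 : (C.tcell κ.tog).1.toNat = (if κ.tog then 1 else 0) := by
      simp only [Circ.tcell]; cases κ.tog <;> simp
    have e2 : (C.tcell κ.tog).2.toNat = (if κ.tog then C.g.N - 1 else C.g.N - 2) := by
      simp only [Circ.tcell]; cases κ.tog <;> simp <;> omega
    have e3 : (if κ.tog then 1 else 0) / 28 = 0 := by
      cases κ.tog <;> simp
    have e4 : (if κ.tog then 1 else 0) % 28 = (if κ.tog then 1 else 0) := by
      cases κ.tog <;> simp
    rw [e1, e2, e3, e4]
    unfold kingAt
    rw [if_neg (by omega), hk]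
    have h5 : C.g.N - 1 + 1 = C.g.N := by omega
    have h6 : C.g.N - 2 + 2 = C.g.N := by omega
    cases h : κ.tog <;> simp [h5, h6]

/-- All other squares. -/
theorem kboard_else (hC : C.Ok) {κ : KC} (hx : C.XOk κ) {s : Square}
    (h1 : ∀ i, κ.x = some i → s ≠ C.xcell i) (h2 : ∀ u, κ.al = some u → s ≠ C.ncell u)
    (h3 : s ≠ C.gcell κ.a)
    (h4 : ∀ c < C.g.ops.length, (C.op c).kind = .Y → s ≠ C.ycell c (κ.y c))
    (h5 : s ≠ C.tcell κ.tog) : C.g.kboard C.cL κ s = C.g.board s := by
  unfold Geo.kboard Geo.board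
  by_cases hs : IsDark C.g.N s
  · rw [if_pos hs, if_pos hs]
    obtain ⟨d1, d2, d3, d4, -⟩ := hs
    set c := s.1.toNat / 28 with hc
    set x := s.1.toNat % 28 with hxd
    have hX : s.1.toNat = 28 * c + x := by omega
    have hX' : s.1 = ((28 * c + x : ℕ) : ℤ) := by omega
    have hY' : s.2 = ((s.2.toNat : ℕ) : ℤ) := by omega
    have hx28 : x < 28 := Nat.mod_lt _ (by norm_num)
    have hcl : c < C.g.ops.length := by
      unfold Geo.N at d2
      omega
    have hkey : kingAt C.g.N C.cL κ (C.g.ops.getD c default) c x s.2.toNat = none := by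
      change kingAt C.g.N C.cL κ (C.op c) c x s.2.toNat = none
      unfold kingAt
      by_cases hcond : κ.x = some (28 * c + x - (28 * C.cL + 14)) ∧ 28 * C.cL + 14 ≤ 28 * c + x ∧
        1 ≤ (C.op c).cor ∧ (C.op c).cor ≤ 3 ∧ s.2.toNat = 12 + 8 * bT + corRow (C.op c) x
      · exfalso
        obtain ⟨k1, k2, k3, k4, k5⟩ := hcond
        refine h1 _ k1 ?_
        have e : 28 * C.cL + 14 + (28 * c + x - (28 * C.cL + 14)) = 28 * c + x := by omega
        have e1 : (28 * c + x) / 28 = c := by omega
        have e2 : (28 * c + x) % 28 = x := by omega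
        refine Prod.ext ?_ ?_
        · simp only [Circ.xcell]
          rw [e]; exact hX'
        · simp only [Circ.xcell]
          rw [e, e1, e2, hY', k5]
      · rw [if_neg hcond]
        cases hkind : (C.op c).kind with
        | N1 =>
          have hcN := (hC.n1 c hcl).1 hkind
          simp only
          rw [if_neg]
          rintro (⟨a1, a2, a3⟩ | ⟨a1, a2, a3⟩)
          · refine h2 _ a1 (Prod.ext ?_ ?_)
            · simp only [Circ.ncell, if_true]; rw [hX', hcN, a2]; push_cast; ring
            · simp only [Circ.ncell, if_true]; omega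
          · refine h2 _ a1 (Prod.ext ?_ ?_)
            · simp only [Circ.ncell, Bool.false_eq_true, if_false]; rw [hX', hcN, a2]; push_cast; ring
            · simp only [Circ.ncell, Bool.false_eq_true, if_false]; omega
        | G =>
          have hcG := (hC.gate c hcl).1 hkind
          have htr : (C.op c).trk = C.g.sg := by
            rw [hcG]; exact (h63_G hC).2.2.1
          simp only
          rw [if_neg]
          rintro (⟨a1, a2, a3⟩ | ⟨a1, a2, a3⟩)
          · refine h3 (Prod.ext ?_ ?_)
            · simp only [Circ.gcell, a1, Bool.false_eq_true, if_false]; rw [hX', hcG, a2]; push_cast; ring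
            · simp only [Circ.gcell, a1, Bool.false_eq_true, if_false]; rw [htr] at a3; omega
          · refine h3 (Prod.ext ?_ ?_)
            · simp only [Circ.gcell, a1, if_true]; rw [hX', hcG, a2]; push_cast; ring
            · simp only [Circ.gcell, a1, if_true]; rw [htr] at a3; omega
        | Y =>
          simp only
          rw [if_neg]
          rintro (⟨a1, a2, a3⟩ | ⟨a1, a2, a3⟩)
          · refine h4 c hcl hkind (Prod.ext ?_ ?_)
            · simp only [Circ.ycell, a1, if_true]; rw [hX', a2]; push_cast; ring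
            · simp only [Circ.ycell, a1, if_true]; omega
          · refine h4 c hcl hkind (Prod.ext ?_ ?_)
            · simp only [Circ.ycell, a1, Bool.false_eq_true, if_false]; rw [hX', a2]; push_cast; ring
            · simp only [Circ.ycell, a1, Bool.false_eq_true, if_false]; omega
        | first =>
          have hc0 := (hC.first c hcl).1 hkind
          simp only
          rw [if_neg]
          rintro (⟨a1, a2, a3⟩ | ⟨a1, a2, a3⟩)
          · refine h5 (Prod.ext ?_ ?_)
            · simp only [Circ.tcell, a1, Bool.false_eq_true, if_false]; rw [hX', hc0, a2]; norm_num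
            · simp only [Circ.tcell, a1, Bool.false_eq_true, if_false]; omega
          · refine h5 (Prod.ext ?_ ?_)
            · simp only [Circ.tcell, a1, if_true]; rw [hX', hc0, a2]; norm_num
            · simp only [Circ.tcell, a1, if_true]; omega
        | _ => rfl
    rw [hkey]
  · rw [if_neg hs, if_neg hs]

end Pool.Agent.MC95
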