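import Pool.Agent.MC95.CircOk

/-!
# The empty squares of the static board

PLAN. The static board `C.g.board` is full except for the squares of the rooms. For a dark square in
column `c`, local column `x`: if it is in the special part of the tile, a finite check for each kind
(e.g. `decide +kernel` for a statement about all `x`, `y` in the range, or bit masks) gives the empty
squares: none for U, M, H, WF, BF, UT, NA, NB; `(10, 12)`, `(9, 13)` for Y; `(14, 18)`, `(15, 19)` for
G; `(14, 8)`, `(15, 9)` for N1; the squares `(x, corRow o x)` for T. Outside of the special parts the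
only empty squares are those of the corridor rows and the two squares in the corner. For `hole_nbr`
the same finite checks give the content of the squares at distance one and two (all in the window of
the tile); for squares of the corridor outside of the tiles T, and for the corner, use the
definition of `cell` (rows `21`, ..., `26` relative to track `bT`: black, black, corridor, corridor,
white, white).
-/

namespace Pool.Agent.MC95

/-- Square `i` of the corridor. -/
def Circ.xcell (C : Circ) (i : ℕ) : Square :=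
  (((28 * C.cL + 14 + i : ℕ) : ℤ),
    ((12 + 8 * bT + corRow (C.op ((28 * C.cL + 14 + i) / 28)) ((28 * C.cL + 14 + i) % 28) : ℕ) : ℤ))

/-- The squares of the Black king of the tile Y in column `c` (`true`: the lower one). -/
def Circ.ycell (C : Circ) (c : ℕ) (u : Bool) : Square :=
  (28 * (c : ℤ) + (if u then 10 else 9), 12 + 8 * ((C.op c).trk : ℤ) + (if u then 12 else 13))

/-- The squares of the king of N1 (`true`: the lower one). -/
def Circ.ncell (C : Circ) (u : Bool) : Square :=
  (28 * (C.cN : ℤ) + (if u then 14 else 15), 12 + (if u then 8 else 9))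

/-- The squares of the king of the gate (`false`: the lower one). -/
def Circ.gcell (C : Circ) (u : Bool) : Square :=
  (28 * (C.cG : ℤ) + (if u then 15 else 14), 12 + 8 * (C.g.sg : ℤ) + (if u then 19 else 18))

/-- The squares of the Black king in the corner (`false`: the lower one). -/
def Circ.tcell (C : Circ) (u : Bool) : Square :=
  if u then (1, (C.g.N : ℤ) - 1) else (0, (C.g.N : ℤ) - 2)

/-- The length of the corridor. -/
def Circ.len (C : Circ) : ℕ := 28 * (C.cR - C.cL)

/-- The empty squares of the static board. -/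
inductive Circ.Hole (C : Circ) : Square → Prop
  | x (i : ℕ) (h : i ≤ C.len) : Circ.Hole C (C.xcell i)
  | y (c : ℕ) (hc : c < C.g.ops.length) (hk : (C.op c).kind = .Y) (u : Bool) :
      Circ.Hole C (C.ycell c u)
  | n (u : Bool) : Circ.Hole C (C.ncell u)
  | g (u : Bool) : Circ.Hole C (C.gcell u)
  | t (u : Bool) : Circ.Hole C (C.tcell u)

/-- The colour of the men next to an empty square in direction `d`. -/
def dcol (d : ℤ × ℤ) : Color := if d.2 = 1 then .white else .black

variable {C : Circ}

/-- Empty squares of the special part of a tile: column `x`, row `y - 3`. -/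
private def h86emp (k : Kind) (x y : ℕ) : Bool :=
  match k with
  | .Y => (x == 10 && y == 15) || (x == 9 && y == 16)
  | .G => (x == 14 && y == 21) || (x == 15 && y == 22)
  | .N1 => (x == 14 && y == 11) || (x == 15 && y == 12)
  | .T => if 2 ≤ x ∧ x ≤ 22 then y == 17 + (x - 12) + (12 - x) else y == 26
  | _ => false

private def h86chk (k : Kind) : Bool :=
  (List.range 23).all fun x => (List.range (k.ytop + 4)).all fun y =>
    (x + y) % 2 == 1 ||
      (!(k.st.w.testBit (x + 5 + 64 * (y + 3))) && !(k.st.b.testBit (x + 5 + 64 * (y + 3)))) ==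
        h86emp k (x + 1) y

private theorem h86chk_ok (k : Kind) (h1 : k ≠ .first) (h2 : k ≠ .blank) : h86chk k = true := by
  cases k
  · exact absurd rfl h1
  · exact absurd rfl h2
  all_goals decide +kernel

private theorem h86get {k : Kind} (h1 : k ≠ .first) (h2 : k ≠ .blank) {x y : ℕ} (hx : 1 ≤ x)
    (hx' : x ≤ 23) (hy : y < k.ytop + 4) (hp : (x + y) % 2 = 1) :
    k.st.get (x : ℤ) ((y : ℤ) - 3) = none ↔ h86emp k x y = true := by
  have h := h86chk_ok k h1 h2
  unfold h86chk at h
  rw [List.all_eq_true] at h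
  have h3 := h (x - 1) (List.mem_range.2 (by omega))
  rw [List.all_eq_true] at h3
  have h4 := h3 y (List.mem_range.2 hy)
  have h5 : ((x - 1 + y) % 2 == 1) = false := by
    rw [beq_eq_false_iff_ne]
    omega
  rw [h5, Bool.false_or, beq_iff_eq] at h4
  have h6 : x - 1 + 1 = x := by omega
  rw [h6] at h4
  rw [← h4]
  have h7 : ix (x : ℤ) ((y : ℤ) - 3) = x - 1 + 5 + 64 * (y + 3) := by
    unfold ix
    omega
  unfold LB.get
  rw [h7]
  cases hw : k.st.w.testBit (x - 1 + 5 + 64 * (y + 3)) <;>
    cases hb : k.st.b.testBit (x - 1 + 5 + 64 * (y + 3)) <;> simp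

private theorem h86bgc (reg x y : ℕ) : bgc reg x y ≠ none := by
  unfold bgc
  split_ifs <;> simp

/-- The empty squares of a tile. -/
private def h86HO (N sg : ℕ) (op : Op) (x y : ℕ) : Prop :=
  ((op.cor = 1 ∨ (op.cor = 2 ∧ 14 ≤ x) ∨ (op.cor = 3 ∧ x ≤ 14)) ∧ y = 172 + corRow op x) ∨
  (op.kind = .Y ∧ ((x = 10 ∧ y = 12 + 8 * op.trk + 12) ∨ (x = 9 ∧ y = 12 + 8 * op.trk + 13))) ∨
  (op.kind = .N1 ∧ ((x = 14 ∧ y = 20) ∨ (x = 15 ∧ y = 21))) ∨
  (op.kind = .G ∧ ((x = 15 ∧ y = 12 + 8 * sg + 19) ∨ (x = 14 ∧ y = 12 + 8 * sg + 18))) ∨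
  (op.kind = .first ∧ ((x = 1 ∧ y + 1 = N) ∨ (x = 0 ∧ y + 2 = N)))

private theorem h86cell {N sg : ℕ} {op : Op} (ho : OpOk sg op)
    (hb : op.cor = 2 ∨ op.cor = 3 → op.kind = .blank) {x y : ℕ} (hx : x < 28)
    (hp : (x + y) % 2 = 0) : cell N sg op x y = none ↔ h86HO N sg op x y := by
  by_cases hin : op.InTile x y
  · have hcell : cell N sg op x y = op.kind.st.get x ((y : ℤ) - (12 + 8 * op.trk)) := by
      unfold cell
      rw [if_pos hin]
    obtain ⟨h1, h2, h3, h4, h5, h6⟩ := hin
    have hy : ((y : ℤ) - (12 + 8 * (op.trk : ℤ))) = (((y - (9 + 8 * op.trk) : ℕ) : ℤ) - 3) := by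
      omega
    rw [hcell, hy, h86get h1 h2 h3 h4 (by omega) (by omega)]
    obtain ⟨kind, trk, reg, cor, ini⟩ := op
    cases kind <;>
      simp [h86emp, h86HO, OpOk, Kind.ytop, corRow] at * <;>
      (try split_ifs) <;> (try omega)
  · have hcell : cell N sg op x y = none ↔
        (if 1 ≤ op.cor ∧ op.cor ≤ 3 ∧ y = 12 + 8 * bT + 23 then
          (if op.cor = 1 ∨ (op.cor = 2 ∧ 14 ≤ x) ∨ (op.cor = 3 ∧ x ≤ 14) then True else False)
        else if 1 ≤ op.cor ∧ op.cor ≤ 3 ∧ y = 12 + 8 * bT + 24 then
          (if op.cor = 1 ∨ (op.cor = 2 ∧ 14 ≤ x) ∨ (op.cor = 3 ∧ x ≤ 14) then True else False)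
        else if 1 ≤ op.cor ∧ op.cor ≤ 3 ∧ (y = 12 + 8 * bT + 25 ∨ y = 12 + 8 * bT + 26) then False
        else if op.kind = .first ∧ ((x = 0 ∧ y + 2 = N) ∨ (x = 1 ∧ y + 1 = N)) then True
        else False) := by
      unfold cell
      rw [if_neg hin]
      split_ifs <;> simp [h86bgc]
    rw [hcell]
    unfold Op.InTile at hin
    obtain ⟨kind, trk, reg, cor, ini⟩ := op
    cases kind <;>
      simp [h86HO, OpOk, Kind.ytop, corRow, bT] at * <;>
      (try split_ifs) <;> (try omega)

/-- The columns. -/
private theorem h86col (hC : C.Ok) {c x : ℕ} (hc : c < C.g.ops.length) (hx : x < 28) :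
    ((C.op c).cor = 1 ∨ ((C.op c).cor = 2 ∧ 14 ≤ x) ∨ ((C.op c).cor = 3 ∧ x ≤ 14)) ↔
      28 * C.cL + 14 ≤ 28 * c + x ∧ 28 * c + x ≤ 28 * C.cR + 14 := by
  rw [hC.cor1 c hc, hC.cor2 c hc, hC.cor3 c hc]
  have := hC.hLR
  omega

private theorem h86N (C : Circ) : C.g.N = 28 * C.g.ops.length := rfl

private theorem h86blank (hC : C.Ok) {c : ℕ} (hc : c < C.g.ops.length) :
    (C.op c).cor = 2 ∨ (C.op c).cor = 3 → (C.op c).kind = .blank := by
  rw [hC.cor2 c hc, hC.cor3 c hc]
  rintro (rfl | rfl)
  · exact hC.caps.1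
  · exact hC.caps.2

/-- Empty squares by columns. -/
private theorem h86hole (hC : C.Ok) {c x y : ℕ} (hc : c < C.g.ops.length) (hx : x < 28) :
    h86HO C.g.N C.g.sg (C.op c) x y ↔ C.Hole (28 * (c : ℤ) + x, (y : ℤ)) := by
  have hN := h86N C
  have hLR := hC.hLR
  constructor
  · rintro (⟨h1, h2⟩ | ⟨hk, h2⟩ | ⟨hk, h2⟩ | ⟨hk, h2⟩ | ⟨hk, h2⟩)
    · rw [h86col hC hc hx] at h1
      have h3 := Circ.Hole.x (C := C) (28 * c + x - (28 * C.cL + 14)) (by unfold Circ.len; omega)
      have h4 : 28 * C.cL + 14 + (28 * c + x - (28 * C.cL + 14)) = 28 * c + x := by omega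
      unfold Circ.xcell at h3
      rw [h4, show (28 * c + x) / 28 = c by omega, show (28 * c + x) % 28 = x by omega] at h3
      have h5 : ((28 * (c : ℤ) + x, (y : ℤ)) : Square) =
          (((28 * c + x : ℕ) : ℤ), ((12 + 8 * bT + corRow (C.op c) x : ℕ) : ℤ)) := by
        rw [h2]
        simp only [bT]
        push_cast
        rfl
      rw [h5]
      exact h3
    · rcases h2 with ⟨rfl, rfl⟩ | ⟨rfl, rfl⟩
      · have h3 := Circ.Hole.y (C := C) c hc hk true
        unfold Circ.ycell at h3
        simpa using h3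
      · have h3 := Circ.Hole.y (C := C) c hc hk false
        unfold Circ.ycell at h3
        simpa using h3
    · rw [hC.n1 c hc] at hk
      subst hk
      rcases h2 with ⟨rfl, rfl⟩ | ⟨rfl, rfl⟩
      · have h3 := Circ.Hole.n (C := C) true
        unfold Circ.ncell at h3
        simpa using h3
      · have h3 := Circ.Hole.n (C := C) false
        unfold Circ.ncell at h3
        simpa using h3
    · rw [hC.gate c hc] at hk
      subst hk
      rcases h2 with ⟨rfl, rfl⟩ | ⟨rfl, rfl⟩
      · have h3 := Circ.Hole.g (C := C) true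
        unfold Circ.gcell at h3
        simpa using h3
      · have h3 := Circ.Hole.g (C := C) false
        unfold Circ.gcell at h3
        simpa using h3
    · rw [hC.first c hc] at hk
      subst hk
      rcases h2 with ⟨rfl, h2⟩ | ⟨rfl, h2⟩
      · have h3 := Circ.Hole.t (C := C) true
        unfold Circ.tcell at h3
        rw [if_pos rfl] at h3
        have h4 : (C.g.N : ℤ) = y + 1 := by omega
        rw [h4] at h3
        simpa using h3
      · have h3 := Circ.Hole.t (C := C) false
        unfold Circ.tcell at h3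
        rw [if_neg (by simp)] at h3
        have h4 : (C.g.N : ℤ) = y + 2 := by omega
        rw [h4] at h3
        simpa using h3
  · intro h
    generalize hs : ((28 * (c : ℤ) + x, (y : ℤ)) : Square) = s at h
    cases h with
    | x i hi =>
      unfold Circ.xcell at hs
      rw [Prod.mk.injEq] at hs
      obtain ⟨h1, h2⟩ := hs
      unfold Circ.len at hi
      have h3 : 28 * C.cL + 14 + i = 28 * c + x := by omega
      rw [h3, show (28 * c + x) / 28 = c by omega, show (28 * c + x) % 28 = x by omega] at h2
      refine Or.inl ⟨(h86col hC hc hx).2 (by omega), ?_⟩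
      have h4 : y = 12 + 8 * bT + corRow (C.op c) x := by exact_mod_cast h2
      rw [h4]
      simp only [bT]
    | y c' hc' hk u =>
      unfold Circ.ycell at hs
      rw [Prod.mk.injEq] at hs
      obtain ⟨h1, h2⟩ := hs
      have h3 : c' = c := by
        cases u <;> simp at h1 <;> omega
      subst h3
      refine Or.inr (Or.inl ⟨hk, ?_⟩)
      cases u <;> simp at h1 h2 <;> omega
    | n u =>
      unfold Circ.ncell at hs
      rw [Prod.mk.injEq] at hs
      obtain ⟨h1, h2⟩ := hs
      have h3 : c = C.cN := by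
        cases u <;> simp at h1 <;> omega
      refine Or.inr (Or.inr (Or.inl ⟨(hC.n1 c hc).2 h3, ?_⟩))
      cases u <;> simp at h1 h2 <;> omega
    | g u =>
      unfold Circ.gcell at hs
      rw [Prod.mk.injEq] at hs
      obtain ⟨h1, h2⟩ := hs
      have h3 : c = C.cG := by
        cases u <;> simp at h1 <;> omega
      refine Or.inr (Or.inr (Or.inr (Or.inl ⟨(hC.gate c hc).2 h3, ?_⟩)))
      cases u <;> simp at h1 h2 <;> omega
    | t u =>
      unfold Circ.tcell at hs
      have h3 : c = 0 := by
        cases u <;> simp at hs <;> omega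
      refine Or.inr (Or.inr (Or.inr (Or.inr ⟨(hC.first c hc).2 h3, ?_⟩)))
      cases u <;> simp at hs <;> omega

private theorem h86corRow (op : Op) (x : ℕ) : (x + corRow op x) % 2 = 0 ∧ corRow op x ≤ 24 := by
  unfold corRow
  split_ifs <;> omega

theorem hole_dark (hC : C.Ok) {s : Square} (h : C.Hole s) : IsDark C.g.N s := by
  have hN := h86N C
  have hLR := hC.hLR
  have hRN := hC.hRN
  have hNG := hC.hNG
  have hG := hC.hG
  have hsz := hC.size
  have hsg := hC.sg24
  cases h with
  | x i hi =>
    unfold Circ.len at hi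
    have h1 := h86corRow (C.op ((28 * C.cL + 14 + i) / 28)) ((28 * C.cL + 14 + i) % 28)
    unfold Circ.xcell IsDark
    simp only [bT]
    refine ⟨?_, ?_, ?_, ?_, ?_⟩ <;> omega
  | y c hc hk u =>
    have ho := hC.tiles c hc
    unfold OpOk at ho
    rw [hk] at ho
    simp only at ho
    unfold Circ.ycell IsDark
    cases u <;> simp <;> omega
  | n u =>
    unfold Circ.ncell IsDark
    cases u <;> simp <;> omega
  | g u =>
    unfold Circ.gcell IsDark
    cases u <;> simp <;> omega
  | t u =>
    unfold Circ.tcell IsDark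
    cases u <;> simp <;> omega

theorem board_none_iff (hC : C.Ok) {s : Square} (hs : IsDark C.g.N s) :
    C.g.board s = none ↔ C.Hole s := by
  obtain ⟨sx, sy⟩ := s
  have hN := h86N C
  have hs' := hs
  unfold IsDark at hs'
  obtain ⟨h1, h2, h3, h4, h5⟩ := hs'
  simp only at h1 h2 h3 h4 h5
  have hc : sx.toNat / 28 < C.g.ops.length := by omega
  have hb : C.g.board (sx, sy) =
      cell C.g.N C.g.sg (C.op (sx.toNat / 28)) (sx.toNat % 28) sy.toNat := by
    unfold Geo.board
    rw [if_pos hs]
    rfl
  have he : ((sx, sy) : Square) = (28 * ((sx.toNat / 28 : ℕ) : ℤ) + ((sx.toNat % 28 : ℕ) : ℤ),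
      ((sy.toNat : ℕ) : ℤ)) := by
    refine Prod.ext ?_ ?_
    · simp only
      omega
    · simp only
      omega
  rw [hb, h86cell (hC.tiles _ hc) (h86blank hC hc) (by omega) (by omega),
    h86hole hC hc (by omega), ← he]

private theorem h86k (k : Kind) : k.st.k = 0 := by
  cases k <;> rfl

private theorem h86man {N sg : ℕ} {op : Op} {x y : ℕ} {p : Piece}
    (h : cell N sg op x y = some p) : p.king = false := by
  have hb : ∀ reg, bgc reg x y = some p → p.king = false := by
    intro reg hr
    unfold bgc at hr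
    split_ifs at hr <;> (cases hr; rfl)
  have hg : ∀ (k : Kind) (u v : ℤ), k.st.get u v = some p → p.king = false := by
    intro k u v hk
    unfold LB.get at hk
    rw [h86k] at hk
    split_ifs at hk <;> (cases hk; simp)
  unfold cell at h
  split_ifs at h <;> first | exact hb _ h | exact hg _ _ _ h | (cases h; rfl)

theorem board_man (hC : C.Ok) {s : Square} {p : Piece} (h : C.g.board s = some p) :
    IsDark C.g.N s ∧ p.king = false := by
  unfold Geo.board at h
  split_ifs at h with hs
  exact ⟨hs, h86man h⟩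

end Pool.Agent.MC95
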