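import Pool.Agent.MC95.HolesA

/-!
# The surroundings of the empty squares

PLAN. See `HolesA.lean`. Finite checks for each kind of room (all squares at distance at most two
are in the window of the tile); for the squares of the corridor outside of the tiles T, and for the
corner, use the definition of `cell` (rows `21`, ..., `26` relative to track `bT`: black, black,
corridor, corridor, white, white; above the row `8 * sg + 22` everything is black). The empty squares
of the corridor: `(x, 23)` with `x` odd, `(x, 24)` with `x` even, and in the tiles T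
`(x, 14 + |x - 12|)` for `2 ≤ x ≤ 22`.
-/

namespace Pool.Agent.MC95

variable {C : Circ}

/-! ### contents of squares -/

private theorem board_at {s : Square} {c x y : ℕ} (hc : c < C.g.ops.length)
    (hx : x < 28) (hy : y < C.g.N) (hp : (x + y) % 2 = 0) (h1 : s.1 = 28 * (c : ℤ) + x)
    (h2 : s.2 = (y : ℤ)) : C.g.board s = cell C.g.N C.g.sg (C.op c) x y := by
  have hN : C.g.N = 28 * C.g.ops.length := rfl
  have hd : IsDark C.g.N s := by
    refine ⟨?_, ?_, ?_, ?_, ?_⟩ <;> omega
  have h3 : s.1.toNat / 28 = c := by omega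
  have h4 : s.1.toNat % 28 = x := by omega
  have h5 : s.2.toNat = y := by omega
  unfold Geo.board
  rw [if_pos hd, h3, h4, h5]
  rfl

private theorem board_tile {s : Square} {c : ℕ} {x r : ℤ} {k : Kind} (hc : c < C.g.ops.length)
    (hk : (C.op c).kind = k) (hk1 : k ≠ .first) (hk2 : k ≠ .blank)
    (h1 : s.1 = 28 * (c : ℤ) + x) (h2 : s.2 = 12 + 8 * ((C.op c).trk : ℤ) + r)
    (hx : 1 ≤ x) (hx' : x ≤ 23) (hr : -3 ≤ r) (hr' : r ≤ k.ytop) (hp : 2 ∣ x + r)
    (hN : 12 + 8 * ((C.op c).trk : ℤ) + r < C.g.N) : C.g.board s = k.st.get x r := by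
  subst hk
  obtain ⟨x', hx1⟩ : ∃ x' : ℕ, x = x' := ⟨x.toNat, by omega⟩
  obtain ⟨y', hy1⟩ : ∃ y' : ℕ, 12 + 8 * ((C.op c).trk : ℤ) + r = y' :=
    ⟨(12 + 8 * ((C.op c).trk : ℤ) + r).toNat, by omega⟩
  rw [board_at hc (x := x') (y := y') (by omega) (by omega) (by omega) (by omega) (by omega)]
  unfold cell
  rw [if_pos ⟨hk1, hk2, by omega, by omega, by omega, by omega⟩, ← hx1, ← hy1]
  congr 1
  ring

/-- The rows above the special parts of the tiles next to the gate. -/
private theorem board_gate {s : Square} {c x y : ℕ} (hc : c < C.g.ops.length)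
    (hk : (C.op c).kind = .G) (ht : (C.op c).trk = C.g.sg) (hcor : (C.op c).cor = 0)
    (hx : x < 28) (hy : y < C.g.N) (hp : (x + y) % 2 = 0) (h1 : s.1 = 28 * (c : ℤ) + x)
    (h2 : s.2 = (y : ℤ)) (hy1 : 12 + 8 * C.g.sg + 20 ≤ y) (hy2 : y < 12 + 8 * C.g.sg + 22) :
    C.g.board s = wm := by
  rw [board_at hc hx hy hp h1 h2]
  unfold cell
  have h3 : ¬ (C.op c).InTile x y := by
    rintro ⟨-, -, -, -, -, h⟩
    rw [hk, ht] at h
    change y ≤ 12 + 8 * C.g.sg + 19 at h
    omega
  rw [if_neg h3, if_neg (by omega), if_neg (by omega), if_neg (by omega),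
    if_neg (by rintro ⟨h, -⟩; rw [hk] at h; exact absurd h (by decide)), if_neg (by omega),
    if_pos (by omega)]

/-- The corner. -/
private theorem board_corner (hC : C.Ok) {s : Square} {x y : ℕ} (hx : x < 28) (hy : y < C.g.N)
    (hp : (x + y) % 2 = 0) (h1 : s.1 = (x : ℤ)) (h2 : s.2 = (y : ℤ))
    (hy1 : 12 + 8 * C.g.sg + 22 ≤ y) (hne : ¬ ((x = 0 ∧ y + 2 = C.g.N) ∨ (x = 1 ∧ y + 1 = C.g.N))) :
    C.g.board s = bm := by
  have hc : 0 < C.g.ops.length := by have := hC.hG; omega
  have hk : (C.op 0).kind = .first := (hC.first 0 hc).2 rfl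
  have hok := hC.tiles 0 hc
  unfold OpOk at hok
  rw [hk] at hok
  obtain ⟨-, -, -, hcor⟩ := hok
  rw [board_at hc hx hy hp (by rw [h1]; simp) h2]
  unfold cell
  have h3 : ¬ (C.op 0).InTile x y := fun h => h.1 hk
  rw [if_neg h3, if_neg (by omega), if_neg (by omega), if_neg (by omega), if_neg (fun h => hne h.2),
    if_pos hy1]

/-! ### the corridor -/

private def gen (r : ℤ) : Option Piece :=
  if r = 21 ∨ r = 22 then bm else if r = 25 ∨ r = 26 then wm else none

/-- Contents near the corridor; `kM`: the tile is T, `kR`: the next tile is T. -/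
private def W (kM kR : Bool) (x r : ℤ) : Option Piece :=
  if kM = true ∧ 1 ≤ x ∧ x ≤ 23 then stT.get x r
  else if kR = true ∧ x = 29 then stT.get 1 r
  else gen r

private def row (kM : Bool) (x : ℤ) : ℤ :=
  if kM = true ∧ 2 ≤ x ∧ x ≤ 22 then 14 + |x - 12| else if x % 2 = 1 then 23 else 24

private theorem chk_W : ∀ kM kR u v : Bool, ∀ x : Fin 28,
    let d : ℤ × ℤ := (if u then 1 else -1, if v then 1 else -1)
    let r := row kM (x : ℕ)
    (r + d.2 = row kM ((x : ℕ) + d.1)) ∨
      (W kM kR ((x : ℕ) + d.1) (r + d.2) = some ⟨dcol d, false⟩ ∧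
        W kM kR ((x : ℕ) + d.1 + d.1) (r + d.2 + d.2) = some ⟨dcol d, false⟩) := by
  decide +kernel

private theorem cor_range (hC : C.Ok) {c : ℕ} (h1 : C.cL ≤ c) (h2 : c ≤ C.cR) :
    c < C.g.ops.length ∧ 1 ≤ (C.op c).cor ∧ (C.op c).cor ≤ 3 := by
  have h3 := hC.hRN
  have h4 := hC.hNG
  have h5 := hC.hG
  have hc : c < C.g.ops.length := by omega
  refine ⟨hc, ?_⟩
  rcases h1.lt_or_eq with h6 | h6
  · rcases h2.lt_or_eq with h7 | h7
    · rw [(hC.cor1 c hc).2 ⟨h6, h7⟩]
      decide
    · rw [(hC.cor3 c hc).2 h7]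
      decide
  · rw [(hC.cor2 c hc).2 h6.symm]
    decide

/-- Tiles of the corridor do not reach the corridor, except for T. -/
private theorem tile_low (hC : C.Ok) {c x y : ℕ} (hc : c < C.g.ops.length)
    (hcor : (C.op c).cor ≠ 0) (h : (C.op c).InTile x y) (hT : (C.op c).kind ≠ .T) : y ≤ 184 := by
  have hok := hC.tiles c hc
  obtain ⟨h1, h2, -, -, -, h3⟩ := h
  unfold OpOk at hok
  obtain ⟨-, -, hok⟩ := hok
  cases hk : (C.op c).kind <;> rw [hk] at hok h3 <;> simp only [Kind.ytop] at h3
  · exact absurd hk h1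
  · exact absurd hk h2
  · have := hok.2.2.1 hcor; omega
  · have := hok.2.1 hcor; omega
  · have := hok.2.1 hcor; omega
  · have := hok.2.1 hcor; omega
  · have := hok.2.1 hcor; omega
  · exact absurd hk hT
  · exact absurd hok.2.1 hcor
  · exact absurd hok.2.1 hcor
  · exact absurd hok.2.1 hcor
  · exact absurd hok.2 hcor
  · exact absurd hok.2 hcor
  · exact absurd hok.2 hcor

private theorem cell_gen (hC : C.Ok) {c x y : ℕ} (hc : c < C.g.ops.length)
    (hcor : 1 ≤ (C.op c).cor ∧ (C.op c).cor ≤ 3) (hin : ¬ (C.op c).InTile x y) {r : ℤ}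
    {p : Piece} (hr : gen r = some p) (hy : (y : ℤ) = 172 + r) :
    cell C.g.N C.g.sg (C.op c) x y = some p := by
  have hsg := hC.sg24
  have hf : (C.op c).kind ≠ .first := by
    intro hk
    have hok := hC.tiles c hc
    unfold OpOk at hok
    rw [hk] at hok
    obtain ⟨-, -, -, h⟩ := hok
    omega
  unfold gen at hr
  have hr' : ((r = 21 ∨ r = 22) ∧ bm = some p) ∨ ((r = 25 ∨ r = 26) ∧ wm = some p) := by
    split_ifs at hr with h1 h2
    · exact Or.inl ⟨h1, hr⟩
    · exact Or.inr ⟨h2, hr⟩
  unfold cell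
  rw [if_neg hin, if_neg (by simp only [bT]; omega), if_neg (by simp only [bT]; omega)]
  rcases hr' with ⟨h, h'⟩ | ⟨h, h'⟩
  · rw [if_neg (by simp only [bT]; omega), if_neg (fun h => hf h.1), if_neg (by omega),
      if_neg (by omega), if_neg (by omega), if_neg (by omega), ← h']
    unfold bgc
    rw [if_neg (by omega), if_neg (by omega), if_neg (by omega), if_neg (by omega)]
  · rw [if_pos (by simp only [bT]; omega), ← h']

private theorem W_spec (hC : C.Ok) {X : ℕ} (hX1 : 28 * C.cL + 14 ≤ X) (hX2 : X ≤ 28 * C.cR + 14)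
    {s : Square} {j r : ℤ} (hj : -2 ≤ j) (hj' : j ≤ 2) (h1 : s.1 = X + j) (h2 : s.2 = 172 + r)
    (hp : 2 ∣ s.1 + s.2) (hr : 12 ≤ r) (hr' : r ≤ 26) {p : Piece}
    (hW : W (decide ((C.op (X / 28)).kind = .T)) (decide ((C.op (X / 28 + 1)).kind = .T))
      (((X % 28 : ℕ) : ℤ) + j) r = some p) : C.g.board s = some p := by
  have hsz := hC.size
  have hsg := hC.sg24
  obtain ⟨X', hX'⟩ : ∃ X' : ℕ, (X : ℤ) + j = X' := ⟨((X : ℤ) + j).toNat, by omega⟩
  obtain ⟨y, hy⟩ : ∃ y : ℕ, 172 + r = (y : ℤ) := ⟨(172 + r).toNat, by omega⟩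
  have hcL : C.cL ≤ X' / 28 := by omega
  have hcR : X' / 28 ≤ C.cR := by omega
  obtain ⟨hc, hcor⟩ := cor_range hC hcL hcR
  rw [board_at hc (x := X' % 28) (y := y) (by omega) (by omega) (by omega) (by omega) (by omega)]
  have hTt : ∀ {c : ℕ}, c < C.g.ops.length → (C.op c).kind = .T → (C.op c).trk = 20 := by
    intro c hc hk
    have hok := hC.tiles c hc
    unfold OpOk at hok
    rw [hk] at hok
    exact hok.2.2.1
  unfold W at hW
  split_ifs at hW with h3 h4
  · obtain ⟨h5, h6, h7⟩ := h3
    rw [decide_eq_true_iff] at h5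
    have h8 : X' / 28 = X / 28 := by omega
    rw [h8] at hc ⊢
    have h9 := hTt hc h5
    unfold cell
    rw [if_pos ⟨by rw [h5]; decide, by rw [h5]; decide, by omega, by omega, by omega, by
      rw [h5]; change y ≤ 12 + 8 * _ + 26; omega⟩, h5, h9]
    rw [← hW]
    change stT.get _ _ = _
    congr 1
    · omega
    · push_cast
      omega
  · obtain ⟨h5, h6⟩ := h4
    rw [decide_eq_true_iff] at h5
    have h8 : X' / 28 = X / 28 + 1 := by omega
    rw [h8] at hc ⊢
    have h9 := hTt hc h5
    unfold cell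
    rw [if_pos ⟨by rw [h5]; decide, by rw [h5]; decide, by omega, by omega, by omega, by
      rw [h5]; change y ≤ 12 + 8 * _ + 26; omega⟩, h5, h9]
    rw [← hW]
    change stT.get _ _ = _
    congr 1
    · omega
    · push_cast
      omega
  · refine cell_gen hC hc hcor ?_ hW hy.symm
    intro hin
    have hr2 : 21 ≤ r := by
      unfold gen at hW
      split_ifs at hW <;> omega
    by_cases hT : (C.op (X' / 28)).kind = .T
    · obtain ⟨-, -, h5, h6, -, -⟩ := hin
      by_cases h7 : X' / 28 = X / 28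
      · refine h3 ⟨?_, by omega, by omega⟩
        rw [decide_eq_true_iff, ← h7]
        exact hT
      · have h8 : X' / 28 = X / 28 + 1 := by omega
        refine h4 ⟨?_, by omega⟩
        rw [decide_eq_true_iff, ← h8]
        exact hT
    · have := tile_low hC hc (by omega) hin hT
      omega

private theorem row_in {k : Bool} {x : ℤ} (h : k = true ∧ 2 ≤ x ∧ x ≤ 22) :
    row k x = 14 + |x - 12| := if_pos h

private theorem row_out {k : Bool} {x : ℤ} (h : ¬ (k = true ∧ 2 ≤ x ∧ x ≤ 22)) :
    row k x = if x % 2 = 1 then 23 else 24 := if_neg h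

private theorem corRow_eq {X : ℕ} : ((corRow (C.op (X / 28)) (X % 28) : ℕ) : ℤ) =
    row (decide ((C.op (X / 28)).kind = .T)) ((X % 28 : ℕ) : ℤ) := by
  have h0 := Nat.mod_lt X (show 28 > 0 by decide)
  generalize X % 28 = x at *
  unfold corRow
  by_cases h : (C.op (X / 28)).kind = .T ∧ 2 ≤ x ∧ x ≤ 22
  · rw [if_pos h, row_in ⟨by rw [decide_eq_true_iff]; exact h.1, by omega, by omega⟩]
    rcases le_total (12 : ℤ) x with h1 | h1
    · rw [abs_of_nonneg (by omega)]
      omega
    · rw [abs_of_nonpos (by omega)]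
      omega
  · rw [if_neg h, row_out (fun h' => h ⟨by simpa using h'.1, by omega, by omega⟩)]
    by_cases h1 : x % 2 = 1
    · rw [if_pos h1, if_pos (by omega)]
      rfl
    · rw [if_neg h1, if_neg (by omega)]
      rfl

private theorem corRow_nbr {X X' : ℕ} {e : ℤ} (he : e = 1 ∨ e = -1) (h : (X : ℤ) + e = X') :
    ((corRow (C.op (X' / 28)) (X' % 28) : ℕ) : ℤ) =
      row (decide ((C.op (X / 28)).kind = .T)) (((X % 28 : ℕ) : ℤ) + e) := by
  rw [corRow_eq]
  by_cases h1 : X' / 28 = X / 28
  · have h2 : ((X' % 28 : ℕ) : ℤ) = ((X % 28 : ℕ) : ℤ) + e := by omega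
    rw [h1, h2]
  · have h2 : ((X' % 28 : ℕ) : ℤ) = 0 ∧ ((X % 28 : ℕ) : ℤ) + e = 28 ∨ ((X' % 28 : ℕ) : ℤ) = 27 ∧
        ((X % 28 : ℕ) : ℤ) + e = -1 := by omega
    rcases h2 with ⟨h2, h3⟩ | ⟨h2, h3⟩
    · rw [h2, h3, row_out (by rintro ⟨-, h4, h5⟩; omega), row_out (by rintro ⟨-, h4, h5⟩; omega)]
      norm_num
    · rw [h2, h3, row_out (by rintro ⟨-, h4, h5⟩; omega), row_out (by rintro ⟨-, h4, h5⟩; omega)]
      norm_num

private theorem row_bd (k : Bool) (x : ℤ) : 14 ≤ row k x ∧ row k x ≤ 24 := by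
  by_cases h : k = true ∧ 2 ≤ x ∧ x ≤ 22
  · rw [row_in h]
    obtain ⟨-, h1, h2⟩ := h
    rcases le_total (12 : ℤ) x with h3 | h3
    · rw [abs_of_nonneg (by omega)]
      omega
    · rw [abs_of_nonpos (by omega)]
      omega
  · rw [row_out h]
    split_ifs <;> omega

private theorem row_par (k : Bool) (x : ℤ) : 2 ∣ x + row k x := by
  by_cases h : k = true ∧ 2 ≤ x ∧ x ≤ 22
  · rw [row_in h]
    obtain ⟨-, h1, h2⟩ := h
    rcases le_total (12 : ℤ) x with h3 | h3
    · rw [abs_of_nonneg (by omega)]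
      omega
    · rw [abs_of_nonpos (by omega)]
      omega
  · rw [row_out h]
    split_ifs <;> omega

private theorem hole_nbr_x (hC : C.Ok) {i : ℕ} (hi : i ≤ C.len) {d : ℤ × ℤ} (hd : IsDiag d) :
    C.Hole (C.xcell i + d) ∨
    (C.g.board (C.xcell i + d) = some ⟨dcol d, false⟩ ∧
      C.g.board (C.xcell i + d + d) = some ⟨dcol d, false⟩) := by
  have hLR := hC.hLR
  have hlen : C.len = 28 * (C.cR - C.cL) := rfl
  obtain ⟨X, hX⟩ : ∃ X, X = 28 * C.cL + 14 + i := ⟨_, rfl⟩
  have hX1 : 28 * C.cL + 14 ≤ X := by omega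
  have hX2 : X ≤ 28 * C.cR + 14 := by omega
  have hs1 : (C.xcell i).1 = X := by rw [hX]; rfl
  have hs2 : (C.xcell i).2 =
      172 + row (decide ((C.op (X / 28)).kind = .T)) ((X % 28 : ℕ) : ℤ) := by
    rw [← corRow_eq, hX]
    change ((12 + 8 * 20 + corRow _ _ : ℕ) : ℤ) = _
    push_cast
    ring
  have hrow := row_bd (decide ((C.op (X / 28)).kind = .T)) ((X % 28 : ℕ) : ℤ)
  have hpar := row_par (decide ((C.op (X / 28)).kind = .T)) ((X % 28 : ℕ) : ℤ)
  obtain ⟨d1, d2⟩ := d
  obtain ⟨hd1, hd2⟩ := hd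
  dsimp only at hd1 hd2
  have hchk := chk_W (decide ((C.op (X / 28)).kind = .T)) (decide ((C.op (X / 28 + 1)).kind = .T))
    (decide (d1 = 1)) (decide (d2 = 1)) ⟨X % 28, Nat.mod_lt _ (by decide)⟩
  dsimp only at hchk
  have e1 : (if decide (d1 = 1) = true then (1 : ℤ) else -1) = d1 := by
    rcases hd1 with h | h <;> rw [h] <;> rfl
  have e2 : (if decide (d2 = 1) = true then (1 : ℤ) else -1) = d2 := by
    rcases hd2 with h | h <;> rw [h] <;> rfl
  rw [e1, e2] at hchk
  rcases hchk with h | ⟨h, h'⟩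
  · by_cases hi0 : (i = 0 ∧ d1 = -1) ∨ (i = C.len ∧ d1 = 1)
    · -- the ends
      right
      have hcap := hC.caps
      have hsz := hC.size
      have hsg := hC.sg24
      obtain ⟨c, hcX, hkc, hc1, hc2, hcc⟩ : ∃ c, X = 28 * c + 14 ∧ (C.op c).kind = .blank ∧
          C.cL ≤ c ∧ c ≤ C.cR ∧ ((c = C.cL ∧ d1 = -1) ∨ (c = C.cR ∧ d1 = 1)) := by
        rcases hi0 with ⟨h1, h2⟩ | ⟨h1, h2⟩
        · exact ⟨C.cL, by omega, hcap.1, le_rfl, by omega, Or.inl ⟨rfl, h2⟩⟩
        · exact ⟨C.cR, by omega, hcap.2, by omega, le_rfl, Or.inr ⟨rfl, h2⟩⟩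
      obtain ⟨hcl, hcor⟩ := cor_range hC hc1 hc2
      have hc3 : X / 28 = c := by omega
      have hx3 : X % 28 = 14 := by omega
      have hin : ∀ x y, ¬ (C.op c).InTile x y := fun x y h => h.2.1 hkc
      rw [hc3, hx3, hkc] at hs2
      rw [hc3, hx3, hkc] at h
      have hr1 : row (decide (Kind.blank = Kind.T)) ((14 : ℕ) : ℤ) = 24 := by
        rw [row_out (by simp)]
        norm_num
      have hr2 : row (decide (Kind.blank = Kind.T)) (((14 : ℕ) : ℤ) + d1) = 23 := by
        rw [row_out (by simp)]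
        rcases hd1 with h | h <;> rw [h] <;> norm_num
      rw [hr1] at hs2 h
      rw [hr2] at h
      have hd2' : d2 = -1 := by omega
      subst hd2'
      have hdc : (some ⟨dcol (d1, -1), false⟩ : Option Piece) = bm := rfl
      rw [hdc]
      have hcor' : ((C.op c).cor = 2 ∧ d1 = -1) ∨ ((C.op c).cor = 3 ∧ d1 = 1) := by
        rcases hcc with ⟨h1, h2⟩ | ⟨h1, h2⟩
        · exact Or.inl ⟨(hC.cor2 c hcl).2 h1, h2⟩
        · exact Or.inr ⟨(hC.cor3 c hcl).2 h1, h2⟩
      constructor
      · obtain ⟨x, hx⟩ : ∃ x : ℕ, (14 : ℤ) + d1 = x := ⟨((14 : ℤ) + d1).toNat, by omega⟩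
        rw [board_at hcl (x := x) (y := 195) (by omega) (by omega) (by omega)
          (by rw [Prod.fst_add, hs1]; dsimp only; omega) (by rw [Prod.snd_add, hs2]; norm_num)]
        unfold cell
        rw [if_neg (hin _ _), if_pos ⟨by omega, by omega, by norm_num [bT]⟩, if_neg (by omega)]
      · obtain ⟨x, hx⟩ : ∃ x : ℕ, (14 : ℤ) + d1 + d1 = x := ⟨((14 : ℤ) + d1 + d1).toNat, by omega⟩
        rw [board_at hcl (x := x) (y := 194) (by omega) (by omega) (by omega)
          (by rw [Prod.fst_add, Prod.fst_add, hs1]; dsimp only; omega)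
          (by rw [Prod.snd_add, Prod.snd_add, hs2]; norm_num)]
        exact cell_gen hC hcl hcor (hin _ _) (r := 22) rfl rfl
    · left
      obtain ⟨i', hi'⟩ : ∃ i' : ℕ, (i : ℤ) + d1 = i' := ⟨((i : ℤ) + d1).toNat, by omega⟩
      have h1 : C.xcell i + (d1, d2) = C.xcell i' := by
        have h2 := corRow_nbr (C := C) (X := X) (X' := 28 * C.cL + 14 + i') (e := d1) (by omega)
          (by omega)
        ext
        · rw [Prod.fst_add, hs1]
          change (X : ℤ) + d1 = ((28 * C.cL + 14 + i' : ℕ) : ℤ)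
          omega
        · rw [Prod.snd_add, hs2]
          have h3 : (C.xcell i').2 = 172 + ((corRow (C.op ((28 * C.cL + 14 + i') / 28))
              ((28 * C.cL + 14 + i') % 28) : ℕ) : ℤ) := by
            change ((12 + 8 * 20 + corRow _ _ : ℕ) : ℤ) = _
            push_cast
            ring
          rw [h3, h2]
          omega
      rw [h1]
      exact Circ.Hole.x i' (by omega)
  · right
    refine ⟨W_spec hC hX1 hX2 (j := d1) (by omega) (by omega) ?_ ?_ ?_ ?_ ?_ h,
      W_spec hC hX1 hX2 (j := d1 + d1) (by omega) (by omega) ?_ ?_ ?_ ?_ ?_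
        (by rw [← add_assoc]; exact h')⟩
    all_goals first
      | omega
      | (simp only [Prod.fst_add, Prod.snd_add, hs1, hs2]; done)
      | (simp only [Prod.fst_add, Prod.snd_add, hs1, hs2]; omega)

/-! ### the other rooms -/

private theorem two_men {c : ℕ} {k : Kind} (hc : c < C.g.ops.length) (hk : (C.op c).kind = k)
    (hk1 : k ≠ .first) (hk2 : k ≠ .blank) {x r d1 d2 : ℤ} {p q : Option Piece}
    (hx : 3 ≤ x) (hx' : x ≤ 21) (hr : -1 ≤ r) (hr' : r + 1 + d2 ≤ k.ytop)
    (hd1 : d1 = 1 ∨ d1 = -1) (hd2 : d2 = 1 ∨ d2 = -1) (hp : 2 ∣ x + r)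
    (hN : 12 + 8 * ((C.op c).trk : ℤ) + r + 2 < C.g.N)
    (g1 : k.st.get (x + d1) (r + d2) = p) (g2 : k.st.get (x + d1 + d1) (r + d2 + d2) = q) :
    C.g.board (((28 * (c : ℤ) + x, 12 + 8 * ((C.op c).trk : ℤ) + r) : ℤ × ℤ) + (d1, d2)) = p ∧
      C.g.board (((28 * (c : ℤ) + x, 12 + 8 * ((C.op c).trk : ℤ) + r) : ℤ × ℤ) + (d1, d2) +
        (d1, d2)) = q := by
  constructor
  · rw [board_tile hc hk hk1 hk2 (x := x + d1) (r := r + d2)
      (by simp only [Prod.fst_add]; omega) (by simp only [Prod.snd_add]; omega)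
      (by omega) (by omega) (by omega) (by omega) (by omega) (by omega), g1]
  · rw [board_tile hc hk hk1 hk2 (x := x + d1 + d1) (r := r + d2 + d2)
      (by simp only [Prod.fst_add]; omega) (by simp only [Prod.snd_add]; omega)
      (by omega) (by omega) (by omega) (by omega) (by omega) (by omega), g2]

private theorem hole_nbr_y (hC : C.Ok) {c : ℕ} (hc : c < C.g.ops.length)
    (hk : (C.op c).kind = .Y) (u : Bool) {d : ℤ × ℤ} (hd : IsDiag d) :
    C.Hole (C.ycell c u + d) ∨
    (C.g.board (C.ycell c u + d) = some ⟨dcol d, false⟩ ∧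
      C.g.board (C.ycell c u + d + d) = some ⟨dcol d, false⟩) := by
  have hok := hC.tiles c hc
  unfold OpOk at hok
  rw [hk] at hok
  obtain ⟨-, -, -, -, hsg⟩ := hok
  have hsz := hC.size
  have hyt : Kind.Y.ytop = 28 := rfl
  obtain ⟨d1, d2⟩ := d
  obtain ⟨hd1, hd2⟩ := hd
  dsimp only at hd1 hd2
  have hh : ∀ v : Bool, C.Hole (C.ycell c v) := fun v => Circ.Hole.y c hc hk v
  cases u
  · -- the square (9, 13)
    have hs : C.ycell c false = (28 * (c : ℤ) + 9, 12 + 8 * ((C.op c).trk : ℤ) + 13) := rfl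
    by_cases h0 : d1 = 1 ∧ d2 = -1
    · obtain ⟨rfl, rfl⟩ := h0
      left
      have e : C.ycell c false + ((1 : ℤ), (-1 : ℤ)) = C.ycell c true := by
        rw [hs]
        ext
        · change 28 * (c : ℤ) + 9 + 1 = 28 * (c : ℤ) + 10
          ring
        · change 12 + 8 * ((C.op c).trk : ℤ) + 13 + -1 = 12 + 8 * ((C.op c).trk : ℤ) + 12
          ring
      rw [e]
      exact hh true
    · right
      rw [hs]
      refine two_men hc hk (by decide) (by decide) (by norm_num) (by norm_num) (by norm_num)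
        (by omega) hd1 hd2 (by norm_num) (by omega) ?_ ?_
      all_goals rcases hd1 with rfl | rfl <;> rcases hd2 with rfl | rfl <;>
        first | decide +kernel | exact absurd ⟨rfl, rfl⟩ h0
  · have hs : C.ycell c true = (28 * (c : ℤ) + 10, 12 + 8 * ((C.op c).trk : ℤ) + 12) := rfl
    by_cases h0 : d1 = -1 ∧ d2 = 1
    · obtain ⟨rfl, rfl⟩ := h0
      left
      have e : C.ycell c true + ((-1 : ℤ), (1 : ℤ)) = C.ycell c false := by
        rw [hs]
        ext
        · change 28 * (c : ℤ) + 10 + -1 = 28 * (c : ℤ) + 9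
          ring
        · change 12 + 8 * ((C.op c).trk : ℤ) + 12 + 1 = 12 + 8 * ((C.op c).trk : ℤ) + 13
          ring
      rw [e]
      exact hh false
    · right
      rw [hs]
      refine two_men hc hk (by decide) (by decide) (by norm_num) (by norm_num) (by norm_num)
        (by omega) hd1 hd2 (by norm_num) (by omega) ?_ ?_
      all_goals rcases hd1 with rfl | rfl <;> rcases hd2 with rfl | rfl <;>
        first | decide +kernel | exact absurd ⟨rfl, rfl⟩ h0

private theorem hole_nbr_g (hC : C.Ok) (u : Bool) {d : ℤ × ℤ} (hd : IsDiag d) :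
    C.Hole (C.gcell u + d) ∨
    (C.g.board (C.gcell u + d) = some ⟨dcol d, false⟩ ∧
      C.g.board (C.gcell u + d + d) = some ⟨dcol d, false⟩) := by
  have hc : C.cG < C.g.ops.length := by have := hC.hG; omega
  have hk : (C.op C.cG).kind = .G := (hC.gate _ hc).2 rfl
  have hok := hC.tiles _ hc
  unfold OpOk at hok
  rw [hk] at hok
  obtain ⟨-, -, htrk, hcor, -⟩ := hok
  have hsz := hC.size
  have hyt : Kind.G.ytop = 19 := rfl
  have htrk' : ((C.op C.cG).trk : ℤ) = C.g.sg := by rw [htrk]
  obtain ⟨d1, d2⟩ := d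
  obtain ⟨hd1, hd2⟩ := hd
  dsimp only at hd1 hd2
  have hh : ∀ v : Bool, C.Hole (C.gcell v) := fun v => Circ.Hole.g v
  have high : ∀ x r : ℤ, 0 ≤ x → x < 28 → 20 ≤ r → r ≤ 21 → 2 ∣ x + r → ∀ s : Square,
      s.1 = 28 * (C.cG : ℤ) + x → s.2 = 12 + 8 * (C.g.sg : ℤ) + r → C.g.board s = wm := by
    intro x r h1 h2 h3 h4 h5 s h6 h7
    obtain ⟨x', hx'⟩ : ∃ x' : ℕ, x = x' := ⟨x.toNat, by omega⟩
    obtain ⟨y', hy'⟩ : ∃ y' : ℕ, 12 + 8 * (C.g.sg : ℤ) + r = y' :=
      ⟨(12 + 8 * (C.g.sg : ℤ) + r).toNat, by omega⟩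
    exact board_gate hc hk htrk hcor (x := x') (y := y') (by omega) (by omega) (by omega)
      (by omega) (by omega) (by omega) (by omega)
  cases u
  · -- the square (14, 18)
    have hs : C.gcell false = (28 * (C.cG : ℤ) + 14, 12 + 8 * ((C.op C.cG).trk : ℤ) + 18) := by
      rw [htrk']
      rfl
    by_cases h0 : d1 = 1 ∧ d2 = 1
    · obtain ⟨rfl, rfl⟩ := h0
      left
      have e : C.gcell false + ((1 : ℤ), (1 : ℤ)) = C.gcell true := by
        ext
        · change 28 * (C.cG : ℤ) + 14 + 1 = 28 * (C.cG : ℤ) + 15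
          ring
        · change 12 + 8 * (C.g.sg : ℤ) + 18 + 1 = 12 + 8 * (C.g.sg : ℤ) + 19
          ring
      rw [e]
      exact hh true
    · right
      rcases hd2 with rfl | rfl
      · have hd1' : d1 = -1 := by
          rcases hd1 with h | h
          · exact absurd ⟨h, rfl⟩ h0
          · exact h
        subst hd1'
        constructor
        · rw [board_tile hc hk (by decide) (by decide) (x := 13) (r := 19)
            (by rw [hs]; simp only [Prod.fst_add]; ring) (by rw [hs]; simp only [Prod.snd_add]; ring)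
            (by norm_num) (by norm_num) (by norm_num) (by omega) (by norm_num) (by omega)]
          decide +kernel
        · rw [high 12 20 (by norm_num) (by norm_num) (by norm_num) (by norm_num) (by norm_num) _
            (by rw [hs]; simp only [Prod.fst_add]; ring)
            (by rw [hs, htrk']; simp only [Prod.snd_add]; ring)]
          rfl
      · rw [hs]
        refine two_men hc hk (by decide) (by decide) (by norm_num) (by norm_num) (by norm_num)
          (by omega) hd1 (Or.inr rfl) (by norm_num) (by omega) ?_ ?_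
        all_goals rcases hd1 with rfl | rfl <;> decide +kernel
  · -- the square (15, 19)
    have hs : C.gcell true = (28 * (C.cG : ℤ) + 15, 12 + 8 * ((C.op C.cG).trk : ℤ) + 19) := by
      rw [htrk']
      rfl
    by_cases h0 : d1 = -1 ∧ d2 = -1
    · obtain ⟨rfl, rfl⟩ := h0
      left
      have e : C.gcell true + ((-1 : ℤ), (-1 : ℤ)) = C.gcell false := by
        ext
        · change 28 * (C.cG : ℤ) + 15 + -1 = 28 * (C.cG : ℤ) + 14
          ring
        · change 12 + 8 * (C.g.sg : ℤ) + 19 + -1 = 12 + 8 * (C.g.sg : ℤ) + 18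
          ring
      rw [e]
      exact hh false
    · right
      rcases hd2 with rfl | rfl
      · constructor
        · rw [high (15 + d1) 20 (by omega) (by omega) (by norm_num) (by norm_num) (by omega) _
            (by rw [hs]; simp only [Prod.fst_add]; ring)
            (by rw [hs, htrk']; simp only [Prod.snd_add]; ring)]
          rfl
        · rw [high (15 + d1 + d1) 21 (by omega) (by omega) (by norm_num) (by norm_num) (by omega) _
            (by rw [hs]; simp only [Prod.fst_add]; ring)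
            (by rw [hs, htrk']; simp only [Prod.snd_add]; ring)]
          rfl
      · have hd1' : d1 = 1 := by
          rcases hd1 with h | h
          · exact h
          · exact absurd ⟨h, rfl⟩ h0
        subst hd1'
        rw [hs]
        refine two_men hc hk (by decide) (by decide) (by norm_num) (by norm_num) (by norm_num)
          (by omega) hd1 (Or.inr rfl) (by norm_num) (by omega) ?_ ?_
        all_goals decide +kernel

private theorem hole_nbr_n (hC : C.Ok) (u : Bool) {d : ℤ × ℤ} (hd : IsDiag d) :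
    C.Hole (C.ncell u + d) ∨
    (C.g.board (C.ncell u + d) = some ⟨dcol d, false⟩ ∧
      C.g.board (C.ncell u + d + d) = some ⟨dcol d, false⟩) ∨
    ((C.ncell u = C.ncell true ∧ d = (-1, -1) ∨ C.ncell u = C.ncell false ∧ d = (1, -1)) ∧
      C.g.board (C.ncell u + d) = wm ∧ C.g.board (C.ncell u + d + d) ≠ none) := by
  have hc : C.cN < C.g.ops.length := by have := hC.hG; have := hC.hNG; omega
  have hk : (C.op C.cN).kind = .N1 := (hC.n1 _ hc).2 rfl
  have hok := hC.tiles _ hc
  unfold OpOk at hok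
  rw [hk] at hok
  obtain ⟨-, -, htrk, -⟩ := hok
  have hsz := hC.size
  have hyt : Kind.N1.ytop = 20 := rfl
  have htrk' : ((C.op C.cN).trk : ℤ) = 0 := by rw [htrk]; rfl
  obtain ⟨d1, d2⟩ := d
  obtain ⟨hd1, hd2⟩ := hd
  dsimp only at hd1 hd2
  have hh : ∀ v : Bool, C.Hole (C.ncell v) := fun v => Circ.Hole.n v
  cases u
  · -- the square (15, 9)
    have hs : C.ncell false = (28 * (C.cN : ℤ) + 15, 12 + 8 * ((C.op C.cN).trk : ℤ) + 9) := by
      rw [htrk']
      rfl
    by_cases h0 : d1 = -1 ∧ d2 = -1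
    · obtain ⟨rfl, rfl⟩ := h0
      left
      have e : C.ncell false + ((-1 : ℤ), (-1 : ℤ)) = C.ncell true := by
        ext
        · change 28 * (C.cN : ℤ) + 15 + -1 = 28 * (C.cN : ℤ) + 14
          ring
        · rfl
      rw [e]
      exact hh true
    · right
      by_cases h1 : d1 = 1 ∧ d2 = -1
      · obtain ⟨rfl, rfl⟩ := h1
        right
        refine ⟨Or.inr ⟨rfl, rfl⟩, ?_⟩
        rw [hs]
        have := two_men hc hk (by decide) (by decide) (x := 15) (r := 9) (d1 := 1) (d2 := -1)
          (p := wm) (q := Kind.N1.st.get (15 + 1 + 1) (9 + -1 + -1))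
          (by norm_num) (by norm_num) (by norm_num)
          (by omega) hd1 hd2 (by norm_num) (by omega) (by decide +kernel) rfl
        refine ⟨this.1, ?_⟩
        rw [this.2]
        decide +kernel
      · left
        rw [hs]
        refine two_men hc hk (by decide) (by decide) (by norm_num) (by norm_num) (by norm_num)
          (by omega) hd1 hd2 (by norm_num) (by omega) ?_ ?_
        all_goals rcases hd1 with rfl | rfl <;> rcases hd2 with rfl | rfl <;>
          first | decide +kernel | exact absurd ⟨rfl, rfl⟩ h0 | exact absurd ⟨rfl, rfl⟩ h1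
  · -- the square (14, 8)
    have hs : C.ncell true = (28 * (C.cN : ℤ) + 14, 12 + 8 * ((C.op C.cN).trk : ℤ) + 8) := by
      rw [htrk']
      rfl
    by_cases h0 : d1 = 1 ∧ d2 = 1
    · obtain ⟨rfl, rfl⟩ := h0
      left
      have e : C.ncell true + ((1 : ℤ), (1 : ℤ)) = C.ncell false := by
        ext
        · change 28 * (C.cN : ℤ) + 14 + 1 = 28 * (C.cN : ℤ) + 15
          ring
        · rfl
      rw [e]
      exact hh false
    · right
      by_cases h1 : d1 = -1 ∧ d2 = -1
      · obtain ⟨rfl, rfl⟩ := h1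
        right
        refine ⟨Or.inl ⟨rfl, rfl⟩, ?_⟩
        rw [hs]
        have := two_men hc hk (by decide) (by decide) (x := 14) (r := 8) (d1 := -1) (d2 := -1)
          (p := wm) (q := Kind.N1.st.get (14 + -1 + -1) (8 + -1 + -1))
          (by norm_num) (by norm_num) (by norm_num)
          (by omega) hd1 hd2 (by norm_num) (by omega) (by decide +kernel) rfl
        refine ⟨this.1, ?_⟩
        rw [this.2]
        decide +kernel
      · left
        rw [hs]
        refine two_men hc hk (by decide) (by decide) (by norm_num) (by norm_num) (by norm_num)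
          (by omega) hd1 hd2 (by norm_num) (by omega) ?_ ?_
        all_goals rcases hd1 with rfl | rfl <;> rcases hd2 with rfl | rfl <;>
          first | decide +kernel | exact absurd ⟨rfl, rfl⟩ h0 | exact absurd ⟨rfl, rfl⟩ h1

private theorem hole_nbr_t (hC : C.Ok) (u : Bool) {d : ℤ × ℤ} (hd : IsDiag d) :
    ¬ IsDark C.g.N (C.tcell u + d) ∨ C.Hole (C.tcell u + d) ∨
    (C.g.board (C.tcell u + d) = some ⟨dcol d, false⟩ ∧
      C.g.board (C.tcell u + d + d) = some ⟨dcol d, false⟩) := by
  have hsz := hC.size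
  have hN : C.g.N = 28 * C.g.ops.length := rfl
  obtain ⟨n, hn⟩ : ∃ n : ℕ, C.g.N = n + 8 ∧ 2 ∣ n := ⟨C.g.N - 8, by omega, by omega⟩
  obtain ⟨d1, d2⟩ := d
  obtain ⟨hd1, hd2⟩ := hd
  dsimp only at hd1 hd2
  have hh : ∀ v : Bool, C.Hole (C.tcell v) := fun v => Circ.Hole.t v
  cases u
  · have hs : C.tcell false = (0, (C.g.N : ℤ) - 2) := rfl
    rcases hd1 with rfl | rfl
    · right
      rcases hd2 with rfl | rfl
      · left
        have e : C.tcell false + ((1 : ℤ), (1 : ℤ)) = C.tcell true := by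
          ext
          · rfl
          · change (C.g.N : ℤ) - 2 + 1 = (C.g.N : ℤ) - 1
            ring
        rw [e]
        exact hh true
      · right
        constructor
        · exact board_corner hC (x := 1) (y := n + 5) (by norm_num) (by omega) (by omega)
            (by rw [hs]; rfl) (by rw [hs]; simp only [Prod.snd_add]; omega) (by omega) (by omega)
        · exact board_corner hC (x := 2) (y := n + 4) (by norm_num) (by omega) (by omega)
            (by rw [hs]; rfl) (by rw [hs]; simp only [Prod.snd_add]; omega) (by omega) (by omega)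
    · left
      rw [hs]
      rintro ⟨h, -⟩
      simp only [Prod.fst_add] at h
      omega
  · have hs : C.tcell true = (1, (C.g.N : ℤ) - 1) := rfl
    rcases hd2 with rfl | rfl
    · left
      rw [hs]
      rintro ⟨-, -, -, h, -⟩
      simp only [Prod.snd_add] at h
      omega
    · right
      rcases hd1 with rfl | rfl
      · right
        constructor
        · exact board_corner hC (x := 2) (y := n + 6) (by norm_num) (by omega) (by omega)
            (by rw [hs]; rfl) (by rw [hs]; simp only [Prod.snd_add]; omega) (by omega) (by omega)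
        · exact board_corner hC (x := 3) (y := n + 5) (by norm_num) (by omega) (by omega)
            (by rw [hs]; rfl) (by rw [hs]; simp only [Prod.snd_add]; omega) (by omega) (by omega)
      · left
        have e : C.tcell true + ((-1 : ℤ), (-1 : ℤ)) = C.tcell false := by
          ext
          · rfl
          · change (C.g.N : ℤ) - 1 + -1 = (C.g.N : ℤ) - 2
            ring
        rw [e]
        exact hh false

/-- The surroundings of an empty square. -/
theorem hole_nbr (hC : C.Ok) {s : Square} (h : C.Hole s) {d : ℤ × ℤ} (hd : IsDiag d) :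
    ¬ IsDark C.g.N (s + d) ∨ C.Hole (s + d) ∨
    (C.g.board (s + d) = some ⟨dcol d, false⟩ ∧
      (IsDark C.g.N (s + d + d) → C.g.board (s + d + d) = some ⟨dcol d, false⟩)) ∨
    ((s = C.ncell true ∧ d = (-1, -1) ∨ s = C.ncell false ∧ d = (1, -1)) ∧
      C.g.board (s + d) = wm ∧ C.g.board (s + d + d) ≠ none) := by
  cases h with
  | x i hi =>
    rcases hole_nbr_x hC hi hd with h | h
    · exact Or.inr (Or.inl h)
    · exact Or.inr (Or.inr (Or.inl ⟨h.1, fun _ => h.2⟩))
  | y c hc hk u =>
    rcases hole_nbr_y hC hc hk u hd with h | h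
    · exact Or.inr (Or.inl h)
    · exact Or.inr (Or.inr (Or.inl ⟨h.1, fun _ => h.2⟩))
  | n u =>
    rcases hole_nbr_n hC u hd with h | h | h
    · exact Or.inr (Or.inl h)
    · exact Or.inr (Or.inr (Or.inl ⟨h.1, fun _ => h.2⟩))
    · exact Or.inr (Or.inr (Or.inr h))
  | g u =>
    rcases hole_nbr_g hC u hd with h | h
    · exact Or.inr (Or.inl h)
    · exact Or.inr (Or.inr (Or.inl ⟨h.1, fun _ => h.2⟩))
  | t u =>
    rcases hole_nbr_t hC u hd with h | h | h
    · exact Or.inl h
    · exact Or.inr (Or.inl h)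
    · exact Or.inr (Or.inr (Or.inl ⟨h.1, fun _ => h.2⟩))

/-! ### adjacent squares -/

private theorem xcell_fst (i : ℕ) : (C.xcell i).1 = 28 * (C.cL : ℤ) + 14 + i := by
  change ((28 * C.cL + 14 + i : ℕ) : ℤ) = _
  push_cast
  ring

private theorem ycell_fst (c : ℕ) (u : Bool) :
    (C.ycell c u).1 = 28 * (c : ℤ) + (if u then 10 else 9) := rfl

private theorem ncell_fst (u : Bool) :
    (C.ncell u).1 = 28 * (C.cN : ℤ) + (if u then 14 else 15) := rfl

private theorem gcell_fst (u : Bool) :
    (C.gcell u).1 = 28 * (C.cG : ℤ) + (if u then 15 else 14) := rfl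

private theorem tcell_fst (u : Bool) : (C.tcell u).1 = (if u then 1 else 0) := by
  cases u <;> rfl

private theorem not_xy (hC : C.Ok) {i c : ℕ} (hi : i ≤ C.len) (hc : c < C.g.ops.length)
    (hk : (C.op c).kind = .Y) (u : Bool) {e : ℤ} (he : e = 1 ∨ e = -1)
    (h : (C.xcell i).1 = (C.ycell c u).1 + e) : False := by
  have hlen : C.len = 28 * (C.cR - C.cL) := rfl
  have hLR := hC.hLR
  have hok := hC.tiles c hc
  unfold OpOk at hok
  rw [hk] at hok
  obtain ⟨-, -, -, hcor, -⟩ := hok
  rw [xcell_fst, ycell_fst] at h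
  have h1 : 9 ≤ (if u = true then (10 : ℤ) else 9) ∧ (if u = true then (10 : ℤ) else 9) ≤ 10 := by
    split_ifs <;> norm_num
  obtain ⟨-, h2, h3⟩ := cor_range hC (c := c) (by omega) (by omega)
  omega

/-- Adjacent empty squares belong to the same room. -/
theorem hole_adj (hC : C.Ok) {s : Square} (h : C.Hole s) {d : ℤ × ℤ} (hd : IsDiag d)
    (h' : C.Hole (s + d)) :
    (∃ i < C.len, (s = C.xcell i ∧ s + d = C.xcell (i + 1)) ∨
      (s = C.xcell (i + 1) ∧ s + d = C.xcell i)) ∨
    (∃ c < C.g.ops.length, ∃ u, (C.op c).kind = .Y ∧ s = C.ycell c u ∧ s + d = C.ycell c !u) ∨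
    (∃ u, s = C.ncell u ∧ s + d = C.ncell !u) ∨
    (∃ u, s = C.gcell u ∧ s + d = C.gcell !u) ∨
    (∃ u, s = C.tcell u ∧ s + d = C.tcell !u) := by
  have hLR := hC.hLR
  have hRN := hC.hRN
  have hNG := hC.hNG
  have hlen : C.len = 28 * (C.cR - C.cL) := rfl
  have hd1 : d.1 = 1 ∨ d.1 = -1 := hd.1
  have hNc : C.cN < C.g.ops.length := by have := hC.hG; omega
  have hGc : C.cG < C.g.ops.length := by have := hC.hG; omega
  have hNk : (C.op C.cN).kind = .N1 := (hC.n1 _ hNc).2 rfl
  have hGk : (C.op C.cG).kind = .G := (hC.gate _ hGc).2 rfl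
  have hneg : ∀ {e : ℤ}, e = 1 ∨ e = -1 → -e = 1 ∨ -e = -1 := by
    rintro e (h | h) <;> omega
  have by1 : ∀ u : Bool, 9 ≤ (if u = true then (10 : ℤ) else 9) ∧
      (if u = true then (10 : ℤ) else 9) ≤ 10 := by
    intro u; split_ifs <;> norm_num
  have bn1 : ∀ u : Bool, 14 ≤ (if u = true then (14 : ℤ) else 15) ∧
      (if u = true then (14 : ℤ) else 15) ≤ 15 := by
    intro u; split_ifs <;> norm_num
  have bg1 : ∀ u : Bool, 14 ≤ (if u = true then (15 : ℤ) else 14) ∧
      (if u = true then (15 : ℤ) else 14) ≤ 15 := by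
    intro u; split_ifs <;> norm_num
  have bt1 : ∀ u : Bool, 0 ≤ (if u = true then (1 : ℤ) else 0) ∧
      (if u = true then (1 : ℤ) else 0) ≤ 1 := by
    intro u; split_ifs <;> norm_num
  obtain ⟨s', hs'⟩ : ∃ s', s + d = s' := ⟨_, rfl⟩
  have hfst : s'.1 = s.1 + d.1 := by rw [← hs']; rfl
  rw [hs'] at h' ⊢
  generalize d.1 = e at hd1 hfst
  cases h with
  | x i hi =>
    cases h' with
    | x j hj =>
      rw [xcell_fst, xcell_fst] at hfst
      left
      rcases hd1 with h1 | h1
      · have : j = i + 1 := by omega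
        subst this
        exact ⟨i, by omega, Or.inl ⟨rfl, rfl⟩⟩
      · have : i = j + 1 := by omega
        subst this
        exact ⟨j, by omega, Or.inr ⟨rfl, rfl⟩⟩
    | y c hc hk u => exact (not_xy hC hi hc hk u (hneg hd1) (by omega)).elim
    | n u => rw [xcell_fst, ncell_fst] at hfst; have := bn1 u; omega
    | g u => rw [xcell_fst, gcell_fst] at hfst; have := bg1 u; omega
    | t u => rw [xcell_fst, tcell_fst] at hfst; have := bt1 u; omega
  | y c hc hk u =>
    cases h' with
    | x j hj => exact (not_xy hC hj hc hk u hd1 hfst).elim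
    | y c' hc' hk' v =>
      rw [ycell_fst, ycell_fst] at hfst
      have h1 := by1 u
      have h2 := by1 v
      have h3 : c' = c := by omega
      subst h3
      right; left
      refine ⟨c', hc, u, hk, rfl, ?_⟩
      cases u <;> cases v
      · exfalso; simp at hfst; omega
      · rfl
      · rfl
      · exfalso; simp at hfst; omega
    | n v => rw [ycell_fst, ncell_fst] at hfst; have := by1 u; have := bn1 v; omega
    | g v => rw [ycell_fst, gcell_fst] at hfst; have := by1 u; have := bg1 v; omega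
    | t v => rw [ycell_fst, tcell_fst] at hfst; have := by1 u; have := bt1 v; omega
  | n u =>
    cases h' with
    | x j hj => rw [xcell_fst, ncell_fst] at hfst; have := bn1 u; omega
    | y c hc hk v => rw [ycell_fst, ncell_fst] at hfst; have := by1 v; have := bn1 u; omega
    | n v =>
      rw [ncell_fst, ncell_fst] at hfst
      right; right; left
      refine ⟨u, rfl, ?_⟩
      cases u <;> cases v
      · exfalso; simp at hfst; omega
      · rfl
      · rfl
      · exfalso; simp at hfst; omega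
    | g v => rw [gcell_fst, ncell_fst] at hfst; have := bg1 v; have := bn1 u; omega
    | t v => rw [tcell_fst, ncell_fst] at hfst; have := bt1 v; have := bn1 u; omega
  | g u =>
    cases h' with
    | x j hj => rw [xcell_fst, gcell_fst] at hfst; have := bg1 u; omega
    | y c hc hk v => rw [ycell_fst, gcell_fst] at hfst; have := by1 v; have := bg1 u; omega
    | n v => rw [gcell_fst, ncell_fst] at hfst; have := bg1 u; have := bn1 v; omega
    | g v =>
      rw [gcell_fst, gcell_fst] at hfst
      right; right; right; left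
      refine ⟨u, rfl, ?_⟩
      cases u <;> cases v
      · exfalso; simp at hfst; omega
      · rfl
      · rfl
      · exfalso; simp at hfst; omega
    | t v => rw [tcell_fst, gcell_fst] at hfst; have := bt1 v; have := bg1 u; omega
  | t u =>
    cases h' with
    | x j hj => rw [xcell_fst, tcell_fst] at hfst; have := bt1 u; omega
    | y c hc hk v => rw [ycell_fst, tcell_fst] at hfst; have := by1 v; have := bt1 u; omega
    | n v => rw [tcell_fst, ncell_fst] at hfst; have := bt1 u; have := bn1 v; omega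
    | g v => rw [tcell_fst, gcell_fst] at hfst; have := bt1 u; have := bg1 v; omega
    | t v =>
      rw [tcell_fst, tcell_fst] at hfst
      right; right; right; right
      refine ⟨u, rfl, ?_⟩
      cases u <;> cases v
      · exfalso; simp at hfst; omega
      · rfl
      · rfl
      · exfalso; simp at hfst; omega

end Pool.Agent.MC95
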