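import Pool.Agent.MC95.Rules

/-!
# Local boards as bit patterns

A *local board* is a rectangular window of the board with columns `-4, ..., 28` and rows
`-6, -5, ...` (in local coordinates), stored as three natural numbers: the squares with White
pieces, the squares with Black pieces, and the squares with kings. The square `(x, y)` has the
index `ix x y = (x + 4) + 64 * (y + 6)`.
-/

namespace Pool.Agent.MC95

/-- Index of the square `(x, y)` of a window. -/
def ix (x y : ℤ) : ℕ := (x + 4).toNat + 64 * (y + 6).toNat

/-- Local boards: White pieces, Black pieces, kings. -/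
structure LB where
  w : ℕ
  b : ℕ
  k : ℕ
  deriving DecidableEq

/-- The content of the square `(x, y)`. -/
def LB.get (L : LB) (x y : ℤ) : Option Piece :=
  if L.w.testBit (ix x y) then some ⟨.white, L.k.testBit (ix x y)⟩
  else if L.b.testBit (ix x y) then some ⟨.black, L.k.testBit (ix x y)⟩
  else none

/-- The bits of one row of the pattern of dark squares with `-4 ≤ x ≤ 28`; `p` is the parity of
the row. -/
def rowBits (p : ℕ) : ℕ :=
  if p % 2 = 0 then (4 ^ 17 - 1) / 3 else 2 * ((4 ^ 16 - 1) / 3)

/-- The bits of one row of the pattern of dark squares with `-2 ≤ x ≤ 26`. -/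
def zoneBits (p : ℕ) : ℕ :=
  if p % 2 = 0 then 4 * ((4 ^ 15 - 1) / 3) else 8 * ((4 ^ 14 - 1) / 3)

/-- Rows `lo, ..., lo + n - 1` (counted from row `-6`), each with the pattern `f`. -/
def rows (f : ℕ → ℕ) (lo : ℕ) : ℕ → ℕ
  | 0 => 0
  | n + 1 => rows f lo n ||| (f (lo + n) <<< (64 * (lo + n)))

/-- The dark squares with `-4 ≤ x ≤ 28` and `lo ≤ y + 6 < lo + n`. -/
def full (lo n : ℕ) : ℕ := rows rowBits lo n

/-- The dark squares with `-2 ≤ x ≤ 26` and `lo ≤ y + 6 < lo + n`. -/
def zone (lo n : ℕ) : ℕ := rows zoneBits lo n

/-- The four diagonal directions: up right, up left, down right, down left. -/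
inductive Dg
  | ur | ul | dr | dl
  deriving DecidableEq

/-- The direction as a vector. -/
def Dg.v : Dg → ℤ × ℤ
  | .ur => (1, 1)
  | .ul => (-1, 1)
  | .dr => (1, -1)
  | .dl => (-1, -1)

/-- `Dg.sh d n` has the bit `s` if and only if `n` has the bit of the square next to the square
of `s` in direction `d`. -/
def Dg.sh : Dg → ℕ → ℕ
  | .ur, n => n >>> 65
  | .ul, n => n >>> 63
  | .dr, n => n <<< 63
  | .dl, n => n <<< 65

/-- The index of the square next to the square of `s` in direction `d`. -/
def Dg.nx : Dg → ℕ → ℕ
  | .ur, s => s + 65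
  | .ul, s => s + 63
  | .dr, s => s - 63
  | .dl, s => s - 65

/-- Men of the colour `c` move in direction `d`. -/
def Dg.fwd (c : Color) : Dg → Bool
  | .ur => decide (c = .white)
  | .ul => decide (c = .white)
  | .dr => decide (c = .black)
  | .dl => decide (c = .black)

/-- The pieces of a colour. -/
def LB.own (L : LB) : Color → ℕ
  | .white => L.w
  | .black => L.b

/-- The squares from which the player `c` can jump in direction `d`; `F` is the set of dark
squares of the window. -/
def LB.caps (F : ℕ) (L : LB) (c : Color) (d : Dg) : ℕ :=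
  (if d.fwd c then L.own c else L.own c &&& L.k) &&&
    (d.sh (L.own c.other) &&& d.sh (d.sh (F ^^^ (L.w ||| L.b))))

/-- The local board after the jump of the piece on `s` in direction `d`. -/
def LB.jump (L : LB) (c : Color) (s : ℕ) (d : Dg) : LB :=
  let t := d.nx (d.nx s)
  let m := d.nx s
  let o := (L.own c ^^^ (1 <<< s)) ||| (1 <<< t)
  let r := L.own c.other ^^^ (1 <<< m)
  let k0 := if L.k.testBit m then L.k ^^^ (1 <<< m) else L.k
  let k := if k0.testBit s then (k0 ^^^ (1 <<< s)) ||| (1 <<< t) else k0
  match c with
  | .white => ⟨o, r, k⟩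
  | .black => ⟨r, o, k⟩

/-- The four directions. -/
def dgs : List Dg := [.ur, .ul, .dr, .dl]

/-- One jump of a run. The player `c` jumps from `s` in direction `d`, inside the zone `Z`; if `u`,
then it is the only possible jump of that player. The piece cannot jump on. -/
def LB.stepOk (F Z : ℕ) (L : LB) (c : Color) (u : Bool) (s : ℕ) (d : Dg) : Bool :=
  (if u then dgs.all fun e => decide (L.caps F c e = if e = d then 1 <<< s else 0)
    else (L.caps F c d).testBit s) &&
  Z.testBit s && Z.testBit (d.nx s) && Z.testBit (d.nx (d.nx s)) &&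
  (dgs.all fun e => !((L.jump c s d).caps F c e).testBit (d.nx (d.nx s)))

/-- A run: the sequence of jumps `mv`, beginning with the player `c`. The jumps of the player `c`
have to be the only ones if `u c`. The result is the final local board and the player to move. -/
def LB.run (F Z : ℕ) (u : Color → Bool) : Color → LB → List (ℕ × Dg) → Option (LB × Color)
  | c, L, [] => some (L, c)
  | c, L, (s, d) :: mv =>
    if L.stepOk F Z c (u c) s d then LB.run F Z u c.other (L.jump c s d) mv else none

/-- All pieces are on dark squares of the window. -/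
def LB.wf (F : ℕ) (L : LB) : Bool :=
  decide (L.w ||| F = F) && decide (L.b ||| F = F) && decide (L.w &&& L.b = 0) &&
    decide (L.k ||| (L.w ||| L.b) = L.w ||| L.b)

/-- The part of a local board inside `M`. -/
def LB.restr (M : ℕ) (L : LB) : LB := ⟨L.w &&& M, L.b &&& M, L.k &&& M⟩

/-- Change of one square. -/
def LB.put (L : LB) (x y : ℤ) (o : Option Piece) : LB :=
  let i := ix x y
  let w := if L.w.testBit i then L.w ^^^ (1 <<< i) else L.w
  let b := if L.b.testBit i then L.b ^^^ (1 <<< i) else L.b
  let k := if L.k.testBit i then L.k ^^^ (1 <<< i) else L.k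
  match o with
  | none => ⟨w, b, k⟩
  | some ⟨.white, false⟩ => ⟨w ||| (1 <<< i), b, k⟩
  | some ⟨.black, false⟩ => ⟨w, b ||| (1 <<< i), k⟩
  | some ⟨.white, true⟩ => ⟨w ||| (1 <<< i), b, k ||| (1 <<< i)⟩
  | some ⟨.black, true⟩ => ⟨w, b ||| (1 <<< i), k ||| (1 <<< i)⟩

/-- Abbreviations for pieces. -/
abbrev wm : Option Piece := some ⟨.white, false⟩
abbrev bm : Option Piece := some ⟨.black, false⟩
abbrev wk : Option Piece := some ⟨.white, true⟩
abbrev bk : Option Piece := some ⟨.black, true⟩

/-- The port of an eastbound wave, with its anchor in column `x`, on track `t`. -/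
def LB.portE (L : LB) (x : ℤ) (t : ℕ) : LB :=
  ((L.put x (8 * t) bm).put (x + 1) (8 * t + 1) none).put (x + 2) (8 * t + 2) none

/-- The port of a westbound wave, with its anchor in column `x`, on track `t`. -/
def LB.portW (L : LB) (x : ℤ) (t : ℕ) : LB :=
  ((L.put x (8 * t) bm).put (x - 1) (8 * t + 1) none).put (x - 2) (8 * t + 2) none

end Pool.Agent.MC95
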