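import Pool.Agent.MC95.LPass

/-!
# The part after the corridor

PLAN. The two blank tiles are passed straight (`straightOk` with `t ≤ 21`), N1 by the definition of
`aW` on track `2`, straight on track `4`. In `finB`: `U 2` moves track `2` to `3`, `H 2` passes track
`3` and moves track `4` to `2`; the `i`-th pair of tiles `U (3 + i)`, `U (2 + i)` moves track
`3 + i` to `4 + i` and track `2 + i` to `3 + i`; after `sg - 3` pairs the two waves are on the
tracks `sg` and `sg - 1`. `UT sg` moves `sg` to `sg + 1`, `U (sg - 1)` moves `sg - 1` to `sg`, and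
the gate is entered on its track `1` or `0`.
-/

namespace Pool.Agent.MC95

variable {m : ℕ} {stop : ℕ → ℕ} {s : AS}

private theorem end_pairsW {sg : ℕ} (n : ℕ) (h : 3 + n ≤ sg) :
    Fwd sg stop s ((List.range n).flatMap fun i => [tl 0 .U (3 + i), tl 0 .U (2 + i)])
      3 (3 + n) := by
  induction n with
  | zero => exact Fwd.nil 3
  | succ n ih =>
    rw [List.range_succ, List.flatMap_append]
    refine Fwd.append (ih (by omega)) ?_
    simp only [List.flatMap_cons, List.flatMap_nil, List.append_nil]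
    refine Fwd.cons (t' := 3 + n + 1) ?_ ?_
    · exact Fwd.U (o := tl 0 .U (3 + n)) rfl (Or.inl (by simp only [tl]; omega))
    · refine Fwd.straight (Or.inr ?_) ?_
      · simp only [tl, Kind.n]; omega
      · refine ⟨by omega, by omega, Or.inl rfl, by simp [tl], by simp [tl]⟩

private theorem end_pairsL {sg : ℕ} (n : ℕ) (h : 3 + n ≤ sg) :
    Fwd sg stop s ((List.range n).flatMap fun i => [tl 0 .U (3 + i), tl 0 .U (2 + i)])
      2 (2 + n) := by
  induction n with
  | zero => exact Fwd.nil 2
  | succ n ih =>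
    rw [List.range_succ, List.flatMap_append]
    refine Fwd.append (ih (by omega)) ?_
    simp only [List.flatMap_cons, List.flatMap_nil, List.append_nil]
    refine Fwd.cons (t' := 2 + n) ?_ ?_
    · refine Fwd.straight (Or.inl ?_) ?_
      · simp only [tl]; omega
      · refine ⟨by omega, by omega, Or.inl rfl, by simp [tl], by simp [tl]⟩
    · exact Fwd.U (o := tl 0 .U (2 + n)) rfl (Or.inl (by simp only [tl]; omega))

private theorem finB_W {sg : ℕ} (hsg : 4 ≤ sg) (ha : s.a = false) (i j : ℕ) :
    aW sg stop s (finB sg) i j 2 true true := by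
  unfold finB
  have h1 : Fwd sg stop s [tl 0 .U 2] 2 3 :=
    Fwd.U (o := tl 0 .U 2) rfl (Or.inl (by simp only [tl]; omega))
  have h2 : Fwd sg stop s [tl 0 .H 2] 3 3 := Fwd.H1 (o := tl 0 .H 2) rfl
  have h3 := Fwd.cons h1 (Fwd.cons h2 (end_pairsW (stop := stop) (s := s) (sg := sg) (sg - 3)
    (by omega)))
  rw [show 3 + (sg - 3) = sg by omega] at h3
  have h4 : Fwd sg stop s [tl 0 .UT sg] sg (sg + 1) := Fwd.UT (o := tl 0 .UT sg) rfl
  have h5 : Fwd sg stop s [tl 0 .U (sg - 1)] (sg + 1) (sg + 1) := by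
    refine Fwd.straight (Or.inr ?_) ?_
    · simp only [tl, Kind.n]; omega
    · refine ⟨by omega, by omega, Or.inl rfl, by simp [tl], by simp [tl]⟩
  have h6 := Fwd.append h3 (Fwd.cons h4 h5)
  have h7 := (h6 [tl 0 .G sg, bl 0] i j).1 true true ?_
  · simpa using h7
  · simp [aW, tl, Kind.n, ha]

private theorem finB_L {sg : ℕ} (hsg : 4 ≤ sg) (i j : ℕ) :
    aL sg stop s (finB sg) i j 4 := by
  unfold finB
  have h1 : Fwd sg stop s [tl 0 .U 2] 4 4 := by
    refine Fwd.straight (Or.inr ?_) ?_
    · simp only [tl, Kind.n]; omega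
    · refine ⟨by omega, by omega, Or.inl rfl, by simp [tl], by simp [tl]⟩
  have h2 : Fwd sg stop s [tl 0 .H 2] 4 2 := Fwd.H2 (o := tl 0 .H 2) rfl
  have h3 := Fwd.cons h1 (Fwd.cons h2 (end_pairsL (stop := stop) (s := s) (sg := sg) (sg - 3)
    (by omega)))
  rw [show 2 + (sg - 3) = sg - 1 by omega] at h3
  have h4 : Fwd sg stop s [tl 0 .UT sg] (sg - 1) (sg - 1) := by
    refine Fwd.straight (Or.inl ?_) ?_
    · simp only [tl]; omega
    · refine ⟨by omega, by omega, Or.inl rfl, by simp [tl], by simp [tl]⟩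
  have h5 : Fwd sg stop s [tl 0 .U (sg - 1)] (sg - 1) sg := by
    have := Fwd.U (sg := sg) (stop := stop) (s := s) (o := tl 0 .U (sg - 1)) rfl
      (Or.inl (by simp only [tl]; omega))
    simpa only [tl, show sg - 1 + 1 = sg by omega] using this
  have h6 := Fwd.append h3 (Fwd.cons h4 h5)
  have h7 := (h6 [tl 0 .G sg, bl 0] i j).2 ?_
  · simpa using h7
  · simp [aL, tl, Kind.n]

theorem endB_W (ha : s.a = false) (i j : ℕ) :
    aW (lsg m) stop s (endB m) i j 2 true s.al := by
  have h := finB_W (stop := stop) (s := s) (sg := lsg m) (by unfold lsg; omega) ha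
  unfold endB
  simp [aW, tl, Kind.n, straightOk, h]
  unfold lsg; omega

theorem endB_L (i j : ℕ) : aL (lsg m) stop s (endB m) i j 4 := by
  have h := finB_L (stop := stop) (s := s) (sg := lsg m) (by unfold lsg; omega)
  unfold endB
  simp [aL, tl, Kind.n, straightOk, h]
  unfold lsg; omega

end Pool.Agent.MC95
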