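import Pool.Agent.MC95.LPass

/-!
# The interface between the roots and the rest of the circuit
-/

namespace Pool.Agent.MC95

variable {m : ℕ} {stop : ℕ → ℕ} {s : AS}

/-- What the list `l` of tiles does with waves on the even tracks, `i` tiles Y having been passed. -/
structure KIF (m : ℕ) (stop : ℕ → ℕ) (s : AS) (l : List Op) (i : ℕ) : Prop where
  xW : ∀ q < 4, s.a = false → s.x = stop q →
    aW (lsg m) stop s l i 0 (20 - 4 * q) false s.al
  qW : ∀ q < 4, s.a = false → s.x = stop q → aW (lsg m) stop s l i 0 18 false s.al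
  xL : ∀ q < 4, s.x ≠ stop q → aL (lsg m) stop s l i 0 (20 - 4 * q)
  fL : aL (lsg m) stop s l i 0 4
  pW : ∀ q < 4, s.a = false → s.x = stop q → ∀ k, i ≤ k → k < m → s.y k = true →
    aW (lsg m) stop s l i 0 (22 + 4 * k) false s.al
  nW : ∀ q < 4, s.a = false → s.x = stop q → ∀ k, i ≤ k → k < m → s.y k = false →
    aW (lsg m) stop s l i 0 (24 + 4 * k) false s.al
  pL : ∀ k, i ≤ k → k < m → s.y k = false → aL (lsg m) stop s l i 0 (22 + 4 * k)
  nL : ∀ k, i ≤ k → k < m → s.y k = true → aL (lsg m) stop s l i 0 (24 + 4 * k)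

/-- Tiles that are passed by waves on the even tracks up to `20 + 4 * m`. -/
theorem KIF.pass {B l : List Op} {i : ℕ} (h : KIF m stop s l i)
    (hB : ∀ u, 2 ∣ u → 2 ≤ u → u ≤ 20 + 4 * m → Fwd (lsg m) stop s B u u)
    (hY : num .Y B = 0) (hT : num .T B = 0) : KIF m stop s (B ++ l) i := by
  have hW : ∀ u, 2 ∣ u → 2 ≤ u → u ≤ 20 + 4 * m → ∀ xd kd, aW (lsg m) stop s l i 0 u xd kd →
      aW (lsg m) stop s (B ++ l) i 0 u xd kd := by
    intro u h1 h2 h3 xd kd h4
    refine (hB u h1 h2 h3 l i 0).1 xd kd ?_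
    rw [hY, hT]
    exact h4
  have hL : ∀ u, 2 ∣ u → 2 ≤ u → u ≤ 20 + 4 * m → aL (lsg m) stop s l i 0 u →
      aL (lsg m) stop s (B ++ l) i 0 u := by
    intro u h1 h2 h3 h4
    refine (hB u h1 h2 h3 l i 0).2 ?_
    rw [hY, hT]
    exact h4
  exact
    { xW := fun q hq ha hx => hW _ (by omega) (by omega) (by omega) _ _ (h.xW q hq ha hx)
      qW := fun q hq ha hx => hW _ (by omega) (by omega) (by omega) _ _ (h.qW q hq ha hx)
      xL := fun q hq hx => hL _ (by omega) (by omega) (by omega) (h.xL q hq hx)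
      fL := hL _ (by omega) (by omega) (by omega) h.fL
      pW := fun q hq ha hx k hi hk hy =>
        hW _ (by omega) (by omega) (by omega) _ _ (h.pW q hq ha hx k hi hk hy)
      nW := fun q hq ha hx k hi hk hy =>
        hW _ (by omega) (by omega) (by omega) _ _ (h.nW q hq ha hx k hi hk hy)
      pL := fun k hi hk hy => hL _ (by omega) (by omega) (by omega) (h.pL k hi hk hy)
      nL := fun k hi hk hy => hL _ (by omega) (by omega) (by omega) (h.nL k hi hk hy) }

end Pool.Agent.MC95
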