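import Pool.Agent.MC95.LX
import Pool.Agent.MC95.LKif

/-!
# The tests of the kings

PLAN. `king_step`: with `b = 22 + 4 * k`. Even tracks `u` other than `b`, `b + 2` pass all tiles of
`kingB` (`send_pass`; `U b`, `Y b` have the tracks `b, ..., b + 3`; the tiles `M (b - 1)`,
`M (b + 1)` have the tracks `b - 1, b` and `b + 1, b + 2`); they also count the tile Y, so the
counter changes from `k` to `k + 1`. Track `b`: `U b` leads to `b + 1`, the input `1` of Y:
if `s.y k = true` to `b + 1`, then `send (b + 1) 18` to `18`, which passes the rest; if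
`s.y k = false` to `b`, which passes both `send`s, goes to `b - 1` in `M (b - 1)` and to `4`. Track
`b + 2` is the input `2` of Y: if `s.y k = false` to `b + 3`, which passes `send (b + 1) 18`, then
`send (b + 3) 18`; if `s.y k = true` to `b + 2`, which passes everything up to `M (b + 1)`, then
`send (b + 1) 4`.
-/

namespace Pool.Agent.MC95

variable {m : ℕ} {stop : ℕ → ℕ} {s : AS}

/-- The part of `kingB` after the tile Y. -/
private def kR (S k : ℕ) : List Op :=
  send S (23 + 4 * k) 18 ++ (send S (25 + 4 * k) 18 ++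
      (tl 2 .M (21 + 4 * k) :: (send S (21 + 4 * k) 4 ++
        (tl 2 .M (23 + 4 * k) :: send S (23 + 4 * k) 4))))

private theorem kingB_eq (S k : ℕ) (y0 : Bool) :
    kingB S k y0 = tl 2 .U (22 + 4 * k) :: ⟨.Y, 22 + 4 * k, 2, 0, y0⟩ :: kR S k := rfl

private theorem kR_num (S k : ℕ) : num .Y (kR S k) = 0 ∧ num .T (kR S k) = 0 := by
  have hc : ∀ (K : Kind) (o : Op) (l : List Op), o.kind ≠ K → num K (o :: l) = num K l := by
    intro K o l h
    unfold num
    rw [List.countP_cons_of_neg]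
    simpa using h
  unfold kR
  constructor
  · rw [num_append, num_append, hc _ _ _ (by simp [tl]), num_append, hc _ _ _ (by simp [tl]),
      (send_num _ _ _).1, (send_num _ _ _).1, (send_num _ _ _).1, (send_num _ _ _).1]
  · rw [num_append, num_append, hc _ _ _ (by simp [tl]), num_append, hc _ _ _ (by simp [tl]),
      (send_num _ _ _).2, (send_num _ _ _).2, (send_num _ _ _).2, (send_num _ _ _).2]

private theorem pass_M {sg t u : ℕ} (h2 : 2 ≤ u) (hsg : u ≤ sg + 1) (h : u < t ∨ t + 2 ≤ u) :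
    Fwd sg stop s [tl 2 .M t] u u :=
  Fwd.straight (by simpa [tl, Kind.n] using h)
    ⟨h2, hsg, Or.inl rfl, by simp [tl], by simp [tl]⟩

private theorem pass_U {sg t u : ℕ} (h2 : 2 ≤ u) (hsg : u ≤ sg + 1) (h : u < t ∨ t + 2 ≤ u) :
    Fwd sg stop s [tl 2 .U t] u u :=
  Fwd.straight (by simpa [tl, Kind.n] using h)
    ⟨h2, hsg, Or.inl rfl, by simp [tl], by simp [tl]⟩

private theorem kR_pass {k u : ℕ} (hk : k < m) (hu : 2 ∣ u) (h2 : 2 ≤ u) (hsg : u ≤ 20 + 4 * m)
    (h : u ≠ 22 + 4 * k) (h' : u ≠ 24 + 4 * k) : Fwd (lsg m) stop s (kR (lsg m) k) u u := by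
  have hS : lsg m = 38 + 4 * m := rfl
  unfold kR
  refine Fwd.append (send_pass (by omega) (by omega) (by omega) h2 (by omega) (Or.inl hu)) ?_
  refine Fwd.append (send_pass (by omega) (by omega) (by omega) h2 (by omega) (Or.inl hu)) ?_
  refine Fwd.cons (pass_M h2 (by omega) (by omega)) ?_
  refine Fwd.append (send_pass (by omega) (by omega) (by omega) h2 (by omega) (Or.inl hu)) ?_
  refine Fwd.cons (pass_M h2 (by omega) (by omega)) ?_
  exact send_pass (by omega) (by omega) (by omega) h2 (by omega) (Or.inl hu)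

/-- From the middle of `kR` on: a wave on track `18` passes. -/
private theorem kR_tail {k : ℕ} (hk : k < m) : Fwd (lsg m) stop s
    (tl 2 .M (21 + 4 * k) :: (send (lsg m) (21 + 4 * k) 4 ++
        (tl 2 .M (23 + 4 * k) :: send (lsg m) (23 + 4 * k) 4))) 18 18 := by
  have hS : lsg m = 38 + 4 * m := rfl
  refine Fwd.cons (pass_M (by omega) (by omega) (by omega)) ?_
  refine Fwd.append (send_pass (by omega) (by omega) (by omega) (by omega) (by omega)
    (Or.inl (by omega))) ?_
  refine Fwd.cons (pass_M (by omega) (by omega) (by omega)) ?_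
  exact send_pass (by omega) (by omega) (by omega) (by omega) (by omega) (Or.inl (by omega))

private theorem kR_b {k : ℕ} (hk : k < m) :
    Fwd (lsg m) stop s (kR (lsg m) k) (22 + 4 * k) 4 := by
  have hS : lsg m = 38 + 4 * m := rfl
  unfold kR
  refine Fwd.append (send_pass (by omega) (by omega) (by omega) (by omega) (by omega)
    (Or.inl (by omega))) ?_
  refine Fwd.append (send_pass (by omega) (by omega) (by omega) (by omega) (by omega)
    (Or.inl (by omega))) ?_
  have h1 : Fwd (lsg m) stop s [tl 2 .M (21 + 4 * k)] (22 + 4 * k) (21 + 4 * k) := by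
    have := Fwd.M1 (sg := lsg m) (stop := stop) (s := s) (o := tl 2 .M (21 + 4 * k)) rfl
    have e : (tl 2 .M (21 + 4 * k)).trk = 21 + 4 * k := rfl
    rw [e] at this
    have e2 : 21 + 4 * k + 1 = 22 + 4 * k := by omega
    rwa [e2] at this
  refine Fwd.cons h1 ?_
  refine Fwd.append (send_fwd (by omega) (by omega) (by omega) (by omega) (by omega)
    (by omega)) ?_
  refine Fwd.cons (pass_M (by omega) (by omega) (by omega)) ?_
  exact send_pass (by omega) (by omega) (by omega) (by omega) (by omega) (Or.inl (by omega))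

private theorem kR_b1 {k : ℕ} (hk : k < m) :
    Fwd (lsg m) stop s (kR (lsg m) k) (23 + 4 * k) 18 := by
  have hS : lsg m = 38 + 4 * m := rfl
  unfold kR
  refine Fwd.append (send_fwd (by omega) (by omega) (by omega) (by omega) (by omega)
    (by omega)) ?_
  refine Fwd.append (send_pass (by omega) (by omega) (by omega) (by omega) (by omega)
    (Or.inl (by omega))) ?_
  exact kR_tail hk

private theorem kR_b2 {k : ℕ} (hk : k < m) :
    Fwd (lsg m) stop s (kR (lsg m) k) (24 + 4 * k) 4 := by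
  have hS : lsg m = 38 + 4 * m := rfl
  unfold kR
  refine Fwd.append (send_pass (by omega) (by omega) (by omega) (by omega) (by omega)
    (Or.inl (by omega))) ?_
  refine Fwd.append (send_pass (by omega) (by omega) (by omega) (by omega) (by omega)
    (Or.inl (by omega))) ?_
  refine Fwd.cons (pass_M (by omega) (by omega) (by omega)) ?_
  refine Fwd.append (send_pass (by omega) (by omega) (by omega) (by omega) (by omega)
    (Or.inl (by omega))) ?_
  have h1 : Fwd (lsg m) stop s [tl 2 .M (23 + 4 * k)] (24 + 4 * k) (23 + 4 * k) := by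
    have := Fwd.M1 (sg := lsg m) (stop := stop) (s := s) (o := tl 2 .M (23 + 4 * k)) rfl
    have e : (tl 2 .M (23 + 4 * k)).trk = 23 + 4 * k := rfl
    rw [e] at this
    have e2 : 23 + 4 * k + 1 = 24 + 4 * k := by omega
    rwa [e2] at this
  refine Fwd.cons h1 ?_
  exact send_fwd (by omega) (by omega) (by omega) (by omega) (by omega) (by omega)

private theorem kR_b3 {k : ℕ} (hk : k < m) :
    Fwd (lsg m) stop s (kR (lsg m) k) (25 + 4 * k) 18 := by
  have hS : lsg m = 38 + 4 * m := rfl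
  unfold kR
  refine Fwd.append (send_pass (by omega) (by omega) (by omega) (by omega) (by omega)
    (Or.inr (by omega))) ?_
  refine Fwd.append (send_fwd (by omega) (by omega) (by omega) (by omega) (by omega)
    (by omega)) ?_
  exact kR_tail hk

private theorem king_pass {k u : ℕ} (hk : k < m) {y0 : Bool} (hu : 2 ∣ u) (h2 : 2 ≤ u)
    (hsg : u ≤ 20 + 4 * m) (h : u ≠ 22 + 4 * k) (h' : u ≠ 24 + 4 * k) :
    Fwd (lsg m) stop s (kingB (lsg m) k y0) u u := by
  have hS : lsg m = 38 + 4 * m := rfl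
  rw [kingB_eq]
  refine Fwd.cons (pass_U h2 (by omega) (by omega)) ?_
  refine Fwd.cons (Fwd.straight ?_ ⟨h2, by omega, Or.inl rfl, by simp, by simp⟩)
    (kR_pass hk hu h2 hsg h h')
  simp only [Kind.n]
  omega

private theorem king_num (S k : ℕ) (y0 : Bool) :
    num .Y (kingB S k y0) = 1 ∧ num .T (kingB S k y0) = 0 := by
  obtain ⟨h1, h2⟩ := kR_num S k
  rw [kingB_eq]
  unfold num at h1 h2 ⊢
  constructor
  · rw [List.countP_cons_of_neg (by simp [tl]), List.countP_cons_of_pos (by simp), h1]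
  · rw [List.countP_cons_of_neg (by simp [tl]), List.countP_cons_of_neg (by simp), h2]

theorem king_step {k : ℕ} (hk : k < m) {y0 : Bool} {l : List Op} (h : KIF m stop s l (k + 1)) :
    KIF m stop s (kingB (lsg m) k y0 ++ l) k := by
  have hS : lsg m = 38 + 4 * m := rfl
  obtain ⟨hn1, hn2⟩ := king_num (lsg m) k y0
  obtain ⟨hr1, hr2⟩ := kR_num (lsg m) k
  -- passing
  have pW : ∀ u, 2 ∣ u → 2 ≤ u → u ≤ 20 + 4 * m → u ≠ 22 + 4 * k → u ≠ 24 + 4 * k →
      ∀ xd kd, aW (lsg m) stop s l (k + 1) 0 u xd kd →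
        aW (lsg m) stop s (kingB (lsg m) k y0 ++ l) k 0 u xd kd := by
    intro u h1 h2 h3 h4 h5 xd kd h6
    have h7 := ((king_pass (stop := stop) (s := s) (y0 := y0) hk h1 h2 h3 h4 h5) l k 0).1 xd kd
    rw [hn1, hn2] at h7
    exact h7 h6
  have pL : ∀ u, 2 ∣ u → 2 ≤ u → u ≤ 20 + 4 * m → u ≠ 22 + 4 * k → u ≠ 24 + 4 * k →
      aL (lsg m) stop s l (k + 1) 0 u → aL (lsg m) stop s (kingB (lsg m) k y0 ++ l) k 0 u := by
    intro u h1 h2 h3 h4 h5 h6
    have h7 := ((king_pass (stop := stop) (s := s) (y0 := y0) hk h1 h2 h3 h4 h5) l k 0).2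
    rw [hn1, hn2] at h7
    exact h7 h6
  -- the rest
  have rW : ∀ {t t' : ℕ}, Fwd (lsg m) stop s (kR (lsg m) k) t t' → ∀ xd kd,
      aW (lsg m) stop s l (k + 1) 0 t' xd kd →
        aW (lsg m) stop s (kR (lsg m) k ++ l) (k + 1) 0 t xd kd := by
    intro t t' h1 xd kd h2
    have h3 := (h1 l (k + 1) 0).1 xd kd
    rw [hr1, hr2] at h3
    exact h3 h2
  have rL : ∀ {t t' : ℕ}, Fwd (lsg m) stop s (kR (lsg m) k) t t' →
      aL (lsg m) stop s l (k + 1) 0 t' → aL (lsg m) stop s (kR (lsg m) k ++ l) (k + 1) 0 t := by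
    intro t t' h1 h2
    have h3 := (h1 l (k + 1) 0).2
    rw [hr1, hr2] at h3
    exact h3 h2
  -- the tile U
  have uW : ∀ {t t' : ℕ}, Fwd (lsg m) stop s [tl 2 .U (22 + 4 * k)] t t' → ∀ xd kd,
      aW (lsg m) stop s (⟨.Y, 22 + 4 * k, 2, 0, y0⟩ :: (kR (lsg m) k ++ l)) k 0 t' xd kd →
        aW (lsg m) stop s (kingB (lsg m) k y0 ++ l) k 0 t xd kd := by
    intro t t' h1 xd kd h2
    exact (h1 (⟨.Y, 22 + 4 * k, 2, 0, y0⟩ :: (kR (lsg m) k ++ l)) k 0).1 xd kd h2
  have uL : ∀ {t t' : ℕ}, Fwd (lsg m) stop s [tl 2 .U (22 + 4 * k)] t t' →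
      aL (lsg m) stop s (⟨.Y, 22 + 4 * k, 2, 0, y0⟩ :: (kR (lsg m) k ++ l)) k 0 t' →
        aL (lsg m) stop s (kingB (lsg m) k y0 ++ l) k 0 t := by
    intro t t' h1 h2
    exact (h1 (⟨.Y, 22 + 4 * k, 2, 0, y0⟩ :: (kR (lsg m) k ++ l)) k 0).2 h2
  have fU : Fwd (lsg m) stop s [tl 2 .U (22 + 4 * k)] (22 + 4 * k) (23 + 4 * k) := by
    have h1 := Fwd.U (sg := lsg m) (stop := stop) (s := s) (o := tl 2 .U (22 + 4 * k)) rfl
      (Or.inl (by show 2 ≤ 22 + 4 * k; omega))
    have e : (tl 2 .U (22 + 4 * k)).trk = 22 + 4 * k := rfl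
    rw [e] at h1
    have e2 : 22 + 4 * k + 1 = 23 + 4 * k := by omega
    rwa [e2] at h1
  have fU' : Fwd (lsg m) stop s [tl 2 .U (22 + 4 * k)] (24 + 4 * k) (24 + 4 * k) :=
    pass_U (by omega) (by omega) (by omega)
  -- the tile Y
  have e1 : 23 + 4 * k - (22 + 4 * k) = 1 := by omega
  have e2 : 24 + 4 * k - (22 + 4 * k) = 2 := by omega
  have c1 : 22 + 4 * k ≤ 23 + 4 * k ∧ 23 + 4 * k < 22 + 4 * k + 4 := by omega
  have c2 : 22 + 4 * k ≤ 24 + 4 * k ∧ 24 + 4 * k < 22 + 4 * k + 4 := by omega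
  have yW1 : ∀ xd kd, s.y k = true →
      aW (lsg m) stop s (kR (lsg m) k ++ l) (k + 1) 0 (23 + 4 * k) xd kd →
      aW (lsg m) stop s (⟨.Y, 22 + 4 * k, 2, 0, y0⟩ :: (kR (lsg m) k ++ l)) k 0
        (23 + 4 * k) xd kd := by
    intro xd kd h1 h2
    rw [aW]
    simp only [Kind.n]
    rw [if_pos c1, e1]
    have e3 : 22 + 4 * k + 1 = 23 + 4 * k := by omega
    simp only [h1, true_and, e3]
    exact h2
  have yW2 : ∀ xd kd, s.y k = false →
      aW (lsg m) stop s (kR (lsg m) k ++ l) (k + 1) 0 (25 + 4 * k) xd kd →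
      aW (lsg m) stop s (⟨.Y, 22 + 4 * k, 2, 0, y0⟩ :: (kR (lsg m) k ++ l)) k 0
        (24 + 4 * k) xd kd := by
    intro xd kd h1 h2
    rw [aW]
    simp only [Kind.n]
    rw [if_pos c2, e2]
    have e3 : 22 + 4 * k + 3 = 25 + 4 * k := by omega
    simp only [h1, true_and, e3]
    exact h2
  have yL1 : s.y k = false →
      aL (lsg m) stop s (kR (lsg m) k ++ l) (k + 1) 0 (22 + 4 * k) →
      aL (lsg m) stop s (⟨.Y, 22 + 4 * k, 2, 0, y0⟩ :: (kR (lsg m) k ++ l)) k 0
        (23 + 4 * k) := by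
    intro h1 h2
    rw [aL]
    simp only [Kind.n]
    rw [if_pos c1, e1]
    simp only [h1, true_and]
    exact h2
  have yL2 : s.y k = true →
      aL (lsg m) stop s (kR (lsg m) k ++ l) (k + 1) 0 (24 + 4 * k) →
      aL (lsg m) stop s (⟨.Y, 22 + 4 * k, 2, 0, y0⟩ :: (kR (lsg m) k ++ l)) k 0
        (24 + 4 * k) := by
    intro h1 h2
    rw [aL]
    simp only [Kind.n]
    rw [if_pos c2, e2]
    have e3 : 22 + 4 * k + 2 = 24 + 4 * k := by omega
    simp only [h1, true_and, e3]
    exact h2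
  refine ⟨fun q hq ha hx => ?_, fun q hq ha hx => ?_, fun q hq hx => ?_, ?_,
    fun q hq ha hx k' h1 h2 h3 => ?_, fun q hq ha hx k' h1 h2 h3 => ?_,
    fun k' h1 h2 h3 => ?_, fun k' h1 h2 h3 => ?_⟩
  · exact pW _ (by omega) (by omega) (by omega) (by omega) (by omega) _ _ (h.xW q hq ha hx)
  · exact pW _ (by omega) (by omega) (by omega) (by omega) (by omega) _ _ (h.qW q hq ha hx)
  · exact pL _ (by omega) (by omega) (by omega) (by omega) (by omega) (h.xL q hq hx)
  · exact pL _ (by omega) (by omega) (by omega) (by omega) (by omega) h.fL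
  · rcases Nat.eq_or_lt_of_le h1 with h4 | h4
    · subst h4
      exact uW fU _ _ (yW1 _ _ h3 (rW (kR_b1 hk) _ _ (h.qW q hq ha hx)))
    · exact pW _ (by omega) (by omega) (by omega) (by omega) (by omega) _ _
        (h.pW q hq ha hx k' h4 h2 h3)
  · rcases Nat.eq_or_lt_of_le h1 with h4 | h4
    · subst h4
      exact uW fU' _ _ (yW2 _ _ h3 (rW (kR_b3 hk) _ _ (h.qW q hq ha hx)))
    · exact pW _ (by omega) (by omega) (by omega) (by omega) (by omega) _ _
        (h.nW q hq ha hx k' h4 h2 h3)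
  · rcases Nat.eq_or_lt_of_le h1 with h4 | h4
    · subst h4
      exact uL fU (yL1 h3 (rL (kR_b hk) h.fL))
    · exact pL _ (by omega) (by omega) (by omega) (by omega) (by omega) (h.pL k' h4 h2 h3)
  · rcases Nat.eq_or_lt_of_le h1 with h4 | h4
    · subst h4
      exact uL fU' (yL2 h3 (rL (kR_b2 hk) h.fL))
    · exact pL _ (by omega) (by omega) (by omega) (by omega) (by omega) (h.nL k' h4 h2 h3)

theorem cor_KIF : KIF m stop s (corB m) m :=
  ⟨fun _ hq ha hx => corB_xW hq ha hx m, fun _ hq ha hx => corB_qW hq ha hx m,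
    fun _ hq hx => corB_xL hq hx m, corB_fL m,
    fun _ _ _ _ k h1 h2 _ => absurd h2 (by omega), fun _ _ _ _ k h1 h2 _ => absurd h2 (by omega),
    fun k h1 h2 _ => absurd h2 (by omega), fun k h1 h2 _ => absurd h2 (by omega)⟩

theorem kings_KIF (y0 : ℕ → Bool) : KIF m stop s (kingsB m y0) 0 := by
  have key : ∀ n j, j + n = m → KIF m stop s
      ((List.range' j n).flatMap (fun k => kingB (lsg m) k (y0 k)) ++ corB m) j := by
    intro n
    induction n with
    | zero =>
      intro j hj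
      have hj' : j = m := by omega
      subst hj'
      exact cor_KIF
    | succ n ih =>
      intro j hj
      rw [List.range'_succ, List.flatMap_cons, List.append_assoc]
      exact king_step (by omega) (ih (j + 1) (by omega))
  have h1 := key m 0 (by omega)
  unfold kingsB
  rw [List.range_eq_range']
  exact h1

end Pool.Agent.MC95
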