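import Pool.Agent.MC95.Lay

/-!
# Passages through lists of tiles

PLAN. `aW` and `aL` unfold on a single tile by `simp [aW, aL]` after fixing the kind. `Fwd.all` by
induction. A tile `o` is passed on track `t` if `t` is not one of its tracks and `straightOk`
(`Fwd.straight`), or if it is `H` and `t` its middle track, or if it is `M` and `t` its lower track.
`send S τ t` (`τ` odd, `t` even, `t < τ ≤ S`): the part of the list for `i` consists of blank tiles,
except for the tile `H (τ - 2 * i - 2)` if `t < τ - 2 * i - 2`, or `M t` if `t = τ - 2 * i - 1`;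
after the parts `0, ..., i - 1` the wave is on track `τ - 2 * i` as long as this is above `t`, and on
track `t` afterwards.
-/

namespace Pool.Agent.MC95

variable {sg : ℕ} {stop : ℕ → ℕ} {s : AS}

/-- The tiles `B` lead from track `t` to track `t'`. -/
def Fwd (sg : ℕ) (stop : ℕ → ℕ) (s : AS) (B : List Op) (t t' : ℕ) : Prop :=
  ∀ (rest : List Op) (i j : ℕ),
    (∀ xd kd, aW sg stop s rest (i + num .Y B) (j + num .T B) t' xd kd →
      aW sg stop s (B ++ rest) i j t xd kd) ∧
    (aL sg stop s rest (i + num .Y B) (j + num .T B) t' → aL sg stop s (B ++ rest) i j t)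

theorem num_append (k : Kind) (l l' : List Op) : num k (l ++ l') = num k l + num k l' := by
  unfold num
  exact List.countP_append

theorem num_eq_zero {k : Kind} {l : List Op} (h : ∀ o ∈ l, o.kind ≠ k) : num k l = 0 := by
  unfold num
  rw [List.countP_eq_zero]
  intro o ho
  simpa using h o ho

private theorem num_nil (k : Kind) : num k [] = 0 := rfl

private theorem num_one_ne {k : Kind} {o : Op} (h : o.kind ≠ k) : num k [o] = 0 :=
  num_eq_zero fun o' ho' => by rw [List.mem_singleton.1 ho']; exact h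

private theorem num_one_eq {k : Kind} {o : Op} (h : o.kind = k) : num k [o] = 1 := by
  simp [num, h]

private theorem num_one_Y (o : Op) (i : ℕ) :
    (if o.kind = .Y then i + 1 else i) = i + num .Y [o] := by
  split_ifs with h
  · rw [num_one_eq h]
  · rw [num_one_ne h]; rfl

private theorem num_one_T (o : Op) (j : ℕ) :
    (if o.kind = .T then j + 1 else j) = j + num .T [o] := by
  split_ifs with h
  · rw [num_one_eq h]
  · rw [num_one_ne h]; rfl

theorem Fwd.nil (t : ℕ) : Fwd sg stop s [] t t := fun _ _ _ =>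
  ⟨fun _ _ h => h, fun h => h⟩

theorem Fwd.append {B B' : List Op} {t t' t'' : ℕ} (h : Fwd sg stop s B t t')
    (h' : Fwd sg stop s B' t' t'') : Fwd sg stop s (B ++ B') t t'' := by
  intro rest i j
  rw [num_append, num_append, ← add_assoc, ← add_assoc, List.append_assoc]
  obtain ⟨h1, h2⟩ := h (B' ++ rest) i j
  obtain ⟨h3, h4⟩ := h' rest (i + num .Y B) (j + num .T B)
  exact ⟨fun xd kd h5 => h1 xd kd (h3 xd kd h5), fun h5 => h2 (h4 h5)⟩

theorem Fwd.cons {o : Op} {B : List Op} {t t' t'' : ℕ} (h : Fwd sg stop s [o] t t')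
    (h' : Fwd sg stop s B t' t'') : Fwd sg stop s (o :: B) t t'' :=
  Fwd.append (B := [o]) h h'

theorem Fwd.all {B : List Op} {t : ℕ} (h : ∀ o ∈ B, Fwd sg stop s [o] t t) :
    Fwd sg stop s B t t := by
  induction B with
  | nil => exact Fwd.nil t
  | cons o B ih =>
    exact Fwd.cons (h o List.mem_cons_self) (ih fun o' ho' => h o' (List.mem_cons_of_mem _ ho'))

theorem Fwd.straight {o : Op} {t : ℕ} (h : t < o.trk ∨ o.trk + o.kind.n ≤ t)
    (hs : straightOk sg o t) : Fwd sg stop s [o] t t := by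
  intro rest i j
  have hn : ¬ (o.trk ≤ t ∧ t < o.trk + o.kind.n) := by omega
  refine ⟨fun xd kd h1 => ?_, fun h1 => ?_⟩
  · rw [List.singleton_append, aW]
    rw [if_neg hn, num_one_Y, num_one_T]
    exact ⟨hs, h1⟩
  · rw [List.singleton_append, aL]
    rw [if_neg hn, num_one_Y, num_one_T]
    exact ⟨hs, h1⟩

theorem Fwd.U {o : Op} (hk : o.kind = .U) (h : 2 ≤ o.trk ∨ s.al = true) :
    Fwd sg stop s [o] o.trk (o.trk + 1) := by
  obtain ⟨k, t, r, c, b⟩ := o
  obtain rfl : k = .U := hk
  intro rest i j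
  refine ⟨fun xd kd h1 => ?_, fun h1 => ?_⟩
  · simpa [aW, Kind.n, num, h] using h1
  · simpa [aL, Kind.n, num, h] using h1

theorem Fwd.M0 {o : Op} (hk : o.kind = .M) : Fwd sg stop s [o] o.trk o.trk := by
  obtain ⟨k, t, r, c, b⟩ := o
  obtain rfl : k = .M := hk
  intro rest i j
  refine ⟨fun xd kd h1 => ?_, fun h1 => ?_⟩
  · simpa [aW, Kind.n, num] using h1
  · simpa [aL, Kind.n, num] using h1

theorem Fwd.M1 {o : Op} (hk : o.kind = .M) : Fwd sg stop s [o] (o.trk + 1) o.trk := by
  obtain ⟨k, t, r, c, b⟩ := o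
  obtain rfl : k = .M := hk
  intro rest i j
  refine ⟨fun xd kd h1 => ?_, fun h1 => ?_⟩
  · simpa [aW, Kind.n, num] using h1
  · simpa [aL, Kind.n, num] using h1

theorem Fwd.H1 {o : Op} (hk : o.kind = .H) : Fwd sg stop s [o] (o.trk + 1) (o.trk + 1) := by
  obtain ⟨k, t, r, c, b⟩ := o
  obtain rfl : k = .H := hk
  intro rest i j
  refine ⟨fun xd kd h1 => ?_, fun h1 => ?_⟩
  · simpa [aW, Kind.n, num] using h1
  · simpa [aL, Kind.n, num] using h1

theorem Fwd.H2 {o : Op} (hk : o.kind = .H) : Fwd sg stop s [o] (o.trk + 2) o.trk := by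
  obtain ⟨k, t, r, c, b⟩ := o
  obtain rfl : k = .H := hk
  intro rest i j
  refine ⟨fun xd kd h1 => ?_, fun h1 => ?_⟩
  · simpa [aW, Kind.n, num] using h1
  · simpa [aL, Kind.n, num] using h1

theorem Fwd.UT {o : Op} (hk : o.kind = .UT) : Fwd sg stop s [o] o.trk (o.trk + 1) := by
  obtain ⟨k, t, r, c, b⟩ := o
  obtain rfl : k = .UT := hk
  intro rest i j
  refine ⟨fun xd kd h1 => ?_, fun h1 => ?_⟩
  · simpa [aW, Kind.n, num] using h1
  · simpa [aL, Kind.n, num] using h1

/-- Passage of a blank tile outside of the corridor. -/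
theorem Fwd.bl {r t : ℕ} (h2 : 2 ≤ t) (h : t ≤ sg + 1) : Fwd sg stop s [bl r] t t :=
  Fwd.straight (Or.inr (by simp [Pool.Agent.MC95.bl, Kind.n]))
    ⟨h2, h, Or.inl rfl, by simp [Pool.Agent.MC95.bl], by simp [Pool.Agent.MC95.bl]⟩

/-- the tile `u` of the part `i` -/
private def stl (τ t i u : ℕ) : Op :=
  if u + 2 * i + 2 = τ ∧ t < u then tl 2 .H u
  else if u + 2 * i + 1 = τ ∧ u = t then tl 2 .M u
  else Pool.Agent.MC95.bl 2

private theorem send_eq (S τ t : ℕ) :
    send S τ t = (List.range S).flatMap fun i => (List.range S).map fun u => stl τ t i u := rfl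

private theorem mem_send {S τ t : ℕ} {o : Op} (h : o ∈ send S τ t) :
    (∃ u i, o = tl 2 .H u ∧ u + 2 * i + 2 = τ ∧ t < u) ∨ (o = tl 2 .M t ∧ t < τ) ∨
      o = Pool.Agent.MC95.bl 2 := by
  rw [send_eq, List.mem_flatMap] at h
  obtain ⟨i, _, h⟩ := h
  rw [List.mem_map] at h
  obtain ⟨u, _, rfl⟩ := h
  unfold stl
  split_ifs with h1 h2
  · exact Or.inl ⟨u, i, rfl, h1.1, h1.2⟩
  · obtain ⟨h3, h4⟩ := h2
    subst h4
    exact Or.inr (Or.inl ⟨rfl, by omega⟩)
  · exact Or.inr (Or.inr rfl)

/-- a row of tiles with one special tile -/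
private theorem fwd_row {f : ℕ → Op} {a b u0 : ℕ} (S : ℕ)
    (h1 : ∀ u, u ≠ u0 → Fwd sg stop s [f u] a a) (h2 : Fwd sg stop s [f u0] a b)
    (h3 : ∀ u, u ≠ u0 → Fwd sg stop s [f u] b b) :
    Fwd sg stop s ((List.range S).map f) a (if u0 < S then b else a) := by
  induction S with
  | zero => exact Fwd.nil a
  | succ S ih =>
    rw [List.range_succ, List.map_append]
    refine Fwd.append ih ?_
    rw [List.map_cons, List.map_nil]
    rcases lt_trichotomy u0 S with h | h | h
    · rw [if_pos h, if_pos (by omega)]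
      exact h3 S (by omega)
    · subst h
      rw [if_neg (by omega), if_pos (by omega)]
      exact h2
    · rw [if_neg (by omega), if_neg (by omega)]
      exact h1 S (by omega)

private theorem straight_tl {r u v : ℕ} {k : Kind} (hk : k ≠ .G) (hk' : k ≠ .first)
    (h2 : 2 ≤ u) (hsg : u ≤ sg + 1) (h : u < v ∨ v + k.n ≤ u) :
    Fwd sg stop s [tl r k v] u u :=
  Fwd.straight h ⟨h2, hsg, Or.inl rfl, hk, hk'⟩

theorem send_num (S τ t : ℕ) : num .Y (send S τ t) = 0 ∧ num .T (send S τ t) = 0 := by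
  constructor
  · refine num_eq_zero fun o ho => ?_
    rcases mem_send ho with ⟨u, i, rfl, _⟩ | ⟨rfl, _⟩ | rfl <;> simp [tl, bl]
  · refine num_eq_zero fun o ho => ?_
    rcases mem_send ho with ⟨u, i, rfl, _⟩ | ⟨rfl, _⟩ | rfl <;> simp [tl, bl]

theorem send_fwd {S τ t : ℕ} (ht : 2 ∣ t) (hτ : ¬ 2 ∣ τ) (h2 : 2 ≤ t) (htτ : t < τ) (hS : τ ≤ S)
    (hsg : τ ≤ sg + 1) : Fwd sg stop s (send S τ t) τ t := by
  have key : ∀ k, Fwd sg stop s ((List.range k).flatMap fun i =>
      (List.range S).map fun u => stl τ t i u) τ (if t + 2 * k < τ then τ - 2 * k else t) := by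
    intro k
    induction k with
    | zero =>
      rw [if_pos (by omega)]
      exact Fwd.nil τ
    | succ k ih =>
      rw [List.range_succ, List.flatMap_append]
      refine Fwd.append ih ?_
      rw [List.flatMap_singleton]
      by_cases h : t + 2 * k < τ
      · rw [if_pos h]
        by_cases h' : t + 2 * k + 1 = τ
        · rw [if_neg (by omega)]
          have e : τ - 2 * k = t + 1 := by omega
          have h0 : ∀ u, u ≠ t → stl τ t k u = bl 2 := by
            intro u hu
            unfold stl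
            rw [if_neg (by omega), if_neg (by omega)]
          have h1 : stl τ t k t = tl 2 .M t := by
            unfold stl
            rw [if_neg (by omega), if_pos (by omega)]
          have h2' := fwd_row (sg := sg) (stop := stop) (s := s) (f := fun u => stl τ t k u)
            (a := t + 1) (b := t) (u0 := t) S
            (fun u hu => by rw [h0 u hu]; exact Fwd.bl (by omega) (by omega))
            (by rw [h1]; exact Fwd.M1 (o := tl 2 .M t) rfl)
            (fun u hu => by rw [h0 u hu]; exact Fwd.bl (by omega) (by omega))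
          rw [if_pos (by omega)] at h2'
          rw [e]
          exact h2'
        · have h3 : t + 2 * k + 2 < τ := by
            obtain ⟨t', rfl⟩ := ht
            by_contra hcon
            exact hτ ⟨t' + k + 1, by omega⟩
          rw [if_pos (by omega)]
          obtain ⟨v, hv⟩ : ∃ v, v + 2 * k + 2 = τ := ⟨τ - 2 * k - 2, by omega⟩
          have e : τ - 2 * k = v + 2 := by omega
          have e' : τ - 2 * (k + 1) = v := by omega
          have hv' : ¬ 2 ∣ v := fun ⟨w, hw⟩ => hτ ⟨w + k + 1, by omega⟩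
          have h0 : ∀ u, u ≠ v → stl τ t k u = bl 2 := by
            intro u hu
            unfold stl
            rw [if_neg (by omega), if_neg (by omega)]
          have h1 : stl τ t k v = tl 2 .H v := by
            unfold stl
            rw [if_pos (by omega)]
          have h2' := fwd_row (sg := sg) (stop := stop) (s := s) (f := fun u => stl τ t k u)
            (a := v + 2) (b := v) (u0 := v) S
            (fun u hu => by rw [h0 u hu]; exact Fwd.bl (by omega) (by omega))
            (by rw [h1]; exact Fwd.H2 (o := tl 2 .H v) rfl)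
            (fun u hu => by rw [h0 u hu]; exact Fwd.bl (by omega) (by omega))
          rw [if_pos (by omega)] at h2'
          rw [e, e']
          exact h2'
      · rw [if_neg h, if_neg (by omega)]
        refine Fwd.all fun o ho => ?_
        rw [List.mem_map] at ho
        obtain ⟨u, _, rfl⟩ := ho
        have h0 : stl τ t k u = bl 2 := by
          unfold stl
          rw [if_neg (by omega), if_neg (by omega)]
        rw [h0]
        exact Fwd.bl (by omega) (by omega)
  have h := key S
  rw [if_neg (by omega)] at h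
  exact h

/-- A wave on an even track, or above `τ`, passes. -/
theorem send_pass {S τ t u : ℕ} (ht : 2 ∣ t) (hτ : ¬ 2 ∣ τ) (htτ : t < τ) (h2 : 2 ≤ u)
    (hsg : u ≤ sg + 1) (hu : 2 ∣ u ∨ τ < u) : Fwd sg stop s (send S τ t) u u := by
  refine Fwd.all fun o ho => ?_
  rcases mem_send ho with ⟨v, i, rfl, h3, h4⟩ | ⟨rfl, h4⟩ | rfl
  · rcases hu with ⟨w, hw⟩ | hu
    · by_cases h5 : u = v + 1
      · rw [h5]
        exact Fwd.H1 (o := tl 2 .H v) rfl
      · refine straight_tl (by simp) (by simp) h2 hsg ?_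
        have h6 : u ≠ v := by
          rintro rfl
          exact hτ ⟨w + i + 1, by omega⟩
        have h7 : u ≠ v + 2 := by
          intro h7
          exact hτ ⟨w + i, by omega⟩
        show u < v ∨ v + 3 ≤ u
        omega
    · refine straight_tl (by simp) (by simp) h2 hsg ?_
      show u < v ∨ v + 3 ≤ u
      omega
  · by_cases h5 : u = t
    · rw [h5]
      exact Fwd.M0 (o := tl 2 .M t) rfl
    · refine straight_tl (by simp) (by simp) h2 hsg ?_
      show u < t ∨ t + 2 ≤ u
      obtain ⟨t', ht'⟩ := ht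
      rcases hu with ⟨w, hw⟩ | hu
      · omega
      · omega
  · exact Fwd.bl h2 hsg

theorem send_zero_pass {S u : ℕ} (h2 : 2 ≤ u) (hsg : u ≤ sg + 1) :
    Fwd sg stop s (send S 0 0) u u := by
  refine Fwd.all fun o ho => ?_
  rcases mem_send ho with ⟨v, i, rfl, h3, h4⟩ | ⟨rfl, h4⟩ | rfl
  · omega
  · omega
  · exact Fwd.bl h2 hsg

private theorem mem_lad {r a n : ℕ} {o : Op} (h : o ∈ lad r a n) :
    ∃ i < n, o = tl r .U (a + i) := by
  unfold lad at h
  rw [List.mem_map] at h
  obtain ⟨i, hi, rfl⟩ := h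
  exact ⟨i, List.mem_range.1 hi, rfl⟩

theorem lad_num (r a n : ℕ) : num .Y (lad r a n) = 0 ∧ num .T (lad r a n) = 0 := by
  constructor
  · refine num_eq_zero fun o ho => ?_
    obtain ⟨i, _, rfl⟩ := mem_lad ho
    simp [tl]
  · refine num_eq_zero fun o ho => ?_
    obtain ⟨i, _, rfl⟩ := mem_lad ho
    simp [tl]

theorem lad_fwd {r a n : ℕ} (h : 2 ≤ a ∨ (1 ≤ a ∧ s.al = true)) :
    Fwd sg stop s (lad r a n) a (a + n) := by
  induction n with
  | zero => exact Fwd.nil a
  | succ n ih =>
    have e : lad r a (n + 1) = lad r a n ++ [tl r .U (a + n)] := by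
      unfold lad
      rw [List.range_succ, List.map_append, List.map_cons, List.map_nil]
    rw [e]
    refine Fwd.append ih ?_
    refine Fwd.U (o := tl r .U (a + n)) rfl ?_
    show 2 ≤ a + n ∨ s.al = true
    rcases h with h | h
    · exact Or.inl (by omega)
    · exact Or.inr h.2

theorem lad_pass {r a n u : ℕ} (hu : a + n < u) (h2 : 2 ≤ u) (hsg : u ≤ sg + 1) :
    Fwd sg stop s (lad r a n) u u := by
  refine Fwd.all fun o ho => ?_
  obtain ⟨i, hi, rfl⟩ := mem_lad ho
  refine straight_tl (by simp) (by simp) h2 hsg ?_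
  show u < a + i ∨ a + i + 2 ≤ u
  omega

theorem fan_num (r a : ℕ) : num .Y (fan r a) = 0 ∧ num .T (fan r a) = 0 := by
  constructor
  · refine num_eq_zero fun o ho => ?_
    simp only [fan, List.mem_cons, List.not_mem_nil, or_false] at ho
    rcases ho with rfl | rfl | rfl | rfl | rfl | rfl <;> simp [tl]
  · refine num_eq_zero fun o ho => ?_
    simp only [fan, List.mem_cons, List.not_mem_nil, or_false] at ho
    rcases ho with rfl | rfl | rfl | rfl | rfl | rfl <;> simp [tl]

private theorem aW_WF {r v i j : ℕ} {rest : List Op} {xd kd : Bool} :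
    aW sg stop s (tl r .WF v :: rest) i j (v + 1) xd kd ↔
      aW sg stop s rest i j (v + 1) xd kd ∨ aW sg stop s rest i j v xd kd := by
  simp [aW, tl, Kind.n]

private theorem aL_WF {r v i j : ℕ} {rest : List Op} :
    aL sg stop s (tl r .WF v :: rest) i j (v + 1) ↔
      aL sg stop s rest i j (v + 1) ∧ aL sg stop s rest i j v := by
  simp [aL, tl, Kind.n]

private theorem fwd_W {B : List Op} {t t' i j : ℕ} {rest : List Op} {xd kd : Bool}
    (h : Fwd sg stop s B t t') (hY : num .Y B = 0) (hT : num .T B = 0)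
    (h1 : aW sg stop s rest i j t' xd kd) : aW sg stop s (B ++ rest) i j t xd kd := by
  have h2 := (h rest i j).1 xd kd
  rw [hY, hT] at h2
  exact h2 h1

private theorem fwd_L {B : List Op} {t t' i j : ℕ} {rest : List Op}
    (h : Fwd sg stop s B t t') (hY : num .Y B = 0) (hT : num .T B = 0)
    (h1 : aL sg stop s rest i j t') : aL sg stop s (B ++ rest) i j t := by
  have h2 := (h rest i j).2
  rw [hY, hT] at h2
  exact h2 h1

private theorem fan_a (r a : ℕ) (rest : List Op) : fan r a ++ rest =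
    tl r .WF (a + 5) :: ([tl r .M (a + 4)] ++ (tl r .WF (a + 3) :: ([tl r .M (a + 2)] ++
      (tl r .WF (a + 1) :: ([tl r .M a] ++ rest))))) := rfl

/-- the tiles M of the fan -/
private theorem fan_M {r a t t' i j : ℕ} {rest : List Op} {xd kd : Bool} (ha : 2 ≤ t)
    (hsg : t ≤ sg + 1) (h : (t = a + 1 ∧ t' = a) ∨ (a + 2 ≤ t ∧ t' = t))
    (h1 : aW sg stop s rest i j t' xd kd) :
    aW sg stop s ([tl r .M a] ++ rest) i j t xd kd := by
  rcases h with ⟨rfl, rfl⟩ | ⟨h, rfl⟩
  · exact fwd_W (Fwd.M1 (o := tl r .M t') rfl) (num_one_ne (by simp [tl]))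
      (num_one_ne (by simp [tl])) h1
  · exact fwd_W (straight_tl (by simp) (by simp) ha hsg (Or.inr h)) (num_one_ne (by simp [tl]))
      (num_one_ne (by simp [tl])) h1

private theorem fan_ML {r a t t' i j : ℕ} {rest : List Op} (ha : 2 ≤ t)
    (hsg : t ≤ sg + 1) (h : (t = a + 1 ∧ t' = a) ∨ (a + 2 ≤ t ∧ t' = t))
    (h1 : aL sg stop s rest i j t') :
    aL sg stop s ([tl r .M a] ++ rest) i j t := by
  rcases h with ⟨rfl, rfl⟩ | ⟨h, rfl⟩
  · exact fwd_L (Fwd.M1 (o := tl r .M t') rfl) (num_one_ne (by simp [tl]))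
      (num_one_ne (by simp [tl])) h1
  · exact fwd_L (straight_tl (by simp) (by simp) ha hsg (Or.inr h)) (num_one_ne (by simp [tl]))
      (num_one_ne (by simp [tl])) h1

/-- the tiles WF are passed straight -/
private theorem fan_S {r a t i j : ℕ} {rest : List Op} {xd kd : Bool} (ha : 2 ≤ t)
    (hsg : t ≤ sg + 1) (h : a + 2 ≤ t) (h1 : aW sg stop s rest i j t xd kd) :
    aW sg stop s (tl r .WF a :: rest) i j t xd kd :=
  fwd_W (B := [tl r .WF a]) (straight_tl (by simp) (by simp) ha hsg (Or.inr h))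
    (num_one_ne (by simp [tl])) (num_one_ne (by simp [tl])) h1

private theorem fan_SL {r a t i j : ℕ} {rest : List Op} (ha : 2 ≤ t)
    (hsg : t ≤ sg + 1) (h : a + 2 ≤ t) (h1 : aL sg stop s rest i j t) :
    aL sg stop s (tl r .WF a :: rest) i j t :=
  fwd_L (B := [tl r .WF a]) (straight_tl (by simp) (by simp) ha hsg (Or.inr h))
    (num_one_ne (by simp [tl])) (num_one_ne (by simp [tl])) h1

theorem fan_W {r a q i j : ℕ} {rest : List Op} {xd kd : Bool} (hq : q < 4) (ha : 2 ≤ a)
    (hsg : a + 6 ≤ sg + 1) (h : aW sg stop s rest i j (a + 2 * q) xd kd) :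
    aW sg stop s (fan r a ++ rest) i j (a + 6) xd kd := by
  rw [fan_a]
  refine aW_WF.2 ?_
  by_cases h3 : q = 3
  · subst h3
    left
    refine fan_M (by omega) (by omega) (Or.inr ⟨by omega, rfl⟩) ?_
    refine fan_S (by omega) (by omega) (by omega) ?_
    refine fan_M (by omega) (by omega) (Or.inr ⟨by omega, rfl⟩) ?_
    refine fan_S (by omega) (by omega) (by omega) ?_
    exact fan_M (by omega) (by omega) (Or.inr ⟨by omega, rfl⟩) h
  right
  refine fan_M (t' := a + 4) (by omega) (by omega) (Or.inl ⟨by omega, rfl⟩) ?_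
  refine aW_WF.2 ?_
  by_cases h3 : q = 2
  · subst h3
    left
    refine fan_M (by omega) (by omega) (Or.inr ⟨by omega, rfl⟩) ?_
    refine fan_S (by omega) (by omega) (by omega) ?_
    exact fan_M (by omega) (by omega) (Or.inr ⟨by omega, rfl⟩) h
  right
  refine fan_M (t' := a + 2) (by omega) (by omega) (Or.inl ⟨by omega, rfl⟩) ?_
  refine aW_WF.2 ?_
  by_cases h3 : q = 1
  · subst h3
    left
    exact fan_M (by omega) (by omega) (Or.inr ⟨by omega, rfl⟩) h
  right
  refine fan_M (t' := a) (by omega) (by omega) (Or.inl ⟨by omega, rfl⟩) ?_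
  obtain rfl : q = 0 := by omega
  exact h

theorem fan_L {r a i j : ℕ} {rest : List Op} (ha : 2 ≤ a)
    (hsg : a + 6 ≤ sg + 1) (h : ∀ q < 4, aL sg stop s rest i j (a + 2 * q)) :
    aL sg stop s (fan r a ++ rest) i j (a + 6) := by
  have h0 := h 0 (by omega)
  have h1 := h 1 (by omega)
  have h2 := h 2 (by omega)
  have h3 := h 3 (by omega)
  rw [fan_a]
  refine aL_WF.2 ⟨?_, ?_⟩
  · refine fan_ML (by omega) (by omega) (Or.inr ⟨by omega, rfl⟩) ?_
    refine fan_SL (by omega) (by omega) (by omega) ?_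
    refine fan_ML (by omega) (by omega) (Or.inr ⟨by omega, rfl⟩) ?_
    refine fan_SL (by omega) (by omega) (by omega) ?_
    exact fan_ML (by omega) (by omega) (Or.inr ⟨by omega, rfl⟩) h3
  refine fan_ML (t' := a + 4) (by omega) (by omega) (Or.inl ⟨by omega, rfl⟩) ?_
  refine aL_WF.2 ⟨?_, ?_⟩
  · refine fan_ML (by omega) (by omega) (Or.inr ⟨by omega, rfl⟩) ?_
    refine fan_SL (by omega) (by omega) (by omega) ?_
    exact fan_ML (by omega) (by omega) (Or.inr ⟨by omega, rfl⟩) h2
  refine fan_ML (t' := a + 2) (by omega) (by omega) (Or.inl ⟨by omega, rfl⟩) ?_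
  refine aL_WF.2 ⟨?_, ?_⟩
  · exact fan_ML (by omega) (by omega) (Or.inr ⟨by omega, rfl⟩) h1
  · exact fan_ML (t' := a) (by omega) (by omega) (Or.inl ⟨by omega, rfl⟩) h0

theorem fan_pass {r a u : ℕ} (hu : a + 6 < u) (h2 : 2 ≤ u) (hsg : u ≤ sg + 1) :
    Fwd sg stop s (fan r a) u u := by
  refine Fwd.all fun o ho => ?_
  simp only [fan, List.mem_cons, List.not_mem_nil, or_false] at ho
  rcases ho with rfl | rfl | rfl | rfl | rfl | rfl <;>
    exact straight_tl (by simp) (by simp) h2 hsg (by simp only [Kind.n]; omega)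

end Pool.Agent.MC95
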