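import Pool.Agent.MC95.LTerm
import Pool.Agent.MC95.LKing

/-!
# The roots

PLAN. `root_step`: with `r = 23 + 4 * m + 2 * w`, `ρ = r - 2`. The even tracks up to `20 + 4 * m` and
the tracks above `r` pass (`send_pass`, `term_pass`), so `KIF` and the statements for the roots above `w` are kept. Track `r`
itself: Black chooses track `r`, which passes `M ρ` and the first `send` and then goes through the
terms (induction on the list of terms with `term_skip`, `term_W`, `term_L`; at the end
`send r 4` and `KIF.fL`), or track `r - 1`, which is led to `ρ` and to `20 - 4 * (w % 4)`, where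
`KIF.xW` or `KIF.xL` applies.
-/

namespace Pool.Agent.MC95

variable {m : ℕ} {terms : ℕ → List (Bool × (ℕ → Option Bool))} {stop : ℕ → ℕ} {s : AS}

/-- What the list `l` of tiles does with waves on the tracks of the roots from `w` on. -/
structure RIF (m : ℕ) (terms : ℕ → List (Bool × (ℕ → Option Bool))) (stop : ℕ → ℕ) (s : AS)
    (l : List Op) (w : ℕ) : Prop extends KIF m stop s l 0 where
  rW : ∀ v, w ≤ v → v < 8 → s.a = false → s.x = stop (v % 4) →
    (∃ τ ∈ terms v, SatT m τ s.y) → aW (lsg m) stop s l 0 0 (23 + 4 * m + 2 * v) false s.al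
  rL : ∀ v, w ≤ v → v < 8 → ¬ (s.x = stop (v % 4) ∧ ∃ τ ∈ terms v, SatT m τ s.y) →
    aL (lsg m) stop s l 0 0 (23 + 4 * m + 2 * v)

private theorem num_flat (k : Kind) (f : (Bool × (ℕ → Option Bool)) → List Op) (hf : ∀ τ, num k (f τ) = 0)
    (ts : List (Bool × (ℕ → Option Bool))) : num k (ts.flatMap f) = 0 := by
  induction ts with
  | nil => rfl
  | cons a l ih => rw [List.flatMap_cons, num_append, hf, ih]

theorem root_num (S w : ℕ) (ts : List (Bool × (ℕ → Option Bool))) :
    num .Y (rootB m S w ts) = 0 ∧ num .T (rootB m S w ts) = 0 := by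
  constructor
  · unfold rootB
    have h1 : ∀ l : List Op, num .Y (tl 2 .BF (22 + 4 * m + 2 * w) :: tl 2 .M (21 + 4 * m + 2 * w) :: l) =
        num .Y l := by
      intro l
      unfold num
      rw [List.countP_cons, List.countP_cons]
      simp [tl]
    rw [h1, num_append, num_append, (send_num _ _ _).1, (send_num _ _ _).1,
      num_flat _ _ (fun τ => (term_num τ S).1)]
  · unfold rootB
    have h1 : ∀ l : List Op, num .T (tl 2 .BF (22 + 4 * m + 2 * w) :: tl 2 .M (21 + 4 * m + 2 * w) :: l) =
        num .T l := by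
      intro l
      unfold num
      rw [List.countP_cons, List.countP_cons]
      simp [tl]
    rw [h1, num_append, num_append, (send_num _ _ _).2, (send_num _ _ _).2,
      num_flat _ _ (fun τ => (term_num τ S).2)]

private theorem useW {sg : ℕ} {B l : List Op} {t t' i j : ℕ} (h : Fwd sg stop s B t t')
    (hY : num .Y B = 0) (hT : num .T B = 0) {xd kd : Bool} (hl : aW sg stop s l i j t' xd kd) :
    aW sg stop s (B ++ l) i j t xd kd := by
  have h1 := (h l i j).1 xd kd
  rw [hY, hT] at h1
  exact h1 hl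

private theorem useL {sg : ℕ} {B l : List Op} {t t' i j : ℕ} (h : Fwd sg stop s B t t')
    (hY : num .Y B = 0) (hT : num .T B = 0) (hl : aL sg stop s l i j t') :
    aL sg stop s (B ++ l) i j t := by
  have h1 := (h l i j).2
  rw [hY, hT] at h1
  exact h1 hl

private theorem aW_BF {sg b t i j : ℕ} {l : List Op} {xd kd : Bool} (ht : t = b + 1)
    (h1 : aW sg stop s l i j t xd kd) (h2 : aW sg stop s l i j b xd kd) :
    aW sg stop s (tl 2 .BF b :: l) i j t xd kd := by
  subst ht
  simp [aW, tl, Kind.n, h1, h2]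

private theorem aL_BF {sg b t i j : ℕ} {l : List Op} (ht : t = b + 1)
    (h1 : aL sg stop s l i j t ∨ aL sg stop s l i j b) :
    aL sg stop s (tl 2 .BF b :: l) i j t := by
  subst ht
  simp [aL, tl, Kind.n, h1]

private theorem terms_pass {ρ : ℕ} (hρ : ¬ 2 ∣ ρ) (h1 : 21 + 4 * m ≤ ρ)
    (h2 : ρ + 2 < lsg m) {u : ℕ} (hu : 2 ≤ u) (hu' : u ≤ lsg m + 1)
    (h : (2 ∣ u ∧ u ≤ 20 + 4 * m) ∨ ρ + 2 < u) (ts : List (Bool × (ℕ → Option Bool))) :
    Fwd (lsg m) stop s (ts.flatMap (termB m (lsg m) ρ)) u u := by
  induction ts with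
  | nil => exact Fwd.nil u
  | cons a l ih =>
    rw [List.flatMap_cons]
    exact (term_pass hρ h1 h2 hu hu' h).append ih

private theorem terms_num (S ρ : ℕ) (ts : List (Bool × (ℕ → Option Bool))) :
    num .Y (ts.flatMap (termB m S ρ)) = 0 ∧ num .T (ts.flatMap (termB m S ρ)) = 0 :=
  ⟨num_flat _ _ (fun τ => (term_num τ S).1) ts, num_flat _ _ (fun τ => (term_num τ S).2) ts⟩

private theorem str {r : ℕ} {k : Kind} {b t : ℕ} (h : t < b ∨ b + k.n ≤ t) (h2 : 2 ≤ t) (h3 : t ≤ lsg m + 1)
    (hG : k ≠ .G) (hf : k ≠ .first) : Fwd (lsg m) stop s [tl r k b] t t :=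
  Fwd.straight h ⟨h2, h3, Or.inl rfl, hG, hf⟩

private theorem root_pass {w : ℕ} (hw : w < 8) {u : ℕ} (hu : 2 ≤ u) (hu' : u ≤ lsg m + 1)
    (h : (2 ∣ u ∧ u ≤ 20 + 4 * m) ∨ 23 + 4 * m + 2 * w < u) (ts : List (Bool × (ℕ → Option Bool))) :
    Fwd (lsg m) stop s (rootB m (lsg m) w ts) u u := by
  unfold rootB
  have hk : (Kind.BF).n = 2 := rfl
  have hk' : (Kind.M).n = 2 := rfl
  have hl : lsg m = 38 + 4 * m := rfl
  refine Fwd.cons (str (by rw [hk]; omega) hu hu' (by decide) (by decide)) ?_
  refine Fwd.cons (str (by rw [hk']; omega) hu hu' (by decide) (by decide)) ?_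
  refine (send_pass (by omega) (by omega) (by omega) hu hu' (by omega)).append ?_
  refine (terms_pass (by omega) (by omega) (by omega) hu hu' (by omega) ts).append ?_
  exact send_pass (by omega) (by omega) (by omega) hu hu' (by omega)

/-- The part after the first `send`, on an even track. -/
private theorem tail_pass {w : ℕ} (hw : w < 8) {u : ℕ} (hu : 2 ≤ u) (h : 2 ∣ u ∧ u ≤ 20 + 4 * m)
    (ts : List (Bool × (ℕ → Option Bool))) :
    Fwd (lsg m) stop s (ts.flatMap (termB m (lsg m) (21 + 4 * m + 2 * w)) ++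
      send (lsg m) (23 + 4 * m + 2 * w) 4) u u := by
  have hl : lsg m = 38 + 4 * m := rfl
  refine (terms_pass (by omega) (by omega) (by omega) hu (by omega) (by omega) ts).append ?_
  exact send_pass (by omega) (by omega) (by omega) hu (by omega) (by omega)

private theorem tail_num (w : ℕ) (ts : List (Bool × (ℕ → Option Bool))) :
    num .Y (ts.flatMap (termB m (lsg m) (21 + 4 * m + 2 * w)) ++
      send (lsg m) (23 + 4 * m + 2 * w) 4) = 0 ∧
    num .T (ts.flatMap (termB m (lsg m) (21 + 4 * m + 2 * w)) ++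
      send (lsg m) (23 + 4 * m + 2 * w) 4) = 0 := by
  rw [num_append, num_append, (send_num _ _ _).1, (send_num _ _ _).2, (terms_num _ _ ts).1, (terms_num _ _ ts).2]
  exact ⟨rfl, rfl⟩

private theorem tail_KIF {w : ℕ} (hw : w < 8) {l : List Op} (h : KIF m stop s l 0)
    (ts : List (Bool × (ℕ → Option Bool))) :
    KIF m stop s ((ts.flatMap (termB m (lsg m) (21 + 4 * m + 2 * w)) ++
      send (lsg m) (23 + 4 * m + 2 * w) 4) ++ l) 0 :=
  h.pass (fun _ h1 h2 h3 => tail_pass hw h2 ⟨h1, h3⟩ ts) (tail_num w ts).1 (tail_num w ts).2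

private theorem terms_W {w : ℕ} (hw : w < 8) {l : List Op} (h : KIF m stop s l 0)
    (ha : s.a = false) (hx : s.x = stop (w % 4)) (ts : List (Bool × (ℕ → Option Bool)))
    (hs : ∃ τ ∈ ts, SatT m τ s.y) :
    aW (lsg m) stop s ((ts.flatMap (termB m (lsg m) (21 + 4 * m + 2 * w)) ++
      send (lsg m) (23 + 4 * m + 2 * w) 4) ++ l) 0 0 (21 + 4 * m + 2 * w + 2) false s.al := by
  have hl : lsg m = 38 + 4 * m := rfl
  induction ts with
  | nil =>
    obtain ⟨τ, hτ, _⟩ := hs
    exact absurd hτ List.not_mem_nil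
  | cons a ts ih =>
    rw [List.flatMap_cons, List.append_assoc, List.append_assoc]
    rw [← List.append_assoc]
    rw [List.append_assoc]
    by_cases hsa : SatT m a s.y
    · refine term_W (by omega) (by omega) (by omega) ?_ hsa (Nat.mod_lt w (by norm_num)) ha hx
      have := tail_KIF hw h ts
      rwa [List.append_assoc] at this
    · refine term_skip (by omega) (by omega) (by omega) ?_
      have h2 : ∃ τ ∈ ts, SatT m τ s.y := by
        obtain ⟨τ, hτ, hτs⟩ := hs
        rcases List.mem_cons.1 hτ with h3 | h3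
        · subst h3; exact absurd hτs hsa
        · exact ⟨τ, h3, hτs⟩
      have := ih h2
      rwa [List.append_assoc] at this

private theorem terms_L {w : ℕ} (hw : w < 8) {l : List Op} (h : KIF m stop s l 0)
    (ts : List (Bool × (ℕ → Option Bool))) (hs : ∀ τ ∈ ts, ¬ SatT m τ s.y) :
    aL (lsg m) stop s ((ts.flatMap (termB m (lsg m) (21 + 4 * m + 2 * w)) ++
      send (lsg m) (23 + 4 * m + 2 * w) 4) ++ l) 0 0 (21 + 4 * m + 2 * w + 2) := by
  have hl : lsg m = 38 + 4 * m := rfl
  induction ts with
  | nil =>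
    rw [List.flatMap_nil, List.nil_append]
    have e : 21 + 4 * m + 2 * w + 2 = 23 + 4 * m + 2 * w := by ring
    rw [e]
    exact useL (send_fwd (by omega) (by omega) (by omega) (by omega) (by omega) (by omega))
      (send_num _ _ _).1 (send_num _ _ _).2 h.fL
  | cons a ts ih =>
    rw [List.flatMap_cons, List.append_assoc, List.append_assoc]
    refine term_L (by omega) (by omega) (by omega) ?_ (hs a List.mem_cons_self) ?_
    · have := tail_KIF hw h ts
      rwa [List.append_assoc] at this
    · have := ih (fun τ hτ => hs τ (List.mem_cons_of_mem _ hτ))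
      rwa [List.append_assoc] at this

theorem root_step {w : ℕ} (hw : w < 8) {l : List Op} (h : RIF m terms stop s l (w + 1)) :
    RIF m terms stop s (rootB m (lsg m) w (terms w) ++ l) w := by
  have hl : lsg m = 38 + 4 * m := rfl
  have hnum := root_num (m := m) (lsg m) w (terms w)
  have hq : w % 4 < 4 := Nat.mod_lt w (by norm_num)
  have hk' : (Kind.M).n = 2 := rfl
  have e2 : 22 + 4 * m + 2 * w = 21 + 4 * m + 2 * w + 1 := by ring
  have e3 : 21 + 4 * m + 2 * w + 2 = 23 + 4 * m + 2 * w := by ring
  have hM : ∀ l' : List Op, tl 2 .M (21 + 4 * m + 2 * w) :: l' = [tl 2 .M (21 + 4 * m + 2 * w)] ++ l' :=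
    fun l' => rfl
  have hMY : num .Y [tl 2 .M (21 + 4 * m + 2 * w)] = 0 := by simp [num, tl]
  have hMT : num .T [tl 2 .M (21 + 4 * m + 2 * w)] = 0 := by simp [num, tl]
  have hBl : ∀ B1 B2 B3 : List Op, (tl 2 .BF (22 + 4 * m + 2 * w) :: tl 2 .M (21 + 4 * m + 2 * w) ::
      (B1 ++ (B2 ++ B3))) ++ l = tl 2 .BF (22 + 4 * m + 2 * w) ::
      ([tl 2 .M (21 + 4 * m + 2 * w)] ++ (B1 ++ ((B2 ++ B3) ++ l))) := by
    intro B1 B2 B3
    simp
  refine ⟨h.toKIF.pass (fun u h1 h2 h3 => root_pass hw h2 (by omega) (Or.inl ⟨h1, h3⟩) _) hnum.1 hnum.2,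
    ?_, ?_⟩
  · intro v hv hv8 ha hx hs
    rcases Nat.lt_or_ge w v with hwv | hwv
    · exact useW (root_pass hw (by omega) (by omega) (Or.inr (by omega)) _) hnum.1 hnum.2
        (h.rW v hwv hv8 ha hx hs)
    · have : v = w := by omega
      subst this
      unfold rootB
      rw [hBl]
      apply aW_BF (by omega)
      · -- track `r`
        refine useW (t' := 23 + 4 * m + 2 * v) (str (by rw [hk']; omega) (by omega) (by omega)
          (by decide) (by decide)) hMY hMT ?_
        refine useW (t' := 23 + 4 * m + 2 * v) (send_pass (by omega) (by omega) (by omega) (by omega)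
          (by omega) (by omega)) (send_num _ _ _).1 (send_num _ _ _).2 ?_
        have h9 := terms_W hw h.toKIF ha hx _ hs
        rw [e3] at h9
        exact h9
      · -- track `r - 1`
        refine useW (t' := 21 + 4 * m + 2 * v) ?_ hMY hMT ?_
        · rw [e2]
          exact Fwd.M1 rfl
        refine useW (t' := 20 - 4 * (v % 4)) (send_fwd (by omega) (by omega) (by omega) (by omega)
          (by omega) (by omega)) (send_num _ _ _).1 (send_num _ _ _).2 ?_
        refine useW (t' := 20 - 4 * (v % 4)) (tail_pass hw (by omega) (by omega) _)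
          (tail_num v _).1 (tail_num v _).2 ?_
        exact h.xW (v % 4) hq ha hx
  · intro v hv hv8 hs
    rcases Nat.lt_or_ge w v with hwv | hwv
    · exact useL (root_pass hw (by omega) (by omega) (Or.inr (by omega)) _) hnum.1 hnum.2
        (h.rL v hwv hv8 hs)
    · have : v = w := by omega
      subst this
      unfold rootB
      rw [hBl]
      apply aL_BF (by omega)
      by_cases hx : s.x = stop (v % 4)
      · left
        have hs' : ∀ τ ∈ terms v, ¬ SatT m τ s.y := fun τ hτ h3 => hs ⟨hx, τ, hτ, h3⟩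
        refine useL (t' := 23 + 4 * m + 2 * v) (str (by rw [hk']; omega) (by omega) (by omega)
          (by decide) (by decide)) hMY hMT ?_
        refine useL (t' := 23 + 4 * m + 2 * v) (send_pass (by omega) (by omega) (by omega) (by omega)
          (by omega) (by omega)) (send_num _ _ _).1 (send_num _ _ _).2 ?_
        have h9 := terms_L hw h.toKIF _ hs'
        rw [e3] at h9
        exact h9
      · right
        refine useL (t' := 21 + 4 * m + 2 * v) ?_ hMY hMT ?_
        · rw [e2]
          exact Fwd.M1 rfl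
        refine useL (t' := 20 - 4 * (v % 4)) (send_fwd (by omega) (by omega) (by omega) (by omega)
          (by omega) (by omega)) (send_num _ _ _).1 (send_num _ _ _).2 ?_
        refine useL (t' := 20 - 4 * (v % 4)) (tail_pass hw (by omega) (by omega) _)
          (tail_num v _).1 (tail_num v _).2 ?_
        exact h.xL (v % 4) hq hx

theorem roots_RIF (y0 : ℕ → Bool) : RIF m terms stop s (rootsB m terms y0) 0 := by
  have h8 : RIF m terms stop s (kingsB m y0) 8 :=
    ⟨kings_KIF y0, fun v h1 h2 => absurd h2 (by omega), fun v h1 h2 => absurd h2 (by omega)⟩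
  have h7 := root_step (w := 7) (by norm_num) h8
  have h6 := root_step (w := 6) (by norm_num) h7
  have h5 := root_step (w := 5) (by norm_num) h6
  have h4 := root_step (w := 4) (by norm_num) h5
  have h3 := root_step (w := 3) (by norm_num) h4
  have h2 := root_step (w := 2) (by norm_num) h3
  have h1 := root_step (w := 1) (by norm_num) h2
  have h0 := root_step (w := 0) (by norm_num) h1
  unfold rootsB
  have hr : List.range 8 = [0, 1, 2, 3, 4, 5, 6, 7] := rfl
  rw [hr]
  simp only [List.flatMap_cons, List.flatMap_nil, List.append_nil, List.append_assoc]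
  exact h0

end Pool.Agent.MC95
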