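import Pool.Agent.MC95.LKif

/-!
# Terms

PLAN. `ρ` is odd, and `21 + 4 * m ≤ ρ`, `ρ + 2 < lsg m`. The even tracks up to `20 + 4 * m` and the
tracks above `ρ + 1` pass `litB`; the even tracks up to `20 + 4 * m` and the tracks above `ρ + 2`
pass `termB`; hence `KIF` is kept (`KIF.pass`). In `litB` with `some p` the wave on track `ρ + 1` is led by Black to `ρ + 1` or to
`ρ` and then to `22 + 4 * k` or `24 + 4 * k`, where `KIF` of the rest applies.
-/

namespace Pool.Agent.MC95

variable {m : ℕ} {stop : ℕ → ℕ} {s : AS} {ρ : ℕ}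

/-- The term is satisfied. -/
def SatT (m : ℕ) (τ : Bool × (ℕ → Option Bool)) (y : ℕ → Bool) : Prop :=
  τ.1 = true ∧ ∀ k < m, ∀ p, τ.2 k = some p → y k = p

private theorem num_cons_ne {K : Kind} {o : Op} {l : List Op} (h : o.kind ≠ K) :
    num K (o :: l) = num K l := by
  unfold num
  rw [List.countP_cons_of_neg]
  simpa using h

private theorem num_flat {α : Type} {K : Kind} {f : α → List Op} (hf : ∀ a, num K (f a) = 0)
    (ts : List α) : num K (ts.flatMap f) = 0 := by
  induction ts with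
  | nil => rfl
  | cons a l ih => rw [List.flatMap_cons, num_append, hf, ih]

private theorem lit_num (S ρ k : ℕ) (v : Option Bool) :
    num .Y (litB S ρ k v) = 0 ∧ num .T (litB S ρ k v) = 0 := by
  rcases v with _ | _ | _
  · constructor
    · rw [litB, num_cons_ne (by simp [bl])]
      exact (send_num _ _ _).1
    · rw [litB, num_cons_ne (by simp [bl])]
      exact (send_num _ _ _).2
  · constructor
    · rw [litB, num_cons_ne (by simp [tl])]
      exact (send_num _ _ _).1
    · rw [litB, num_cons_ne (by simp [tl])]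
      exact (send_num _ _ _).2
  · constructor
    · rw [litB, num_cons_ne (by simp [tl])]
      exact (send_num _ _ _).1
    · rw [litB, num_cons_ne (by simp [tl])]
      exact (send_num _ _ _).2

private theorem tail_num (S ρ : ℕ) :
    num .Y (tl 2 .M ρ :: send S ρ 18) = 0 ∧ num .T (tl 2 .M ρ :: send S ρ 18) = 0 := by
  constructor
  · rw [num_cons_ne (by simp [tl])]
    exact (send_num _ _ _).1
  · rw [num_cons_ne (by simp [tl])]
    exact (send_num _ _ _).2

private theorem blank_num (S : ℕ) :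
    num .Y (bl 2 :: send S 0 0) = 0 ∧ num .T (bl 2 :: send S 0 0) = 0 := by
  constructor
  · rw [num_cons_ne (by simp [bl])]
    exact (send_num _ _ _).1
  · rw [num_cons_ne (by simp [bl])]
    exact (send_num _ _ _).2

/-- the rest of a term: some literals and the end -/
private def rst (S ρ : ℕ) (v : ℕ → Option Bool) (ks : List ℕ) : List Op :=
  ks.flatMap (fun k => litB S ρ k (v k)) ++ (tl 2 .M ρ :: send S ρ 18)

private theorem rst_num (S ρ : ℕ) (v : ℕ → Option Bool) (ks : List ℕ) :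
    num .Y (rst S ρ v ks) = 0 ∧ num .T (rst S ρ v ks) = 0 := by
  unfold rst
  constructor
  · rw [num_append, num_flat (fun k => (lit_num S ρ k (v k)).1), (tail_num S ρ).1]
  · rw [num_append, num_flat (fun k => (lit_num S ρ k (v k)).2), (tail_num S ρ).2]

theorem term_num (τ : Bool × (ℕ → Option Bool)) (S : ℕ) :
    num .Y (termB m S ρ τ) = 0 ∧ num .T (termB m S ρ τ) = 0 := by
  unfold termB
  split_ifs with h
  · constructor
    · rw [num_cons_ne (by simp [tl])]
      exact (rst_num S ρ τ.2 (List.range m)).1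
    · rw [num_cons_ne (by simp [tl])]
      exact (rst_num S ρ τ.2 (List.range m)).2
  · constructor
    · rw [num_cons_ne (by simp [bl]), num_append, num_flat (fun _ => (blank_num S).1),
        (blank_num S).1]
    · rw [num_cons_ne (by simp [bl]), num_append, num_flat (fun _ => (blank_num S).2),
        (blank_num S).2]

private theorem str {r : ℕ} {k : Kind} {b t : ℕ} (h : t < b ∨ b + k.n ≤ t) (h2 : 2 ≤ t)
    (h3 : t ≤ lsg m + 1) (hG : k ≠ .G) (hf : k ≠ .first) : Fwd (lsg m) stop s [tl r k b] t t :=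
  Fwd.straight h ⟨h2, h3, Or.inl rfl, hG, hf⟩

private theorem lit_pass (hρ : ¬ 2 ∣ ρ) (h1 : 21 + 4 * m ≤ ρ) {k : ℕ} (hk : k < m)
    (v : Option Bool) {u : ℕ} (hu : 2 ≤ u) (hu' : u ≤ lsg m + 1)
    (h : (2 ∣ u ∧ u ≤ 20 + 4 * m) ∨ ρ + 1 < u) :
    Fwd (lsg m) stop s (litB (lsg m) ρ k v) u u := by
  have hB : Kind.BF.n = 2 := rfl
  rcases v with _ | _ | _
  · exact Fwd.cons (Fwd.bl hu hu') (send_zero_pass hu hu')
  · refine Fwd.cons (str (by rw [hB]; omega) hu hu' (by decide) (by decide)) ?_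
    exact send_pass (by omega) hρ (by omega) hu hu' (by omega)
  · refine Fwd.cons (str (by rw [hB]; omega) hu hu' (by decide) (by decide)) ?_
    exact send_pass (by omega) hρ (by omega) hu hu' (by omega)

private theorem tail_pass (hρ : ¬ 2 ∣ ρ) (h1 : 21 + 4 * m ≤ ρ) {u : ℕ} (hu : 2 ≤ u)
    (hu' : u ≤ lsg m + 1) (h : (2 ∣ u ∧ u ≤ 20 + 4 * m) ∨ ρ + 1 < u) :
    Fwd (lsg m) stop s (tl 2 .M ρ :: send (lsg m) ρ 18) u u := by
  have hM : Kind.M.n = 2 := rfl
  refine Fwd.cons (str (by rw [hM]; omega) hu hu' (by decide) (by decide)) ?_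
  exact send_pass (by omega) hρ (by omega) hu hu' (by omega)

private theorem rst_pass (hρ : ¬ 2 ∣ ρ) (h1 : 21 + 4 * m ≤ ρ) (v : ℕ → Option Bool)
    {ks : List ℕ} (hks : ∀ k ∈ ks, k < m) {u : ℕ} (hu : 2 ≤ u) (hu' : u ≤ lsg m + 1)
    (h : (2 ∣ u ∧ u ≤ 20 + 4 * m) ∨ ρ + 1 < u) :
    Fwd (lsg m) stop s (rst (lsg m) ρ v ks) u u := by
  induction ks with
  | nil => exact tail_pass hρ h1 hu hu' h
  | cons k ks ih =>
    unfold rst
    rw [List.flatMap_cons, List.append_assoc]
    exact (lit_pass hρ h1 (hks k List.mem_cons_self) _ hu hu' h).append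
      (ih fun k' hk' => hks k' (List.mem_cons_of_mem _ hk'))

private theorem blanks_pass {u : ℕ} (hu : 2 ≤ u) (hu' : u ≤ lsg m + 1) (ks : List ℕ) :
    Fwd (lsg m) stop s (bl 2 :: (ks.flatMap (fun _ => bl 2 :: send (lsg m) 0 0) ++
      (bl 2 :: send (lsg m) 0 0))) u u := by
  have hb : Fwd (lsg m) stop s (bl 2 :: send (lsg m) 0 0) u u :=
    Fwd.cons (Fwd.bl hu hu') (send_zero_pass hu hu')
  refine Fwd.cons (Fwd.bl hu hu') (Fwd.append ?_ hb)
  induction ks with
  | nil => exact Fwd.nil u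
  | cons k ks ih =>
    rw [List.flatMap_cons]
    exact hb.append ih

theorem term_pass {τ : Bool × (ℕ → Option Bool)} (hρ : ¬ 2 ∣ ρ) (h1 : 21 + 4 * m ≤ ρ)
    (h2 : ρ + 2 < lsg m) {u : ℕ} (hu : 2 ≤ u) (hu' : u ≤ lsg m + 1)
    (h : (2 ∣ u ∧ u ≤ 20 + 4 * m) ∨ ρ + 2 < u) :
    Fwd (lsg m) stop s (termB m (lsg m) ρ τ) u u := by
  have hW : Kind.WF.n = 2 := rfl
  unfold termB
  split_ifs with hτ
  · refine Fwd.cons (str (by rw [hW]; omega) hu hu' (by decide) (by decide)) ?_
    exact rst_pass hρ h1 τ.2 (fun k hk => List.mem_range.1 hk) hu hu' (by omega)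
  · exact blanks_pass hu hu' (List.range m)

private theorem useW {sg : ℕ} {B l : List Op} {t t' i j : ℕ} (h : Fwd sg stop s B t t')
    (hn : num .Y B = 0 ∧ num .T B = 0) {xd kd : Bool} (hl : aW sg stop s l i j t' xd kd) :
    aW sg stop s (B ++ l) i j t xd kd := by
  have h1 := (h l i j).1 xd kd
  rw [hn.1, hn.2] at h1
  exact h1 hl

private theorem useL {sg : ℕ} {B l : List Op} {t t' i j : ℕ} (h : Fwd sg stop s B t t')
    (hn : num .Y B = 0 ∧ num .T B = 0) (hl : aL sg stop s l i j t') :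
    aL sg stop s (B ++ l) i j t := by
  have h1 := (h l i j).2
  rw [hn.1, hn.2] at h1
  exact h1 hl

private theorem aW_BF {sg b i j : ℕ} {l : List Op} {xd kd : Bool}
    (h1 : aW sg stop s l i j (b + 1) xd kd) (h2 : aW sg stop s l i j b xd kd) :
    aW sg stop s (tl 2 .BF b :: l) i j (b + 1) xd kd := by
  simp [aW, tl, Kind.n, h1, h2]

private theorem aL_BF {sg b i j : ℕ} {l : List Op}
    (h1 : aL sg stop s l i j (b + 1) ∨ aL sg stop s l i j b) :
    aL sg stop s (tl 2 .BF b :: l) i j (b + 1) := by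
  simp [aL, tl, Kind.n, h1]

private theorem aW_WF {sg b i j : ℕ} {l : List Op} {xd kd : Bool}
    (h1 : aW sg stop s l i j (b + 1) xd kd ∨ aW sg stop s l i j b xd kd) :
    aW sg stop s (tl 2 .WF b :: l) i j (b + 1) xd kd := by
  simp [aW, tl, Kind.n, h1]

private theorem aL_WF {sg b i j : ℕ} {l : List Op}
    (h1 : aL sg stop s l i j (b + 1)) (h2 : aL sg stop s l i j b) :
    aL sg stop s (tl 2 .WF b :: l) i j (b + 1) := by
  simp [aL, tl, Kind.n, h1, h2]

private theorem termB_true {S : ℕ} {τ : Bool × (ℕ → Option Bool)} (h : τ.1 = true) (l : List Op) :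
    termB m S ρ τ ++ l = tl 2 .WF (ρ + 1) :: (rst S ρ τ.2 (List.range m) ++ l) := by
  unfold termB rst
  rw [if_pos h, List.cons_append]

/-- White may skip a term. -/
theorem term_skip {τ : Bool × (ℕ → Option Bool)} (hρ : ¬ 2 ∣ ρ) (h1 : 21 + 4 * m ≤ ρ)
    (h2 : ρ + 2 < lsg m) {l : List Op} {i j : ℕ} {xd kd : Bool}
    (h : aW (lsg m) stop s l i j (ρ + 2) xd kd) :
    aW (lsg m) stop s (termB m (lsg m) ρ τ ++ l) i j (ρ + 2) xd kd := by
  by_cases hτ : τ.1 = true
  · rw [termB_true hτ]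
    refine aW_WF (b := ρ + 1) (Or.inl ?_)
    exact useW (rst_pass hρ h1 τ.2 (fun k hk => List.mem_range.1 hk) (by omega) (by omega)
      (by omega)) (rst_num _ _ _ _) h
  · refine useW ?_ (term_num τ (lsg m)) h
    unfold termB
    rw [if_neg hτ]
    exact blanks_pass (by omega) (by omega) _

private theorem rst_KIF (hρ : ¬ 2 ∣ ρ) (h1 : 21 + 4 * m ≤ ρ) (h2 : ρ + 2 < lsg m)
    (v : ℕ → Option Bool) {ks : List ℕ} (hks : ∀ k ∈ ks, k < m) {l : List Op}
    (h : KIF m stop s l 0) : KIF m stop s (rst (lsg m) ρ v ks ++ l) 0 :=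
  h.pass (fun _ h3 h4 h5 => rst_pass hρ h1 v hks h4 (by omega) (Or.inl ⟨h3, h5⟩))
    (rst_num _ _ _ _).1 (rst_num _ _ _ _).2

private theorem rst_cons (S ρ : ℕ) (v : ℕ → Option Bool) (k : ℕ) (ks : List ℕ) (l : List Op) :
    rst S ρ v (k :: ks) ++ l = litB S ρ k (v k) ++ (rst S ρ v ks ++ l) := by
  unfold rst
  rw [List.flatMap_cons, List.append_assoc, List.append_assoc, List.append_assoc]

private theorem M1' (ρ : ℕ) : Fwd (lsg m) stop s [tl 2 .M ρ] (ρ + 1) ρ :=
  Fwd.M1 (o := tl 2 .M ρ) rfl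

private theorem rst_W (hρ : ¬ 2 ∣ ρ) (h1 : 21 + 4 * m ≤ ρ)
    (h2 : ρ + 2 < lsg m) {l : List Op} (h : KIF m stop s l 0) (v : ℕ → Option Bool) {q : ℕ}
    (hq : q < 4) (ha : s.a = false) (hx : s.x = stop q) {ks : List ℕ} (hks : ∀ k ∈ ks, k < m)
    (hs : ∀ k ∈ ks, ∀ p, v k = some p → s.y k = p) :
    aW (lsg m) stop s (rst (lsg m) ρ v ks ++ l) 0 0 (ρ + 1) false s.al := by
  induction ks with
  | nil =>
    refine useW (t' := 18) ?_ (rst_num _ _ _ _) (h.qW q hq ha hx)
    exact Fwd.cons (M1' ρ) (send_fwd (by omega) hρ (by omega) (by omega) (by omega) (by omega))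
  | cons k ks ih =>
    have hk : k < m := hks k List.mem_cons_self
    have hks' : ∀ k' ∈ ks, k' < m := fun k' hk' => hks k' (List.mem_cons_of_mem _ hk')
    have h3 := ih hks' fun k' hk' => hs k' (List.mem_cons_of_mem _ hk')
    have h4 := rst_KIF hρ h1 h2 v hks' h
    have h5 := hs k List.mem_cons_self
    rw [rst_cons]
    rcases hv : v k with _ | _ | _
    · exact useW (B := bl 2 :: send (lsg m) 0 0)
        (Fwd.cons (Fwd.bl (by omega) (by omega)) (send_zero_pass (by omega) (by omega)))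
        (blank_num _) h3
    · rw [litB, List.cons_append]
      refine aW_BF ?_ ?_
      · exact useW (send_pass (by omega) hρ (by omega) (by omega) (by omega) (by omega))
          (send_num _ _ _) h3
      · exact useW (send_fwd (by omega) hρ (by omega) (by omega) (by omega) (by omega))
          (send_num _ _ _) (h4.nW q hq ha hx k (by omega) hk (h5 false hv))
    · rw [litB, List.cons_append]
      refine aW_BF ?_ ?_
      · exact useW (send_pass (by omega) hρ (by omega) (by omega) (by omega) (by omega))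
          (send_num _ _ _) h3
      · exact useW (send_fwd (by omega) hρ (by omega) (by omega) (by omega) (by omega))
          (send_num _ _ _) (h4.pW q hq ha hx k (by omega) hk (h5 true hv))

private theorem rst_L (hρ : ¬ 2 ∣ ρ) (h1 : 21 + 4 * m ≤ ρ)
    (h2 : ρ + 2 < lsg m) {l : List Op} (h : KIF m stop s l 0) (v : ℕ → Option Bool)
    {ks : List ℕ} (hks : ∀ k ∈ ks, k < m) {k0 : ℕ} (hk0 : k0 ∈ ks) {p : Bool}
    (hp : v k0 = some p) (hy : s.y k0 ≠ p) :
    aL (lsg m) stop s (rst (lsg m) ρ v ks ++ l) 0 0 (ρ + 1) := by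
  induction ks with
  | nil => exact absurd hk0 List.not_mem_nil
  | cons k ks ih =>
    have hk : k < m := hks k List.mem_cons_self
    have hks' : ∀ k' ∈ ks, k' < m := fun k' hk' => hks k' (List.mem_cons_of_mem _ hk')
    have h4 := rst_KIF hρ h1 h2 v hks' h
    rw [rst_cons]
    by_cases e : k0 = k
    · subst e
      rw [hp]
      rcases p with _ | _
      · rw [litB, List.cons_append]
        refine aL_BF (Or.inr ?_)
        exact useL (send_fwd (by omega) hρ (by omega) (by omega) (by omega) (by omega))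
          (send_num _ _ _) (h4.nL k0 (by omega) hk (by simpa using hy))
      · rw [litB, List.cons_append]
        refine aL_BF (Or.inr ?_)
        exact useL (send_fwd (by omega) hρ (by omega) (by omega) (by omega) (by omega))
          (send_num _ _ _) (h4.pL k0 (by omega) hk (by simpa using hy))
    · have h3 := ih hks' (by
        rcases List.mem_cons.1 hk0 with h5 | h5
        · exact absurd h5 e
        · exact h5)
      rcases v k with _ | _ | _
      · exact useL (B := bl 2 :: send (lsg m) 0 0) (Fwd.cons (Fwd.bl (by omega) (by omega))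
          (send_zero_pass (by omega) (by omega))) (blank_num _) h3
      · rw [litB, List.cons_append]
        refine aL_BF (Or.inl ?_)
        exact useL (send_pass (by omega) hρ (by omega) (by omega) (by omega) (by omega))
          (send_num _ _ _) h3
      · rw [litB, List.cons_append]
        refine aL_BF (Or.inl ?_)
        exact useL (send_pass (by omega) hρ (by omega) (by omega) (by omega) (by omega))
          (send_num _ _ _) h3

/-- White may choose a satisfied term. -/
theorem term_W {τ : Bool × (ℕ → Option Bool)} (hρ : ¬ 2 ∣ ρ) (h1 : 21 + 4 * m ≤ ρ)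
    (h2 : ρ + 2 < lsg m) {l : List Op} (h : KIF m stop s l 0) (hs : SatT m τ s.y) {q : ℕ}
    (hq : q < 4) (ha : s.a = false) (hx : s.x = stop q) :
    aW (lsg m) stop s (termB m (lsg m) ρ τ ++ l) 0 0 (ρ + 2) false s.al := by
  rw [termB_true hs.1]
  refine aW_WF (b := ρ + 1) (Or.inr ?_)
  exact rst_W hρ h1 h2 h τ.2 hq ha hx (fun k hk => List.mem_range.1 hk)
    fun k hk => hs.2 k (List.mem_range.1 hk)

/-- White does not win with a term that is not satisfied. -/
theorem term_L {τ : Bool × (ℕ → Option Bool)} (hρ : ¬ 2 ∣ ρ) (h1 : 21 + 4 * m ≤ ρ)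
    (h2 : ρ + 2 < lsg m) {l : List Op} (h : KIF m stop s l 0) (hs : ¬ SatT m τ s.y)
    (hL : aL (lsg m) stop s l 0 0 (ρ + 2)) :
    aL (lsg m) stop s (termB m (lsg m) ρ τ ++ l) 0 0 (ρ + 2) := by
  by_cases hτ : τ.1 = true
  · have h3 : ∃ k < m, ∃ p, τ.2 k = some p ∧ s.y k ≠ p := by
      by_contra hcon
      push Not at hcon
      exact hs ⟨hτ, fun k hk p hp => hcon k hk p hp⟩
    obtain ⟨k, hk, p, hp, hy⟩ := h3
    rw [termB_true hτ]
    refine aL_WF (b := ρ + 1) ?_ ?_
    · exact useL (rst_pass hρ h1 τ.2 (fun k hk => List.mem_range.1 hk) (by omega) (by omega)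
        (by omega)) (rst_num _ _ _ _) hL
    · exact rst_L hρ h1 h2 h τ.2 (fun k hk => List.mem_range.1 hk) (List.mem_range.2 hk) hp hy
  · refine useL ?_ (term_num τ (lsg m)) hL
    unfold termB
    rw [if_neg hτ]
    exact blanks_pass (by omega) (by omega) _

end Pool.Agent.MC95
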