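import Pool.Agent.MC95.LRoot

/-!
# The circuit

PLAN. `s.al = true`: `lad 1 1 (36 + 4 * m)` leads from `1` to `37 + 4 * m`, `fan 1 (31 + 4 * m)` to
the track `31 + 4 * m + 2 * q = 23 + 4 * m + 2 * (4 + q)` of a root, which passes NA (`trk = 1`),
`lad 2 2 (27 + 4 * m)` and `fan 2 (23 + 4 * m)`. `s.al = false`: `lad 2 2 (27 + 4 * m)` leads from `2`
to `29 + 4 * m`, `fan 2 (23 + 4 * m)` to `23 + 4 * m + 2 * q`. Then `roots_RIF`. The number of the
root is `rt s.al q`.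
-/

namespace Pool.Agent.MC95

variable {m : ℕ} {terms : ℕ → List (Bool × (ℕ → Option Bool))} {stop : ℕ → ℕ} {s : AS}

private theorem aB_eq (y0 : ℕ → Bool) :
    aB m terms y0 = tl 0 .NA 1 :: (lad 2 2 (27 + 4 * m) ++ (fan 2 (23 + 4 * m) ++
      rootsB m terms y0)) := rfl

private theorem layout_drop (y0 : ℕ → Bool) : (layout m terms y0).drop 2 =
    lad 1 1 (36 + 4 * m) ++ (fan 1 (31 + 4 * m) ++ aB m terms y0) := rfl

/-- From the NA tile to the roots. -/
private theorem high_fwd {q : ℕ} (hq : q < 4) :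
    Fwd (lsg m) stop s (tl 0 .NA 1 :: (lad 2 2 (27 + 4 * m) ++ fan 2 (23 + 4 * m)))
      (31 + 4 * m + 2 * q) (31 + 4 * m + 2 * q) := by
  have hsg : lsg m = 38 + 4 * m := rfl
  refine Fwd.cons (Fwd.straight (Or.inr ?_) ?_) (Fwd.append (lad_pass ?_ ?_ ?_)
    (fan_pass ?_ ?_ ?_))
  · change 1 + 2 ≤ _
    omega
  · refine ⟨by omega, by omega, Or.inl rfl, ?_, ?_⟩
    · change Kind.NA ≠ Kind.G
      decide
    · change Kind.NA ≠ Kind.first
      decide
  all_goals omega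

private theorem high_num : num .Y (tl 0 .NA 1 :: (lad 2 2 (27 + 4 * m) ++ fan 2 (23 + 4 * m))) = 0 ∧
    num .T (tl 0 .NA 1 :: (lad 2 2 (27 + 4 * m) ++ fan 2 (23 + 4 * m))) = 0 := by
  have h1 : ∀ (k : Kind) (o : Op) (l : List Op), o.kind ≠ k → num k (o :: l) = num k l := by
    intro k o l h
    unfold num
    rw [List.countP_cons_of_neg]
    simpa using h
  have h2 := lad_num 2 2 (27 + 4 * m)
  have h3 := fan_num 2 (23 + 4 * m)
  rw [h1 _ _ _ (by change Kind.NA ≠ Kind.Y; decide), h1 _ _ _ (by change Kind.NA ≠ Kind.T; decide),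
    num_append, num_append, h2.1, h2.2, h3.1, h3.2]
  exact ⟨rfl, rfl⟩

private theorem aB_split (y0 : ℕ → Bool) : aB m terms y0 =
    (tl 0 .NA 1 :: (lad 2 2 (27 + 4 * m) ++ fan 2 (23 + 4 * m))) ++ rootsB m terms y0 := by
  rw [aB_eq, List.cons_append, List.append_assoc]

theorem layout_W1 (y0 : ℕ → Bool) (hal : s.al = true) (ha : s.a = false) {q : ℕ} (hq : q < 4)
    (hx : s.x = stop q) (hs : ∃ τ ∈ terms (rt s.al q), SatT m τ s.y) :
    aW (lsg m) stop s ((layout m terms y0).drop 2) 0 0 1 false s.al := by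
  have hsg : lsg m = 38 + 4 * m := rfl
  have hR := (roots_RIF (m := m) (terms := terms) (stop := stop) (s := s) y0).rW (4 + q) (by omega)
    (by omega) ha (by rw [Nat.add_mod_left, Nat.mod_eq_of_lt hq]; exact hx)
    (by rw [hal] at hs; exact hs)
  rw [layout_drop]
  refine ((lad_fwd (Or.inr ⟨le_rfl, hal⟩)) _ 0 0).1 _ _ ?_
  rw [(lad_num _ _ _).1, (lad_num _ _ _).2]
  have h37 : 1 + (36 + 4 * m) = (31 + 4 * m) + 6 := by omega
  rw [h37]
  refine fan_W hq (by omega) (by omega) ?_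
  rw [aB_split]
  refine ((high_fwd hq) _ _ _).1 _ _ ?_
  rw [high_num.1, high_num.2]
  have h31 : 31 + 4 * m + 2 * q = 23 + 4 * m + 2 * (4 + q) := by omega
  rw [h31]
  exact hR

theorem layout_W0 (y0 : ℕ → Bool) (hal : s.al = false) (ha : s.a = false) {q : ℕ} (hq : q < 4)
    (hx : s.x = stop q) (hs : ∃ τ ∈ terms (rt s.al q), SatT m τ s.y) :
    aW (lsg m) stop s (aB m terms y0).tail 0 0 2 false s.al := by
  have hsg : lsg m = 38 + 4 * m := rfl
  have hR := (roots_RIF (m := m) (terms := terms) (stop := stop) (s := s) y0).rW q (by omega)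
    (by omega) ha (by rw [Nat.mod_eq_of_lt hq]; exact hx)
    (by rw [hal] at hs; simpa [rt] using hs)
  rw [aB_eq, List.tail_cons]
  refine ((lad_fwd (Or.inl le_rfl)) _ 0 0).1 _ _ ?_
  rw [(lad_num _ _ _).1, (lad_num _ _ _).2]
  have h29 : 2 + (27 + 4 * m) = (23 + 4 * m) + 6 := by omega
  rw [h29]
  exact fan_W hq (by omega) (by omega) hR

theorem layout_L1 (y0 : ℕ → Bool) (hal : s.al = true)
    (hs : ¬ ∃ q < 4, s.x = stop q ∧ ∃ τ ∈ terms (rt s.al q), SatT m τ s.y) :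
    aL (lsg m) stop s ((layout m terms y0).drop 2) 0 0 1 := by
  have hsg : lsg m = 38 + 4 * m := rfl
  rw [layout_drop]
  refine ((lad_fwd (Or.inr ⟨le_rfl, hal⟩)) _ 0 0).2 ?_
  rw [(lad_num _ _ _).1, (lad_num _ _ _).2]
  have h37 : 1 + (36 + 4 * m) = (31 + 4 * m) + 6 := by omega
  rw [h37]
  refine fan_L (by omega) (by omega) fun q hq => ?_
  have hR := (roots_RIF (m := m) (terms := terms) (stop := stop) (s := s) y0).rL (4 + q) (by omega)
    (by omega) (by
      rw [Nat.add_mod_left, Nat.mod_eq_of_lt hq]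
      rintro ⟨h1, h2⟩
      refine hs ⟨q, hq, h1, ?_⟩
      rw [hal]
      exact h2)
  rw [aB_split]
  refine ((high_fwd hq) _ _ _).2 ?_
  rw [high_num.1, high_num.2]
  have h31 : 31 + 4 * m + 2 * q = 23 + 4 * m + 2 * (4 + q) := by omega
  rw [h31]
  exact hR

theorem layout_L0 (y0 : ℕ → Bool) (hal : s.al = false)
    (hs : ¬ ∃ q < 4, s.x = stop q ∧ ∃ τ ∈ terms (rt s.al q), SatT m τ s.y) :
    aL (lsg m) stop s (aB m terms y0).tail 0 0 2 := by
  have hsg : lsg m = 38 + 4 * m := rfl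
  rw [aB_eq, List.tail_cons]
  refine ((lad_fwd (Or.inl le_rfl)) _ 0 0).2 ?_
  rw [(lad_num _ _ _).1, (lad_num _ _ _).2]
  have h29 : 2 + (27 + 4 * m) = (23 + 4 * m) + 6 := by omega
  rw [h29]
  refine fan_L (by omega) (by omega) fun q hq => ?_
  exact (roots_RIF (m := m) (terms := terms) (stop := stop) (s := s) y0).rL q (by omega)
    (by omega) (by
      rw [Nat.mod_eq_of_lt hq]
      rintro ⟨h1, h2⟩
      refine hs ⟨q, hq, h1, ?_⟩
      rw [hal]
      simpa [rt] using h2)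

end Pool.Agent.MC95
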