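import Pool.Agent.MC95.Lay

/-!
# From lists of tiles to circuits

PLAN. Induction on the list; `C.g.ops.drop c = o :: l` gives `c < C.g.ops.length`, `C.op c = o`,
`C.g.ops.drop (c + 1) = l` and `cnt k C.g.ops (c + 1) = cnt k C.g.ops c + (if o.kind = k then 1 else
0)`.
-/

namespace Pool.Agent.MC95

variable {C : Circ} {s : AS} {tog : Bool} {stop : ℕ → ℕ}

theorem cnt_succ {l l' : List Op} {c : ℕ} {o : Op} (h : l.drop c = o :: l') (k : Kind) :
    cnt k l (c + 1) = if o.kind = k then cnt k l c + 1 else cnt k l c := by
  have h1 : c < l.length := by
    by_contra hcon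
    rw [List.drop_eq_nil_of_le (not_lt.1 hcon)] at h
    exact absurd h (by simp)
  have h2 : l[c] = o := by
    rw [List.drop_eq_getElem_cons h1] at h
    exact (List.cons.inj h).1
  have h3 : l.take (c + 1) = l.take c ++ [o] := by
    rw [List.take_succ_eq_append_getElem h1, h2]
  unfold cnt num
  rw [h3, List.countP_append]
  by_cases hk : o.kind = k
  · rw [if_pos hk]
    simp [hk]
  · rw [if_neg hk]
    simp [hk]

private theorem lt_drop {c : ℕ} {o : Op} {l : List Op} (h : C.g.ops.drop c = o :: l) :
    c < C.g.ops.length ∧ C.op c = o ∧ C.g.ops.drop (c + 1) = l := by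
  have h1 : c < C.g.ops.length := by
    by_contra hcon
    rw [List.drop_eq_nil_of_le (not_lt.1 hcon)] at h
    exact absurd h (by simp)
  rw [List.drop_eq_getElem_cons h1] at h
  have h2 := List.cons.inj h
  refine ⟨h1, ?_, h2.2⟩
  unfold Circ.op
  rw [List.getD_eq_getElem _ _ h1]
  exact h2.1

theorem semW_of_aW
    (hT : ∀ c < C.g.ops.length, (C.op c).kind = .T → C.stopAt c = stop (cnt .T C.g.ops c)) :
    ∀ (l : List Op) (c t : ℕ) (xd kd : Bool), C.g.ops.drop c = l →
      aW C.g.sg stop s l (cnt .Y C.g.ops c) (cnt .T C.g.ops c) t xd kd →
      semW C s.al (kcOf C.g.ops s tog) l c t xd kd := by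
  intro l
  induction l with
  | nil =>
    intro c t xd kd _ h
    exact absurd h id
  | cons o l ih =>
    intro c t xd kd hd h
    obtain ⟨hlt, hop, hd'⟩ := lt_drop hd
    have IH : ∀ {t xd kd},
        aW C.g.sg stop s l (cnt .Y C.g.ops (c + 1)) (cnt .T C.g.ops (c + 1)) t xd kd →
        semW C s.al (kcOf C.g.ops s tog) l (c + 1) t xd kd := fun h2 => ih (c + 1) _ _ _ hd' h2
    rw [aW] at h
    simp only [← cnt_succ hd .Y, ← cnt_succ hd .T] at h
    rw [semW]
    by_cases hin : o.trk ≤ t ∧ t < o.trk + o.kind.n
    · rw [if_pos hin] at h ⊢
      obtain ⟨j, rfl⟩ : ∃ j, t = o.trk + j := ⟨t - o.trk, by omega⟩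
      rw [show o.trk + j - o.trk = j by omega] at h ⊢
      have hjn : j < o.kind.n := by omega
      clear hin
      rcases hk : o.kind
      case first => simp [hk, Kind.n] at hjn
      case blank => simp [hk, Kind.n] at hjn
      case U =>
        have hj2 : j < 2 := by rw [hk] at hjn; exact hjn
        simp only [hk] at h ⊢
        interval_cases j
        · exact ⟨h.1, IH h.2⟩
        · exact h.elim
      case M =>
        simp only [hk] at h ⊢
        exact IH h
      case H =>
        have hj2 : j < 3 := by rw [hk] at hjn; exact hjn
        simp only [hk] at h ⊢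
        interval_cases j
        · exact h.elim
        · exact IH h
        · exact IH h
      case WF =>
        have hj2 : j < 2 := by rw [hk] at hjn; exact hjn
        simp only [hk] at h ⊢
        interval_cases j
        · exact h.elim
        · exact h.imp (fun h => IH h) fun h => IH h
      case BF =>
        have hj2 : j < 2 := by rw [hk] at hjn; exact hjn
        simp only [hk] at h ⊢
        interval_cases j
        · exact h.elim
        · exact ⟨IH h.1, IH h.2⟩
      case T =>
        have hj2 : j < 2 := by rw [hk] at hjn; exact hjn
        simp only [hk] at h ⊢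
        interval_cases j
        · exact h.elim
        · refine ⟨h.1, ?_, IH h.2.2⟩
          have h1 := hT c hlt (by rw [hop, hk])
          show some s.x = some (C.stopAt c)
          rw [h1, h.2.1]
      case Y =>
        have hj2 : j < 4 := by rw [hk] at hjn; exact hjn
        simp only [hk] at h ⊢
        interval_cases j
        · exact h.elim
        · exact ⟨h.1, IH h.2⟩
        · exact ⟨h.1, IH h.2⟩
        · exact h.elim
      case UT =>
        have hj2 : j < 2 := by rw [hk] at hjn; exact hjn
        simp only [hk] at h ⊢
        interval_cases j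
        · exact IH h
        · exact h.elim
      case G =>
        have hj2 : j < 2 := by rw [hk] at hjn; exact hjn
        simp only [hk] at h ⊢
        interval_cases j
        · exact h.elim
        · exact h
      case N1 =>
        have hj2 : j < 3 := by rw [hk] at hjn; exact hjn
        simp only [hk] at h ⊢
        interval_cases j
        · exact h.elim
        · exact h.elim
        · exact ⟨h.1, IH h.2⟩
      case NA => simp only [hk] at h
      case NB => simp only [hk] at h
    · rw [if_neg hin] at h ⊢
      exact ⟨h.1, IH h.2⟩

theorem semL_of_aL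
    (hT : ∀ c < C.g.ops.length, (C.op c).kind = .T → C.stopAt c = stop (cnt .T C.g.ops c)) :
    ∀ (l : List Op) (c t : ℕ), C.g.ops.drop c = l →
      aL C.g.sg stop s l (cnt .Y C.g.ops c) (cnt .T C.g.ops c) t →
      semL C s.al (kcOf C.g.ops s tog) l c t := by
  intro l
  induction l with
  | nil =>
    intro c t _ h
    exact absurd h id
  | cons o l ih =>
    intro c t hd h
    obtain ⟨hlt, hop, hd'⟩ := lt_drop hd
    have IH : ∀ {t},
        aL C.g.sg stop s l (cnt .Y C.g.ops (c + 1)) (cnt .T C.g.ops (c + 1)) t →
        semL C s.al (kcOf C.g.ops s tog) l (c + 1) t := fun h2 => ih (c + 1) _ hd' h2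
    rw [aL] at h
    simp only [← cnt_succ hd .Y, ← cnt_succ hd .T] at h
    rw [semL]
    by_cases hin : o.trk ≤ t ∧ t < o.trk + o.kind.n
    · rw [if_pos hin] at h ⊢
      obtain ⟨j, rfl⟩ : ∃ j, t = o.trk + j := ⟨t - o.trk, by omega⟩
      rw [show o.trk + j - o.trk = j by omega] at h ⊢
      have hjn : j < o.kind.n := by omega
      clear hin
      rcases hk : o.kind
      case first => simp [hk, Kind.n] at hjn
      case blank => simp [hk, Kind.n] at hjn
      case U =>
        have hj2 : j < 2 := by rw [hk] at hjn; exact hjn
        simp only [hk] at h ⊢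
        interval_cases j
        · exact ⟨h.1, IH h.2⟩
        · exact h.elim
      case M =>
        simp only [hk] at h ⊢
        exact IH h
      case H =>
        have hj2 : j < 3 := by rw [hk] at hjn; exact hjn
        simp only [hk] at h ⊢
        interval_cases j
        · exact h.elim
        · exact IH h
        · exact IH h
      case WF =>
        have hj2 : j < 2 := by rw [hk] at hjn; exact hjn
        simp only [hk] at h ⊢
        interval_cases j
        · exact h.elim
        · exact ⟨IH h.1, IH h.2⟩
      case BF =>
        have hj2 : j < 2 := by rw [hk] at hjn; exact hjn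
        simp only [hk] at h ⊢
        interval_cases j
        · exact h.elim
        · exact h.imp (fun h => IH h) fun h => IH h
      case T =>
        have hj2 : j < 2 := by rw [hk] at hjn; exact hjn
        simp only [hk] at h ⊢
        interval_cases j
        · exact h.elim
        · refine ⟨?_, IH h.2⟩
          have h1 := hT c hlt (by rw [hop, hk])
          show some s.x ≠ some (C.stopAt c)
          rw [h1]
          exact fun h2 => h.1 (Option.some.inj h2)
      case Y =>
        have hj2 : j < 4 := by rw [hk] at hjn; exact hjn
        simp only [hk] at h ⊢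
        interval_cases j
        · exact h.elim
        · exact ⟨h.1, IH h.2⟩
        · exact ⟨h.1, IH h.2⟩
        · exact h.elim
      case UT =>
        have hj2 : j < 2 := by rw [hk] at hjn; exact hjn
        simp only [hk] at h ⊢
        interval_cases j
        · exact IH h
        · exact h.elim
      case G =>
        have hj2 : j < 2 := by rw [hk] at hjn; exact hjn
        simp only [hk] at h ⊢
        interval_cases j
        · trivial
        · exact h.elim
      case N1 => simp only [hk] at h
      case NA => simp only [hk] at h
      case NB => simp only [hk] at h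
    · rw [if_neg hin] at h ⊢
      exact ⟨h.1, IH h.2⟩

end Pool.Agent.MC95
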