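import Pool.Agent.MC95.LEnd

/-!
# The corridor

PLAN. In `xBlock j` (`j < 4`) with `c = 4 * j`: the wave on track `20 - c` passes `WF (17 - c)` and
`U (18 - c)`, goes to `19 - c` in `M (19 - c)`, then up to `21` (`2 + c` tiles `U`), passes
`H (15 - c)`, `M (14 - c)` and is tested by T: if `s.x = stop j` it goes to track `20` with `xd` set,
passes `sendC 8` (tiles `H 19`, `H 17`, ..., `H 5`, `M 4`; track `20` is the middle track of `H 19`),
goes to `21` in `U 20` and to `2` by `sendC 9`; if `s.x ≠ stop j` it stays on `21`, goes to `4` by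
`sendC 8`, passes `U 20`, `sendC 9` (track `4` is the middle track of `H 3`). White's wave on track
`18 - c`: White may choose to stay on `18 - c`, then `U (18 - c)` moves it to `19 - c` and it joins
the wave above; or go to `17 - c`, which is moved to `14 - c` by `H (15 - c)`, `M (14 - c)` if
`j < 3`. (For `j = 3` White would end on track `5` and then `4`; we never need this.) The tracks
`20 - 4 * q` for `q > j` are passed in `xBlock j` (track `16 - c` is the middle track of `H (15 - c)`),
as are the tracks `2` and `4`.
Everything is finite: case distinction on `j`, `q` and `simp`/`decide` are fine too.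
-/

namespace Pool.Agent.MC95

variable {m : ℕ} {stop : ℕ → ℕ} {s : AS}

/-- Simulation of a wave for White; at the `j`-th tile WF White stays on its track if `j = q`. -/
private def simW (q : ℕ) : List Op → ℕ → ℕ → Bool → Option (ℕ × Bool)
  | [], _, t, xd => some (t, xd)
  | o :: l, j, t, xd =>
    let j' := if o.kind = .T then j + 1 else j
    if o.trk ≤ t ∧ t < o.trk + o.kind.n then
      if o.kind = .U ∧ t = o.trk ∧ 2 ≤ t then simW q l j' (o.trk + 1) xd
      else if o.kind = .M then simW q l j' o.trk xd
      else if o.kind = .H ∧ t = o.trk + 2 then simW q l j' o.trk xd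
      else if o.kind = .H ∧ t = o.trk + 1 then simW q l j' (o.trk + 1) xd
      else if o.kind = .WF ∧ t = o.trk + 1 then
        (if j = q then simW q l j' (o.trk + 1) xd else simW q l j' o.trk xd)
      else if o.kind = .T ∧ t = o.trk + 1 ∧ j = q ∧ xd = false then simW q l j' o.trk true
      else none
    else if 2 ≤ t ∧ t ≤ 21 ∧ o.kind ≠ .G ∧ o.kind ≠ .first then simW q l j' t xd else none

private theorem simW_sound {sg q : ℕ} (hx : s.x = stop q) (hsg : 21 ≤ sg + 1) (rest : List Op) (kd : Bool) :
    ∀ (l : List Op) (i j t : ℕ) (xd : Bool) (t' : ℕ) (xd' : Bool), simW q l j t xd = some (t', xd') →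
      (∀ i' j', aW sg stop s rest i' j' t' xd' kd) → aW sg stop s (l ++ rest) i j t xd kd := by
  intro l
  induction l with
  | nil =>
    intro i j t xd t' xd' h hr
    simp only [simW, Option.some.injEq, Prod.mk.injEq] at h
    obtain ⟨rfl, rfl⟩ := h
    exact hr i j
  | cons o l ih =>
    intro i j t xd t' xd' h hr
    rw [List.cons_append]
    unfold simW at h
    unfold aW
    dsimp only at h ⊢
    generalize (if o.kind = .T then j + 1 else j) = j2 at h ⊢
    generalize (if o.kind = .Y then i + 1 else i) = i2
    by_cases h1 : o.trk ≤ t ∧ t < o.trk + o.kind.n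
    · rw [if_pos h1] at h ⊢
      by_cases h2 : o.kind = .U ∧ t = o.trk ∧ 2 ≤ t
      · rw [if_pos h2] at h
        obtain ⟨h3, h4, h5⟩ := h2
        have e : t - o.trk = 0 := by omega
        rw [h3, e] at *
        exact ⟨Or.inl h5, ih _ _ _ _ _ _ h hr⟩
      · rw [if_neg h2] at h
        by_cases h2 : o.kind = .M
        · rw [if_pos h2] at h
          rw [h2] at *
          exact ih _ _ _ _ _ _ h hr
        · rw [if_neg h2] at h
          by_cases h2 : o.kind = .H ∧ t = o.trk + 2
          · rw [if_pos h2] at h
            obtain ⟨h3, h4⟩ := h2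
            have e : t - o.trk = 2 := by omega
            rw [h3, e] at *
            exact ih _ _ _ _ _ _ h hr
          · rw [if_neg h2] at h
            by_cases h2 : o.kind = .H ∧ t = o.trk + 1
            · rw [if_pos h2] at h
              obtain ⟨h3, h4⟩ := h2
              have e : t - o.trk = 1 := by omega
              rw [h3, e] at *
              exact ih _ _ _ _ _ _ h hr
            · rw [if_neg h2] at h
              by_cases h2 : o.kind = .WF ∧ t = o.trk + 1
              · rw [if_pos h2] at h
                obtain ⟨h3, h4⟩ := h2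
                have e : t - o.trk = 1 := by omega
                rw [h3, e] at *
                by_cases h5 : j = q
                · rw [if_pos h5] at h
                  exact Or.inl (ih _ _ _ _ _ _ h hr)
                · rw [if_neg h5] at h
                  exact Or.inr (ih _ _ _ _ _ _ h hr)
              · rw [if_neg h2] at h
                by_cases h2 : o.kind = .T ∧ t = o.trk + 1 ∧ j = q ∧ xd = false
                · rw [if_pos h2] at h
                  obtain ⟨h3, h4, h5, h6⟩ := h2
                  have e : t - o.trk = 1 := by omega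
                  rw [h3, e] at *
                  exact ⟨h6, by rw [h5]; exact hx, ih _ _ _ _ _ _ h hr⟩
                · rw [if_neg h2] at h
                  exact absurd h (by simp)
    · rw [if_neg h1] at h ⊢
      by_cases h2 : 2 ≤ t ∧ t ≤ 21 ∧ o.kind ≠ .G ∧ o.kind ≠ .first
      · rw [if_pos h2] at h
        obtain ⟨h3, h4, h5, h6⟩ := h2
        exact ⟨⟨h3, by omega, Or.inr h4, h5, h6⟩, ih _ _ _ _ _ _ h hr⟩
      · rw [if_neg h2] at h
        exact absurd h (by simp)

/-- Simulation of a wave for Black. -/
private def simL (q : ℕ) : List Op → ℕ → ℕ → Option ℕ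
  | [], _, t => some t
  | o :: l, j, t =>
    let j' := if o.kind = .T then j + 1 else j
    if o.trk ≤ t ∧ t < o.trk + o.kind.n then
      if o.kind = .U ∧ t = o.trk ∧ 2 ≤ t then simL q l j' (o.trk + 1)
      else if o.kind = .M then simL q l j' o.trk
      else if o.kind = .H ∧ t = o.trk + 2 then simL q l j' o.trk
      else if o.kind = .H ∧ t = o.trk + 1 then simL q l j' (o.trk + 1)
      else if o.kind = .T ∧ t = o.trk + 1 ∧ j = q then simL q l j' (o.trk + 1)
      else none
    else if 2 ≤ t ∧ t ≤ 21 ∧ o.kind ≠ .G ∧ o.kind ≠ .first then simL q l j' t else none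

private theorem simL_sound {sg q : ℕ} (hx : q < 4 → s.x ≠ stop q) (hsg : 21 ≤ sg + 1) (rest : List Op) :
    ∀ (l : List Op) (i j t t' : ℕ), (q < 4 ∨ 4 ≤ q ∧ ∀ o ∈ l, o.kind ≠ .T ∨ t < 2 ∨ True) →
      simL q l j t = some t' → (4 ≤ q → j + num .T l ≤ q) →
      (∀ i' j', aL sg stop s rest i' j' t') → aL sg stop s (l ++ rest) i j t := by
  intro l
  induction l with
  | nil =>
    intro i j t t' _ h _ hr
    simp only [simL, Option.some.injEq] at h
    subst h
    exact hr i j
  | cons o l ih =>
    intro i j t t' hq h hj hr
    have hq' : ∀ t, (q < 4 ∨ 4 ≤ q ∧ ∀ o ∈ l, o.kind ≠ .T ∨ t < 2 ∨ True) := by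
      intro t
      by_cases h : q < 4
      · exact Or.inl h
      · exact Or.inr ⟨by omega, fun _ _ => Or.inr (Or.inr trivial)⟩
    have hj' : 4 ≤ q → (if o.kind = .T then j + 1 else j) + num .T l ≤ q := by
      intro h4
      have := hj h4
      unfold num at this ⊢
      rw [List.countP_cons] at this
      split_ifs with hT
      · simp only [hT, decide_true, if_true] at this
        omega
      · omega
    rw [List.cons_append]
    unfold simL at h
    unfold aL
    dsimp only at h ⊢
    generalize hj2 : (if o.kind = .T then j + 1 else j) = j2 at h hj' ⊢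
    generalize (if o.kind = .Y then i + 1 else i) = i2
    by_cases h1 : o.trk ≤ t ∧ t < o.trk + o.kind.n
    · rw [if_pos h1] at h ⊢
      by_cases h2 : o.kind = .U ∧ t = o.trk ∧ 2 ≤ t
      · rw [if_pos h2] at h
        obtain ⟨h3, h4, h5⟩ := h2
        have e : t - o.trk = 0 := by omega
        rw [h3, e] at *
        exact ⟨Or.inl h5, ih _ _ _ _ (hq' _) h hj' hr⟩
      · rw [if_neg h2] at h
        by_cases h2 : o.kind = .M
        · rw [if_pos h2] at h
          rw [h2] at *
          exact ih _ _ _ _ (hq' _) h hj' hr
        · rw [if_neg h2] at h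
          by_cases h2 : o.kind = .H ∧ t = o.trk + 2
          · rw [if_pos h2] at h
            obtain ⟨h3, h4⟩ := h2
            have e : t - o.trk = 2 := by omega
            rw [h3, e] at *
            exact ih _ _ _ _ (hq' _) h hj' hr
          · rw [if_neg h2] at h
            by_cases h2 : o.kind = .H ∧ t = o.trk + 1
            · rw [if_pos h2] at h
              obtain ⟨h3, h4⟩ := h2
              have e : t - o.trk = 1 := by omega
              rw [h3, e] at *
              exact ih _ _ _ _ (hq' _) h hj' hr
            · rw [if_neg h2] at h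
              by_cases h2 : o.kind = .T ∧ t = o.trk + 1 ∧ j = q
              · rw [if_pos h2] at h
                obtain ⟨h3, h4, h5⟩ := h2
                have e : t - o.trk = 1 := by omega
                have hq4 : q < 4 := by
                  by_contra hcon
                  have := hj' (by omega)
                  rw [if_pos h3] at hj2
                  omega
                rw [h3, e] at *
                exact ⟨by rw [h5]; exact hx hq4, ih _ _ _ _ (hq' _) h hj' hr⟩
              · rw [if_neg h2] at h
                exact absurd h (by simp)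
    · rw [if_neg h1] at h ⊢
      by_cases h2 : 2 ≤ t ∧ t ≤ 21 ∧ o.kind ≠ .G ∧ o.kind ≠ .first
      · rw [if_pos h2] at h
        obtain ⟨h3, h4, h5, h6⟩ := h2
        exact ⟨⟨h3, by omega, Or.inr h4, h5, h6⟩, ih _ _ _ _ (hq' _) h hj' hr⟩
      · rw [if_neg h2] at h
        exact absurd h (by simp)

private def preB : List Op := ⟨.blank, 0, 2, 4, false⟩ :: ⟨.blank, 0, 2, 2, false⟩ :: xPart

private theorem corB_eq : corB m = preB ++ endB m := rfl

private theorem chk_xW : ∀ q : Fin 4, simW q.1 preB 0 (20 - 4 * q.1) false = some (2, true) := by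
  decide +kernel

private theorem chk_qW : ∀ q : Fin 4, simW q.1 preB 0 18 false = some (2, true) := by
  decide +kernel

private theorem chk_xL : ∀ q : Fin 4, simL q.1 preB 0 (20 - 4 * q.1) = some 4 := by
  decide +kernel

private theorem chk_fL : simL 4 preB 0 4 = some 4 := by
  decide +kernel

private theorem chk_num : 0 + num .T preB ≤ 4 := by
  decide +kernel

theorem corB_xW {q : ℕ} (hq : q < 4) (ha : s.a = false) (hx : s.x = stop q) (i : ℕ) :
    aW (lsg m) stop s (corB m) i 0 (20 - 4 * q) false s.al := by
  rw [corB_eq]
  exact simW_sound hx (by unfold lsg; omega) _ _ _ _ _ _ _ _ _ (chk_xW ⟨q, hq⟩)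
    (fun i' j' => endB_W ha i' j')

theorem corB_qW {q : ℕ} (hq : q < 4) (ha : s.a = false) (hx : s.x = stop q) (i : ℕ) :
    aW (lsg m) stop s (corB m) i 0 18 false s.al := by
  rw [corB_eq]
  exact simW_sound hx (by unfold lsg; omega) _ _ _ _ _ _ _ _ _ (chk_qW ⟨q, hq⟩)
    (fun i' j' => endB_W ha i' j')

theorem corB_xL {q : ℕ} (hq : q < 4) (hx : s.x ≠ stop q) (i : ℕ) :
    aL (lsg m) stop s (corB m) i 0 (20 - 4 * q) := by
  rw [corB_eq]
  exact simL_sound (fun _ => hx) (by unfold lsg; omega) _ _ _ _ _ _ (Or.inl hq) (chk_xL ⟨q, hq⟩)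
    (fun h => absurd h (by omega)) (fun i' j' => endB_L i' j')

theorem corB_fL (i : ℕ) : aL (lsg m) stop s (corB m) i 0 4 := by
  rw [corB_eq]
  exact simL_sound (fun h => absurd h (by omega)) (by unfold lsg; omega) _ _ _ _ _ _
    (Or.inr ⟨le_rfl, fun _ _ => Or.inr (Or.inr trivial)⟩) chk_fL
    (fun _ => chk_num) (fun i' j' => endB_L i' j')

end Pool.Agent.MC95
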