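import Pool.Agent.MC95.CircOk
import Pool.Agent.MC95.PDefs

/-!
# The layout of the circuit

Tracks: the root `w` (`w < 8`) is on track `23 + 4 * m + 2 * w`; the literal `y k = true` is tested on
track `22 + 4 * k`, the literal `y k = false` on track `24 + 4 * k`; the test of stop `j` is on
track `20 - 4 * j`; track `18` leads to the test of the stop chosen by White, track `4` to the lower
input of the gate, and track `2` (after the king of the corridor has been captured) to the upper one.
-/

namespace Pool.Agent.MC95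

/-- A tile outside of the corridor. -/
def tl (r : ℕ) (k : Kind) (t : ℕ) : Op := ⟨k, t, r, 0, false⟩

/-- A blank tile. -/
def bl (r : ℕ) : Op := ⟨.blank, 0, r, 0, false⟩

/-- From the odd track `τ` down to the even track `t`, padded with blank tiles. -/
def send (S τ t : ℕ) : List Op :=
  (List.range S).flatMap fun i => (List.range S).map fun u =>
    if u + 2 * i + 2 = τ ∧ t < u then tl 2 .H u
    else if u + 2 * i + 1 = τ ∧ u = t then tl 2 .M u
    else bl 2

/-- From track `a` up to track `a + n`. -/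
def lad (r a n : ℕ) : List Op := (List.range n).map fun i => tl r .U (a + i)

/-- White chooses one of the tracks `a`, `a + 2`, `a + 4`, `a + 6`. -/
def fan (r a : ℕ) : List Op :=
  [tl r .WF (a + 5), tl r .M (a + 4), tl r .WF (a + 3), tl r .M (a + 2), tl r .WF (a + 1),
    tl r .M a]

/-- Black may challenge a literal; the wave is on track `ρ + 1`. -/
def litB (S ρ k : ℕ) : Option Bool → List Op
  | none => bl 2 :: send S 0 0
  | some true => tl 2 .BF ρ :: send S ρ (22 + 4 * k)
  | some false => tl 2 .BF ρ :: send S ρ (24 + 4 * k)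

/-- White may choose a term; the wave is on track `ρ + 2`. -/
def termB (m S ρ : ℕ) (τ : Bool × (ℕ → Option Bool)) : List Op :=
  if τ.1 then
    tl 2 .WF (ρ + 1) :: ((List.range m).flatMap (fun k => litB S ρ k (τ.2 k)) ++
      (tl 2 .M ρ :: send S ρ 18))
  else
    bl 2 :: ((List.range m).flatMap (fun _ => bl 2 :: send S 0 0) ++ (bl 2 :: send S 0 0))

/-- The root `w`. -/
def rootB (m S w : ℕ) (ts : List (Bool × (ℕ → Option Bool))) : List Op :=
  tl 2 .BF (22 + 4 * m + 2 * w) :: tl 2 .M (21 + 4 * m + 2 * w) ::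
    (send S (21 + 4 * m + 2 * w) (20 - 4 * (w % 4)) ++
      (ts.flatMap (termB m S (21 + 4 * m + 2 * w)) ++ send S (23 + 4 * m + 2 * w) 4))

/-- The tests of the king `k`. -/
def kingB (S k : ℕ) (y0 : Bool) : List Op :=
  tl 2 .U (22 + 4 * k) :: ⟨.Y, 22 + 4 * k, 2, 0, y0⟩ ::
    (send S (23 + 4 * k) 18 ++ (send S (25 + 4 * k) 18 ++
      (tl 2 .M (21 + 4 * k) :: (send S (21 + 4 * k) 4 ++
        (tl 2 .M (23 + 4 * k) :: send S (23 + 4 * k) 4)))))

/-- A tile of the corridor. -/
def tc (k : Kind) (t : ℕ) : Op := ⟨k, t, 2, 1, false⟩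

/-- From track `21` down to track `20 - 2 * n`. -/
def sendC (n : ℕ) : List Op :=
  (List.range n).map (fun i => tc .H (19 - 2 * i)) ++ [tc .M (20 - 2 * n)]

/-- The tiles before the test of stop `j`. -/
def xPre (j : ℕ) : List Op :=
  [tc .WF (17 - 4 * j), tc .U (18 - 4 * j), tc .M (19 - 4 * j)] ++
    (List.range (2 + 4 * j)).map (fun i => tc .U (19 - 4 * j + i)) ++
    if j < 3 then [tc .H (15 - 4 * j), tc .M (14 - 4 * j)] else []

/-- The test of stop `j`. -/
def xBlock (j : ℕ) : List Op :=
  xPre j ++ (⟨.T, 20, 2, 1, j == 1⟩ :: (sendC 8 ++ (tc .U 20 :: sendC 9)))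

/-- The tiles of the corridor. -/
def xPart : List Op := xBlock 0 ++ (xBlock 1 ++ (xBlock 2 ++ (xBlock 3 ++ [tc .M 4])))

/-- The part after N1. -/
def finB (sg : ℕ) : List Op :=
  tl 0 .U 2 :: tl 0 .H 2 ::
    (((List.range (sg - 3)).flatMap fun i => [tl 0 .U (3 + i), tl 0 .U (2 + i)]) ++
      [tl 0 .UT sg, tl 0 .U (sg - 1), tl 0 .G sg, bl 0])

/-- The track of the gate. -/
def lsg (m : ℕ) : ℕ := 38 + 4 * m

/-- The part from the right end of the corridor on. -/
def endB (m : ℕ) : List Op :=
  ⟨.blank, 0, 2, 3, false⟩ :: ⟨.blank, 0, 2, 4, false⟩ :: tl 0 .N1 0 :: finB (lsg m)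

/-- The part from the left end of the corridor on. -/
def corB (m : ℕ) : List Op :=
  ⟨.blank, 0, 2, 4, false⟩ :: ⟨.blank, 0, 2, 2, false⟩ :: (xPart ++ endB m)

/-- The part from the kings on. -/
def kingsB (m : ℕ) (y0 : ℕ → Bool) : List Op :=
  (List.range m).flatMap (fun k => kingB (lsg m) k (y0 k)) ++ corB m

/-- The part from the roots on. -/
def rootsB (m : ℕ) (terms : ℕ → List (Bool × (ℕ → Option Bool))) (y0 : ℕ → Bool) : List Op :=
  (List.range 8).flatMap (fun w => rootB m (lsg m) w (terms w)) ++ kingsB m y0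

/-- The part from NA on. -/
def aB (m : ℕ) (terms : ℕ → List (Bool × (ℕ → Option Bool))) (y0 : ℕ → Bool) : List Op :=
  tl 0 .NA 1 :: (lad 2 2 (27 + 4 * m) ++ (fan 2 (23 + 4 * m) ++ rootsB m terms y0))

/-- The circuit. -/
def layout (m : ℕ) (terms : ℕ → List (Bool × (ℕ → Option Bool))) (y0 : ℕ → Bool) : List Op :=
  tl 0 .first 0 :: tl 0 .NB 0 :: (lad 1 1 (36 + 4 * m) ++ (fan 1 (31 + 4 * m) ++ aB m terms y0))

/-- The stops. -/
def lstop (j : ℕ) : ℕ :=
  28 * (((xBlock 0).length * min j 1) + ((xBlock 1).length * (min j 2 - 1)) +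
    ((xBlock 2).length * (min j 3 - 2)) + (xPre (min j 3)).length) + 26

/-- The length of the corridor. -/
def lLc : ℕ := 28 * (xPart.length + 1)

/-- The number of tiles of a kind. -/
def num (k : Kind) (l : List Op) : ℕ := l.countP fun o => o.kind = k

/-- The number of tiles of a kind before column `c`. -/
def cnt (k : Kind) (l : List Op) (c : ℕ) : ℕ := num k (l.take c)

/-- The number of tiles of the roots. -/
def rlen (m : ℕ) (terms : ℕ → List (Bool × (ℕ → Option Bool))) : ℕ :=
  ((List.range 8).flatMap fun w => rootB m (lsg m) w (terms w)).length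

/-- The number of tiles of the tests of the kings. -/
def klen (m : ℕ) : ℕ := ((List.range m).flatMap fun k => kingB (lsg m) k false).length

/-- The column of the left end of the corridor. -/
def lcL (m : ℕ) (terms : ℕ → List (Bool × (ℕ → Option Bool))) : ℕ :=
  79 + 8 * m + rlen m terms + klen m

/-- The circuit. -/
def lcirc (m : ℕ) (terms : ℕ → List (Bool × (ℕ → Option Bool))) (y0 : ℕ → Bool) : Circ where
  g := ⟨layout m terms y0, lsg m⟩
  cB := 1
  cA := 44 + 4 * m
  cL := lcL m terms
  cR := lcL m terms + 136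
  cN := lcL m terms + 138
  cG := lcL m terms + 143 + 2 * (lsg m - 3)

/-- The kings of a state. -/
def kcOf (l : List Op) (s : AS) (tog : Bool) : KC :=
  ⟨some s.al, some s.x, s.a, fun c => s.y (cnt .Y l c), tog⟩

/-- White wins, read off a list of tiles: `i` tiles Y and `j` tiles T have been passed. -/
def aW (sg : ℕ) (stop : ℕ → ℕ) (s : AS) : List Op → ℕ → ℕ → ℕ → Bool → Bool → Prop
  | [], _, _, _, _, _ => False
  | o :: l, i, j, t, xd, kd =>
    let i' := if o.kind = .Y then i + 1 else i
    let j' := if o.kind = .T then j + 1 else j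
    if o.trk ≤ t ∧ t < o.trk + o.kind.n then
      match o.kind, t - o.trk with
      | .U, 0 => (2 ≤ t ∨ s.al = true) ∧ aW sg stop s l i' j' (o.trk + 1) xd kd
      | .M, _ => aW sg stop s l i' j' o.trk xd kd
      | .H, 2 => aW sg stop s l i' j' o.trk xd kd
      | .H, 1 => aW sg stop s l i' j' (o.trk + 1) xd kd
      | .WF, 1 => aW sg stop s l i' j' (o.trk + 1) xd kd ∨ aW sg stop s l i' j' o.trk xd kd
      | .BF, 1 => aW sg stop s l i' j' (o.trk + 1) xd kd ∧ aW sg stop s l i' j' o.trk xd kd
      | .T, 1 => xd = false ∧ s.x = stop j ∧ aW sg stop s l i' j' o.trk true kd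
      | .Y, 1 => s.y i = true ∧ aW sg stop s l i' j' (o.trk + 1) xd kd
      | .Y, 2 => s.y i = false ∧ aW sg stop s l i' j' (o.trk + 3) xd kd
      | .N1, 2 => kd = s.al ∧ aW sg stop s l i' j' 2 xd true
      | .UT, 0 => aW sg stop s l i' j' (o.trk + 1) xd kd
      | .G, 1 => xd = true ∧ kd = true ∧ s.a = false
      | _, _ => False
    else straightOk sg o t ∧ aW sg stop s l i' j' t xd kd

/-- White does not win, read off a list of tiles. -/
def aL (sg : ℕ) (stop : ℕ → ℕ) (s : AS) : List Op → ℕ → ℕ → ℕ → Prop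
  | [], _, _, _ => False
  | o :: l, i, j, t =>
    let i' := if o.kind = .Y then i + 1 else i
    let j' := if o.kind = .T then j + 1 else j
    if o.trk ≤ t ∧ t < o.trk + o.kind.n then
      match o.kind, t - o.trk with
      | .U, 0 => (2 ≤ t ∨ s.al = true) ∧ aL sg stop s l i' j' (o.trk + 1)
      | .M, _ => aL sg stop s l i' j' o.trk
      | .H, 2 => aL sg stop s l i' j' o.trk
      | .H, 1 => aL sg stop s l i' j' (o.trk + 1)
      | .WF, 1 => aL sg stop s l i' j' (o.trk + 1) ∧ aL sg stop s l i' j' o.trk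
      | .BF, 1 => aL sg stop s l i' j' (o.trk + 1) ∨ aL sg stop s l i' j' o.trk
      | .T, 1 => s.x ≠ stop j ∧ aL sg stop s l i' j' (o.trk + 1)
      | .Y, 1 => s.y i = false ∧ aL sg stop s l i' j' o.trk
      | .Y, 2 => s.y i = true ∧ aL sg stop s l i' j' (o.trk + 2)
      | .UT, 0 => aL sg stop s l i' j' (o.trk + 1)
      | .G, 0 => True
      | _, _ => False
    else straightOk sg o t ∧ aL sg stop s l i' j' t

end Pool.Agent.MC95
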