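import Pool.Agent.MC95.LB

/-!
# Windows of a board
-/

namespace Pool.Agent.MC95

/-- A window of the `N × N` board: its local square `(0, 0)` is the square `(X, Y)` of the board;
its zone consists of the rows `zl - 6, ..., zl + zn - 7` and the columns `-2, ..., 26`; the window
is larger by two squares on each side. It does not contain squares of the first or the last row of
the board. -/
structure Frame where
  N : ℕ
  X : ℤ
  Y : ℤ
  zl : ℕ
  zn : ℕ
  hzl : 2 ≤ zl
  hzn : 0 < zn
  hX : 4 ≤ X
  hX' : X + 28 < N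
  hY : 9 ≤ Y + zl
  hY' : Y + zl + zn - 3 ≤ N
  hp : 2 ∣ X + Y

/-- The zone, in local coordinates. -/
def Frame.InZone (f : Frame) (s : Square) : Prop :=
  -2 ≤ s.1 - f.X ∧ s.1 - f.X ≤ 26 ∧ (f.zl : ℤ) ≤ s.2 - f.Y + 6 ∧ s.2 - f.Y + 6 < f.zl + f.zn

/-- The window, in local coordinates. -/
def Frame.InWin (f : Frame) (s : Square) : Prop :=
  -4 ≤ s.1 - f.X ∧ s.1 - f.X ≤ 28 ∧ (f.zl : ℤ) - 2 ≤ s.2 - f.Y + 6 ∧
    s.2 - f.Y + 6 < f.zl + f.zn + 2

/-- The dark squares of the window. -/
def Frame.F (f : Frame) : ℕ := full (f.zl - 2) (f.zn + 4)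

/-- The dark squares of the zone. -/
def Frame.Z (f : Frame) : ℕ := zone f.zl f.zn

/-- The board `b` is described by the local board `L` in the window, and all jumps that are
possible touch the zone. -/
structure Loc (f : Frame) (L : LB) (b : Board) : Prop where
  wf : L.wf f.F = true
  agree : ∀ s, f.InWin s → b s = L.get (s.1 - f.X) (s.2 - f.Y)
  jumps : ∀ p s d, CanJump f.N b p s d →
    f.InZone s ∨ f.InZone (s + d) ∨ f.InZone (s + d + d)

/-- Equality outside the zone. -/
def Frame.EqOff (f : Frame) (b b' : Board) : Prop := ∀ s, ¬ f.InZone s → b' s = b s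

end Pool.Agent.MC95
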