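import Pool.Agent.MC95.PRel

/-!
# Terms at a correct configuration

PLAN. Everything follows from `NG.Cfg` by arithmetic. Write `t' = t`, `t' = (t + 1) % 3` or
`t' = (t + 2) % 3` (three cases for the copy of a literal relative to the copy `t` of the
configuration). In copy `t` cell `i` holds exactly the value `x i` if `k ≤ i + G`, else nothing; in
copy `t + 1` cell `i` holds exactly the value `x' i` if `i < k`, else nothing; copy `t + 2` is empty.
A cell that holds no value has all `y = false`; a cell that holds its value has `y = true` there.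
-/

namespace Pool.Agent.MC95

variable {g : NG} {t k : ℕ} {x x' : ℕ → ℕ} {y : ℕ → Bool}

/-- Decoding of the number of a king. -/
theorem kg_decode {g : NG} {t i v : ℕ} (hi : i < g.G) (hv : v < g.V) :
    g.kg t i v / g.V / g.G = t ∧ g.kg t i v / g.V % g.G = i ∧ g.kg t i v % g.V = v := by
  have h1 : g.kg t i v / g.V = t * g.G + i := by
    unfold NG.kg
    rw [Nat.add_comm, Nat.add_mul_div_right _ _ (by omega : 0 < g.V), Nat.div_eq_of_lt hv,
      Nat.zero_add]
  refine ⟨?_, ?_, ?_⟩
  · rw [h1, Nat.add_comm, Nat.add_mul_div_right _ _ (by omega : 0 < g.G), Nat.div_eq_of_lt hi,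
      Nat.zero_add]
  · rw [h1, Nat.add_comm, Nat.add_mul_mod_self_right, Nat.mod_eq_of_lt hi]
  · unfold NG.kg
    rw [Nat.add_comm, Nat.add_mul_mod_self_right, Nat.mod_eq_of_lt hv]

theorem kg_lt {g : NG} {t i v : ℕ} (ht : t < 3) (hi : i < g.G) (hv : v < g.V) :
    g.kg t i v < 3 * g.G * g.V := by
  have h1 : t * g.G + i + 1 ≤ 3 * g.G := by
    have h2 : (t + 1) * g.G ≤ 3 * g.G := Nat.mul_le_mul_right _ ht
    have h3 : (t + 1) * g.G = t * g.G + g.G := by ring
    omega
  have h4 : (t * g.G + i + 1) * g.V ≤ 3 * g.G * g.V := Nat.mul_le_mul_right _ h1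
  have h5 : (t * g.G + i + 1) * g.V = (t * g.G + i) * g.V + g.V := by ring
  unfold NG.kg
  omega

/-- Every number below `3 * G * V` is the number of a king. -/
theorem exists_kg {g : NG} (hV : 0 < g.V) (hG : 0 < g.G) {n : ℕ} (hn : n < 3 * g.G * g.V) :
    ∃ t i v, t < 3 ∧ i < g.G ∧ v < g.V ∧ n = g.kg t i v := by
  refine ⟨n / g.V / g.G, n / g.V % g.G, n % g.V, ?_, Nat.mod_lt _ hG, Nat.mod_lt _ hV, ?_⟩
  · refine Nat.div_lt_of_lt_mul (Nat.div_lt_of_lt_mul ?_)
    calc n < 3 * g.G * g.V := hn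
      _ = g.V * (g.G * 3) := by ring
  · unfold NG.kg
    have h1 := Nat.div_add_mod (n / g.V) g.G
    have h2 := Nat.div_add_mod n g.V
    rw [Nat.mul_comm (n / g.V / g.G) g.G, h1, Nat.mul_comm, h2]

private lemma cfg_true (hc : g.Cfg t k x x' y) {t' i v : ℕ} (ht' : t' < 3) (hi : i < g.G)
    (hv : v < g.V) (h1 : y (g.kg t' i v) = true) :
    (t' = t ∧ v = x i ∧ k ≤ i + g.G) ∨ (t' ≠ t ∧ t' = (t + 1) % 3 ∧ v = x' i ∧ i < k) := by
  rw [hc t' ht' i hi v hv] at h1
  split_ifs at h1 with h2 h3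
  · rw [Bool.and_eq_true, decide_eq_true_eq, decide_eq_true_eq] at h1
    exact Or.inl ⟨h2, h1.1, h1.2⟩
  · rw [Bool.and_eq_true, decide_eq_true_eq, decide_eq_true_eq] at h1
    exact Or.inr ⟨h2, h3, h1.1, h1.2⟩

private lemma cfg_x (hc : g.Cfg t k x x' y) (ht : t < 3) {i : ℕ} (hi : i < g.G)
    (hv : x i < g.V) (hk : k ≤ i + g.G) : y (g.kg t i (x i)) = true := by
  rw [hc t ht i hi _ hv, if_pos rfl]
  simp [hk]

private lemma cfg_x' (hc : g.Cfg t k x x' y) (ht : t < 3) {i : ℕ} (hi : i < g.G)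
    (hv : x' i < g.V) (hk : i < k) : y (g.kg ((t + 1) % 3) i (x' i)) = true := by
  rw [hc _ (Nat.mod_lt _ (by norm_num)) i hi _ hv, if_neg (by omega), if_pos rfl]
  simp [hk]

theorem cfg_D (h : g.Ok) (ht : t < 3) (hk : k < 2 * g.G) (hx : g.Dm x)
    (hx' : ∀ i < g.G, i < k → g.dom i (x' i) = true) (hc : g.Cfg t k x x' y) {t' i v u : ℕ}
    (ht' : t' < 3) (hi : i < g.G) (hv : v < g.V) (hu : u < g.V)
    (h1 : y (g.kg t' i v) = true) (h2 : y (g.kg t' i u) = true) :
    v = u ∧ g.dom i v = true := by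
  rcases cfg_true hc ht' hi hv h1 with ⟨e1, e2, e3⟩ | ⟨e1, e2, e3, e4⟩
  · rcases cfg_true hc ht' hi hu h2 with ⟨f1, f2, f3⟩ | ⟨f1, f2, f3, f4⟩
    · exact ⟨e2.trans f2.symm, by rw [e2]; exact hx i hi⟩
    · exact absurd e1 f1
  · rcases cfg_true hc ht' hi hu h2 with ⟨f1, f2, f3⟩ | ⟨f1, f2, f3, f4⟩
    · exact absurd f1 e1
    · exact ⟨e3.trans f3.symm, by rw [e3]; exact hx' i hi e4⟩

theorem cfg_N (h : g.Ok) (ht : t < 3) (hk : k < 2 * g.G) (hx : g.Dm x)
    (hc : g.Cfg t k x x' y) : ∃ t' < 3, ∃ v < g.V, y (g.kg t' (g.G - 1) v) = true := by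
  have hG := h.hG'
  have hi : g.G - 1 < g.G := by omega
  have hv := h.dom_lt _ _ (hx (g.G - 1) hi)
  exact ⟨t, ht, x (g.G - 1), hv, cfg_x hc ht hi hv (by omega)⟩

/-- A term `A` is only satisfied at its own step. -/
theorem cfg_A (h : g.Ok) (ht : t < 3) (hk : k < 2 * g.G) (hx : g.Dm x)
    (hx' : ∀ i < g.G, i < k → g.dom i (x' i) = true) (hc : g.Cfg t k x x' y) {t' k' v u : ℕ}
    (ht' : t' < 3) (hk' : k' < 2 * g.G) (hv : v < g.V) (hu : u < g.V)
    (hl : ∀ t'' < 3, ∀ i < g.G, ∀ v' < g.V, ∀ p, g.litA t' k' v u t'' i v' = some p →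
      y (g.kg t'' i v') = p) :
    t' = t ∧ k' = k ∧ (k = 1 → v = x' 0) ∧ (k = 11 → v = x' 10) := by
  have hG := h.hG'
  have hm1 : (t' + 1) % 3 < 3 := Nat.mod_lt _ (by norm_num)
  have hm2 : (t' + 2) % 3 < 3 := Nat.mod_lt _ (by norm_num)
  have hxv : ∀ i < g.G, x i < g.V := fun i hi => h.dom_lt _ _ (hx i hi)
  have hxv' : ∀ i < g.G, i < k → x' i < g.V := fun i hi hik => h.dom_lt _ _ (hx' i hi hik)
  rcases Nat.eq_zero_or_pos k' with h0 | h0
  · subst h0
    have a1 : y (g.kg t' (g.G - 1) v) = true := by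
      refine hl t' ht' (g.G - 1) (by omega) v hv true ?_
      unfold NG.litA
      rw [if_pos rfl, if_pos ⟨rfl, by omega, rfl⟩]
    have a2 : ∀ v' < g.V, y (g.kg ((t' + 1) % 3) 0 v') = false := by
      intro v' hv'
      refine hl _ hm1 0 (by omega) v' hv' false ?_
      unfold NG.litA
      rw [if_pos rfl, if_neg (by omega), if_pos ⟨rfl, rfl⟩]
    have a3 : ∀ v' < g.V, y (g.kg ((t' + 2) % 3) (g.G - 1) v') = false := by
      intro v' hv'
      refine hl _ hm2 (g.G - 1) (by omega) v' hv' false ?_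
      unfold NG.litA
      rw [if_pos rfl, if_neg (by omega), if_neg (by omega), if_pos ⟨rfl, by omega⟩]
    rcases cfg_true hc ht' (by omega) hv a1 with ⟨e1, e2, e3⟩ | ⟨e1, e2, e3, e4⟩
    · subst e1
      have hk0 : k = 0 := by
        by_contra hk0
        have h5 := hxv' 0 (by omega) (by omega)
        have h6 := cfg_x' hc ht' (i := 0) (by omega) h5 (by omega)
        rw [a2 _ h5] at h6
        exact absurd h6 (by decide)
      exact ⟨rfl, hk0.symm, fun h7 => by omega, fun h7 => by omega⟩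
    · exfalso
      have h5 := hxv (g.G - 1) (by omega)
      have h6 := cfg_x hc ht (i := g.G - 1) (by omega) h5 (by omega)
      have h7 : (t' + 2) % 3 = t := by omega
      have h8 := a3 _ h5
      rw [h7, h6] at h8
      exact absurd h8 (by decide)
  · rcases Nat.lt_trichotomy k' g.G with h1 | h1 | h1
    · have a1 : y (g.kg ((t' + 1) % 3) (k' - 1) v) = true := by
        refine hl _ hm1 (k' - 1) (by omega) v hv true ?_
        unfold NG.litA
        rw [if_neg (by omega), if_pos h1, if_pos ⟨rfl, by omega, rfl⟩]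
      have a2 : ∀ v' < g.V, y (g.kg ((t' + 1) % 3) k' v') = false := by
        intro v' hv'
        refine hl _ hm1 k' h1 v' hv' false ?_
        unfold NG.litA
        rw [if_neg (by omega), if_pos h1, if_neg (by omega), if_pos ⟨rfl, rfl⟩]
      rcases cfg_true hc hm1 (by omega) hv a1 with ⟨e1, e2, e3⟩ | ⟨e1, e2, e3, e4⟩
      · exfalso
        have h5 := hxv k' h1
        have h6 := cfg_x hc ht (i := k') h1 h5 (by omega)
        have h8 := a2 _ h5
        rw [e1, h6] at h8
        exact absurd h8 (by decide)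
      · have htt : t' = t := by omega
        subst htt
        have hkk : k' = k := by
          by_contra hne
          have h5 := hxv' k' h1 (by omega)
          have h6 := cfg_x' hc ht (i := k') h1 h5 (by omega)
          have h8 := a2 _ h5
          rw [h6] at h8
          exact absurd h8 (by decide)
        refine ⟨rfl, hkk, fun h7 => ?_, fun h7 => ?_⟩
        · rw [e3, hkk, h7]
        · rw [e3, hkk, h7]
    · have a1 : y (g.kg ((t' + 1) % 3) (g.G - 1) v) = true := by
        refine hl _ hm1 (g.G - 1) (by omega) v hv true ?_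
        unfold NG.litA
        rw [if_neg (by omega), if_neg (by omega), if_pos h1, if_pos ⟨rfl, by omega, rfl⟩]
      have a2 : y (g.kg t' 0 u) = true := by
        refine hl _ ht' 0 (by omega) u hu true ?_
        unfold NG.litA
        rw [if_neg (by omega), if_neg (by omega), if_pos h1, if_neg (by omega),
          if_pos ⟨rfl, rfl, rfl⟩]
      rcases cfg_true hc hm1 (by omega) hv a1 with ⟨e1, e2, e3⟩ | ⟨e1, e2, e3, e4⟩ <;>
      rcases cfg_true hc ht' (by omega) hu a2 with ⟨f1, f2, f3⟩ | ⟨f1, f2, f3, f4⟩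
      · omega
      · omega
      · exact ⟨f1, by omega, fun h7 => by omega, fun h7 => by omega⟩
      · omega
    · have a1 : y (g.kg t' (k' - g.G) v) = true := by
        refine hl _ ht' (k' - g.G) (by omega) v hv true ?_
        unfold NG.litA
        rw [if_neg (by omega), if_neg (by omega), if_neg (by omega),
          if_pos ⟨rfl, by omega, rfl⟩]
      have a2 : ∀ v' < g.V, y (g.kg t' (k' - g.G - 1) v') = false := by
        intro v' hv'
        refine hl _ ht' (k' - g.G - 1) (by omega) v' hv' false ?_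
        unfold NG.litA
        rw [if_neg (by omega), if_neg (by omega), if_neg (by omega), if_neg (by omega),
          if_pos ⟨rfl, by omega⟩]
      rcases cfg_true hc ht' (by omega) hv a1 with ⟨e1, e2, e3⟩ | ⟨e1, e2, e3, e4⟩
      · subst e1
        have hkk : k' = k := by
          by_contra hne
          have h5 := hxv (k' - g.G - 1) (by omega)
          have h6 := cfg_x hc ht' (i := k' - g.G - 1) (by omega) h5 (by omega)
          have h8 := a2 _ h5
          rw [h6] at h8
          exact absurd h8 (by decide)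
        exact ⟨rfl, hkk, fun h7 => by omega, fun h7 => by omega⟩
      · exfalso
        have h5 := hxv' (k' - g.G - 1) (by omega) (by omega)
        have h6 := cfg_x' hc ht (i := k' - g.G - 1) (by omega) h5 (by omega)
        have h8 := a2 _ h5
        rw [e2, h6] at h8
        exact absurd h8 (by decide)

/-- A term `C` is not satisfied. -/
theorem cfg_C (h : g.Ok) (ht : t < 3) (hk : k < 2 * g.G) (hx : g.Dm x) (hx' : g.Dm x')
    (hT : g.TC x x') (hc : g.Cfg t k x x' y) {t' q : ℕ}
    (ht' : t' < 3) (hq : q < g.nQ) (hv : g.vq q = true)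
    (hl : ∀ t'' < 3, ∀ i < g.G, ∀ v' < g.V, ∀ p, g.litC t' q t'' i v' = some p →
      y (g.kg t'' i v') = p) : False := by
  have hG := h.hG'
  have hV := h.hV
  have hm1 : (t' + 1) % 3 < 3 := Nat.mod_lt _ (by norm_num)
  have hxv : ∀ i < g.G, x i < g.V := fun i hi => h.dom_lt _ _ (hx i hi)
  have hxv' : ∀ i < g.G, x' i < g.V := fun i hi => h.dom_lt _ _ (hx' i hi)
  have a1 : y (g.kg t' 1 0) = true := by
    refine hl _ ht' 1 (by omega) 0 (by omega) true ?_
    unfold NG.litC
    rw [if_neg (by omega), if_pos rfl, if_pos ⟨rfl, rfl⟩]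
  have a2 : y (g.kg ((t' + 1) % 3) (g.G - 1) 0) = true := by
    refine hl _ hm1 (g.G - 1) (by omega) 0 (by omega) true ?_
    unfold NG.litC
    rw [if_pos rfl, if_pos ⟨by omega, rfl⟩]
  have htk : t' = t ∧ g.G ≤ k ∧ k ≤ 1 + g.G := by
    rcases cfg_true hc ht' (by omega) (by omega) a1 with ⟨e1, e2, e3⟩ | ⟨e1, e2, e3, e4⟩ <;>
    rcases cfg_true hc hm1 (by omega) (by omega) a2 with ⟨f1, f2, f3⟩ | ⟨f1, f2, f3, f4⟩
    · omega
    · exact ⟨e1, by omega, e3⟩
    · omega
    · omega
  obtain ⟨htt, hk1, hk2⟩ := htk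
  subst htt
  have a3 : y (g.kg ((t' + 1) % 3) 10 (if g.opt q = 2 then 1 else 0)) = true := by
    refine hl _ hm1 10 (by omega) _ (by split_ifs <;> omega) true ?_
    unfold NG.litC
    rw [if_pos rfl, if_neg (by omega), if_neg (by omega), if_pos rfl, if_pos rfl]
  have hlt : (if g.opt q = 2 then 1 else 0) < g.V := by split_ifs <;> omega
  have b3 : (if g.opt q = 2 then 1 else 0) = x' 10 := by
    rcases cfg_true hc hm1 (by omega) hlt a3 with ⟨e1, e2, e3⟩ | ⟨e1, e2, e3, e4⟩
    · omega
    · exact e3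
  have hopt : g.opt q = optc x' := by
    unfold optc
    by_cases ho : g.opt q = 2
    · rw [if_pos ho] at b3
      rw [if_pos b3.symm, ho]
    · rw [if_neg ho] at b3
      rw [if_neg (by omega)]
      have hoV : g.opt q < g.V := by
        have := h.opt_lt q
        omega
      have a4 : y (g.kg ((t' + 1) % 3) 0 (g.opt q)) = true := by
        refine hl _ hm1 0 (by omega) _ hoV true ?_
        unfold NG.litC
        rw [if_pos rfl, if_neg (by omega), if_pos rfl, if_pos ⟨ho, rfl⟩]
      rcases cfg_true hc hm1 (by omega) hoV a4 with ⟨e1, e2, e3⟩ | ⟨e1, e2, e3, e4⟩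
      · omega
      · exact e3
  rcases hT q hq hv hopt with ⟨i, hi, hcur⟩ | ⟨i, hi, hnxt⟩
  · obtain ⟨h11, h12⟩ := h.cur_range q i _ hcur
    have h5 := hxv i hi
    have h6 := cfg_x hc ht (i := i) hi h5 (by omega)
    have h8 : y (g.kg t' i (x i)) = false := by
      refine hl _ ht' i hi _ h5 false ?_
      unfold NG.litC
      rw [if_neg (by omega), if_pos rfl, if_neg (by omega), if_pos hcur]
    rw [h6] at h8
    exact absurd h8 (by decide)
  · obtain ⟨h11, h12⟩ := h.nxt_range q i _ hnxt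
    have h5 := hxv' i hi
    have h6 := cfg_x' hc ht (i := i) hi h5 (by omega)
    have h8 : y (g.kg ((t' + 1) % 3) i (x' i)) = false := by
      refine hl _ hm1 i hi _ h5 false ?_
      unfold NG.litC
      rw [if_pos rfl, if_neg (by omega), if_neg (by omega), if_neg (by omega), if_pos hnxt]
    rw [h6] at h8
    exact absurd h8 (by decide)

end Pool.Agent.MC95
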