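import Pool.Agent.MC95.PCfg
import Pool.Agent.MC95.PTab

/-!
# Deviations of Black

PLAN. `dev`: let `y'` differ from `y` in at most one king `kg t0 i0 v0` (`exists_kg`). Unless `y'` is
the advance, some term of root `w'` is satisfied by `y'`; note `bad k w'`, and `bad (k - 1) w'` if
`1 ≤ k`, and `bad (2 * G - 1) w'` if `k = 0`, all follow from `lam (k + 1) w'`.
Case `k = 0`. The term `A t 0 (x (G-1)) 0` is satisfied unless the changed king belongs to cell `G-1`
of copy `t`, cell `0` of copy `t+1` or cell `G-1` of copy `t+2`. Cell `G-1` of copy `t`: if the value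
`x (G-1)` was removed, the term `N` is satisfied; otherwise a term `D` with two values. Cell `G-1` of
copy `t+2`, value `v0` written: `A (t+2) (2G-1) v0 0`. Cell `0` of copy `t+1`, value `v0` written: if
`dom 0 v0 = false` the term `D` with `u = v`; if `v0` is the wrong option, `A t 1 v0 0`; otherwise
this is the advance.
Case `0 < k < G`. `A t k (x' (k-1)) 0` is satisfied unless cell `k-1` or `k` of copy `t+1` changed.
Cell `k-1`: a removed value gives `A t (k-1) _ 0` (with `_ = x' (k-2)`, or `x (G-1)` if `k = 1`), an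
additional one a term `D`. Cell `k`, value `v0` written: `dom k v0 = false` gives `D`, at `k = 10`
the wrong option gives `A t 11 v0 0`, otherwise this is the advance.
Case `k = G`. `A t G (x' (G-1)) (x 0)` unless cell `G-1` of copy `t+1` or cell `0` of copy `t`
changed. Cell `G-1` of copy `t+1`: removed gives `A t (G-1) (x' (G-2)) 0`, additional `D`. Cell `0`
of copy `t`: removed is the advance, additional `D`.
Case `G < k < 2G`. `A t k (x (k-G)) 0` unless cell `k-G` or `k-G-1` of copy `t` changed. Cell `k-G`: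
removed is the advance, additional `D`. Cell `k-G-1`, value `v0` written: `A t (k-1) v0 0` if
`k - 1 > G`, and `A t G (x' (G-1)) v0` if `k = G + 1`.
-/

namespace Pool.Agent.MC95

/-- `y'` differs from `y` in at most one place below `n`. -/
def OneOff (n : ℕ) (y y' : ℕ → Bool) : Prop :=
  (∀ k < n, y' k = y k) ∨ ∃ k0 < n, ∀ k < n, y' k = if k = k0 then !(y k) else y k

variable {g : NG} {Lc : ℕ} {stop : ℕ → ℕ}

/-- Satisfaction of a term without literals for the edges. -/
theorem sat_lit {f : ℕ → ℕ → ℕ → Option Bool} {b : Bool} {y : ℕ → Bool} (hV : 0 < g.V)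
    (hG : 0 < g.G) : (g.ckt Lc stop).Sat (b, g.lit f fun _ => none) y ↔
      b = true ∧ ∀ t < 3, ∀ i < g.G, ∀ v < g.V, ∀ p, f t i v = some p → y (g.kg t i v) = p := by
  unfold Ckt.Sat
  constructor
  · rintro ⟨hb, H⟩
    refine ⟨hb, fun t ht i hi v hv p hp => ?_⟩
    have hlt := kg_lt (g := g) ht hi hv
    obtain ⟨d1, d2, d3⟩ := kg_decode (g := g) (t := t) hi hv
    apply H (g.kg t i v)
    · show g.kg t i v < 3 * g.G * g.V + Lc
      omega
    · show g.lit f (fun _ => none) (g.kg t i v) = some p
      unfold NG.lit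
      rw [if_pos hlt, d1, d2, d3]
      exact hp
  · rintro ⟨hb, H⟩
    refine ⟨hb, fun k hk p hp => ?_⟩
    have hp' : g.lit f (fun _ => none) k = some p := hp
    unfold NG.lit at hp'
    by_cases hk' : k < 3 * g.G * g.V
    · rw [if_pos hk'] at hp'
      obtain ⟨t, i, v, ht, hi, hv, rfl⟩ := exists_kg hV hG hk'
      obtain ⟨d1, d2, d3⟩ := kg_decode (g := g) (t := t) hi hv
      rw [d1, d2, d3] at hp'
      exact H t ht i hi v hv p hp'
    · rw [if_neg hk'] at hp'
      exact absurd hp' (by simp)

section terms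

variable {y : ℕ → Bool} {w : ℕ}

private theorem ok_pos (h : g.Ok) : 0 < g.V ∧ 0 < g.G ∧ 30 ≤ g.G :=
  ⟨by have := h.hV; omega, by have := h.hG'; omega, h.hG'⟩

private theorem sat_D (h : g.Ok) {t i v u : ℕ} (ht : t < 3) (hi : i < g.G) (hv : v < g.V)
    (hu : u < g.V) (h1 : y (g.kg t i v) = true) (h2 : y (g.kg t i u) = true)
    (hd : v ≠ u ∨ g.dom i v = false) :
    ∃ τ ∈ (g.ckt Lc stop).terms w, (g.ckt Lc stop).Sat τ y := by
  obtain ⟨hV, hG, -⟩ := ok_pos h
  refine ⟨(!(v == u) || !g.dom i v,
        g.lit (fun t' i' v' => if t' = t ∧ i' = i ∧ (v' = v ∨ v' = u) then some true else none)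
          fun _ => none), ?_, ?_⟩
  · show _ ∈ g.terms Lc stop w
    unfold NG.terms
    simp only [List.mem_append]
    refine Or.inl (Or.inl (Or.inl (Or.inl ?_)))
    refine List.mem_flatMap.2 ⟨t, List.mem_range.2 ht, List.mem_flatMap.2 ⟨i, List.mem_range.2 hi,
      List.mem_flatMap.2 ⟨v, List.mem_range.2 hv, List.mem_map.2 ⟨u, List.mem_range.2 hu, rfl⟩⟩⟩⟩
  · rw [sat_lit hV hG]
    constructor
    · rcases hd with hd | hd
      · simp [hd]
      · simp [hd]
    · intro t' _ i' _ v' _ p hp
      split_ifs at hp with hc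
      · obtain ⟨rfl, rfl, hc⟩ := hc
        have hp' : p = true := by simpa using hp.symm
        subst hp'
        rcases hc with rfl | rfl
        · exact h1
        · exact h2

private theorem sat_N (h : g.Ok)
    (h1 : ∀ t < 3, ∀ v < g.V, y (g.kg t (g.G - 1) v) = false) :
    ∃ τ ∈ (g.ckt Lc stop).terms w, (g.ckt Lc stop).Sat τ y := by
  obtain ⟨hV, hG, -⟩ := ok_pos h
  refine ⟨(true, g.lit (fun _ i' _ => if i' + 1 = g.G then some false else none) fun _ => none),
    ?_, ?_⟩
  · show _ ∈ g.terms Lc stop w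
    unfold NG.terms
    simp only [List.mem_append]
    exact Or.inl (Or.inl (Or.inl (Or.inr (List.mem_singleton.2 rfl))))
  · rw [sat_lit hV hG]
    refine ⟨rfl, fun t' ht' i' _ v' hv' p hp => ?_⟩
    split_ifs at hp with hc
    have hp' : p = false := by simpa using hp.symm
    subst hp'
    have : i' = g.G - 1 := by omega
    subst this
    exact h1 t' ht' v' hv'

private theorem sat_A (h : g.Ok) {t k v u : ℕ} (ht : t < 3) (hk : k < 2 * g.G) (hv : v < g.V)
    (hu : u < g.V) (hb : badA k v w = true)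
    (hl : ∀ t' < 3, ∀ i < g.G, ∀ v' < g.V, ∀ p, g.litA t k v u t' i v' = some p →
      y (g.kg t' i v') = p) :
    ∃ τ ∈ (g.ckt Lc stop).terms w, (g.ckt Lc stop).Sat τ y := by
  obtain ⟨hV, hG, -⟩ := ok_pos h
  refine ⟨(badA k v w, g.lit (g.litA t k v u) fun _ => none), ?_, ?_⟩
  · show _ ∈ g.terms Lc stop w
    unfold NG.terms
    simp only [List.mem_append]
    refine Or.inl (Or.inl (Or.inr ?_))
    refine List.mem_flatMap.2 ⟨t, List.mem_range.2 ht, List.mem_flatMap.2 ⟨k, List.mem_range.2 hk,
      List.mem_flatMap.2 ⟨v, List.mem_range.2 hv, List.mem_map.2 ⟨u, List.mem_range.2 hu, rfl⟩⟩⟩⟩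
  · rw [sat_lit hV hG]
    exact ⟨hb, hl⟩

private theorem sat_C (h : g.Ok) {t q : ℕ} (ht : t < 3) (hq : q < g.nQ) (hb : g.vq q = true)
    (hl : ∀ t' < 3, ∀ i < g.G, ∀ v' < g.V, ∀ p, g.litC t q t' i v' = some p →
      y (g.kg t' i v') = p) :
    ∃ τ ∈ (g.ckt Lc stop).terms w, (g.ckt Lc stop).Sat τ y := by
  obtain ⟨hV, hG, -⟩ := ok_pos h
  refine ⟨(g.vq q, g.lit (g.litC t q) fun _ => none), ?_, ?_⟩
  · show _ ∈ g.terms Lc stop w
    unfold NG.terms
    simp only [List.mem_append]
    refine Or.inl (Or.inr ?_)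
    exact List.mem_flatMap.2 ⟨t, List.mem_range.2 ht, List.mem_map.2 ⟨q, List.mem_range.2 hq, rfl⟩⟩
  · rw [sat_lit hV hG]
    exact ⟨hb, hl⟩

private theorem sat_A0 (h : g.Ok) {t v : ℕ} (ht : t < 3) (hv : v < g.V)
    (hb : badA 0 v w = true) (h1 : y (g.kg t (g.G - 1) v) = true)
    (h2 : ∀ v' < g.V, y (g.kg ((t + 1) % 3) 0 v') = false)
    (h3 : ∀ v' < g.V, y (g.kg ((t + 2) % 3) (g.G - 1) v') = false) :
    ∃ τ ∈ (g.ckt Lc stop).terms w, (g.ckt Lc stop).Sat τ y := by
  obtain ⟨hV, hG, hG'⟩ := ok_pos h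
  refine sat_A h (t := t) (k := 0) (v := v) (u := 0) ht (by omega) hv hV hb ?_
  intro t' ht' i hi v' hv' p hp
  unfold NG.litA at hp
  rw [if_pos rfl] at hp
  split_ifs at hp with c1 c2 c3
  · obtain ⟨rfl, c, rfl⟩ := c1
    have hp' : p = true := by simpa using hp.symm
    subst hp'
    have : i = g.G - 1 := by omega
    subst this
    exact h1
  · obtain ⟨rfl, rfl⟩ := c2
    have hp' : p = false := by simpa using hp.symm
    subst hp'
    exact h2 v' hv'
  · obtain ⟨rfl, c⟩ := c3
    have hp' : p = false := by simpa using hp.symm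
    subst hp'
    have : i = g.G - 1 := by omega
    subst this
    exact h3 v' hv'

private theorem sat_A1 (h : g.Ok) {t k v : ℕ} (ht : t < 3) (hk0 : 0 < k) (hk : k < g.G)
    (hv : v < g.V) (hb : badA k v w = true) (h1 : y (g.kg ((t + 1) % 3) (k - 1) v) = true)
    (h2 : ∀ v' < g.V, y (g.kg ((t + 1) % 3) k v') = false) :
    ∃ τ ∈ (g.ckt Lc stop).terms w, (g.ckt Lc stop).Sat τ y := by
  obtain ⟨hV, hG, hG'⟩ := ok_pos h
  refine sat_A h (t := t) (k := k) (v := v) (u := 0) ht (by omega) hv hV hb ?_
  intro t' ht' i hi v' hv' p hp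
  unfold NG.litA at hp
  rw [if_neg (by omega), if_pos hk] at hp
  split_ifs at hp with c1 c2
  · obtain ⟨rfl, c, rfl⟩ := c1
    have hp' : p = true := by simpa using hp.symm
    subst hp'
    have : i = k - 1 := by omega
    subst this
    exact h1
  · obtain ⟨rfl, rfl⟩ := c2
    have hp' : p = false := by simpa using hp.symm
    subst hp'
    exact h2 v' hv'

private theorem sat_AG (h : g.Ok) {t v u : ℕ} (ht : t < 3) (hv : v < g.V) (hu : u < g.V)
    (hb : badA g.G v w = true) (h1 : y (g.kg ((t + 1) % 3) (g.G - 1) v) = true)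
    (h2 : y (g.kg t 0 u) = true) :
    ∃ τ ∈ (g.ckt Lc stop).terms w, (g.ckt Lc stop).Sat τ y := by
  obtain ⟨hV, hG, hG'⟩ := ok_pos h
  refine sat_A h (t := t) (k := g.G) (v := v) (u := u) ht (by omega) hv hu hb ?_
  intro t' ht' i hi v' hv' p hp
  unfold NG.litA at hp
  rw [if_neg (by omega), if_neg (by omega), if_pos rfl] at hp
  split_ifs at hp with c1 c2
  · obtain ⟨rfl, c, rfl⟩ := c1
    have hp' : p = true := by simpa using hp.symm
    subst hp'
    have : i = g.G - 1 := by omega
    subst this
    exact h1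
  · obtain ⟨rfl, rfl, rfl⟩ := c2
    have hp' : p = true := by simpa using hp.symm
    subst hp'
    exact h2

private theorem sat_A2 (h : g.Ok) {t k v : ℕ} (ht : t < 3) (hk0 : g.G < k) (hk : k < 2 * g.G)
    (hv : v < g.V) (hb : badA k v w = true) (h1 : y (g.kg t (k - g.G) v) = true)
    (h2 : ∀ v' < g.V, y (g.kg t (k - g.G - 1) v') = false) :
    ∃ τ ∈ (g.ckt Lc stop).terms w, (g.ckt Lc stop).Sat τ y := by
  obtain ⟨hV, hG, hG'⟩ := ok_pos h
  refine sat_A h (t := t) (k := k) (v := v) (u := 0) ht (by omega) hv hV hb ?_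
  intro t' ht' i hi v' hv' p hp
  unfold NG.litA at hp
  rw [if_neg (by omega), if_neg (by omega), if_neg (by omega)] at hp
  split_ifs at hp with c1 c2
  · obtain ⟨rfl, c, rfl⟩ := c1
    have hp' : p = true := by simpa using hp.symm
    subst hp'
    have : i = k - g.G := by omega
    subst this
    exact h1
  · obtain ⟨rfl, c⟩ := c2
    have hp' : p = false := by simpa using hp.symm
    subst hp'
    have : i = k - g.G - 1 := by omega
    subst this
    exact h2 v' hv'

end terms

private theorem bad_self {k v w : ℕ} (hw : lam (k + 1) w = true) : badA k v w = true := by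
  unfold badA bad
  rw [hw]
  rfl

private theorem bad_pred {k v w : ℕ} (hk : 0 < k) (hw : lam (k + 1) w = true) :
    badA (k - 1) v w = true := by
  unfold badA bad
  have e : k - 1 + 2 = k + 1 := by omega
  rw [e, hw]
  simp

private theorem bad_last (h : g.Ok) {v w : ℕ} (hw : lam 1 w = true) :
    badA (2 * g.G - 1) v w = true := by
  obtain ⟨-, -, hG'⟩ := ok_pos h
  unfold badA bad
  have e : 2 * g.G - 1 + 2 = 2 * g.G + 1 := by omega
  have e2 : lam (2 * g.G + 1) w = true := by
    have hm : (2 * g.G + 1) % 10 = 1 := by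
      obtain ⟨c, hc⟩ := h.hG
      omega
    unfold lam at hw ⊢
    rw [hm]
    exact hw
  rw [e, e2]
  simp

/-- Reading of a change. -/
private theorem read (h : g.Ok) {y y' : ℕ → Bool} (hy : OneOff (3 * g.G * g.V) y y') :
    (∀ t < 3, ∀ i < g.G, ∀ v < g.V, y' (g.kg t i v) = y (g.kg t i v)) ∨
    ∃ t0 < 3, ∃ i0 < g.G, ∃ v0 < g.V,
      (y' (g.kg t0 i0 v0) = !(y (g.kg t0 i0 v0))) ∧
      ∀ t < 3, ∀ i < g.G, ∀ v < g.V, (t ≠ t0 ∨ i ≠ i0 ∨ v ≠ v0) →
        y' (g.kg t i v) = y (g.kg t i v) := by
  obtain ⟨hV, hG, hG'⟩ := ok_pos h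
  rcases hy with hy | ⟨k0, hk0, hy⟩
  · exact Or.inl fun t ht i hi v hv => hy _ (kg_lt ht hi hv)
  · obtain ⟨t0, i0, v0, ht0, hi0, hv0, rfl⟩ := exists_kg hV hG hk0
    refine Or.inr ⟨t0, ht0, i0, hi0, v0, hv0, ?_, ?_⟩
    · rw [hy _ hk0, if_pos rfl]
    · intro t ht i hi v hv hne
      rw [hy _ (kg_lt ht hi hv), if_neg]
      intro he
      obtain ⟨a1, a2, a3⟩ := kg_decode (g := g) (t := t) hi hv
      obtain ⟨b1, b2, b3⟩ := kg_decode (g := g) (t := t0) hi0 hv0
      rw [he] at a1 a2 a3
      have e1 : t = t0 := by rw [← a1, b1]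
      have e2 : i = i0 := by rw [← a2, b2]
      have e3 : v = v0 := by rw [← a3, b3]
      rcases hne with hne | hne | hne
      · exact hne e1
      · exact hne e2
      · exact hne e3

/-- Values of a configuration. -/
private theorem cfg_t {t k : ℕ} {x x' : ℕ → ℕ} {y : ℕ → Bool} (ht : t < 3)
    (hc : g.Cfg t k x x' y) {i v : ℕ} (hi : i < g.G) (hv : v < g.V) :
    y (g.kg t i v) = (decide (v = x i) && decide (k ≤ i + g.G)) := by
  rw [hc t ht i hi v hv, if_pos rfl]

private theorem cfg_t1 {t k : ℕ} {x x' : ℕ → ℕ} {y : ℕ → Bool}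
    (hc : g.Cfg t k x x' y) {i v : ℕ} (hi : i < g.G) (hv : v < g.V) :
    y (g.kg ((t + 1) % 3) i v) = (decide (v = x' i) && decide (i < k)) := by
  rw [hc _ (Nat.mod_lt _ (by norm_num)) i hi v hv, if_neg (by omega), if_pos rfl]

private theorem cfg_t2 {t k : ℕ} {x x' : ℕ → ℕ} {y : ℕ → Bool}
    (hc : g.Cfg t k x x' y) {i v : ℕ} (hi : i < g.G) (hv : v < g.V) :
    y (g.kg ((t + 2) % 3) i v) = false := by
  rw [hc _ (Nat.mod_lt _ (by norm_num)) i hi v hv, if_neg (by omega), if_neg (by omega)]

/-- Construction of a configuration. -/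
private theorem mk_cfg {t k : ℕ} {x x' : ℕ → ℕ} {y : ℕ → Bool} (ht : t < 3)
    (h0 : ∀ i < g.G, ∀ v < g.V, y (g.kg t i v) = (decide (v = x i) && decide (k ≤ i + g.G)))
    (h1 : ∀ i < g.G, ∀ v < g.V, y (g.kg ((t + 1) % 3) i v) = (decide (v = x' i) && decide (i < k)))
    (h2 : ∀ i < g.G, ∀ v < g.V, y (g.kg ((t + 2) % 3) i v) = false) : g.Cfg t k x x' y := by
  intro t' ht' i hi v hv
  by_cases e0 : t' = t
  · rw [if_pos e0, e0]; exact h0 i hi v hv
  · rw [if_neg e0]
    by_cases e1 : t' = (t + 1) % 3
    · rw [if_pos e1, e1]; exact h1 i hi v hv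
    · rw [if_neg e1]
      have e2 : t' = (t + 2) % 3 := by omega
      rw [e2]; exact h2 i hi v hv

private theorem adv_write {t k v0 : ℕ} {x x' : ℕ → ℕ} {y y' : ℕ → Bool} (ht : t < 3)
    (hk : k < g.G) (hc : g.Cfg t k x x' y) (h1 : y' (g.kg ((t + 1) % 3) k v0) = true)
    (hs : ∀ t2 < 3, ∀ i2 < g.G, ∀ v2 < g.V, (t2 ≠ (t + 1) % 3 ∨ i2 ≠ k ∨ v2 ≠ v0) →
      y' (g.kg t2 i2 v2) = y (g.kg t2 i2 v2)) :
    g.Cfg t (k + 1) x (Function.update x' k v0) y' := by
  apply mk_cfg ht
  · intro i hi v hv
    rw [hs t ht i hi v hv (Or.inl (by omega)), cfg_t ht hc hi hv]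
    have e1 : k ≤ i + g.G := by omega
    have e2 : k + 1 ≤ i + g.G := by omega
    simp [e1, e2]
  · intro i hi v hv
    by_cases hik : i = k
    · subst hik
      by_cases hvv : v = v0
      · subst hvv
        rw [h1]
        simp
      · rw [hs _ (Nat.mod_lt _ (by norm_num)) i hi v hv (Or.inr (Or.inr hvv)), cfg_t1 hc hi hv]
        simp [hvv]
    · rw [hs _ (Nat.mod_lt _ (by norm_num)) i hi v hv (Or.inr (Or.inl hik)), cfg_t1 hc hi hv,
        Function.update_of_ne hik]
      have e : (i < k + 1) = (i < k) := propext ⟨fun _ => by omega, fun _ => by omega⟩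
      simp only [e]
  · intro i hi v hv
    rw [hs _ (Nat.mod_lt _ (by norm_num)) i hi v hv (Or.inl (by omega)), cfg_t2 hc hi hv]

private theorem adv_remove {t k : ℕ} {x x' : ℕ → ℕ} {y y' : ℕ → Bool} (ht : t < 3)
    (hk : g.G ≤ k) (hc : g.Cfg t k x x' y)
    (h1 : y' (g.kg t (k - g.G) (x (k - g.G))) = false)
    (hs : ∀ t2 < 3, ∀ i2 < g.G, ∀ v2 < g.V, (t2 ≠ t ∨ i2 ≠ k - g.G ∨ v2 ≠ x (k - g.G)) →
      y' (g.kg t2 i2 v2) = y (g.kg t2 i2 v2)) :
    g.Cfg t (k + 1) x x' y' := by
  apply mk_cfg ht
  · intro i hi v hv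
    by_cases hik : i = k - g.G
    · by_cases hvv : v = x (k - g.G)
      · rw [hik, hvv, h1]
        have e : ¬ (k + 1 ≤ k - g.G + g.G) := by omega
        simp [e]
      · rw [hs t ht i hi v hv (Or.inr (Or.inr hvv)), cfg_t ht hc hi hv]
        rw [← hik] at hvv
        simp [hvv]
    · rw [hs t ht i hi v hv (Or.inr (Or.inl hik)), cfg_t ht hc hi hv]
      have e : (k + 1 ≤ i + g.G) = (k ≤ i + g.G) :=
        propext ⟨fun _ => by omega, fun _ => by omega⟩
      simp only [e]
  · intro i hi v hv
    rw [hs _ (Nat.mod_lt _ (by norm_num)) i hi v hv (Or.inl (by omega)), cfg_t1 hc hi hv]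
    have e1 : i < k := by omega
    have e2 : i < k + 1 := by omega
    simp [e1, e2]
  · intro i hi v hv
    rw [hs _ (Nat.mod_lt _ (by norm_num)) i hi v hv (Or.inl (by omega)), cfg_t2 hc hi hv]

private theorem lam_one {w : ℕ} (h : lam 1 w = true) : w = 1 ∨ w = 6 := by
  unfold lam at h
  simpa using h

theorem dev (h : g.Ok) {t k w' : ℕ} {x x' : ℕ → ℕ} {y y' : ℕ → Bool} (ht : t < 3)
    (hk : k < 2 * g.G) (hx : g.Dm x) (hx' : ∀ i < g.G, i < k → g.dom i (x' i) = true)
    (hc : g.Cfg t k x x' y) (hw : lam (k + 1) w' = true) (hy : OneOff (3 * g.G * g.V) y y') :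
    (∃ τ ∈ (g.ckt Lc stop).terms w', (g.ckt Lc stop).Sat τ y') ∨
    (k < g.G ∧ ∃ v, g.dom k v = true ∧ (k = 0 ∨ k = 10 → v = if w' = 6 then 1 else 0) ∧
      g.Cfg t (k + 1) x (Function.update x' k v) y') ∨
    (g.G ≤ k ∧ g.Cfg t (k + 1) x x' y') := by
  obtain ⟨hV, hG, hG'⟩ := ok_pos h
  have hm1 : (t + 1) % 3 < 3 := Nat.mod_lt _ (by norm_num)
  have hm2 : (t + 2) % 3 < 3 := Nat.mod_lt _ (by norm_num)
  have xv : ∀ i < g.G, x i < g.V := fun i hi => h.dom_lt _ _ (hx i hi)
  have xv' : ∀ i < g.G, i < k → x' i < g.V := fun i hi hik => h.dom_lt _ _ (hx' i hi hik)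
  -- at most one change
  have U : ∀ t1 < 3, ∀ i1 < g.G, ∀ v1 < g.V, y' (g.kg t1 i1 v1) ≠ y (g.kg t1 i1 v1) →
      ∀ t2 < 3, ∀ i2 < g.G, ∀ v2 < g.V, (t2 ≠ t1 ∨ i2 ≠ i1 ∨ v2 ≠ v1) →
      y' (g.kg t2 i2 v2) = y (g.kg t2 i2 v2) := by
    intro t1 ht1 i1 hi1 v1 hv1 hne t2 ht2 i2 hi2 v2 hv2 hd
    rcases read h hy with he | ⟨t0, ht0, i0, hi0, v0, hv0, -, hs⟩
    · exact he _ ht2 _ hi2 _ hv2
    · have e : t1 = t0 ∧ i1 = i0 ∧ v1 = v0 := by
        by_contra hcon
        apply hne
        apply hs _ ht1 _ hi1 _ hv1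
        by_cases a : t1 = t0
        · by_cases b : i1 = i0
          · right; right
            intro c
            exact hcon ⟨a, b, c⟩
          · exact Or.inr (Or.inl b)
        · exact Or.inl a
      obtain ⟨rfl, rfl, rfl⟩ := e
      exact hs _ ht2 _ hi2 _ hv2 hd
  -- a value that appears where there was none
  have nf : ∀ {P : ℕ → Prop} {t1 i1 : ℕ}, ¬ (∀ v < g.V, y' (g.kg t1 i1 v) = false) →
      ∃ v < g.V, y' (g.kg t1 i1 v) = true := by
    intro _ t1 i1 hn
    push Not at hn
    obtain ⟨v, hv, hn⟩ := hn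
    exact ⟨v, hv, by simpa using hn⟩
  -- a value outside the domain
  have hD : ∀ t1 < 3, ∀ i1 < g.G, ∀ v1 < g.V, y' (g.kg t1 i1 v1) = true → g.dom i1 v1 = false →
      ∃ τ ∈ (g.ckt Lc stop).terms w', (g.ckt Lc stop).Sat τ y' :=
    fun t1 ht1 i1 hi1 v1 hv1 e1 e2 => sat_D h ht1 hi1 hv1 hv1 e1 e1 (Or.inr e2)
  rcases Nat.lt_or_ge k g.G with hkG | hkG
  · -- writing
    have hwr : ∀ v0 < g.V, y' (g.kg ((t + 1) % 3) k v0) = true →
        (∃ τ ∈ (g.ckt Lc stop).terms w', (g.ckt Lc stop).Sat τ y') ∨
        (k < g.G ∧ ∃ v, g.dom k v = true ∧ (k = 0 ∨ k = 10 → v = if w' = 6 then 1 else 0) ∧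
          g.Cfg t (k + 1) x (Function.update x' k v) y') := by
      intro v0 hv0 e0
      have hne : y' (g.kg ((t + 1) % 3) k v0) ≠ y (g.kg ((t + 1) % 3) k v0) := by
        rw [e0, cfg_t1 hc hkG hv0]
        simp
      have hs := U _ hm1 _ hkG _ hv0 hne
      by_cases hd : g.dom k v0 = true
      swap
      · exact Or.inl (hD _ hm1 _ hkG _ hv0 e0 (by simpa using hd))
      by_cases hopt : k = 0 ∨ k = 10 → v0 = if w' = 6 then 1 else 0
      · exact Or.inr ⟨hkG, v0, hd, hopt, adv_write ht hkG hc e0 hs⟩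
      · -- the wrong option
        left
        rw [Classical.not_imp] at hopt
        obtain ⟨hk0, hv⟩ := hopt
        have hv2 : v0 < 2 := (h.dom_opt k v0 hk0).1 hd
        have hw1 : lam 1 w' = true := by
          have : (k + 1) % 10 = 1 := by omega
          unfold lam at hw ⊢
          rw [this] at hw
          exact hw
        have hb : badA (k + 1) v0 w' = true := by
          have e1 : ((k + 1 == 1) || (k + 1 == 11)) = true := by
            rcases hk0 with rfl | rfl <;> rfl
          have e2 : ((v0 == 1 && w' == 1) || (v0 == 0 && w' == 6)) = true := by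
            rcases lam_one hw1 with rfl | rfl
            · rw [if_neg (by norm_num)] at hv
              have : v0 = 1 := by omega
              subst this
              rfl
            · rw [if_pos rfl] at hv
              have : v0 = 0 := by omega
              subst this
              rfl
          unfold badA
          rw [e1, e2]
          simp
        apply sat_A1 h ht (Nat.succ_pos k) (by rcases hk0 with rfl | rfl <;> omega) hv0 hb
        · exact e0
        · intro v' hv'
          rw [hs _ hm1 (k + 1) (by rcases hk0 with rfl | rfl <;> omega) v' hv'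
            (Or.inr (Or.inl (by omega))), cfg_t1 hc (by rcases hk0 with rfl | rfl <;> omega) hv']
          simp
    rcases Nat.eq_zero_or_pos k with rfl | hk0
    · -- `k = 0`
      have hl : g.G - 1 < g.G := by omega
      have hxl := xv _ hl
      have hb : ∀ v, badA 0 v w' = true := fun v => bad_self hw
      by_cases H2 : ∀ v' < g.V, y' (g.kg ((t + 1) % 3) 0 v') = false
      swap
      · obtain ⟨v0, hv0, e0⟩ := nf (P := fun _ => True) H2
        rcases hwr v0 hv0 e0 with hh | hh
        · exact Or.inl hh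
        · exact Or.inr (Or.inl hh)
      left
      by_cases H3 : ∀ v' < g.V, y' (g.kg ((t + 2) % 3) (g.G - 1) v') = false
      swap
      · obtain ⟨v0, hv0, e0⟩ := nf (P := fun _ => True) H3
        have hne : y' (g.kg ((t + 2) % 3) (g.G - 1) v0) ≠ y (g.kg ((t + 2) % 3) (g.G - 1) v0) := by
          rw [e0, cfg_t2 hc hl hv0]
          simp
        have hs := U _ hm2 _ hl _ hv0 hne
        apply sat_A2 h hm2 (k := 2 * g.G - 1) (v := v0) (by omega) (by omega) hv0
          (bad_last h hw)
        · have : 2 * g.G - 1 - g.G = g.G - 1 := by omega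
          rw [this]
          exact e0
        · intro v' hv'
          rw [hs _ hm2 _ (by omega) v' hv' (Or.inr (Or.inl (by omega))),
            cfg_t2 hc (by omega) hv']
      by_cases H1 : y' (g.kg t (g.G - 1) (x (g.G - 1))) = true
      · exact sat_A0 h ht hxl (hb _) H1 H2 H3
      · -- the value was removed
        have hne : y' (g.kg t (g.G - 1) (x (g.G - 1))) ≠ y (g.kg t (g.G - 1) (x (g.G - 1))) := by
          rw [cfg_t ht hc hl hxl]
          simpa using H1
        have hs := U _ ht _ hl _ hxl hne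
        apply sat_N h
        intro t' ht' v hv
        by_cases a0 : t' = t
        · subst a0
          by_cases av : v = x (g.G - 1)
          · subst av
            simpa using H1
          · rw [hs _ ht' _ hl _ hv (Or.inr (Or.inr av)), cfg_t ht hc hl hv]
            simp [av]
        · by_cases a1 : t' = (t + 1) % 3
          · subst a1
            rw [hs _ hm1 _ hl _ hv (Or.inl a0), cfg_t1 hc hl hv]
            simp
          · have a2 : t' = (t + 2) % 3 := by omega
            subst a2
            exact H3 v hv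
    · -- `0 < k < G`
      by_cases H2 : ∀ v' < g.V, y' (g.kg ((t + 1) % 3) k v') = false
      swap
      · obtain ⟨v0, hv0, e0⟩ := nf (P := fun _ => True) H2
        rcases hwr v0 hv0 e0 with hh | hh
        · exact Or.inl hh
        · exact Or.inr (Or.inl hh)
      left
      have hp : k - 1 < g.G := by omega
      have hxp := xv' (k - 1) hp (by omega)
      by_cases H1 : y' (g.kg ((t + 1) % 3) (k - 1) (x' (k - 1))) = true
      · exact sat_A1 h ht hk0 hkG hxp (bad_self hw) H1 H2
      · have hne : y' (g.kg ((t + 1) % 3) (k - 1) (x' (k - 1))) ≠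
            y (g.kg ((t + 1) % 3) (k - 1) (x' (k - 1))) := by
          rw [cfg_t1 hc hp hxp]
          have : k - 1 < k := by omega
          simpa [this] using H1
        have hs := U _ hm1 _ hp _ hxp hne
        have hrem : ∀ v' < g.V, y' (g.kg ((t + 1) % 3) (k - 1) v') = false := by
          intro v' hv'
          by_cases av : v' = x' (k - 1)
          · subst av
            simpa using H1
          · rw [hs _ hm1 _ hp _ hv' (Or.inr (Or.inr av)), cfg_t1 hc hp hv']
            simp [av]
        rcases Nat.eq_zero_or_pos (k - 1) with e | e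
        · have hl : g.G - 1 < g.G := by omega
          have hb := bad_pred (v := x (g.G - 1)) hk0 hw
          rw [e] at hb hrem
          apply sat_A0 h ht (xv _ hl) hb
          · rw [hs _ ht _ hl _ (xv _ hl) (Or.inl (by omega)), cfg_t ht hc hl (xv _ hl)]
            have : k ≤ g.G - 1 + g.G := by omega
            simp [this]
          · exact hrem
          · intro v' hv'
            rw [hs _ hm2 _ hl _ hv' (Or.inl (by omega)), cfg_t2 hc hl hv']
        · have hpp : k - 1 - 1 < g.G := by omega
          have hxpp := xv' (k - 1 - 1) hpp (by omega)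
          apply sat_A1 h ht e (by omega) hxpp (bad_pred hk0 hw)
          · rw [hs _ hm1 _ hpp _ hxpp (Or.inr (Or.inl (by omega))), cfg_t1 hc hpp hxpp]
            have : k - 1 - 1 < k := by omega
            simp [this]
          · exact hrem
  · rcases Nat.eq_or_lt_of_le hkG with hkG' | hkG'
    · -- `k = G`
      have hl : g.G - 1 < g.G := by omega
      have hxl := xv' _ hl (by omega)
      have hx0 := xv 0 hG
      by_cases H2 : y' (g.kg t 0 (x 0)) = true
      swap
      · -- advance
        right; right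
        have hne : y' (g.kg t 0 (x 0)) ≠ y (g.kg t 0 (x 0)) := by
          rw [cfg_t ht hc hG hx0]
          have : k ≤ g.G := by omega
          simpa [this] using H2
        have hs := U _ ht _ hG _ hx0 hne
        have e : k - g.G = 0 := by omega
        refine ⟨hkG, adv_remove ht hkG hc ?_ ?_⟩
        · rw [e]
          simpa using H2
        · rw [e]
          exact hs
      left
      by_cases H1 : y' (g.kg ((t + 1) % 3) (g.G - 1) (x' (g.G - 1))) = true
      · apply sat_AG h ht hxl hx0 _ H1 H2
        rw [hkG']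
        exact bad_self hw
      · have hne : y' (g.kg ((t + 1) % 3) (g.G - 1) (x' (g.G - 1))) ≠
            y (g.kg ((t + 1) % 3) (g.G - 1) (x' (g.G - 1))) := by
          rw [cfg_t1 hc hl hxl]
          have : g.G - 1 < k := by omega
          simpa [this] using H1
        have hs := U _ hm1 _ hl _ hxl hne
        have hpp : g.G - 1 - 1 < g.G := by omega
        have hxpp := xv' (g.G - 1 - 1) hpp (by omega)
        have hb := bad_pred (v := x' (g.G - 1 - 1)) (by omega : 0 < k) hw
        rw [← hkG'] at hb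
        apply sat_A1 h ht (by omega) hl hxpp hb
        · rw [hs _ hm1 _ hpp _ hxpp (Or.inr (Or.inl (by omega))), cfg_t1 hc hpp hxpp]
          have : g.G - 1 - 1 < k := by omega
          simp [this]
        · intro v' hv'
          by_cases av : v' = x' (g.G - 1)
          · subst av
            simpa using H1
          · rw [hs _ hm1 _ hl _ hv' (Or.inr (Or.inr av)), cfg_t1 hc hl hv']
            simp [av]
    · -- `G < k < 2 G`
      have hq : k - g.G < g.G := by omega
      have hxq := xv _ hq
      by_cases H1 : y' (g.kg t (k - g.G) (x (k - g.G))) = true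
      swap
      · right; right
        have hne : y' (g.kg t (k - g.G) (x (k - g.G))) ≠ y (g.kg t (k - g.G) (x (k - g.G))) := by
          rw [cfg_t ht hc hq hxq]
          have : k ≤ k - g.G + g.G := by omega
          simpa [this] using H1
        exact ⟨hkG, adv_remove ht hkG hc (by simpa using H1) (U _ ht _ hq _ hxq hne)⟩
      left
      by_cases H2 : ∀ v' < g.V, y' (g.kg t (k - g.G - 1) v') = false
      · exact sat_A2 h ht hkG' hk hxq (bad_self hw) H1 H2
      · obtain ⟨v0, hv0, e0⟩ := nf (P := fun _ => True) H2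
        have hq1 : k - g.G - 1 < g.G := by omega
        have hne : y' (g.kg t (k - g.G - 1) v0) ≠ y (g.kg t (k - g.G - 1) v0) := by
          rw [e0, cfg_t ht hc hq1 hv0]
          have : ¬ (k ≤ k - g.G - 1 + g.G) := by omega
          simp [this]
        have hs := U _ ht _ hq1 _ hv0 hne
        rcases Nat.eq_or_lt_of_le (show g.G ≤ k - 1 by omega) with e | e
        · have hl : g.G - 1 < g.G := by omega
          have hxl := xv' _ hl (by omega)
          have hb := bad_pred (v := x' (g.G - 1)) (by omega : 0 < k) hw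
          rw [← e] at hb
          have e2 : k - g.G - 1 = 0 := by omega
          apply sat_AG h ht hxl hv0 hb
          · rw [hs _ hm1 _ hl _ hxl (Or.inl (by omega)), cfg_t1 hc hl hxl]
            have : g.G - 1 < k := by omega
            simp [this]
          · rw [e2] at e0
            exact e0
        · apply sat_A2 h ht e (by omega) hv0 (bad_pred (by omega : 0 < k) hw)
          · have e2 : k - 1 - g.G = k - g.G - 1 := by omega
            rw [e2]
            exact e0
          · intro v' hv'
            have hq2 : k - 1 - g.G - 1 < g.G := by omega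
            rw [hs _ ht _ hq2 _ hv' (Or.inr (Or.inl (by omega))), cfg_t ht hc hq2 hv']
            have : ¬ (k ≤ k - 1 - g.G - 1 + g.G) := by omega
            simp [this]

/-- A violated clause gives a satisfied term after all cells have been written. -/
theorem clause_term (h : g.Ok) {t : ℕ} {x x' : ℕ → ℕ} {y : ℕ → Bool} (ht : t < 3)
    (hx : g.Dm x) (hx' : g.Dm x') (hc : g.Cfg t g.G x x' y) (hT : ¬ g.Trans (optc x') x x')
    (w : ℕ) : ∃ τ ∈ (g.ckt Lc stop).terms w, (g.ckt Lc stop).Sat τ y := by
  obtain ⟨hV, hG, hG'⟩ := ok_pos h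
  unfold NG.Trans at hT
  push Not at hT
  obtain ⟨q, hq, hvq, hopt, h1, h2⟩ := hT
  have d0 : x' 0 < 2 := (h.dom_opt 0 _ (Or.inl rfl)).1 (hx' 0 hG)
  have d10 : x' 10 < 2 := (h.dom_opt 10 _ (Or.inr rfl)).1 (hx' 10 (by omega))
  have dl : x' (g.G - 1) = 0 :=
    (h.dom_dummy (g.G - 1) _ (Or.inr (by omega))).1 (hx' _ (by omega))
  have d1 : x 1 = 0 := (h.dom_dummy 1 _ (Or.inl ⟨le_refl _, by norm_num⟩)).1 (hx 1 (by omega))
  have ho2 : g.opt q = 2 ↔ x' 10 = 1 := by
    rw [hopt]
    unfold optc
    split_ifs with c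
    · simp [c]
    · constructor
      · intro e; omega
      · intro e; exact absurd e c
  have ho0 : g.opt q ≠ 2 → g.opt q = x' 0 := by
    intro e
    have : ¬ x' 10 = 1 := fun e' => e (ho2.2 e')
    rw [hopt]
    unfold optc
    rw [if_neg this]
  apply sat_C h ht hq hvq
  intro t' ht' i hi v' hv' p hp
  unfold NG.litC at hp
  by_cases a1 : t' = (t + 1) % 3
  · subst a1
    rw [if_pos rfl] at hp
    rw [cfg_t1 hc hi hv']
    by_cases b1 : i + 1 = g.G ∧ v' = 0
    · rw [if_pos b1] at hp
      have hp' : p = true := by simpa using hp.symm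
      subst hp'
      obtain ⟨b, rfl⟩ := b1
      have : i = g.G - 1 := by omega
      subst this
      simp [dl, hG]
    · rw [if_neg b1] at hp
      by_cases b2 : i = 0
      · rw [if_pos b2] at hp
        split_ifs at hp with c
        have hp' : p = true := by simpa using hp.symm
        subst hp'
        subst b2
        obtain ⟨c1, rfl⟩ := c
        simp [ho0 c1, hG]
      · rw [if_neg b2] at hp
        by_cases b3 : i = 10
        · rw [if_pos b3] at hp
          by_cases c : v' = if g.opt q = 2 then 1 else 0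
          · rw [if_pos c] at hp
            have hp' : p = true := by simpa using hp.symm
            subst hp'
            subst b3
            have : v' = x' 10 := by
              rw [c]
              split_ifs with c2
              · exact (ho2.1 c2).symm
              · have : ¬ x' 10 = 1 := fun e' => c2 (ho2.2 e')
                omega
            simp [this, hi]
          · rw [if_neg c] at hp
            exact absurd hp (by simp)
        · rw [if_neg b3] at hp
          split_ifs at hp with c
          have hp' : p = false := by simpa using hp.symm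
          subst hp'
          have : v' ≠ x' i := by
            rintro rfl
            exact h2 i hi c
          simp [this]
  · rw [if_neg a1] at hp
    by_cases a0 : t' = t
    · subst a0
      rw [if_pos rfl] at hp
      rw [cfg_t ht hc hi hv']
      by_cases b1 : i = 1 ∧ v' = 0
      · rw [if_pos b1] at hp
        have hp' : p = true := by simpa using hp.symm
        subst hp'
        obtain ⟨rfl, rfl⟩ := b1
        simp [d1]
      · rw [if_neg b1] at hp
        split_ifs at hp with c
        have hp' : p = false := by simpa using hp.symm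
        subst hp'
        have : v' ≠ x i := by
          rintro rfl
          exact h1 i hi c
        simp [this]
    · rw [if_neg a0] at hp
      exact absurd hp (by simp)

end Pool.Agent.MC95
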