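import Pool.Agent.MC95.PDefs

/-!
# A set of assignments closed under successors and predecessors

PLAN. Let `S` be the set of `NG.Def` and `z` the assignment of `NG.Esc`. Let `R` be the inductively
defined set: every `x` with `g.Dm x` that agrees with `z` or with `g.init` on the cells `i` with
`11 ≤ i`, `i + 1 < G` is in `R`; if `x ∈ R`, `g.Dm x'`, `x'` agrees with an element of `S` on these
cells and `g.TC x x'`, then `x' ∈ R`. Every element of `R` agrees with `z` or with an element of `S`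
on these cells. `g.Trans b` only depends on these cells (`cur_range`, `nxt_range`). `prev`: an
element of the first kind has the predecessor `z` (every clause has a current literal true at `z`).
`next`: if `x` agrees with `z`, take `g.init` with the cells `0`, `10` changed to `o1`, `o2`; if it
agrees with `s ∈ S`, take the answer of the defender at `s` to the option
`if o2 = 1 then 2 else o1`, changed in the same way.
-/

namespace Pool.Agent.MC95

/-- `x'` is an admissible successor of `x` for the option stored in `x'`. -/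
def NG.TC (g : NG) (x x' : ℕ → ℕ) : Prop := g.Trans (optc x') x x'

/-- A set of assignments that is closed under predecessors and successors. -/
structure NG.TwoSided (g : NG) (R : Set (ℕ → ℕ)) : Prop where
  dm : ∀ x ∈ R, g.Dm x
  prev : ∀ x ∈ R, ∃ p ∈ R, g.TC p x
  next : ∀ x ∈ R, ∀ o1 < 2, ∀ o2 < 2, ∃ x' ∈ R, x' 0 = o1 ∧ x' 10 = o2 ∧ g.TC x x'

/-- `x` and `s` agree on the cells that occur in the clauses. -/
private def Agr (g : NG) (x s : ℕ → ℕ) : Prop := ∀ i, 11 ≤ i → i + 1 < g.G → x i = s i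

/-- `s` with the cells `0` and `10` changed. -/
private def chg (s : ℕ → ℕ) (o1 o2 : ℕ) : ℕ → ℕ := fun i => if i = 0 then o1 else if i = 10 then o2 else s i

private lemma chg_zero (s : ℕ → ℕ) (o1 o2 : ℕ) : chg s o1 o2 0 = o1 := by simp [chg]

private lemma chg_ten (s : ℕ → ℕ) (o1 o2 : ℕ) : chg s o1 o2 10 = o2 := by simp [chg]

private lemma chg_agr (g : NG) (s : ℕ → ℕ) (o1 o2 : ℕ) : Agr g (chg s o1 o2) s := by
  intro i hi _
  have h0 : i ≠ 0 := by omega
  have h1 : i ≠ 10 := by omega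
  simp [chg, h0, h1]

private lemma chg_dm {g : NG} (h : g.Ok) {s : ℕ → ℕ} (hs : g.Dm s) {o1 o2 : ℕ} (h1 : o1 < 2) (h2 : o2 < 2) :
    g.Dm (chg s o1 o2) := by
  intro i hi
  by_cases h0 : i = 0
  · subst h0
    rw [chg_zero]
    exact (h.dom_opt 0 o1 (Or.inl rfl)).2 h1
  · by_cases h10 : i = 10
    · subst h10
      rw [chg_ten]
      exact (h.dom_opt 10 o2 (Or.inr rfl)).2 h2
    · have : chg s o1 o2 i = s i := by simp [chg, h0, h10]
      rw [this]
      exact hs i hi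

private lemma optc_chg (s : ℕ → ℕ) (o1 o2 : ℕ) : optc (chg s o1 o2) = if o2 = 1 then 2 else o1 := by
  unfold optc
  rw [chg_ten, chg_zero]

private lemma esc_trans {g : NG} (h : g.Ok) {z x x' : ℕ → ℕ} (hz : ∀ q < g.nQ, ∃ i < g.G, g.cur q i (z i) = true)
    (hx : Agr g x z) (b : ℕ) : g.Trans b x x' := by
  intro q hq _ _
  obtain ⟨i, hi, hc⟩ := hz q hq
  obtain ⟨h1, h2⟩ := h.cur_range q i _ hc
  exact Or.inl ⟨i, hi, by rw [hx i h1 h2]; exact hc⟩

private lemma agr_trans {g : NG} (h : g.Ok) {s s' x x' : ℕ → ℕ} {b : ℕ} (ht : g.Trans b s s')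
    (hx : Agr g x s) (hx' : Agr g x' s') : g.Trans b x x' := by
  intro q hq hv ho
  rcases ht q hq hv ho with ⟨i, hi, hc⟩ | ⟨i, hi, hc⟩
  · obtain ⟨h1, h2⟩ := h.cur_range q i _ hc
    exact Or.inl ⟨i, hi, by rw [hx i h1 h2]; exact hc⟩
  · obtain ⟨h1, h2⟩ := h.nxt_range q i _ hc
    exact Or.inr ⟨i, hi, by rw [hx' i h1 h2]; exact hc⟩

theorem exists_twoSided {g : NG} (h : g.Ok) (hd : g.Def) (he : g.Esc) :
    ∃ R, g.TwoSided R ∧ g.init ∈ R := by
  obtain ⟨S, hiS, hDm, hS⟩ := hd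
  obtain ⟨z, hzD, hz⟩ := he
  have hiD : g.Dm g.init := fun i hi => h.init_dom i hi
  refine ⟨{x | g.Dm x ∧ (Agr g x z ∨ ∃ s ∈ S, Agr g x s)}, ⟨?_, ?_, ?_⟩, ?_⟩
  · intro x hx
    exact hx.1
  · intro x hx
    exact ⟨z, ⟨hzD, Or.inl fun _ _ _ => rfl⟩, esc_trans h hz (fun _ _ _ => rfl) _⟩
  · rintro x ⟨hxD, hx⟩ o1 h1 o2 h2
    rcases hx with hx | ⟨s, hs, hx⟩
    · exact ⟨chg g.init o1 o2, ⟨chg_dm h hiD h1 h2, Or.inr ⟨g.init, hiS, chg_agr g _ _ _⟩⟩,
        chg_zero _ _ _, chg_ten _ _ _, esc_trans h hz hx _⟩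
    · have hb : (if o2 = 1 then 2 else o1) < 3 := by split_ifs <;> omega
      obtain ⟨s', hs', ht⟩ := hS s hs _ hb
      refine ⟨chg s' o1 o2, ⟨chg_dm h (hDm s' hs') h1 h2, Or.inr ⟨s', hs', chg_agr g _ _ _⟩⟩,
        chg_zero _ _ _, chg_ten _ _ _, ?_⟩
      unfold NG.TC
      rw [optc_chg]
      exact agr_trans h ht hx (chg_agr g _ _ _)
  · exact ⟨hiD, Or.inr ⟨g.init, hiS, fun _ _ _ => rfl⟩⟩

end Pool.Agent.MC95
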