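import Mathlib

/-!
# Misère checkers on `N × N` boards

Squares are pairs `(x, y)` of integers, `x` the column and `y` the row, `0 ≤ x, y < N`; the dark
squares are those with `x + y` even. White men move up the board (`y` increases), Black men move
down. The rules are those of English draughts.
-/

namespace Pool.Agent.MC95

/-- The two players. -/
inductive Color
  | white | black
  deriving DecidableEq

/-- The opponent. -/
def Color.other : Color → Color
  | .white => .black
  | .black => .white

/-- A piece: its colour, and whether it is a king. -/
structure Piece where
  color : Color
  king : Bool
  deriving DecidableEq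

/-- Squares. -/
abbrev Square : Type := ℤ × ℤ

/-- Placements of pieces. -/
abbrev Board : Type := Square → Option Piece

/-- `s` is a dark square of the `N × N` board. -/
def IsDark (N : ℕ) (s : Square) : Prop :=
  0 ≤ s.1 ∧ s.1 < N ∧ 0 ≤ s.2 ∧ s.2 < N ∧ 2 ∣ s.1 + s.2

instance (N : ℕ) (s : Square) : Decidable (IsDark N s) := by
  unfold IsDark; infer_instance

/-- The diagonal unit vectors. -/
def IsDiag (d : ℤ × ℤ) : Prop := (d.1 = 1 ∨ d.1 = -1) ∧ (d.2 = 1 ∨ d.2 = -1)

/-- The row direction in which the men of a colour move. -/
def Color.forward : Color → ℤ
  | .white => 1
  | .black => -1

/-- The directions in which a piece moves and captures: all four diagonal directions for a king,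
the two forward ones for a man. -/
def Piece.Dir (p : Piece) (d : ℤ × ℤ) : Prop :=
  IsDiag d ∧ (p.king = true ∨ d.2 = p.color.forward)

/-- The far row of a colour, where its men become kings. -/
def Color.farRow (N : ℕ) : Color → ℤ
  | .white => N - 1
  | .black => 0

/-- The piece `p` after having arrived in row `y`. -/
def Piece.crown (N : ℕ) (p : Piece) (y : ℤ) : Piece :=
  if y = p.color.farRow N then { p with king := true } else p

/-- The board after the piece `p` has left `s` and has been put on `t`, becoming a king if it has
reached the far row. -/
def Board.move (N : ℕ) (b : Board) (p : Piece) (s t : Square) : Board :=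
  Function.update (Function.update b s none) t (some (p.crown N t.2))

/-- The piece `p` on `s` can jump in direction `d`: the diagonally adjacent square is occupied by an
opposing piece and the square directly beyond it is an empty square of the board. -/
def CanJump (N : ℕ) (b : Board) (p : Piece) (s : Square) (d : ℤ × ℤ) : Prop :=
  b s = some p ∧ p.Dir d ∧ (∃ q, b (s + d) = some q ∧ q.color = p.color.other) ∧
    IsDark N (s + d + d) ∧ b (s + d + d) = none

/-- The board after the jump of the piece `p` from `s` in direction `d`; the jumped piece is
removed. -/
def Board.jump (N : ℕ) (b : Board) (p : Piece) (s : Square) (d : ℤ × ℤ) : Board :=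
  Board.move N (Function.update b (s + d) none) p s (s + d + d)

/-- `Captures N b s b'`: the piece on `s` can make a complete capturing move leading from `b` to
`b'`. The move is a sequence of jumps; it ends when the piece becomes a king or cannot jump any
more, and not before. -/
inductive Captures (N : ℕ) : Board → Square → Board → Prop
  | last {b : Board} {p : Piece} {s : Square} {d : ℤ × ℤ} (h : CanJump N b p s d)
      (hend : p.crown N (s + d + d).2 ≠ p ∨
        ∀ d', ¬ CanJump N (b.jump N p s d) p (s + d + d) d') :
      Captures N b s (b.jump N p s d)
  | next {b : Board} {p : Piece} {s : Square} {d : ℤ × ℤ} {b' : Board} (h : CanJump N b p s d)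
      (hcrown : p.crown N (s + d + d).2 = p)
      (hrest : Captures N (b.jump N p s d) (s + d + d) b') :
      Captures N b s b'

/-- The player `c` can capture. -/
def CanCapture (N : ℕ) (b : Board) (c : Color) : Prop :=
  ∃ s p d, p.color = c ∧ CanJump N b p s d

/-- `Legal N c b b'`: the player `c` can move from `b` to `b'`. If a capture is available, the
player must capture. -/
inductive Legal (N : ℕ) (c : Color) : Board → Board → Prop
  | step {b : Board} {p : Piece} {s : Square} {d : ℤ × ℤ} (hno : ¬ CanCapture N b c)
      (hs : b s = some p) (hc : p.color = c) (hd : p.Dir d) (ht : IsDark N (s + d))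
      (he : b (s + d) = none) : Legal N c b (b.move N p s (s + d))
  | capture {b : Board} {p : Piece} {s : Square} {b' : Board} (hs : b s = some p)
      (hc : p.color = c) (h : Captures N b s b') : Legal N c b b'

/-- `MisereWins N c b t`: the player `c` can force a win in misère checkers from the board `b`
with the player `t` to move: a player who has no legal move on their turn wins. -/
inductive MisereWins (N : ℕ) (c : Color) : Board → Color → Prop
  | stuck {b : Board} (h : ∀ b', ¬ Legal N c b b') : MisereWins N c b c
  | own {b b' : Board} (h : Legal N c b b') (hw : MisereWins N c b' c.other) : MisereWins N c b c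
  | other {b : Board} (h : ∃ b', Legal N c.other b b')
      (hw : ∀ b', Legal N c.other b b' → MisereWins N c b' c) : MisereWins N c b c.other

/-- The legal placements: pieces only on dark squares of the board, and no man on the far row of
its colour. -/
def Valid (N : ℕ) (b : Board) : Prop :=
  ∀ s p, b s = some p → IsDark N s ∧ (p.king = true ∨ s.2 ≠ p.color.farRow N)

/-- Code of the contents of a square. -/
def codeSquare : Option Piece → List Bool
  | none => [false, false, false]
  | some p => [true, decide (p.color = .black), p.king]

/-- A position as a bit string: the number `N` in unary, one bit for the player to move, and the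
contents of the dark squares, row by row. -/
def encode (N : ℕ) (b : Board) (t : Color) : List Bool :=
  List.replicate N true ++ false :: decide (t = .black) ::
    (List.range N).flatMap fun y : ℕ => (List.range N).flatMap fun x : ℕ =>
      if (x + y) % 2 = 0 then codeSquare (b ((x : ℤ), (y : ℤ))) else []

/-- MISÈRE CHECKERS: the encodings of the positions in which the player to move has a winning
strategy. -/
def MISERE : Set (List Bool) :=
  {w | ∃ (N : ℕ) (b : Board) (t : Color), Valid N b ∧ w = encode N b t ∧ MisereWins N t b t}

end Pool.Agent.MC95
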