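import Pool.Agent.MC95.Final
import Pool.Agent.MC95.Quiet

/-!
# Sealed positions

PLAN. `sealed_lose`: `Sealed` is kept by all legal moves, and White always has a legal move. Rows from
`R = 12 + 8 * sg + 12` on: the rows `R`, `R + 1` are full of White men, the rows `R + 2`, `R + 3` full
of Black men, above the board is `C.g.kboard C.cL κ'` for some positions `κ'` of the kings (only
`κ'.a` and `κ'.tog` matter there, since all other tiles are below row `R`). A jump has its landing
square below row `R`: otherwise it is an empty square of `C.g.kboard C.cL κ'` above row `R + 4` and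
the jump is a possible jump of that board (its squares are at distance at most two), against
`kboard_quiet`. It then lies entirely below row `R` (a piece in row `R` or `R + 1` is a White man,
which does not move down). A step to a square in row `≥ R` is a step of `C.g.kboard C.cL κ'`, hence
by `kboard_white_moves` and `kboard_black_moves` a move of the king of the gate or of the corner.
White has a legal move: `exists_capture` if there is a possible jump, otherwise the step of the king
of the gate.
(In `Sealed.high` the positions `κ'.x`, `κ'.al`, `κ'.y` are irrelevant; they are only required to be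
admissible for `kboard_quiet` and `kboard_white_moves`.)
-/

namespace Pool.Agent.MC95

variable {C : Circ}

/-- Sealed positions. -/
structure Circ.Sealed (C : Circ) (b : Board) : Prop where
  dark : ∀ s p, b s = some p → IsDark C.g.N s
  low : ∀ s : Square, IsDark C.g.N s → s.2 = C.top ∨ s.2 = C.top + 1 → b s = wm
  high : ∃ κ' : KC, C.XOk κ' ∧ κ'.al ≠ none ∧
    ∀ s : Square, C.top + 2 ≤ s.2 → b s = C.g.kboard C.cL κ' s

/-- `Sealed` with given positions of the kings. -/
private structure SealedK (C : Circ) (κ : KC) (b : Board) : Prop where
  dark : ∀ s p, b s = some p → IsDark C.g.N s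
  low : ∀ s : Square, IsDark C.g.N s → s.2 = C.top ∨ s.2 = C.top + 1 → b s = wm
  xok : C.XOk κ
  al : κ.al ≠ none
  high : ∀ s : Square, C.top + 2 ≤ s.2 → b s = C.g.kboard C.cL κ s

private lemma sealedK_of {b : Board} (h : C.Sealed b) : ∃ κ, SealedK C κ b := by
  obtain ⟨κ, h1, h2, h3⟩ := h.high
  exact ⟨κ, h.dark, h.low, h1, h2, h3⟩

private lemma corRow_le (op : Op) (x : ℕ) : corRow op x ≤ 24 := by
  unfold corRow
  split_ifs with h
  · omega
  · omega
  · omega

/-- The rows of the empty squares of the static board. -/
private lemma hole_row (hC : C.Ok) {s : Square} (h : C.Hole s) (hs : C.top ≤ s.2) :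
    C.top + 4 ≤ s.2 := by
  have h26 := hC.sg24
  have hsz := hC.size
  unfold Circ.top at hs ⊢
  cases h with
  | x i h =>
    exfalso
    have h1 := corRow_le (C.op ((28 * C.cL + 14 + i) / 28)) ((28 * C.cL + 14 + i) % 28)
    simp only [Circ.xcell, bT] at hs
    push_cast at hs
    omega
  | y c hc hk u =>
    exfalso
    have h1 := (hC.tiles c hc).2.2
    rw [hk] at h1
    simp only at h1
    obtain ⟨-, -, h2⟩ := h1
    cases u
    · simp only [Circ.ycell, Bool.false_eq_true, if_false] at hs
      omega
    · simp only [Circ.ycell, if_true] at hs
      omega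
  | n u =>
    exfalso
    cases u
    · simp only [Circ.ncell, Bool.false_eq_true, if_false] at hs
      omega
    · simp only [Circ.ncell, if_true] at hs
      omega
  | g u =>
    cases u
    · simp only [Circ.gcell, Bool.false_eq_true, if_false]
      omega
    · simp only [Circ.gcell, if_true]
      omega
  | t u =>
    cases u
    · simp only [Circ.tcell, Bool.false_eq_true, if_false]
      omega
    · simp only [Circ.tcell, if_true]
      omega

private lemma kboard_none {κ : KC} {s : Square} (hd : IsDark C.g.N s)
    (h : C.g.kboard C.cL κ s = none) : C.g.board s = none := by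
  unfold Geo.kboard at h
  unfold Geo.board
  rw [if_pos hd] at h ⊢
  split at h
  · exact absurd h (by simp)
  · exact h

/-- The empty squares in the rows from `top` on. -/
private lemma empty_row (hC : C.Ok) {κ : KC} {b : Board} (hS : SealedK C κ b) {s : Square}
    (hd : IsDark C.g.N s) (hb : b s = none) (hs : C.top ≤ s.2) : C.top + 4 ≤ s.2 := by
  by_cases h1 : C.top + 2 ≤ s.2
  · rw [hS.high s h1] at hb
    exact hole_row hC ((board_none_iff hC hd).1 (kboard_none hd hb)) hs
  · have h2 := hS.low s hd (by omega)
    rw [hb] at h2
    exact absurd h2 (by simp)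

private lemma diag_row {d : ℤ × ℤ} (h : IsDiag d) : d.2 = 1 ∨ d.2 = -1 := h.2

/-- A man in the rows `top`, `top + 1` moves up. -/
private lemma low_up {κ : KC} {b : Board} (hS : SealedK C κ b) {s : Square}
    {p : Piece} {d : ℤ × ℤ} (hb : b s = some p) (hd : p.Dir d)
    (hs : s.2 = C.top ∨ s.2 = C.top + 1) : d.2 = 1 := by
  have h1 := hS.low s (hS.dark s p hb) hs
  rw [hb] at h1
  obtain rfl : p = ⟨.white, false⟩ := Option.some.inj h1
  rcases hd.2 with h2 | h2
  · exact absurd h2 (by simp)
  · exact h2

/-- All jumps are below the row `top`. -/
private lemma jump_low (hC : C.Ok) {κ : KC} {b : Board} (hS : SealedK C κ b) {p : Piece}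
    {s : Square} {d : ℤ × ℤ} (h : CanJump C.g.N b p s d) :
    s.2 < C.top ∧ (s + d).2 < C.top ∧ (s + d + d).2 < C.top := by
  obtain ⟨h1, h2, ⟨q, h3, h3'⟩, h4, h5⟩ := h
  have hd := diag_row h2.1
  have hland : (s + d + d).2 < C.top := by
    by_contra hc
    have h6 := empty_row hC hS h4 h5 (by omega)
    simp only [Prod.snd_add] at h6 hc
    refine kboard_quiet hC hS.xok p s d ⟨?_, h2, ⟨q, ?_, h3'⟩, h4, ?_⟩
    · rw [← hS.high s (by omega)]
      exact h1
    · rw [← hS.high (s + d) (by simp only [Prod.snd_add]; omega)]
      exact h3
    · rw [← hS.high (s + d + d) (by simp only [Prod.snd_add]; omega)]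
      exact h5
  have hs : s.2 < C.top := by
    by_contra hc
    simp only [Prod.snd_add] at hland
    have h6 := low_up hS h1 h2 (by omega)
    omega
  simp only [Prod.snd_add] at hland ⊢
  refine ⟨hs, ?_, hland⟩
  omega

private lemma sealedK_congr {κ : KC} {b b' : Board} (hS : SealedK C κ b)
    (hd : ∀ s p, b' s = some p → IsDark C.g.N s)
    (h : ∀ s : Square, C.top ≤ s.2 → b' s = b s) : SealedK C κ b' where
  dark := hd
  low := fun s hs hr => by
    rw [h s (by omega)]
    exact hS.low s hs hr
  xok := hS.xok
  al := hS.al
  high := fun s hs => by
    rw [h s (by omega)]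
    exact hS.high s hs

private lemma move_dark {N : ℕ} {b : Board} {p : Piece} {s t : Square}
    (hd : ∀ s p, b s = some p → IsDark N s) (ht : IsDark N t) :
    ∀ u q, b.move N p s t u = some q → IsDark N u := by
  intro u q h
  unfold Board.move at h
  by_cases h1 : u = t
  · rw [h1]
    exact ht
  · rw [Function.update_of_ne h1] at h
    by_cases h2 : u = s
    · rw [h2, Function.update_self] at h
      exact absurd h (by simp)
    · rw [Function.update_of_ne h2] at h
      exact hd u q h

private lemma move_of_ne {N : ℕ} {b : Board} {p : Piece} {s t u : Square} (h1 : u ≠ s)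
    (h2 : u ≠ t) : b.move N p s t u = b u := by
  unfold Board.move
  rw [Function.update_of_ne h2, Function.update_of_ne h1]

private lemma jump_keep (hC : C.Ok) {κ : KC} {b : Board} (hS : SealedK C κ b) {p : Piece}
    {s : Square} {d : ℤ × ℤ} (h : CanJump C.g.N b p s d) :
    SealedK C κ (b.jump C.g.N p s d) := by
  obtain ⟨h1, h2, h3⟩ := jump_low hC hS h
  refine sealedK_congr hS ?_ ?_
  · unfold Board.jump
    apply move_dark _ h.2.2.2.1
    intro u q hu
    by_cases h4 : u = s + d
    · rw [h4, Function.update_self] at hu
      exact absurd hu (by simp)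
    · rw [Function.update_of_ne h4] at hu
      exact hS.dark u q hu
  · intro u hu
    unfold Board.jump
    rw [move_of_ne, Function.update_of_ne]
    · rintro rfl
      omega
    · rintro rfl
      omega
    · rintro rfl
      omega

private lemma captures_keep (hC : C.Ok) {κ : KC} {b b' : Board} {s : Square}
    (h : Captures C.g.N b s b') : SealedK C κ b → SealedK C κ b' := by
  induction h with
  | last h _ => exact fun hS => jump_keep hC hS h
  | next h _ _ ih => exact fun hS => ih (jump_keep hC hS h)

private lemma xok_x {κ κ' : KC} (h : C.XOk κ) (h' : κ'.x = κ.x) : C.XOk κ' := by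
  intro i hi
  rw [h'] at hi
  exact h i hi

private lemma legal_keep (hC : C.Ok) {κ : KC} {c : Color} {b b' : Board} (hS : SealedK C κ b)
    (h : Legal C.g.N c b b') : ∃ κ', SealedK C κ' b' := by
  cases h with
  | @step p s d hno hs hc hd ht he =>
    have hdg := diag_row hd.1
    by_cases htop : C.top ≤ (s + d).2
    · have h6 := empty_row hC hS ht he htop
      simp only [Prod.snd_add] at h6
      have hks : C.g.kboard C.cL κ s = some p := by
        rw [← hS.high s (by omega)]
        exact hs
      have hkt : C.g.kboard C.cL κ (s + d) = none := by
        rw [← hS.high (s + d) (by simp only [Prod.snd_add]; omega)]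
        exact he
      have hleg : Legal C.g.N c (C.g.kboard C.cL κ)
          ((C.g.kboard C.cL κ).move C.g.N p s (s + d)) := by
        refine Legal.step ?_ hks hc hd ht hkt
        rintro ⟨s', p', d', -, hj⟩
        exact kboard_quiet hC hS.xok p' s' d' hj
      -- the new board agrees with the new board with kings
      have hagree : ∀ u : Square, C.top + 2 ≤ u.2 →
          b.move C.g.N p s (s + d) u = (C.g.kboard C.cL κ).move C.g.N p s (s + d) u := by
        intro u hu
        unfold Board.move
        by_cases h1 : u = s + d
        · rw [h1, Function.update_self, Function.update_self]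
        · rw [Function.update_of_ne h1, Function.update_of_ne h1]
          by_cases h2 : u = s
          · rw [h2, Function.update_self, Function.update_self]
          · rw [Function.update_of_ne h2, Function.update_of_ne h2]
            exact hS.high u hu
      have hlow : ∀ u : Square, IsDark C.g.N u → u.2 = C.top ∨ u.2 = C.top + 1 →
          b.move C.g.N p s (s + d) u = wm := by
        intro u hu hr
        rw [move_of_ne]
        · exact hS.low u hu hr
        · rintro rfl
          omega
        · rintro rfl
          simp only [Prod.snd_add] at hr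
          omega
      have hmk : ∀ κ' : KC, C.XOk κ' → κ'.al ≠ none →
          (∀ u : Square, C.top + 2 ≤ u.2 →
            (C.g.kboard C.cL κ).move C.g.N p s (s + d) u = C.g.kboard C.cL κ' u) →
          ∃ κ', SealedK C κ' (b.move C.g.N p s (s + d)) := by
        intro κ' hx' hal' h'
        refine ⟨κ', move_dark hS.dark ht, hlow, hx', hal', ?_⟩
        intro u hu
        rw [hagree u hu]
        exact h' u hu
      cases c with
      | white =>
        rcases (kboard_white_moves hC hS.xok hS.al _).1 hleg with ⟨u, h1, h2⟩ | ⟨i, hi, h1, h2⟩ |
          ⟨i, h1, h2⟩ | h2 | ⟨u, h1, h2⟩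
        · exact hmk { κ with al := some !u } (xok_x hS.xok rfl) (by simp) (fun u _ => by rw [h2])
        · refine hmk { κ with x := some (i + 1) } ?_ hS.al (fun u _ => by rw [h2])
          intro j hj
          obtain rfl : i + 1 = j := Option.some.inj hj
          unfold Circ.len at hi
          omega
        · refine hmk { κ with x := some i } ?_ hS.al (fun u _ => by rw [h2])
          intro j hj
          obtain rfl : i = j := Option.some.inj hj
          have := hS.xok _ h1
          omega
        · exact hmk { κ with a := !κ.a } (xok_x hS.xok rfl) hS.al (fun u _ => by rw [h2])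
        · refine hmk κ hS.xok hS.al ?_
          intro v hv
          rw [h2]
          unfold Circ.top at hv
          unfold Geo.lboard
          split_ifs with h3
          · rw [Function.update_of_ne, Function.update_of_ne]
            · rintro rfl
              simp only at hv
              omega
            · rintro rfl
              simp only at hv
              omega
          · rw [Function.update_of_ne, Function.update_of_ne]
            · rintro rfl
              simp only at hv
              omega
            · rintro rfl
              simp only at hv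
              omega
      | black =>
        rcases (kboard_black_moves hC hS.xok _).1 hleg with h2 | ⟨c, hc', hk, h2⟩
        · exact hmk { κ with tog := !κ.tog } (xok_x hS.xok rfl) hS.al (fun u _ => by rw [h2])
        · exact hmk { κ with y := Function.update κ.y c !(κ.y c) } (xok_x hS.xok rfl) hS.al
            (fun u _ => by rw [h2])
    · simp only [Prod.snd_add] at htop
      have hslow : s.2 < C.top := by
        by_contra hc'
        have h6 := low_up hS hs hd (by omega)
        omega
      refine ⟨κ, sealedK_congr hS (move_dark hS.dark ht) ?_⟩
      intro u hu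
      rw [move_of_ne]
      · rintro rfl
        omega
      · rintro rfl
        simp only [Prod.snd_add] at hu
        omega
  | capture hs hc h => exact ⟨κ, captures_keep hC h hS⟩

/-- White always has a legal move. -/
private lemma legal_exists (hC : C.Ok) {κ : KC} {b : Board} (hS : SealedK C κ b) :
    ∃ b', Legal C.g.N .white b b' := by
  by_cases hcap : CanCapture C.g.N b .white
  · obtain ⟨s, p, d, hc, hj⟩ := hcap
    obtain ⟨b', hb'⟩ := exists_capture hS.dark hj
    exact ⟨b', Legal.capture hj.1 hc hb'⟩
  · have hrow : ∀ u, C.top + 2 ≤ (C.gcell u).2 := by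
      intro u
      unfold Circ.top
      cases u
      · simp only [Circ.gcell, Bool.false_eq_true, if_false]
        omega
      · simp only [Circ.gcell, if_true]
        omega
    have h1 : b (C.gcell κ.a) = wk := by
      rw [hS.high _ (hrow _)]
      exact (kboard_king hC hS.xok).2.2.1
    have hhole : C.Hole (C.gcell !κ.a) := Circ.Hole.g _
    have hdk := hole_dark hC hhole
    obtain ⟨-, -, hi3, hi4, hi5, -, hi7⟩ := cell_inj hC
    have hadj := (cell_adj hC).2.2.2.1 κ.a
    have hne : C.gcell (!κ.a) ≠ C.gcell κ.a := by
      intro he
      rw [he, sub_self] at hadj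
      rcases hadj.1 with h2 | h2 <;> simp at h2
    have h2 : b (C.gcell !κ.a) = none := by
      rw [hS.high _ (hrow _), kboard_else hC hS.xok]
      · exact (board_none_iff hC hdk).2 hhole
      · intro i hi
        exact ((hi3 i (hS.xok i hi)).2.2.1 _).symm
      · intro u _
        exact (hi5 _ _).symm
      · exact hne
      · intro c hc hk
        exact ((hi4 c _ hc hk).2.1 _).symm
      · exact hi7 _ _
    refine ⟨_, Legal.step (d := C.gcell (!κ.a) - C.gcell κ.a) hcap h1 rfl ⟨hadj, Or.inl rfl⟩ ?_ ?_⟩
    · rw [add_sub_cancel]
      exact hdk
    · rw [add_sub_cancel]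
      exact h2

private lemma sealed_aux (hC : C.Ok) {b : Board} {t : Color}
    (hw : MisereWins C.g.N .white b t) : ∀ κ, ¬ SealedK C κ b := by
  induction hw with
  | stuck h =>
    intro κ hS
    obtain ⟨b', hb'⟩ := legal_exists hC hS
    exact h b' hb'
  | own h _ ih =>
    intro κ hS
    obtain ⟨κ', hS'⟩ := legal_keep hC hS h
    exact ih κ' hS'
  | other h _ ih =>
    intro κ hS
    obtain ⟨b', hb'⟩ := h
    obtain ⟨κ', hS'⟩ := legal_keep hC hS hb'
    exact ih b' hb' κ' hS'

theorem sealed_lose (hC : C.Ok) {b : Board} (h : C.Sealed b) (t : Color) :
    ¬ MisereWins C.g.N .white b t := by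
  intro hw
  obtain ⟨κ, hS⟩ := sealedK_of h
  exact sealed_aux hC hw κ hS

end Pool.Agent.MC95
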