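import Pool.Agent.MC95.Data

/-!
# Circuits and their boards

A circuit is a list of tiles, each 28 columns wide. Row `0` of track `k` is row `12 + 8 * k` of the
board.
-/

namespace Pool.Agent.MC95

/-- The kinds of tiles. -/
inductive Kind
  | first | blank | U | M | H | WF | BF | T | Y | UT | G | N1 | NA | NB
  deriving DecidableEq

/-- A tile of a circuit: its kind, its lowest track, the number `reg` of westbound tracks that pass
below it (`0`, `1` or `2`), its part `cor` in the corridor (`0` none, `1` inside, `2` left end, `3`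
right end, `4` next to the corridor), and the initial position `ini` of its king. -/
structure Op where
  kind : Kind
  trk : ℕ
  reg : ℕ
  cor : ℕ
  ini : Bool
  deriving DecidableEq

instance : Inhabited Op := ⟨⟨.blank, 0, 0, 0, false⟩⟩

/-- The number of tracks of a kind. -/
def Kind.n : Kind → ℕ
  | .first => 0
  | .blank => 0
  | .U => 2
  | .M => 2
  | .H => 3
  | .WF => 2
  | .BF => 2
  | .T => 2
  | .Y => 4
  | .UT => 2
  | .G => 2
  | .N1 => 3
  | .NA => 2
  | .NB => 2

/-- The last row of the special part of a tile. -/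
def Kind.ytop : Kind → ℕ
  | .first => 0
  | .blank => 0
  | .U => 12
  | .M => 12
  | .H => 20
  | .WF => 12
  | .BF => 12
  | .T => 26
  | .Y => 28
  | .UT => 11
  | .G => 19
  | .N1 => 20
  | .NA => 12
  | .NB => 12

/-- The static content of the window of a tile. -/
def Kind.st : Kind → LB
  | .first => stBg
  | .blank => stBg
  | .U => stU
  | .M => stM
  | .H => stH
  | .WF => stWF
  | .BF => stBF
  | .T => stT
  | .Y => stY
  | .UT => stUT
  | .G => stG
  | .N1 => stN1
  | .NA => stN2
  | .NB => stN2

/-- The circuit: the list of tiles, the size of the board and the track `sg` of the final gate. -/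
structure Geo where
  ops : List Op
  sg : ℕ

/-- The size of the board. -/
def Geo.N (g : Geo) : ℕ := 28 * g.ops.length

/-- The lowest track of the tiles `T`. -/
abbrev bT : ℕ := 20

/-- The number of westbound tracks below column `x` of a tile. -/
def Op.regAt (op : Op) (x : ℕ) : ℕ :=
  match op.kind with
  | .NB => if x ≤ 12 then 0 else 1
  | .NA => if x ≤ 12 then 1 else 2
  | .N1 => if x ≤ 12 then 2 else 0
  | _ => op.reg

/-- The background: column `x` of a tile, row `y` of the board. -/
def bgc (reg x y : ℕ) : Option Piece :=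
  if (y + 4) % 8 = 0 then (if x % 4 = 0 then wm else bm)
  else if (y + 4) % 8 = 1 then
    (if x % 4 = (if (1 ≤ reg ∧ y = 13) ∨ (2 ≤ reg ∧ y = 21) then 3 else 1) then wm else bm)
  else if (y + 4) % 8 = 2 then (if x % 4 = 2 then bm else wm)
  else if (y + 4) % 8 ≤ 4 then wm
  else bm

/-- The special part of a tile. -/
def Op.InTile (op : Op) (x y : ℕ) : Prop :=
  op.kind ≠ .first ∧ op.kind ≠ .blank ∧ 1 ≤ x ∧ x ≤ 23 ∧ 9 + 8 * op.trk ≤ y ∧
    y ≤ 12 + 8 * op.trk + op.kind.ytop

instance (op : Op) (x y : ℕ) : Decidable (op.InTile x y) := by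
  unfold Op.InTile; infer_instance

/-- The static content of a dark square in column `x` of a tile and row `y` of the board. -/
def cell (N sg : ℕ) (op : Op) (x y : ℕ) : Option Piece :=
  if op.InTile x y then op.kind.st.get x ((y : ℤ) - (12 + 8 * op.trk))
  else if 1 ≤ op.cor ∧ op.cor ≤ 3 ∧ y = 12 + 8 * bT + 23 then
    (if op.cor = 1 ∨ (op.cor = 2 ∧ 14 ≤ x) ∨ (op.cor = 3 ∧ x ≤ 14) then none else bm)
  else if 1 ≤ op.cor ∧ op.cor ≤ 3 ∧ y = 12 + 8 * bT + 24 then
    (if op.cor = 1 ∨ (op.cor = 2 ∧ 14 ≤ x) ∨ (op.cor = 3 ∧ x ≤ 14) then none else wm)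
  else if 1 ≤ op.cor ∧ op.cor ≤ 3 ∧ (y = 12 + 8 * bT + 25 ∨ y = 12 + 8 * bT + 26) then wm
  else if op.kind = .first ∧ ((x = 0 ∧ y + 2 = N) ∨ (x = 1 ∧ y + 1 = N)) then none
  else if 12 + 8 * sg + 22 ≤ y then bm
  else if 12 + 8 * sg + 19 ≤ y then wm
  else if 12 + 8 * sg + 14 ≤ y then bm
  else if 12 + 8 * sg + 11 ≤ y then wm
  else bgc (op.regAt x) x y

/-- The static board of a circuit, without kings. -/
def Geo.board (g : Geo) : Board := fun s =>
  if IsDark g.N s then
    cell g.N g.sg (g.ops.getD (s.1.toNat / 28) default) (s.1.toNat % 28) s.2.toNat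
  else none

/-- Positions of the kings: the king in N1 (`none`: captured; `some true`: lower square), the king in
the corridor (`none`: captured), the king in the gate (`false`: lower square), the Black kings in
the tiles `Y` (by column; `true`: lower square), and the Black king in the corner (`true`: upper
square). -/
structure KC where
  al : Option Bool
  x : Option ℕ
  a : Bool
  y : ℕ → Bool
  tog : Bool

/-- The row (relative to the first row of track `bT`) of the square of the corridor in column `x` of
a tile. -/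
def corRow (op : Op) (x : ℕ) : ℕ :=
  if op.kind = .T ∧ 2 ≤ x ∧ x ≤ 22 then 14 + (x - 12) + (12 - x)
  else if x % 2 = 1 then 23 else 24

/-- The king in column `x` of the tile `op` in column `c` and row `y`; `cL` is the column of the
left end of the corridor. -/
def kingAt (N cL : ℕ) (κ : KC) (op : Op) (c x y : ℕ) : Option Piece :=
  if κ.x = some (28 * c + x - (28 * cL + 14)) ∧ 28 * cL + 14 ≤ 28 * c + x ∧
      1 ≤ op.cor ∧ op.cor ≤ 3 ∧ y = 12 + 8 * bT + corRow op x then wk
  else match op.kind with
  | .N1 =>
    if (κ.al = some true ∧ x = 14 ∧ y = 12 + 8) ∨ (κ.al = some false ∧ x = 15 ∧ y = 12 + 9) then wk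
    else none
  | .G =>
    if (κ.a = false ∧ x = 14 ∧ y = 12 + 8 * op.trk + 18) ∨
      (κ.a = true ∧ x = 15 ∧ y = 12 + 8 * op.trk + 19) then wk else none
  | .Y =>
    if (κ.y c = true ∧ x = 10 ∧ y = 12 + 8 * op.trk + 12) ∨
      (κ.y c = false ∧ x = 9 ∧ y = 12 + 8 * op.trk + 13) then bk else none
  | .first =>
    if (κ.tog = false ∧ x = 0 ∧ y + 2 = N) ∨ (κ.tog = true ∧ x = 1 ∧ y + 1 = N) then bk else none
  | _ => none

/-- The board with kings. -/
def Geo.kboard (g : Geo) (cL : ℕ) (κ : KC) : Board := fun s =>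
  if IsDark g.N s then
    match kingAt g.N cL κ (g.ops.getD (s.1.toNat / 28) default) (s.1.toNat / 28)
      (s.1.toNat % 28) s.2.toNat with
    | some p => some p
    | none => cell g.N g.sg (g.ops.getD (s.1.toNat / 28) default) (s.1.toNat % 28) s.2.toNat
  else none

end Pool.Agent.MC95
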