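import Pool.Agent.MC95.Win
import Pool.Agent.MC95.Quiet

/-!
# Boards with a westbound wave

Definitions.
-/

namespace Pool.Agent.MC95

variable {C : Circ} {κ : KC} {al : Bool}

/-- The column of the tile where the westbound wave turns. -/
def Circ.ct (C : Circ) (al : Bool) : ℕ := if al then C.cB else C.cA

/-- The board with a westbound wave whose anchor is in column `28 * c`. -/
def Circ.wb (C : Circ) (al : Bool) (κ : KC) (c : ℕ) : Board :=
  C.g.wboard C.cL C.cN al (κ.dead false al) c

/-- The only possible jump is that of the westbound wave. -/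
def Circ.WJump (C : Circ) (al : Bool) (κ : KC) (c : ℕ) : Prop :=
  OnlyJump C.g.N (C.wb al κ c) (28 * (c : ℤ) - 4, 12 + 8 * (wtrk al : ℤ)) (1, 1)

end Pool.Agent.MC95
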