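import Pool.Agent.MC95.WDefs

/-!
# The launch

PLAN. `launch`: the board `C.g.lboard C.cL C.cN al κ` in the frame at `cN` with `Y = 12`, `zl = 5`,
`zn = 21` has the local board of `chkL al`; the possible jumps touch one of the two changed squares
(`kboard_quiet`), which are in the zone. `run_sound` with `chk_L`; the resulting board is
`C.g.wboard C.cL C.cN al κ' C.cN` (compare in the window by `finW`, outside by `Frame.EqOff`: the
boards `kboard κ`, `eboard κ'` and `wboard` agree outside of the zone; note that for `al = true` the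
king is captured, `κ' = κ.dead false true`, and for `al = false` it stays, `κ' = κ.dead false false`).
-/

namespace Pool.Agent.MC95

variable {C : Circ} {κ : KC} {al : Bool}

/-! ### finite checks -/

/-- the background in the window of N1 -/
private def wlBg (x y : ℤ) : Option Piece :=
  bgc (if x ≤ 12 then 2 else 0) ((x + 28).toNat % 28) (12 + y).toNat

private def wlCN (a b : ℕ) : Bool :=
  decide ((a + b) % 2 = 0) || decide (5 ≤ a ∧ a ≤ 27 ∧ b ≤ 23) ||
    decide (stN1.get ((a : ℤ) - 4) ((b : ℤ) - 3) = wlBg ((a : ℤ) - 4) ((b : ℤ) - 3))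

private def wlCD (al : Bool) (a b : ℕ) : Bool :=
  decide ((a + b) % 2 = 1) || !decide (a = 28 ∨ b < 3 ∨ b = 28) ||
    decide ((dirty al).get (a : ℤ) ((b : ℤ) - 6) = wlBg (a : ℤ) ((b : ℤ) - 6))

private theorem wl_chkN : (List.range 33).all (fun a => (List.range 25).all (wlCN a)) = true := by
  decide +kernel

private theorem wl_chkD (al : Bool) :
    (List.range 29).all (fun a => (List.range 29).all (wlCD al a)) = true := by
  cases al <;> decide +kernel

private theorem wl_stN1 {x y : ℤ} (hx : -4 ≤ x) (hx1 : x ≤ 28) (hy : -3 ≤ y) (hy1 : y ≤ 21)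
    (hd : 2 ∣ x + y) (h : ¬ (1 ≤ x ∧ x ≤ 23 ∧ y ≤ 20)) : stN1.get x y = wlBg x y := by
  obtain ⟨a, ha⟩ : ∃ a : ℕ, (a : ℤ) = x + 4 := ⟨(x + 4).toNat, by omega⟩
  obtain ⟨b, hb⟩ : ∃ b : ℕ, (b : ℤ) = y + 3 := ⟨(y + 3).toNat, by omega⟩
  have h1 := List.all_eq_true.1 (List.all_eq_true.1 wl_chkN a (List.mem_range.2 (by omega))) b
    (List.mem_range.2 (by omega))
  simp only [wlCN, Bool.or_eq_true, decide_eq_true_eq] at h1
  rw [show (a : ℤ) - 4 = x by omega, show (b : ℤ) - 3 = y by omega] at h1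
  rcases h1 with (h1 | h1) | h1
  · omega
  · omega
  · exact h1

private theorem wl_dirty {x y : ℤ} (hx : 0 ≤ x) (hx1 : x ≤ 28) (hy : -6 ≤ y) (hy1 : y ≤ 22)
    (hd : 2 ∣ x + y) (h : x = 28 ∨ y < -3 ∨ y = 22) : (dirty al).get x y = wlBg x y := by
  obtain ⟨a, ha⟩ : ∃ a : ℕ, (a : ℤ) = x := ⟨x.toNat, by omega⟩
  obtain ⟨b, hb⟩ : ∃ b : ℕ, (b : ℤ) = y + 6 := ⟨(y + 6).toNat, by omega⟩
  have h1 := List.all_eq_true.1 (List.all_eq_true.1 (wl_chkD al) a (List.mem_range.2 (by omega))) b
    (List.mem_range.2 (by omega))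
  simp only [wlCD, Bool.or_eq_true, decide_eq_true_eq, Bool.not_eq_true', decide_eq_false_iff_not]
    at h1
  rw [ha, show (b : ℤ) - 6 = y by omega] at h1
  rcases h1 with (h1 | h1) | h1
  · omega
  · omega
  · exact h1

/-! ### bits -/

private theorem wl_clr_bit (n i j : ℕ) :
    (if n.testBit i then n ^^^ (1 <<< i) else n).testBit j = (decide (j ≠ i) && n.testBit j) := by
  by_cases h : n.testBit i = true
  · rw [if_pos h, Nat.testBit_xor, Nat.one_shiftLeft, Nat.testBit_two_pow]
    by_cases h2 : j = i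
    · subst h2; simp [h]
    · have h3 : ¬ i = j := fun h => h2 h.symm
      simp [h2, h3]
  · rw [if_neg h]
    by_cases h2 : j = i
    · subst h2; simpa using h
    · simp [h2]

private theorem wl_set_bit (n i j : ℕ) :
    (n ||| (1 <<< i)).testBit j = (n.testBit j || decide (i = j)) := by
  rw [Nat.testBit_or, Nat.one_shiftLeft, Nat.testBit_two_pow]

private theorem wl_get_put (L : LB) (x y x' y' : ℤ) (o : Option Piece) (hx : -4 ≤ x)
    (hx1 : x ≤ 59) (hy : -6 ≤ y) (hx' : -4 ≤ x') (hx1' : x' ≤ 59) (hy' : -6 ≤ y') :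
    (L.put x y o).get x' y' = if x' = x ∧ y' = y then o else L.get x' y' := by
  by_cases h : x' = x ∧ y' = y
  · obtain ⟨rfl, rfl⟩ := h
    rw [if_pos ⟨rfl, rfl⟩]
    rcases o with _ | ⟨_ | _, _ | _⟩ <;>
      simp only [LB.put, LB.get, wl_clr_bit, wl_set_bit] <;> simp
  · have hne : ¬ ix x' y' = ix x y := fun h2 => h (ix_inj hx' hx1' hy' hx hx1 hy h2)
    have hne' : ¬ ix x y = ix x' y' := fun h2 => hne h2.symm
    rw [if_neg h]
    rcases o with _ | ⟨_ | _, _ | _⟩ <;>
      simp only [LB.put, LB.get, wl_clr_bit, wl_set_bit] <;> simp [hne, hne']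

private theorem wl_get_portW (L : LB) (t : ℕ) (x y : ℤ)
    (hx : -4 ≤ x) (hx1 : x ≤ 28) (hy : -6 ≤ y) :
    (L.portW 0 t).get x y = if x = 0 ∧ y = 8 * t then bm
      else if (x = -1 ∧ y = 8 * t + 1) ∨ (x = -2 ∧ y = 8 * t + 2) then none
      else L.get x y := by
  unfold LB.portW
  rw [wl_get_put _ _ _ _ _ _ (by omega) (by omega) (by omega) hx (by omega) hy,
    wl_get_put _ _ _ _ _ _ (by omega) (by omega) (by omega) hx (by omega) hy,
    wl_get_put _ _ _ _ _ _ (by omega) (by omega) (by omega) hx (by omega) hy]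
  split_ifs <;> first | rfl | (exfalso; omega)

private theorem wl_rows (f : ℕ → ℕ) (lo n : ℕ) {a b : ℕ} (h1 : lo ≤ b) (h2 : b < lo + n)
    (h3 : (f b).testBit a = true) : (rows f lo n).testBit (a + 64 * b) = true := by
  induction n with
  | zero => omega
  | succ n ih =>
    rw [rows, Nat.testBit_or, Bool.or_eq_true]
    rcases Nat.lt_or_ge b (lo + n) with h | h
    · exact Or.inl (ih h)
    · right
      have h4 : b = lo + n := by omega
      subst h4
      rw [Nat.testBit_shiftLeft]
      simp [h3]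

private theorem wl_geM {lo n : ℕ} {x y : ℤ} (hx : 0 ≤ x) (hx1 : x ≤ 28) (hy : -6 ≤ y)
    (h1 : (lo : ℤ) ≤ y + 6) (h2 : y + 6 < lo + n) : (geM lo n).testBit (ix x y) = true := by
  unfold geM ix
  refine wl_rows _ _ _ (by omega) (by omega) ?_
  have h3 : ∀ k < 33, 4 ≤ k → (31 * (2 ^ 28) + (2 ^ 28 - 16) : ℕ).testBit k = true := by
    decide +kernel
  exact h3 _ (by omega) (by omega)

private theorem wl_ltM {lo n : ℕ} {x y : ℤ} (hx : -4 ≤ x) (hx1 : x < 0) (hy : -6 ≤ y)
    (h1 : (lo : ℤ) ≤ y + 6) (h2 : y + 6 < lo + n) : (ltM lo n).testBit (ix x y) = true := by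
  unfold ltM ix
  refine wl_rows _ _ _ (by omega) (by omega) ?_
  have h3 : ∀ k < 4, (15 : ℕ).testBit k = true := by decide +kernel
  exact h3 _ (by omega)

private theorem wl_full {lo n : ℕ} {x y : ℤ} (hx : -4 ≤ x) (hx1 : x ≤ 28) (hy : -6 ≤ y)
    (h1 : (lo : ℤ) ≤ y + 6) (h2 : y + 6 < lo + n) :
    (full lo n).testBit (ix x y) = true ↔ 2 ∣ x + y := by
  rw [testBit_full]
  constructor
  · rintro ⟨a, b, ha, hb1, hb2, hab, hi⟩
    have h3 := ix_eq hx hy
    rw [hi] at h3
    omega
  · intro h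
    refine ⟨(x + 4).toNat, (y + 6).toNat, by omega, by omega, by omega, by omega, rfl⟩

private theorem wl_get_light {L : LB} {lo n : ℕ} (h : L.wf (full lo n) = true) {x y : ℤ}
    (hx : -4 ≤ x) (hx1 : x ≤ 28) (hy : -6 ≤ y) (h1 : (lo : ℤ) ≤ y + 6) (h2 : y + 6 < lo + n)
    (hd : ¬ 2 ∣ x + y) : L.get x y = none := by
  have h3 : ¬ (full lo n).testBit (ix x y) = true := fun h3 => hd ((wl_full hx hx1 hy h1 h2).1 h3)
  have h4 : ∀ a : ℕ, a ||| full lo n = full lo n → a.testBit (ix x y) = false := by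
    intro a ha
    cases h5 : a.testBit (ix x y)
    · rfl
    · refine absurd ?_ h3
      rw [← ha, Nat.testBit_or, h5, Bool.true_or]
  unfold LB.wf at h
  simp only [Bool.and_eq_true, decide_eq_true_eq] at h
  unfold LB.get
  rw [h4 _ h.1.1.1, h4 _ h.1.1.2]
  simp

/-! ### static content -/

private theorem wl_cell {N sg : ℕ} {o : Op} {x y : ℕ} (h1 : ¬ o.InTile x y)
    (h2 : o.cor = 0 ∨ o.cor = 4) (h3 : o.kind ≠ .first) (h4 : y < 12 + 8 * sg + 11) :
    cell N sg o x y = bgc (o.regAt x) x y := by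
  unfold cell
  rw [if_neg h1, if_neg (by omega), if_neg (by omega), if_neg (by omega), if_neg (fun h => h3 h.1),
    if_neg (by omega), if_neg (by omega), if_neg (by omega), if_neg (by omega)]

private theorem wl_king {N cL : ℕ} {κ : KC} {o : Op} {c x y : ℕ} (h2 : o.cor = 0 ∨ o.cor = 4)
    (h3 : o.kind ≠ .first) (h4 : o.kind ≠ .N1) (h5 : x = 0 ∨ 24 ≤ x) :
    kingAt N cL κ o c x y = none := by
  unfold kingAt
  rw [if_neg (by omega)]
  rcases hk : o.kind <;> simp only []
  all_goals first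
    | rfl
    | exact absurd hk h3
    | exact absurd hk h4
    | (rw [if_neg (by omega)])

private theorem wl_kingN {N cL : ℕ} {κ : KC} {o : Op} {c x y : ℕ} (h2 : o.cor = 0)
    (h4 : o.kind = .N1) : kingAt N cL κ o c x y =
      if (κ.al = some true ∧ x = 14 ∧ y = 20) ∨ (κ.al = some false ∧ x = 15 ∧ y = 21) then wk
      else none := by
  unfold kingAt
  rw [if_neg (by omega), h4]

/-- the kings do not change outside of the tile N1 -/
private theorem wl_kingD {N cL : ℕ} {κ : KC} {o : Op} {c x y : ℕ}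
    (h : o.kind ≠ .N1 ∨ ¬ ((x = 14 ∧ y = 20) ∨ (x = 15 ∧ y = 21))) :
    kingAt N cL (κ.dead false al) o c x y = kingAt N cL κ o c x y := by
  unfold kingAt KC.dead
  simp only [Bool.false_eq_true, if_false]
  refine if_congr Iff.rfl rfl ?_
  rcases hk : o.kind <;> simp only []
  rw [hk] at h
  have h1 := h.resolve_left (fun h => h rfl)
  rw [if_neg (by omega), if_neg (by omega)]

private theorem wl_kboard {g : Geo} {cL : ℕ} {κ : KC} {c x y : ℕ} (hx : x < 28) :
    g.kboard cL κ (28 * (c : ℤ) + x, (y : ℤ)) =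
      if IsDark g.N (28 * (c : ℤ) + x, (y : ℤ)) then
        match kingAt g.N cL κ (g.ops.getD c default) c x y with
        | some p => some p
        | none => cell g.N g.sg (g.ops.getD c default) x y
      else none := by
  have h1 : (28 * (c : ℤ) + x).toNat / 28 = c := by omega
  have h2 : (28 * (c : ℤ) + x).toNat % 28 = x := by omega
  have h3 : ((y : ℕ) : ℤ).toNat = y := by omega
  unfold Geo.kboard
  simp only [h1, h2, h3]
  rfl

private theorem wl_eboard {g : Geo} {cL cN : ℕ} {κ : KC} {c x y : ℕ} (hx : x < 28) :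
    g.eboard cL cN al κ (28 * (c : ℤ) + x, (y : ℤ)) =
      if IsDark g.N (28 * (c : ℤ) + x, (y : ℤ)) then
        match kingAt g.N cL κ (g.ops.getD c default) c x y with
        | some p => some p
        | none => ecell g.N g.sg cN al (g.ops.getD c default) c x y
      else none := by
  have h1 : (28 * (c : ℤ) + x).toNat / 28 = c := by omega
  have h2 : (28 * (c : ℤ) + x).toNat % 28 = x := by omega
  have h3 : ((y : ℕ) : ℤ).toNat = y := by omega
  unfold Geo.eboard
  simp only [h1, h2, h3]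
  rfl

/-! ### the window of N1 -/

/-- the circuit near the tile N1 -/
private theorem wl_near (hC : C.Ok) : ∃ cP, C.cN = cP + 1 ∧ 1 ≤ cP ∧
    C.cN + 1 < C.g.ops.length ∧
    ((C.op C.cN).kind = .N1 ∧ (C.op C.cN).trk = 0 ∧ (C.op C.cN).cor = 0) ∧
    (((C.op cP).cor = 0 ∨ (C.op cP).cor = 4) ∧ (C.op cP).kind ≠ .first ∧ (C.op cP).kind ≠ .N1 ∧
      ∀ x, (C.op cP).regAt x = 2) ∧
    (((C.op (C.cN + 1)).cor = 0 ∨ (C.op (C.cN + 1)).cor = 4) ∧
      (C.op (C.cN + 1)).kind ≠ .first ∧ (C.op (C.cN + 1)).kind ≠ .N1 ∧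
      (C.op (C.cN + 1)).regAt 0 = 0) := by
  have hB := hC.hB
  have hBA := hC.hBA
  have hAL := hC.hAL
  have hLR := hC.hLR
  have hRN := hC.hRN
  have hNG := hC.hNG
  have hG := hC.hG
  obtain ⟨cP, hcP⟩ : ∃ cP, C.cN = cP + 1 := ⟨C.cN - 1, by omega⟩
  have hN : C.cN < C.g.ops.length := by omega
  have h1 : (C.op C.cN).kind = .N1 := (hC.n1 _ hN).2 rfl
  have h2 := hC.tiles _ hN
  unfold OpOk at h2
  rw [h1] at h2
  have h3 : (C.op C.cN).trk = 0 ∧ (C.op C.cN).cor = 0 := h2.2.2
  have hf1 := hC.fit cP (by omega)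
  rw [← hcP] at hf1
  have hf2 := hC.fit C.cN (by omega)
  have hP : cP < C.g.ops.length := by omega
  have hQ : C.cN + 1 < C.g.ops.length := by omega
  have k1 : (C.op cP).kind ≠ .first := fun h => by have := (hC.first _ hP).1 h; omega
  have k2 : (C.op cP).kind ≠ .N1 := fun h => by have := (hC.n1 _ hP).1 h; omega
  have k3 : (C.op cP).kind ≠ .NA := fun h => by have := (hC.na _ hP).1 h; omega
  have k4 : (C.op cP).kind ≠ .NB := fun h => by have := (hC.nb _ hP).1 h; omega
  have k5 : (C.op (C.cN + 1)).kind ≠ .first := fun h => by have := (hC.first _ hQ).1 h; omega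
  have k6 : (C.op (C.cN + 1)).kind ≠ .N1 := fun h => by have := (hC.n1 _ hQ).1 h; omega
  have hreg : (C.op cP).reg = 2 := hC.reg2 cP hP (by omega) (by omega)
  refine ⟨cP, hcP, by omega, hQ, ⟨h1, h3.1, h3.2⟩, ⟨hf1.2.2 h3.2, k1, k2, fun x => ?_⟩,
    ⟨hf2.2.1 h3.2, k5, k6, ?_⟩⟩
  · unfold Op.regAt
    rcases hk : (C.op cP).kind <;> simp only []
    all_goals first
      | exact hreg
      | exact absurd hk k2
      | exact absurd hk k3
      | exact absurd hk k4
  · rw [hf2.1]
    unfold Op.regAt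
    rw [h1]
    simp

/-- the content of a dark square of the window of N1 -/
private theorem wl_winK (hC : C.Ok) {x y : ℤ} (hx : -4 ≤ x) (hx1 : x ≤ 28) (hy : -3 ≤ y)
    (hy1 : y ≤ 21) (hd : 2 ∣ x + y) :
    C.g.kboard C.cL κ (28 * (C.cN : ℤ) + x, 12 + y) =
      if (κ.al = some true ∧ x = 14 ∧ y = 8) ∨ (κ.al = some false ∧ x = 15 ∧ y = 9) then wk
      else stN1.get x y := by
  obtain ⟨cP, hcP, hP1, hlen, ⟨n1, n2, n3⟩, ⟨p1, p2, p3, p4⟩, ⟨q1, q2, q3, q4⟩⟩ := wl_near hC
  have hsg := hC.sg24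
  have hsize := hC.size
  have hNN : C.g.N = 28 * C.g.ops.length := rfl
  obtain ⟨b, hb⟩ : ∃ b : ℕ, (b : ℤ) = 12 + y := ⟨(12 + y).toNat, by omega⟩
  have hbt : (12 + y).toNat = b := by omega
  have hdk : ∀ (c : ℕ) (a : ℕ), 28 * (c : ℤ) + a = 28 * (C.cN : ℤ) + x →
      IsDark C.g.N (28 * (c : ℤ) + a, (b : ℤ)) := by
    intro c a hca
    refine ⟨?_, ?_, ?_, ?_, ?_⟩ <;> simp only <;> omega
  by_cases h1 : x < 0
  · obtain ⟨a, ha⟩ : ∃ a : ℕ, (a : ℤ) = x + 28 := ⟨(x + 28).toNat, by omega⟩
    have hs : (28 * (C.cN : ℤ) + x, 12 + y) = (28 * (cP : ℤ) + a, (b : ℤ)) := by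
      refine Prod.ext ?_ ?_ <;> simp only <;> omega
    rw [hs, wl_kboard (by omega), if_pos (hdk cP a (by omega)), if_neg (by omega),
      wl_stN1 hx hx1 hy hy1 hd (by omega)]
    have e1 : kingAt C.g.N C.cL κ (C.g.ops.getD cP default) cP a b = none :=
      wl_king p1 p2 p3 (by omega)
    have e2 : cell C.g.N C.g.sg (C.g.ops.getD cP default) a b =
        bgc ((C.op cP).regAt a) a b := wl_cell (fun h => by
          have := h.2.2.2.1
          omega) p1 p2 (by omega)
    rw [e1]
    show cell C.g.N C.g.sg (C.g.ops.getD cP default) a b = _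
    rw [e2, p4, wlBg, if_pos (by omega), hbt]
    congr 1
    omega
  · by_cases h2 : x = 28
    · have hs : (28 * (C.cN : ℤ) + x, 12 + y) = (28 * ((C.cN + 1 : ℕ) : ℤ) + (0 : ℕ), (b : ℤ)) := by
        refine Prod.ext ?_ ?_ <;> simp only <;> push_cast <;> omega
      rw [hs, wl_kboard (by omega), if_pos (hdk (C.cN + 1) 0 (by push_cast; omega)),
        if_neg (by omega), wl_stN1 hx hx1 hy hy1 hd (by omega)]
      have e1 : kingAt C.g.N C.cL κ (C.g.ops.getD (C.cN + 1) default) (C.cN + 1) 0 b = none :=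
        wl_king q1 q2 q3 (by omega)
      have e2 : cell C.g.N C.g.sg (C.g.ops.getD (C.cN + 1) default) 0 b =
          bgc ((C.op (C.cN + 1)).regAt 0) 0 b := wl_cell (fun h => by
            have := h.2.2.1
            omega) q1 q2 (by omega)
      rw [e1]
      show cell C.g.N C.g.sg (C.g.ops.getD (C.cN + 1) default) 0 b = _
      rw [e2, q4, wlBg, if_neg (by omega), hbt, h2]
      rfl
    · obtain ⟨a, ha⟩ : ∃ a : ℕ, (a : ℤ) = x := ⟨x.toNat, by omega⟩
      have hs : (28 * (C.cN : ℤ) + x, 12 + y) = (28 * (C.cN : ℤ) + a, (b : ℤ)) := by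
        refine Prod.ext ?_ ?_ <;> simp only <;> omega
      rw [hs, wl_kboard (by omega), if_pos (hdk C.cN a (by omega))]
      have e1 : kingAt C.g.N C.cL κ (C.g.ops.getD C.cN default) C.cN a b =
          if (κ.al = some true ∧ x = 14 ∧ y = 8) ∨ (κ.al = some false ∧ x = 15 ∧ y = 9) then wk
          else none := by
        have e0 := wl_kingN (N := C.g.N) (cL := C.cL) (κ := κ) (c := C.cN) (x := a) (y := b) n3 n1
        refine e0.trans (if_congr ?_ rfl rfl)
        constructor
        · rintro (⟨h3, h4, h5⟩ | ⟨h3, h4, h5⟩)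
          · exact Or.inl ⟨h3, by omega, by omega⟩
          · exact Or.inr ⟨h3, by omega, by omega⟩
        · rintro (⟨h3, h4, h5⟩ | ⟨h3, h4, h5⟩)
          · exact Or.inl ⟨h3, by omega, by omega⟩
          · exact Or.inr ⟨h3, by omega, by omega⟩
      have e2 : cell C.g.N C.g.sg (C.g.ops.getD C.cN default) a b = stN1.get x y := by
        have hop : C.g.ops.getD C.cN default = C.op C.cN := rfl
        rw [hop]
        by_cases h3 : (C.op C.cN).InTile a b
        · unfold cell
          rw [if_pos h3, n1, n2]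
          show stN1.get _ _ = _
          congr 1
          push_cast
          omega
        · have h4 : ¬ (1 ≤ x ∧ x ≤ 23 ∧ y ≤ 20) := by
            intro h4
            apply h3
            refine ⟨?_, ?_, ?_, ?_, ?_, ?_⟩
            · rw [n1]; simp
            · rw [n1]; simp
            · omega
            · omega
            · rw [n2]; omega
            · rw [n2, n1]
              show b ≤ 12 + 8 * 0 + 20
              omega
          rw [wl_cell h3 (Or.inl n3) (by rw [n1]; simp) (by omega), wl_stN1 hx hx1 hy hy1 hd h4,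
            wlBg, hbt]
          congr 1
          · unfold Op.regAt
            rw [n1]
            simp only
            refine if_congr ?_ rfl rfl
            omega
          · omega
      rw [e1, e2]
      split_ifs <;> rfl

/-- the content of a dark square of the window of N1 after the launch -/
private theorem wl_winE (hC : C.Ok) {x y : ℤ} (hx : 0 ≤ x) (hx1 : x ≤ 28) (hy : -3 ≤ y)
    (hy1 : y ≤ 21) (hd : 2 ∣ x + y) :
    C.g.eboard C.cL C.cN al κ (28 * (C.cN : ℤ) + x, 12 + y) =
      if (κ.al = some true ∧ x = 14 ∧ y = 8) ∨ (κ.al = some false ∧ x = 15 ∧ y = 9) then wk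
      else (dirty al).get x y := by
  obtain ⟨cP, hcP, hP1, hlen, ⟨n1, n2, n3⟩, ⟨p1, p2, p3, p4⟩, ⟨q1, q2, q3, q4⟩⟩ := wl_near hC
  have hsg := hC.sg24
  have hsize := hC.size
  have hNN : C.g.N = 28 * C.g.ops.length := rfl
  obtain ⟨b, hb⟩ : ∃ b : ℕ, (b : ℤ) = 12 + y := ⟨(12 + y).toNat, by omega⟩
  have hbt : (12 + y).toNat = b := by omega
  have hdk : ∀ (c : ℕ) (a : ℕ), 28 * (c : ℤ) + a = 28 * (C.cN : ℤ) + x →
      IsDark C.g.N (28 * (c : ℤ) + a, (b : ℤ)) := by
    intro c a hca
    refine ⟨?_, ?_, ?_, ?_, ?_⟩ <;> simp only <;> omega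
  by_cases h2 : x = 28
  · have hs : (28 * (C.cN : ℤ) + x, 12 + y) = (28 * ((C.cN + 1 : ℕ) : ℤ) + (0 : ℕ), (b : ℤ)) := by
      refine Prod.ext ?_ ?_ <;> simp only <;> push_cast <;> omega
    rw [hs, wl_eboard (by omega), if_pos (hdk (C.cN + 1) 0 (by push_cast; omega)),
      if_neg (by omega), wl_dirty hx hx1 (by omega) (by omega) hd (Or.inl h2)]
    have e1 : kingAt C.g.N C.cL κ (C.g.ops.getD (C.cN + 1) default) (C.cN + 1) 0 b = none :=
      wl_king q1 q2 q3 (by omega)
    have e3 : ecell C.g.N C.g.sg C.cN al (C.g.ops.getD (C.cN + 1) default) (C.cN + 1) 0 b =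
        cell C.g.N C.g.sg (C.g.ops.getD (C.cN + 1) default) 0 b := by
      unfold ecell
      rw [if_neg (by omega), if_neg (by omega), if_neg (by omega), if_neg (by omega)]
    have e2 : cell C.g.N C.g.sg (C.g.ops.getD (C.cN + 1) default) 0 b =
        bgc ((C.op (C.cN + 1)).regAt 0) 0 b := wl_cell (fun h => by
          have := h.2.2.1
          omega) q1 q2 (by omega)
    rw [e1]
    show ecell C.g.N C.g.sg C.cN al (C.g.ops.getD (C.cN + 1) default) (C.cN + 1) 0 b = _
    rw [e3, e2, q4, wlBg, if_neg (by omega), hbt, h2]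
    rfl
  · obtain ⟨a, ha⟩ : ∃ a : ℕ, (a : ℤ) = x := ⟨x.toNat, by omega⟩
    have hs : (28 * (C.cN : ℤ) + x, 12 + y) = (28 * (C.cN : ℤ) + a, (b : ℤ)) := by
      refine Prod.ext ?_ ?_ <;> simp only <;> omega
    rw [hs, wl_eboard (by omega), if_pos (hdk C.cN a (by omega))]
    have e1 : kingAt C.g.N C.cL κ (C.g.ops.getD C.cN default) C.cN a b =
        if (κ.al = some true ∧ x = 14 ∧ y = 8) ∨ (κ.al = some false ∧ x = 15 ∧ y = 9) then wk
        else none := by
      have e0 := wl_kingN (N := C.g.N) (cL := C.cL) (κ := κ) (c := C.cN) (x := a) (y := b) n3 n1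
      refine e0.trans (if_congr ?_ rfl rfl)
      constructor
      · rintro (⟨h3, h4, h5⟩ | ⟨h3, h4, h5⟩)
        · exact Or.inl ⟨h3, by omega, by omega⟩
        · exact Or.inr ⟨h3, by omega, by omega⟩
      · rintro (⟨h3, h4, h5⟩ | ⟨h3, h4, h5⟩)
        · exact Or.inl ⟨h3, by omega, by omega⟩
        · exact Or.inr ⟨h3, by omega, by omega⟩
    have e2 : ecell C.g.N C.g.sg C.cN al (C.g.ops.getD C.cN default) C.cN a b =
        (dirty al).get x y := by
      unfold ecell
      rw [if_pos ⟨rfl, by omega, by omega⟩, ha]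
      congr 1
      omega
    rw [e1, e2]
    split_ifs <;> rfl

/-- the static content outside of the window -/
private theorem wl_outE (hC : C.Ok) {s : Square} (h1 : 28 * (C.cN : ℤ) ≤ s.1)
    (h2 : ¬ (s.1 - 28 * (C.cN : ℤ) ≤ 28 ∧ -3 ≤ s.2 - 12 ∧ s.2 - 12 ≤ 21)) :
    C.g.eboard C.cL C.cN al κ s = C.g.kboard C.cL κ s := by
  obtain ⟨cP, hcP, hP1, hlen, ⟨n1, n2, n3⟩, ⟨p1, p2, p3, p4⟩, ⟨q1, q2, q3, q4⟩⟩ := wl_near hC
  have hsg := hC.sg24
  by_cases hd : IsDark C.g.N s
  · obtain ⟨c, hc⟩ : ∃ c : ℕ, c = s.1.toNat / 28 := ⟨_, rfl⟩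
    obtain ⟨a, ha⟩ : ∃ a : ℕ, a = s.1.toNat % 28 := ⟨_, rfl⟩
    obtain ⟨b, hb⟩ : ∃ b : ℕ, b = s.2.toNat := ⟨_, rfl⟩
    obtain ⟨d1, d2, d3, d4, d5⟩ := hd
    have hs : s = (28 * (c : ℤ) + a, (b : ℤ)) := by
      refine Prod.ext ?_ ?_ <;> simp only <;> omega
    have ha1 : a < 28 := by omega
    rw [hs, wl_eboard ha1, wl_kboard ha1]
    have e3 : ecell C.g.N C.g.sg C.cN al (C.g.ops.getD c default) c a b =
        cell C.g.N C.g.sg (C.g.ops.getD c default) a b := by
      unfold ecell
      have hcN : C.cN ≤ c := by omega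
      by_cases h3 : c = C.cN ∧ 6 ≤ b ∧ b ≤ 34
      · rw [if_pos h3]
        have hop : C.g.ops.getD c default = C.op C.cN := by rw [h3.1]; rfl
        have h4 : ¬ (C.op C.cN).InTile a b := by
          intro h4
          have h5 := h4.2.2.2.2.1
          have h6 := h4.2.2.2.2.2
          rw [n2] at h5 h6
          rw [n1] at h6
          have h7 : b ≤ 12 + 8 * 0 + 20 := h6
          omega
        rw [hop, wl_cell h4 (Or.inl n3) (by rw [n1]; simp) (by omega),
          wl_dirty (by omega) (by omega) (by omega) (by omega) (by omega) (by omega), wlBg]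
        congr 1
        · unfold Op.regAt
          rw [n1]
          simp only
          refine if_congr ?_ rfl rfl
          omega
        · omega
        · omega
      · rw [if_neg h3, if_neg (by omega), if_neg (by omega), if_neg (by omega)]
    rw [e3]
  · unfold Geo.eboard Geo.kboard
    rw [if_neg hd, if_neg hd]

private theorem wl_outK (hC : C.Ok) {s : Square} (h1 : s ≠ (28 * (C.cN : ℤ) + 14, 20))
    (h2 : s ≠ (28 * (C.cN : ℤ) + 15, 21)) :
    C.g.kboard C.cL (κ.dead false al) s = C.g.kboard C.cL κ s := by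
  by_cases hd : IsDark C.g.N s
  · obtain ⟨c, hc⟩ : ∃ c : ℕ, c = s.1.toNat / 28 := ⟨_, rfl⟩
    obtain ⟨a, ha⟩ : ∃ a : ℕ, a = s.1.toNat % 28 := ⟨_, rfl⟩
    obtain ⟨b, hb⟩ : ∃ b : ℕ, b = s.2.toNat := ⟨_, rfl⟩
    obtain ⟨d1, d2, d3, d4, d5⟩ := hd
    have hNN : C.g.N = 28 * C.g.ops.length := rfl
    have hs : s = (28 * (c : ℤ) + a, (b : ℤ)) := by
      refine Prod.ext ?_ ?_ <;> simp only <;> omega
    have ha1 : a < 28 := by omega
    have hcl : c < C.g.ops.length := by omega
    have e : kingAt C.g.N C.cL (κ.dead false al) (C.g.ops.getD c default) c a b =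
        kingAt C.g.N C.cL κ (C.g.ops.getD c default) c a b := by
      apply wl_kingD
      by_cases hk : (C.g.ops.getD c default).kind = .N1
      · right
        have h3 : c = C.cN := (hC.n1 c hcl).1 hk
        rintro (⟨h4, h5⟩ | ⟨h4, h5⟩)
        · apply h1
          rw [hs, h3, h4, h5]
          rfl
        · apply h2
          rw [hs, h3, h4, h5]
          rfl
      · exact Or.inl hk
    rw [hs, wl_kboard ha1, wl_kboard ha1, e]
  · unfold Geo.kboard
    rw [if_neg hd, if_neg hd]

/-! ### the launch -/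

private def wlFrame (hC : C.Ok) : Frame where
  N := C.g.N
  X := 28 * C.cN
  Y := 12
  zl := 5
  zn := 21
  hzl := by norm_num
  hzn := by norm_num
  hX := by
    obtain ⟨cP, hcP, hP1, hlen, -⟩ := wl_near hC
    omega
  hX' := by
    obtain ⟨cP, hcP, hP1, hlen, -⟩ := wl_near hC
    have hNN : C.g.N = 28 * C.g.ops.length := rfl
    omega
  hY := by norm_num
  hY' := by
    have := hC.size
    push_cast
    omega
  hp := by omega

private def wlL (al : Bool) : LB :=
  if al then (((stN1.restr (full 3 25)).put 14 8 wk).put 15 9 wm).put 16 8 none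
    else (((stN1.restr (full 3 25)).put 15 9 wk).put 14 8 wm).put 13 7 none

private def wlD (al : Bool) : LB := if al then stD1 else stD0.put 15 9 wk

private theorem wl_run (al : Bool) : (wlL al).wf (full 3 25) = true ∧ ∃ L',
    LB.run (full 3 25) (zone 5 21) uAll .black (wlL al) (if al then mvL1 else mvL0) =
      some (L', .white) ∧ finW 5 21 L' stN1 (wlD al) (wtrk al) = true := by
  have h := chk_L al
  unfold chkL at h
  simp only [Bool.and_eq_true] at h
  obtain ⟨h1, h2⟩ := h
  refine ⟨h1, ?_⟩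
  rcases hr : LB.run (full 3 25) (zone 5 21) uAll .black (wlL al) (if al then mvL1 else mvL0)
    with _ | ⟨L', c'⟩
  · unfold wlL at hr
    rw [hr] at h2
    exact absurd h2 (by simp)
  · unfold wlL at hr
    rw [hr] at h2
    rcases c' with _ | _
    · exact ⟨L', rfl, h2⟩
    · exact absurd h2 (by simp)

private theorem wl_lboard (s : Square) : C.g.lboard C.cL C.cN al κ s =
    if al = true then
      (if s = (28 * (C.cN : ℤ) + 15, 21) then wm
        else if s = (28 * (C.cN : ℤ) + 16, 20) then none else C.g.kboard C.cL κ s)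
    else (if s = (28 * (C.cN : ℤ) + 14, 20) then wm
        else if s = (28 * (C.cN : ℤ) + 13, 19) then none else C.g.kboard C.cL κ s) := by
  unfold Geo.lboard
  cases al
  · simp only [Bool.false_eq_true, if_false, Function.update_apply]
  · simp only [if_true, Function.update_apply]

private theorem wl_light {s : Square} (h : ¬ 2 ∣ s.1 + s.2) : C.g.kboard C.cL κ s = none := by
  unfold Geo.kboard
  exact if_neg fun h' => h h'.2.2.2.2

private theorem wl_lightE {s : Square} (h : ¬ 2 ∣ s.1 + s.2) :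
    C.g.eboard C.cL C.cN al κ s = none := by
  unfold Geo.eboard
  exact if_neg fun h' => h h'.2.2.2.2

private theorem wl_getL {x y : ℤ} (hx : -4 ≤ x) (hx1 : x ≤ 28) (hy : -3 ≤ y) (hy1 : y ≤ 21)
    (hd : 2 ∣ x + y) : (wlL al).get x y =
    if al = true then
      (if x = 16 ∧ y = 8 then none else if x = 15 ∧ y = 9 then wm else
        if x = 14 ∧ y = 8 then wk else stN1.get x y)
    else (if x = 13 ∧ y = 7 then none else if x = 14 ∧ y = 8 then wm else
        if x = 15 ∧ y = 9 then wk else stN1.get x y) := by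
  have hr : (stN1.restr (full 3 25)).get x y = stN1.get x y := by
    rw [get_restr, if_pos ((wl_full hx hx1 (by omega) (by push_cast; omega)
      (by push_cast; omega)).2 hd)]
  unfold wlL
  cases al
  · simp only [Bool.false_eq_true, if_false]
    rw [wl_get_put _ _ _ _ _ _ (by omega) (by omega) (by omega) hx (by omega) (by omega),
      wl_get_put _ _ _ _ _ _ (by omega) (by omega) (by omega) hx (by omega) (by omega),
      wl_get_put _ _ _ _ _ _ (by omega) (by omega) (by omega) hx (by omega) (by omega), hr]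
  · simp only [if_true]
    rw [wl_get_put _ _ _ _ _ _ (by omega) (by omega) (by omega) hx (by omega) (by omega),
      wl_get_put _ _ _ _ _ _ (by omega) (by omega) (by omega) hx (by omega) (by omega),
      wl_get_put _ _ _ _ _ _ (by omega) (by omega) (by omega) hx (by omega) (by omega), hr]

/-- the local board after the launching move -/
private theorem wl_loc (hC : C.Ok) (hx : C.XOk κ) (hal : κ.al = some al) :
    Loc (wlFrame hC) (wlL al) (C.g.lboard C.cL C.cN al κ) where
  wf := (wl_run al).1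
  agree := by
    intro s hs
    obtain ⟨h1, h2, h3, h4⟩ := hs
    simp only [wlFrame] at h1 h2 h3 h4 ⊢
    obtain ⟨x, hx⟩ : ∃ x : ℤ, x = s.1 - 28 * (C.cN : ℤ) := ⟨_, rfl⟩
    obtain ⟨y, hy⟩ : ∃ y : ℤ, y = s.2 - 12 := ⟨_, rfl⟩
    have hs' : s = (28 * (C.cN : ℤ) + x, 12 + y) := by
      refine Prod.ext ?_ ?_ <;> simp only <;> omega
    rw [← hx] at h1 h2 ⊢
    rw [← hy] at h3 h4 ⊢
    have h3' : -3 ≤ y := by push_cast at h3; omega
    have h4' : y ≤ 21 := by push_cast at h4; omega
    rw [wl_lboard]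
    by_cases hd : 2 ∣ x + y
    · rw [wl_getL h1 h2 h3' h4' hd, hs', wl_winK hC h1 h2 h3' h4' hd, hal]
      simp only [Prod.mk.injEq]
      cases al
      · simp only [Bool.false_eq_true, if_false, Option.some.injEq, false_and, true_and, false_or]
        by_cases e1 : x = 14 ∧ y = 8
        · rw [if_pos (by omega), if_neg (by omega), if_pos e1]
        · rw [if_neg (by omega), if_neg e1]
          by_cases e2 : x = 13 ∧ y = 7
          · rw [if_pos (by omega), if_pos e2]
          · rw [if_neg (by omega), if_neg e2]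
      · simp only [if_true, Option.some.injEq, Bool.true_eq_false, false_and, true_and, or_false]
        by_cases e1 : x = 15 ∧ y = 9
        · rw [if_pos (by omega), if_neg (by omega), if_pos e1]
        · rw [if_neg (by omega), if_neg e1]
          by_cases e2 : x = 16 ∧ y = 8
          · rw [if_pos (by omega), if_pos e2]
          · rw [if_neg (by omega), if_neg e2]
    · have hdl : ¬ 2 ∣ s.1 + s.2 := by omega
      rw [wl_get_light (wl_run al).1 h1 h2 (by omega) (by push_cast; omega) (by push_cast; omega) hd,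
        wl_light hdl, hs']
      simp only [Prod.mk.injEq]
      cases al
      · rw [if_neg (by simp), if_neg (by omega)]
        split_ifs <;> rfl
      · rw [if_pos rfl, if_neg (by omega)]
        split_ifs <;> rfl
  jumps := by
    intro p s d hj
    by_contra hcon
    rw [not_or, not_or] at hcon
    obtain ⟨c1, c2, c3⟩ := hcon
    have key : ∀ t : Square, ¬ (wlFrame hC).InZone t →
        C.g.lboard C.cL C.cN al κ t = C.g.kboard C.cL κ t := by
      intro t ht
      have ht' : ¬ (-2 ≤ t.1 - 28 * (C.cN : ℤ) ∧ t.1 - 28 * (C.cN : ℤ) ≤ 26 ∧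
        -1 ≤ t.2 - 12 ∧ t.2 - 12 ≤ 19) := by
        rintro ⟨e1, e2, e3, e4⟩
        apply ht
        refine ⟨?_, ?_, ?_, ?_⟩ <;> simp only [wlFrame] <;> push_cast <;> omega
      have hne : ∀ a b : ℤ, -2 ≤ a → a ≤ 26 → 11 ≤ b → b ≤ 31 →
          t ≠ (28 * (C.cN : ℤ) + a, b) := by
        intro a b a1 a2 b1 b2 he
        rw [he] at ht'
        apply ht'
        simp only
        omega
      rw [wl_lboard]
      cases al
      · rw [if_neg (by simp), if_neg (hne 14 20 (by omega) (by omega) (by omega) (by omega)),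
          if_neg (hne 13 19 (by omega) (by omega) (by omega) (by omega))]
      · rw [if_pos rfl, if_neg (hne 15 21 (by omega) (by omega) (by omega) (by omega)),
          if_neg (hne 16 20 (by omega) (by omega) (by omega) (by omega))]
    obtain ⟨j1, j2, ⟨q, j3, j4⟩, j5, j6⟩ := hj
    rw [key _ c1] at j1
    rw [key _ c2] at j3
    rw [key _ c3] at j6
    exact kboard_quiet hC hx p s d ⟨j1, j2, ⟨q, j3, j4⟩, j5, j6⟩

/-- the board at the end of the run -/
private theorem wl_eq (hC : C.Ok) {L' : LB}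
    (hfin : finW 5 21 L' stN1 (wlD al) (wtrk al) = true) {b' : Board}
    (hb' : Loc (wlFrame hC) L' b')
    (heq : (wlFrame hC).EqOff (C.g.lboard C.cL C.cN al κ) b') : b' = C.wb al κ C.cN := by
  unfold finW at hfin
  simp only [Bool.and_eq_true, decide_eq_true_eq, List.all_eq_true] at hfin
  obtain ⟨⟨⟨-, -⟩, f3⟩, f4⟩ := hfin
  have hwt : wtrk al = 0 ∨ wtrk al = 1 := by cases al <;> simp [wtrk]
  funext s
  obtain ⟨x, hx⟩ : ∃ x : ℤ, x = s.1 - 28 * (C.cN : ℤ) := ⟨_, rfl⟩
  obtain ⟨y, hy⟩ : ∃ y : ℤ, y = s.2 - 12 := ⟨_, rfl⟩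
  have hs' : s = (28 * (C.cN : ℤ) + x, 12 + y) := by
    refine Prod.ext ?_ ?_ <;> simp only <;> omega
  have hport : (s = (28 * (C.cN : ℤ) - 1, 13 + 8 * (wtrk al : ℤ)) ∨
      s = (28 * (C.cN : ℤ) - 2, 14 + 8 * (wtrk al : ℤ))) ↔
      ((x = -1 ∧ y = 8 * (wtrk al : ℤ) + 1) ∨ (x = -2 ∧ y = 8 * (wtrk al : ℤ) + 2)) := by
    rw [hs', Prod.mk.injEq, Prod.mk.injEq]
    omega
  unfold Circ.wb Geo.wboard
  rw [if_congr hport rfl rfl]
  by_cases hw : -4 ≤ x ∧ x ≤ 28 ∧ -3 ≤ y ∧ y ≤ 21
  · obtain ⟨h1, h2, h3, h4⟩ := hw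
    have hin : (wlFrame hC).InWin s := by
      refine ⟨?_, ?_, ?_, ?_⟩ <;> simp only [wlFrame] <;> push_cast <;> omega
    have hag := hb'.agree s hin
    simp only [wlFrame] at hag
    rw [← hx, ← hy] at hag
    rw [hag]
    by_cases hd : 2 ∣ x + y
    · by_cases h0 : 0 ≤ x
      · rw [if_neg (by omega), if_pos (by omega)]
        have hbit : (geM (5 - 2) (21 + 4)).testBit (ix x y) = true :=
          wl_geM h0 h2 (by omega) (by push_cast; omega) (by push_cast; omega)
        have hbit2 : (full (5 - 2) (21 + 4)).testBit (ix x y) = true :=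
          (wl_full h1 h2 (by omega) (by push_cast; omega) (by push_cast; omega)).2 hd
        have e1 := get_restr L' (geM (5 - 2) (21 + 4)) x y
        have e2 := get_restr ((wlD al).restr (full (5 - 2) (21 + 4))) (geM (5 - 2) (21 + 4)) x y
        rw [if_pos hbit] at e1 e2
        have e3 : ((wlD al).restr (full (5 - 2) (21 + 4))).get x y = (wlD al).get x y := by
          rw [get_restr, if_pos hbit2]
        rw [← e1, f3, e2, e3, hs', wl_winE hC h0 h2 h3 h4 hd]
        unfold wlD KC.dead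
        cases al
        · simp only [Bool.false_eq_true, if_false, Option.some.injEq, false_and, true_and,
            false_or]
          rw [wl_get_put _ _ _ _ _ _ (by omega) (by omega) (by omega) h1 (by omega) (by omega)]
          rfl
        · simp only [if_true, reduceCtorEq, false_and, or_self, if_false]
          rfl
      · have hbit : (ltM (5 - 2) (21 + 4)).testBit (ix x y) = true :=
          wl_ltM h1 (by omega) (by omega) (by push_cast; omega) (by push_cast; omega)
        have hbit2 : (full (5 - 2) (21 + 4)).testBit (ix x y) = true :=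
          (wl_full h1 h2 (by omega) (by push_cast; omega) (by push_cast; omega)).2 hd
        have e1 := get_restr L' (ltM (5 - 2) (21 + 4)) x y
        have e2 := get_restr ((stN1.restr (full (5 - 2) (21 + 4))).portW 0 (wtrk al))
          (ltM (5 - 2) (21 + 4)) x y
        rw [if_pos hbit] at e1 e2
        have e3 : (stN1.restr (full (5 - 2) (21 + 4))).get x y = stN1.get x y := by
          rw [get_restr, if_pos hbit2]
        rw [← e1, f4, e2, wl_get_portW _ _ _ _ h1 h2 (by omega), if_neg (by omega), e3]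
        refine if_congr Iff.rfl rfl ?_
        rw [if_neg (by omega), hs', wl_winK hC h1 h2 h3 h4 hd, if_neg (by omega)]
    · have hdl : ¬ 2 ∣ s.1 + s.2 := by omega
      have hwf : L'.wf (full (5 - 2) (21 + 4)) = true := hb'.wf
      rw [wl_get_light hwf h1 h2 (by omega) (by push_cast; omega) (by push_cast; omega) hd,
        wl_light hdl, wl_lightE hdl]
      split_ifs <;> rfl
  · have hnz : ¬ (wlFrame hC).InZone s := by
      rintro ⟨e1, e2, e3, e4⟩
      simp only [wlFrame] at e1 e2 e3 e4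
      push_cast at e1 e2 e3 e4
      omega
    have hne : ∀ a b : ℤ, -2 ≤ a → a ≤ 26 → 11 ≤ b → b ≤ 31 →
        s ≠ (28 * (C.cN : ℤ) + a, b) := by
      intro a b a1 a2 b1 b2 he
      rw [he] at hx hy
      simp only at hx hy
      omega
    have hlk : b' s = C.g.kboard C.cL κ s := by
      rw [heq s hnz, wl_lboard]
      cases al
      · rw [if_neg (by simp), if_neg (hne 14 20 (by omega) (by omega) (by omega) (by omega)),
          if_neg (hne 13 19 (by omega) (by omega) (by omega) (by omega))]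
      · rw [if_pos rfl, if_neg (hne 15 21 (by omega) (by omega) (by omega) (by omega)),
          if_neg (hne 16 20 (by omega) (by omega) (by omega) (by omega))]
    have hkk : C.g.kboard C.cL (κ.dead false al) s = C.g.kboard C.cL κ s :=
      wl_outK hC (hne 14 20 (by omega) (by omega) (by omega) (by omega))
        (hne 15 21 (by omega) (by omega) (by omega) (by omega))
    rw [hlk, if_neg (by omega)]
    by_cases h0 : 28 * (C.cN : ℤ) ≤ s.1
    · rw [if_pos h0, wl_outE hC h0 (by omega), hkk]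
    · rw [if_neg h0, hkk]

theorem launch (hC : C.Ok) (hx : C.XOk κ) (hal : κ.al = some al) :
    C.WJump al κ C.cN ∧
    (MisereWins C.g.N .white (C.g.lboard C.cL C.cN al κ) .black ↔
      MisereWins C.g.N .white (C.wb al κ C.cN) .white) := by
  obtain ⟨-, L', hrun, hfin⟩ := wl_run al
  have hloc := wl_loc hC hx hal
  obtain ⟨b', h1, h2, h3, h4⟩ := run_sound (f := wlFrame hC) hrun hloc
  have hb := wl_eq hC hfin h1 h2
  rw [hb] at h1 h3 h4
  refine ⟨?_, h4 rfl, h3 rfl⟩
  unfold finW at hfin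
  simp only [Bool.and_eq_true, decide_eq_true_eq, List.all_eq_true] at hfin
  obtain ⟨⟨⟨f1, f2⟩, -⟩, -⟩ := hfin
  have hdgs : ∀ d : Dg, d ∈ dgs := by intro d; cases d <;> decide
  have f1' : ∀ d, L'.caps (wlFrame hC).F .black d = 0 := fun d => f1 d (hdgs d)
  have f2' : ∀ d, L'.caps (wlFrame hC).F .white d =
      if d = .ur then 1 <<< ix (-4) (8 * (wtrk al : ℤ)) else 0 := fun d => f2 d (hdgs d)
  have hwt : wtrk al = 0 ∨ wtrk al = 1 := by cases al <;> simp [wtrk]
  have hi : (wlFrame hC).F.testBit (ix (-4) (8 * (wtrk al : ℤ))) = true :=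
    (wl_full (lo := 5 - 2) (n := 21 + 4) (by omega) (by omega) (by omega) (by push_cast; omega)
      (by push_cast; omega)).2 (by omega)
  intro p s d hj
  rcases hcol : p.color with _ | _
  · obtain ⟨e1, e2, e3⟩ := one_jump hi f2' h1 hcol hj
    obtain ⟨g1, g2, g3, g4⟩ := e2
    simp only [wlFrame] at g1 g2 g3 g4 e3
    push_cast at g3 g4
    obtain ⟨k1, k2⟩ := ix_inj g1 (by omega) (by omega) (by omega) (by omega) (by omega) e3
    refine ⟨rfl, ?_, e1⟩
    refine Prod.ext ?_ ?_ <;> simp only <;> omega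
  · exact absurd hj (no_jump f1' h1 hcol)

end Pool.Agent.MC95
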