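import Pool.Agent.MC95.CircOk
import Pool.Agent.MC95.Chk2

/-!
# Windows of the board after a launch

PLAN. All statements say that the board `C.eb al κ xd kd` agrees with a local board in a window.
For a square `(28 * c + x, y)` with `-4 ≤ x ≤ 28` the tile is that of column `c - 1` (local column
`x + 28`) for `x < 0`, that of column `c` for `0 ≤ x ≤ 27`, that of column `c + 1` (local column `0`)
for `x = 28`. The special parts of tiles are in the local columns `1, ..., 23` only, so to the left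
and right of column `c` only the background, the corridor rows, the top rows and the trace of the
westbound wave matter. `cell_plain`: outside of the special parts, below row `8 * sg + 13` (relative
to the first row of track `0`), in a tile without corridor or below row `183`, and away from the row
`1` of the westbound tracks, the content of a dark square is the background, which is `stBg.get` by periodicity
(`stBg` contains the rows `-6, ..., 33`; the pattern has period 4 in `x` and period 8 in `y`).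
`st_bg`: outside of the special part the local boards of the tiles agree with `stBg` (finite check,
e.g. `decide +kernel` on masks). The kings: `kingAt` is `none` in the window unless the king is in
the window (`OpOk`, `Circ.Ok`, `Circ.XOk`: the corridor is in the rows `≥ 174` (relative), the tiles
in the corridor end below row `181` except `T`).
-/

namespace Pool.Agent.MC95

variable {C : Circ} {κ : KC} {al xd kd : Bool} {c : ℕ}

/-! ### finite checks -/

theorem wa_bg_chk : ∀ i : Fin 28, ∀ j : Fin 40, (i.1 + j.1) % 2 = 0 →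
    bgc 0 i.1 (j.1 + 6) = stBg.get (i.1 : ℤ) ((j.1 : ℤ) - 6) := by decide +kernel

theorem wa_bg_light : ∀ i : Fin 33, ∀ j : Fin 40, (i.1 + j.1) % 2 = 1 →
    stBg.get ((i.1 : ℤ) - 4) ((j.1 : ℤ) - 6) = none := by decide +kernel

theorem wa_bg_left : ∀ i : Fin 4, ∀ j : Fin 40,
    stBg.get ((i.1 : ℤ) + 24) ((j.1 : ℤ) - 6) = stBg.get ((i.1 : ℤ) - 4) ((j.1 : ℤ) - 6) := by
  decide +kernel

theorem wa_bg_right : ∀ j : Fin 40,
    stBg.get 0 ((j.1 : ℤ) - 6) = stBg.get 28 ((j.1 : ℤ) - 6) := by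
  decide +kernel

theorem wa_st_chk (k : Kind) (hk : k = .U ∨ k = .M ∨ k = .H ∨ k = .WF ∨ k = .BF) :
    ∀ i : Fin 33, ∀ j : Fin 40, (i.1 < 5 ∨ 27 < i.1 ∨ j.1 < 3 ∨ k.ytop + 6 < j.1 ∨ (i.1 + j.1) % 2 = 1) →
      k.st.get ((i.1 : ℤ) - 4) ((j.1 : ℤ) - 6) = stBg.get ((i.1 : ℤ) - 4) ((j.1 : ℤ) - 6) := by
  rcases hk with rfl | rfl | rfl | rfl | rfl
  · decide +kernel
  · decide +kernel
  · decide +kernel
  · decide +kernel
  · decide +kernel

theorem wa_dirty_right : ∀ al : Bool, ∀ i : Fin 4, ∀ j : Fin 29, (i.1 + j.1) % 2 = 0 →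
    (dirty al).get ((i.1 : ℤ) + 24) ((j.1 : ℤ) - 6) = bgc 0 (i.1 + 24) (j.1 + 6) := by
  decide +kernel

theorem wa_dirty_left : ∀ al : Bool, ∀ j : Fin 11, j.1 % 2 = 0 →
    (dirty al).get 0 ((j.1 : ℤ) + 12) = bgc 0 0 (j.1 + 24) := by
  decide +kernel

theorem wa_dirty_top : ∀ al : Bool, ∀ i : Fin 28, i.1 % 2 = 0 →
    (dirty al).get (i.1 : ℤ) 22 = bgc 0 i.1 34 := by
  decide +kernel

/-! ### the background -/

theorem wa_bgc_per {reg x Y Y' : ℕ} (h : (Y + 4) % 8 = (Y' + 4) % 8)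
    (hreg : reg = 0 ∨ (reg = 1 ∧ Y ≠ 13) ∨ (Y ≠ 13 ∧ Y ≠ 21)) : bgc reg x Y = bgc 0 x Y' := by
  have h1 : ¬ ((1 ≤ reg ∧ Y = 13) ∨ (2 ≤ reg ∧ Y = 21)) := by omega
  have h2 : ¬ ((1 ≤ 0 ∧ Y' = 13) ∨ (2 ≤ 0 ∧ Y' = 21)) := by omega
  unfold bgc
  rw [h, if_neg h1, if_neg h2]

theorem wa_bg_val {x Y reg : ℕ} {y : ℤ} (hx : x < 28) (hy0 : -6 ≤ y) (hy1 : y ≤ 33)
    (hd : 2 ∣ (x : ℤ) + y) (hY : (Y + 4) % 8 = ((y + 12).toNat + 4) % 8)
    (hreg : reg = 0 ∨ (reg = 1 ∧ Y ≠ 13) ∨ (Y ≠ 13 ∧ Y ≠ 21)) :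
    bgc reg x Y = stBg.get x y := by
  obtain ⟨j, hj⟩ : ∃ j : ℕ, y = (j : ℤ) - 6 := ⟨(y + 6).toNat, by omega⟩
  subst hj
  have h := wa_bg_chk ⟨x, hx⟩ ⟨j, by omega⟩ (by show (x + j) % 2 = 0; omega)
  rw [← h]
  exact wa_bgc_per (by rw [hY]; show _ = (j + 6 + 4) % 8; congr 2; omega) hreg

/-- The content of a plain square. -/
theorem cell_plain {N sg : ℕ} {o : Op} {x k : ℕ} {y : ℤ} (hy0 : -6 ≤ y) (hy1 : y ≤ 33)
    (hyk : 0 ≤ 12 + 8 * (k : ℤ) + y) (hx : x < 28) (hd : 2 ∣ (x : ℤ) + y)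
    (ht : ¬ o.InTile x (12 + 8 * (k : ℤ) + y).toNat)
    (hcor : o.cor = 0 ∨ o.cor = 4 ∨ 8 * (k : ℤ) + y < 183)
    (htop : 8 * (k : ℤ) + y ≤ 8 * (sg : ℤ) + 12)
    (hreg : o.regAt x = 0 ∨ (o.regAt x = 1 ∧ 8 * (k : ℤ) + y ≠ 1) ∨
      (8 * (k : ℤ) + y ≠ 1 ∧ 8 * (k : ℤ) + y ≠ 9))
    (hf : o.kind ≠ .first ∨ 2 ≤ x) :
    cell N sg o x (12 + 8 * (k : ℤ) + y).toNat = stBg.get x y := by
  obtain ⟨Y, hY⟩ : ∃ Y : ℕ, (12 + 8 * (k : ℤ) + y).toNat = Y := ⟨_, rfl⟩
  have hYz : (Y : ℤ) = 12 + 8 * (k : ℤ) + y := by omega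
  rw [hY] at ht ⊢
  unfold cell
  have c1 : ¬ (1 ≤ o.cor ∧ o.cor ≤ 3 ∧ Y = 12 + 8 * bT + 23) := by
    rintro ⟨h1, h2, h3⟩; simp only [bT] at h3; omega
  have c2 : ¬ (1 ≤ o.cor ∧ o.cor ≤ 3 ∧ Y = 12 + 8 * bT + 24) := by
    rintro ⟨h1, h2, h3⟩; simp only [bT] at h3; omega
  have c3 : ¬ (1 ≤ o.cor ∧ o.cor ≤ 3 ∧ (Y = 12 + 8 * bT + 25 ∨ Y = 12 + 8 * bT + 26)) := by
    rintro ⟨h1, h2, h3⟩; simp only [bT] at h3; omega
  have c4 : ¬ (o.kind = .first ∧ ((x = 0 ∧ Y + 2 = N) ∨ (x = 1 ∧ Y + 1 = N))) := by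
    rintro ⟨h1, h2⟩
    rcases hf with h | h
    · exact h h1
    · omega
  have c5 : ¬ (12 + 8 * sg + 22 ≤ Y) := by omega
  have c6 : ¬ (12 + 8 * sg + 19 ≤ Y) := by omega
  have c7 : ¬ (12 + 8 * sg + 14 ≤ Y) := by omega
  rw [if_neg ht, if_neg c1, if_neg c2, if_neg c3, if_neg c4, if_neg c5, if_neg c6, if_neg c7]
  by_cases c8 : 12 + 8 * sg + 11 ≤ Y
  · rw [if_pos c8]
    rw [← wa_bg_val (Y := Y) (reg := 0) hx hy0 hy1 hd (by omega) (Or.inl rfl)]
    unfold bgc
    have e1 : ¬ ((Y + 4) % 8 = 0) := by omega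
    have e2 : ¬ ((Y + 4) % 8 = 1) := by omega
    have e3 : ¬ ((Y + 4) % 8 = 2) := by omega
    have e4 : (Y + 4) % 8 ≤ 4 := by omega
    rw [if_neg e1, if_neg e2, if_neg e3, if_pos e4]
  · rw [if_neg c8]
    exact wa_bg_val hx hy0 hy1 hd (by omega) (by omega)

theorem eb_dark (s : Square) (p : Piece) (h : C.eb al κ xd kd s = some p) :
    IsDark C.g.N s := by
  unfold Circ.eb Geo.eboard at h
  by_contra hn
  rw [if_neg hn] at h
  exact absurd h (by simp)

/-! ### reading the board -/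

theorem wa_eb_light {s : Square} (h : ¬ 2 ∣ s.1 + s.2) : C.eb al κ xd kd s = none := by
  unfold Circ.eb Geo.eboard
  rw [if_neg]
  rintro ⟨_, _, _, _, h5⟩
  exact h h5

theorem wa_eb_eq {c' x' Y : ℕ} (hc' : c' < C.g.ops.length) (hx' : x' < 28) (hY : Y < C.g.N)
    (hd : 2 ∣ (x' : ℤ) + Y)
    (hk : kingAt C.g.N C.cL (κ.dead xd kd) (C.op c') c' x' Y = none) :
    C.eb al κ xd kd (28 * (c' : ℤ) + x', (Y : ℤ)) =
      ecell C.g.N C.g.sg C.cN al (C.op c') c' x' Y := by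
  have hN : C.g.N = 28 * C.g.ops.length := rfl
  have hdk : IsDark C.g.N ((28 * (c' : ℤ) + x', (Y : ℤ)) : Square) := by
    refine ⟨?_, ?_, ?_, ?_, ?_⟩
    · show 0 ≤ 28 * (c' : ℤ) + x'; omega
    · show 28 * (c' : ℤ) + x' < (C.g.N : ℤ); rw [hN]; push_cast; omega
    · show 0 ≤ (Y : ℤ); omega
    · show (Y : ℤ) < (C.g.N : ℤ); omega
    · show 2 ∣ 28 * (c' : ℤ) + x' + Y; omega
  have e1 : (28 * (c' : ℤ) + x').toNat / 28 = c' := by omega
  have e2 : (28 * (c' : ℤ) + x').toNat % 28 = x' := by omega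
  have e3 : ((Y : ℤ)).toNat = Y := by omega
  unfold Circ.eb Geo.eboard
  rw [if_pos hdk]
  simp only [e1, e2, e3]
  have hop : C.g.ops.getD c' default = C.op c' := rfl
  rw [hop, hk]

theorem wa_corRow_ge (o : Op) (x : ℕ) : 14 ≤ corRow o x := by
  unfold corRow
  split_ifs <;> omega

theorem wa_corRow_ge' (o : Op) (x : ℕ) (h : x < 2 ∨ 22 < x ∨ o.kind ≠ .T) : 23 ≤ corRow o x := by
  unfold corRow
  split_ifs with h1 h2
  · rcases h with h | h | h
    · omega
    · omega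
    · exact absurd h1.1 h
  · omega
  · omega

theorem wa_king_none {N cL : ℕ} {κ : KC} {o : Op} {c x Y : ℕ}
    (h1 : ¬ (1 ≤ o.cor ∧ o.cor ≤ 3 ∧ Y = 12 + 8 * bT + corRow o x))
    (h2 : 24 ≤ x ∨ (x = 0 ∧ o.kind ≠ .first) ∨ (o.kind ≠ .G ∧ o.kind ≠ .first ∧
      (o.kind = .N1 → 22 ≤ Y) ∧ (o.kind = .Y → Y < 12 + 8 * o.trk + 12 ∨ 12 + 8 * o.trk + 13 < Y))) :
    kingAt N cL κ o c x Y = none := by
  unfold kingAt
  rw [if_neg (by rintro ⟨_, _, h⟩; exact h1 h)]
  rcases h2 with h | ⟨h, h'⟩ | ⟨h3, h4, h5, h6⟩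
  · split
    · rw [if_neg (by omega)]
    · rw [if_neg (by omega)]
    · rw [if_neg (by omega)]
    · rw [if_neg (by omega)]
    · rfl
  · split
    · rw [if_neg (by omega)]
    · rw [if_neg (by omega)]
    · rw [if_neg (by omega)]
    · rename_i hk; exact absurd hk h'
    · rfl
  · split
    · rename_i hk
      have := h5 hk
      rw [if_neg (by omega)]
    · rename_i hk; exact absurd hk h3
    · rename_i hk
      have := h6 hk
      rw [if_neg (by omega)]
    · rename_i hk; exact absurd hk h4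
    · rfl

theorem wa_eb_plain {c' x' k : ℕ} {y : ℤ} (hc' : c' < C.g.ops.length) (hx' : x' < 28)
    (hy0 : -6 ≤ y) (hy1 : y ≤ 33) (hyk : 0 ≤ 12 + 8 * (k : ℤ) + y)
    (hYN : 12 + 8 * (k : ℤ) + y < C.g.N) (hd : 2 ∣ (x' : ℤ) + y)
    (ht : ¬ (C.op c').InTile x' (12 + 8 * (k : ℤ) + y).toNat)
    (hcor : (C.op c').cor = 0 ∨ (C.op c').cor = 4 ∨ 8 * (k : ℤ) + y < 183)
    (htop : 8 * (k : ℤ) + y ≤ 8 * (C.g.sg : ℤ) + 12)
    (hreg : (C.op c').regAt x' = 0 ∨ ((C.op c').regAt x' = 1 ∧ 8 * (k : ℤ) + y ≠ 1) ∨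
      (8 * (k : ℤ) + y ≠ 1 ∧ 8 * (k : ℤ) + y ≠ 9))
    (hf : (C.op c').kind ≠ .first ∨ 2 ≤ x')
    (hk : kingAt C.g.N C.cL (κ.dead xd kd) (C.op c') c' x' (12 + 8 * (k : ℤ) + y).toNat = none)
    (hN : c' = C.cN → 34 < 12 + 8 * (k : ℤ) + y ∨
      (dirty al).get x' (8 * (k : ℤ) + y) = bgc 0 x' (12 + 8 * (k : ℤ) + y).toNat)
    (htr : c' < C.cN → 15 + 8 * (wtrk al : ℤ) ≤ 12 + 8 * (k : ℤ) + y) :
    C.eb al κ xd kd (28 * (c' : ℤ) + x', 12 + 8 * (k : ℤ) + y) = stBg.get x' y := by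
  have hcp := cell_plain (N := C.g.N) (sg := C.g.sg) hy0 hy1 hyk hx' hd ht hcor htop hreg hf
  obtain ⟨Y, hY⟩ : ∃ Y : ℕ, (12 + 8 * (k : ℤ) + y).toNat = Y := ⟨_, rfl⟩
  have hYz : 12 + 8 * (k : ℤ) + y = (Y : ℤ) := by omega
  rw [hY] at hcp hk hN
  rw [hYz, wa_eb_eq hc' hx' (by omega) (by omega) hk]
  unfold ecell
  by_cases h1 : c' = C.cN ∧ 6 ≤ Y ∧ Y ≤ 34
  · rw [if_pos h1]
    rcases hN h1.1 with h2 | h2
    · omega
    · have e : (Y : ℤ) - 12 = 8 * (k : ℤ) + y := by omega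
      rw [e, h2]
      exact wa_bg_val hx' hy0 hy1 hd (by omega) (Or.inl rfl)
  · rw [if_neg h1, if_neg (by rintro ⟨h2, h3⟩; have := htr h2; omega),
      if_neg (by rintro ⟨h2, h3⟩; have := htr h2; omega),
      if_neg (by rintro ⟨h2, h3⟩; have := htr h2; omega)]
    exact hcp

theorem wa_bg_left' {x y : ℤ} (hx : -4 ≤ x) (hx' : x ≤ -1) (hy0 : -6 ≤ y) (hy1 : y ≤ 33) :
    stBg.get ((x + 28).toNat : ℤ) y = stBg.get x y := by
  obtain ⟨j, hj⟩ : ∃ j : ℕ, y = (j : ℤ) - 6 := ⟨(y + 6).toNat, by omega⟩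
  obtain ⟨i, hi⟩ : ∃ i : ℕ, x = (i : ℤ) - 4 := ⟨(x + 4).toNat, by omega⟩
  subst hj
  subst hi
  have h := wa_bg_left ⟨i, by omega⟩ ⟨j, by omega⟩
  have e : (((i : ℤ) - 4 + 28).toNat : ℤ) = (i : ℤ) + 24 := by omega
  rw [e]
  exact h

theorem wa_bg_right' {y : ℤ} (hy0 : -6 ≤ y) (hy1 : y ≤ 33) :
    stBg.get 0 y = stBg.get 28 y := by
  obtain ⟨j, hj⟩ : ∃ j : ℕ, y = (j : ℤ) - 6 := ⟨(y + 6).toNat, by omega⟩
  subst hj
  exact wa_bg_right ⟨j, by omega⟩

theorem wa_bg_light' {x y : ℤ} (hx : -4 ≤ x) (hx' : x ≤ 28) (hy0 : -6 ≤ y) (hy1 : y ≤ 33)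
    (hd : ¬ 2 ∣ x + y) : stBg.get x y = none := by
  obtain ⟨j, hj⟩ : ∃ j : ℕ, y = (j : ℤ) - 6 := ⟨(y + 6).toNat, by omega⟩
  obtain ⟨i, hi⟩ : ∃ i : ℕ, x = (i : ℤ) - 4 := ⟨(x + 4).toNat, by omega⟩
  subst hj
  subst hi
  exact wa_bg_light ⟨i, by omega⟩ ⟨j, by omega⟩ (by show (i + j) % 2 = 1; omega)

theorem wa_not_inTile_out {o : Op} {x Y : ℕ} (h : x < 1 ∨ 23 < x) : ¬ o.InTile x Y := by
  unfold Op.InTile
  rintro ⟨_, _, h1, h2, _⟩
  omega

theorem wa_regAt_out {o : Op} {x : ℕ} (h : 13 ≤ x) : o.regAt x = o.regAt 27 := by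
  unfold Op.regAt
  split
  · rw [if_neg (by omega), if_neg (by omega)]
  · rw [if_neg (by omega), if_neg (by omega)]
  · rw [if_neg (by omega), if_neg (by omega)]
  · rfl

theorem wa_dirty_right' (al : Bool) {x Y : ℕ} (h1 : 24 ≤ x) (h2 : x < 28) (h3 : 6 ≤ Y) (h4 : Y ≤ 34)
    (hd : (x + Y) % 2 = 0) : (dirty al).get x ((Y : ℤ) - 12) = bgc 0 x Y := by
  obtain ⟨i, rfl⟩ : ∃ i : ℕ, x = i + 24 := ⟨x - 24, by omega⟩
  obtain ⟨j, rfl⟩ : ∃ j : ℕ, Y = j + 6 := ⟨Y - 6, by omega⟩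
  have h := wa_dirty_right al ⟨i, by omega⟩ ⟨j, by omega⟩ (by show (i + j) % 2 = 0; omega)
  have e1 : ((i + 24 : ℕ) : ℤ) = (i : ℤ) + 24 := by push_cast; ring
  have e2 : ((j + 6 : ℕ) : ℤ) - 12 = (j : ℤ) - 6 := by push_cast; ring
  rw [e1, e2]
  exact h

theorem wa_dirty_left' (al : Bool) {Y : ℕ} (h3 : 24 ≤ Y) (h4 : Y ≤ 34)
    (hd : Y % 2 = 0) : (dirty al).get 0 ((Y : ℤ) - 12) = bgc 0 0 Y := by
  obtain ⟨j, rfl⟩ : ∃ j : ℕ, Y = j + 24 := ⟨Y - 24, by omega⟩
  have h := wa_dirty_left al ⟨j, by omega⟩ (by show j % 2 = 0; omega)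
  have e2 : ((j + 24 : ℕ) : ℤ) - 12 = (j : ℤ) + 12 := by push_cast; ring
  rw [e2]
  exact h

/-- Conditions on a row of a window. -/
structure wa_RowOk (C : Circ) (al : Bool) (c k : ℕ) (y : ℤ) : Prop where
  lo : -4 ≤ y
  hi : y ≤ 23
  k1 : 2 ≤ k ∨ (k = 1 ∧ al = true ∧ (C.op c).regAt 0 ≤ 1 ∧ (C.op c).regAt 27 ≤ 1)
  cor : (C.op c).cor = 0 ∨ 8 * (k : ℤ) + y ≤ 173 ∨ ((C.op c).kind ≠ .T ∧ 8 * (k : ℤ) + y ≤ 182)
  top : 8 * (k : ℤ) + y ≤ 8 * (C.g.sg : ℤ) + 12

theorem wa_RowOk.lt (hC : C.Ok) {k : ℕ} {y : ℤ} (h : wa_RowOk C al c k y) :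
    12 + 8 * (k : ℤ) + y < C.g.N := by
  have := hC.size
  have := h.top
  omega

theorem wa_RowOk.tr {k : ℕ} {y : ℤ} (h : wa_RowOk C al c k y) :
    15 + 8 * (wtrk al : ℤ) ≤ 12 + 8 * (k : ℤ) + y := by
  have h1 := h.lo
  rcases h.k1 with h2 | ⟨h2, h3, _⟩
  · have : wtrk al ≤ 1 := by unfold wtrk; split_ifs <;> omega
    omega
  · have : wtrk al = 0 := by unfold wtrk; rw [if_pos h3]
    omega

theorem wa_RowOk.ge {k : ℕ} {y : ℤ} (h : wa_RowOk C al c k y) : 16 ≤ 12 + 8 * (k : ℤ) + y := by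
  have h1 := h.lo
  rcases h.k1 with h2 | ⟨h2, h3, _⟩ <;> omega

theorem wa_side_left (hC : C.Ok) (hc : 1 ≤ c) (hc' : c + 1 < C.g.ops.length) {k : ℕ} {x y : ℤ}
    (hr : wa_RowOk C al c k y) (hx : -4 ≤ x) (hx' : x ≤ -1) (hd : 2 ∣ x + y) :
    C.eb al κ xd kd (28 * (c : ℤ) + x, 12 + 8 * (k : ℤ) + y) = stBg.get x y := by
  have hge := hr.ge
  have hlo := hr.lo
  have hhi := hr.hi
  have hlt := hr.lt hC
  have htop := hr.top
  rw [← wa_bg_left' hx hx' (by omega) (by omega)]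
  obtain ⟨c', rfl⟩ : ∃ c', c = c' + 1 := ⟨c - 1, by omega⟩
  have hfit := hC.fit c' (by omega)
  have hcc : (C.op c').cor = 0 ∨ (C.op c').cor = 4 ∨ 8 * (k : ℤ) + y ≤ 182 := by
    rcases hr.cor with h | h | h
    · rcases hfit.2.2 h with h' | h'
      · exact Or.inl h'
      · exact Or.inr (Or.inl h')
    · exact Or.inr (Or.inr (by omega))
    · exact Or.inr (Or.inr h.2)
  have e : (28 * ((c' + 1 : ℕ) : ℤ) + x) = 28 * (c' : ℤ) + ((x + 28).toNat : ℤ) := by
    push_cast; omega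
  rw [e]
  refine wa_eb_plain (by omega) (by omega) (by omega) (by omega) (by omega) hlt (by omega)
    (wa_not_inTile_out (by omega)) ?_ htop ?_ (Or.inr (by omega)) ?_ ?_ (fun _ => hr.tr)
  · rcases hcc with h | h | h
    · exact Or.inl h
    · exact Or.inr (Or.inl h)
    · exact Or.inr (Or.inr (by omega))
  · have h1 : (C.op c').regAt (x + 28).toNat = (C.op (c' + 1)).regAt 0 := by
      rw [wa_regAt_out (by omega), hfit.1]
    rw [h1]
    rcases hr.k1 with h2 | ⟨h2, _, h4, _⟩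
    · right; right; omega
    · omega
  · refine wa_king_none ?_ (Or.inl (by omega))
    rintro ⟨h1, h2, h3⟩
    have h4 := wa_corRow_ge' (C.op c') (x + 28).toNat (by omega)
    simp only [bT] at h3
    rcases hcc with h | h | h <;> omega
  · intro _
    by_cases h1 : 34 < 12 + 8 * (k : ℤ) + y
    · exact Or.inl h1
    · right
      obtain ⟨Y, hY⟩ : ∃ Y : ℕ, (12 + 8 * (k : ℤ) + y).toNat = Y := ⟨_, rfl⟩
      have e1 : 8 * (k : ℤ) + y = (Y : ℤ) - 12 := by omega
      rw [hY, e1]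
      exact wa_dirty_right' al (by omega) (by omega) (by omega) (by omega) (by omega)

theorem wa_side_right (hC : C.Ok) (hc' : c + 1 < C.g.ops.length) {k : ℕ} {y : ℤ}
    (hr : wa_RowOk C al c k y) (hd : 2 ∣ 28 + y) :
    C.eb al κ xd kd (28 * (c : ℤ) + 28, 12 + 8 * (k : ℤ) + y) = stBg.get 28 y := by
  have hge := hr.ge
  have hlo := hr.lo
  have hhi := hr.hi
  have hlt := hr.lt hC
  have htop := hr.top
  rw [← wa_bg_right' (by omega) (by omega)]
  have hfit := hC.fit c (by omega)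
  have hcc : (C.op (c + 1)).cor = 0 ∨ (C.op (c + 1)).cor = 4 ∨ 8 * (k : ℤ) + y ≤ 182 := by
    rcases hr.cor with h | h | h
    · rcases hfit.2.1 h with h' | h'
      · exact Or.inl h'
      · exact Or.inr (Or.inl h')
    · exact Or.inr (Or.inr (by omega))
    · exact Or.inr (Or.inr h.2)
  have hkf : (C.op (c + 1)).kind ≠ .first := by
    intro h
    have := (hC.first (c + 1) hc').mp h
    omega
  have e : (28 * (c : ℤ) + 28) = 28 * ((c + 1 : ℕ) : ℤ) + ((0 : ℕ) : ℤ) := by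
    push_cast; ring
  rw [e]
  have e0 : (0 : ℤ) = ((0 : ℕ) : ℤ) := rfl
  rw [e0]
  refine wa_eb_plain hc' (by omega) (by omega) (by omega) (by omega) hlt (by omega)
    (wa_not_inTile_out (by omega)) ?_ htop ?_ (Or.inl hkf) ?_ ?_ (fun _ => hr.tr)
  · rcases hcc with h | h | h
    · exact Or.inl h
    · exact Or.inr (Or.inl h)
    · exact Or.inr (Or.inr (by omega))
  · rw [hfit.1]
    rcases hr.k1 with h2 | ⟨h2, _, _, h4⟩
    · right; right; omega
    · omega
  · refine wa_king_none ?_ (Or.inr (Or.inl ⟨rfl, hkf⟩))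
    rintro ⟨h1, h2, h3⟩
    have h4 := wa_corRow_ge' (C.op (c + 1)) 0 (by omega)
    simp only [bT] at h3
    rcases hcc with h | h | h <;> omega
  · intro hN
    by_cases h1 : 34 < 12 + 8 * (k : ℤ) + y
    · exact Or.inl h1
    · right
      have hk2 : 2 ≤ k := by
        rcases hr.k1 with h2 | ⟨h2, _, _, h4⟩
        · exact h2
        · exfalso
          have h5 : (C.op (c + 1)).kind = .N1 := (hC.n1 (c + 1) hc').mpr hN
          have h6 : (C.op (c + 1)).regAt 0 = 2 := by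
            unfold Op.regAt
            rw [h5]
            rfl
          rw [← hfit.1, h6] at h4
          omega
      obtain ⟨Y, hY⟩ : ∃ Y : ℕ, (12 + 8 * (k : ℤ) + y).toNat = Y := ⟨_, rfl⟩
      have e1 : 8 * (k : ℤ) + y = (Y : ℤ) - 12 := by omega
      rw [hY, e1]
      exact wa_dirty_left' al (by omega) (by omega) (by omega)

theorem wa_side_mid (hC : C.Ok) (hc : 1 ≤ c) (hc' : c + 1 < C.g.ops.length) {k : ℕ} {x y : ℤ}
    (hr : wa_RowOk C al c k y) (hx : 0 ≤ x) (hx' : x ≤ 27) (hd : 2 ∣ x + y)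
    (ht : ¬ (C.op c).InTile x.toNat (12 + 8 * (k : ℤ) + y).toNat)
    (hreg : 2 ≤ k ∨ (C.op c).kind = .U)
    (hG : (C.op c).kind ≠ .G)
    (hN : (C.op c).kind = .N1 → 3 ≤ k)
    (hy3 : (C.op c).kind = .N1 → -2 ≤ y)
    (hY : (C.op c).kind = .Y → 12 + 8 * (k : ℤ) + y < 12 + 8 * (C.op c).trk + 12 ∨
      12 + 8 * ((C.op c).trk : ℤ) + 13 < 12 + 8 * (k : ℤ) + y) :
    C.eb al κ xd kd (28 * (c : ℤ) + x, 12 + 8 * (k : ℤ) + y) = stBg.get x y := by
  have hge := hr.ge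
  have hlo := hr.lo
  have hhi := hr.hi
  have hlt := hr.lt hC
  have htop := hr.top
  have hkf : (C.op c).kind ≠ .first := by
    intro h
    have := (hC.first c (by omega)).mp h
    omega
  obtain ⟨x', rfl⟩ : ∃ x' : ℕ, x = (x' : ℤ) := ⟨x.toNat, by omega⟩
  rw [Int.toNat_natCast] at ht
  refine wa_eb_plain (by omega) (by omega) (by omega) (by omega) (by omega) hlt hd
    ht ?_ htop ?_ (Or.inl hkf) ?_ ?_ (fun _ => hr.tr)
  · rcases hr.cor with h | h | h
    · exact Or.inl h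
    · exact Or.inr (Or.inr (by omega))
    · exact Or.inr (Or.inr (by omega))
  · rcases hr.k1 with h2 | ⟨h2, _, h4, _⟩
    · right; right; omega
    · have hU : (C.op c).kind = .U := by
        rcases hreg with h | h
        · omega
        · exact h
      have h5 : (C.op c).regAt x' = (C.op c).reg := by unfold Op.regAt; rw [hU]
      have h6 : (C.op c).regAt 0 = (C.op c).reg := by unfold Op.regAt; rw [hU]
      rw [h5]
      rw [h6] at h4
      omega
  · refine wa_king_none ?_ (Or.inr (Or.inr ⟨hG, hkf, ?_, ?_⟩))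
    · rintro ⟨h1, h2, h3⟩
      have h4 := wa_corRow_ge (C.op c) x'
      simp only [bT] at h3
      rcases hr.cor with h | h | ⟨h, h'⟩
      · omega
      · omega
      · have h5 := wa_corRow_ge' (C.op c) x' (Or.inr (Or.inr h))
        omega
    · intro h
      have := hN h
      omega
    · intro h
      have := hY h
      omega
  · intro h1
    have h2 : (C.op c).kind = .N1 := (hC.n1 c (by omega)).mpr h1
    have h3 := hN h2
    have h4 := hy3 h2
    by_cases h5 : 34 < 12 + 8 * (k : ℤ) + y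
    · exact Or.inl h5
    · right
      have e : 12 + 8 * (k : ℤ) + y = 34 := by omega
      have e1 : 8 * (k : ℤ) + y = 22 := by omega
      rw [e, e1]
      exact wa_dirty_top al ⟨x', by omega⟩ (by show x' % 2 = 0; omega)

/-- Straight passage. -/
theorem winEq_straight (hC : C.Ok) (hx : C.XOk κ) (hc : 1 ≤ c) (hc' : c + 1 < C.g.ops.length)
    {t : ℕ} (hs : straightOk C.g.sg (C.op c) t)
    (ht : ¬ ((C.op c).trk ≤ t ∧ t < (C.op c).trk + (C.op c).kind.n)) :
    WinEq (C.eb al κ xd kd) c t 6 3 stBg := by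
  obtain ⟨h2, hsg, hcor, hG, hfi⟩ := hs
  intro x y hx1 hx2 hy1 hy2
  have hy3 : -2 ≤ y := by push_cast at hy1; omega
  have hy4 : y ≤ 4 := by push_cast at hy2; omega
  by_cases hd : 2 ∣ x + y
  · have hr : wa_RowOk C al c t y := by
      refine ⟨by omega, by omega, Or.inl h2, ?_, by omega⟩
      rcases hcor with h | h
      · exact Or.inl h
      · exact Or.inr (Or.inl (by omega))
    by_cases hxn : x ≤ -1
    · exact wa_side_left hC hc hc' hr hx1 hxn hd
    · by_cases hx28 : x = 28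
      · subst hx28
        exact wa_side_right hC hc' hr hd
      · have hop := hC.tiles c (by omega)
        unfold OpOk at hop
        have hrow : ∀ Y : ℕ, (Y : ℤ) = 12 + 8 * (t : ℤ) + y → ¬ (C.op c).InTile x.toNat Y := by
          intro Y hY hin
          unfold Op.InTile at hin
          obtain ⟨hin1, hin2, hin3, hin4, hin5, hin6⟩ := hin
          cases hkd : (C.op c).kind <;> rw [hkd] at ht hop hin6 hin2 hin1 hG <;>
            simp only [Kind.n, Kind.ytop, ne_eq, not_true_eq_false] at ht hop hin6 hin2 hin1 hG <;> omega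
        refine wa_side_mid hC hc hc' hr (by omega) (by omega) hd (hrow _ (by omega)) (Or.inl h2) hG ?_
          (fun _ => hy3) ?_
        · intro hkd
          rw [hkd] at ht hop
          simp only [Kind.n] at ht hop
          omega
        · intro hkd
          rw [hkd] at ht hop
          simp only [Kind.n] at ht hop
          omega
  · rw [wa_bg_light' hx1 hx2 (by omega) (by omega) hd, wa_eb_light]
    show ¬ 2 ∣ (28 * (c : ℤ) + x) + (12 + 8 * (t : ℤ) + y)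
    omega

/-- The tiles U, M, H, WF, BF. -/
theorem winEq_std (hC : C.Ok) (hx : C.XOk κ) (hc : 1 ≤ c) (hc' : c + 1 < C.g.ops.length)
    (hk : (C.op c).kind = .U ∨ (C.op c).kind = .M ∨ (C.op c).kind = .H ∨ (C.op c).kind = .WF ∨
      (C.op c).kind = .BF) (h2 : 2 ≤ (C.op c).trk ∨ al = true) :
    WinEq (C.eb al κ xd kd) c (C.op c).trk (C.op c).kind.zl (C.op c).kind.zn (C.op c).kind.st := by
  intro x y hx1 hx2 hy1 hy2
  have hop := hC.tiles c (by omega)
  unfold OpOk at hop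
  obtain ⟨hreg2, hcor4, hop⟩ := hop
  have hG : (C.op c).kind ≠ .G := by rcases hk with h | h | h | h | h <;> rw [h] <;> decide
  have hT : (C.op c).kind ≠ .T := by rcases hk with h | h | h | h | h <;> rw [h] <;> decide
  have hY : (C.op c).kind ≠ .Y := by rcases hk with h | h | h | h | h <;> rw [h] <;> decide
  have hN1 : (C.op c).kind ≠ .N1 := by rcases hk with h | h | h | h | h <;> rw [h] <;> decide
  have hfi : (C.op c).kind ≠ .first := by rcases hk with h | h | h | h | h <;> rw [h] <;> decide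
  have hbl : (C.op c).kind ≠ .blank := by rcases hk with h | h | h | h | h <;> rw [h] <;> decide
  have hra : ∀ z, (C.op c).regAt z = (C.op c).reg := by
    intro z
    unfold Op.regAt
    rcases hk with h | h | h | h | h <;> rw [h]
  have hr : wa_RowOk C al c (C.op c).trk y := by
    rcases hk with h | h | h | h | h
    all_goals
      rw [h] at hy1 hy2 hop
      simp only [Kind.zl, Kind.zn] at hy1 hy2 hop
      push_cast at hy1 hy2
      refine ⟨by omega, by omega, ?_, ?_, by omega⟩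
      · rw [hra, hra]
        rcases h2 with h2 | h2
        · exact Or.inl h2
        · by_cases h3 : 2 ≤ (C.op c).trk
          · exact Or.inl h3
          · first
              | (exfalso; omega)
              | exact Or.inr ⟨by omega, h2, by omega, by omega⟩
      · by_cases hcz : (C.op c).cor = 0
        · exact Or.inl hcz
        · exact Or.inr (Or.inr ⟨hT, by omega⟩)
  have hlo := hr.lo
  have hhi := hr.hi
  have hchk : (x < 1 ∨ 23 < x ∨ y < -3 ∨ ((C.op c).kind.ytop : ℤ) < y ∨ ¬ 2 ∣ x + y) →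
      (C.op c).kind.st.get x y = stBg.get x y := by
    intro hout
    obtain ⟨j, hj⟩ : ∃ j : ℕ, y = (j : ℤ) - 6 := ⟨(y + 6).toNat, by omega⟩
    obtain ⟨i, hi⟩ : ∃ i : ℕ, x = (i : ℤ) - 4 := ⟨(x + 4).toNat, by omega⟩
    subst hj
    subst hi
    refine wa_st_chk _ hk ⟨i, by omega⟩ ⟨j, by omega⟩ ?_
    show i < 5 ∨ 27 < i ∨ j < 3 ∨ (C.op c).kind.ytop + 6 < j ∨ (i + j) % 2 = 1
    omega
  by_cases hd : 2 ∣ x + y
  · by_cases hxn : x ≤ -1
    · rw [hchk (by omega)]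
      exact wa_side_left hC hc hc' hr hx1 hxn hd
    · by_cases hx28 : x = 28
      · subst hx28
        rw [hchk (by omega)]
        exact wa_side_right hC hc' hr hd
      · by_cases hin : (C.op c).InTile x.toNat (12 + 8 * ((C.op c).trk : ℤ) + y).toNat
        · obtain ⟨x', rfl⟩ : ∃ x' : ℕ, x = (x' : ℤ) := ⟨x.toNat, by omega⟩
          rw [Int.toNat_natCast] at hin
          obtain ⟨Y, hYe⟩ : ∃ Y : ℕ, (12 + 8 * ((C.op c).trk : ℤ) + y).toNat = Y := ⟨_, rfl⟩
          have hge := hr.ge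
          have hYz : 12 + 8 * ((C.op c).trk : ℤ) + y = (Y : ℤ) := by omega
          have hlt := hr.lt hC
          have htr := hr.tr
          rw [hYe] at hin
          have hking : kingAt C.g.N C.cL (κ.dead xd kd) (C.op c) c x' Y = none := by
            refine wa_king_none ?_ (Or.inr (Or.inr ⟨hG, hfi, fun h => absurd h hN1, fun h => absurd h hY⟩))
            rintro ⟨h1, h2, h3⟩
            have h4 := wa_corRow_ge' (C.op c) x' (Or.inr (Or.inr hT))
            simp only [bT] at h3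
            rcases hr.cor with h | h | ⟨h, h'⟩ <;> omega
          rw [hYz, wa_eb_eq (by omega) (by omega) (by omega) (by omega) hking]
          unfold ecell
          have hcN : c ≠ C.cN := fun h => hN1 ((hC.n1 c (by omega)).mpr h)
          rw [if_neg (fun h => hcN h.1), if_neg (fun h => by have := h.2; omega),
            if_neg (fun h => by have := h.2; omega), if_neg (fun h => by have := h.2; omega)]
          unfold cell
          rw [if_pos hin]
          congr 1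
          omega
        · rw [wa_side_mid hC hc hc' hr (by omega) (by omega) hd hin ?_ hG (fun h => absurd h hN1)
            (fun h => absurd h hN1) (fun h => absurd h hY)]
          · refine (hchk ?_).symm
            unfold Op.InTile at hin
            by_contra hcon
            apply hin
            refine ⟨hfi, hbl, ?_, ?_, ?_, ?_⟩ <;> omega
          · rcases hk with h | h | h | h | h
            · exact Or.inr h
            all_goals
              left
              rw [h] at hop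
              simp only at hop
              omega
  · rw [hchk (by omega), wa_bg_light' hx1 hx2 (by omega) (by omega) hd, wa_eb_light]
    show ¬ 2 ∣ (28 * (c : ℤ) + x) + (12 + 8 * ((C.op c).trk : ℤ) + y)
    omega

end Pool.Agent.MC95
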