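import Pool.Agent.MC95.WinA

/-!
# Windows of the tiles Y and T after a launch

PLAN. As in `WinA.lean` (`cell_plain` is the main tool; inside the special part of the tile the
content is that of the local board by definition of `cell`, outside it is `stBg.get`, and a finite
check, e.g. `decide +kernel` on masks, says that the local board agrees with `stBg` there; for T the part in the
rows `≤ 16` only).
-/

namespace Pool.Agent.MC95

variable {C : Circ} {κ : KC} {al xd kd : Bool} {c : ℕ}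

/-! ### finite checks -/

/-- The local boards `L` and `L'` agree in the squares with the indices `i` and `j`. -/
private def agr (L L' : LB) (i j : ℕ) : Bool :=
  (L.w.testBit i == L'.w.testBit j) && (L.b.testBit i == L'.b.testBit j) &&
    (L.k.testBit i == L'.k.testBit j)

private theorem get_agr {L L' : LB} {x y x' y' : ℤ} (h : agr L L' (ix x y) (ix x' y') = true) :
    L.get x y = L'.get x' y' := by
  unfold agr at h
  simp only [Bool.and_eq_true, beq_iff_eq] at h
  unfold LB.get
  rw [h.1.1, h.1.2, h.2]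

/-- The square with the index `i` is empty. -/
private def emp (L : LB) (i : ℕ) : Bool := !L.w.testBit i && !L.b.testBit i

private theorem get_emp {L : LB} {x y : ℤ} (h : emp L (ix x y) = true) : L.get x y = none := by
  unfold emp at h
  simp only [Bool.and_eq_true, Bool.not_eq_true'] at h
  unfold LB.get
  rw [h.1, h.2]
  rfl

private theorem chk_Y : ∀ a < 33, ∀ b < 40, (a ≤ 4 ∨ 28 ≤ a) →
    agr stY stBg (a + 64 * b) (a + 64 * b) = true := by decide +kernel

private theorem chk_T : ∀ a < 33, ∀ b < 23, (a ≤ 4 ∨ 28 ≤ a) →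
    agr stT stBg (a + 64 * b) (a + 64 * b) = true := by decide +kernel

private theorem chk_par : ∀ a < 33, ∀ b < 40, (a + b) % 2 = 1 →
    emp stY (a + 64 * b) = true ∧ emp stT (a + 64 * b) = true ∧
      emp stBg (a + 64 * b) = true := by decide +kernel

private theorem chk_per : ∀ a < 5, ∀ b < 40,
    agr stBg stBg (28 + a + 64 * b) (a + 64 * b) = true := by decide +kernel

private theorem chk_dl : ∀ a < 4, ∀ b < 10, ∀ al : Bool,
    agr (dirty al) stBg (28 + a + 64 * (19 + b)) (28 + a + 64 * (3 + b)) = true ∧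
    (8 ≤ b → agr (dirty al) stBg (28 + a + 64 * (19 + b)) (28 + a + 64 * (b - 5)) = true) := by
  decide +kernel

private theorem chk_dr : ∀ b < 10, ∀ al : Bool,
    agr (dirty al) stBg (4 + 64 * (19 + b)) (4 + 64 * (3 + b)) = true ∧
    (8 ≤ b → agr (dirty al) stBg (4 + 64 * (19 + b)) (4 + 64 * (b - 5)) = true) := by
  decide +kernel

private theorem ix_nat (x y : ℤ) : ix x y = (x + 4).toNat + 64 * (y + 6).toNat := rfl

private theorem bg_par {x y : ℤ} (hx : -4 ≤ x) (hx1 : x ≤ 28) (hy : -6 ≤ y) (hy1 : y ≤ 33)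
    (h : ¬ 2 ∣ x + y) : stY.get x y = none ∧ stT.get x y = none ∧ stBg.get x y = none := by
  have h1 := chk_par (x + 4).toNat (by omega) (y + 6).toNat (by omega) (by omega)
  exact ⟨get_emp h1.1, get_emp h1.2.1, get_emp h1.2.2⟩

private theorem bg_per {x y : ℤ} (hx : -4 ≤ x) (hx1 : x ≤ 0) (hy : -6 ≤ y) (hy1 : y ≤ 33) :
    stBg.get (x + 28) y = stBg.get x y := by
  refine get_agr ?_
  have h1 := chk_per (x + 4).toNat (by omega) (y + 6).toNat (by omega)
  have h2 : ix (x + 28) y = 28 + (x + 4).toNat + 64 * (y + 6).toNat := by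
    rw [ix_nat]; omega
  rw [h2]
  exact h1

private theorem bg_Y {x y : ℤ} (hx : -4 ≤ x) (hx1 : x ≤ 28) (hy : -6 ≤ y) (hy1 : y ≤ 33)
    (h : x ≤ 0 ∨ 24 ≤ x) : stY.get x y = stBg.get x y :=
  get_agr (chk_Y (x + 4).toNat (by omega) (y + 6).toNat (by omega) (by omega))

private theorem bg_T {x y : ℤ} (hx : -4 ≤ x) (hx1 : x ≤ 28) (hy : -6 ≤ y) (hy1 : y ≤ 16)
    (h : x ≤ 0 ∨ 24 ≤ x) : stT.get x y = stBg.get x y :=
  get_agr (chk_T (x + 4).toNat (by omega) (y + 6).toNat (by omega) (by omega))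

/-! ### the board in a tile -/

private theorem eb_eq (c' x' r : ℕ) (hx' : x' < 28) :
    C.eb al κ xd kd (((28 * c' + x' : ℕ) : ℤ), (r : ℤ)) =
      if IsDark C.g.N (((28 * c' + x' : ℕ) : ℤ), (r : ℤ)) then
        match kingAt C.g.N C.cL (κ.dead xd kd) (C.op c') c' x' r with
        | some p => some p
        | none => ecell C.g.N C.g.sg C.cN al (C.op c') c' x' r
      else none := by
  have h1 : (28 * c' + x') / 28 = c' := by omega
  have h2 : (28 * c' + x') % 28 = x' := by omega
  unfold Circ.eb Geo.eboard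
  simp only [Int.toNat_natCast, h1, h2]
  rfl

private theorem eb_side (hC : C.Ok) {c' x' k : ℕ} {y : ℤ} (hc' : c' < C.g.ops.length)
    (hx' : 24 ≤ x' ∧ x' < 28 ∨ x' = 0 ∧ 1 ≤ c') (hk : 2 ≤ k) (hy : -3 ≤ y) (hy1 : y ≤ 28)
    (hcor : (C.op c').cor = 0 ∨ (C.op c').cor = 4 ∨ (k = 20 ∧ y ≤ 16))
    (htop : 8 * (k : ℤ) + y ≤ 8 * (C.g.sg : ℤ) + 12) :
    C.eb al κ xd kd (28 * (c' : ℤ) + x', 12 + 8 * (k : ℤ) + y) = stBg.get x' y := by
  have hx28 : x' < 28 := by omega
  obtain ⟨r, hr⟩ : ∃ r : ℕ, (r : ℤ) = 12 + 8 * (k : ℤ) + y := ⟨(12 + 8 * (k : ℤ) + y).toNat, by omega⟩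
  have hr' : (12 + 8 * (k : ℤ) + y).toNat = r := by omega
  have e1 : ((28 * (c' : ℤ) + x', 12 + 8 * (k : ℤ) + y) : Square) =
      (((28 * c' + x' : ℕ) : ℤ), (r : ℤ)) := by
    rw [hr]; push_cast; rfl
  rw [e1, eb_eq c' x' r hx28]
  by_cases hd : IsDark C.g.N (((28 * c' + x' : ℕ) : ℤ), (r : ℤ))
  · rw [if_pos hd]
    have hpar : (2 : ℤ) ∣ (x' : ℤ) + y := by
      have := hd.2.2.2.2
      simp only at this
      push_cast at this
      omega
    have hfirst : (C.op c').kind = .first → 24 ≤ x' := by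
      intro h
      have := (hC.first c' hc').1 h
      omega
    have hking : kingAt C.g.N C.cL (κ.dead xd kd) (C.op c') c' x' r = none := by
      unfold kingAt
      rw [if_neg]
      · cases hkd : (C.op c').kind <;> simp only
        · have := hfirst hkd
          rw [if_neg]
          rintro (⟨-, h, -⟩ | ⟨-, h, -⟩) <;> omega
        · rw [if_neg]
          rintro (⟨-, h, -⟩ | ⟨-, h, -⟩) <;> omega
        · rw [if_neg]
          rintro (⟨-, h, -⟩ | ⟨-, h, -⟩) <;> omega
        · rw [if_neg]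
          rintro (⟨-, h, -⟩ | ⟨-, h, -⟩) <;> omega
      · rintro ⟨-, -, h1, h2, h3⟩
        unfold corRow at h3
        have hT : bT = 20 := rfl
        rw [hT] at h3
        have h4 : k = 20 ∧ y ≤ 16 := by
          rcases hcor with h | h | h
          · omega
          · omega
          · exact h
        split_ifs at h3 <;> omega
    rw [hking]
    show ecell C.g.N C.g.sg C.cN al (C.op c') c' x' r = _
    unfold ecell
    have hw : wtrk al ≤ 1 := by unfold wtrk; split_ifs <;> omega
    by_cases h1 : c' = C.cN ∧ 6 ≤ r ∧ r ≤ 34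
    · rw [if_pos h1]
      refine get_agr ?_
      rcases hx' with hx' | hx'
      · have h2 := chk_dl (x' - 24) (by omega) (r - 25) (by omega) al
        have e2 : ix (x' : ℤ) ((r : ℤ) - 12) = 28 + (x' - 24) + 64 * (19 + (r - 25)) := by
          rw [ix_nat]; omega
        rw [e2]
        by_cases h3 : k = 2
        · have e3 : ix (x' : ℤ) y = 28 + (x' - 24) + 64 * (3 + (r - 25)) := by
            rw [ix_nat]; omega
          rw [e3]
          exact h2.1
        · have e3 : ix (x' : ℤ) y = 28 + (x' - 24) + 64 * ((r - 25) - 5) := by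
            rw [ix_nat]; omega
          rw [e3]
          exact h2.2 (by omega)
      · have h2 := chk_dr (r - 25) (by omega) al
        have e2 : ix (x' : ℤ) ((r : ℤ) - 12) = 4 + 64 * (19 + (r - 25)) := by
          rw [ix_nat]; omega
        rw [e2]
        by_cases h3 : k = 2
        · have e3 : ix (x' : ℤ) y = 4 + 64 * (3 + (r - 25)) := by
            rw [ix_nat]; omega
          rw [e3]
          exact h2.1
        · have e3 : ix (x' : ℤ) y = 4 + 64 * ((r - 25) - 5) := by
            rw [ix_nat]; omega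
          rw [e3]
          exact h2.2 (by omega)
    · rw [if_neg h1, if_neg (by omega), if_neg (by omega), if_neg (by omega)]
      rw [← hr']
      refine cell_plain (by omega) (by omega) (by omega) hx28 hpar ?_ ?_ htop (by omega) ?_
      · rintro ⟨-, -, h2, h3, -⟩
        omega
      · rcases hcor with h | h | h
        · exact Or.inl h
        · exact Or.inr (Or.inl h)
        · right; right; omega
      · by_cases h2 : (C.op c').kind = .first
        · right
          have := hfirst h2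
          omega
        · exact Or.inl h2
  · rw [if_neg hd]
    have hs := hC.size
    have hN : C.g.N = 28 * C.g.ops.length := rfl
    have hpar : ¬ (2 : ℤ) ∣ (x' : ℤ) + y := by
      intro h
      apply hd
      refine ⟨?_, ?_, ?_, ?_, ?_⟩
      · simp only; omega
      · simp only; omega
      · simp only; omega
      · simp only; omega
      · simp only; omega
    exact (bg_par (by omega) (by omega) (by omega) (by omega) hpar).2.2.symm

/-- The board in the tile `c`, of kind `Y` or `T`. -/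
private theorem eb_mid (hC : C.Ok) {x' k : ℕ} {y : ℤ} (hc : c < C.g.ops.length)
    (hkd : (C.op c).kind = .Y ∨ (C.op c).kind = .T) (hktrk : (C.op c).trk = k)
    (hx' : x' < 28) (hk : 2 ≤ k) (hy : -3 ≤ y) (hy1 : y ≤ (C.op c).kind.ytop)
    (hcor : (C.op c).cor = 0 ∨ (C.op c).cor = 4 ∨ (k = 20 ∧ y ≤ 16))
    (htop : 8 * (k : ℤ) + y ≤ 8 * (C.g.sg : ℤ) + 12) (hT : (C.op c).kind = .T → y ≤ 16) :
    C.eb al κ xd kd (28 * (c : ℤ) + x', 12 + 8 * (k : ℤ) + y) =
      if (2 : ℤ) ∣ (x' : ℤ) + y then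
        match kingAt C.g.N C.cL (κ.dead xd kd) (C.op c) c x' (12 + 8 * (k : ℤ) + y).toNat with
        | some p => some p
        | none => (C.op c).kind.st.get x' y
      else none := by
  obtain ⟨r, hr⟩ : ∃ r : ℕ, (r : ℤ) = 12 + 8 * (k : ℤ) + y := ⟨(12 + 8 * (k : ℤ) + y).toNat, by omega⟩
  have hr' : (12 + 8 * (k : ℤ) + y).toNat = r := by omega
  have e1 : ((28 * (c : ℤ) + x', 12 + 8 * (k : ℤ) + y) : Square) =
      (((28 * c + x' : ℕ) : ℤ), (r : ℤ)) := by
    rw [hr]; push_cast; rfl
  have hy28 : y ≤ 28 := by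
    rcases hkd with h | h <;> rw [h] at hy1 <;> simp only [Kind.ytop] at hy1 <;> omega
  have hcN : c ≠ C.cN := by
    intro h
    have := (hC.n1 c hc).2 h
    rcases hkd with h2 | h2 <;> rw [h2] at this <;> cases this
  have hf : (C.op c).kind ≠ .first := by
    rcases hkd with h2 | h2 <;> rw [h2] <;> simp
  have hs := hC.size
  have hN : C.g.N = 28 * C.g.ops.length := rfl
  rw [e1, eb_eq c x' r hx', hr']
  have hiff : IsDark C.g.N (((28 * c + x' : ℕ) : ℤ), (r : ℤ)) ↔ (2 : ℤ) ∣ (x' : ℤ) + y := by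
    constructor
    · intro h
      have := h.2.2.2.2
      simp only at this
      omega
    · intro h
      refine ⟨?_, ?_, ?_, ?_, ?_⟩
      · simp only; omega
      · simp only; omega
      · simp only; omega
      · simp only; omega
      · simp only; omega
  by_cases hd : (2 : ℤ) ∣ (x' : ℤ) + y
  · rw [if_pos hd, if_pos (hiff.2 hd)]
    have hcell : ecell C.g.N C.g.sg C.cN al (C.op c) c x' r = (C.op c).kind.st.get x' y := by
      unfold ecell
      have hw : wtrk al ≤ 1 := by unfold wtrk; split_ifs <;> omega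
      rw [if_neg (fun h => hcN h.1), if_neg (by omega), if_neg (by omega), if_neg (by omega)]
      by_cases h1 : 1 ≤ x' ∧ x' ≤ 23
      · unfold cell
        have h2 : (C.op c).InTile x' r := by
          refine ⟨hf, ?_, h1.1, h1.2, ?_, ?_⟩
          · rcases hkd with h2 | h2 <;> rw [h2] <;> simp
          · rw [hktrk]; omega
          · rw [hktrk]; omega
        rw [if_pos h2, hktrk]
        congr 1
        omega
      · have h2 : cell C.g.N C.g.sg (C.op c) x' (12 + 8 * (k : ℤ) + y).toNat = stBg.get x' y := by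
          refine cell_plain (by omega) (by omega) (by omega) hx' hd ?_ ?_ htop (by omega)
            (Or.inl hf)
          · rintro ⟨-, -, h2, h3, -⟩
            omega
          · rcases hcor with h | h | h
            · exact Or.inl h
            · exact Or.inr (Or.inl h)
            · right; right; omega
        rw [hr'] at h2
        rw [h2]
        rcases hkd with h3 | h3
        · rw [h3]
          exact (bg_Y (by omega) (by omega) (by omega) (by omega) (by omega)).symm
        · rw [h3]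
          exact (bg_T (by omega) (by omega) (by omega) (hT h3) (by omega)).symm
    rw [hcell]
  · rw [if_neg hd, if_neg (fun h => hd (hiff.1 h))]

/-- The part of a window outside of the tile. -/
private theorem win_side (hC : C.Ok) {k zl zn : ℕ} {st : LB} {a : ℤ}
    (hc : 1 ≤ c) (hc' : c + 1 < C.g.ops.length) (hk : 2 ≤ k) (hcor : (C.op c).cor = 0 ∨ k = 20)
    (hzl : 5 ≤ zl) (hzn : (zl : ℤ) + zn ≤ a + 5) (ha : a ≤ 28) (hcor' : (C.op c).cor ≠ 0 → a ≤ 16)
    (htop : 8 * (k : ℤ) + a ≤ 8 * (C.g.sg : ℤ) + 12)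
    (hst : ∀ x y : ℤ, -4 ≤ x → x ≤ 28 → -3 ≤ y → y ≤ a → x ≤ 0 ∨ 24 ≤ x →
      st.get x y = stBg.get x y) {x y : ℤ} (hx : -4 ≤ x) (hx1 : x ≤ 28) (hy : (zl : ℤ) - 2 ≤ y + 6)
    (hy1 : y + 6 < zl + zn + 2) (h : x < 0 ∨ x = 28) :
    C.eb al κ xd kd (28 * (c : ℤ) + x, 12 + 8 * (k : ℤ) + y) = st.get x y := by
  have hya : y ≤ a := by omega
  have key : ∀ c' : ℕ, (C.op c).cor = 0 ∧ ((C.op c').cor = 0 ∨ (C.op c').cor = 4) ∨
      (C.op c).cor ≠ 0 → (C.op c').cor = 0 ∨ (C.op c').cor = 4 ∨ (k = 20 ∧ y ≤ 16) := by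
    rintro c' (⟨-, h | h⟩ | h)
    · exact Or.inl h
    · exact Or.inr (Or.inl h)
    · right; right
      refine ⟨hcor.resolve_left h, ?_⟩
      have := hcor' h
      omega
  rcases h with h | h
  · obtain ⟨d, rfl⟩ : ∃ d, c = d + 1 := ⟨c - 1, by omega⟩
    have hfit := hC.fit d (by omega)
    have h1 := eb_side (al := al) (κ := κ) (xd := xd) (kd := kd) hC (c' := d)
      (x' := (x + 28).toNat) (k := k) (y := y) (by omega) (by omega) hk (by omega) (by omega)
      (key d (by
        by_cases h0 : (C.op (d + 1)).cor = 0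
        · exact Or.inl ⟨h0, hfit.2.2 h0⟩
        · exact Or.inr h0)) (by omega)
    have e1 : (((x + 28).toNat : ℕ) : ℤ) = x + 28 := by omega
    rw [e1] at h1
    have e2 : 28 * ((d : ℕ) : ℤ) + (x + 28) = 28 * ((d + 1 : ℕ) : ℤ) + x := by push_cast; ring
    rw [e2] at h1
    rw [h1, bg_per hx (by omega) (by omega) (by omega)]
    exact (hst x y hx hx1 (by omega) hya (by omega)).symm
  · subst h
    have hfit := hC.fit c (by omega)
    have h1 := eb_side (al := al) (κ := κ) (xd := xd) (kd := kd) hC (c' := c + 1)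
      (x' := 0) (k := k) (y := y) (by omega) (by omega) hk (by omega) (by omega)
      (key (c + 1) (by
        by_cases h0 : (C.op c).cor = 0
        · exact Or.inl ⟨h0, hfit.2.1 h0⟩
        · exact Or.inr h0)) (by omega)
    have e2 : 28 * ((c + 1 : ℕ) : ℤ) + ((0 : ℕ) : ℤ) = 28 * (c : ℤ) + 28 := by push_cast; ring
    rw [e2] at h1
    rw [h1]
    have h2 := bg_per (x := 0) (y := y) (by omega) (by omega) (by omega) (by omega)
    rw [Nat.cast_zero, ← h2]
    exact (hst 28 y (by omega) (by omega) (by omega) hya (by omega)).symm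

private theorem stY_ok : stY.w &&& stY.b = 0 ∧ stY.k ||| (stY.w ||| stY.b) = stY.w ||| stY.b := by
  decide +kernel

private theorem stT_ok : stT.w &&& stT.b = 0 ∧ stT.k ||| (stT.w ||| stT.b) = stT.w ||| stT.b := by
  decide +kernel

theorem winEq_Y (hC : C.Ok) (hx : C.XOk κ) (hc : 1 ≤ c) (hc' : c + 1 < C.g.ops.length)
    (hk : (C.op c).kind = .Y) :
    WinEq (C.eb al κ xd kd) c (C.op c).trk 5 28
      (if κ.y c then stY.put 10 12 bk else stY.put 9 13 bk) := by
  have hop := hC.tiles c (by omega)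
  unfold OpOk at hop
  rw [hk] at hop
  obtain ⟨-, -, h2, h3, h4⟩ := hop
  obtain ⟨X0, Y0, hL, hX0, hY0, hking⟩ : ∃ X0 Y0 : ℤ,
      (if κ.y c then stY.put 10 12 bk else stY.put 9 13 bk) = stY.put X0 Y0 bk ∧
      (1 ≤ X0 ∧ X0 ≤ 23) ∧ (0 ≤ Y0 ∧ Y0 ≤ 20 ∧ (2 : ℤ) ∣ X0 + Y0) ∧
      ∀ x' : ℕ, ∀ y : ℤ, -3 ≤ y →
        kingAt C.g.N C.cL (κ.dead xd kd) (C.op c) c x' (12 + 8 * ((C.op c).trk : ℤ) + y).toNat =
        if (x' : ℤ) = X0 ∧ y = Y0 then bk else none := by
    have hkg : ∀ x' : ℕ, ∀ y : ℤ, -3 ≤ y →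
        kingAt C.g.N C.cL (κ.dead xd kd) (C.op c) c x' (12 + 8 * ((C.op c).trk : ℤ) + y).toNat =
        if (κ.y c = true ∧ (x' : ℤ) = 10 ∧ y = 12) ∨ (κ.y c = false ∧ (x' : ℤ) = 9 ∧ y = 13)
          then bk else none := by
      intro x' y hy
      unfold kingAt
      rw [if_neg (by rw [h3]; omega), hk]
      simp only
      have e : (κ.dead xd kd).y c = κ.y c := rfl
      rw [e]
      congr 1
      apply propext
      constructor
      · rintro (⟨h5, h6, h7⟩ | ⟨h5, h6, h7⟩)
        · exact Or.inl ⟨h5, by omega, by omega⟩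
        · exact Or.inr ⟨h5, by omega, by omega⟩
      · rintro (⟨h5, h6, h7⟩ | ⟨h5, h6, h7⟩)
        · exact Or.inl ⟨h5, by omega, by omega⟩
        · exact Or.inr ⟨h5, by omega, by omega⟩
    cases hyc : κ.y c
    · refine ⟨9, 13, rfl, by omega, by omega, fun x' y hy => ?_⟩
      rw [hkg x' y hy, hyc]
      simp
    · refine ⟨10, 12, rfl, by omega, by omega, fun x' y hy => ?_⟩
      rw [hkg x' y hy, hyc]
      simp
  rw [hL]
  have hput : ∀ x y : ℤ, -4 ≤ x → x ≤ 28 → -3 ≤ y → (stY.put X0 Y0 bk).get x y =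
      if x = X0 ∧ y = Y0 then bk else stY.get x y := fun x y hx hx1 hy =>
    get_put stY X0 Y0 x y bk (by omega) (by omega) (by omega) hx (by omega) (by omega)
      stY_ok.1 stY_ok.2
  intro x y hx0 hx1 hy0 hy1
  push_cast at hy0 hy1
  by_cases hin : 0 ≤ x ∧ x < 28
  · obtain ⟨x', rfl⟩ : ∃ x' : ℕ, x = (x' : ℤ) := ⟨x.toNat, by omega⟩
    rw [eb_mid hC (by omega) (Or.inl hk) rfl (by omega) h2 (by omega) (by rw [hk]; show y ≤ 28; omega)
      (Or.inl h3) (by omega) (fun h => by rw [hk] at h; cases h), hput _ _ hx0 hx1 (by omega),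
      hking x' y (by omega), hk]
    by_cases hd : (2 : ℤ) ∣ (x' : ℤ) + y
    · rw [if_pos hd]
      by_cases h5 : (x' : ℤ) = X0 ∧ y = Y0
      · rw [if_pos h5, if_pos h5]
      · rw [if_neg h5, if_neg h5]
        rfl
    · rw [if_neg hd, if_neg]
      · exact (bg_par hx0 hx1 (by omega) (by omega) hd).1.symm
      · rintro ⟨rfl, rfl⟩
        exact hd hY0.2.2
  · refine win_side hC (a := 28) (zl := 5) (zn := 28) hc hc' h2 (Or.inl h3) (le_refl 5) (by omega) (by omega)
      (fun h => absurd h3 h) (by omega) ?_ hx0 hx1 (by push_cast; omega) (by push_cast; omega)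
      (by omega)
    intro x y hx hx1 hy hy1 h
    rw [hput x y hx hx1 hy, if_neg (by omega)]
    exact bg_Y hx hx1 (by omega) (by omega) h

private theorem king_T (hk : (C.op c).kind = .T) (h1 : (C.op c).trk = 20) (h2 : (C.op c).cor = 1)
    (hL : C.cL < c) {x' : ℕ} {y : ℤ} (hy : -3 ≤ y) (hy1 : y ≤ 16) (hx' : x' < 28) :
    kingAt C.g.N C.cL (κ.dead xd kd) (C.op c) c x' (12 + 8 * ((C.op c).trk : ℤ) + y).toNat =
      if (κ.dead xd kd).x = some (28 * c + x' - (28 * C.cL + 14)) ∧
        y = 14 + ((x' - 12 : ℕ) : ℤ) + ((12 - x' : ℕ) : ℤ) then wk else none := by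
  unfold kingAt
  rw [hk, h1, h2]
  simp only
  congr 1
  apply propext
  unfold corRow
  have hT : bT = 20 := rfl
  rw [hT, hk]
  constructor
  · rintro ⟨h3, h4, -, -, h5⟩
    refine ⟨h3, ?_⟩
    split_ifs at h5 with h6 h7
    · push_cast at h5
      omega
    · omega
    · omega
  · rintro ⟨h3, h4⟩
    refine ⟨h3, by omega, by omega, by omega, ?_⟩
    rw [if_pos ⟨rfl, by omega, by omega⟩]
    omega

private theorem winT_none (hC : C.Ok) (hc : 1 ≤ c) (hc' : c + 1 < C.g.ops.length)
    (hk : (C.op c).kind = .T)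
    (h : ∀ x' < 28, ∀ y : ℤ, -3 ≤ y → y ≤ 16 → ¬ ((κ.dead xd kd).x =
      some (28 * c + x' - (28 * C.cL + 14)) ∧
        y = 14 + ((x' - 12 : ℕ) : ℤ) + ((12 - x' : ℕ) : ℤ))) :
    WinEq (C.eb al κ xd kd) c (C.op c).trk 6 15 stT := by
  have hop := hC.tiles c (by omega)
  unfold OpOk at hop
  rw [hk] at hop
  obtain ⟨-, -, h2, h3⟩ := hop
  have hsg := hC.sg24
  have hL := ((hC.cor1 c (by omega)).1 h3).1
  intro x y hx0 hx1 hy0 hy1
  push_cast at hy0 hy1
  by_cases hin : 0 ≤ x ∧ x < 28
  · obtain ⟨x', rfl⟩ : ∃ x' : ℕ, x = (x' : ℤ) := ⟨x.toNat, by omega⟩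
    rw [eb_mid hC (by omega) (Or.inr hk) rfl (by omega) (by omega) (by omega)
      (by rw [hk]; show y ≤ 26; omega) (Or.inr (Or.inr ⟨h2, by omega⟩)) (by omega)
      (fun _ => by omega), king_T hk h2 h3 hL (by omega) (by omega) (by omega),
      if_neg (h x' (by omega) y (by omega) (by omega)), hk]
    by_cases hd : (2 : ℤ) ∣ (x' : ℤ) + y
    · rw [if_pos hd]
      rfl
    · rw [if_neg hd]
      exact (bg_par hx0 hx1 (by omega) (by omega) hd).2.1.symm
  · refine win_side hC (a := 16) (zl := 6) (zn := 15) hc hc' (by omega) (Or.inr h2) (by omega)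
      (by omega) (by omega) (fun _ => le_refl _) (by omega) ?_ hx0 hx1 (by push_cast; omega)
      (by push_cast; omega) (by omega)
    intro x y hx hx1 hy hy1 h
    exact bg_T hx hx1 (by omega) hy1 h

private theorem winT_put (hC : C.Ok) (hc : 1 ≤ c) (hc' : c + 1 < C.g.ops.length)
    (hk : (C.op c).kind = .T) {j : ℕ} (hj : 10 ≤ j ∧ j ≤ 14) {Y0 : ℤ}
    (hY0 : Y0 = 14 + ((j - 12 : ℕ) : ℤ) + ((12 - j : ℕ) : ℤ))
    (h : (κ.dead xd kd).x = some (28 * c + j - (28 * C.cL + 14))) :
    WinEq (C.eb al κ xd kd) c (C.op c).trk 6 15 (stT.put j Y0 wk) := by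
  have hop := hC.tiles c (by omega)
  unfold OpOk at hop
  rw [hk] at hop
  obtain ⟨-, -, h2, h3⟩ := hop
  have hsg := hC.sg24
  have hL := ((hC.cor1 c (by omega)).1 h3).1
  have hput : ∀ x y : ℤ, -4 ≤ x → x ≤ 28 → -3 ≤ y → (stT.put j Y0 wk).get x y =
      if x = j ∧ y = Y0 then wk else stT.get x y := fun x y hx hx1 hy =>
    get_put stT j Y0 x y wk (by omega) (by omega) (by omega) hx (by omega) (by omega)
      stT_ok.1 stT_ok.2
  intro x y hx0 hx1 hy0 hy1
  push_cast at hy0 hy1
  by_cases hin : 0 ≤ x ∧ x < 28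
  · obtain ⟨x', rfl⟩ : ∃ x' : ℕ, x = (x' : ℤ) := ⟨x.toNat, by omega⟩
    have hking : (if (κ.dead xd kd).x = some (28 * c + x' - (28 * C.cL + 14)) ∧
        y = 14 + ((x' - 12 : ℕ) : ℤ) + ((12 - x' : ℕ) : ℤ) then wk else none) =
        if (x' : ℤ) = j ∧ y = Y0 then wk else none := by
      congr 1
      apply propext
      rw [h]
      constructor
      · rintro ⟨h4, h5⟩
        have h6 := Option.some.inj h4
        have h7 : x' = j := by omega
        subst h7
        exact ⟨rfl, by omega⟩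
      · rintro ⟨h4, h5⟩
        have h7 : x' = j := by omega
        subst h7
        exact ⟨rfl, by omega⟩
    rw [eb_mid hC (by omega) (Or.inr hk) rfl (by omega) (by omega) (by omega)
      (by rw [hk]; show y ≤ 26; omega) (Or.inr (Or.inr ⟨h2, by omega⟩)) (by omega)
      (fun _ => by omega), king_T hk h2 h3 hL (by omega) (by omega) (by omega),
      hking, hk, hput _ _ hx0 hx1 (by omega)]
    by_cases hd : (2 : ℤ) ∣ (x' : ℤ) + y
    · rw [if_pos hd]
      by_cases h5 : (x' : ℤ) = j ∧ y = Y0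
      · rw [if_pos h5, if_pos h5]
      · rw [if_neg h5, if_neg h5]
        rfl
    · rw [if_neg hd, if_neg]
      · exact (bg_par hx0 hx1 (by omega) (by omega) hd).2.1.symm
      · rintro ⟨h4, h5⟩
        exact hd (by omega)
  · refine win_side hC (a := 16) (zl := 6) (zn := 15) hc hc' (by omega) (Or.inr h2) (by omega)
      (by omega) (by omega) (fun _ => le_refl _) (by omega) ?_ hx0 hx1 (by push_cast; omega)
      (by push_cast; omega) (by omega)
    intro x y hx hx1 hy hy1 h
    rw [hput x y hx hx1 hy, if_neg (by omega)]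
    exact bg_T hx hx1 (by omega) hy1 h

theorem winEq_T_yes (hC : C.Ok) (hx : C.XOk κ) (hc : 1 ≤ c) (hc' : c + 1 < C.g.ops.length)
    (hk : (C.op c).kind = .T) (h : κ.x = some (C.stopAt c)) :
    WinEq (C.eb al κ false kd) c (C.op c).trk 6 15 (stT.put 12 14 wk) := by
  have := winT_put (al := al) (κ := κ) (xd := false) (kd := kd) hC hc hc' hk (j := 12)
    (by omega) (Y0 := 14) (by simp) (by
      show (if false = true then none else κ.x) = _
      rw [if_neg (by simp), h]
      rfl)
  exact_mod_cast this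

theorem winEq_T_gone (hC : C.Ok) (hx : C.XOk κ) (hc : 1 ≤ c) (hc' : c + 1 < C.g.ops.length)
    (hk : (C.op c).kind = .T) :
    WinEq (C.eb al κ true kd) c (C.op c).trk 6 15 stT := by
  refine winT_none hC hc hc' hk ?_
  rintro x' - y - - ⟨h, -⟩
  cases h

theorem winEq_T_no (hC : C.Ok) (hx : C.XOk κ) (hc : 1 ≤ c) (hc' : c + 1 < C.g.ops.length)
    (hk : (C.op c).kind = .T) (h : κ.x ≠ some (C.stopAt c)) :
    ∃ L, (L = stT ∨ L = stT.put 11 15 wk ∨ L = stT.put 13 15 wk ∨ L = stT.put 10 16 wk ∨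
      L = stT.put 14 16 wk) ∧ WinEq (C.eb al κ xd kd) c (C.op c).trk 6 15 L := by
  have h12 : (κ.dead xd kd).x ≠ some (28 * c + 12 - (28 * C.cL + 14)) := by
    intro h'
    apply h
    cases xd
    · exact h'
    · cases h'
  by_cases h10 : (κ.dead xd kd).x = some (28 * c + 10 - (28 * C.cL + 14))
  · refine ⟨stT.put 10 16 wk, by simp, ?_⟩
    have := winT_put (al := al) hC hc hc' hk (j := 10) (by omega) (Y0 := 16) (by simp) h10
    exact_mod_cast this
  by_cases h11 : (κ.dead xd kd).x = some (28 * c + 11 - (28 * C.cL + 14))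
  · refine ⟨stT.put 11 15 wk, by simp, ?_⟩
    have := winT_put (al := al) hC hc hc' hk (j := 11) (by omega) (Y0 := 15) (by simp) h11
    exact_mod_cast this
  by_cases h13 : (κ.dead xd kd).x = some (28 * c + 13 - (28 * C.cL + 14))
  · refine ⟨stT.put 13 15 wk, by simp, ?_⟩
    have := winT_put (al := al) hC hc hc' hk (j := 13) (by omega) (Y0 := 15) (by simp) h13
    exact_mod_cast this
  by_cases h14 : (κ.dead xd kd).x = some (28 * c + 14 - (28 * C.cL + 14))
  · refine ⟨stT.put 14 16 wk, by simp, ?_⟩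
    have := winT_put (al := al) hC hc hc' hk (j := 14) (by omega) (Y0 := 16) (by simp) h14
    exact_mod_cast this
  refine ⟨stT, Or.inl rfl, winT_none hC hc hc' hk ?_⟩
  rintro x' hx' y hy hy1 ⟨h1, h2⟩
  have h3 : x' = 10 ∨ x' = 11 ∨ x' = 12 ∨ x' = 13 ∨ x' = 14 := by omega
  rcases h3 with rfl | rfl | rfl | rfl | rfl
  · exact h10 h1
  · exact h11 h1
  · exact h12 h1
  · exact h13 h1
  · exact h14 h1

theorem eb_T_off (hC : C.Ok) (hc : c < C.g.ops.length) (hk : (C.op c).kind = .T)
    (h : κ.x = some (C.stopAt c)) (s : Square) (hs : ¬ InZ c (C.op c).trk 6 15 s) :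
    C.eb al κ true kd s = C.eb al κ false kd s := by
  have hop := hC.tiles c hc
  unfold OpOk at hop
  rw [hk] at hop
  obtain ⟨-, -, h2, h3⟩ := hop
  have hL := ((hC.cor1 c hc).1 h3).1
  unfold Circ.eb Geo.eboard
  by_cases hd : IsDark C.g.N s
  · rw [if_pos hd, if_pos hd]
    have hd' := hd
    obtain ⟨hd1, hd2, hd3, hd4, hd5⟩ := hd'
    have hking : kingAt C.g.N C.cL (κ.dead true kd) (C.g.ops.getD (s.1.toNat / 28) default)
        (s.1.toNat / 28) (s.1.toNat % 28) s.2.toNat =
        kingAt C.g.N C.cL (κ.dead false kd) (C.g.ops.getD (s.1.toNat / 28) default)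
        (s.1.toNat / 28) (s.1.toNat % 28) s.2.toNat := by
      have e1 : ¬ ((κ.dead true kd).x =
          some (28 * (s.1.toNat / 28) + s.1.toNat % 28 - (28 * C.cL + 14)) ∧
          28 * C.cL + 14 ≤ 28 * (s.1.toNat / 28) + s.1.toNat % 28 ∧
          1 ≤ (C.g.ops.getD (s.1.toNat / 28) default).cor ∧
          (C.g.ops.getD (s.1.toNat / 28) default).cor ≤ 3 ∧ s.2.toNat = 12 + 8 * bT +
            corRow (C.g.ops.getD (s.1.toNat / 28) default) (s.1.toNat % 28)) := by
        rintro ⟨h5, -⟩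
        have h6 : (none : Option ℕ) =
          some (28 * (s.1.toNat / 28) + s.1.toNat % 28 - (28 * C.cL + 14)) := h5
        simp at h6
      have e2 : ¬ ((κ.dead false kd).x =
          some (28 * (s.1.toNat / 28) + s.1.toNat % 28 - (28 * C.cL + 14)) ∧
          28 * C.cL + 14 ≤ 28 * (s.1.toNat / 28) + s.1.toNat % 28 ∧
          1 ≤ (C.g.ops.getD (s.1.toNat / 28) default).cor ∧
          (C.g.ops.getD (s.1.toNat / 28) default).cor ≤ 3 ∧ s.2.toNat = 12 + 8 * bT +
            corRow (C.g.ops.getD (s.1.toNat / 28) default) (s.1.toNat % 28)) := by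
        rintro ⟨h5, h6, h7, h8, h9⟩
        have h10 : κ.x = some (28 * (s.1.toNat / 28) + s.1.toNat % 28 - (28 * C.cL + 14)) := h5
        rw [h] at h10
        have h11 := Option.some.inj h10
        unfold Circ.stopAt at h11
        have h12 : s.1.toNat / 28 = c ∧ s.1.toNat % 28 = 12 := by omega
        rw [h12.1, h12.2] at h9
        have h13 : corRow (C.op c) 12 = 14 := by
          unfold corRow
          rw [if_pos ⟨hk, by omega, by omega⟩]
        have h14 : C.g.ops.getD c default = C.op c := rfl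
        rw [h14, h13] at h9
        have hT : bT = 20 := rfl
        rw [hT] at h9
        apply hs
        unfold InZ
        rw [h2]
        push_cast
        omega
      unfold kingAt
      rw [if_neg e1, if_neg e2]
      rfl
    rw [hking]
  · rw [if_neg hd, if_neg hd]

end Pool.Agent.MC95
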